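import Mathlib

open Finset

namespace Pool.Agent.X147.Tp

variable {h : ℕ}

/-- every homogeneous set of the tournament `T` is trivial -/
def Prime (T : Fin h → Fin h → Prop) : Prop :=
  ∀ M : Set (Fin h), (∀ v, v ∉ M → ∀ m ∈ M, ∀ m' ∈ M, (T v m ↔ T v m')) →
    (∀ x ∈ M, ∀ y ∈ M, x = y) ∨ (∀ x, x ∈ M)

/-- finite `T`-free tournaments on finite sets of naturals -/
structure Cond (T : Fin h → Fin h → Prop) where
  D : Finset ℕ
  r : ℕ → ℕ → Prop
  irr : ∀ x ∈ D, ¬ r x x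
  tot : ∀ x ∈ D, ∀ y ∈ D, x ≠ y → (r x y ↔ ¬ r y x)
  free : ¬ ∃ φ : Fin h → ℕ, (∀ i, φ i ∈ D) ∧ ∀ i j, T i j ↔ r (φ i) (φ j)

variable {T : Fin h → Fin h → Prop}

instance : Preorder (Cond T) where
  le p q := p.D ⊆ q.D ∧ ∀ x ∈ p.D, ∀ y ∈ p.D, (p.r x y ↔ q.r x y)
  le_refl p := ⟨Finset.Subset.refl _, fun _ _ _ _ => Iff.rfl⟩
  le_trans p q s hpq hqs := ⟨hpq.1.trans hqs.1, fun x hx y hy =>
    (hpq.2 x hx y hy).trans (hqs.2 x (hpq.1 hx) y (hpq.1 hy))⟩

lemma le_def {p q : Cond T} : p ≤ q ↔ p.D ⊆ q.D ∧ ∀ x ∈ p.D, ∀ y ∈ p.D, (p.r x y ↔ q.r x y) :=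
  Iff.rfl

def flip (a b : ℕ) (r : ℕ → ℕ → Prop) (x y : ℕ) : Prop :=
  (x = b ∧ y = a) ∨ (¬ (x = a ∧ y = b) ∧ ¬ (x = b ∧ y = a) ∧ r x y)

lemma clone_step (hT2 : ∀ x y, x ≠ y → (T x y ↔ ¬ T y x)) (h3 : 3 ≤ h)
    (hp : Prime T) (p : Cond T) {m g : ℕ} (hm : m ∉ p.D) (hg : g ∈ p.D) :
    ∃ q : Cond T, p ≤ q ∧ q.D = insert m p.D ∧
      ∀ x ∈ p.D, x ≠ g → (q.r m x ↔ p.r g x) ∧ (q.r x m ↔ p.r x g) := by
  classical
  have hmg : m ≠ g := fun h => hm (h ▸ hg)
  set L : ℕ → ℕ := fun x => if x = m then g else x with hL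
  have hLm : L m = g := if_pos rfl
  have hLx : ∀ x, x ≠ m → L x = x := fun x hx => if_neg hx
  set R : ℕ → ℕ → Prop := fun x y => (x = g ∧ y = m) ∨
    (¬ (x = g ∧ y = m) ∧ ¬ (x = m ∧ y = g) ∧ p.r (L x) (L y)) with hR
  have hRgen : ∀ x y, ¬ (x = g ∧ y = m) → ¬ (x = m ∧ y = g) → (R x y ↔ p.r (L x) (L y)) := by
    intro x y h1 h2
    constructor
    · rintro (h3 | ⟨_, _, h3⟩)
      · exact absurd h3 h1
      · exact h3
    · exact fun h3 => Or.inr ⟨h1, h2, h3⟩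
  have hRgm : R g m := Or.inl ⟨rfl, rfl⟩
  have hRmg : ¬ R m g := by
    rintro (⟨h1, _⟩ | ⟨_, h1, _⟩)
    · exact hmg h1
    · exact h1 ⟨rfl, rfl⟩
  have hne : ∀ x ∈ p.D, x ≠ m := fun x hx h => hm (h ▸ hx)
  have hLD : ∀ x ∈ insert m p.D, L x ∈ p.D := by
    intro x hx
    rcases Finset.mem_insert.1 hx with rfl | hx
    · rw [hLm]; exact hg
    · rw [hLx x (hne x hx)]; exact hx
  have hirr : ∀ x ∈ insert m p.D, ¬ R x x := by
    intro x hx
    rw [hRgen x x (fun h => hmg (h.2.symm.trans h.1)) (fun h => hmg (h.1.symm.trans h.2))]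
    exact p.irr _ (hLD x hx)
  have htot : ∀ x ∈ insert m p.D, ∀ y ∈ insert m p.D, x ≠ y → (R x y ↔ ¬ R y x) := by
    intro x hx y hy hxy
    by_cases h1 : x = g ∧ y = m
    · obtain ⟨rfl, rfl⟩ := h1
      exact ⟨fun _ => hRmg, fun _ => hRgm⟩
    by_cases h2 : x = m ∧ y = g
    · obtain ⟨rfl, rfl⟩ := h2
      exact ⟨fun h => absurd h hRmg, fun h => absurd hRgm h⟩
    rw [hRgen x y h1 h2, hRgen y x (fun h => h2 ⟨h.2, h.1⟩) (fun h => h1 ⟨h.2, h.1⟩)]
    apply p.tot _ (hLD x hx) _ (hLD y hy)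
    intro h3
    by_cases hxm : x = m
    · subst hxm
      rw [hLm, hLx y (Ne.symm hxy)] at h3
      exact h2 ⟨rfl, h3.symm⟩
    · by_cases hym : y = m
      · subst hym
        rw [hLm, hLx x hxm] at h3
        exact h1 ⟨h3, rfl⟩
      · rw [hLx x hxm, hLx y hym] at h3
        exact hxy h3
  refine ⟨⟨insert m p.D, R, hirr, htot, ?_⟩, ⟨Finset.subset_insert _ _, ?_⟩, rfl, ?_⟩
  · rintro ⟨φ, hφD, hφ⟩
    have hinj : ∀ i j, φ i = φ j → i = j := by
      intro i j hij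
      by_contra hne
      have h1 := hT2 i j hne
      rw [hφ, hφ, hij] at h1
      exact iff_not_self h1
    by_cases hex : (∃ i, φ i = m) ∧ (∃ j, φ j = g)
    · obtain ⟨⟨i, hi⟩, ⟨j, hj⟩⟩ := hex
      have hij : i ≠ j := by
        rintro rfl
        exact hmg (hi.symm.trans hj)
      have hmod : ∀ v, v ∉ ({x | x = i ∨ x = j} : Set (Fin h)) →
          ∀ k ∈ ({x | x = i ∨ x = j} : Set (Fin h)), ∀ k' ∈ ({x | x = i ∨ x = j} : Set (Fin h)),
          (T v k ↔ T v k') := by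
        intro v hv
        have hv1 : v ≠ i := fun h => hv (Or.inl h)
        have hv2 : v ≠ j := fun h => hv (Or.inr h)
        have hvm : φ v ≠ m := fun h => hv1 (hinj _ _ (h.trans hi.symm))
        have hvg : φ v ≠ g := fun h => hv2 (hinj _ _ (h.trans hj.symm))
        have key : ∀ k, (k = i ∨ k = j) → (T v k ↔ p.r (φ v) g) := by
          intro k hk
          rw [hφ, hRgen _ _ (fun h => hvg h.1) (fun h => hvm h.1), hLx _ hvm]
          rcases hk with rfl | rfl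
          · rw [hi, hLm]
          · rw [hj, hLx g (Ne.symm hmg)]
        intro k hk k' hk'
        exact (key k hk).trans (key k' hk').symm
      rcases hp _ hmod with h1 | h1
      · exact hij (h1 i (Or.inl rfl) j (Or.inr rfl))
      · have hsub : (univ : Finset (Fin h)) ⊆ {i, j} := by
          intro x _
          rw [Finset.mem_insert, Finset.mem_singleton]
          exact h1 x
        have h2 := Finset.card_le_card hsub
        rw [Finset.card_univ, Fintype.card_fin] at h2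
        have := Finset.card_le_two (a := i) (b := j)
        omega
    · apply p.free
      refine ⟨fun i => L (φ i), fun i => hLD _ (hφD i), fun i j => ?_⟩
      rw [hφ]
      apply hRgen
      · rintro ⟨h1, h2⟩; exact hex ⟨⟨j, h2⟩, ⟨i, h1⟩⟩
      · rintro ⟨h1, h2⟩; exact hex ⟨⟨i, h1⟩, ⟨j, h2⟩⟩
  · intro x hx y hy
    show p.r x y ↔ R x y
    rw [hRgen x y (fun h => hne y hy h.2) (fun h => hne x hx h.1), hLx x (hne x hx),
      hLx y (hne y hy)]
  · intro x hx hxg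
    show (R m x ↔ p.r g x) ∧ (R x m ↔ p.r x g)
    rw [hRgen m x (fun h => hmg h.1) (fun h => hxg h.2),
      hRgen x m (fun h => hxg h.1) (fun h => hne x hx h.1), hLm, hLx x (hne x hx)]
    exact ⟨Iff.rfl, Iff.rfl⟩

/-- the substituted and partially flipped tournament -/
def RF (T : Fin h → Fin h → Prop) (r : ℕ → ℕ → Prop) (a b : ℕ) (F : Finset (Fin h)) :
    ℕ ⊕ Fin h → ℕ ⊕ Fin h → Prop
  | .inl x, .inl y => r x y
  | .inr i, .inr j => T i j
  | .inl x, .inr j => (x = a ∧ j ∉ F) ∨ (x ≠ a ∧ r x b)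
  | .inr i, .inl y => (y = a ∧ i ∈ F) ∨ (y ≠ a ∧ r b y)

def Dm (D : Finset ℕ) (b : ℕ) (v : Fin h) : ℕ ⊕ Fin h → Prop
  | .inl x => x ∈ D ∧ x ≠ b
  | .inr i => i ≠ v

def HasT (T : Fin h → Fin h → Prop) (p : Cond T) (a b : ℕ) (v : Fin h) (F : Finset (Fin h)) :
    Prop :=
  ∃ φ : Fin h → ℕ ⊕ Fin h, (∀ i, Dm p.D b v (φ i)) ∧ ∀ i j, T i j ↔ RF T p.r a b F (φ i) (φ j)

lemma not_hasT (hT1 : ∀ x, ¬ T x x) (hT2 : ∀ x y, x ≠ y → (T x y ↔ ¬ T y x))
    (hp : Prime T) (p : Cond T) {a b : ℕ} (ha : a ∈ p.D) (hb : b ∈ p.D) (hab : p.r a b)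
    (v : Fin h) : ¬ HasT T p a b v ∅ := by
  classical
  have hne : a ≠ b := by rintro rfl; exact p.irr _ ha hab
  have hba : ¬ p.r b a := (p.tot a ha b hb hne).1 hab
  rintro ⟨φ, hφD, hφ⟩
  set pi : ℕ ⊕ Fin h → ℕ := Sum.elim id (fun _ => b) with hpi
  have hl : ∀ x j, RF T p.r a b ∅ (.inl x) (.inr j) ↔ p.r x b := by
    intro x j
    show ((x = a ∧ j ∉ (∅ : Finset (Fin h))) ∨ (x ≠ a ∧ p.r x b)) ↔ p.r x b
    constructor
    · rintro (⟨rfl, _⟩ | ⟨_, h1⟩)
      · exact hab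
      · exact h1
    · intro h1
      by_cases hx : x = a
      · exact Or.inl ⟨hx, by simp⟩
      · exact Or.inr ⟨hx, h1⟩
  have hr : ∀ i y, RF T p.r a b ∅ (.inr i) (.inl y) ↔ p.r b y := by
    intro i y
    show ((y = a ∧ i ∈ (∅ : Finset (Fin h))) ∨ (y ≠ a ∧ p.r b y)) ↔ p.r b y
    constructor
    · rintro (⟨_, h1⟩ | ⟨_, h1⟩)
      · simp at h1
      · exact h1
    · intro h1
      refine Or.inr ⟨?_, h1⟩
      rintro rfl
      exact hba h1
  have hmod : ∀ w, w ∉ ({i | ∃ j, φ i = .inr j} : Set (Fin h)) →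
      ∀ m ∈ ({i | ∃ j, φ i = .inr j} : Set (Fin h)),
      ∀ m' ∈ ({i | ∃ j, φ i = .inr j} : Set (Fin h)), (T w m ↔ T w m') := by
    intro w hw m hm m' hm'
    obtain ⟨j, hj⟩ := hm
    obtain ⟨j', hj'⟩ := hm'
    rcases hφw : φ w with x | k
    · rw [hφ, hφ, hφw, hj, hj', hl, hl]
    · exact absurd ⟨k, hφw⟩ hw
  rcases hp _ hmod with h1 | h1
  · apply p.free
    refine ⟨fun i => pi (φ i), ?_, ?_⟩
    · intro i
      have := hφD i
      show pi (φ i) ∈ p.D
      rcases hφi : φ i with x | j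
      · rw [hφi] at this; exact this.1
      · exact hb
    · intro i j
      show T i j ↔ p.r (pi (φ i)) (pi (φ j))
      rw [hφ]
      rcases hφi : φ i with x | k
      · rcases hφj : φ j with y | l
        · exact Iff.rfl
        · rw [hl]; exact Iff.rfl
      · rcases hφj : φ j with y | l
        · rw [hr]; exact Iff.rfl
        · have hij : i = j := h1 i ⟨k, hφi⟩ j ⟨l, hφj⟩
          subst hij
          have hkl : k = l := by
            rw [hφi] at hφj
            exact Sum.inr.inj hφj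
          subst hkl
          show T k k ↔ p.r b b
          exact ⟨fun h => absurd h (hT1 k), fun h => absurd h (p.irr b hb)⟩
  · choose γ hγ using h1
    have hinj : Function.Injective γ := by
      intro i j hij
      by_contra hne
      have h2 := hT2 i j hne
      rw [hφ, hφ, hγ, hγ, hij] at h2
      exact iff_not_self h2
    have hsurj := Finite.injective_iff_surjective.1 hinj
    obtain ⟨i, hi⟩ := hsurj v
    have := hφD i
    rw [hγ i] at this
    exact this hi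

lemma hasT_full (hT1 : ∀ x, ¬ T x x) (hT2 : ∀ x y, x ≠ y → (T x y ↔ ¬ T y x))
    (p : Cond T) {a b : ℕ} (ha : a ∈ p.D) (hab : p.r a b) (v : Fin h) (F : Finset (Fin h))
    (hF : ∀ i, i ∈ F ↔ T i v) : HasT T p a b v F := by
  classical
  have hne : a ≠ b := by rintro rfl; exact p.irr _ ha hab
  refine ⟨fun i => if i = v then .inl a else .inr i, ?_, ?_⟩
  · intro i
    show Dm p.D b v (if i = v then .inl a else .inr i)
    by_cases hi : i = v
    · rw [if_pos hi]; exact ⟨ha, hne⟩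
    · rw [if_neg hi]; exact hi
  · intro i j
    show T i j ↔ RF T p.r a b F (if i = v then .inl a else .inr i)
      (if j = v then .inl a else .inr j)
    by_cases hi : i = v
    · by_cases hj : j = v
      · rw [if_pos hi, if_pos hj, hi, hj]
        show T v v ↔ p.r a a
        exact ⟨fun h => absurd h (hT1 v), fun h => absurd h (p.irr a ha)⟩
      · rw [if_pos hi, if_neg hj]
        show T i j ↔ (a = a ∧ j ∉ F) ∨ (a ≠ a ∧ p.r a b)
        rw [hF, hi, hT2 v j (Ne.symm hj)]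
        simp
    · by_cases hj : j = v
      · rw [if_neg hi, if_pos hj]
        show T i j ↔ (a = a ∧ i ∈ F) ∨ (a ≠ a ∧ p.r b a)
        rw [hF, hj]
        simp
      · rw [if_neg hi, if_neg hj]
        exact Iff.rfl

end Pool.Agent.X147.Tp
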