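import Mathlib
import Pool.Agent.X147.TpA

open Finset

namespace Pool.Agent.X147.Tp

variable {h : ℕ} {T : Fin h → Fin h → Prop}

lemma arc_step (hT1 : ∀ x, ¬ T x x) (hT2 : ∀ x y, x ≠ y → (T x y ↔ ¬ T y x)) (h3 : 3 ≤ h)
    (hp : Prime T) (p : Cond T) {a b : ℕ} (ha : a ∈ p.D) (hb : b ∈ p.D) (hab : p.r a b) :
    ∃ q : Cond T, p ≤ q ∧ ∃ ψ : Fin h → ℕ, (∀ i, ψ i ∈ q.D) ∧
      ∀ i j, T i j ↔ flip a b q.r (ψ i) (ψ j) := by
  classical
  have hne : a ≠ b := by rintro rfl; exact p.irr _ ha hab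
  have hba : ¬ p.r b a := (p.tot a ha b hb hne).1 hab
  set v : Fin h := ⟨0, by omega⟩ with hv
  set F0 : Finset (Fin h) := univ.filter (fun i => T i v) with hF0
  have hstep : ∀ F : Finset (Fin h), F ⊆ F0 → HasT T p a b v F →
      ∃ F' : Finset (Fin h), ∃ u, u ∉ F' ∧ u ∈ F0 ∧ ¬ HasT T p a b v F' ∧
        HasT T p a b v (insert u F') := by
    intro F
    induction F using Finset.induction_on with
    | empty => exact fun _ h => absurd h (not_hasT hT1 hT2 hp p ha hb hab v)
    | insert u F hu ih =>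
      intro hsub hhas
      by_cases hF : HasT T p a b v F
      · exact ih ((Finset.subset_insert _ _).trans hsub) hF
      · exact ⟨F, u, hu, hsub (Finset.mem_insert_self _ _), hF, hhas⟩
  obtain ⟨F, u, huF, huF0, hnot, hyes⟩ := hstep F0 (Finset.Subset.refl _)
    (hasT_full hT1 hT2 p ha hab v F0 (fun i => by rw [hF0, Finset.mem_filter]; simp))
  have huv : u ≠ v := by
    rintro huv
    rw [hF0, Finset.mem_filter, huv] at huF0
    exact hT1 v huF0.2
  set N := p.D.sup id + 1 with hN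
  have hlt : ∀ x ∈ p.D, x < N := fun x hx => Nat.lt_succ_of_le (Finset.le_sup (f := id) hx)
  set L : ℕ → ℕ ⊕ Fin h := fun x => if x = b then .inr u else
    if hx : N ≤ x ∧ x - N < h then .inr ⟨x - N, hx.2⟩ else .inl x with hL
  set K : ℕ ⊕ Fin h → ℕ := Sum.elim id (fun i => if i = u then b else N + i) with hK
  have hLb : L b = .inr u := if_pos rfl
  have hLx : ∀ x ∈ p.D, x ≠ b → L x = .inl x := by
    intro x hx hxb
    show (if x = b then _ else _) = _
    rw [if_neg hxb, dif_neg]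
    intro h1
    have := hlt x hx
    omega
  have hLN : ∀ i : Fin h, L (N + i) = .inr i := by
    intro i
    have hb' : N + (i : ℕ) ≠ b := by
      have := hlt b hb
      omega
    have hc : N ≤ N + (i : ℕ) ∧ N + (i : ℕ) - N < h := ⟨by omega, by have := i.2; omega⟩
    show (if N + (i : ℕ) = b then _ else _) = _
    rw [if_neg hb', dif_pos hc]
    congr 1
    apply Fin.ext
    show N + (i : ℕ) - N = i
    omega
  set Dq : Finset ℕ := p.D ∪ (univ.filter (fun i : Fin h => i ≠ v ∧ i ≠ u)).image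
    (fun i : Fin h => N + (i : ℕ)) with hDq
  have hmemD : ∀ x, x ∈ Dq ↔ x ∈ p.D ∨ ∃ i : Fin h, (i ≠ v ∧ i ≠ u) ∧ N + (i : ℕ) = x := by
    intro x
    rw [hDq, Finset.mem_union, Finset.mem_image]
    simp
  have hLDm : ∀ x ∈ Dq, Dm p.D b v (L x) := by
    intro x hx
    rcases (hmemD x).1 hx with hx | ⟨i, hi, rfl⟩
    · by_cases hxb : x = b
      · rw [hxb, hLb]; exact huv
      · rw [hLx x hx hxb]; exact ⟨hx, hxb⟩
    · rw [hLN]; exact hi.1
  have hKL : ∀ x ∈ Dq, K (L x) = x := by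
    intro x hx
    rcases (hmemD x).1 hx with hx | ⟨i, hi, rfl⟩
    · by_cases hxb : x = b
      · rw [hxb, hLb]; exact if_pos rfl
      · rw [hLx x hx hxb]; rfl
    · rw [hLN]; exact if_neg hi.2
  have hKD : ∀ s, Dm p.D b v s → K s ∈ Dq ∧ L (K s) = s := by
    rintro (x | i) hs
    · exact ⟨(hmemD x).2 (Or.inl hs.1), hLx x hs.1 hs.2⟩
    · by_cases hiu : i = u
      · have : K (.inr i) = b := if_pos hiu
        rw [this, hLb, hiu]
        exact ⟨(hmemD b).2 (Or.inl hb), rfl⟩
      · have : K (.inr i) = N + (i : ℕ) := if_neg hiu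
        rw [this, hLN]
        exact ⟨(hmemD _).2 (Or.inr ⟨i, ⟨hs, hiu⟩, rfl⟩), rfl⟩
  have hRirr : ∀ s, Dm p.D b v s → ¬ RF T p.r a b F s s := by
    rintro (x | i) hs
    · exact p.irr x hs.1
    · exact hT1 i
  have hmix : ∀ x j, x ∈ p.D → x ≠ b →
      (RF T p.r a b F (.inl x) (.inr j) ↔ ¬ RF T p.r a b F (.inr j) (.inl x)) := by
    intro x j hx hxb
    show ((x = a ∧ j ∉ F) ∨ (x ≠ a ∧ p.r x b)) ↔ ¬ ((x = a ∧ j ∈ F) ∨ (x ≠ a ∧ p.r b x))
    by_cases hxa : x = a
    · simp [hxa]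
    · have := p.tot x hx b hb hxb
      simp [hxa, this]
  have hRtot : ∀ s t, Dm p.D b v s → Dm p.D b v t → s ≠ t →
      (RF T p.r a b F s t ↔ ¬ RF T p.r a b F t s) := by
    rintro (x | i) (y | j) hs ht hst
    · exact p.tot x hs.1 y ht.1 (fun h => hst (by rw [h]))
    · exact hmix x j hs.1 hs.2
    · have := hmix y i ht.1 ht.2
      rw [this, not_not]
    · exact hT2 i j (fun h => hst (by rw [h]))
  set R' : ℕ → ℕ → Prop := fun x y => RF T p.r a b F (L x) (L y) with hR'
  let q : Cond T := ⟨Dq, R', fun x hx => hRirr _ (hLDm x hx), fun x hx y hy hxy =>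
    hRtot _ _ (hLDm x hx) (hLDm y hy) (fun h => hxy (by rw [← hKL x hx, ← hKL y hy, h])), by
      rintro ⟨φ, hφD, hφ⟩
      exact hnot ⟨fun i => L (φ i), fun i => hLDm _ (hφD i), hφ⟩⟩
  refine ⟨q, ⟨Finset.subset_union_left, ?_⟩, ?_⟩
  · intro x hx y hy
    show p.r x y ↔ RF T p.r a b F (L x) (L y)
    by_cases hxb : x = b
    · by_cases hyb : y = b
      · rw [hxb, hyb, hLb]
        exact ⟨fun h => absurd h (p.irr b hb), fun h => absurd h (hT1 u)⟩
      · rw [hxb, hLb, hLx y hy hyb]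
        show p.r b y ↔ ((y = a ∧ u ∈ F) ∨ (y ≠ a ∧ p.r b y))
        by_cases hya : y = a
        · simp [hya, hba, huF]
        · simp [hya]
    · by_cases hyb : y = b
      · rw [hyb, hLb, hLx x hx hxb]
        show p.r x b ↔ ((x = a ∧ u ∉ F) ∨ (x ≠ a ∧ p.r x b))
        by_cases hxa : x = a
        · simp [hxa, hab, huF]
        · simp [hxa]
      · rw [hLx x hx hxb, hLx y hy hyb]
        exact Iff.rfl
  · obtain ⟨φ, hφD, hφ⟩ := hyes
    refine ⟨fun i => K (φ i), fun i => (hKD _ (hφD i)).1, ?_⟩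
    have hKa : ∀ i, K (.inr i) ≠ a := by
      intro i
      by_cases hiu : i = u
      · have : K (.inr i) = b := if_pos hiu
        rw [this]; exact Ne.symm hne
      · have : K (.inr i) = N + (i : ℕ) := if_neg hiu
        rw [this]
        have := hlt a ha
        omega
    have hKb : ∀ i, K (.inr i) = b ↔ i = u := by
      intro i
      by_cases hiu : i = u
      · have : K (.inr i) = b := if_pos hiu
        exact ⟨fun _ => hiu, fun _ => this⟩
      · have : K (.inr i) = N + (i : ℕ) := if_neg hiu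
        rw [this]
        have := hlt b hb
        constructor
        · intro h1; omega
        · intro h1; exact absurd h1 hiu
    have hflip : ∀ s t, Dm p.D b v s → Dm p.D b v t →
        (RF T p.r a b (insert u F) s t ↔ flip a b R' (K s) (K t)) := by
      intro s t hs ht
      have hRK : R' (K s) (K t) ↔ RF T p.r a b F s t := by
        show RF T p.r a b F (L (K s)) (L (K t)) ↔ _
        rw [(hKD s hs).2, (hKD t ht).2]
      unfold flip
      rw [hRK]
      rcases s with x | i <;> rcases t with y | j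
      · have h1 : K (.inl x) = x := rfl
        have h2 : K (.inl y) = y := rfl
        rw [h1, h2]
        have hxb : x ≠ b := hs.2
        have hyb : y ≠ b := ht.2
        show p.r x y ↔ _ ∨ (_ ∧ _ ∧ p.r x y)
        simp [hxb, hyb]
      · have h1 : K (.inl x) = x := rfl
        rw [h1]
        have hxb : x ≠ b := hs.2
        show ((x = a ∧ j ∉ insert u F) ∨ (x ≠ a ∧ p.r x b)) ↔
          (x = b ∧ K (.inr j) = a) ∨ (¬ (x = a ∧ K (.inr j) = b) ∧ ¬ (x = b ∧ K (.inr j) = a) ∧
            ((x = a ∧ j ∉ F) ∨ (x ≠ a ∧ p.r x b)))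
        rw [hKb]
        by_cases hxa : x = a
        · by_cases hju : j = u
          · simp [hxa, hju, hne]
          · simp [hxa, hju, hne]
        · simp [hxa, hxb]
      · have h2 : K (.inl y) = y := rfl
        rw [h2]
        have hyb : y ≠ b := ht.2
        have hi := hKa i
        show ((y = a ∧ i ∈ insert u F) ∨ (y ≠ a ∧ p.r b y)) ↔
          (K (.inr i) = b ∧ y = a) ∨ (¬ (K (.inr i) = a ∧ y = b) ∧ ¬ (K (.inr i) = b ∧ y = a) ∧
            ((y = a ∧ i ∈ F) ∨ (y ≠ a ∧ p.r b y)))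
        rw [hKb]
        by_cases hya : y = a
        · by_cases hiu : i = u
          · simp [hya, hiu]
          · simp [hya, hiu, hne]
        · simp [hya, hyb]
      · have hi := hKa i
        have hj := hKa j
        show T i j ↔ _ ∨ (_ ∧ _ ∧ T i j)
        simp [hi, hj]
    intro i j
    show T i j ↔ flip a b R' (K (φ i)) (K (φ j))
    rw [hφ, hflip _ _ (hφD i) (hφD j)]

end Pool.Agent.X147.Tp
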