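import Mathlib
import Pool.Agent.X147.TpB

open Finset

namespace Pool.Agent.X147.Tp

variable {h : ℕ} {T : Fin h → Fin h → Prop}

lemma addv (hT2 : ∀ x y, x ≠ y → (T x y ↔ ¬ T y x)) (h3 : 3 ≤ h)
    (hp : Prime T) (p : Cond T) (x : ℕ) : ∃ q : Cond T, p ≤ q ∧ x ∈ q.D := by
  classical
  by_cases hx : x ∈ p.D
  · exact ⟨p, le_refl p, hx⟩
  rcases Finset.eq_empty_or_nonempty p.D with he | ⟨g, hg⟩
  · refine ⟨⟨{x}, fun _ _ => False, fun _ _ h => h, ?_, ?_⟩, ⟨?_, ?_⟩, Finset.mem_singleton_self x⟩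
    · intro a ha b hb hab
      rw [Finset.mem_singleton] at ha hb
      exact absurd (ha.trans hb.symm) hab
    · rintro ⟨φ, _, hφ⟩
      have h1 := hT2 ⟨0, by omega⟩ ⟨1, by omega⟩ (by simp)
      rw [hφ, hφ] at h1
      exact h1.2 id
    · rw [he]; exact Finset.empty_subset _
    · intro a ha
      rw [he] at ha
      simp at ha
  · obtain ⟨q, hpq, hq, _⟩ := clone_step hT2 h3 hp p hx hg
    exact ⟨q, hpq, by rw [hq]; exact Finset.mem_insert_self _ _⟩

lemma addall (hT2 : ∀ x y, x ≠ y → (T x y ↔ ¬ T y x)) (h3 : 3 ≤ h)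
    (hp : Prime T) (N : ℕ) (p : Cond T) : ∃ q : Cond T, p ≤ q ∧ ∀ x, x < N → x ∈ q.D := by
  induction N with
  | zero => exact ⟨p, le_refl p, fun x hx => absurd hx (Nat.not_lt_zero x)⟩
  | succ N ih =>
    obtain ⟨q, hpq, hq⟩ := ih
    obtain ⟨q', hqq, hq'⟩ := addv hT2 h3 hp q N
    refine ⟨q', hpq.trans hqq, fun x hx => ?_⟩
    rcases Nat.lt_succ_iff_lt_or_eq.1 hx with h1 | h1
    · exact hqq.1 (hq x h1)
    · rw [h1]; exact hq'

def reqC (T : Fin h → Fin h → Prop) (w N : ℕ) : Set (Cond T) :=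
  {q | w ∈ q.D ∧ (∀ x, x < N → x ∈ q.D) ∧ ∃ m ∈ q.D, N ≤ m ∧ ∀ x, x < N → x ≠ w →
    (q.r m x ↔ q.r w x) ∧ (q.r x m ↔ q.r x w)}

def reqE (T : Fin h → Fin h → Prop) (a b : ℕ) : Set (Cond T) :=
  {q | a ∈ q.D ∧ b ∈ q.D ∧ (q.r a b → ∃ ψ : Fin h → ℕ, (∀ i, ψ i ∈ q.D) ∧
    ∀ i j, T i j ↔ flip a b q.r (ψ i) (ψ j))}

lemma cofC (hT2 : ∀ x y, x ≠ y → (T x y ↔ ¬ T y x)) (h3 : 3 ≤ h)
    (hp : Prime T) (w N : ℕ) (p : Cond T) : ∃ q ∈ reqC T w N, p ≤ q := by
  classical
  obtain ⟨q1, hpq1, hw⟩ := addv hT2 h3 hp p w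
  obtain ⟨q2, hq12, hall⟩ := addall hT2 h3 hp N q1
  have hw2 : w ∈ q2.D := hq12.1 hw
  set m := N + q2.D.sup id + 1 with hm
  have hmD : m ∉ q2.D := by
    intro h1
    have := Finset.le_sup (f := id) h1
    simp only [id] at this
    omega
  obtain ⟨q3, hq23, hD, hcl⟩ := clone_step hT2 h3 hp q2 hmD hw2
  refine ⟨q3, ⟨hq23.1 hw2, fun x hx => hq23.1 (hall x hx), m, ?_, by omega, ?_⟩,
    (hpq1.trans hq12).trans hq23⟩
  · rw [hD]; exact Finset.mem_insert_self _ _
  · intro x hx hxw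
    obtain ⟨h1, h2⟩ := hcl x (hall x hx) hxw
    exact ⟨h1.trans (hq23.2 w hw2 x (hall x hx)), h2.trans (hq23.2 x (hall x hx) w hw2)⟩

lemma cofE (hT1 : ∀ x, ¬ T x x) (hT2 : ∀ x y, x ≠ y → (T x y ↔ ¬ T y x)) (h3 : 3 ≤ h)
    (hp : Prime T) (a b : ℕ) (p : Cond T) : ∃ q ∈ reqE T a b, p ≤ q := by
  obtain ⟨q1, hpq1, ha⟩ := addv hT2 h3 hp p a
  obtain ⟨q2, hq12, hb⟩ := addv hT2 h3 hp q1 b
  have ha2 := hq12.1 ha
  by_cases hab : q2.r a b
  · obtain ⟨q3, hq23, ψ, hψ1, hψ2⟩ := arc_step hT1 hT2 h3 hp q2 ha2 hb hab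
    exact ⟨q3, ⟨hq23.1 ha2, hq23.1 hb, fun _ => ⟨ψ, hψ1, hψ2⟩⟩, (hpq1.trans hq12).trans hq23⟩
  · exact ⟨q2, ⟨ha2, hb, fun h => absurd h hab⟩, hpq1.trans hq12⟩

theorem exists_generic (hT1 : ∀ x, ¬ T x x) (hT2 : ∀ x y, x ≠ y → (T x y ↔ ¬ T y x)) (h3 : 3 ≤ h)
    (hp : Prime T) : ∃ S : ℕ → ℕ → Prop, (∀ x, ¬ S x x) ∧ (∀ x y, x ≠ y → (S x y ↔ ¬ S y x)) ∧
      (¬ ∃ φ : Fin h → ℕ, ∀ i j, T i j ↔ S (φ i) (φ j)) ∧
      (∀ w N, ∃ m, N ≤ m ∧ ∀ x, x < N → x ≠ w → (S m x ↔ S w x) ∧ (S x m ↔ S x w)) ∧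
      (∀ a b, S a b → ∃ ψ : Fin h → ℕ, ∀ i j, T i j ↔ flip a b S (ψ i) (ψ j)) := by
  classical
  let p0 : Cond T := ⟨∅, fun _ _ => False, fun _ _ h => h, fun x hx => by simp at hx, by
    rintro ⟨φ, hφ, _⟩
    have := hφ ⟨0, by omega⟩
    simp at this⟩
  let 𝒟 : (ℕ × ℕ) ⊕ (ℕ × ℕ) → Order.Cofinal (Cond T) := fun i => match i with
    | .inl (w, N) => ⟨reqC T w N, fun p => cofC hT2 h3 hp w N p⟩
    | .inr (a, b) => ⟨reqE T a b, fun p => cofE hT1 hT2 h3 hp a b p⟩
  set q : ℕ → Cond T := Order.sequenceOfCofinals p0 𝒟 with hq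
  have hmono : Monotone q := Order.sequenceOfCofinals.monotone p0 𝒟
  have hC : ∀ w N, ∃ n, q n ∈ reqC T w N := fun w N =>
    ⟨_, Order.sequenceOfCofinals.encode_mem p0 𝒟 (.inl (w, N))⟩
  have hE : ∀ a b, ∃ n, q n ∈ reqE T a b := fun a b =>
    ⟨_, Order.sequenceOfCofinals.encode_mem p0 𝒟 (.inr (a, b))⟩
  set S : ℕ → ℕ → Prop := fun x y => ∃ n, x ∈ (q n).D ∧ y ∈ (q n).D ∧ (q n).r x y with hS
  have key : ∀ n x y, x ∈ (q n).D → y ∈ (q n).D → (S x y ↔ (q n).r x y) := by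
    intro n x y hx hy
    constructor
    · rintro ⟨m, hxm, hym, hr⟩
      have h1 := hmono (le_max_left n m)
      have h2 := hmono (le_max_right n m)
      exact (h1.2 x hx y hy).2 ((h2.2 x hxm y hym).1 hr)
    · exact fun hr => ⟨n, hx, hy, hr⟩
  have hcov : ∀ N, ∃ n, ∀ x, x < N → x ∈ (q n).D := by
    intro N
    obtain ⟨n, hn⟩ := hC 0 N
    exact ⟨n, hn.2.1⟩
  refine ⟨S, ?_, ?_, ?_, ?_, ?_⟩
  · rintro x ⟨n, hx, _, hr⟩
    exact (q n).irr x hx hr
  · intro x y hxy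
    obtain ⟨n, hn⟩ := hcov (x + y + 1)
    have hx := hn x (by omega)
    have hy := hn y (by omega)
    rw [key n x y hx hy, key n y x hy hx]
    exact (q n).tot x hx y hy hxy
  · rintro ⟨φ, hφ⟩
    obtain ⟨n, hn⟩ := hcov ((univ : Finset (Fin h)).sup φ + 1)
    have hmem : ∀ i, φ i ∈ (q n).D := fun i =>
      hn _ (Nat.lt_succ_of_le (Finset.le_sup (f := φ) (Finset.mem_univ i)))
    exact (q n).free ⟨φ, hmem, fun i j => by rw [hφ, key n _ _ (hmem i) (hmem j)]⟩
  · intro w N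
    obtain ⟨n, hw, hall, m, hm, hNm, hcl⟩ := hC w N
    refine ⟨m, hNm, fun x hx hxw => ?_⟩
    rw [key n m x hm (hall x hx), key n w x hw (hall x hx), key n x m (hall x hx) hm,
      key n x w (hall x hx) hw]
    exact hcl x hx hxw
  · intro a b hab
    obtain ⟨n, ha, hb, hcr⟩ := hE a b
    obtain ⟨ψ, hψ1, hψ2⟩ := hcr ((key n a b ha hb).1 hab)
    refine ⟨ψ, fun i j => ?_⟩
    rw [hψ2]
    unfold flip
    rw [key n _ _ (hψ1 i) (hψ1 j)]

/-- sequential replacement of the vertices of a critical copy by clones -/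
theorem saturate {S : ℕ → ℕ → Prop} (hS1 : ∀ x, ¬ S x x) (hS2 : ∀ x y, x ≠ y → (S x y ↔ ¬ S y x))
    (hT1 : ∀ x, ¬ T x x) (hT2 : ∀ x y, x ≠ y → (T x y ↔ ¬ T y x))
    (hclone : ∀ w N, ∃ m, N ≤ m ∧ ∀ x, x < N → x ≠ w → (S m x ↔ S w x) ∧ (S x m ↔ S x w))
    (hcrit : ∀ a b, S a b → ∃ ψ : Fin h → ℕ, ∀ i j, T i j ↔ flip a b S (ψ i) (ψ j))
    {F : ℕ → ℕ → Prop} (hFS : ∀ x y, F x y → S x y) (hFne : ∃ x y, F x y)
    (hFfin : ∀ v, {u | F v u ∨ F u v}.Finite) :
    ∃ φ : Fin h → ℕ, ∀ i j, T i j ↔ (S (φ i) (φ j) ∧ ¬ F (φ i) (φ j)) ∨ F (φ j) (φ i) := by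
  classical
  obtain ⟨a, b, hFab⟩ := hFne
  have hab := hFS a b hFab
  have hne : a ≠ b := by rintro rfl; exact hS1 _ hab
  have hflirr : ∀ x, ¬ flip a b S x x := by
    rintro x (⟨h1, h2⟩ | ⟨_, _, h1⟩)
    · exact hne (h2.symm.trans h1)
    · exact hS1 x h1
  obtain ⟨ψ₀, hψ₀⟩ := hcrit a b hab
  have main : ∀ J : Finset (Fin h), ∃ ψ : Fin h → ℕ, (∀ i j, T i j ↔ flip a b S (ψ i) (ψ j)) ∧
      ∀ i ∈ J, ψ i ≠ a → ψ i ≠ b → ∀ j, (j ∈ J ∨ ψ j = a ∨ ψ j = b) →
        ¬ F (ψ i) (ψ j) ∧ ¬ F (ψ j) (ψ i) := by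
    intro J
    induction J using Finset.induction_on with
    | empty => exact ⟨ψ₀, hψ₀, by simp⟩
    | insert j0 J hj0 ih =>
      obtain ⟨ψ, hψ, hQ⟩ := ih
      have hinj : ∀ i j, ψ i = ψ j → i = j := by
        intro i j hij
        by_contra hne
        have h1 := hT2 i j hne
        rw [hψ, hψ, hij] at h1
        exact iff_not_self h1
      by_cases hcase : ψ j0 = a ∨ ψ j0 = b
      · refine ⟨ψ, hψ, ?_⟩
        intro i hi hia hib j hj
        rcases Finset.mem_insert.1 hi with rfl | hi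
        · rcases hcase with h1 | h1
          · exact absurd h1 hia
          · exact absurd h1 hib
        · apply hQ i hi hia hib j
          rcases hj with hj | hj
          · rcases Finset.mem_insert.1 hj with rfl | hj
            · exact Or.inr hcase
            · exact Or.inl hj
          · exact Or.inr hj
      · push Not at hcase
        -- a bound for everything relevant
        have hfin : (⋃ i : Fin h, {u | F (ψ i) u ∨ F u (ψ i)}).Finite :=
          Set.finite_iUnion fun i => hFfin (ψ i)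
        obtain ⟨B, hB⟩ := hfin.bddAbove
        set N := B + (univ : Finset (Fin h)).sup ψ + a + b + 1 with hN
        obtain ⟨m, hm, hcl⟩ := hclone (ψ j0) N
        have hψN : ∀ i, ψ i < N := by
          intro i
          have := Finset.le_sup (f := ψ) (Finset.mem_univ i)
          omega
        have hma : m ≠ a := by omega
        have hmb : m ≠ b := by omega
        have hFm : ∀ i, ¬ F (ψ i) m ∧ ¬ F m (ψ i) := by
          intro i
          constructor
          · intro h1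
            have := hB (Set.mem_iUnion.2 ⟨i, Or.inl h1⟩)
            omega
          · intro h1
            have := hB (Set.mem_iUnion.2 ⟨i, Or.inr h1⟩)
            omega
        have hup : Function.update ψ j0 m j0 = m := Function.update_self _ _ _
        have hup' : ∀ i, i ≠ j0 → Function.update ψ j0 m i = ψ i := fun i hi =>
          Function.update_of_ne hi _ _
        refine ⟨Function.update ψ j0 m, ?_, ?_⟩
        · intro i j
          by_cases hi : i = j0
          · by_cases hj : j = j0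
            · rw [hi, hj, hup]
              exact ⟨fun h => absurd h (hT1 _), fun h => absurd h (hflirr m)⟩
            · rw [hi, hup, hup' j hj, hψ]
              have h1 := (hcl (ψ j) (hψN j) (fun h => hj (hinj _ _ h))).1
              unfold flip
              rw [h1]
              simp [hma, hmb, hcase.1, hcase.2]
          · by_cases hj : j = j0
            · rw [hj, hup, hup' i hi, hψ]
              have h1 := (hcl (ψ i) (hψN i) (fun h => hi (hinj _ _ h))).2
              unfold flip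
              rw [h1]
              simp [hma, hmb, hcase.1, hcase.2]
            · rw [hup' i hi, hup' j hj]
              exact hψ i j
        · intro i hi hia hib j hj
          by_cases hij0 : i = j0
          · rw [hij0, hup]
            by_cases hj0' : j = j0
            · rw [hj0', hup]
              exact ⟨fun h => hS1 _ (hFS _ _ h), fun h => hS1 _ (hFS _ _ h)⟩
            · rw [hup' j hj0']
              exact ⟨(hFm j).2, (hFm j).1⟩
          · rw [hup' i hij0] at hia hib ⊢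
            by_cases hj0' : j = j0
            · rw [hj0', hup]
              exact hFm i
            · rw [hup' j hj0'] at hj ⊢
              have hiJ : i ∈ J := by
                rcases Finset.mem_insert.1 hi with h1 | h1
                · exact absurd h1 hij0
                · exact h1
              apply hQ i hiJ hia hib j
              rcases hj with hj | hj
              · rcases Finset.mem_insert.1 hj with h1 | h1
                · exact absurd h1 hj0'
                · exact Or.inl h1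
              · exact Or.inr hj
  obtain ⟨ψ, hψ, hQ⟩ := main univ
  refine ⟨ψ, fun i j => ?_⟩
  rw [hψ]
  have hba : ¬ S b a := (hS2 a b hne).1 hab
  have hFba : ¬ F b a := fun h => hba (hFS _ _ h)
  by_cases hi : ψ i = a ∨ ψ i = b
  · by_cases hj : ψ j = a ∨ ψ j = b
    · unfold flip
      rcases hi with hi | hi <;> rcases hj with hj | hj <;> rw [hi, hj]
      · have := hS1 a
        have h2 : ¬ F a a := fun h => this (hFS _ _ h)
        simp [this, h2, hne]
      · simp [hFab, hFba, hne]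
      · simp [hFab]
      · have := hS1 b
        have h2 : ¬ F b b := fun h => this (hFS _ _ h)
        simp [this, h2, Ne.symm hne]
    · push Not at hj
      obtain ⟨h1, h2⟩ := hQ j (Finset.mem_univ j) hj.1 hj.2 i (Or.inl (Finset.mem_univ i))
      unfold flip
      simp [h1, h2, hj.1, hj.2]
  · push Not at hi
    obtain ⟨h1, h2⟩ := hQ i (Finset.mem_univ i) hi.1 hi.2 j (Or.inl (Finset.mem_univ j))
    unfold flip
    simp [h1, h2, hi.1, hi.2]

end Pool.Agent.X147.Tp
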