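import Mathlib
import Pool.Agent.X147.TpA

open Finset

namespace Pool.Agent.X147.Tp

variable {h : ℕ} {T : Fin h → Fin h → Prop}

lemma clone_step' (hT2 : ∀ x y, x ≠ y → (T x y ↔ ¬ T y x))
    (hnt : ∀ i j, i ≠ j → ∃ v, v ≠ i ∧ v ≠ j ∧ ¬ (T v i ↔ T v j)) (p : Cond T) {m g : ℕ} (hm : m ∉ p.D) (hg : g ∈ p.D) :
    ∃ q : Cond T, p ≤ q ∧ q.D = insert m p.D ∧
      ∀ x ∈ p.D, x ≠ g → (q.r m x ↔ p.r g x) ∧ (q.r x m ↔ p.r x g) := by
  classical
  have hmg : m ≠ g := fun h => hm (h ▸ hg)
  set L : ℕ → ℕ := fun x => if x = m then g else x with hL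
  have hLm : L m = g := if_pos rfl
  have hLx : ∀ x, x ≠ m → L x = x := fun x hx => if_neg hx
  set R : ℕ → ℕ → Prop := fun x y => (x = g ∧ y = m) ∨
    (¬ (x = g ∧ y = m) ∧ ¬ (x = m ∧ y = g) ∧ p.r (L x) (L y)) with hR
  have hRgen : ∀ x y, ¬ (x = g ∧ y = m) → ¬ (x = m ∧ y = g) → (R x y ↔ p.r (L x) (L y)) := by
    intro x y h1 h2
    constructor
    · rintro (h3 | ⟨_, _, h3⟩)
      · exact absurd h3 h1
      · exact h3
    · exact fun h3 => Or.inr ⟨h1, h2, h3⟩
  have hRgm : R g m := Or.inl ⟨rfl, rfl⟩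
  have hRmg : ¬ R m g := by
    rintro (⟨h1, _⟩ | ⟨_, h1, _⟩)
    · exact hmg h1
    · exact h1 ⟨rfl, rfl⟩
  have hne : ∀ x ∈ p.D, x ≠ m := fun x hx h => hm (h ▸ hx)
  have hLD : ∀ x ∈ insert m p.D, L x ∈ p.D := by
    intro x hx
    rcases Finset.mem_insert.1 hx with rfl | hx
    · rw [hLm]; exact hg
    · rw [hLx x (hne x hx)]; exact hx
  have hirr : ∀ x ∈ insert m p.D, ¬ R x x := by
    intro x hx
    rw [hRgen x x (fun h => hmg (h.2.symm.trans h.1)) (fun h => hmg (h.1.symm.trans h.2))]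
    exact p.irr _ (hLD x hx)
  have htot : ∀ x ∈ insert m p.D, ∀ y ∈ insert m p.D, x ≠ y → (R x y ↔ ¬ R y x) := by
    intro x hx y hy hxy
    by_cases h1 : x = g ∧ y = m
    · obtain ⟨rfl, rfl⟩ := h1
      exact ⟨fun _ => hRmg, fun _ => hRgm⟩
    by_cases h2 : x = m ∧ y = g
    · obtain ⟨rfl, rfl⟩ := h2
      exact ⟨fun h => absurd h hRmg, fun h => absurd hRgm h⟩
    rw [hRgen x y h1 h2, hRgen y x (fun h => h2 ⟨h.2, h.1⟩) (fun h => h1 ⟨h.2, h.1⟩)]
    apply p.tot _ (hLD x hx) _ (hLD y hy)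
    intro h3
    by_cases hxm : x = m
    · subst hxm
      rw [hLm, hLx y (Ne.symm hxy)] at h3
      exact h2 ⟨rfl, h3.symm⟩
    · by_cases hym : y = m
      · subst hym
        rw [hLm, hLx x hxm] at h3
        exact h1 ⟨h3, rfl⟩
      · rw [hLx x hxm, hLx y hym] at h3
        exact hxy h3
  refine ⟨⟨insert m p.D, R, hirr, htot, ?_⟩, ⟨Finset.subset_insert _ _, ?_⟩, rfl, ?_⟩
  · rintro ⟨φ, hφD, hφ⟩
    have hinj : ∀ i j, φ i = φ j → i = j := by
      intro i j hij
      by_contra hne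
      have h1 := hT2 i j hne
      rw [hφ, hφ, hij] at h1
      exact iff_not_self h1
    by_cases hex : (∃ i, φ i = m) ∧ (∃ j, φ j = g)
    · obtain ⟨⟨i, hi⟩, ⟨j, hj⟩⟩ := hex
      have hij : i ≠ j := by
        rintro rfl
        exact hmg (hi.symm.trans hj)
      obtain ⟨v, hv1, hv2, hv3⟩ := hnt i j hij
      have hvm : φ v ≠ m := fun h => hv1 (hinj _ _ (h.trans hi.symm))
      have hvg : φ v ≠ g := fun h => hv2 (hinj _ _ (h.trans hj.symm))
      have key : ∀ k, (k = i ∨ k = j) → (T v k ↔ p.r (φ v) g) := by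
        intro k hk
        rw [hφ, hRgen _ _ (fun h => hvg h.1) (fun h => hvm h.1), hLx _ hvm]
        rcases hk with rfl | rfl
        · rw [hi, hLm]
        · rw [hj, hLx g (Ne.symm hmg)]
      exact hv3 ((key i (Or.inl rfl)).trans (key j (Or.inr rfl)).symm)
    · apply p.free
      refine ⟨fun i => L (φ i), fun i => hLD _ (hφD i), fun i j => ?_⟩
      rw [hφ]
      apply hRgen
      · rintro ⟨h1, h2⟩; exact hex ⟨⟨j, h2⟩, ⟨i, h1⟩⟩
      · rintro ⟨h1, h2⟩; exact hex ⟨⟨i, h1⟩, ⟨j, h2⟩⟩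
  · intro x hx y hy
    show p.r x y ↔ R x y
    rw [hRgen x y (fun h => hne y hy h.2) (fun h => hne x hx h.1), hLx x (hne x hx),
      hLx y (hne y hy)]
  · intro x hx hxg
    show (R m x ↔ p.r g x) ∧ (R x m ↔ p.r x g)
    rw [hRgen m x (fun h => hmg h.1) (fun h => hxg h.2),
      hRgen x m (fun h => hxg h.1) (fun h => hne x hx h.1), hLm, hLx x (hne x hx)]
    exact ⟨Iff.rfl, Iff.rfl⟩


/-- the tournament with `a` and `b` replaced by the two sides of `T`, partially flipped -/
def RG (T : Fin h → Fin h → Prop) (r : ℕ → ℕ → Prop) (a b : ℕ) (σ : Fin h → Bool)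
    (F : Finset (Fin h × Fin h)) : ℕ ⊕ Fin h → ℕ ⊕ Fin h → Prop
  | .inl x, .inl y => r x y
  | .inl x, .inr j => r x (if σ j then a else b)
  | .inr i, .inl y => r (if σ i then a else b) y
  | .inr i, .inr j => if σ i = σ j then T i j else if σ i = true then (i, j) ∉ F else (j, i) ∈ F

def Dg (D : Finset ℕ) (a b : ℕ) : ℕ ⊕ Fin h → Prop
  | .inl x => x ∈ D ∧ x ≠ a ∧ x ≠ b
  | .inr _ => True

def HasG (T : Fin h → Fin h → Prop) (p : Cond T) (a b : ℕ) (σ : Fin h → Bool)
    (F : Finset (Fin h × Fin h)) : Prop :=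
  ∃ φ : Fin h → ℕ ⊕ Fin h, (∀ i, Dg p.D a b (φ i)) ∧ ∀ i j, T i j ↔ RG T p.r a b σ F (φ i) (φ j)

/-- the splitting condition -/
def Split (T : Fin h → Fin h → Prop) (σ : Fin h → Bool) : Prop :=
  ∀ M : Set (Fin h), (∀ v, v ∉ M → ∀ m ∈ M, ∀ m' ∈ M, (T v m ↔ T v m')) → ∀ s : Bool,
    (∃ γ : Fin h → Fin h, (∀ i ∈ M, σ (γ i) = s) ∧ ∀ i ∈ M, ∀ j ∈ M, (T i j ↔ T (γ i) (γ j))) →
    ∀ x ∈ M, ∀ y ∈ M, x = y

lemma not_hasG (hT1 : ∀ x, ¬ T x x) {σ : Fin h → Bool} (hs : Split T σ)
    (p : Cond T) {a b : ℕ} (ha : a ∈ p.D) (hb : b ∈ p.D) (hab : p.r a b) :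
    ¬ HasG T p a b σ ∅ := by
  classical
  have hne : a ≠ b := by rintro rfl; exact p.irr _ ha hab
  have hba : ¬ p.r b a := (p.tot a ha b hb hne).1 hab
  rintro ⟨φ, hφD, hφ⟩
  set pi : ℕ ⊕ Fin h → ℕ := Sum.elim id (fun j => if σ j then a else b) with hpi
  have hsub : ∀ s : Bool, ∀ x ∈ ({i | ∃ j, φ i = .inr j ∧ σ j = s} : Set (Fin h)),
      ∀ y ∈ ({i | ∃ j, φ i = .inr j ∧ σ j = s} : Set (Fin h)), x = y := by
    intro s
    apply hs _ _ s
    · set γ : Fin h → Fin h := fun i => Sum.elim (fun _ => i) id (φ i) with hγ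
      have hγv : ∀ i j, φ i = .inr j → γ i = j := by
        intro i j hij
        show Sum.elim (fun _ => i) id (φ i) = j
        rw [hij]; rfl
      refine ⟨γ, ?_, ?_⟩
      · rintro i ⟨j, hj, hjs⟩
        rw [hγv i j hj]; exact hjs
      · rintro i ⟨k, hk, hks⟩ j ⟨l, hl, hls⟩
        rw [hγv i k hk, hγv j l hl, hφ, hk, hl]
        show (if σ k = σ l then T k l else if σ k = true then (k, l) ∉ (∅ : Finset _)
          else (l, k) ∈ (∅ : Finset _)) ↔ T k l
        rw [if_pos (hks.trans hls.symm)]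
    · intro w hw m hm m' hm'
      obtain ⟨j, hj, hjs⟩ := hm
      obtain ⟨j', hj', hjs'⟩ := hm'
      rw [hφ, hφ, hj, hj']
      rcases hφw : φ w with x | k
      · show p.r x (if σ j then a else b) ↔ p.r x (if σ j' then a else b)
        rw [hjs, hjs']
      · have hk : σ k ≠ s := fun hks => hw ⟨k, hφw, hks⟩
        show (if σ k = σ j then T k j else if σ k = true then (k, j) ∉ (∅ : Finset _)
          else (j, k) ∈ (∅ : Finset _)) ↔ (if σ k = σ j' then T k j' else
          if σ k = true then (k, j') ∉ (∅ : Finset _) else (j', k) ∈ (∅ : Finset _))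
        have e1 : ¬ (σ k = σ j) := by rw [hjs]; exact hk
        have e2 : ¬ (σ k = σ j') := by rw [hjs']; exact hk
        rw [if_neg e1, if_neg e2]
        by_cases hk1 : σ k = true
        · rw [if_pos hk1, if_pos hk1]; simp
        · rw [if_neg hk1, if_neg hk1]; simp
  apply p.free
  refine ⟨fun i => pi (φ i), ?_, ?_⟩
  · intro i
    have := hφD i
    show pi (φ i) ∈ p.D
    rcases hφi : φ i with x | j
    · rw [hφi] at this; exact this.1
    · show (if σ j then a else b) ∈ p.D
      split_ifs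
      · exact ha
      · exact hb
  · intro i j
    show T i j ↔ p.r (pi (φ i)) (pi (φ j))
    rw [hφ]
    rcases hφi : φ i with x | k
    · rcases hφj : φ j with y | l
      · exact Iff.rfl
      · exact Iff.rfl
    · rcases hφj : φ j with y | l
      · exact Iff.rfl
      · show (if σ k = σ l then T k l else if σ k = true then (k, l) ∉ (∅ : Finset _)
          else (l, k) ∈ (∅ : Finset _)) ↔
          p.r (if σ k then a else b) (if σ l then a else b)
        by_cases hkl : σ k = σ l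
        · rw [if_pos hkl]
          have hij : i = j := hsub (σ l) i ⟨k, hφi, hkl⟩ j ⟨l, hφj, rfl⟩
          subst hij
          have hkl' : k = l := by
            rw [hφi] at hφj
            exact Sum.inr.inj hφj
          subst hkl'
          constructor
          · exact fun h => absurd h (hT1 k)
          · intro h
            exfalso
            split_ifs at h
            · exact p.irr a ha h
            · exact p.irr b hb h
        · rw [if_neg hkl]
          by_cases hk : σ k = true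
          · have hl : σ l = false := by
              cases hl : σ l
              · rfl
              · exact absurd (hk.trans hl.symm) hkl
            rw [if_pos hk, if_pos hk, hl]
            simp [hab]
          · have hl : σ l = true := by
              cases hl : σ l
              · have : σ k = false := by simpa using hk
                exact absurd (this.trans hl.symm) hkl
              · rfl
            rw [if_neg hk, if_neg hk, if_pos hl]
            simp [hba]

lemma hasG_full (hT2 : ∀ x y, x ≠ y → (T x y ↔ ¬ T y x)) (σ : Fin h → Bool)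
    (p : Cond T) {a b : ℕ} (F : Finset (Fin h × Fin h))
    (hF : ∀ i j, (i, j) ∈ F ↔ (σ i = true ∧ σ j = false ∧ T j i)) : HasG T p a b σ F := by
  classical
  refine ⟨fun i => .inr i, fun _ => trivial, ?_⟩
  intro i j
  show T i j ↔ (if σ i = σ j then T i j else if σ i = true then (i, j) ∉ F else (j, i) ∈ F)
  by_cases hij : σ i = σ j
  · rw [if_pos hij]
  · have hne : i ≠ j := fun h => hij (by rw [h])
    rw [if_neg hij]
    by_cases hi : σ i = true
    · have hj : σ j = false := by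
        cases hj : σ j
        · rfl
        · exact absurd (hi.trans hj.symm) hij
      rw [if_pos hi, hF, hT2 i j hne]
      simp [hi, hj]
    · have hi' : σ i = false := by simpa using hi
      have hj : σ j = true := by
        cases hj : σ j
        · exact absurd (hi'.trans hj.symm) hij
        · rfl
      rw [if_neg hi, hF]
      simp [hi', hj]

end Pool.Agent.X147.Tp
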