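import Mathlib
import Pool.Agent.X147.TqA

open Finset

namespace Pool.Agent.X147.Tp

variable {h : ℕ} {T : Fin h → Fin h → Prop}

lemma arc_step' (hT1 : ∀ x, ¬ T x x) (hT2 : ∀ x y, x ≠ y → (T x y ↔ ¬ T y x))
    {σ : Fin h → Bool} (hs : Split T σ)
    (p : Cond T) {a b : ℕ} (ha : a ∈ p.D) (hb : b ∈ p.D) (hab : p.r a b) :
    ∃ q : Cond T, p ≤ q ∧ ∃ ψ : Fin h → ℕ, (∀ i, ψ i ∈ q.D) ∧
      ∀ i j, T i j ↔ flip a b q.r (ψ i) (ψ j) := by
  classical
  have hne : a ≠ b := by rintro rfl; exact p.irr _ ha hab
  have hba : ¬ p.r b a := (p.tot a ha b hb hne).1 hab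
  set F0 : Finset (Fin h × Fin h) :=
    univ.filter (fun e => σ e.1 = true ∧ σ e.2 = false ∧ T e.2 e.1) with hF0
  have hstep : ∀ F : Finset (Fin h × Fin h), F ⊆ F0 → HasG T p a b σ F →
      ∃ F' : Finset (Fin h × Fin h), ∃ e, e ∉ F' ∧ e ∈ F0 ∧ ¬ HasG T p a b σ F' ∧
        HasG T p a b σ (insert e F') := by
    intro F
    induction F using Finset.induction_on with
    | empty => exact fun _ h => absurd h (not_hasG hT1 hs p ha hb hab)
    | insert u F hu ih =>
      intro hsub hhas
      by_cases hF : HasG T p a b σ F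
      · exact ih ((Finset.subset_insert _ _).trans hsub) hF
      · exact ⟨F, u, hu, hsub (Finset.mem_insert_self _ _), hF, hhas⟩
  obtain ⟨F, ⟨u, w⟩, huF, huF0, hnot, hyes⟩ := hstep F0 (Finset.Subset.refl _)
    (hasG_full hT2 σ p F0 (fun i j => by rw [hF0, Finset.mem_filter]; simp))
  rw [hF0, Finset.mem_filter] at huF0
  obtain ⟨-, hσu, hσw, -⟩ := huF0
  simp only at hσu hσw
  have huw : u ≠ w := by
    rintro rfl
    rw [hσu] at hσw
    exact absurd hσw (by simp)
  set N := p.D.sup id + 1 with hN
  have hlt : ∀ x ∈ p.D, x < N := fun x hx => Nat.lt_succ_of_le (Finset.le_sup (f := id) hx)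
  set L : ℕ → ℕ ⊕ Fin h := fun x => if x = a then .inr u else if x = b then .inr w else
    if hx : N ≤ x ∧ x - N < h then .inr ⟨x - N, hx.2⟩ else .inl x with hL
  set K : ℕ ⊕ Fin h → ℕ :=
    Sum.elim id (fun i => if i = u then a else if i = w then b else N + i) with hK
  have hLa : L a = .inr u := if_pos rfl
  have hLb : L b = .inr w := by
    show (if b = a then _ else if b = b then _ else _) = _
    rw [if_neg (Ne.symm hne), if_pos rfl]
  have hLx : ∀ x ∈ p.D, x ≠ a → x ≠ b → L x = .inl x := by
    intro x hx hxa hxb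
    show (if x = a then _ else if x = b then _ else _) = _
    rw [if_neg hxa, if_neg hxb, dif_neg]
    intro h1
    have := hlt x hx
    omega
  have hLN : ∀ i : Fin h, L (N + i) = .inr i := by
    intro i
    have hb' : N + (i : ℕ) ≠ b := by
      have := hlt b hb
      omega
    have ha' : N + (i : ℕ) ≠ a := by
      have := hlt a ha
      omega
    have hc : N ≤ N + (i : ℕ) ∧ N + (i : ℕ) - N < h := ⟨by omega, by have := i.2; omega⟩
    show (if N + (i : ℕ) = a then _ else if N + (i : ℕ) = b then _ else _) = _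
    rw [if_neg ha', if_neg hb', dif_pos hc]
    congr 1
    apply Fin.ext
    show N + (i : ℕ) - N = i
    omega
  have hKu : K (.inr u) = a := if_pos rfl
  have hKw : K (.inr w) = b := by
    show (if w = u then _ else if w = w then _ else _) = _
    rw [if_neg (Ne.symm huw), if_pos rfl]
  have hKi : ∀ i, i ≠ u → i ≠ w → K (.inr i) = N + (i : ℕ) := by
    intro i h1 h2
    show (if i = u then _ else if i = w then _ else _) = _
    rw [if_neg h1, if_neg h2]
  set Dq : Finset ℕ := p.D ∪ (univ.filter (fun i : Fin h => i ≠ u ∧ i ≠ w)).image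
    (fun i : Fin h => N + (i : ℕ)) with hDq
  have hmemD : ∀ x, x ∈ Dq ↔ x ∈ p.D ∨ ∃ i : Fin h, (i ≠ u ∧ i ≠ w) ∧ N + (i : ℕ) = x := by
    intro x
    rw [hDq, Finset.mem_union, Finset.mem_image]
    simp
  have hLDm : ∀ x ∈ Dq, Dg p.D a b (L x) := by
    intro x hx
    rcases (hmemD x).1 hx with hx | ⟨i, hi, rfl⟩
    · by_cases hxa : x = a
      · rw [hxa, hLa]; exact trivial
      by_cases hxb : x = b
      · rw [hxb, hLb]; exact trivial
      · rw [hLx x hx hxa hxb]; exact ⟨hx, hxa, hxb⟩
    · rw [hLN]; exact trivial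
  have hKL : ∀ x ∈ Dq, K (L x) = x := by
    intro x hx
    rcases (hmemD x).1 hx with hx | ⟨i, hi, rfl⟩
    · by_cases hxa : x = a
      · rw [hxa, hLa, hKu]
      by_cases hxb : x = b
      · rw [hxb, hLb, hKw]
      · rw [hLx x hx hxa hxb]; rfl
    · rw [hLN, hKi i hi.1 hi.2]
  have hKD : ∀ s, Dg p.D a b s → K s ∈ Dq ∧ L (K s) = s := by
    rintro (x | i) hs
    · exact ⟨(hmemD x).2 (Or.inl hs.1), hLx x hs.1 hs.2.1 hs.2.2⟩
    · by_cases hiu : i = u
      · rw [hiu, hKu, hLa]
        exact ⟨(hmemD a).2 (Or.inl ha), rfl⟩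
      by_cases hiw : i = w
      · rw [hiw, hKw, hLb]
        exact ⟨(hmemD b).2 (Or.inl hb), rfl⟩
      · rw [hKi i hiu hiw, hLN]
        exact ⟨(hmemD _).2 (Or.inr ⟨i, ⟨hiu, hiw⟩, rfl⟩), rfl⟩
  have hside : ∀ i, (if σ i then a else b) ∈ p.D := by
    intro i; split_ifs
    · exact ha
    · exact hb
  have hRirr : ∀ s, Dg p.D a b s → ¬ RG T p.r a b σ F s s := by
    rintro (x | i) hs
    · exact p.irr x hs.1
    · show ¬ (if σ i = σ i then T i i else if σ i = true then (i, i) ∉ F else (i, i) ∈ F)
      rw [if_pos rfl]; exact hT1 i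
  have hxs : ∀ x i, x ≠ a → x ≠ b → x ≠ (if σ i then a else b) := by
    intro x i hxa hxb
    split_ifs
    · exact hxa
    · exact hxb
  have hRtot : ∀ s t, Dg p.D a b s → Dg p.D a b t → s ≠ t →
      (RG T p.r a b σ F s t ↔ ¬ RG T p.r a b σ F t s) := by
    rintro (x | i) (y | j) hs ht hst
    · exact p.tot x hs.1 y ht.1 (fun h => hst (by rw [h]))
    · exact p.tot x hs.1 _ (hside j) (hxs x j hs.2.1 hs.2.2)
    · exact p.tot _ (hside i) y ht.1 (Ne.symm (hxs y i ht.2.1 ht.2.2))
    · have hij : i ≠ j := fun h => hst (by rw [h])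
      show (if σ i = σ j then T i j else if σ i = true then (i, j) ∉ F else (j, i) ∈ F) ↔
        ¬ (if σ j = σ i then T j i else if σ j = true then (j, i) ∉ F else (i, j) ∈ F)
      by_cases h1 : σ i = σ j
      · rw [if_pos h1, if_pos h1.symm]; exact hT2 i j hij
      · rw [if_neg h1, if_neg (Ne.symm h1)]
        by_cases h2 : σ i = true
        · have h3 : ¬ σ j = true := fun h => h1 (h2.trans h.symm)
          rw [if_pos h2, if_neg h3]
        · have h3 : σ j = true := by
            cases hj : σ j
            · have : σ i = false := by simpa using h2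
              exact absurd (this.trans hj.symm) h1
            · rfl
          rw [if_neg h2, if_pos h3, not_not]
  set R' : ℕ → ℕ → Prop := fun x y => RG T p.r a b σ F (L x) (L y) with hR'
  let q : Cond T := ⟨Dq, R', fun x hx => hRirr _ (hLDm x hx), fun x hx y hy hxy =>
    hRtot _ _ (hLDm x hx) (hLDm y hy) (fun h => hxy (by rw [← hKL x hx, ← hKL y hy, h])), by
      rintro ⟨φ, hφD, hφ⟩
      exact hnot ⟨fun i => L (φ i), fun i => hLDm _ (hφD i), hφ⟩⟩
  have sa : (if σ u then a else b) = a := by rw [hσu]; rfl
  have sb : (if σ w then a else b) = b := by rw [hσw]; rfl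
  have huw' : ¬ (σ u = σ w) := by rw [hσu, hσw]; simp
  refine ⟨q, ⟨Finset.subset_union_left, ?_⟩, ?_⟩
  · intro x hx y hy
    show p.r x y ↔ RG T p.r a b σ F (L x) (L y)
    by_cases hxa : x = a
    · subst hxa
      rw [hLa]
      by_cases hya : y = x
      · subst hya
        rw [hLa]
        exact ⟨fun h => absurd h (p.irr _ hx), fun h => absurd h (hRirr (.inr u) trivial)⟩
      by_cases hyb : y = b
      · subst hyb
        rw [hLb]
        show p.r x y ↔ (if σ u = σ w then T u w else if σ u = true then (u, w) ∉ F else (w, u) ∈ F)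
        rw [if_neg huw', if_pos hσu]
        exact ⟨fun _ => huF, fun _ => hab⟩
      · rw [hLx y hy hya hyb]
        show p.r x y ↔ p.r (if σ u then x else b) y
        rw [hσu]; rfl
    by_cases hxb : x = b
    · subst hxb
      rw [hLb]
      by_cases hya : y = a
      · subst hya
        rw [hLa]
        show p.r x y ↔ (if σ w = σ u then T w u else if σ w = true then (w, u) ∉ F else (u, w) ∈ F)
        rw [if_neg (Ne.symm huw'), if_neg (by rw [hσw]; simp)]
        exact ⟨fun h => absurd h hba, fun h => absurd h huF⟩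
      by_cases hyb : y = x
      · subst hyb
        rw [hLb]
        exact ⟨fun h => absurd h (p.irr _ hx), fun h => absurd h (hRirr (.inr w) trivial)⟩
      · rw [hLx y hy hya hyb]
        show p.r x y ↔ p.r (if σ w then a else x) y
        rw [hσw]; rfl
    rw [hLx x hx hxa hxb]
    by_cases hya : y = a
    · subst hya
      rw [hLa]
      show p.r x y ↔ p.r x (if σ u then y else b)
      rw [hσu]; rfl
    by_cases hyb : y = b
    · subst hyb
      rw [hLb]
      show p.r x y ↔ p.r x (if σ w then a else y)
      rw [hσw]; rfl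
    rw [hLx y hy hya hyb]
    exact Iff.rfl
  · obtain ⟨φ, hφD, hφ⟩ := hyes
    refine ⟨fun i => K (φ i), fun i => (hKD _ (hφD i)).1, ?_⟩
    have hKa : ∀ i, K (.inr i) = a ↔ i = u := by
      intro i
      by_cases hiu : i = u
      · exact ⟨fun _ => hiu, fun _ => by rw [hiu, hKu]⟩
      by_cases hiw : i = w
      · rw [hiw, hKw]
        exact ⟨fun h => absurd h (Ne.symm hne), fun h => absurd h (Ne.symm huw)⟩
      · rw [hKi i hiu hiw]
        have := hlt a ha
        constructor
        · intro h1; omega
        · intro h1; exact absurd h1 hiu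
    have hKb : ∀ i, K (.inr i) = b ↔ i = w := by
      intro i
      by_cases hiu : i = u
      · rw [hiu, hKu]
        exact ⟨fun h => absurd h hne, fun h => absurd h huw⟩
      by_cases hiw : i = w
      · exact ⟨fun _ => hiw, fun _ => by rw [hiw, hKw]⟩
      · rw [hKi i hiu hiw]
        have := hlt b hb
        constructor
        · intro h1; omega
        · intro h1; exact absurd h1 hiw
    have hflip : ∀ s t, Dg p.D a b s → Dg p.D a b t →
        (RG T p.r a b σ (insert (u, w) F) s t ↔ flip a b R' (K s) (K t)) := by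
      intro s t hs ht
      have hRK : R' (K s) (K t) ↔ RG T p.r a b σ F s t := by
        show RG T p.r a b σ F (L (K s)) (L (K t)) ↔ _
        rw [(hKD s hs).2, (hKD t ht).2]
      unfold flip
      rw [hRK]
      rcases s with x | i
      · have h1 : K (.inl x) = x := rfl
        rw [h1]
        have hxa : x ≠ a := hs.2.1
        have hxb : x ≠ b := hs.2.2
        have hsame : RG T p.r a b σ (insert (u, w) F) (.inl x) t ↔ RG T p.r a b σ F (.inl x) t := by
          rcases t with y | j <;> exact Iff.rfl
        rw [hsame]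
        simp [hxa, hxb]
      rcases t with y | j
      · have h1 : K (.inl y) = y := rfl
        rw [h1]
        have hya : y ≠ a := ht.2.1
        have hyb : y ≠ b := ht.2.2
        have hsame : RG T p.r a b σ (insert (u, w) F) (.inr i) (.inl y) ↔
            RG T p.r a b σ F (.inr i) (.inl y) := Iff.rfl
        rw [hsame]
        simp [hya, hyb]
      · rw [hKa, hKa, hKb, hKb]
        show (if σ i = σ j then T i j else if σ i = true then (i, j) ∉ insert (u, w) F else
          (j, i) ∈ insert (u, w) F) ↔ (i = w ∧ j = u) ∨ (¬ (i = u ∧ j = w) ∧ ¬ (i = w ∧ j = u) ∧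
          (if σ i = σ j then T i j else if σ i = true then (i, j) ∉ F else (j, i) ∈ F))
        by_cases h1 : σ i = σ j
        · have h2 : ¬ (i = w ∧ j = u) := by
            rintro ⟨rfl, rfl⟩
            exact huw' h1.symm
          have h3 : ¬ (i = u ∧ j = w) := by
            rintro ⟨rfl, rfl⟩
            exact huw' h1
          rw [if_pos h1, if_pos h1]
          simp [h2, h3]
        · rw [if_neg h1, if_neg h1]
          by_cases h2 : σ i = true
          · have h3 : ¬ (i = w ∧ j = u) := by
              rintro ⟨rfl, _⟩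
              rw [h2] at hσw
              exact absurd hσw (by simp)
            rw [if_pos h2, if_pos h2, Finset.mem_insert, Prod.mk.injEq]
            constructor
            · intro h4
              exact Or.inr ⟨fun h => h4 (Or.inl h), h3, fun h => h4 (Or.inr h)⟩
            · rintro (h4 | ⟨h4, _, h5⟩)
              · exact absurd h4 h3
              · rintro (h6 | h6)
                · exact h4 h6
                · exact h5 h6
          · have h3 : ¬ (i = u ∧ j = w) := by
              rintro ⟨rfl, _⟩
              exact h2 hσu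
            rw [if_neg h2, if_neg h2, Finset.mem_insert, Prod.mk.injEq]
            constructor
            · rintro (h4 | h4)
              · exact Or.inl ⟨h4.2, h4.1⟩
              · by_cases h5 : i = w ∧ j = u
                · exact Or.inl h5
                · exact Or.inr ⟨h3, h5, h4⟩
            · rintro (h4 | ⟨_, _, h4⟩)
              · exact Or.inl ⟨h4.2, h4.1⟩
              · exact Or.inr h4
    intro i j
    show T i j ↔ flip a b R' (K (φ i)) (K (φ j))
    rw [hφ, hflip _ _ (hφD i) (hφD j)]

end Pool.Agent.X147.Tp
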