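import Mathlib
import Pool.Agent.X147.TqB
import Pool.Agent.X147.TpC

open Finset

namespace Pool.Agent.X147.Tp

variable {h : ℕ} {T : Fin h → Fin h → Prop}

lemma addv' (hT2 : ∀ x y, x ≠ y → (T x y ↔ ¬ T y x)) (h3 : 3 ≤ h)
    (hnt : ∀ i j, i ≠ j → ∃ v, v ≠ i ∧ v ≠ j ∧ ¬ (T v i ↔ T v j)) (p : Cond T) (x : ℕ) : ∃ q : Cond T, p ≤ q ∧ x ∈ q.D := by
  classical
  by_cases hx : x ∈ p.D
  · exact ⟨p, le_refl p, hx⟩
  rcases Finset.eq_empty_or_nonempty p.D with he | ⟨g, hg⟩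
  · refine ⟨⟨{x}, fun _ _ => False, fun _ _ h => h, ?_, ?_⟩, ⟨?_, ?_⟩, Finset.mem_singleton_self x⟩
    · intro a ha b hb hab
      rw [Finset.mem_singleton] at ha hb
      exact absurd (ha.trans hb.symm) hab
    · rintro ⟨φ, _, hφ⟩
      have h1 := hT2 ⟨0, by omega⟩ ⟨1, by omega⟩ (by simp)
      rw [hφ, hφ] at h1
      exact h1.2 id
    · rw [he]; exact Finset.empty_subset _
    · intro a ha
      rw [he] at ha
      simp at ha
  · obtain ⟨q, hpq, hq, _⟩ := clone_step' hT2 hnt p hx hg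
    exact ⟨q, hpq, by rw [hq]; exact Finset.mem_insert_self _ _⟩

lemma addall' (hT2 : ∀ x y, x ≠ y → (T x y ↔ ¬ T y x)) (h3 : 3 ≤ h)
    (hnt : ∀ i j, i ≠ j → ∃ v, v ≠ i ∧ v ≠ j ∧ ¬ (T v i ↔ T v j)) (N : ℕ) (p : Cond T) : ∃ q : Cond T, p ≤ q ∧ ∀ x, x < N → x ∈ q.D := by
  induction N with
  | zero => exact ⟨p, le_refl p, fun x hx => absurd hx (Nat.not_lt_zero x)⟩
  | succ N ih =>
    obtain ⟨q, hpq, hq⟩ := ih
    obtain ⟨q', hqq, hq'⟩ := addv' hT2 h3 hnt q N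
    refine ⟨q', hpq.trans hqq, fun x hx => ?_⟩
    rcases Nat.lt_succ_iff_lt_or_eq.1 hx with h1 | h1
    · exact hqq.1 (hq x h1)
    · rw [h1]; exact hq'

lemma cofC' (hT2 : ∀ x y, x ≠ y → (T x y ↔ ¬ T y x)) (h3 : 3 ≤ h)
    (hnt : ∀ i j, i ≠ j → ∃ v, v ≠ i ∧ v ≠ j ∧ ¬ (T v i ↔ T v j)) (w N : ℕ) (p : Cond T) : ∃ q ∈ reqC T w N, p ≤ q := by
  classical
  obtain ⟨q1, hpq1, hw⟩ := addv' hT2 h3 hnt p w
  obtain ⟨q2, hq12, hall⟩ := addall' hT2 h3 hnt N q1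
  have hw2 : w ∈ q2.D := hq12.1 hw
  set m := N + q2.D.sup id + 1 with hm
  have hmD : m ∉ q2.D := by
    intro h1
    have := Finset.le_sup (f := id) h1
    simp only [id] at this
    omega
  obtain ⟨q3, hq23, hD, hcl⟩ := clone_step' hT2 hnt q2 hmD hw2
  refine ⟨q3, ⟨hq23.1 hw2, fun x hx => hq23.1 (hall x hx), m, ?_, by omega, ?_⟩,
    (hpq1.trans hq12).trans hq23⟩
  · rw [hD]; exact Finset.mem_insert_self _ _
  · intro x hx hxw
    obtain ⟨h1, h2⟩ := hcl x (hall x hx) hxw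
    exact ⟨h1.trans (hq23.2 w hw2 x (hall x hx)), h2.trans (hq23.2 x (hall x hx) w hw2)⟩

lemma cofE' (hT1 : ∀ x, ¬ T x x) (hT2 : ∀ x y, x ≠ y → (T x y ↔ ¬ T y x)) (h3 : 3 ≤ h)
    (hnt : ∀ i j, i ≠ j → ∃ v, v ≠ i ∧ v ≠ j ∧ ¬ (T v i ↔ T v j))
    {σ : Fin h → Bool} (hs : Split T σ) (a b : ℕ) (p : Cond T) : ∃ q ∈ reqE T a b, p ≤ q := by
  obtain ⟨q1, hpq1, ha⟩ := addv' hT2 h3 hnt p a
  obtain ⟨q2, hq12, hb⟩ := addv' hT2 h3 hnt q1 b
  have ha2 := hq12.1 ha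
  by_cases hab : q2.r a b
  · obtain ⟨q3, hq23, ψ, hψ1, hψ2⟩ := arc_step' hT1 hT2 hs q2 ha2 hb hab
    exact ⟨q3, ⟨hq23.1 ha2, hq23.1 hb, fun _ => ⟨ψ, hψ1, hψ2⟩⟩, (hpq1.trans hq12).trans hq23⟩
  · exact ⟨q2, ⟨ha2, hb, fun h => absurd h hab⟩, hpq1.trans hq12⟩

theorem exists_generic' (hT1 : ∀ x, ¬ T x x) (hT2 : ∀ x y, x ≠ y → (T x y ↔ ¬ T y x)) (h3 : 3 ≤ h)
    (hnt : ∀ i j, i ≠ j → ∃ v, v ≠ i ∧ v ≠ j ∧ ¬ (T v i ↔ T v j))
    {σ : Fin h → Bool} (hs : Split T σ) : ∃ S : ℕ → ℕ → Prop, (∀ x, ¬ S x x) ∧ (∀ x y, x ≠ y → (S x y ↔ ¬ S y x)) ∧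
      (¬ ∃ φ : Fin h → ℕ, ∀ i j, T i j ↔ S (φ i) (φ j)) ∧
      (∀ w N, ∃ m, N ≤ m ∧ ∀ x, x < N → x ≠ w → (S m x ↔ S w x) ∧ (S x m ↔ S x w)) ∧
      (∀ a b, S a b → ∃ ψ : Fin h → ℕ, ∀ i j, T i j ↔ flip a b S (ψ i) (ψ j)) := by
  classical
  let p0 : Cond T := ⟨∅, fun _ _ => False, fun _ _ h => h, fun x hx => by simp at hx, by
    rintro ⟨φ, hφ, _⟩
    have := hφ ⟨0, by omega⟩
    simp at this⟩
  let 𝒟 : (ℕ × ℕ) ⊕ (ℕ × ℕ) → Order.Cofinal (Cond T) := fun i => match i with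
    | .inl (w, N) => ⟨reqC T w N, fun p => cofC' hT2 h3 hnt w N p⟩
    | .inr (a, b) => ⟨reqE T a b, fun p => cofE' hT1 hT2 h3 hnt hs a b p⟩
  set q : ℕ → Cond T := Order.sequenceOfCofinals p0 𝒟 with hq
  have hmono : Monotone q := Order.sequenceOfCofinals.monotone p0 𝒟
  have hC : ∀ w N, ∃ n, q n ∈ reqC T w N := fun w N =>
    ⟨_, Order.sequenceOfCofinals.encode_mem p0 𝒟 (.inl (w, N))⟩
  have hE : ∀ a b, ∃ n, q n ∈ reqE T a b := fun a b =>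
    ⟨_, Order.sequenceOfCofinals.encode_mem p0 𝒟 (.inr (a, b))⟩
  set S : ℕ → ℕ → Prop := fun x y => ∃ n, x ∈ (q n).D ∧ y ∈ (q n).D ∧ (q n).r x y with hS
  have key : ∀ n x y, x ∈ (q n).D → y ∈ (q n).D → (S x y ↔ (q n).r x y) := by
    intro n x y hx hy
    constructor
    · rintro ⟨m, hxm, hym, hr⟩
      have h1 := hmono (le_max_left n m)
      have h2 := hmono (le_max_right n m)
      exact (h1.2 x hx y hy).2 ((h2.2 x hxm y hym).1 hr)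
    · exact fun hr => ⟨n, hx, hy, hr⟩
  have hcov : ∀ N, ∃ n, ∀ x, x < N → x ∈ (q n).D := by
    intro N
    obtain ⟨n, hn⟩ := hC 0 N
    exact ⟨n, hn.2.1⟩
  refine ⟨S, ?_, ?_, ?_, ?_, ?_⟩
  · rintro x ⟨n, hx, _, hr⟩
    exact (q n).irr x hx hr
  · intro x y hxy
    obtain ⟨n, hn⟩ := hcov (x + y + 1)
    have hx := hn x (by omega)
    have hy := hn y (by omega)
    rw [key n x y hx hy, key n y x hy hx]
    exact (q n).tot x hx y hy hxy
  · rintro ⟨φ, hφ⟩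
    obtain ⟨n, hn⟩ := hcov ((univ : Finset (Fin h)).sup φ + 1)
    have hmem : ∀ i, φ i ∈ (q n).D := fun i =>
      hn _ (Nat.lt_succ_of_le (Finset.le_sup (f := φ) (Finset.mem_univ i)))
    exact (q n).free ⟨φ, hmem, fun i j => by rw [hφ, key n _ _ (hmem i) (hmem j)]⟩
  · intro w N
    obtain ⟨n, hw, hall, m, hm, hNm, hcl⟩ := hC w N
    refine ⟨m, hNm, fun x hx hxw => ?_⟩
    rw [key n m x hm (hall x hx), key n w x hw (hall x hx), key n x m (hall x hx) hm,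
      key n x w (hall x hx) hw]
    exact hcl x hx hxw
  · intro a b hab
    obtain ⟨n, ha, hb, hcr⟩ := hE a b
    obtain ⟨ψ, hψ1, hψ2⟩ := hcr ((key n a b ha hb).1 hab)
    refine ⟨ψ, fun i j => ?_⟩
    rw [hψ2]
    unfold flip
    rw [key n _ _ (hψ1 i) (hψ1 j)]


/-- a finite set on which the tournament is transitive has a source -/
lemma source (hT2 : ∀ x y, x ≠ y → (T x y ↔ ¬ T y x)) (M : Finset (Fin h)) (hM : M.Nonempty)
    (htr : ∀ x ∈ M, ∀ y ∈ M, ∀ z ∈ M, T x y → T y z → T x z) :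
    ∃ x ∈ M, ∀ m ∈ M, m ≠ x → T x m := by
  classical
  induction M using Finset.induction_on with
  | empty => exact absurd hM (by simp)
  | insert a M ha ih =>
    rcases Finset.eq_empty_or_nonempty M with he | hne
    · refine ⟨a, Finset.mem_insert_self _ _, fun m hm hma => ?_⟩
      rw [he] at hm
      simp only [Finset.mem_insert, Finset.notMem_empty, or_false] at hm
      exact absurd hm hma
    · obtain ⟨x, hx, hsrc⟩ := ih hne (fun x hx y hy z hz => htr x (Finset.mem_insert_of_mem hx) y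
        (Finset.mem_insert_of_mem hy) z (Finset.mem_insert_of_mem hz))
      have hax : a ≠ x := fun h => ha (h ▸ hx)
      by_cases h1 : T a x
      · refine ⟨a, Finset.mem_insert_self _ _, fun m hm hma => ?_⟩
        rcases Finset.mem_insert.1 hm with rfl | hm
        · exact absurd rfl hma
        · by_cases hmx : m = x
          · rw [hmx]; exact h1
          · exact htr a (Finset.mem_insert_self _ _) x (Finset.mem_insert_of_mem hx) m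
              (Finset.mem_insert_of_mem hm) h1 (hsrc m hm hmx)
      · refine ⟨x, Finset.mem_insert_of_mem hx, fun m hm hmx => ?_⟩
        rcases Finset.mem_insert.1 hm with rfl | hm
        · exact (hT2 x m (Ne.symm hmx)).2 h1
        · exact hsrc m hm hmx

/-- a transitive module with two elements yields twins -/
lemma twins_of_transitive (hT2 : ∀ x y, x ≠ y → (T x y ↔ ¬ T y x))
    (M : Finset (Fin h))
    (hmod : ∀ v, v ∉ M → ∀ m ∈ M, ∀ m' ∈ M, (T v m ↔ T v m')) {a b : Fin h} (ha : a ∈ M)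
    (hb : b ∈ M) (hab : a ≠ b)
    (htr : ∀ x ∈ M, ∀ y ∈ M, ∀ z ∈ M, T x y → T y z → T x z) :
    ∃ i j, i ≠ j ∧ ∀ v, v ≠ i → v ≠ j → (T v i ↔ T v j) := by
  classical
  obtain ⟨x, hx, hxs⟩ := source hT2 M ⟨a, ha⟩ htr
  have hne : (M.erase x).Nonempty := by
    by_cases h1 : a = x
    · exact ⟨b, Finset.mem_erase.2 ⟨fun h => hab (h1.trans h.symm), hb⟩⟩
    · exact ⟨a, Finset.mem_erase.2 ⟨h1, ha⟩⟩
  obtain ⟨y, hy, hys⟩ := source hT2 (M.erase x) hne (fun p hp q hq r hr =>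
    htr p (Finset.mem_of_mem_erase hp) q (Finset.mem_of_mem_erase hq) r
      (Finset.mem_of_mem_erase hr))
  obtain ⟨hyx, hyM⟩ := Finset.mem_erase.1 hy
  refine ⟨x, y, Ne.symm hyx, fun v hvx hvy => ?_⟩
  by_cases hvM : v ∈ M
  · have h1 := hxs v hvM hvx
    have h2 := hys v (Finset.mem_erase.2 ⟨hvx, hvM⟩) hvy
    have h3 : ¬ T v x := (hT2 x v (Ne.symm hvx)).1 h1
    have h4 : ¬ T v y := (hT2 y v (Ne.symm hvy)).1 h2
    exact ⟨fun h => absurd h h3, fun h => absurd h h4⟩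
  · exact hmod v hvM x hx y hyM

end Pool.Agent.X147.Tp
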