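import Mathlib

/-!
Normalised Paley Hadamard matrices of order `q + 1` for primes `q ≡ 3 mod 4`.
-/

namespace Pool.Agent.X147.Jacket

open Finset

/-- The quadratic character of `ZMod q` with integer values. -/
noncomputable def chi (q : ℕ) [Fact q.Prime] (a : ZMod q) : ℤ := quadraticChar (ZMod q) a

section
variable (q : ℕ) [Fact q.Prime]

lemma chi_mul (a b : ZMod q) : chi q (a * b) = chi q a * chi q b := by
  unfold chi; exact map_mul _ _ _

lemma chi_zero : chi q 0 = 0 := by
  unfold chi; exact quadraticChar_zero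

lemma chi_one : chi q 1 = 1 := by
  unfold chi; exact map_one _

lemma chi_sq {a : ZMod q} (ha : a ≠ 0) : chi q a * chi q a = 1 := by
  unfold chi
  have := quadraticChar_sq_one ha
  rwa [pow_two] at this

lemma ringChar_ne (h3 : q % 4 = 3) : ringChar (ZMod q) ≠ 2 := by
  rw [ZMod.ringChar_zmod_n]
  omega

lemma chi_sum (h3 : q % 4 = 3) : ∑ a : ZMod q, chi q a = 0 := by
  unfold chi
  exact quadraticChar_sum_zero (ringChar_ne q h3)

lemma chi_neg_one (h3 : q % 4 = 3) : chi q (-1) = -1 := by
  unfold chi
  rw [quadraticChar_neg_one (ringChar_ne q h3), ZMod.card]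
  exact ZMod.χ₄_nat_three_mod_four h3

lemma chi_neg (h3 : q % 4 = 3) (a : ZMod q) : chi q (-a) = - chi q a := by
  rw [neg_eq_neg_one_mul, chi_mul, chi_neg_one q h3]
  ring

/-- the autocorrelation of the quadratic character -/
lemma chi_corr (h3 : q % 4 = 3) {d : ZMod q} (hd : d ≠ 0) :
    ∑ c : ZMod q, chi q c * chi q (c + d) = -1 := by
  have h0 : ∑ c : ZMod q, chi q c * chi q (c + d)
      = ∑ c ∈ (univ : Finset (ZMod q)).erase 0, chi q c * chi q (c + d) := by
    rw [← Finset.add_sum_erase univ _ (mem_univ (0 : ZMod q)), chi_zero]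
    simp
  have h1 : ∑ c ∈ (univ : Finset (ZMod q)).erase 0, chi q c * chi q (c + d)
      = ∑ c ∈ (univ : Finset (ZMod q)).erase 0, chi q (1 + d * c⁻¹) := by
    apply Finset.sum_congr rfl
    intro c hc
    have hc0 : c ≠ 0 := (Finset.mem_erase.mp hc).1
    have e : c + d = c * (1 + d * c⁻¹) := by
      field_simp
    rw [e, chi_mul, ← mul_assoc, chi_sq q hc0, one_mul]
  have h2 : ∑ c ∈ (univ : Finset (ZMod q)).erase 0, chi q (1 + d * c⁻¹)
      = ∑ e ∈ (univ : Finset (ZMod q)).erase 1, chi q e := by
    refine Finset.sum_bij' (fun c _ => 1 + d * c⁻¹) (fun e _ => d * (e - 1)⁻¹) ?_ ?_ ?_ ?_ ?_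
    · intro c hc
      have hc0 : c ≠ 0 := (Finset.mem_erase.mp hc).1
      refine Finset.mem_erase.mpr ⟨?_, mem_univ _⟩
      intro h
      have : d * c⁻¹ = 0 := by linear_combination h
      rcases mul_eq_zero.mp this with h' | h'
      · exact hd h'
      · exact hc0 (inv_eq_zero.mp h')
    · intro e he
      have he0 : e ≠ 1 := (Finset.mem_erase.mp he).1
      refine Finset.mem_erase.mpr ⟨?_, mem_univ _⟩
      intro h
      rcases mul_eq_zero.mp h with h' | h'
      · exact hd h'
      · exact he0 (sub_eq_zero.mp (inv_eq_zero.mp h'))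
    · intro c hc
      have hc0 : c ≠ 0 := (Finset.mem_erase.mp hc).1
      simp only [add_sub_cancel_left]
      rw [mul_inv, inv_inv]
      field_simp
    · intro e he
      have he0 : e ≠ 1 := (Finset.mem_erase.mp he).1
      have he1 : e - 1 ≠ 0 := sub_ne_zero.mpr he0
      rw [mul_inv, inv_inv]
      field_simp
      ring
    · intro c hc
      rfl
  have h3' : ∑ e ∈ (univ : Finset (ZMod q)).erase 1, chi q e = -1 := by
    have := Finset.add_sum_erase univ (chi q) (mem_univ (1 : ZMod q))
    rw [chi_sum q h3, chi_one] at this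
    linarith
  rw [h0, h1, h2, h3']

/-- The Paley matrix, normalised. -/
noncomputable def pal : Option (ZMod q) → Option (ZMod q) → ℤ
  | none, _ => 1
  | some _, none => 1
  | some a, some b => -((if a = b then 1 else 0) + chi q (b - a))

lemma pal_none_left (x : Option (ZMod q)) : pal q none x = 1 := by
  cases x <;> rfl

lemma pal_none_right (x : Option (ZMod q)) : pal q x none = 1 := by
  cases x <;> rfl

lemma pal_some (a b : ZMod q) :
    pal q (some a) (some b) = -((if a = b then 1 else 0) + chi q (b - a)) := rfl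

lemma pal_sq (x y : Option (ZMod q)) : pal q x y * pal q x y = 1 := by
  cases x with
  | none => rw [pal_none_left]; rfl
  | some a =>
    cases y with
    | none => rw [pal_none_right]; rfl
    | some b =>
      rw [pal_some]
      by_cases h : a = b
      · subst h
        simp [chi_zero]
      · have : b - a ≠ 0 := sub_ne_zero.mpr (Ne.symm h)
        rw [if_neg h]
        have := chi_sq q this
        linarith

lemma sum_pal_some (h3 : q % 4 = 3) (a : ZMod q) :
    ∑ b : ZMod q, pal q (some a) (some b) = -1 := by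
  have h : ∑ b : ZMod q, chi q (b - a) = 0 := by
    rw [← chi_sum q h3]
    exact (Equiv.subRight a).sum_comp (chi q)
  simp only [pal_some]
  rw [Finset.sum_neg_distrib, Finset.sum_add_distrib, h]
  simp

lemma sum_pal_pal (h3 : q % 4 = 3) {a a' : ZMod q} (h : a ≠ a') :
    ∑ b : ZMod q, pal q (some a) (some b) * pal q (some a') (some b) = -1 := by
  have hd : a - a' ≠ 0 := sub_ne_zero.mpr h
  have hcorr : ∑ b : ZMod q, chi q (b - a) * chi q (b - a') = -1 := by
    rw [← chi_corr q h3 hd]
    rw [← (Equiv.subRight a).sum_comp (fun c => chi q c * chi q (c + (a - a')))]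
    apply Finset.sum_congr rfl
    intro b _
    simp only [Equiv.subRight_apply]
    congr 2
    ring
  have hexp : ∀ b : ZMod q, pal q (some a) (some b) * pal q (some a') (some b)
      = (if a = b then chi q (b - a') else 0) + (if a' = b then chi q (b - a) else 0)
        + chi q (b - a) * chi q (b - a') := by
    intro b
    rw [pal_some, pal_some]
    by_cases h1 : a = b
    · have h2 : a' ≠ b := fun h2 => h (h1.trans h2.symm)
      rw [if_pos h1, if_neg h2, if_pos h1, if_neg h2]
      ring
    · by_cases h2 : a' = b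
      · rw [if_neg h1, if_pos h2, if_neg h1, if_pos h2]
        ring
      · rw [if_neg h1, if_neg h2, if_neg h1, if_neg h2]
        ring
  rw [Finset.sum_congr rfl (fun b _ => hexp b), Finset.sum_add_distrib, Finset.sum_add_distrib,
    hcorr]
  rw [Finset.sum_ite_eq, Finset.sum_ite_eq, if_pos (mem_univ _), if_pos (mem_univ _)]
  have : chi q (a' - a) = - chi q (a - a') := by
    rw [← chi_neg q h3]; congr 1; ring
  rw [this]
  ring

lemma pal_row (h3 : q % 4 = 3) (x y : Option (ZMod q)) :
    ∑ k, pal q x k * pal q y k = if x = y then ((q + 1 : ℕ) : ℤ) else 0 := by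
  by_cases hxy : x = y
  · subst hxy
    rw [if_pos rfl, Finset.sum_congr rfl (fun k _ => pal_sq q x k)]
    simp [ZMod.card]
  · rw [if_neg hxy]
    rw [Fintype.sum_option]
    cases x with
    | none =>
      cases y with
      | none => exact absurd rfl hxy
      | some b =>
        simp only [pal_none_left, pal_none_right, one_mul]
        rw [sum_pal_some q h3]
        norm_num
    | some a =>
      cases y with
      | none =>
        simp only [pal_none_left, pal_none_right, mul_one]
        rw [sum_pal_some q h3]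
        norm_num
      | some b =>
        have hab : a ≠ b := fun h => hxy (by rw [h])
        simp only [pal_none_right, mul_one]
        rw [sum_pal_pal q h3 hab]
        norm_num

end

/-- Column orthogonality of a square matrix with row orthogonality. -/
lemma col_of_row {v : ℕ} (hv : 0 < v) (H : Fin v → Fin v → ℤ)
    (hr : ∀ i j, ∑ k, H i k * H j k = if i = j then (v : ℤ) else 0) :
    ∀ i j, ∑ k, H k i * H k j = if i = j then (v : ℤ) else 0 := by
  let A : Matrix (Fin v) (Fin v) ℚ := Matrix.of fun i j => (H i j : ℚ)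
  have hv' : (v : ℚ) ≠ 0 := by exact_mod_cast hv.ne'
  have h1 : A * ((v : ℚ)⁻¹ • A.transpose) = 1 := by
    rw [Matrix.mul_smul]
    ext i j
    simp only [Matrix.smul_apply, Matrix.mul_apply, Matrix.transpose_apply, smul_eq_mul,
      Matrix.one_apply]
    have := hr i j
    have h2 : ∑ k, A i k * A j k = if i = j then (v : ℚ) else 0 := by
      have : (∑ k, A i k * A j k) = ((∑ k, H i k * H j k : ℤ) : ℚ) := by
        push_cast
        rfl
      rw [this, hr i j]
      split_ifs <;> simp
    rw [h2]
    split_ifs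
    · field_simp
    · simp
  have h3 := mul_eq_one_comm.mp h1
  intro i j
  have h4 := congrFun (congrFun h3 i) j
  rw [Matrix.smul_mul] at h4
  simp only [Matrix.smul_apply, Matrix.mul_apply, Matrix.transpose_apply, smul_eq_mul,
      Matrix.one_apply] at h4
  have h5 : ∑ k, A k i * A k j = if i = j then (v : ℚ) else 0 := by
    have : ∑ k, A k i * A k j = (v : ℚ) * ((v : ℚ)⁻¹ * ∑ k, A k i * A k j) := by
      field_simp
    rw [this, h4]
    split_ifs <;> simp
  have h6 : ((∑ k, H k i * H k j : ℤ) : ℚ) = ((if i = j then (v : ℤ) else 0 : ℤ) : ℚ) := by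
    have : (∑ k, A k i * A k j) = ((∑ k, H k i * H k j : ℤ) : ℚ) := by
      push_cast
      rfl
    rw [← this, h5]
    split_ifs <;> simp
  exact_mod_cast h6

/-- A normalised Hadamard matrix of order `v`, as a function with integer values. -/
def HadNorm (v : ℕ) (H : Fin v → Fin v → ℤ) : Prop :=
  (∀ i j, H i j * H i j = 1) ∧ (∀ i j : Fin v, (i : ℕ) = 0 ∨ (j : ℕ) = 0 → H i j = 1) ∧
  (∀ i j, ∑ k, H i k * H j k = if i = j then (v : ℤ) else 0) ∧
  (∀ i j, ∑ k, H k i * H k j = if i = j then (v : ℤ) else 0)

theorem exists_hadNorm (q : ℕ) (hq : q.Prime) (h3 : q % 4 = 3) :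
    ∃ H : Fin (q + 1) → Fin (q + 1) → ℤ, HadNorm (q + 1) H := by
  have : Fact q.Prime := ⟨hq⟩
  have : NeZero q := ⟨hq.ne_zero⟩
  let e : Fin (q + 1) ≃ Option (ZMod q) :=
    (finSuccEquiv q).trans (Equiv.optionCongr (ZMod.finEquiv q).toEquiv)
  have he0 : ∀ i : Fin (q + 1), (i : ℕ) = 0 → e i = none := by
    intro i hi
    have : i = 0 := Fin.ext hi
    subst this
    simp [e]
  have hrow : ∀ i j : Fin (q + 1), ∑ k, pal q (e i) (e k) * pal q (e j) (e k)
      = if i = j then ((q + 1 : ℕ) : ℤ) else 0 := by
    intro i j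
    rw [e.sum_comp (fun k => pal q (e i) k * pal q (e j) k), pal_row q h3]
    by_cases hij : i = j
    · simp [hij]
    · rw [if_neg hij, if_neg (fun h => hij (e.injective h))]
  refine ⟨fun i j => pal q (e i) (e j), fun i j => pal_sq q _ _, ?_, hrow, ?_⟩
  · intro i j hij
    rcases hij with h | h
    · simp only [he0 i h, pal_none_left]
    · simp only [he0 j h, pal_none_right]
  · exact col_of_row (Nat.succ_pos q) _ hrow

/-- Infinitely many orders `v = 2 n` with `n ≡ 2 mod 4`, `n ≥ 6`. -/
theorem exists_hadNorm_infinite (N : ℕ) :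
    ∃ n, N < n ∧ 6 ≤ n ∧ n % 4 = 2 ∧ ∃ H : Fin (2 * n) → Fin (2 * n) → ℤ, HadNorm (2 * n) H := by
  obtain ⟨p, hpN, hp, hmod⟩ := Nat.forall_exists_prime_gt_and_modEq (2 * N + 11) (q := 8) (a := 3)
    (by norm_num) (by decide)
  have hmod' : p % 8 = 3 := by
    have := hmod
    unfold Nat.ModEq at this
    omega
  obtain ⟨H, hH⟩ := exists_hadNorm p hp (by omega)
  have hv : p + 1 = 2 * ((p + 1) / 2) := by omega
  refine ⟨(p + 1) / 2, by omega, by omega, by omega, ?_⟩
  rw [← hv]
  exact ⟨H, hH⟩

end Pool.Agent.X147.Jacket
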