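import Mathlib

set_option autoImplicit false

/-! # Star-shaped polygons: area and length of the boundary -/

open MeasureTheory Set Complex
open scoped ENNReal Real

namespace Pool.Agent.X147.SP

/-- `cis t = exp (i t)` -/
noncomputable def cis (t : ℝ) : ℂ := Complex.exp (t * I)

lemma cis_re (t : ℝ) : (cis t).re = Real.cos t := by
  simp [cis, Complex.exp_ofReal_mul_I_re]

lemma cis_im (t : ℝ) : (cis t).im = Real.sin t := by
  simp [cis, Complex.exp_ofReal_mul_I_im]

lemma cis_add (s t : ℝ) : cis (s + t) = cis s * cis t := by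
  simp only [cis]; rw [← Complex.exp_add]; push_cast; ring_nf

lemma norm_cis (t : ℝ) : ‖cis t‖ = 1 := Complex.norm_exp_ofReal_mul_I t

lemma cis_ne_zero (t : ℝ) : cis t ≠ 0 := Complex.exp_ne_zero _

lemma cis_zero : cis 0 = 1 := by simp [cis]

lemma cis_two_pi : cis (2 * π) = 1 := by
  simp only [cis]; push_cast; exact Complex.exp_two_pi_mul_I

lemma cis_int (z : ℤ) (t : ℝ) : cis (t + z * (2 * π)) = cis t := by
  simp only [cis]
  rw [show ((t + z * (2 * π) : ℝ) : ℂ) * I = (t : ℂ) * I + z * (2 * π * I) by push_cast; ring,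
    Complex.exp_add, Complex.exp_int_mul_two_pi_mul_I, mul_one]

lemma cis_inj {s t : ℝ} (h : cis s = cis t) : ∃ z : ℤ, s = t + z * (2 * π) := by
  obtain ⟨z, hz⟩ := Complex.exp_eq_exp_iff_exists_int.1 h
  refine ⟨z, ?_⟩
  have := congrArg Complex.im hz
  simpa using this

lemma eq_norm_cis_arg (x : ℂ) : x = ‖x‖ * cis (Complex.arg x) := by
  rw [cis]; exact (Complex.norm_mul_exp_arg_mul_I x).symm

/-- interpolation on a cone of opening less than `π` -/
lemma cone_repr {a b φ : ℝ} (h1 : a ≤ φ) (h2 : φ ≤ b) (hab : a < b) (hπ : b - a < π) :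
    ∃ s t : ℝ, 0 ≤ s ∧ 0 ≤ t ∧ cis φ = s * cis a + t * cis b := by
  have hs : 0 < Real.sin (b - a) := Real.sin_pos_of_pos_of_lt_pi (by linarith) hπ
  refine ⟨Real.sin (b - φ) / Real.sin (b - a), Real.sin (φ - a) / Real.sin (b - a), ?_, ?_, ?_⟩
  · exact div_nonneg (Real.sin_nonneg_of_nonneg_of_le_pi (by linarith) (by linarith)) hs.le
  · exact div_nonneg (Real.sin_nonneg_of_nonneg_of_le_pi (by linarith) (by linarith)) hs.le
  · have e1 : Real.sin (b - a) * Real.cos φ =
        Real.sin (b - φ) * Real.cos a + Real.sin (φ - a) * Real.cos b := by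
      simp only [Real.sin_sub]
      ring
    have e2 : Real.sin (b - a) * Real.sin φ =
        Real.sin (b - φ) * Real.sin a + Real.sin (φ - a) * Real.sin b := by
      simp only [Real.sin_sub]
      ring
    apply Complex.ext
    · simp only [Complex.add_re, Complex.re_ofReal_mul, cis_re]
      field_simp
      linarith
    · simp only [Complex.add_im, Complex.im_ofReal_mul, cis_im]
      field_simp
      linarith

/-- the angle of a point of a cone -/
lemma cone_angle {a b s t : ℝ} (hab : a < b) (hπ : b - a < π) (hs : 0 ≤ s) (ht : 0 ≤ t) :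
    ∃ φ, a ≤ φ ∧ φ ≤ b ∧ (s * cis a + t * cis b : ℂ) = ‖(s * cis a + t * cis b : ℂ)‖ * cis φ := by
  set x : ℂ := s * cis a + t * cis b with hx
  by_cases hx0 : x = 0
  · exact ⟨a, le_rfl, hab.le, by simp [hx0]⟩
  set y : ℂ := s + t * cis (b - a) with hy
  have hxy : x = y * cis a := by
    rw [hx, hy, add_mul, mul_assoc, ← cis_add]
    congr 3; ring
  have hg : 0 < Real.sin (b - a) := Real.sin_pos_of_pos_of_lt_pi (by linarith) hπ
  have hy0 : y ≠ 0 := by
    intro h; rw [h, zero_mul] at hxy; exact hx0 hxy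
  have hyim : 0 ≤ y.im := by
    rw [hy]
    simp only [Complex.add_im, Complex.ofReal_im, zero_add, Complex.im_ofReal_mul, cis_im]
    positivity
  have h0 : 0 ≤ Complex.arg y := Complex.arg_nonneg_iff.2 hyim
  have h1 : Complex.arg y ≤ b - a := by
    by_contra hcon
    push Not at hcon
    have hle : Complex.arg y ≤ π := Complex.arg_le_pi y
    have e1 : y * cis (-(b - a)) = ‖y‖ * cis (Complex.arg y - (b - a)) := by
      conv_lhs => rw [eq_norm_cis_arg y]
      rw [mul_assoc, ← cis_add]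
      rfl
    have e2 : y * cis (-(b - a)) = s * cis (-(b - a)) + t := by
      rw [hy, add_mul, mul_assoc, ← cis_add]
      simp [cis_zero]
    have e3 := congrArg Complex.im (e1.symm.trans e2)
    simp only [Complex.add_im, Complex.ofReal_im, Complex.im_ofReal_mul, cis_im, Real.sin_neg,
      add_zero] at e3
    have hny : 0 < ‖y‖ := norm_pos_iff.2 hy0
    have hsin : 0 < Real.sin (Complex.arg y - (b - a)) :=
      Real.sin_pos_of_pos_of_lt_pi (by linarith) (by linarith)
    have : 0 < ‖y‖ * Real.sin (Complex.arg y - (b - a)) := mul_pos hny hsin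
    nlinarith [mul_nonneg hs hg.le]
  refine ⟨a + Complex.arg y, by linarith, by linarith, ?_⟩
  have hn : ‖x‖ = ‖y‖ := by rw [hxy, norm_mul, norm_cis, mul_one]
  rw [hn, add_comm, cis_add, ← mul_assoc, ← eq_norm_cis_arg y]
  exact hxy

/-- locate an angle between consecutive nodes -/
lemma locate (a : ℕ → ℝ) (N : ℕ) {φ : ℝ} (h0 : a 0 ≤ φ) (hN : φ < a N) :
    ∃ i < N, a i ≤ φ ∧ φ < a (i + 1) := by
  induction N with
  | zero => exact absurd (h0.trans_lt hN) (lt_irrefl _)
  | succ n ih =>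
    by_cases h : φ < a n
    · obtain ⟨i, hi, h1⟩ := ih h
      exact ⟨i, by omega, h1⟩
    · exact ⟨n, by omega, not_lt.1 h, hN⟩

/-- Data of a star-shaped polygon. -/
structure StarPoly where
  N : ℕ
  a : ℕ → ℝ
  r : ℕ → ℝ
  F : ℂ → ℝ
  hN : 0 < N
  mono : ∀ i < N, a i < a (i + 1)
  gap : ∀ i < N, a (i + 1) - a i < π
  aN : a N = a 0 + 2 * π
  rpos : ∀ i, 0 < r i
  rN : r N = r 0
  hc : Continuous F
  hF : ∀ i < N, ∀ s t : ℝ, 0 ≤ s → 0 ≤ t →
    F (s * (r i * cis (a i)) + t * (r (i + 1) * cis (a (i + 1)))) = s + t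

namespace StarPoly

variable (S : StarPoly)

/-- the vertices -/
noncomputable def u (i : ℕ) : ℂ := S.r i * cis (S.a i)

/-- the cones -/
def cone (i : ℕ) : Set ℂ := {x | ∃ s t : ℝ, 0 ≤ s ∧ 0 ≤ t ∧ x = s * S.u i + t * S.u (i + 1)}

lemma u_ne_zero (i : ℕ) : S.u i ≠ 0 :=
  mul_ne_zero (by exact_mod_cast (S.rpos i).ne') (cis_ne_zero _)

lemma amono {i j : ℕ} (hij : i ≤ j) (hj : j ≤ S.N) : S.a i ≤ S.a j := by
  induction j, hij using Nat.le_induction with
  | base => exact le_rfl
  | succ j hij ih => exact (ih (by omega)).trans (S.mono j (by omega)).le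

lemma cover (x : ℂ) : ∃ i < S.N, x ∈ S.cone i := by
  by_cases hx : x = 0
  · exact ⟨0, S.hN, 0, 0, le_rfl, le_rfl, by simp [hx]⟩
  have h2 : 0 < 2 * π := by positivity
  set φ := toIcoMod h2 (S.a 0) (Complex.arg x) with hφ
  have hmem := toIcoMod_mem_Ico h2 (S.a 0) (Complex.arg x)
  rw [← hφ] at hmem
  obtain ⟨i, hi, h3, h4⟩ := locate S.a S.N hmem.1 (by rw [S.aN]; exact hmem.2)
  obtain ⟨s, t, hs, ht, hst⟩ := cone_repr h3 h4.le (S.mono i hi) (S.gap i hi)
  have hx' : x = ‖x‖ * cis φ := by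
    have : Complex.arg x = φ + toIcoDiv h2 (S.a 0) (Complex.arg x) * (2 * π) := by
      rw [hφ, ← zsmul_eq_mul]
      exact (toIcoMod_add_toIcoDiv_zsmul h2 (S.a 0) (Complex.arg x)).symm
    conv_lhs => rw [eq_norm_cis_arg x, this, cis_int]
  refine ⟨i, hi, ‖x‖ * s / S.r i, ‖x‖ * t / S.r (i + 1), ?_, ?_, ?_⟩
  · have := S.rpos i; positivity
  · have := S.rpos (i + 1); positivity
  · have h5 : (S.r i : ℂ) ≠ 0 := by exact_mod_cast (S.rpos i).ne'
    have h6 : (S.r (i + 1) : ℂ) ≠ 0 := by exact_mod_cast (S.rpos (i + 1)).ne'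
    conv_lhs => rw [hx', hst]
    rw [u, u]
    push_cast
    field_simp

/-- A common point of two different cones lies on one of two rays. -/
lemma inter_cone {i j : ℕ} (hij : i < j) (hj : j < S.N) {x : ℂ} (h1 : x ∈ S.cone i)
    (h2 : x ∈ S.cone j) : ∃ t : ℝ, 0 ≤ t ∧ (x = t * S.u j ∨ x = t * S.u 0) := by
  obtain ⟨s, t, hs, ht, hx⟩ := h1
  obtain ⟨s', t', hs', ht', hx'⟩ := h2
  have p1 := S.rpos i
  have p2 := S.rpos (i + 1)
  have p3 := S.rpos j
  have p4 := S.rpos (j + 1)
  have p0 := S.rpos 0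
  have e1 : x = ((s * S.r i : ℝ) : ℂ) * cis (S.a i) + ((t * S.r (i + 1) : ℝ) : ℂ) * cis (S.a (i + 1)) := by
    rw [hx, u, u]; push_cast; ring
  have e2 : x = ((s' * S.r j : ℝ) : ℂ) * cis (S.a j) + ((t' * S.r (j + 1) : ℝ) : ℂ) * cis (S.a (j + 1)) := by
    rw [hx', u, u]; push_cast; ring
  obtain ⟨φ, f1, f2, f3⟩ := cone_angle (S.mono i (by omega)) (S.gap i (by omega))
    (mul_nonneg hs p1.le) (mul_nonneg ht p2.le)
  obtain ⟨ψ, g1, g2, g3⟩ := cone_angle (S.mono j hj) (S.gap j hj)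
    (mul_nonneg hs' p3.le) (mul_nonneg ht' p4.le)
  rw [← e1] at f3
  rw [← e2] at g3
  by_cases hx0 : x = 0
  · exact ⟨0, le_rfl, Or.inl (by simp [hx0])⟩
  have hn : 0 < ‖x‖ := norm_pos_iff.2 hx0
  have hn' : (‖x‖ : ℂ) ≠ 0 := by exact_mod_cast hn.ne'
  have hc : cis ψ = cis φ := mul_left_cancel₀ hn' (g3.symm.trans f3)
  obtain ⟨z, hz⟩ := cis_inj hc
  have k1 : S.a (i + 1) ≤ S.a j := S.amono (by omega) (by omega)
  have k2 : S.a (j + 1) ≤ S.a S.N := S.amono (by omega) le_rfl
  have k3 : S.a 0 ≤ S.a i := S.amono (by omega) (by omega)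
  have haN := S.aN
  have hpi := Real.pi_pos
  have z0 : 0 ≤ z := by
    by_contra hcon
    have : z ≤ -1 := by omega
    have : (z : ℝ) ≤ -1 := by exact_mod_cast this
    nlinarith [Real.pi_pos]
  have z1 : z ≤ 1 := by
    by_contra hcon
    have : 2 ≤ z := by omega
    have : (2 : ℝ) ≤ z := by exact_mod_cast this
    nlinarith [Real.pi_pos]
  have hz01 : z = 0 ∨ z = 1 := by omega
  rcases hz01 with rfl | rfl
  · have : ψ = φ := by rw [hz]; simp
    have hψ : ψ = S.a j := by linarith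
    refine ⟨‖x‖ / S.r j, by positivity, Or.inl ?_⟩
    have h5 : (S.r j : ℂ) ≠ 0 := by exact_mod_cast p3.ne'
    conv_lhs => rw [g3, hψ]
    rw [u]; push_cast; field_simp
  · have hψ : ψ = φ + 2 * π := by rw [hz]; push_cast; ring
    have hφ : φ = S.a 0 := by linarith
    refine ⟨‖x‖ / S.r 0, by positivity, Or.inr ?_⟩
    have h5 : (S.r 0 : ℂ) ≠ 0 := by exact_mod_cast p0.ne'
    conv_lhs => rw [f3, hφ]
    rw [u]; push_cast; field_simp

lemma F_u (i : ℕ) (hi : i < S.N) : S.F (S.u i) = 1 := by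
  have := S.hF i hi 1 0 zero_le_one le_rfl
  simpa [u] using this

lemma F_smul_u (i : ℕ) (hi : i < S.N) {t : ℝ} (ht : 0 ≤ t) : S.F (t * S.u i) = t := by
  have := S.hF i hi t 0 ht le_rfl
  simpa [u] using this

lemma F_smul {c : ℝ} (hc : 0 ≤ c) (x : ℂ) : S.F (c * x) = c * S.F x := by
  obtain ⟨i, hi, s, t, hs, ht, rfl⟩ := S.cover x
  have h1 := S.hF i hi s t hs ht
  have h2 := S.hF i hi (c * s) (c * t) (by positivity) (by positivity)
  rw [u, u, h1]
  rw [← mul_add] at h2
  rw [← h2]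
  congr 1
  push_cast; ring

lemma uN : S.u S.N = S.u 0 := by
  rw [u, u, S.rN, S.aN]
  have := cis_int 1 (S.a 0)
  simp only [Int.cast_one, one_mul] at this
  rw [this]

/-- the region -/
def U : Set ℂ := {x | S.F x ≤ 1}

lemma frontier_U : frontier S.U = {x | S.F x = 1} := by
  have hcl : IsClosed S.U := isClosed_le S.hc continuous_const
  rw [hcl.frontier_eq]
  ext x
  simp only [U, Set.mem_sdiff, Set.mem_ofPred_eq]
  constructor
  · rintro ⟨h1, h2⟩
    by_contra hne
    apply h2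
    have hlt : S.F x < 1 := lt_of_le_of_ne h1 hne
    have hop : IsOpen {y | S.F y < 1} := isOpen_lt S.hc continuous_const
    exact interior_maximal (fun y (hy : S.F y < 1) => hy.le) hop hlt
  · intro h
    refine ⟨h.le, fun hint => ?_⟩
    rw [mem_interior_iff_mem_nhds] at hint
    have hcont : Continuous fun c : ℝ => (c : ℂ) * x := by fun_prop
    have : (fun c : ℝ => (c : ℂ) * x) ⁻¹' {x | S.F x ≤ 1} ∈ nhds (1 : ℝ) :=
      hcont.continuousAt.preimage_mem_nhds (by simpa using hint)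
    obtain ⟨ε, hε, hball⟩ := Metric.mem_nhds_iff.1 this
    have hmem : (1 + ε / 2 : ℝ) ∈ Metric.ball (1 : ℝ) ε := by
      rw [Metric.mem_ball, Real.dist_eq]
      rw [show 1 + ε / 2 - 1 = ε / 2 by ring, abs_of_pos (by linarith)]
      linarith
    have h3 := hball hmem
    simp only [mem_preimage, Set.mem_ofPred_eq] at h3
    rw [S.F_smul (by linarith), h] at h3
    linarith

lemma segment_eq (i : ℕ) (hi : i < S.N) :
    S.cone i ∩ {x | S.F x = 1} = segment ℝ (S.u i) (S.u (i + 1)) := by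
  ext x
  simp only [cone, mem_inter_iff, Set.mem_ofPred_eq, segment]
  constructor
  · rintro ⟨⟨s, t, hs, ht, rfl⟩, h⟩
    refine ⟨s, t, hs, ht, ?_, by simp⟩
    rw [u, u, S.hF i hi s t hs ht] at h
    exact h
  · rintro ⟨s, t, hs, ht, hst, rfl⟩
    refine ⟨⟨s, t, hs, ht, by simp⟩, ?_⟩
    have := S.hF i hi s t hs ht
    rw [← u, ← u] at this
    simp only [Complex.real_smul]
    rw [this, hst]

/-- The length of the boundary. -/
lemma length : (Measure.hausdorffMeasure (1 : ℝ) : Measure ℂ) (frontier S.U) =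
    ∑ i ∈ Finset.range S.N, edist (S.u i) (S.u (i + 1)) := by
  have hun : frontier S.U = ⋃ i ∈ Finset.range S.N, segment ℝ (S.u i) (S.u (i + 1)) := by
    rw [frontier_U]
    ext x
    simp only [mem_iUnion, Finset.mem_range, exists_prop]
    constructor
    · intro hx
      obtain ⟨i, hi, hxi⟩ := S.cover x
      exact ⟨i, hi, by rw [← S.segment_eq i hi]; exact ⟨hxi, hx⟩⟩
    · rintro ⟨i, hi, hx⟩
      rw [← S.segment_eq i hi] at hx
      exact hx.2
  rw [hun, measure_biUnion_finset₀]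
  · refine Finset.sum_congr rfl fun i _ => ?_
    rw [hausdorffMeasure_segment]
  · intro i hi j hj hij
    have key : ∀ i j : ℕ, i < j → j < S.N → AEDisjoint (Measure.hausdorffMeasure (1 : ℝ) : Measure ℂ)
        (segment ℝ (S.u i) (S.u (i + 1))) (segment ℝ (S.u j) (S.u (j + 1))) := by
      intro i j hij hj
      have : NullSingletonClass (Measure.hausdorffMeasure (1 : ℝ) : Measure ℂ) :=
        Measure.nullSingletonClass_hausdorff _ zero_lt_one
      refine measure_mono_null (t := {S.u j, S.u 0}) ?_ (Set.Finite.measure_zero (by simp) _)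
      rintro x ⟨h1, h2⟩
      rw [← S.segment_eq i (by omega)] at h1
      rw [← S.segment_eq j hj] at h2
      obtain ⟨t, ht, h⟩ := S.inter_cone hij hj h1.1 h2.1
      have hF1 : S.F x = 1 := h1.2
      rcases h with h | h
      · left
        rw [h, S.F_smul_u j hj ht] at hF1
        rw [h, hF1]; simp
      · right
        rw [h, S.F_smul_u 0 S.hN ht] at hF1
        rw [h, hF1]; simp
    rcases Nat.lt_or_gt_of_ne hij with h | h
    · exact key i j h (by simpa using hj)
    · exact (key j i h (by simpa using hi)).symm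
  · intro i _
    have hcl : IsClosed (segment ℝ (S.u i) (S.u (i + 1))) := by
      rw [← convexHull_pair]
      exact (Set.toFinite ({S.u i, S.u (i + 1)} : Set ℂ)).isClosed_convexHull ℝ
    exact hcl.measurableSet.nullMeasurableSet

end StarPoly

end Pool.Agent.X147.SP
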