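import Mathlib
import Pool.Agent.X147.StarA

set_option autoImplicit false

/-! # Area of star-shaped polygons -/

open MeasureTheory Set Complex
open scoped ENNReal Real

namespace Pool.Agent.X147.SP

/-- standard simplex -/
def stdTri : Set ℂ := {z | 0 ≤ z.re ∧ 0 ≤ z.im ∧ z.re + z.im ≤ 1}

lemma vol_stdTri : volume stdTri = ENNReal.ofReal (1 / 2) := by
  have hmp := Complex.volume_preserving_equiv_real_prod
  have hset : stdTri = Complex.measurableEquivRealProd ⁻¹'
      {p : ℝ × ℝ | 0 ≤ p.1 ∧ 0 ≤ p.2 ∧ p.1 + p.2 ≤ 1} := by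
    ext z; simp [stdTri, Complex.measurableEquivRealProd]
  have hm : MeasurableSet {p : ℝ × ℝ | 0 ≤ p.1 ∧ 0 ≤ p.2 ∧ p.1 + p.2 ≤ 1} := by
    apply IsClosed.measurableSet
    exact (isClosed_le continuous_const continuous_fst).inter
      ((isClosed_le continuous_const continuous_snd).inter
        (isClosed_le (continuous_fst.add continuous_snd) continuous_const))
  rw [hset, hmp.measure_preimage hm.nullMeasurableSet, Measure.volume_eq_prod,
    Measure.prod_apply hm]
  have hsec : ∀ x : ℝ, volume (Prod.mk x ⁻¹' {p : ℝ × ℝ | 0 ≤ p.1 ∧ 0 ≤ p.2 ∧ p.1 + p.2 ≤ 1}) =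
      (Icc (0 : ℝ) 1).indicator (fun x => ENNReal.ofReal (1 - x)) x := by
    intro x
    by_cases hx : x ∈ Icc (0 : ℝ) 1
    · rw [indicator_of_mem hx]
      have : Prod.mk x ⁻¹' {p : ℝ × ℝ | 0 ≤ p.1 ∧ 0 ≤ p.2 ∧ p.1 + p.2 ≤ 1} = Icc 0 (1 - x) := by
        ext y
        simp only [mem_preimage, Set.mem_ofPred_eq, mem_Icc]
        constructor
        · rintro ⟨_, h2, h3⟩; exact ⟨h2, by linarith⟩
        · rintro ⟨h2, h3⟩; exact ⟨hx.1, h2, by linarith⟩
      rw [this, Real.volume_Icc, sub_zero]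
    · rw [indicator_of_notMem hx]
      have : Prod.mk x ⁻¹' {p : ℝ × ℝ | 0 ≤ p.1 ∧ 0 ≤ p.2 ∧ p.1 + p.2 ≤ 1} = ∅ := by
        ext y
        simp only [mem_preimage, Set.mem_ofPred_eq, mem_empty_iff_false, iff_false]
        rintro ⟨h1, h2, h3⟩
        exact hx ⟨h1, by linarith⟩
      rw [this, measure_empty]
  simp only [hsec]
  rw [lintegral_indicator measurableSet_Icc, ← ofReal_integral_eq_lintegral_ofReal]
  · congr 1
    rw [integral_Icc_eq_integral_Ioc, ← intervalIntegral.integral_of_le zero_le_one]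
    rw [intervalIntegral.integral_sub intervalIntegrable_const
      intervalIntegral.intervalIntegrable_id]
    simp
    norm_num
  · exact (by fun_prop : Continuous fun x : ℝ => 1 - x).integrableOn_Icc
  · refine (ae_restrict_iff' measurableSet_Icc).2 (Filter.Eventually.of_forall fun x hx => ?_)
    simp only [Pi.zero_apply]
    linarith [hx.2]

/-- triangle with apex `0` -/
def tri (p q : ℂ) : Set ℂ := {x | ∃ s t : ℝ, 0 ≤ s ∧ 0 ≤ t ∧ s + t ≤ 1 ∧ x = s * p + t * q}

lemma vol_tri (p q : ℂ) : volume (tri p q) =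
    ENNReal.ofReal (|p.re * q.im - p.im * q.re| / 2) := by
  let f : ℂ →ₗ[ℝ] ℂ := Complex.reLm.smulRight p + Complex.imLm.smulRight q
  have hf : ∀ z, f z = z.re * p + z.im * q := fun z => by simp [f]
  have himg : tri p q = f '' stdTri := by
    ext x
    simp only [tri, stdTri, mem_image, Set.mem_ofPred_eq]
    constructor
    · rintro ⟨s, t, hs, ht, hst, rfl⟩
      exact ⟨⟨s, t⟩, ⟨hs, ht, hst⟩, by rw [hf]⟩
    · rintro ⟨z, ⟨h1, h2, h3⟩, rfl⟩
      exact ⟨z.re, z.im, h1, h2, h3, hf z⟩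
  have hdet : LinearMap.det f = p.re * q.im - p.im * q.re := by
    rw [← LinearMap.det_toMatrix Complex.basisOneI, Matrix.det_fin_two]
    simp only [LinearMap.toMatrix_apply, Complex.coe_basisOneI_repr, Complex.coe_basisOneI, hf]
    simp
    ring
  rw [himg, Measure.addHaar_image_linearMap, hdet, vol_stdTri,
    ← ENNReal.ofReal_mul (abs_nonneg _)]
  congr 1
  ring

namespace StarPoly

variable (S : StarPoly)

lemma tri_eq (i : ℕ) (hi : i < S.N) : S.cone i ∩ S.U = tri (S.u i) (S.u (i + 1)) := by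
  ext x
  simp only [cone, U, tri, mem_inter_iff, Set.mem_ofPred_eq]
  constructor
  · rintro ⟨⟨s, t, hs, ht, rfl⟩, h⟩
    refine ⟨s, t, hs, ht, ?_, rfl⟩
    rw [u, u, S.hF i hi s t hs ht] at h
    exact h
  · rintro ⟨s, t, hs, ht, hst, rfl⟩
    refine ⟨⟨s, t, hs, ht, rfl⟩, ?_⟩
    rw [u, u, S.hF i hi s t hs ht]
    exact hst

lemma ray_null (w : ℂ) : volume {x : ℂ | ∃ t : ℝ, x = t * w} = 0 := by
  have h : {x : ℂ | ∃ t : ℝ, x = t * w} = (Submodule.span ℝ {w} : Submodule ℝ ℂ) := by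
    ext x
    simp only [Set.mem_ofPred_eq, SetLike.mem_coe, Submodule.mem_span_singleton,
      Complex.real_smul, eq_comm]
  rw [h]
  apply Measure.addHaar_submodule
  intro htop
  have h1 := finrank_span_le_card (R := ℝ) ({w} : Set ℂ)
  rw [htop, finrank_top, Complex.finrank_real_complex] at h1
  simp at h1

/-- The area. -/
lemma area : volume S.U = ∑ i ∈ Finset.range S.N,
    ENNReal.ofReal (|(S.u i).re * (S.u (i + 1)).im - (S.u i).im * (S.u (i + 1)).re| / 2) := by
  have hun : S.U = ⋃ i ∈ Finset.range S.N, tri (S.u i) (S.u (i + 1)) := by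
    ext x
    simp only [mem_iUnion, Finset.mem_range, exists_prop]
    constructor
    · intro hx
      obtain ⟨i, hi, hxi⟩ := S.cover x
      exact ⟨i, hi, by rw [← S.tri_eq i hi]; exact ⟨hxi, hx⟩⟩
    · rintro ⟨i, hi, hx⟩
      rw [← S.tri_eq i hi] at hx
      exact hx.2
  rw [hun, measure_biUnion_finset₀]
  · refine Finset.sum_congr rfl fun i _ => ?_
    rw [vol_tri]
  · intro i hi j hj hij
    have key : ∀ i j : ℕ, i < j → j < S.N → AEDisjoint (volume : Measure ℂ)
        (tri (S.u i) (S.u (i + 1))) (tri (S.u j) (S.u (j + 1))) := by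
      intro i j hij hj
      refine measure_mono_null (t := {x : ℂ | ∃ t : ℝ, x = t * S.u j} ∪
        {x : ℂ | ∃ t : ℝ, x = t * S.u 0}) ?_ (measure_union_null (ray_null _) (ray_null _))
      rintro x ⟨h1, h2⟩
      rw [← S.tri_eq i (by omega)] at h1
      rw [← S.tri_eq j hj] at h2
      obtain ⟨t, ht, h⟩ := S.inter_cone hij hj h1.1 h2.1
      rcases h with h | h
      · exact Or.inl ⟨t, h⟩
      · exact Or.inr ⟨t, h⟩
    rcases Nat.lt_or_gt_of_ne hij with h | h
    · exact key i j h (by simpa using hj)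
    · exact (key j i h (by simpa using hi)).symm
  · intro i _
    have hcl : IsCompact (tri (S.u i) (S.u (i + 1))) := by
      have : tri (S.u i) (S.u (i + 1)) = (fun z : ℝ × ℝ => (z.1 : ℂ) * S.u i + z.2 * S.u (i + 1)) ''
          {p : ℝ × ℝ | 0 ≤ p.1 ∧ 0 ≤ p.2 ∧ p.1 + p.2 ≤ 1} := by
        ext x
        simp only [tri, mem_image, Set.mem_ofPred_eq, Prod.exists]
        constructor
        · rintro ⟨s, t, hs, ht, hst, rfl⟩; exact ⟨s, t, ⟨hs, ht, hst⟩, rfl⟩
        · rintro ⟨s, t, ⟨hs, ht, hst⟩, rfl⟩; exact ⟨s, t, hs, ht, hst, rfl⟩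
      rw [this]
      refine IsCompact.image ?_ (by fun_prop)
      refine (isCompact_Icc.prod isCompact_Icc : IsCompact (Icc (0 : ℝ) 1 ×ˢ Icc (0 : ℝ) 1)).of_isClosed_subset
        ?_ ?_
      · exact (isClosed_le continuous_const continuous_fst).inter
          ((isClosed_le continuous_const continuous_snd).inter
          (isClosed_le (continuous_fst.add continuous_snd) continuous_const))
      · rintro ⟨x, y⟩ ⟨h1, h2, h3⟩
        simp only at h1 h2 h3
        exact ⟨⟨h1, by linarith⟩, ⟨h2, by linarith⟩⟩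
    exact hcl.measurableSet.nullMeasurableSet

end StarPoly

end Pool.Agent.X147.SP
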