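import Mathlib
import Pool.Agent.X147.StarB

set_option autoImplicit false

/-! # Regular polygons as intersections of half planes -/

open MeasureTheory Set Complex
open scoped ENNReal Real

namespace Pool.Agent.X147.SP

lemma cover_gen (a : ℕ → ℝ) (N : ℕ) (hN : 0 < N) (mono : ∀ i < N, a i < a (i + 1))
    (gap : ∀ i < N, a (i + 1) - a i < π) (aN : a N = a 0 + 2 * π) (x : ℂ) :
    ∃ i < N, ∃ s t : ℝ, 0 ≤ s ∧ 0 ≤ t ∧ x = s * cis (a i) + t * cis (a (i + 1)) := by
  by_cases hx : x = 0
  · exact ⟨0, hN, 0, 0, le_rfl, le_rfl, by simp [hx]⟩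
  have h2 : 0 < 2 * π := by positivity
  set φ := toIcoMod h2 (a 0) (Complex.arg x) with hφ
  have hmem := toIcoMod_mem_Ico h2 (a 0) (Complex.arg x)
  rw [← hφ] at hmem
  obtain ⟨i, hi, h3, h4⟩ := locate a N hmem.1 (by rw [aN]; exact hmem.2)
  obtain ⟨s, t, hs, ht, hst⟩ := cone_repr h3 h4.le (mono i hi) (gap i hi)
  have hx' : x = ‖x‖ * cis φ := by
    have : Complex.arg x = φ + toIcoDiv h2 (a 0) (Complex.arg x) * (2 * π) := by
      rw [hφ, ← zsmul_eq_mul]
      exact (toIcoMod_add_toIcoDiv_zsmul h2 (a 0) (Complex.arg x)).symm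
    conv_lhs => rw [eq_norm_cis_arg x, this, cis_int]
  refine ⟨i, hi, ‖x‖ * s, ‖x‖ * t, by positivity, by positivity, ?_⟩
  conv_lhs => rw [hx', hst]
  push_cast; ring

/-- the cosine of an odd multiple of `π / n` is at most `cos (π / n)` -/
lemma cos_odd_le (n : ℕ) (hn : 1 ≤ n) (z : ℤ) :
    Real.cos ((2 * z + 1) * π / n) ≤ Real.cos (π / n) := by
  have hn0 : (0 : ℝ) < n := by exact_mod_cast hn
  -- reduce `z` modulo `n`
  set q : ℤ := z % n with hq
  have hq0 : 0 ≤ q := Int.emod_nonneg _ (by exact_mod_cast hn0.ne')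
  have hq1 : q < n := Int.emod_lt_of_pos _ (by exact_mod_cast hn0)
  have hz : z = n * (z / n) + q := (Int.mul_ediv_add_emod z n).symm
  have e1 : Real.cos ((2 * z + 1) * π / n) = Real.cos ((2 * q + 1) * π / n) := by
    have : (2 * (z : ℝ) + 1) * π / n = (2 * q + 1) * π / n + ((z / n : ℤ) : ℝ) * (2 * π) := by
      have hz' : (z : ℝ) = n * ((z / n : ℤ) : ℝ) + q := by exact_mod_cast hz
      rw [hz']
      field_simp
      ring
    rw [this, Real.cos_add_int_mul_two_pi]
  rw [e1]
  have hq0' : (0 : ℝ) ≤ q := by exact_mod_cast hq0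
  have hq1' : (q : ℝ) + 1 ≤ n := by exact_mod_cast hq1
  have hpi := Real.pi_pos
  -- angle in `[π/n, 2π - π/n]`
  by_cases hle : (2 * (q : ℝ) + 1) * π / n ≤ π
  · apply Real.cos_le_cos_of_nonneg_of_le_pi (by positivity) hle
    apply div_le_div_of_nonneg_right _ hn0.le
    nlinarith
  · push Not at hle
    have e2 : Real.cos ((2 * q + 1) * π / n) = Real.cos (2 * π - (2 * q + 1) * π / n) := by
      rw [Real.cos_two_pi_sub]
    rw [e2]
    apply Real.cos_le_cos_of_nonneg_of_le_pi (by positivity) (by linarith)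
    rw [div_le_iff₀ hn0, sub_mul, div_mul_cancel₀ _ hn0.ne']
    nlinarith

/-- The vertices of the regular `n`-gon centred at `0` with a vertex `z`. -/
def verts (n : ℕ) (z : ℂ) : Set ℂ := {v | ∃ j : ℕ, v = z * Complex.exp (2 * π * I * j / n)}

lemma exp_cis (n j : ℕ) : Complex.exp (2 * π * I * j / n) = cis (2 * π * j / n) := by
  simp only [cis]; push_cast; congr 1; ring

lemma zero_mem_hull (n : ℕ) (hn : 2 ≤ n) (z : ℂ) : (0 : ℂ) ∈ convexHull ℝ (verts n z) := by
  have hsum : ∑ j ∈ Finset.range n, Complex.exp (2 * π * I * j / n) = 0 := by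
    have hprim := Complex.isPrimitiveRoot_exp n (by omega)
    have := hprim.geom_sum_eq_zero (by omega)
    rw [← this]
    refine Finset.sum_congr rfl fun j _ => ?_
    rw [← Complex.exp_nat_mul]
    congr 1; ring
  have hmem := (Finset.range n).centerMass_mem_convexHull (R := ℝ) (w := fun _ => (1 : ℝ))
    (z := fun j => z * Complex.exp (2 * π * I * j / n)) (s := verts n z)
    (fun _ _ => zero_le_one) (by simp; omega) (fun j _ => ⟨j, rfl⟩)
  convert hmem
  rw [Finset.centerMass]
  simp only [one_smul, ← Finset.mul_sum, hsum, mul_zero, smul_zero]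

/-- Description of a regular polygon by inequalities. -/
lemma hull_eq (n : ℕ) (hn : 3 ≤ n) {R : ℝ} (hR : 0 < R) (α : ℝ) :
    convexHull ℝ (verts n (R * cis α)) =
      {x | ∀ j : ℕ, (x * cis (-(α + π / n + 2 * π * j / n))).re ≤ R * Real.cos (π / n)} := by
  have hn0 : (0 : ℝ) < n := by exact_mod_cast (by omega : 0 < n)
  have hn3 : (3 : ℝ) ≤ n := by exact_mod_cast hn
  have hpi := Real.pi_pos
  have hcos : 0 < Real.cos (π / n) := by
    apply Real.cos_pos_of_mem_Ioo
    constructor
    · have : 0 < π / n := by positivity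
      linarith
    · rw [div_lt_div_iff₀ hn0 (by norm_num)]; nlinarith
  apply Subset.antisymm
  · apply convexHull_min
    · rintro v ⟨i, rfl⟩ j
      rw [exp_cis]
      have e : (R * cis α * cis (2 * π * i / n) * cis (-(α + π / n + 2 * π * j / n))).re =
          R * Real.cos ((2 * ((i : ℤ) - (j : ℤ) - 1 : ℤ) + 1) * π / n) := by
        rw [mul_assoc, mul_assoc, ← cis_add, ← cis_add, Complex.re_ofReal_mul, cis_re]
        congr 2
        push_cast
        field_simp
        ring
      rw [e]
      exact mul_le_mul_of_nonneg_left (cos_odd_le n (by omega) _) hR.le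
    · have : {x : ℂ | ∀ j : ℕ, (x * cis (-(α + π / n + 2 * π * j / n))).re ≤ R * Real.cos (π / n)} =
          ⋂ j : ℕ, {x : ℂ | (x * cis (-(α + π / n + 2 * π * j / n))).re ≤ R * Real.cos (π / n)} := by
        ext x; simp
      rw [this]
      refine convex_iInter fun j => ?_
      refine convex_halfSpace_le ?_ _
      constructor
      · intro x y; simp [add_mul]
      · intro c x
        simp only [Complex.real_smul, smul_eq_mul]
        rw [mul_assoc, Complex.re_ofReal_mul]
  · intro x hx
    obtain ⟨i, hi, s, t, hs, ht, hst⟩ := cover_gen (fun i => α + 2 * π * i / n) n (by omega)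
      (fun i _ => by
        have : 2 * π * (i : ℝ) / n < 2 * π * ((i + 1 : ℕ) : ℝ) / n := by
          apply div_lt_div_of_pos_right _ hn0
          push_cast; nlinarith
        linarith)
      (fun i _ => by
        have : α + 2 * π * ((i + 1 : ℕ) : ℝ) / n - (α + 2 * π * (i : ℝ) / n) = 2 * π / n := by
          push_cast; field_simp; ring
        rw [this, div_lt_iff₀ hn0]; nlinarith)
      (by simp; field_simp) x
    have hx1 := hx i
    have e : (x * cis (-(α + π / n + 2 * π * i / n))).re = (s + t) * Real.cos (π / n) := by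
      rw [hst, add_mul, Complex.add_re, mul_assoc (s : ℂ), mul_assoc (t : ℂ), ← cis_add, ← cis_add,
        Complex.re_ofReal_mul, Complex.re_ofReal_mul, cis_re, cis_re]
      rw [show α + 2 * π * (i : ℝ) / n + -(α + π / n + 2 * π * i / n) = -(π / n) by ring,
        show α + 2 * π * ((i + 1 : ℕ) : ℝ) / n + -(α + π / n + 2 * π * i / n) = π / n by
          push_cast; field_simp; ring, Real.cos_neg]
      ring
    rw [e] at hx1
    have hst1 : s + t ≤ R := le_of_mul_le_mul_right hx1 hcos
    have hv1 : R * cis α * Complex.exp (2 * π * I * i / n) ∈ convexHull ℝ (verts n (R * cis α)) :=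
      subset_convexHull ℝ _ ⟨i, rfl⟩
    have hv2 : R * cis α * Complex.exp (2 * π * I * ((i + 1 : ℕ) : ℂ) / n) ∈
        convexHull ℝ (verts n (R * cis α)) := subset_convexHull ℝ _ ⟨i + 1, rfl⟩
    have hv0 := zero_mem_hull n (by omega) (R * cis α)
    have hconv := convex_convexHull ℝ (verts n (R * cis α))
    have h3 : x = (s / R) • (R * cis α * Complex.exp (2 * π * I * i / n)) +
        (t / R) • (R * cis α * Complex.exp (2 * π * I * ((i + 1 : ℕ) : ℂ) / n)) +
        (1 - s / R - t / R) • (0 : ℂ) := by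
      have hR' : (R : ℂ) ≠ 0 := by exact_mod_cast hR.ne'
      rw [exp_cis, exp_cis, smul_zero, add_zero, mul_assoc (R : ℂ), mul_assoc (R : ℂ), ← cis_add,
        ← cis_add]
      simp only [Complex.real_smul]
      rw [hst, Complex.ofReal_div, Complex.ofReal_div, ← mul_assoc, ← mul_assoc, div_mul_cancel₀ _ hR',
        div_mul_cancel₀ _ hR']
    rw [h3]
    have k1 : 0 ≤ s / R := by positivity
    have k2 : 0 ≤ t / R := by positivity
    have k3 : 0 ≤ 1 - s / R - t / R := by
      have : (s + t) / R ≤ 1 := (div_le_one hR).2 hst1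
      rw [add_div] at this
      linarith
    have := hconv.sum_mem (t := (Finset.univ : Finset (Fin 3)))
      (w := ![s / R, t / R, 1 - s / R - t / R])
      (z := ![R * cis α * Complex.exp (2 * π * I * i / n),
        R * cis α * Complex.exp (2 * π * I * ((i + 1 : ℕ) : ℂ) / n), 0])
      (fun j _ => by fin_cases j; exacts [k1, k2, k3])
      (by rw [Fin.sum_univ_three]; simp)
      (fun j _ => by fin_cases j; exacts [hv1, hv2, hv0])
    rw [Fin.sum_univ_three] at this
    exact this

end Pool.Agent.X147.SP
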