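import Mathlib
import Pool.Agent.X147.StarC

set_option autoImplicit false

/-! # The lines of a shifted setup -/

open MeasureTheory Set Complex
open scoped ENNReal Real

namespace Pool.Agent.X147.SP

/-- Parameters: `k` polygons with `n` sides; `p` is an inverse of `-k` modulo `n`; `β` is the
direction of the normal of line `0`; `R` the circumradius. -/
structure Par where
  k : ℕ
  n : ℕ
  p : ℤ
  β : ℝ
  R : ℝ
  hk : 2 ≤ k
  hn : 3 ≤ n
  hp : ∃ z : ℤ, (k : ℤ) * p + 1 = n * z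
  hR : 0 < R

namespace Par

variable (P : Par)

/-- angle between consecutive normals -/
noncomputable def δ : ℝ := 2 * π / (P.k * P.n)

/-- cosine of the half angle -/
noncomputable def C : ℝ := Real.cos (π / P.n)

/-- normal directions -/
noncomputable def th (m : ℤ) : ℝ := P.β + m * P.δ

/-- first order change of the support numbers -/
noncomputable def g (m : ℤ) : ℝ := Real.cos ((2 * P.p * m - 1) * (π / P.n))

/-- support numbers -/
noncomputable def h (ε : ℝ) (m : ℤ) : ℝ := P.R * (P.C + ε * P.g m)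

/-- gauge of line `m` -/
noncomputable def G (ε : ℝ) (m : ℤ) (x : ℂ) : ℝ := (x * cis (-(P.th m))).re / P.h ε m

lemma k0 : (0 : ℝ) < P.k := by have := P.hk; exact_mod_cast (by omega : 0 < P.k)
lemma n0 : (0 : ℝ) < P.n := by have := P.hn; exact_mod_cast (by omega : 0 < P.n)
lemma k2 : (2 : ℝ) ≤ P.k := by exact_mod_cast P.hk
lemma n3 : (3 : ℝ) ≤ P.n := by exact_mod_cast P.hn
lemma δ0 : 0 < P.δ := by have := P.k0; have := P.n0; have := Real.pi_pos; unfold δ; positivity

lemma kδ : P.k * P.δ = 2 * π / P.n := by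
  have := P.k0; have := P.n0; unfold δ; field_simp

lemma knδ : P.k * P.n * P.δ = 2 * π := by
  have := P.k0; have := P.n0; unfold δ; field_simp

lemma C0 : 0 < P.C := by
  have h1 := P.n0; have h3 := P.n3; have hpi := Real.pi_pos
  unfold C
  apply Real.cos_pos_of_mem_Ioo
  constructor
  · have : 0 < π / P.n := by positivity
    linarith
  · rw [div_lt_div_iff₀ h1 (by norm_num)]; nlinarith

lemma g_abs (m : ℤ) : |P.g m| ≤ 1 := Real.abs_cos_le_one _

lemma g_period (m z : ℤ) : P.g (m + P.n * z) = P.g m := by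
  unfold g
  have h1 := P.n0
  have : (2 * (P.p : ℝ) * ((m + P.n * z : ℤ) : ℝ) - 1) * (π / P.n) =
      (2 * P.p * m - 1) * (π / P.n) + ((P.p * z : ℤ) : ℝ) * (2 * π) := by
    push_cast; field_simp; ring
  rw [this, Real.cos_add_int_mul_two_pi]

lemma h_period (ε : ℝ) (m z : ℤ) : P.h ε (m + P.n * z) = P.h ε m := by
  unfold h; rw [P.g_period]

lemma cis_th_period (m z : ℤ) : cis (-(P.th (m + P.k * P.n * z))) = cis (-(P.th m)) := by
  have : -(P.th (m + P.k * P.n * z)) = -(P.th m) + ((-z : ℤ) : ℝ) * (2 * π) := by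
    unfold th
    have := P.knδ
    push_cast
    linear_combination (-z : ℝ) * this
  rw [this, cis_int]

lemma G_period (ε : ℝ) (m z : ℤ) (x : ℂ) : P.G ε (m + P.k * P.n * z) x = P.G ε m x := by
  unfold G
  rw [P.cis_th_period]
  congr 1
  rw [show m + P.k * P.n * z = m + P.n * (P.k * z) by ring, P.h_period]

lemma h_pos {ε : ℝ} (hε : |ε| < P.C) (m : ℤ) : 0 < P.h ε m := by
  unfold h
  apply mul_pos P.hR
  have h1 := P.g_abs m
  have h2 : |ε * P.g m| ≤ |ε| := by
    rw [abs_mul]; nlinarith [abs_nonneg ε]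
  have := neg_abs_le (ε * P.g m)
  linarith

lemma G_lin (ε : ℝ) (m : ℤ) (s t : ℝ) (x y : ℂ) :
    P.G ε m (s * x + t * y) = s * P.G ε m x + t * P.G ε m y := by
  unfold G
  rw [add_mul, mul_assoc, mul_assoc, Complex.add_re, Complex.re_ofReal_mul, Complex.re_ofReal_mul]
  ring

lemma G_cont (ε : ℝ) (m : ℤ) : Continuous (P.G ε m) := by
  unfold G
  refine Continuous.div_const ?_ _
  exact Complex.continuous_re.comp (by fun_prop)

lemma nonempty_n : (Finset.range P.n).Nonempty := by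
  have := P.hn; exact ⟨0, by simp; omega⟩

lemma nonempty_k : (Finset.range P.k).Nonempty := by
  have := P.hk; exact ⟨0, by simp; omega⟩

/-- gauge of the polygon of residue class `c` -/
noncomputable def M (ε : ℝ) (c : ℤ) (x : ℂ) : ℝ :=
  (Finset.range P.n).sup' P.nonempty_n (fun j => P.G ε (c + P.k * j) x)

/-- gauge of the union -/
noncomputable def F (ε : ℝ) (x : ℂ) : ℝ :=
  (Finset.range P.k).inf' P.nonempty_k (fun c => P.M ε c x)

lemma F_cont (ε : ℝ) : Continuous (P.F ε) := by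
  unfold F M
  refine Continuous.finset_inf'_apply P.nonempty_k fun c _ => ?_
  refine Continuous.finset_sup'_apply P.nonempty_n fun j _ => ?_
  exact P.G_cont ε _

lemma G_le_M (ε : ℝ) (c q : ℤ) (x : ℂ) : P.G ε (c + P.k * q) x ≤ P.M ε c x := by
  have hn := P.hn
  have hn' : (0 : ℤ) < P.n := by omega
  set j : ℕ := (q % P.n).toNat with hj
  have h0 : 0 ≤ q % P.n := Int.emod_nonneg _ hn'.ne'
  have h1 : q % P.n < P.n := Int.emod_lt_of_pos _ hn'
  have hj' : (j : ℤ) = q % P.n := by rw [hj, Int.toNat_of_nonneg h0]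
  have hjn : j < P.n := by omega
  have hq : q = P.n * (q / P.n) + j := by rw [hj']; exact (Int.mul_ediv_add_emod q P.n).symm
  have e : P.G ε (c + P.k * q) x = P.G ε (c + P.k * j) x := by
    rw [show c + P.k * q = (c + P.k * j) + P.k * P.n * (q / P.n) by
      conv_lhs => rw [hq]
      ring, P.G_period]
  rw [e]
  exact Finset.le_sup' (fun j : ℕ => P.G ε (c + P.k * j) x) (Finset.mem_range.2 hjn)

lemma M_le {ε : ℝ} {c : ℤ} {x : ℂ} {b : ℝ} (h : ∀ q : ℤ, P.G ε (c + P.k * q) x ≤ b) :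
    P.M ε c x ≤ b :=
  Finset.sup'_le _ _ fun j _ => h j

lemma M_period (ε : ℝ) (c z : ℤ) (x : ℂ) : P.M ε (c + P.k * z) x = P.M ε c x := by
  apply le_antisymm
  · apply P.M_le
    intro q
    rw [show c + P.k * z + P.k * q = c + P.k * (z + q) by ring]
    exact P.G_le_M _ _ _ _
  · apply P.M_le
    intro q
    rw [show c + P.k * q = c + P.k * z + P.k * (q - z) by ring]
    exact P.G_le_M _ _ _ _

lemma F_le (ε : ℝ) (c : ℤ) (x : ℂ) : P.F ε x ≤ P.M ε c x := by
  have hk := P.hk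
  have hk' : (0 : ℤ) < P.k := by omega
  set j : ℕ := (c % P.k).toNat with hj
  have h0 : 0 ≤ c % P.k := Int.emod_nonneg _ hk'.ne'
  have h1 : c % P.k < P.k := Int.emod_lt_of_pos _ hk'
  have hj' : (j : ℤ) = c % P.k := by rw [hj, Int.toNat_of_nonneg h0]
  have hjn : j < P.k := by omega
  have hq : c = j + P.k * (c / P.k) := by rw [hj']; exact (Int.emod_add_mul_ediv c P.k).symm
  have e : P.M ε c x = P.M ε j x := by
    conv_lhs => rw [hq]
    rw [P.M_period]
  rw [e]
  exact Finset.inf'_le (fun c : ℕ => P.M ε c x) (Finset.mem_range.2 hjn)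

lemma le_F {ε : ℝ} {x : ℂ} {b : ℝ} (h : ∀ c : ℤ, b ≤ P.M ε c x) : b ≤ P.F ε x :=
  Finset.le_inf' _ _ fun c _ => h c

lemma F_le_one_iff (ε : ℝ) (x : ℂ) :
    P.F ε x ≤ 1 ↔ ∃ c : ℤ, ∀ q : ℤ, P.G ε (c + P.k * q) x ≤ 1 := by
  constructor
  · intro h
    obtain ⟨c, -, hc⟩ := (Finset.inf'_le_iff _).1 h
    exact ⟨c, fun q => (P.G_le_M _ _ _ _).trans hc⟩
  · rintro ⟨c, hc⟩
    exact (P.F_le ε c x).trans (P.M_le hc)

/-! ### intersection points -/

/-- the intersection of lines `j` and `j + a` -/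
noncomputable def X (ε : ℝ) (j a : ℤ) : ℂ :=
  I * (P.h ε (j + a) * cis (P.th j) - P.h ε j * cis (P.th (j + a))) / Real.sin (a * P.δ)

lemma X_re (ε : ℝ) (j a i : ℤ) : (P.X ε j a * cis (-(P.th i))).re =
    (P.h ε j * Real.sin ((j + a - i) * P.δ) + P.h ε (j + a) * Real.sin ((i - j) * P.δ)) /
      Real.sin (a * P.δ) := by
  unfold X
  have e : I * (P.h ε (j + a) * cis (P.th j) - P.h ε j * cis (P.th (j + a))) / Real.sin (a * P.δ) *
      cis (-(P.th i)) = ((1 / Real.sin (a * P.δ) : ℝ) : ℂ) *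
      (P.h ε (j + a) * (I * cis ((j - i) * P.δ)) - P.h ε j * (I * cis ((j + a - i) * P.δ))) := by
    have e1 : cis ((j - i) * P.δ) = cis (P.th j) * cis (-(P.th i)) := by
      rw [← cis_add]; congr 1; unfold th; ring
    have e2 : cis ((j + a - i) * P.δ) = cis (P.th (j + a)) * cis (-(P.th i)) := by
      rw [← cis_add]; congr 1; unfold th; push_cast; ring
    rw [e1, e2]
    push_cast
    ring
  rw [e, Complex.re_ofReal_mul, Complex.sub_re, Complex.re_ofReal_mul, Complex.re_ofReal_mul]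
  simp only [Complex.mul_re, Complex.I_re, Complex.I_im, cis_re, cis_im, zero_mul, one_mul, zero_sub]
  have e3 : Real.sin ((j - i) * P.δ) = - Real.sin ((i - j) * P.δ) := by
    rw [← Real.sin_neg]; congr 1; ring
  rw [e3]
  ring

/-- the sign function deciding whether `X j a` lies beyond line `i` -/
noncomputable def Φ (ε : ℝ) (j a i : ℤ) : ℝ :=
  P.h ε j * Real.sin ((j + a - i) * P.δ) + P.h ε (j + a) * Real.sin ((i - j) * P.δ) -
    P.h ε i * Real.sin (a * P.δ)

lemma sin_pos {a : ℤ} (h0 : 0 < a) (h1 : a ≤ P.k) : 0 < Real.sin (a * P.δ) := by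
  have h2 : (0 : ℝ) < a := by exact_mod_cast h0
  have h3 : (a : ℝ) ≤ P.k := by exact_mod_cast h1
  have h4 := P.δ0
  apply Real.sin_pos_of_pos_of_lt_pi (by positivity)
  have h5 : (a : ℝ) * P.δ ≤ P.k * P.δ := mul_le_mul_of_nonneg_right h3 h4.le
  rw [P.kδ] at h5
  have h6 : 2 * π / P.n < π := by
    rw [div_lt_iff₀ P.n0]; nlinarith [P.n3, Real.pi_pos]
  linarith

lemma one_le_G {ε : ℝ} (hε : |ε| < P.C) {j a i : ℤ} (h0 : 0 < a) (h1 : a ≤ P.k)
    (h : 0 ≤ P.Φ ε j a i) : 1 ≤ P.G ε i (P.X ε j a) := by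
  unfold G
  rw [P.X_re, le_div_iff₀ (P.h_pos hε i), one_mul, le_div_iff₀ (P.sin_pos h0 h1)]
  unfold Φ at h
  linarith

lemma G_le_one {ε : ℝ} (hε : |ε| < P.C) {j a i : ℤ} (h0 : 0 < a) (h1 : a ≤ P.k)
    (h : P.Φ ε j a i ≤ 0) : P.G ε i (P.X ε j a) ≤ 1 := by
  unfold G
  rw [P.X_re, div_le_iff₀ (P.h_pos hε i), one_mul, div_le_iff₀ (P.sin_pos h0 h1)]
  unfold Φ at h
  linarith

lemma Φ_left (ε : ℝ) (j a : ℤ) : P.Φ ε j a j = 0 := by
  unfold Φ
  rw [show ((j : ℝ) + a - j) = a by ring, sub_self, zero_mul, Real.sin_zero]; ring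

lemma Φ_right (ε : ℝ) (j a : ℤ) : P.Φ ε j a (j + a) = 0 := by
  unfold Φ
  push_cast
  rw [show ((j : ℝ) + a - (j + a)) = 0 by ring, show ((j : ℝ) + a - j) = a by ring, zero_mul,
    Real.sin_zero]; ring

lemma Φ_period (ε : ℝ) (j a i z : ℤ) : P.Φ ε j a (i + P.k * P.n * z) = P.Φ ε j a i := by
  unfold Φ
  have h1 := P.knδ
  have e0 : P.h ε (i + P.k * P.n * z) = P.h ε i := by
    rw [show i + P.k * P.n * z = i + P.n * (P.k * z) by ring, P.h_period]
  have e1 : Real.sin ((j + a - ((i + P.k * P.n * z : ℤ) : ℝ)) * P.δ) =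
      Real.sin ((j + a - i) * P.δ) := by
    have : (j + a - ((i + P.k * P.n * z : ℤ) : ℝ)) * P.δ = (j + a - i) * P.δ +
        ((-z : ℤ) : ℝ) * (2 * π) := by
      push_cast; linear_combination (-z : ℝ) * h1
    rw [this, Real.sin_add_int_mul_two_pi]
  have e2 : Real.sin ((((i + P.k * P.n * z : ℤ) : ℝ) - j) * P.δ) =
      Real.sin ((i - j) * P.δ) := by
    have : (((i + P.k * P.n * z : ℤ) : ℝ) - j) * P.δ = (i - j) * P.δ +
        ((z : ℤ) : ℝ) * (2 * π) := by
      push_cast; linear_combination (z : ℝ) * h1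
    rw [this, Real.sin_add_int_mul_two_pi]
  rw [e0, e1, e2]

lemma h_zero (m : ℤ) : P.h 0 m = P.R * P.C := by unfold h; ring

/-- value at `ε = 0` -/
lemma Φ_zero (j a i : ℤ) : P.Φ 0 j a i = 2 * P.R * P.C * Real.sin (a * P.δ / 2) *
    (Real.cos ((i - j - a / 2) * P.δ) - Real.cos (a * P.δ / 2)) := by
  unfold Φ
  rw [P.h_zero, P.h_zero, P.h_zero]
  set y := (a : ℝ) * P.δ / 2 with hy
  set x := ((i : ℝ) - j - a / 2) * P.δ with hx
  have e1 : ((j : ℝ) + a - i) * P.δ = y - x := by rw [hx, hy]; ring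
  have e2 : ((i : ℝ) - j) * P.δ = y + x := by rw [hx, hy]; ring
  have e3 : (a : ℝ) * P.δ = 2 * y := by rw [hy]; ring
  rw [e1, e2, e3, Real.sin_sub, Real.sin_add, Real.sin_two_mul]
  ring

/-- for the vertices of the polygons the sign is always right -/
lemma Φ_vertex (ε : ℝ) (m q : ℤ) : P.Φ ε m P.k (m + P.k * q) ≤ 0 := by
  obtain ⟨z, hz⟩ := P.hp
  have hn0 := P.n0
  have hpi := Real.pi_pos
  set ω : ℝ := 2 * π / P.n with hω
  set φ : ℝ := (2 * P.p * m - 1) * (π / P.n) with hφ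
  have hkp : (P.k : ℝ) * P.p + 1 = P.n * z := by exact_mod_cast hz
  have g0 : P.g m = Real.cos φ := rfl
  have gq : ∀ q : ℤ, P.g (m + P.k * q) = Real.cos (φ - q * ω) := by
    intro q
    unfold g
    have : (2 * (P.p : ℝ) * ((m + P.k * q : ℤ) : ℝ) - 1) * (π / P.n) =
        φ - q * ω + ((q * z : ℤ) : ℝ) * (2 * π) := by
      rw [hφ, hω]
      push_cast
      field_simp
      linear_combination (2 * (q : ℝ)) * hkp
    rw [this, Real.cos_add_int_mul_two_pi]
  have g1 : P.g (m + P.k) = Real.cos (φ - ω) := by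
    have := gq 1; simpa using this
  have kω : ((P.k : ℤ) : ℝ) * P.δ = ω := by rw [hω, ← P.kδ]; simp
  unfold Φ h
  rw [g0, g1, gq q]
  have e1 : ((m : ℝ) + ((P.k : ℤ) : ℝ) - ((m + P.k * q : ℤ) : ℝ)) * P.δ = ω - q * ω := by
    push_cast; push_cast at kω; linear_combination (1 - (q : ℝ)) * kω
  have e2 : (((m + P.k * q : ℤ) : ℝ) - m) * P.δ = q * ω := by
    push_cast; push_cast at kω; linear_combination ((q : ℝ)) * kω
  rw [e1, e2, kω]
  have id1 : Real.cos φ * Real.sin (ω - q * ω) + Real.cos (φ - ω) * Real.sin (q * ω) =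
      Real.cos (φ - q * ω) * Real.sin ω := by
    simp only [Real.sin_sub, Real.cos_sub]
    ring
  have id2 : Real.sin (ω - q * ω) + Real.sin (q * ω) ≤ Real.sin ω := by
    set y := ω / 2 with hy
    have h1 : Real.sin (ω - q * ω) + Real.sin (q * ω) = 2 * Real.sin y * Real.cos ((2 * q - 1) * y) := by
      rw [show ω - q * ω = y - (2 * q - 1) * y by rw [hy]; ring,
        show q * ω = y + (2 * q - 1) * y by rw [hy]; ring, Real.sin_sub, Real.sin_add]
      ring
    have h2 : Real.sin ω = 2 * Real.sin y * Real.cos y := by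
      rw [show ω = 2 * y by rw [hy]; ring, Real.sin_two_mul]
    have hypi : y = π / P.n := by rw [hy, hω]; ring
    have h3 : 0 ≤ Real.sin y := by
      rw [hypi]
      apply Real.sin_nonneg_of_nonneg_of_le_pi (by positivity)
      rw [div_le_iff₀ hn0]; nlinarith [P.n3]
    have h4 : Real.cos ((2 * q - 1) * y) ≤ Real.cos y := by
      have hn := P.hn
      have := cos_odd_le P.n (by omega) (q - 1)
      rw [hypi]
      convert this using 2
      push_cast; ring
    rw [h1, h2]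
    exact mul_le_mul_of_nonneg_left h4 (by positivity)
  have hC := P.C0
  have hR := P.hR
  have key : P.R * (P.C + ε * Real.cos φ) * Real.sin (ω - q * ω) +
      P.R * (P.C + ε * Real.cos (φ - ω)) * Real.sin (q * ω) -
      P.R * (P.C + ε * Real.cos (φ - q * ω)) * Real.sin ω =
      P.R * P.C * (Real.sin (ω - q * ω) + Real.sin (q * ω) - Real.sin ω) := by
    linear_combination (P.R * ε) * id1
  rw [key]
  have : 0 < P.R * P.C := mul_pos hR hC
  nlinarith

end Par

end Pool.Agent.X147.SP
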