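import Mathlib
import Pool.Agent.X147.SetA

set_option autoImplicit false

/-! # The union of a shifted setup is a star-shaped polygon -/

open MeasureTheory Set Complex Filter Topology
open scoped ENNReal Real

namespace Pool.Agent.X147.SP

namespace Par

variable (P : Par)

/-- vertices of the polygons -/
noncomputable def V (ε : ℝ) (m : ℤ) : ℂ := P.X ε m P.k

/-- reflex vertices of the union -/
noncomputable def W (ε : ℝ) (m : ℤ) : ℂ := P.X ε (m + 1) (P.k - 1)

/-- all boundary vertices in order -/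
noncomputable def uu (ε : ℝ) (i : ℕ) : ℂ :=
  if i % 2 = 0 then P.V ε ((i / 2 : ℕ) : ℤ) else P.W ε ((i / 2 : ℕ) : ℤ)

/-- unperturbed angles -/
noncomputable def bb (i : ℕ) : ℝ := P.β + P.k * P.δ / 2 + i * (P.δ / 2)

lemma X_cont (j a : ℤ) : Continuous fun ε => P.X ε j a := by
  unfold X h
  fun_prop

lemma uu_cont (i : ℕ) : Continuous fun ε => P.uu ε i := by
  unfold uu V W
  split_ifs
  · exact P.X_cont _ _
  · exact P.X_cont _ _

lemma X_zero {j a : ℤ} (h0 : 0 < a) (h1 : a ≤ P.k) :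
    P.X 0 j a = (P.R * P.C / Real.cos (a * P.δ / 2) : ℝ) * cis (P.th j + a * P.δ / 2) := by
  unfold X
  rw [P.h_zero, P.h_zero]
  set y : ℝ := a * P.δ / 2 with hy
  have hs := P.sin_pos h0 h1
  have h2 : (a : ℝ) * P.δ = 2 * y := by rw [hy]; ring
  rw [h2, Real.sin_two_mul] at hs ⊢
  have hsin : Real.sin y ≠ 0 := fun h => by rw [h] at hs; simp at hs
  have hcos : Real.cos y ≠ 0 := fun h => by rw [h] at hs; simp at hs
  have e1 : P.th (j + a) = P.th j + y + y := by unfold th; rw [hy]; push_cast; ring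
  have e2 : cis (P.th j) = cis (P.th j + y) * cis (-y) := by rw [← cis_add]; congr 1; ring
  rw [e1, cis_add (P.th j + y) y]
  conv_lhs => rw [e2]
  have e3 : I * (cis (-y) - cis y) = (2 * Real.sin y : ℝ) := by
    apply Complex.ext
    · simp only [Complex.mul_re, Complex.I_re, Complex.I_im, Complex.sub_re, Complex.sub_im, cis_re,
        cis_im, Real.sin_neg, Complex.ofReal_re]; ring
    · simp only [Complex.mul_im, Complex.I_re, Complex.I_im, Complex.sub_re, Complex.sub_im, cis_re,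
        cis_im, Real.cos_neg, Complex.ofReal_im]; ring
  have e4 : I * (((P.R * P.C : ℝ) : ℂ) * (cis (P.th j + y) * cis (-y)) -
      ((P.R * P.C : ℝ) : ℂ) * (cis (P.th j + y) * cis y)) =
      ((P.R * P.C : ℝ) : ℂ) * cis (P.th j + y) * (I * (cis (-y) - cis y)) := by ring
  rw [e4, e3]
  have hsin' : (Real.sin y : ℂ) ≠ 0 := by exact_mod_cast hsin
  have hcos' : (Real.cos y : ℂ) ≠ 0 := by exact_mod_cast hcos
  push_cast
  have hsin'' : Complex.sin y ≠ 0 := by simpa using hsin'
  have hcos'' : Complex.cos y ≠ 0 := by simpa using hcos'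
  field_simp

lemma cos_pos' {a : ℤ} (h0 : 0 < a) (h1 : a ≤ P.k) : 0 < Real.cos (a * P.δ / 2) := by
  have h2 : (0 : ℝ) < a := by exact_mod_cast h0
  have h3 : (a : ℝ) ≤ P.k := by exact_mod_cast h1
  have h4 := P.δ0
  have h5 : (a : ℝ) * P.δ ≤ P.k * P.δ := mul_le_mul_of_nonneg_right h3 h4.le
  rw [P.kδ] at h5
  have h6 : 2 * π / P.n < π := by
    rw [div_lt_iff₀ P.n0]; nlinarith [P.n3, Real.pi_pos]
  apply Real.cos_pos_of_mem_Ioo
  constructor
  · have : 0 < (a : ℝ) * P.δ := by positivity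
    linarith [Real.pi_pos]
  · linarith

lemma uu_zero (i : ℕ) : ∃ ρ : ℝ, 0 < ρ ∧ P.uu 0 i * cis (-(P.bb i)) = ρ := by
  have hk := P.hk
  have hRC : 0 < P.R * P.C := mul_pos P.hR P.C0
  unfold uu V W
  split_ifs with hi
  · rw [P.X_zero (by omega) (by omega)]
    refine ⟨_, div_pos hRC (P.cos_pos' (a := P.k) (by omega) (by omega)), ?_⟩
    rw [mul_assoc, ← cis_add]
    have : (i : ℝ) = 2 * ((i / 2 : ℕ) : ℝ) := by
      have : i = 2 * (i / 2) := by omega
      exact_mod_cast this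
    have e : P.th ((i / 2 : ℕ) : ℤ) + ((P.k : ℤ) : ℝ) * P.δ / 2 + -(P.bb i) = 0 := by
      unfold th bb
      rw [this]
      simp only [Int.cast_natCast, Int.cast_add, Int.cast_one, Int.cast_sub]
      ring
    rw [e, cis_zero, mul_one]
  · rw [P.X_zero (by omega) (by omega)]
    refine ⟨_, div_pos hRC (P.cos_pos' (a := P.k - 1) (by omega) (by omega)), ?_⟩
    rw [mul_assoc, ← cis_add]
    have : (i : ℝ) = 2 * ((i / 2 : ℕ) : ℝ) + 1 := by
      have : i = 2 * (i / 2) + 1 := by omega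
      exact_mod_cast this
    have e : P.th (((i / 2 : ℕ) : ℤ) + 1) + ((P.k - 1 : ℤ) : ℝ) * P.δ / 2 + -(P.bb i) = 0 := by
      unfold th bb
      rw [this]
      simp only [Int.cast_natCast, Int.cast_add, Int.cast_one, Int.cast_sub]
      ring
    rw [e, cis_zero, mul_one]

/-- The strict sign conditions that hold for small `ε`. -/
structure Good (ε : ℝ) : Prop where
  h0 : |ε| < P.C
  p1 : ∀ m q : ℤ, 0 < q → q < P.k → 0 ≤ P.Φ ε m P.k (m + q)
  p2 : ∀ m q : ℤ, 1 < q → q < P.k → 0 ≤ P.Φ ε (m + 1) (P.k - 1) (m + q)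
  p3 : ∀ m q : ℤ, P.k < q → q ≤ P.k * P.n → P.Φ ε (m + 1) (P.k - 1) (m + q) ≤ 0
  p4 : ∀ i : ℕ, |Complex.arg (P.uu ε i * cis (-(P.bb i)))| < P.δ / 8

lemma Φ_cont (j a i : ℤ) : Continuous fun ε => P.Φ ε j a i := by
  unfold Φ h; fun_prop

lemma Φ_period' (ε : ℝ) (m a b c z : ℤ) :
    P.Φ ε (m + P.k * P.n * z + b) a (m + P.k * P.n * z + c) = P.Φ ε (m + b) a (m + c) := by
  unfold Φ
  have e1 : P.h ε (m + P.k * P.n * z + b) = P.h ε (m + b) := by
    rw [show m + P.k * P.n * z + b = (m + b) + P.n * (P.k * z) by ring, P.h_period]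
  have e2 : P.h ε (m + P.k * P.n * z + b + a) = P.h ε (m + b + a) := by
    rw [show m + P.k * P.n * z + b + a = (m + b + a) + P.n * (P.k * z) by ring, P.h_period]
  have e3 : P.h ε (m + P.k * P.n * z + c) = P.h ε (m + c) := by
    rw [show m + P.k * P.n * z + c = (m + c) + P.n * (P.k * z) by ring, P.h_period]
  rw [e1, e2, e3]
  push_cast
  congr 3
  · congr 1; congr 1; ring
  · congr 1; congr 1; ring

lemma V_period (ε : ℝ) (m z : ℤ) : P.V ε (m + P.k * P.n * z) = P.V ε m := by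
  unfold V X
  have e1 : P.h ε (m + P.k * P.n * z) = P.h ε m := by
    rw [show m + P.k * P.n * z = m + P.n * (P.k * z) by ring, P.h_period]
  have e2 : P.h ε (m + P.k * P.n * z + P.k) = P.h ε (m + P.k) := by
    rw [show m + P.k * P.n * z + P.k = (m + P.k) + P.n * (P.k * z) by ring, P.h_period]
  have c1 : ∀ j : ℤ, cis (P.th (j + P.k * P.n * z)) = cis (P.th j) := by
    intro j
    have : P.th (j + P.k * P.n * z) = P.th j + (z : ℝ) * (2 * π) := by
      unfold th
      have := P.knδ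
      push_cast
      linear_combination (z : ℝ) * this
    rw [this, cis_int]
  have e3 := c1 m
  have e4 : cis (P.th (m + P.k * P.n * z + P.k)) = cis (P.th (m + P.k)) := by
    rw [show m + P.k * P.n * z + P.k = (m + P.k) + P.k * P.n * z by ring, c1]
  rw [e1, e2, e3, e4]

lemma W_period (ε : ℝ) (m z : ℤ) : P.W ε (m + P.k * P.n * z) = P.W ε m := by
  unfold W X
  have e1 : P.h ε (m + P.k * P.n * z + 1) = P.h ε (m + 1) := by
    rw [show m + P.k * P.n * z + 1 = (m + 1) + P.n * (P.k * z) by ring, P.h_period]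
  have e2 : P.h ε (m + P.k * P.n * z + 1 + (P.k - 1)) = P.h ε (m + 1 + (P.k - 1)) := by
    rw [show m + P.k * P.n * z + 1 + (P.k - 1) = (m + 1 + (P.k - 1)) + P.n * (P.k * z) by ring,
      P.h_period]
  have c1 : ∀ j : ℤ, cis (P.th (j + P.k * P.n * z)) = cis (P.th j) := by
    intro j
    have : P.th (j + P.k * P.n * z) = P.th j + (z : ℝ) * (2 * π) := by
      unfold th
      have := P.knδ
      push_cast
      linear_combination (z : ℝ) * this
    rw [this, cis_int]
  have e3 : cis (P.th (m + P.k * P.n * z + 1)) = cis (P.th (m + 1)) := by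
    rw [show m + P.k * P.n * z + 1 = (m + 1) + P.k * P.n * z by ring, c1]
  have e4 : cis (P.th (m + P.k * P.n * z + 1 + (P.k - 1))) = cis (P.th (m + 1 + (P.k - 1))) := by
    rw [show m + P.k * P.n * z + 1 + (P.k - 1) = (m + 1 + (P.k - 1)) + P.k * P.n * z by ring, c1]
  rw [e1, e2, e3, e4]

lemma uu_period (ε : ℝ) (i z : ℕ) : P.uu ε (i + 2 * P.k * P.n * z) = P.uu ε i := by
  unfold uu
  have h1 : (i + 2 * P.k * P.n * z) % 2 = i % 2 := by
    rw [show i + 2 * P.k * P.n * z = i + 2 * (P.k * P.n * z) by ring, Nat.add_mul_mod_self_left]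
  have h2 : (i + 2 * P.k * P.n * z) / 2 = i / 2 + P.k * P.n * z := by
    rw [show i + 2 * P.k * P.n * z = i + 2 * (P.k * P.n * z) by ring,
      Nat.add_mul_div_left _ _ (by norm_num)]
  rw [h1, h2]
  push_cast
  rw [P.V_period, P.W_period]

lemma cis_bb_period (i z : ℕ) : cis (-(P.bb (i + 2 * P.k * P.n * z))) = cis (-(P.bb i)) := by
  have : -(P.bb (i + 2 * P.k * P.n * z)) = -(P.bb i) + ((-z : ℤ) : ℝ) * (2 * π) := by
    unfold bb
    have := P.knδ
    push_cast
    linear_combination (-z : ℝ) * this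
  rw [this, cis_int]

lemma eventually_good : ∀ᶠ ε in 𝓝 (0 : ℝ), P.Good ε := by
  have hk := P.hk
  have hn := P.hn
  have hRC : 0 < P.R * P.C := mul_pos P.hR P.C0
  have hδ := P.δ0
  have hkn : 0 < P.k * P.n := by positivity
  have hknZ : (0 : ℤ) < P.k * P.n := by exact_mod_cast hkn
  have hkδ := P.kδ
  have hknδ := P.knδ
  have hωπ : 2 * π / P.n < π := by
    rw [div_lt_iff₀ P.n0]; nlinarith [P.n3, Real.pi_pos]
  have a0 : ∀ᶠ ε in 𝓝 (0 : ℝ), |ε| < P.C := by
    have : ContinuousAt (fun ε : ℝ => |ε|) 0 := continuous_abs.continuousAt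
    exact this.eventually_lt continuousAt_const (by simpa using P.C0)
  -- strict signs at zero
  have s1 : ∀ m q : ℤ, 0 < q → q < P.k → 0 < P.Φ 0 m P.k (m + q) := by
    intro m q h1 h2
    rw [P.Φ_zero]
    have hs : 0 < Real.sin (((P.k : ℤ) : ℝ) * P.δ / 2) := by
      apply Real.sin_pos_of_pos_of_lt_pi
      · push_cast; have := P.k0; positivity
      · push_cast; linarith [Real.pi_pos]
    have hc : Real.cos (((P.k : ℤ) : ℝ) * P.δ / 2) <
        Real.cos ((((m + q : ℤ) : ℝ) - m - ((P.k : ℤ) : ℝ) / 2) * P.δ) := by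
      rw [← Real.cos_abs ((((m + q : ℤ) : ℝ) - m - ((P.k : ℤ) : ℝ) / 2) * P.δ)]
      apply Real.cos_lt_cos_of_nonneg_of_le_pi (abs_nonneg _)
      · push_cast; linarith [Real.pi_pos]
      · rw [abs_mul, abs_of_pos hδ]
        rw [show ((P.k : ℤ) : ℝ) * P.δ / 2 = (((P.k : ℤ) : ℝ) / 2) * P.δ by ring]
        apply mul_lt_mul_of_pos_right _ hδ
        have h1' : (0 : ℝ) < q := by exact_mod_cast h1
        have h2' : (q : ℝ) < P.k := by exact_mod_cast h2
        rw [abs_lt]
        push_cast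
        constructor <;> linarith
    have : 0 < 2 * P.R * P.C * Real.sin (((P.k : ℤ) : ℝ) * P.δ / 2) := by
      have := mul_pos hRC hs; nlinarith
    exact mul_pos this (by linarith)
  have hs' : 0 < Real.sin (((P.k - 1 : ℤ) : ℝ) * P.δ / 2) := by
    apply Real.sin_pos_of_pos_of_lt_pi
    · push_cast; have := P.k2; have : (0 : ℝ) < P.k - 1 := by linarith
      positivity
    · push_cast; nlinarith [Real.pi_pos]
  have s2 : ∀ m q : ℤ, 1 < q → q < P.k → 0 < P.Φ 0 (m + 1) (P.k - 1) (m + q) := by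
    intro m q h1 h2
    rw [P.Φ_zero]
    have hc : Real.cos (((P.k - 1 : ℤ) : ℝ) * P.δ / 2) <
        Real.cos ((((m + q : ℤ) : ℝ) - ((m + 1 : ℤ) : ℝ) - ((P.k - 1 : ℤ) : ℝ) / 2) * P.δ) := by
      rw [← Real.cos_abs ((((m + q : ℤ) : ℝ) - ((m + 1 : ℤ) : ℝ) - ((P.k - 1 : ℤ) : ℝ) / 2) * P.δ)]
      apply Real.cos_lt_cos_of_nonneg_of_le_pi (abs_nonneg _)
      · push_cast; nlinarith [Real.pi_pos]
      · rw [abs_mul, abs_of_pos hδ]
        rw [show ((P.k - 1 : ℤ) : ℝ) * P.δ / 2 = (((P.k - 1 : ℤ) : ℝ) / 2) * P.δ by ring]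
        apply mul_lt_mul_of_pos_right _ hδ
        have h1' : (1 : ℝ) < q := by exact_mod_cast h1
        have h2' : (q : ℝ) < P.k := by exact_mod_cast h2
        rw [abs_lt]
        push_cast
        constructor <;> linarith
    have : 0 < 2 * P.R * P.C * Real.sin (((P.k - 1 : ℤ) : ℝ) * P.δ / 2) := by
      have := mul_pos hRC hs'; nlinarith
    exact mul_pos this (by linarith)
  have s3 : ∀ m q : ℤ, P.k < q → q ≤ P.k * P.n → P.Φ 0 (m + 1) (P.k - 1) (m + q) < 0 := by
    intro m q h1 h2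
    rw [P.Φ_zero]
    have hc : Real.cos ((((m + q : ℤ) : ℝ) - ((m + 1 : ℤ) : ℝ) - ((P.k - 1 : ℤ) : ℝ) / 2) * P.δ) <
        Real.cos (((P.k - 1 : ℤ) : ℝ) * P.δ / 2) := by
      set x := (((m + q : ℤ) : ℝ) - ((m + 1 : ℤ) : ℝ) - ((P.k - 1 : ℤ) : ℝ) / 2) * P.δ with hx
      have h1' : (P.k : ℝ) + 1 ≤ q := by exact_mod_cast h1
      have h2' : (q : ℝ) ≤ P.k * P.n := by exact_mod_cast h2
      have hx1 : ((P.k - 1 : ℤ) : ℝ) * P.δ / 2 < x := by
        rw [hx, show ((P.k - 1 : ℤ) : ℝ) * P.δ / 2 = (((P.k - 1 : ℤ) : ℝ) / 2) * P.δ by ring]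
        apply mul_lt_mul_of_pos_right _ hδ
        push_cast; linarith
      have hx2 : x < 2 * π - ((P.k - 1 : ℤ) : ℝ) * P.δ / 2 := by
        rw [hx, ← hknδ]
        have : (((m + q : ℤ) : ℝ) - ((m + 1 : ℤ) : ℝ) - ((P.k - 1 : ℤ) : ℝ) / 2) * P.δ <
            (P.k * P.n - ((P.k - 1 : ℤ) : ℝ) / 2) * P.δ := by
          apply mul_lt_mul_of_pos_right _ hδ
          push_cast; linarith
        linarith
      have hy0 : 0 ≤ ((P.k - 1 : ℤ) : ℝ) * P.δ / 2 := by
        push_cast; have := P.k2; have : (0 : ℝ) ≤ P.k - 1 := by linarith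
        positivity
      by_cases hxπ : x ≤ π
      · exact Real.cos_lt_cos_of_nonneg_of_le_pi hy0 hxπ hx1
      · push Not at hxπ
        rw [← Real.cos_two_pi_sub]
        exact Real.cos_lt_cos_of_nonneg_of_le_pi hy0 (by linarith) (by linarith)
    have : 0 < 2 * P.R * P.C * Real.sin (((P.k - 1 : ℤ) : ℝ) * P.δ / 2) := by
      have := mul_pos hRC hs'; nlinarith
    exact mul_neg_of_pos_of_neg this (by linarith)
  -- reduction of m modulo k n
  have red : ∀ m : ℤ, ∃ j ∈ Finset.range (P.k * P.n), ∃ z : ℤ, m = (j : ℤ) + P.k * P.n * z := by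
    intro m
    have h0 : 0 ≤ m % (P.k * P.n) := Int.emod_nonneg _ hknZ.ne'
    have h1 : m % (P.k * P.n) < P.k * P.n := Int.emod_lt_of_pos _ hknZ
    refine ⟨(m % (P.k * P.n)).toNat, ?_, m / (P.k * P.n), ?_⟩
    · rw [Finset.mem_range]
      have : ((m % (P.k * P.n)).toNat : ℤ) < ((P.k * P.n : ℕ) : ℤ) := by
        rw [Int.toNat_of_nonneg h0]; push_cast; exact h1
      exact_mod_cast this
    · rw [Int.toNat_of_nonneg h0]; exact (Int.emod_add_mul_ediv m _).symm
  have a1 : ∀ᶠ ε in 𝓝 (0 : ℝ), ∀ j ∈ Finset.range (P.k * P.n), ∀ q ∈ Finset.range (P.k * P.n + 1),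
      (0 < q → q < P.k → 0 < P.Φ ε (j : ℤ) P.k (j + q)) ∧
      (1 < q → q < P.k → 0 < P.Φ ε ((j : ℤ) + 1) (P.k - 1) (j + q)) ∧
      (P.k < q → P.Φ ε ((j : ℤ) + 1) (P.k - 1) (j + q) < 0) := by
    refine (Filter.eventually_all_finset _).2 fun j _ => (Filter.eventually_all_finset _).2 fun q hq => ?_
    refine Filter.Eventually.and ?_ (Filter.Eventually.and ?_ ?_)
    · by_cases h : 0 < q ∧ q < P.k
      · have := continuousAt_const.eventually_lt (P.Φ_cont j P.k (j + q)).continuousAt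
          (s1 j q (by exact_mod_cast h.1) (by exact_mod_cast h.2))
        exact this.mono fun ε hε _ _ => hε
      · exact Filter.Eventually.of_forall fun ε h1 h2 => absurd ⟨h1, h2⟩ h
    · by_cases h : 1 < q ∧ q < P.k
      · have := continuousAt_const.eventually_lt (P.Φ_cont ((j : ℤ) + 1) (P.k - 1) (j + q)).continuousAt
          (s2 j q (by exact_mod_cast h.1) (by exact_mod_cast h.2))
        exact this.mono fun ε hε _ _ => hε
      · exact Filter.Eventually.of_forall fun ε h1 h2 => absurd ⟨h1, h2⟩ h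
    · by_cases h : P.k < q
      · have hq' : q ≤ P.k * P.n := by simpa [Nat.lt_succ_iff] using hq
        have := (P.Φ_cont ((j : ℤ) + 1) (P.k - 1) (j + q)).continuousAt.eventually_lt
          continuousAt_const (s3 j q (by exact_mod_cast h) (by exact_mod_cast hq'))
        exact this.mono fun ε hε _ => hε
      · exact Filter.Eventually.of_forall fun ε h1 => absurd h1 h
  have a2 : ∀ᶠ ε in 𝓝 (0 : ℝ), ∀ i ∈ Finset.range (2 * P.k * P.n),
      |Complex.arg (P.uu ε i * cis (-(P.bb i)))| < P.δ / 8 := by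
    refine (Filter.eventually_all_finset _).2 fun i _ => ?_
    obtain ⟨ρ, hρ, hρ'⟩ := P.uu_zero i
    have hcont : ContinuousAt (fun ε => |Complex.arg (P.uu ε i * cis (-(P.bb i)))|) 0 := by
      apply continuous_abs.continuousAt.comp
      refine ContinuousAt.comp (g := Complex.arg) ?_ ?_
      · rw [hρ']
        apply Complex.continuousAt_arg
        exact Complex.ofReal_mem_slitPlane.2 hρ
      · exact ((P.uu_cont i).mul continuous_const).continuousAt
    refine hcont.eventually_lt continuousAt_const ?_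
    rw [hρ', Complex.arg_ofReal_of_nonneg hρ.le, abs_zero]
    positivity
  filter_upwards [a0, a1, a2] with ε e0 e1 e2
  refine ⟨e0, ?_, ?_, ?_, ?_⟩
  · intro m q h1 h2
    obtain ⟨j, hj, z, rfl⟩ := red m
    lift q to ℕ using h1.le
    have hq : q ∈ Finset.range (P.k * P.n + 1) := by
      rw [Finset.mem_range]
      have : q < P.k := by exact_mod_cast h2
      nlinarith
    have := (e1 j hj q hq).1 (by exact_mod_cast h1) (by exact_mod_cast h2)
    have e := P.Φ_period' ε j P.k 0 q z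
    simp only [add_zero] at e
    rw [e]; exact this.le
  · intro m q h1 h2
    obtain ⟨j, hj, z, rfl⟩ := red m
    lift q to ℕ using (by omega)
    have hq : q ∈ Finset.range (P.k * P.n + 1) := by
      rw [Finset.mem_range]
      have : q < P.k := by exact_mod_cast h2
      nlinarith
    have := (e1 j hj q hq).2.1 (by exact_mod_cast h1) (by exact_mod_cast h2)
    rw [P.Φ_period' ε j (P.k - 1) 1 q z]; exact this.le
  · intro m q h1 h2
    obtain ⟨j, hj, z, rfl⟩ := red m
    lift q to ℕ using (by omega)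
    have hq : q ∈ Finset.range (P.k * P.n + 1) := by
      rw [Finset.mem_range, Nat.lt_succ_iff]; exact_mod_cast h2
    have := (e1 j hj q hq).2.2 (by exact_mod_cast h1)
    rw [P.Φ_period' ε j (P.k - 1) 1 q z]; exact this.le
  · intro i
    have h2kn : 0 < 2 * P.k * P.n := by positivity
    have hi : i = i % (2 * P.k * P.n) + 2 * P.k * P.n * (i / (2 * P.k * P.n)) :=
      (Nat.mod_add_div i _).symm
    rw [hi, P.uu_period, P.cis_bb_period]
    exact e2 _ (Finset.mem_range.2 (Nat.mod_lt _ h2kn))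

end Par

end Pool.Agent.X147.SP
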