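import Mathlib
import Pool.Agent.X147.SetB

set_option autoImplicit false

/-! # Area and perimeter of the union of a shifted setup -/

open MeasureTheory Set Complex Filter Topology
open scoped ENNReal Real

namespace Pool.Agent.X147.SP

namespace Par

variable (P : Par) {ε : ℝ}

lemma V_def (ε : ℝ) (m : ℤ) : P.V ε m = P.X ε m P.k := rfl
lemma W_def (ε : ℝ) (m : ℤ) : P.W ε m = P.X ε (m + 1) (P.k - 1) := rfl

lemma Gv_le (hg : P.Good ε) (m q : ℤ) : P.G ε (m + P.k * q) (P.V ε m) ≤ 1 := by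
  have hk := P.hk
  rw [V_def]
  exact P.G_le_one hg.h0 (by omega) le_rfl (P.Φ_vertex ε m q)

lemma Gw_le_left (hg : P.Good ε) (m q : ℤ) : P.G ε (m + 1 + P.k * q) (P.W ε m) ≤ 1 := by
  have hk := P.hk
  have hn := P.hn
  have hn' : (0 : ℤ) < P.n := by omega
  rw [W_def]
  refine P.G_le_one hg.h0 (by omega) (by omega) ?_
  have h0 : 0 ≤ q % P.n := Int.emod_nonneg _ hn'.ne'
  have h1 : q % P.n < P.n := Int.emod_lt_of_pos _ hn'
  set r := q % P.n with hr
  have hq : m + 1 + P.k * q = (m + 1 + P.k * r) + P.k * P.n * (q / P.n) := by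
    have := (Int.emod_add_mul_ediv q P.n).symm
    rw [← hr] at this
    conv_lhs => rw [this]
    ring
  rw [hq, P.Φ_period]
  rcases h0.eq_or_lt with h2 | h2
  · rw [← h2, mul_zero, add_zero, P.Φ_left]
  · have := hg.p3 m (1 + P.k * r) (by nlinarith) (by nlinarith)
    rw [← add_assoc] at this
    exact this

lemma Gw_le_right (hg : P.Good ε) (m q : ℤ) : P.G ε (m + P.k * q) (P.W ε m) ≤ 1 := by
  have hk := P.hk
  have hn := P.hn
  have hn' : (0 : ℤ) < P.n := by omega
  rw [W_def]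
  refine P.G_le_one hg.h0 (by omega) (by omega) ?_
  have h0 : 0 ≤ q % P.n := Int.emod_nonneg _ hn'.ne'
  have h1 : q % P.n < P.n := Int.emod_lt_of_pos _ hn'
  set r := q % P.n with hr
  have hq : m + P.k * q = (m + P.k * r) + P.k * P.n * (q / P.n) := by
    have := (Int.emod_add_mul_ediv q P.n).symm
    rw [← hr] at this
    conv_lhs => rw [this]
    ring
  rw [hq, P.Φ_period]
  rcases h0.eq_or_lt with h2 | h2
  · rw [← h2, mul_zero, add_zero]
    have := hg.p3 m (P.k * P.n) (by nlinarith) le_rfl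
    have e := P.Φ_period ε (m + 1) (P.k - 1) m 1
    rw [mul_one] at e
    rwa [e] at this
  · rcases (Int.add_one_le_iff.2 h2).eq_or_lt with h3 | h3
    · rw [zero_add] at h3
      rw [← h3, mul_one]
      have := P.Φ_right ε (m + 1) (P.k - 1)
      rw [show m + 1 + ((P.k : ℤ) - 1) = m + P.k by ring] at this
      exact this.le
    · exact hg.p3 m (P.k * r) (by nlinarith) (by nlinarith)

lemma le_Gv (hg : P.Good ε) (m r : ℤ) (h1 : 0 ≤ r) (h2 : r ≤ P.k) :
    1 ≤ P.G ε (m + r) (P.V ε m) := by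
  have hk := P.hk
  rw [V_def]
  refine P.one_le_G hg.h0 (by omega) le_rfl ?_
  rcases h1.eq_or_lt with h3 | h3
  · rw [← h3, add_zero, P.Φ_left]
  · rcases h2.eq_or_lt with h4 | h4
    · rw [h4, P.Φ_right]
    · exact hg.p1 m r h3 h4

lemma le_Gw (hg : P.Good ε) (m r : ℤ) (h1 : 1 ≤ r) (h2 : r ≤ P.k) :
    1 ≤ P.G ε (m + r) (P.W ε m) := by
  have hk := P.hk
  rw [W_def]
  refine P.one_le_G hg.h0 (by omega) (by omega) ?_
  rcases h1.eq_or_lt with h3 | h3
  · rw [← h3, P.Φ_left]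
  · rcases h2.eq_or_lt with h4 | h4
    · have := P.Φ_right ε (m + 1) (P.k - 1)
      rw [show m + 1 + ((P.k : ℤ) - 1) = m + P.k by ring] at this
      rw [h4]
      exact this.ge
    · exact hg.p2 m r h3 h4

lemma exists_rep (m c : ℤ) : ∃ r q : ℤ, 1 ≤ r ∧ r ≤ P.k ∧ m + r = c + P.k * q := by
  have hk := P.hk
  have hk' : (0 : ℤ) < P.k := by omega
  have h0 : 0 ≤ (c - m - 1) % P.k := Int.emod_nonneg _ hk'.ne'
  have h1 : (c - m - 1) % P.k < P.k := Int.emod_lt_of_pos _ hk'
  refine ⟨(c - m - 1) % P.k + 1, -((c - m - 1) / P.k), by omega, by omega, ?_⟩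
  have := Int.emod_add_mul_ediv (c - m - 1) P.k
  linarith

lemma F_VW (hg : P.Good ε) (m : ℤ) {s t : ℝ} (hs : 0 ≤ s) (ht : 0 ≤ t) :
    P.F ε (s * P.V ε m + t * P.W ε m) = s + t := by
  apply le_antisymm
  · refine (P.F_le ε m _).trans (P.M_le fun q => ?_)
    rw [P.G_lin]
    have h1 := P.Gv_le hg m q
    have h2 := P.Gw_le_right hg m q
    nlinarith
  · refine P.le_F fun c => ?_
    obtain ⟨r, q, h1, h2, h3⟩ := P.exists_rep m c
    refine le_trans ?_ (P.G_le_M ε c q _)
    rw [← h3, P.G_lin]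
    have h4 := P.le_Gv hg m r (by omega) h2
    have h5 := P.le_Gw hg m r h1 h2
    nlinarith

lemma F_WV (hg : P.Good ε) (m : ℤ) {s t : ℝ} (hs : 0 ≤ s) (ht : 0 ≤ t) :
    P.F ε (s * P.W ε m + t * P.V ε (m + 1)) = s + t := by
  apply le_antisymm
  · refine (P.F_le ε (m + 1) _).trans (P.M_le fun q => ?_)
    rw [P.G_lin]
    have h1 := P.Gv_le hg (m + 1) q
    have h2 := P.Gw_le_left hg m q
    nlinarith
  · refine P.le_F fun c => ?_
    obtain ⟨r, q, h1, h2, h3⟩ := P.exists_rep m c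
    refine le_trans ?_ (P.G_le_M ε c q _)
    rw [← h3, P.G_lin]
    have h4 := P.le_Gv hg (m + 1) (r - 1) (by omega) (by omega)
    rw [show m + 1 + (r - 1) = m + r by ring] at h4
    have h5 := P.le_Gw hg m r h1 h2
    nlinarith

lemma uu_polar (ε : ℝ) (i : ℕ) :
    (‖P.uu ε i‖ : ℂ) * cis (P.bb i + Complex.arg (P.uu ε i * cis (-(P.bb i)))) = P.uu ε i := by
  set w := P.uu ε i * cis (-(P.bb i)) with hw
  have h1 : ‖P.uu ε i‖ = ‖w‖ := by rw [hw, norm_mul, norm_cis, mul_one]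
  rw [h1, cis_add, mul_left_comm, ← eq_norm_cis_arg w, hw, mul_left_comm, ← cis_add]
  simp [cis_zero]

lemma X_re_left (ε : ℝ) {j a : ℤ} (h0 : 0 < a) (h1 : a ≤ P.k) :
    (P.X ε j a * cis (-(P.th j))).re = P.h ε j := by
  rw [P.X_re, show ((j : ℝ) + a - j) = a by ring, sub_self, zero_mul, Real.sin_zero, mul_zero,
    add_zero, mul_div_assoc, div_self (P.sin_pos h0 h1).ne', mul_one]

lemma X_ne_zero (hg : P.Good ε) {j a : ℤ} (h0 : 0 < a) (h1 : a ≤ P.k) : P.X ε j a ≠ 0 := by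
  intro h
  have := P.X_re_left ε (j := j) h0 h1
  rw [h, zero_mul, Complex.zero_re] at this
  exact (P.h_pos hg.h0 j).ne this

lemma uu_ne_zero (hg : P.Good ε) (i : ℕ) : P.uu ε i ≠ 0 := by
  have hk := P.hk
  unfold uu V W
  split_ifs
  · exact P.X_ne_zero hg (by omega) (by omega)
  · exact P.X_ne_zero hg (by omega) (by omega)

lemma δ_le : P.δ ≤ π / 3 := by
  have h1 := P.k2
  have h2 := P.n3
  have h3 := Real.pi_pos
  unfold δ
  rw [div_le_div_iff₀ (mul_pos P.k0 P.n0) (by norm_num)]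
  nlinarith [mul_le_mul h1 h2 (by norm_num) P.k0.le]

/-- the union as a star-shaped polygon -/
noncomputable def star (hg : P.Good ε) : StarPoly where
  N := 2 * P.k * P.n
  a i := P.bb i + Complex.arg (P.uu ε i * cis (-(P.bb i)))
  r i := ‖P.uu ε i‖
  F := P.F ε
  hN := by have := P.hk; have := P.hn; positivity
  mono i _ := by
    have h1 := abs_lt.1 (hg.p4 i)
    have h2 := abs_lt.1 (hg.p4 (i + 1))
    have h3 : P.bb (i + 1) = P.bb i + P.δ / 2 := by unfold bb; push_cast; ring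
    have := P.δ0
    rw [h3] at h2 ⊢
    linarith
  gap i _ := by
    have h1 := abs_lt.1 (hg.p4 i)
    have h2 := abs_lt.1 (hg.p4 (i + 1))
    have h3 : P.bb (i + 1) = P.bb i + P.δ / 2 := by unfold bb; push_cast; ring
    have := P.δ0
    have := P.δ_le
    have := Real.pi_pos
    rw [h3] at h2 ⊢
    linarith
  aN := by
    have h1 := P.uu_period ε 0 1
    have h2 := P.cis_bb_period 0 1
    rw [mul_one, zero_add] at h1 h2
    rw [h1, h2]
    have h3 := P.knδ
    unfold bb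
    push_cast
    linear_combination h3
  rpos i := norm_pos_iff.2 (P.uu_ne_zero hg i)
  rN := by
    have h1 := P.uu_period ε 0 1
    rw [mul_one, zero_add] at h1
    rw [h1]
  hc := P.F_cont ε
  hF i _ s t hs ht := by
    rw [P.uu_polar, P.uu_polar]
    rcases Nat.even_or_odd' i with ⟨c, rfl | rfl⟩
    · have e1 : P.uu ε (2 * c) = P.V ε c := by
        unfold uu; rw [if_pos (by omega)]; congr 2; omega
      have e2 : P.uu ε (2 * c + 1) = P.W ε c := by
        unfold uu; rw [if_neg (by omega)]; congr 2; omega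
      rw [e1, e2]
      exact P.F_VW hg c hs ht
    · have e1 : P.uu ε (2 * c + 1) = P.W ε c := by
        unfold uu; rw [if_neg (by omega)]; congr 2; omega
      have e2 : P.uu ε (2 * c + 1 + 1) = P.V ε (c + 1) := by
        unfold uu; rw [if_pos (by omega)]
        congr 1
        have : (2 * c + 1 + 1) / 2 = c + 1 := by omega
        rw [this]; push_cast; ring
      rw [e1, e2]
      exact P.F_WV hg c hs ht

lemma star_u (hg : P.Good ε) (i : ℕ) : (P.star hg).u i = P.uu ε i := P.uu_polar ε i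

lemma uu_even (ε : ℝ) (c : ℕ) : P.uu ε (2 * c) = P.V ε c := by
  unfold uu; rw [if_pos (by omega)]; congr 2; omega

lemma uu_odd (ε : ℝ) (c : ℕ) : P.uu ε (2 * c + 1) = P.W ε c := by
  unfold uu; rw [if_neg (by omega)]; congr 2; omega

/-- determinant -/
noncomputable def det (x y : ℂ) : ℝ := x.re * y.im - x.im * y.re

lemma det_eq (x y : ℂ) (t : ℝ) : det x y =
    (x * cis (-t)).re * (y * cis (-t)).im - (x * cis (-t)).im * (y * cis (-t)).re := by
  unfold det
  simp only [Complex.mul_re, Complex.mul_im, cis_re, cis_im, Real.cos_neg, Real.sin_neg]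
  have := Real.sin_sq_add_cos_sq t
  linear_combination (-(x.re * y.im - x.im * y.re)) * this

lemma det_pos (hg : P.Good ε) (i : ℕ) (hi : i < 2 * P.k * P.n) :
    0 < det (P.uu ε i) (P.uu ε (i + 1)) := by
  have h1 := (P.star hg).mono i hi
  have h2 := (P.star hg).gap i hi
  rw [← P.star_u hg i, ← P.star_u hg (i + 1)]
  unfold StarPoly.u det
  simp only [Complex.re_ofReal_mul, Complex.im_ofReal_mul, cis_re, cis_im]
  have h3 : 0 < Real.sin ((P.star hg).a (i + 1) - (P.star hg).a i) :=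
    Real.sin_pos_of_pos_of_lt_pi (by linarith) h2
  rw [Real.sin_sub] at h3
  have h4 := (P.star hg).rpos i
  have h5 := (P.star hg).rpos (i + 1)
  have h6 := mul_pos (mul_pos h4 h5) h3
  nlinarith

lemma X_im_left (ε : ℝ) {j a : ℤ} (h0 : 0 < a) (h1 : a ≤ P.k) :
    (P.X ε j a * cis (-(P.th j))).im =
      (P.h ε (j + a) - P.h ε j * Real.cos (a * P.δ)) / Real.sin (a * P.δ) := by
  unfold X
  have e : I * (P.h ε (j + a) * cis (P.th j) - P.h ε j * cis (P.th (j + a))) / Real.sin (a * P.δ) *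
      cis (-(P.th j)) = ((1 / Real.sin (a * P.δ) : ℝ) : ℂ) *
      (P.h ε (j + a) * I - P.h ε j * (I * cis (a * P.δ))) := by
    have e1 : cis (P.th j) * cis (-(P.th j)) = 1 := by rw [← cis_add]; simp [cis_zero]
    have e2 : cis (a * P.δ) = cis (P.th (j + a)) * cis (-(P.th j)) := by
      rw [← cis_add]; congr 1; unfold th; push_cast; ring
    rw [e2]
    push_cast
    linear_combination (I * P.h ε (j + a) / Complex.sin (a * P.δ)) * e1
  rw [e, Complex.im_ofReal_mul, Complex.sub_im, Complex.im_ofReal_mul, Complex.im_ofReal_mul]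
  simp only [Complex.mul_im, Complex.I_re, Complex.I_im, cis_re, cis_im, zero_mul, one_mul]
  have := (P.sin_pos h0 h1).ne'
  field_simp
  ring

lemma X_re_right (ε : ℝ) {j a : ℤ} (h0 : 0 < a) (h1 : a ≤ P.k) :
    (P.X ε j a * cis (-(P.th (j + a)))).re = P.h ε (j + a) := by
  rw [P.X_re]
  push_cast
  rw [show ((j : ℝ) + a - (j + a)) = 0 by ring, show ((j : ℝ) + a - j) = a by ring, zero_mul,
    Real.sin_zero, mul_zero, zero_add, mul_div_assoc, div_self (P.sin_pos h0 h1).ne', mul_one]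

lemma X_im_right (ε : ℝ) {j a : ℤ} (h0 : 0 < a) (h1 : a ≤ P.k) :
    (P.X ε j a * cis (-(P.th (j + a)))).im =
      -((P.h ε j - P.h ε (j + a) * Real.cos (a * P.δ)) / Real.sin (a * P.δ)) := by
  unfold X
  have e : I * (P.h ε (j + a) * cis (P.th j) - P.h ε j * cis (P.th (j + a))) / Real.sin (a * P.δ) *
      cis (-(P.th (j + a))) = ((1 / Real.sin (a * P.δ) : ℝ) : ℂ) *
      (P.h ε (j + a) * (I * cis (-(a * P.δ))) - P.h ε j * I) := by
    have e1 : cis (P.th (j + a)) * cis (-(P.th (j + a))) = 1 := by rw [← cis_add]; simp [cis_zero]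
    have e2 : cis (-(a * P.δ)) = cis (P.th j) * cis (-(P.th (j + a))) := by
      rw [← cis_add]; congr 1; unfold th; push_cast; ring
    rw [e2]
    push_cast
    linear_combination (-I * P.h ε j / Complex.sin (a * P.δ)) * e1
  rw [e, Complex.im_ofReal_mul, Complex.sub_im, Complex.im_ofReal_mul, Complex.im_ofReal_mul]
  simp only [Complex.mul_im, Complex.I_re, Complex.I_im, cis_re, cis_im, zero_mul, one_mul,
    Real.cos_neg]
  have := (P.sin_pos h0 h1).ne'
  field_simp
  ring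

/-- length of the boundary edge `V m`, `W m` -/
noncomputable def l1 (ε : ℝ) (m : ℤ) : ℝ :=
  (P.h ε m - P.h ε (m + P.k) * Real.cos (P.k * P.δ)) / Real.sin (P.k * P.δ) -
  (P.h ε (m + 1) - P.h ε (m + P.k) * Real.cos ((P.k - 1) * P.δ)) / Real.sin ((P.k - 1) * P.δ)

/-- length of the boundary edge `W m`, `V (m + 1)` -/
noncomputable def l2 (ε : ℝ) (m : ℤ) : ℝ :=
  (P.h ε (m + 1 + P.k) - P.h ε (m + 1) * Real.cos (P.k * P.δ)) / Real.sin (P.k * P.δ) -
  (P.h ε (m + P.k) - P.h ε (m + 1) * Real.cos ((P.k - 1) * P.δ)) / Real.sin ((P.k - 1) * P.δ)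

lemma det_VW (ε : ℝ) (m : ℤ) : det (P.V ε m) (P.W ε m) = P.h ε (m + P.k) * P.l1 ε m := by
  have hk := P.hk
  have i1 := P.X_re_right ε (j := m) (a := P.k) (by omega) (by omega)
  have i2 := P.X_im_right ε (j := m) (a := P.k) (by omega) (by omega)
  have i3 := P.X_re_right ε (j := m + 1) (a := P.k - 1) (by omega) (by omega)
  have i4 := P.X_im_right ε (j := m + 1) (a := P.k - 1) (by omega) (by omega)
  rw [show m + 1 + ((P.k : ℤ) - 1) = m + P.k by ring] at i3 i4
  rw [det_eq _ _ (P.th (m + P.k)), V_def, W_def, i1, i2, i3, i4]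
  unfold l1
  push_cast
  ring

lemma norm_VW (ε : ℝ) (m : ℤ) : ‖P.V ε m - P.W ε m‖ = |P.l1 ε m| := by
  have hk := P.hk
  have i1 := P.X_re_right ε (j := m) (a := P.k) (by omega) (by omega)
  have i2 := P.X_im_right ε (j := m) (a := P.k) (by omega) (by omega)
  have i3 := P.X_re_right ε (j := m + 1) (a := P.k - 1) (by omega) (by omega)
  have i4 := P.X_im_right ε (j := m + 1) (a := P.k - 1) (by omega) (by omega)
  rw [show m + 1 + ((P.k : ℤ) - 1) = m + P.k by ring] at i3 i4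
  have h1 : ‖P.V ε m - P.W ε m‖ = ‖(P.V ε m - P.W ε m) * cis (-(P.th (m + P.k)))‖ := by
    rw [norm_mul, norm_cis, mul_one]
  have h2 : (P.V ε m - P.W ε m) * cis (-(P.th (m + P.k))) = ((-(P.l1 ε m) : ℝ) : ℂ) * I := by
    rw [V_def, W_def, sub_mul]
    apply Complex.ext
    · rw [Complex.sub_re, i1, i3]; simp
    · rw [Complex.sub_im, i2, i4, Complex.im_ofReal_mul, Complex.I_im]
      unfold l1
      push_cast
      ring
  rw [h1, h2, norm_mul, Complex.norm_I, mul_one, Complex.norm_real, Real.norm_eq_abs, abs_neg]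

lemma det_WV (ε : ℝ) (m : ℤ) : det (P.W ε m) (P.V ε (m + 1)) = P.h ε (m + 1) * P.l2 ε m := by
  have hk := P.hk
  have i1 := P.X_re_left ε (j := m + 1) (a := P.k) (by omega) (by omega)
  have i2 := P.X_im_left ε (j := m + 1) (a := P.k) (by omega) (by omega)
  have i3 := P.X_re_left ε (j := m + 1) (a := P.k - 1) (by omega) (by omega)
  have i4 := P.X_im_left ε (j := m + 1) (a := P.k - 1) (by omega) (by omega)
  rw [show m + 1 + ((P.k : ℤ) - 1) = m + P.k by ring] at i4
  rw [det_eq _ _ (P.th (m + 1)), V_def, W_def, i1, i2, i3, i4]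
  unfold l2
  push_cast
  ring

lemma norm_WV (ε : ℝ) (m : ℤ) : ‖P.W ε m - P.V ε (m + 1)‖ = |P.l2 ε m| := by
  have hk := P.hk
  have i1 := P.X_re_left ε (j := m + 1) (a := P.k) (by omega) (by omega)
  have i2 := P.X_im_left ε (j := m + 1) (a := P.k) (by omega) (by omega)
  have i3 := P.X_re_left ε (j := m + 1) (a := P.k - 1) (by omega) (by omega)
  have i4 := P.X_im_left ε (j := m + 1) (a := P.k - 1) (by omega) (by omega)
  rw [show m + 1 + ((P.k : ℤ) - 1) = m + P.k by ring] at i4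
  have h1 : ‖P.W ε m - P.V ε (m + 1)‖ = ‖(P.W ε m - P.V ε (m + 1)) * cis (-(P.th (m + 1)))‖ := by
    rw [norm_mul, norm_cis, mul_one]
  have h2 : (P.W ε m - P.V ε (m + 1)) * cis (-(P.th (m + 1))) = ((-(P.l2 ε m) : ℝ) : ℂ) * I := by
    rw [V_def, W_def, sub_mul]
    apply Complex.ext
    · rw [Complex.sub_re, i1, i3]; simp
    · rw [Complex.sub_im, i2, i4, Complex.im_ofReal_mul, Complex.I_im]
      unfold l2
      push_cast
      ring
  rw [h1, h2, norm_mul, Complex.norm_I, mul_one, Complex.norm_real, Real.norm_eq_abs, abs_neg]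

lemma sum_two (f : ℕ → ℝ) (N : ℕ) :
    ∑ i ∈ Finset.range (2 * N), f i = ∑ m ∈ Finset.range N, (f (2 * m) + f (2 * m + 1)) := by
  induction N with
  | zero => simp
  | succ N ih =>
    rw [show 2 * (N + 1) = 2 * N + 1 + 1 by ring, Finset.sum_range_succ, Finset.sum_range_succ, ih,
      Finset.sum_range_succ]
    ring

lemma l1_pos (hg : P.Good ε) (m : ℕ) (hm : m < P.k * P.n) : 0 < P.l1 ε m := by
  have h1 := P.det_pos hg (2 * m) (by nlinarith)
  rw [P.uu_even, P.uu_odd, P.det_VW] at h1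
  exact (pos_iff_pos_of_mul_pos h1).1 (P.h_pos hg.h0 _)

lemma uu_even' (ε : ℝ) (c : ℕ) : P.uu ε (2 * c + 1 + 1) = P.V ε (c + 1) := by
  rw [show 2 * c + 1 + 1 = 2 * (c + 1) by ring, P.uu_even]; push_cast; rfl

lemma l2_pos (hg : P.Good ε) (m : ℕ) (hm : m < P.k * P.n) : 0 < P.l2 ε m := by
  have h1 := P.det_pos hg (2 * m + 1) (by nlinarith)
  rw [P.uu_even', P.uu_odd, P.det_WV] at h1
  exact (pos_iff_pos_of_mul_pos h1).1 (P.h_pos hg.h0 _)

/-- perimeter as a sum -/
lemma perim (hg : P.Good ε) :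
    (Measure.hausdorffMeasure (1 : ℝ) : Measure ℂ) (frontier {x | P.F ε x ≤ 1}) =
      ENNReal.ofReal (∑ m ∈ Finset.range (P.k * P.n), (P.l1 ε m + P.l2 ε m)) := by
  have h := (P.star hg).length
  have h0 : (P.star hg).U = {x | P.F ε x ≤ 1} := rfl
  rw [h0] at h
  rw [h]
  have hN : (P.star hg).N = 2 * (P.k * P.n) := by
    change 2 * P.k * P.n = _; ring
  rw [hN]
  have e : ∀ i, edist ((P.star hg).u i) ((P.star hg).u (i + 1)) =
      ENNReal.ofReal ‖P.uu ε i - P.uu ε (i + 1)‖ := by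
    intro i
    rw [P.star_u hg, P.star_u hg, edist_dist, dist_eq_norm]
  simp only [e]
  rw [← ENNReal.ofReal_sum_of_nonneg (fun _ _ => norm_nonneg _), sum_two]
  congr 1
  refine Finset.sum_congr rfl fun m hm => ?_
  rw [P.uu_even, P.uu_odd, P.uu_even', P.norm_VW, P.norm_WV, abs_of_pos, abs_of_pos]
  · exact P.l2_pos hg m (Finset.mem_range.1 hm)
  · exact P.l1_pos hg m (Finset.mem_range.1 hm)

/-- area as a sum -/
lemma area (hg : P.Good ε) :
    volume {x | P.F ε x ≤ 1} =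
      ENNReal.ofReal (∑ m ∈ Finset.range (P.k * P.n),
        (P.h ε (m + P.k) * P.l1 ε m + P.h ε (m + 1) * P.l2 ε m) / 2) := by
  have h := (P.star hg).area
  have h0 : (P.star hg).U = {x | P.F ε x ≤ 1} := rfl
  rw [h0] at h
  rw [h]
  have hN : (P.star hg).N = 2 * (P.k * P.n) := by
    change 2 * P.k * P.n = _; ring
  rw [hN]
  have e : ∀ i, ENNReal.ofReal (|((P.star hg).u i).re * ((P.star hg).u (i + 1)).im -
      ((P.star hg).u i).im * ((P.star hg).u (i + 1)).re| / 2) =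
      ENNReal.ofReal (|det (P.uu ε i) (P.uu ε (i + 1))| / 2) := by
    intro i
    rw [P.star_u hg, P.star_u hg]; rfl
  simp only [e]
  rw [← ENNReal.ofReal_sum_of_nonneg (fun _ _ => by positivity), sum_two]
  congr 1
  refine Finset.sum_congr rfl fun m hm => ?_
  have hm' := Finset.mem_range.1 hm
  have h1 := P.det_pos hg (2 * m) (by nlinarith)
  have h2 := P.det_pos hg (2 * m + 1) (by nlinarith)
  rw [abs_of_pos h1, abs_of_pos h2, P.uu_even, P.uu_odd, P.uu_even', P.det_VW, P.det_WV]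
  ring

end Par

end Pool.Agent.X147.SP
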