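import Mathlib
import Pool.Agent.X147.SetC

set_option autoImplicit false

/-! # Evaluation of area and perimeter -/

open MeasureTheory Set Complex Filter Topology
open scoped ENNReal Real

namespace Pool.Agent.X147.SP

namespace Par

variable (P : Par) {ε : ℝ}

lemma not_dvd_p : ¬ (P.n : ℤ) ∣ P.p := by
  intro h
  obtain ⟨z, hz⟩ := P.hp
  have hn := P.hn
  have h1 : (P.n : ℤ) ∣ 1 := by
    have h2 : (P.n : ℤ) ∣ P.k * P.p := Dvd.dvd.mul_left h _
    have h3 : (P.n : ℤ) ∣ P.k * P.p + 1 := ⟨z, hz⟩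
    exact (Int.dvd_add_right h2).1 h3
  have := Int.le_of_dvd one_pos h1
  omega

lemma not_dvd_2p : ¬ (P.n : ℤ) ∣ 2 * P.p := by
  intro h
  obtain ⟨z, hz⟩ := P.hp
  have hn := P.hn
  have h1 : (P.n : ℤ) ∣ 2 := by
    have h2 : (P.n : ℤ) ∣ P.k * (2 * P.p) := Dvd.dvd.mul_left h _
    have h3 : (P.n : ℤ) ∣ P.k * (2 * P.p) + 2 := ⟨2 * z, by linarith⟩
    exact (Int.dvd_add_right h2).1 h3
  have := Int.le_of_dvd two_pos h1
  omega

lemma sum_cos_zero {q : ℤ} (hq : ¬ (P.n : ℤ) ∣ q) (c : ℝ) :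
    ∑ m ∈ Finset.range (P.k * P.n), Real.cos (q * m * (2 * π / P.n) + c) = 0 := by
  have hn0 := P.n0
  have hn0' : (P.n : ℝ) ≠ 0 := hn0.ne'
  set z : ℂ := cis (q * (2 * π / P.n)) with hz
  have hpow : ∀ m : ℕ, cis (q * m * (2 * π / P.n)) = z ^ m := by
    intro m
    induction m with
    | zero => simp [cis_zero]
    | succ m ih =>
      rw [pow_succ, ← ih, hz, ← cis_add]; congr 1; push_cast; ring
  have hz1 : z ≠ 1 := by
    intro h
    rw [hz, ← cis_zero] at h
    obtain ⟨w, hw⟩ := cis_inj h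
    apply hq
    refine ⟨w, ?_⟩
    have : (q : ℝ) = P.n * w := by
      field_simp at hw
      have hpi := Real.pi_pos
      nlinarith
    exact_mod_cast this
  have hzN : z ^ (P.k * P.n) = 1 := by
    rw [← hpow]
    have : (q : ℝ) * ((P.k * P.n : ℕ) : ℝ) * (2 * π / P.n) = 0 + ((q * P.k : ℤ) : ℝ) * (2 * π) := by
      push_cast; field_simp; ring
    rw [this, cis_int, cis_zero]
  have hgeom : ∑ m ∈ Finset.range (P.k * P.n), z ^ m = 0 := by
    rw [geom_sum_eq hz1, hzN, sub_self, zero_div]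
  have h1 : ∀ m : ℕ, Real.cos (q * m * (2 * π / P.n) + c) = (cis c * z ^ m).re := by
    intro m
    rw [← hpow, ← cis_add, cis_re]; congr 1; ring
  simp only [h1]
  rw [← Complex.re_sum, ← Finset.mul_sum, hgeom, mul_zero, Complex.zero_re]

lemma sum_g (a : ℤ) : ∑ m ∈ Finset.range (P.k * P.n), P.g (m + a) = 0 := by
  have := P.sum_cos_zero P.not_dvd_p ((2 * P.p * a - 1) * (π / P.n))
  rw [← this]
  refine Finset.sum_congr rfl fun m _ => ?_
  unfold g
  congr 1
  push_cast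
  ring

lemma sum_gg (a b : ℤ) : ∑ m ∈ Finset.range (P.k * P.n), P.g (m + a) * P.g (m + b) =
    P.k * P.n * Real.cos (P.p * (a - b) * (2 * π / P.n)) / 2 := by
  have h := P.sum_cos_zero P.not_dvd_2p ((2 * P.p * a - 1) * (π / P.n) + (2 * P.p * b - 1) * (π / P.n))
  have e : ∀ m : ℕ, P.g (m + a) * P.g (m + b) =
      Real.cos (P.p * (a - b) * (2 * π / P.n)) / 2 +
      Real.cos (((2 * P.p : ℤ) : ℝ) * m * (2 * π / P.n) +
        ((2 * P.p * a - 1) * (π / P.n) + (2 * P.p * b - 1) * (π / P.n))) / 2 := by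
    intro m
    unfold g
    set x := (2 * (P.p : ℝ) * ((m + a : ℤ) : ℝ) - 1) * (π / P.n) with hx
    set y := (2 * (P.p : ℝ) * ((m + b : ℤ) : ℝ) - 1) * (π / P.n) with hy
    have e1 : P.p * (a - b) * (2 * π / P.n) = x - y := by rw [hx, hy]; push_cast; ring
    have e2 : ((2 * P.p : ℤ) : ℝ) * m * (2 * π / P.n) +
        ((2 * P.p * a - 1) * (π / P.n) + (2 * P.p * b - 1) * (π / P.n)) = x + y := by
      rw [hx, hy]; push_cast; ring
    rw [e1, e2, Real.cos_sub, Real.cos_add]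
    ring
  simp only [e]
  rw [Finset.sum_add_distrib, ← Finset.sum_div, ← Finset.sum_div, h]
  simp

lemma sum_h (ε : ℝ) (a : ℤ) : ∑ m ∈ Finset.range (P.k * P.n), P.h ε (m + a) =
    P.k * P.n * (P.R * P.C) := by
  unfold h
  have := P.sum_g a
  simp only [mul_add]
  rw [Finset.sum_add_distrib]
  have e : ∑ m ∈ Finset.range (P.k * P.n), P.R * (ε * P.g (m + a)) = 0 := by
    rw [← Finset.mul_sum, ← Finset.mul_sum, this]; ring
  rw [e]
  simp

lemma sum_hh (ε : ℝ) (a b : ℤ) : ∑ m ∈ Finset.range (P.k * P.n), P.h ε (m + a) * P.h ε (m + b) =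
    P.k * P.n * P.R ^ 2 * (P.C ^ 2 + ε ^ 2 * Real.cos (P.p * (a - b) * (2 * π / P.n)) / 2) := by
  unfold h
  have h1 := P.sum_g a
  have h2 := P.sum_g b
  have h3 := P.sum_gg a b
  have e : ∀ m : ℕ, P.R * (P.C + ε * P.g (m + a)) * (P.R * (P.C + ε * P.g (m + b))) =
      P.R ^ 2 * P.C ^ 2 + P.R ^ 2 * P.C * ε * P.g (m + a) + P.R ^ 2 * P.C * ε * P.g (m + b) +
      P.R ^ 2 * ε ^ 2 * (P.g (m + a) * P.g (m + b)) := by intro m; ring
  simp only [e]
  simp only [Finset.sum_add_distrib, ← Finset.mul_sum]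
  rw [h1, h2, h3]
  simp
  ring

/-- the perimeter constant -/
noncomputable def T : ℝ := (1 - Real.cos (P.k * P.δ)) / Real.sin (P.k * P.δ) -
  (1 - Real.cos ((P.k - 1) * P.δ)) / Real.sin ((P.k - 1) * P.δ)

/-- the second order coefficient of the area -/
noncomputable def E : ℝ :=
  (Real.cos ((P.k - 1) * P.δ) - Real.cos ((P.p + 1) * (2 * π / P.n))) / Real.sin ((P.k - 1) * P.δ)

lemma sum_perim (ε : ℝ) : ∑ m ∈ Finset.range (P.k * P.n), (P.l1 ε m + P.l2 ε m) =
    2 * (P.k * P.n) * (P.R * P.C) * P.T := by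
  have s0 := P.sum_h ε 0
  have s1 := P.sum_h ε 1
  have sk := P.sum_h ε P.k
  have sk1 := P.sum_h ε (1 + P.k)
  simp only [add_zero] at s0
  set ck := Real.cos (P.k * P.δ)
  set sk' := Real.sin (P.k * P.δ)
  set cl := Real.cos ((P.k - 1) * P.δ)
  set sl := Real.sin ((P.k - 1) * P.δ)
  have e : ∀ m : ℕ, P.l1 ε m + P.l2 ε m =
      (1 / sk') * P.h ε m - (ck / sk') * P.h ε (m + P.k) - (1 / sl) * P.h ε (m + 1) +
      (cl / sl) * P.h ε (m + P.k) + (1 / sk') * P.h ε (m + (1 + P.k)) - (ck / sk') * P.h ε (m + 1) -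
      (1 / sl) * P.h ε (m + P.k) + (cl / sl) * P.h ε (m + 1) := by
    intro m
    unfold l1 l2
    rw [← add_assoc (m : ℤ) 1 (P.k : ℤ)]
    ring
  simp only [e]
  simp only [Finset.sum_add_distrib, Finset.sum_sub_distrib, ← Finset.mul_sum]
  rw [s0, s1, sk, sk1]
  unfold T
  ring

lemma cos_pk : Real.cos (P.p * P.k * (2 * π / P.n)) = Real.cos (P.k * P.δ) := by
  obtain ⟨z, hz⟩ := P.hp
  have hn0 := P.n0
  have hkp : (P.k : ℝ) * P.p + 1 = P.n * z := by exact_mod_cast hz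
  rw [P.kδ]
  have : (P.p : ℝ) * P.k * (2 * π / P.n) = -(2 * π / P.n) + (z : ℝ) * (2 * π) := by
    field_simp
    linear_combination hkp
  rw [this, Real.cos_add_int_mul_two_pi, Real.cos_neg]

lemma cos_pk1 : Real.cos (P.p * (P.k - 1) * (2 * π / P.n)) =
    Real.cos ((P.p + 1) * (2 * π / P.n)) := by
  obtain ⟨z, hz⟩ := P.hp
  have hn0 := P.n0
  have hkp : (P.k : ℝ) * P.p + 1 = P.n * z := by exact_mod_cast hz
  have : (P.p : ℝ) * (P.k - 1) * (2 * π / P.n) = -((P.p + 1) * (2 * π / P.n)) +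
      (z : ℝ) * (2 * π) := by
    field_simp
    linear_combination hkp
  rw [this, Real.cos_add_int_mul_two_pi, Real.cos_neg]

lemma sum_area (ε : ℝ) : ∑ m ∈ Finset.range (P.k * P.n),
      (P.h ε (m + P.k) * P.l1 ε m + P.h ε (m + 1) * P.l2 ε m) / 2 =
    P.k * P.n * P.R ^ 2 * (P.C ^ 2 * P.T + ε ^ 2 * P.E / 2) := by
  have skk := P.sum_hh ε P.k P.k
  have s11 := P.sum_hh ε 1 1
  have sk0 := P.sum_hh ε P.k 0
  have sk1 := P.sum_hh ε P.k 1
  have s1k1 := P.sum_hh ε (1 + P.k) 1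
  simp only [add_zero, sub_self, mul_zero, zero_mul, Real.cos_zero, mul_one, Int.cast_natCast,
    Int.cast_zero, sub_zero, Int.cast_one, Int.cast_add, add_sub_cancel_left] at skk s11 sk0 sk1 s1k1
  rw [P.cos_pk] at sk0 s1k1
  rw [P.cos_pk1] at sk1
  have e : ∀ m : ℕ, (P.h ε (m + P.k) * P.l1 ε m + P.h ε (m + 1) * P.l2 ε m) / 2 =
      (1 / Real.sin (P.k * P.δ) / 2) * (P.h ε (m + P.k) * P.h ε m) -
      (Real.cos (P.k * P.δ) / Real.sin (P.k * P.δ) / 2) * (P.h ε (m + P.k) * P.h ε (m + P.k)) -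
      (1 / Real.sin ((P.k - 1) * P.δ) / 2) * (P.h ε (m + P.k) * P.h ε (m + 1)) +
      (Real.cos ((P.k - 1) * P.δ) / Real.sin ((P.k - 1) * P.δ) / 2) *
        (P.h ε (m + P.k) * P.h ε (m + P.k)) +
      (1 / Real.sin (P.k * P.δ) / 2) * (P.h ε (m + (1 + P.k)) * P.h ε (m + 1)) -
      (Real.cos (P.k * P.δ) / Real.sin (P.k * P.δ) / 2) * (P.h ε (m + 1) * P.h ε (m + 1)) -
      (1 / Real.sin ((P.k - 1) * P.δ) / 2) * (P.h ε (m + P.k) * P.h ε (m + 1)) +
      (Real.cos ((P.k - 1) * P.δ) / Real.sin ((P.k - 1) * P.δ) / 2) *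
        (P.h ε (m + 1) * P.h ε (m + 1)) := by
    intro m
    unfold l1 l2
    rw [← add_assoc (m : ℤ) 1 (P.k : ℤ)]
    ring
  simp only [e]
  simp only [Finset.sum_add_distrib, Finset.sum_sub_distrib, ← Finset.mul_sum]
  rw [skk, s11, sk0, sk1, s1k1]
  unfold T E
  ring

lemma T_pos : 0 < P.T := by
  -- `(1 - cos x) / sin x = tan (x / 2)` is increasing
  have hδ := P.δ0
  have hk2 := P.k2
  have hπ := Real.pi_pos
  have key : ∀ x : ℝ, 0 < x → x < π → (1 - Real.cos x) / Real.sin x = Real.tan (x / 2) := by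
    intro x h0 h1
    have hs : 0 < Real.sin (x / 2) := Real.sin_pos_of_pos_of_lt_pi (by linarith) (by linarith)
    have hc : 0 < Real.cos (x / 2) := Real.cos_pos_of_mem_Ioo ⟨by linarith, by linarith⟩
    have e1 : Real.cos x = 2 * Real.cos (x / 2) ^ 2 - 1 := by
      rw [← Real.cos_two_mul]; congr 1; ring
    have e2 : Real.sin x = 2 * Real.sin (x / 2) * Real.cos (x / 2) := by
      rw [← Real.sin_two_mul]; congr 1; ring
    rw [Real.tan_eq_sin_div_cos, e1, e2, div_eq_div_iff (by positivity) hc.ne']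
    have := Real.sin_sq_add_cos_sq (x / 2)
    linear_combination (2 * Real.cos (x / 2)) * (-1 : ℝ) * this
  have hkδ : P.k * P.δ < π := by
    rw [P.kδ, div_lt_iff₀ P.n0]; nlinarith [P.n3]
  unfold T
  rw [key _ (by have := P.k0; positivity) hkδ,
    key ((P.k - 1) * P.δ) (by have : (0 : ℝ) < P.k - 1 := by linarith
                              positivity) (by nlinarith)]
  have : Real.tan ((P.k - 1) * P.δ / 2) < Real.tan (P.k * P.δ / 2) := by
    apply Real.tan_lt_tan_of_nonneg_of_lt_pi_div_two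
    · have : (0 : ℝ) < P.k - 1 := by linarith
      positivity
    · linarith
    · nlinarith
  linarith

/-- ratio of the union -/
noncomputable def ratio (ε : ℝ) : ℝ :=
  ((Measure.hausdorffMeasure (1 : ℝ) : Measure ℂ) (frontier {x | P.F ε x ≤ 1})).toReal /
    (volume {x | P.F ε x ≤ 1}).toReal

lemma ratio_eq (hg : P.Good ε) : P.ratio ε =
    2 * (P.R * P.C) * P.T / (P.R ^ 2 * (P.C ^ 2 * P.T + ε ^ 2 * P.E / 2)) ∧
    0 < P.C ^ 2 * P.T + ε ^ 2 * P.E / 2 := by
  have hk0 := P.k0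
  have hn0 := P.n0
  have hR := P.hR
  have hC := P.C0
  have hT := P.T_pos
  have hpos : 0 < ∑ m ∈ Finset.range (P.k * P.n),
      (P.h ε (m + P.k) * P.l1 ε m + P.h ε (m + 1) * P.l2 ε m) / 2 := by
    have hk := P.hk
    have hn := P.hn
    apply Finset.sum_pos
    · intro m hm
      have hm' := Finset.mem_range.1 hm
      have h1 := P.l1_pos hg m hm'
      have h2 := P.l2_pos hg m hm'
      have h3 := P.h_pos hg.h0 (m + P.k)
      have h4 := P.h_pos hg.h0 (m + 1)
      positivity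
    · exact ⟨0, Finset.mem_range.2 (by positivity)⟩
  have hpos' := hpos
  rw [P.sum_area] at hpos'
  have hq : 0 < P.C ^ 2 * P.T + ε ^ 2 * P.E / 2 := by
    have : 0 < P.k * P.n * P.R ^ 2 := by positivity
    exact (pos_iff_pos_of_mul_pos hpos').1 this
  refine ⟨?_, hq⟩
  unfold ratio
  rw [P.perim hg, P.area hg, P.sum_perim, ENNReal.toReal_ofReal (by positivity),
    ENNReal.toReal_ofReal hpos.le, P.sum_area]
  rw [div_eq_div_iff (by positivity) (by positivity)]
  ring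

/-- comparison with the ratio `2 / (R C)` of a single polygon -/
lemma ratio_gt_iff (hg : P.Good ε) (hε : ε ≠ 0) : 2 / (P.R * P.C) < P.ratio ε ↔ P.E < 0 := by
  obtain ⟨h1, h2⟩ := P.ratio_eq hg
  have hR := P.hR
  have hC := P.C0
  have hT := P.T_pos
  have hε2 : 0 < ε ^ 2 := by positivity
  rw [h1, div_lt_div_iff₀ (by positivity) (by positivity)]
  have e1 : 2 * (P.R ^ 2 * (P.C ^ 2 * P.T + ε ^ 2 * P.E / 2)) =
      2 * P.R ^ 2 * P.C ^ 2 * P.T + P.R ^ 2 * ε ^ 2 * P.E := by ring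
  have e2 : 2 * (P.R * P.C) * P.T * (P.R * P.C) = 2 * P.R ^ 2 * P.C ^ 2 * P.T := by ring
  rw [e1, e2]
  have h3 : 0 < P.R ^ 2 * ε ^ 2 := by positivity
  constructor
  · intro h
    by_contra hcon
    push Not at hcon
    have := mul_nonneg h3.le hcon
    linarith
  · intro h
    have := mul_neg_of_pos_of_neg h3 h
    linarith

lemma E_neg_iff : P.E < 0 ↔ (P.n : ℤ) ∣ P.p + 1 := by
  have hδ := P.δ0
  have hk2 := P.k2
  have hπ := Real.pi_pos
  have hn0 := P.n0
  have hn3 := P.n3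
  have hkδ : P.k * P.δ < π := by
    rw [P.kδ, div_lt_iff₀ P.n0]; nlinarith [P.n3]
  have hs : 0 < Real.sin ((P.k - 1) * P.δ) := by
    apply Real.sin_pos_of_pos_of_lt_pi
    · have : (0 : ℝ) < P.k - 1 := by linarith
      positivity
    · nlinarith
  unfold E
  rw [div_lt_iff₀ hs, zero_mul, sub_neg]
  constructor
  · intro h
    by_contra hcon
    -- then `cos ((p+1) 2π/n) ≤ cos (2π/n) < cos ((k-1) δ)`
    have h1 : Real.cos ((P.p + 1) * (2 * π / P.n)) ≤ Real.cos (2 * π / P.n) := by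
      have hn := P.hn
      have hn' : (0 : ℤ) < P.n := by omega
      set q : ℤ := (P.p + 1) % P.n with hq
      have hq0 : 0 ≤ q := Int.emod_nonneg _ hn'.ne'
      have hq1 : q < P.n := Int.emod_lt_of_pos _ hn'
      have hqne : q ≠ 0 := fun h => hcon (Int.dvd_of_emod_eq_zero h)
      have hz : P.p + 1 = q + P.n * ((P.p + 1) / P.n) := (Int.emod_add_mul_ediv _ _).symm
      have hz' : (P.p : ℝ) + 1 = q + P.n * (((P.p + 1) / P.n : ℤ) : ℝ) := by exact_mod_cast hz
      have e : ((P.p : ℝ) + 1) * (2 * π / P.n) = q * (2 * π / P.n) +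
          (((P.p + 1) / P.n : ℤ) : ℝ) * (2 * π) := by
        rw [hz']; field_simp
      rw [e, Real.cos_add_int_mul_two_pi]
      have hq1' : (1 : ℝ) ≤ q := by
        have : 1 ≤ q := by omega
        exact_mod_cast this
      have hq2' : (q : ℝ) + 1 ≤ P.n := by exact_mod_cast hq1
      have hw : 0 < 2 * π / P.n := by positivity
      have hw2 : P.n * (2 * π / P.n) = 2 * π := by field_simp
      by_cases hle : (q : ℝ) * (2 * π / P.n) ≤ π
      · apply Real.cos_le_cos_of_nonneg_of_le_pi hw.le hle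
        nlinarith
      · push Not at hle
        rw [← Real.cos_two_pi_sub ((q : ℝ) * (2 * π / P.n))]
        apply Real.cos_le_cos_of_nonneg_of_le_pi hw.le (by linarith)
        nlinarith
    have h2 : Real.cos (2 * π / P.n) < Real.cos ((P.k - 1) * P.δ) := by
      rw [← P.kδ]
      apply Real.cos_lt_cos_of_nonneg_of_le_pi
      · have : (0 : ℝ) ≤ P.k - 1 := by linarith
        positivity
      · exact hkδ.le
      · nlinarith
    linarith
  · rintro ⟨z, hz⟩
    have e : ((P.p : ℝ) + 1) * (2 * π / P.n) = (z : ℝ) * (2 * π) := by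
      have : (P.p : ℝ) + 1 = P.n * z := by exact_mod_cast hz
      rw [this]; field_simp
    rw [e, Real.cos_int_mul_two_pi]
    have : Real.cos ((P.k - 1) * P.δ) < Real.cos 0 := by
      apply Real.cos_lt_cos_of_nonneg_of_le_pi le_rfl
      · nlinarith
      · have : (0 : ℝ) < P.k - 1 := by linarith
        positivity
    rwa [Real.cos_zero] at this

end Par

end Pool.Agent.X147.SP
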