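import Mathlib
import Pool.Agent.X147.SetD

set_option autoImplicit false

/-! # Shifted `(k, n)`-setups -/

open MeasureTheory Set Complex Filter Topology
open scoped ENNReal Real

namespace Pool.Agent.X147.SP

/-- The union of the translated polygons: the `i`-th one is the regular `n`-gon centred at the
origin with vertex `A i`, translated by `ε • A i`. -/
noncomputable def shiftedUnion {k : ℕ} (n : ℕ) (A : Fin k → ℂ) (ε : ℝ) : Set ℂ :=
  ⋃ i, (fun x => ε • A i + x) '' convexHull ℝ (verts n (A i))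

/-- perimeter divided by area -/
noncomputable def ratioOf (U : Set ℂ) : ℝ :=
  ((Measure.hausdorffMeasure (1 : ℝ) : Measure ℂ) (frontier U)).toReal / (volume U).toReal

/-- A basic `(k, n)`-setup with a marked vertex in each polygon. -/
structure IsMarkedBasicSetup (k n : ℕ) (A : Fin k → ℂ) : Prop where
  side : ∀ i, ‖A i * Complex.exp (2 * π * I / n) - A i‖ = 1
  all : ∃ w : ℂ, (⋃ i, verts n (A i)) = verts (k * n) w
  marked : ∃ w : ℂ, range A = verts k w

lemma norm_of_side {n : ℕ} (hn : 3 ≤ n) {z : ℂ} (h : ‖z * Complex.exp (2 * π * I / n) - z‖ = 1) :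
    ‖z‖ = 1 / (2 * Real.sin (π / n)) := by
  have hn0 : (0 : ℝ) < n := by exact_mod_cast (by omega : 0 < n)
  have hn3 : (3 : ℝ) ≤ n := by exact_mod_cast hn
  have hπ := Real.pi_pos
  have hs : 0 < Real.sin (π / n) := by
    apply Real.sin_pos_of_pos_of_lt_pi (by positivity)
    rw [div_lt_iff₀ hn0]; nlinarith
  have e1 : Complex.exp (2 * π * I / n) = cis (2 * π / n) := by
    simp only [cis]; push_cast; congr 1; ring
  have e2 : z * Complex.exp (2 * π * I / n) - z = z * (cis (π / n) * ((2 * Real.sin (π / n) : ℝ) * I)) := by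
    rw [e1]
    have : cis (2 * π / n) = cis (π / n) * cis (π / n) := by rw [← cis_add]; congr 1; ring
    rw [this]
    have h2 : (1 : ℂ) = cis (π / n) * cis (-(π / n)) := by rw [← cis_add]; simp [cis_zero]
    have h3 : cis (π / n) - cis (-(π / n)) = (2 * Real.sin (π / n) : ℝ) * I := by
      apply Complex.ext
      · simp only [Complex.sub_re, cis_re, Real.cos_neg, sub_self, Complex.re_ofReal_mul,
          Complex.I_re, mul_zero]
      · simp only [Complex.sub_im, cis_im, Real.sin_neg, Complex.im_ofReal_mul, Complex.I_im]; ring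
    rw [← h3]
    linear_combination (-z) * h2
  rw [e2, norm_mul, norm_mul, norm_mul, norm_cis, Complex.norm_I, Complex.norm_real,
    Real.norm_of_nonneg (by positivity)] at h
  field_simp
  linarith

lemma rho_eq {n : ℕ} (hn : 3 ≤ n) {R : ℝ} (hR : R = 1 / (2 * Real.sin (π / n))) :
    2 / (R * Real.cos (π / n)) = 4 * Real.tan (π / n) := by
  have hn0 : (0 : ℝ) < n := by exact_mod_cast (by omega : 0 < n)
  have hn3 : (3 : ℝ) ≤ n := by exact_mod_cast hn
  have hπ := Real.pi_pos
  have hs : 0 < Real.sin (π / n) := by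
    apply Real.sin_pos_of_pos_of_lt_pi (by positivity)
    rw [div_lt_iff₀ hn0]; nlinarith
  have hc : 0 < Real.cos (π / n) := by
    apply Real.cos_pos_of_mem_Ioo
    constructor
    · have : 0 < π / n := by positivity
      linarith
    · rw [div_lt_div_iff₀ hn0 (by norm_num)]; nlinarith
  rw [hR, Real.tan_eq_sin_div_cos]
  field_simp
  norm_num

lemma exp_cis' (k l : ℕ) : Complex.exp (2 * π * I * l / k) = cis (2 * π * l / k) := exp_cis k l

/-- The union of a shifted setup in terms of the gauge. -/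
lemma shiftedUnion_eq {k n : ℕ} (hk : 2 ≤ k) (hn : 3 ≤ n) (hcop : Nat.Coprime k n)
    {A : Fin k → ℂ} (hA : IsMarkedBasicSetup k n A) :
    ∃ P : Par, P.k = k ∧ P.n = n ∧ P.R = 1 / (2 * Real.sin (π / n)) ∧
      ∀ ε : ℝ, |ε| < P.C → shiftedUnion n A ε = {x | P.F ε x ≤ 1} := by
  obtain ⟨w, hw⟩ := hA.marked
  have hn0 : (0 : ℝ) < n := by exact_mod_cast (by omega : 0 < n)
  have hk0 : (0 : ℝ) < k := by exact_mod_cast (by omega : 0 < k)
  have hn3 : (3 : ℝ) ≤ n := by exact_mod_cast hn
  have hπ := Real.pi_pos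
  have hs : 0 < Real.sin (π / n) := by
    apply Real.sin_pos_of_pos_of_lt_pi (by positivity)
    rw [div_lt_iff₀ hn0]; nlinarith
  -- every vertex has the right norm
  have hwR : ‖w‖ = 1 / (2 * Real.sin (π / n)) := by
    have : w ∈ range A := by rw [hw]; exact ⟨0, by simp⟩
    obtain ⟨i, hi⟩ := this
    rw [← hi]
    exact norm_of_side hn (hA.side i)
  set R : ℝ := 1 / (2 * Real.sin (π / n)) with hR
  have hR0 : 0 < R := by rw [hR]; positivity
  set α := Complex.arg w with hα
  have hwα : w = R * cis α := by rw [← hwR]; exact eq_norm_cis_arg w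
  -- Bezout
  have hcop' : IsCoprime (k : ℤ) (n : ℤ) := Nat.isCoprime_iff_coprime.2 hcop
  obtain ⟨a, b, hab⟩ := hcop'
  let P : Par :=
    { k := k, n := n, p := -a, β := α + π / n, R := R, hk := hk, hn := hn,
      hp := ⟨b, by linarith⟩, hR := hR0 }
  refine ⟨P, rfl, rfl, rfl, fun ε hε => ?_⟩
  have hPk : P.k = k := rfl
  have hPn : P.n = n := rfl
  have hPδ : P.δ = 2 * π / (k * n) := rfl
  have hPC : P.C = Real.cos (π / n) := rfl
  -- support numbers
  have hh : ∀ l j : ℤ, P.h ε (n * l + k * j) = R * (Real.cos (π / n) + ε * Real.cos ((2 * j + 1) * (π / n))) := by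
    intro l j
    unfold Par.h Par.g
    rw [hPC, hPn]
    congr 3
    have hab' : (a : ℝ) * k + b * n = 1 := by exact_mod_cast hab
    have : (2 * ((P.p : ℤ) : ℝ) * ((n * l + k * j : ℤ) : ℝ) - 1) * (π / n) =
        -((2 * j + 1) * (π / n)) + ((-a * l + b * j : ℤ) : ℝ) * (2 * π) := by
      change (2 * ((-a : ℤ) : ℝ) * ((n * l + k * j : ℤ) : ℝ) - 1) * (π / n) = _
      push_cast
      field_simp
      linear_combination (-2 * (j : ℝ)) * hab'
    rw [this, Real.cos_add_int_mul_two_pi, Real.cos_neg]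
  have hth : ∀ l j : ℤ, P.th (n * l + k * j) = α + 2 * π * l / k + π / n + 2 * π * j / n := by
    intro l j
    unfold Par.th
    rw [hPδ]
    change α + π / n + _ = _
    push_cast
    field_simp
    ring
  -- membership in one polygon
  have key : ∀ (l : ℕ) (x : ℂ), (x ∈ (fun y => ε • (w * Complex.exp (2 * π * I * l / k)) + y) ''
      convexHull ℝ (verts n (w * Complex.exp (2 * π * I * l / k)))) ↔
      ∀ j : ℕ, P.G ε (n * l + k * j) x ≤ 1 := by
    intro l x
    have hv : w * Complex.exp (2 * π * I * l / k) = R * cis (α + 2 * π * l / k) := by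
      rw [exp_cis', hwα, mul_assoc, ← cis_add]
    rw [hv, hull_eq n hn hR0]
    have himg : (x ∈ (fun y => ε • (R * cis (α + 2 * π * l / k) : ℂ) + y) ''
        {x | ∀ j : ℕ, (x * cis (-(α + 2 * π * l / k + π / n + 2 * π * j / n))).re ≤
          R * Real.cos (π / n)}) ↔
        ∀ j : ℕ, ((x - ε • (R * cis (α + 2 * π * l / k) : ℂ)) *
          cis (-(α + 2 * π * l / k + π / n + 2 * π * j / n))).re ≤ R * Real.cos (π / n) := by
      constructor
      · rintro ⟨y, hy, rfl⟩ j
        have := hy j
        simpa using this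
      · intro h
        exact ⟨x - ε • (R * cis (α + 2 * π * l / k) : ℂ), h, by simp⟩
    rw [himg]
    refine forall_congr' fun j => ?_
    have hpos := P.h_pos hε (n * l + k * j)
    unfold Par.G
    rw [div_le_one hpos]
    have e1 := hh l j
    have e2 := hth l j
    simp only [Int.cast_natCast] at e1 e2
    rw [e1, e2, sub_mul, Complex.sub_re]
    have e3 : (ε • (R * cis (α + 2 * π * l / k) : ℂ) *
        cis (-(α + 2 * π * l / k + π / n + 2 * π * j / n))).re =
        ε * (R * Real.cos ((2 * j + 1) * (π / n))) := by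
      rw [Complex.real_smul, mul_assoc, mul_assoc, ← cis_add, Complex.re_ofReal_mul,
        Complex.re_ofReal_mul, cis_re]
      congr 2
      rw [← Real.cos_neg]
      congr 1
      ring
    rw [e3]
    constructor <;> intro h <;> linarith
  ext x
  simp only [Set.mem_ofPred_eq]
  rw [P.F_le_one_iff]
  unfold shiftedUnion
  rw [mem_iUnion]
  constructor
  · rintro ⟨i, hi⟩
    have : A i ∈ verts k w := by rw [← hw]; exact mem_range_self i
    obtain ⟨l, hl⟩ := this
    rw [hl, key] at hi
    refine ⟨n * l, fun q => ?_⟩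
    have hn' : (0 : ℤ) < n := by omega
    have h0 : 0 ≤ q % n := Int.emod_nonneg _ hn'.ne'
    have hq : q = q % n + n * (q / n) := (Int.emod_add_mul_ediv _ _).symm
    have e : P.G ε (n * l + P.k * q) x = P.G ε (n * l + k * ((q % n).toNat : ℤ)) x := by
      rw [Int.toNat_of_nonneg h0]
      have := P.G_period ε (n * l + k * (q % n)) (q / n) x
      rw [← this]
      congr 1
      rw [hPk, hPn]
      conv_lhs => rw [hq]
      ring
    rw [e]
    exact hi _
  · rintro ⟨c, hc⟩
    have hk' : (0 : ℤ) < k := by omega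
    have h0 : 0 ≤ (b * c) % k := Int.emod_nonneg _ hk'.ne'
    set l : ℕ := ((b * c) % k).toNat with hl
    have hl' : (l : ℤ) = (b * c) % k := by rw [hl, Int.toNat_of_nonneg h0]
    have hmem : w * Complex.exp (2 * π * I * l / k) ∈ range A := by rw [hw]; exact ⟨l, rfl⟩
    obtain ⟨i, hi⟩ := hmem
    refine ⟨i, ?_⟩
    rw [hi, key]
    intro j
    have hbc : (b * c) = (l : ℤ) + k * ((b * c) / k) := by
      rw [hl']; exact (Int.emod_add_mul_ediv _ _).symm
    have e : (n : ℤ) * l + k * j = c + P.k * (j - a * c - n * ((b * c) / k)) := by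
      rw [hPk]
      have h1 : (n : ℤ) * l = n * (b * c) - n * (k * ((b * c) / k)) := by
        have := hbc
        rw [← mul_sub]; congr 1; linarith
      rw [h1]
      linear_combination (c : ℤ) * hab
    rw [e]
    exact hc _

/-- Existence of marked basic setups. -/
lemma exists_setup {k n : ℕ} (hk : 1 ≤ k) (hn : 3 ≤ n) (hcop : Nat.Coprime k n) :
    ∃ A : Fin k → ℂ, IsMarkedBasicSetup k n A := by
  have hn0 : (0 : ℝ) < n := by exact_mod_cast (by omega : 0 < n)
  have hk0 : (0 : ℝ) < k := by exact_mod_cast (by omega : 0 < k)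
  have hn3 : (3 : ℝ) ≤ n := by exact_mod_cast hn
  have hπ := Real.pi_pos
  have hs : 0 < Real.sin (π / n) := by
    apply Real.sin_pos_of_pos_of_lt_pi (by positivity)
    rw [div_lt_iff₀ hn0]; nlinarith
  have hk0' : (k : ℂ) ≠ 0 := by exact_mod_cast (by omega : k ≠ 0)
  have hn0' : (n : ℂ) ≠ 0 := by exact_mod_cast (by omega : n ≠ 0)
  set R : ℝ := 1 / (2 * Real.sin (π / n)) with hR
  have hcop' : IsCoprime (k : ℤ) (n : ℤ) := Nat.isCoprime_iff_coprime.2 hcop
  obtain ⟨a, b, hab⟩ := hcop'
  refine ⟨fun i => R * Complex.exp (2 * π * I * (i : ℕ) / k), ?_, ⟨R, ?_⟩, ⟨R, ?_⟩⟩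
  · intro i
    have e1 : Complex.exp (2 * π * I / n) = cis (2 * π / n) := by
      simp only [cis]; push_cast; congr 1; ring
    have e2 : cis (2 * π / n) - 1 = cis (π / n) * ((2 * Real.sin (π / n) : ℝ) * I) := by
      have : cis (2 * π / n) = cis (π / n) * cis (π / n) := by rw [← cis_add]; congr 1; ring
      rw [this]
      have h2 : (1 : ℂ) = cis (π / n) * cis (-(π / n)) := by rw [← cis_add]; simp [cis_zero]
      have h3 : cis (π / n) - cis (-(π / n)) = (2 * Real.sin (π / n) : ℝ) * I := by
        apply Complex.ext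
        · simp only [Complex.sub_re, cis_re, Real.cos_neg, sub_self, Complex.re_ofReal_mul,
            Complex.I_re, mul_zero]
        · simp only [Complex.sub_im, cis_im, Real.sin_neg, Complex.im_ofReal_mul, Complex.I_im]; ring
      rw [← h3]
      linear_combination (-1 : ℂ) * h2
    have e3 : (R : ℂ) * Complex.exp (2 * π * I * (i : ℕ) / k) * Complex.exp (2 * π * I / n) -
        R * Complex.exp (2 * π * I * (i : ℕ) / k) =
        R * cis (2 * π * (i : ℕ) / k) * (cis (π / n) * ((2 * Real.sin (π / n) : ℝ) * I)) := by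
      rw [← e2, e1, exp_cis']; ring
    rw [e3]
    simp only [norm_mul, norm_cis, Complex.norm_I, Complex.norm_real, mul_one, one_mul]
    rw [Real.norm_of_nonneg (by rw [hR]; positivity), Real.norm_of_nonneg (by positivity), hR]
    field_simp
    exact Real.norm_of_nonneg hs.le
  · -- all vertices
    have red : ∀ (N : ℕ) (z : ℤ), 1 ≤ N → ∃ m : ℕ,
        Complex.exp (2 * π * I * z / N) = Complex.exp (2 * π * I * m / N) ∧ (m : ℤ) = z % N := by
      intro N z hN
      have hN' : (0 : ℤ) < N := by omega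
      have h0 : 0 ≤ z % N := Int.emod_nonneg _ hN'.ne'
      refine ⟨(z % N).toNat, ?_, Int.toNat_of_nonneg h0⟩
      have hz : (z : ℂ) = (((z % N).toNat : ℕ) : ℂ) + N * ((z / N : ℤ) : ℂ) := by
        have h1 : z = ((z % N).toNat : ℤ) + N * (z / N) := by
          rw [Int.toNat_of_nonneg h0]; exact (Int.emod_add_mul_ediv _ _).symm
        exact_mod_cast h1
      have hNc : (N : ℂ) ≠ 0 := by exact_mod_cast (by omega : N ≠ 0)
      rw [hz]
      rw [show 2 * (π : ℂ) * I * ((((z % N).toNat : ℕ) : ℂ) + N * ((z / N : ℤ) : ℂ)) / N =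
        2 * π * I * (((z % N).toNat : ℕ) : ℂ) / N + ((z / N : ℤ) : ℂ) * (2 * π * I) by
          field_simp, Complex.exp_add, Complex.exp_int_mul_two_pi_mul_I, mul_one]
    ext v
    simp only [mem_iUnion, verts, Set.mem_ofPred_eq]
    constructor
    · rintro ⟨i, j, rfl⟩
      refine ⟨n * i + k * j, ?_⟩
      rw [mul_assoc, ← Complex.exp_add]
      congr 2
      push_cast
      field_simp
    · rintro ⟨m, rfl⟩
      -- m = n (b m) + k (a m)
      obtain ⟨i, hi, hi'⟩ := red k (b * m) hk
      obtain ⟨j, hj, -⟩ := red n (a * m) (by omega)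
      have hik : i < k := by
        have hk' : (0 : ℤ) < k := by omega
        have := Int.emod_lt_of_pos (b * m) hk'
        rw [← hi'] at this
        exact_mod_cast this
      refine ⟨⟨i, hik⟩, j, ?_⟩
      simp only
      rw [← hi, ← hj, mul_assoc (R : ℂ), ← Complex.exp_add]
      congr 2
      have hab' : (a : ℂ) * k + b * n = 1 := by exact_mod_cast hab
      push_cast
      field_simp
      linear_combination (-(m : ℂ)) * hab'
  · ext v
    simp only [mem_range, verts, Set.mem_ofPred_eq]
    constructor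
    · rintro ⟨i, rfl⟩
      exact ⟨i, rfl⟩
    · rintro ⟨l, rfl⟩
      refine ⟨⟨l % k, Nat.mod_lt _ (by omega)⟩, ?_⟩
      simp only
      congr 1
      have hl : (l : ℂ) = ((l % k : ℕ) : ℂ) + k * ((l / k : ℕ) : ℂ) := by
        exact_mod_cast (Nat.mod_add_div l k).symm
      conv_rhs => rw [hl]
      rw [show 2 * (π : ℂ) * I * (((l % k : ℕ) : ℂ) + k * ((l / k : ℕ) : ℂ)) / k =
        2 * π * I * ((l % k : ℕ) : ℂ) / k + ((l / k : ℕ) : ℂ) * (2 * π * I) by
          field_simp, Complex.exp_add, Complex.exp_nat_mul_two_pi_mul_I, mul_one]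

end Pool.Agent.X147.SP
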