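import Mathlib
import Pool.Agent.X147.SetE

set_option autoImplicit false

/-! # The case `k = 1` and the final equivalence -/

open MeasureTheory Set Complex Filter Topology
open scoped ENNReal Real

namespace Pool.Agent.X147.SP

lemma ne_range {n : ℕ} (hn : 3 ≤ n) : (Finset.range n).Nonempty := ⟨0, by simp; omega⟩

/-- gauge of a regular polygon -/
noncomputable def Freg (n : ℕ) (hn : 3 ≤ n) (R α : ℝ) (x : ℂ) : ℝ :=
  (Finset.range n).sup' (ne_range hn)
    (fun j => (x * cis (-(α + π / n + 2 * π * j / n))).re / (R * Real.cos (π / n)))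

lemma cosn_pos {n : ℕ} (hn : 3 ≤ n) : 0 < Real.cos (π / n) := by
  have hn0 : (0 : ℝ) < n := by exact_mod_cast (by omega : 0 < n)
  have hn3 : (3 : ℝ) ≤ n := by exact_mod_cast hn
  have hπ := Real.pi_pos
  apply Real.cos_pos_of_mem_Ioo
  constructor
  · have : 0 < π / n := by positivity
    linarith
  · rw [div_lt_div_iff₀ hn0 (by norm_num)]; nlinarith

lemma sinn_pos {n : ℕ} (hn : 3 ≤ n) : 0 < Real.sin (π / n) := by
  have hn0 : (0 : ℝ) < n := by exact_mod_cast (by omega : 0 < n)
  have hn3 : (3 : ℝ) ≤ n := by exact_mod_cast hn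
  have hπ := Real.pi_pos
  apply Real.sin_pos_of_pos_of_lt_pi (by positivity)
  rw [div_lt_iff₀ hn0]; nlinarith

/-- the regular polygon as a star-shaped polygon -/
noncomputable def starReg (n : ℕ) (hn : 3 ≤ n) (R α : ℝ) (hR : 0 < R) : StarPoly where
  N := n
  a i := α + 2 * π * i / n
  r _ := R
  F := Freg n hn R α
  hN := by omega
  mono i _ := by
    have hn0 : (0 : ℝ) < n := by exact_mod_cast (by omega : 0 < n)
    have : 2 * π * (i : ℝ) / n < 2 * π * ((i + 1 : ℕ) : ℝ) / n := by
      apply div_lt_div_of_pos_right _ hn0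
      push_cast; nlinarith [Real.pi_pos]
    linarith
  gap i _ := by
    have hn0 : (0 : ℝ) < n := by exact_mod_cast (by omega : 0 < n)
    have hn3 : (3 : ℝ) ≤ n := by exact_mod_cast hn
    have : α + 2 * π * ((i + 1 : ℕ) : ℝ) / n - (α + 2 * π * (i : ℝ) / n) = 2 * π / n := by
      push_cast; field_simp; ring
    rw [this, div_lt_iff₀ hn0]; nlinarith [Real.pi_pos]
  aN := by
    have hn0 : (n : ℝ) ≠ 0 := by exact_mod_cast (by omega : n ≠ 0)
    simp; field_simp
  rpos _ := hR
  rN := rfl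
  hc := by
    unfold Freg
    refine Continuous.finset_sup'_apply (ne_range hn) fun j _ => ?_
    exact (Complex.continuous_re.comp (by fun_prop)).div_const _
  hF i hi s t hs ht := by
    have hn0 : (0 : ℝ) < n := by exact_mod_cast (by omega : 0 < n)
    have hRC : 0 < R * Real.cos (π / n) := mul_pos hR (cosn_pos hn)
    have hval : ∀ j : ℕ, ((s * (R * cis (α + 2 * π * i / n)) +
        t * (R * cis (α + 2 * π * ((i + 1 : ℕ) : ℝ) / n))) *
        cis (-(α + π / n + 2 * π * j / n))).re =
        s * (R * Real.cos ((2 * ((i : ℤ) - j - 1 : ℤ) + 1) * π / n)) +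
        t * (R * Real.cos ((2 * ((i : ℤ) - j : ℤ) + 1) * π / n)) := by
      intro j
      have g1 : (s : ℂ) * (R * cis (α + 2 * π * i / n)) * cis (-(α + π / n + 2 * π * j / n)) =
          (s : ℂ) * ((R : ℂ) * cis ((2 * ((i : ℤ) - j - 1 : ℤ) + 1) * π / n)) := by
        rw [mul_assoc, mul_assoc, ← cis_add]
        congr 3
        push_cast; field_simp; ring
      have g2 : (t : ℂ) * (R * cis (α + 2 * π * ((i + 1 : ℕ) : ℝ) / n)) *
          cis (-(α + π / n + 2 * π * j / n)) =
          (t : ℂ) * ((R : ℂ) * cis ((2 * ((i : ℤ) - j : ℤ) + 1) * π / n)) := by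
        rw [mul_assoc, mul_assoc, ← cis_add]
        congr 3
        push_cast; field_simp; ring
      rw [add_mul, Complex.add_re, g1, g2]
      simp only [Complex.re_ofReal_mul, cis_re]
    apply le_antisymm
    · refine Finset.sup'_le _ _ fun j _ => ?_
      rw [div_le_iff₀ hRC, hval j]
      have h1 := cos_odd_le n (by omega) ((i : ℤ) - j - 1)
      have h2 := cos_odd_le n (by omega) ((i : ℤ) - j)
      have h3 := mul_le_mul_of_nonneg_left (mul_le_mul_of_nonneg_left h1 hR.le) hs
      have h4 := mul_le_mul_of_nonneg_left (mul_le_mul_of_nonneg_left h2 hR.le) ht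
      linarith
    · refine le_trans ?_ (Finset.le_sup' (f := fun j : ℕ => ((s * (R * cis (α + 2 * π * i / n)) +
        t * (R * cis (α + 2 * π * ((i + 1 : ℕ) : ℝ) / n))) *
        cis (-(α + π / n + 2 * π * j / n))).re / (R * Real.cos (π / n))) (Finset.mem_range.2 hi))
      rw [le_div_iff₀ hRC, hval i]
      have e1 : (2 * (((i : ℤ) - i - 1 : ℤ) : ℝ) + 1) * π / n = -(π / n) := by push_cast; ring
      have e2 : (2 * (((i : ℤ) - i : ℤ) : ℝ) + 1) * π / n = π / n := by push_cast; ring
      rw [e1, e2, Real.cos_neg]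
      apply le_of_eq; ring

lemma hull_eq_star (n : ℕ) (hn : 3 ≤ n) {R : ℝ} (hR : 0 < R) (α : ℝ) :
    convexHull ℝ (verts n (R * cis α)) = (starReg n hn R α hR).U := by
  rw [hull_eq n hn hR]
  ext x
  have hn0 : (0 : ℝ) < n := by exact_mod_cast (by omega : 0 < n)
  have hRC : 0 < R * Real.cos (π / n) := mul_pos hR (cosn_pos hn)
  simp only [StarPoly.U, starReg, Freg, Set.mem_ofPred_eq, Finset.sup'_le_iff, Finset.mem_range,
    div_le_one hRC]
  constructor
  · intro h j _; exact h j
  · intro h j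
    have := h (j % n) (Nat.mod_lt _ (by omega))
    have e : cis (-(α + π / n + 2 * π * j / n)) =
        cis (-(α + π / n + 2 * π * ((j % n : ℕ) : ℝ) / n)) := by
      have hj : (j : ℝ) = ((j % n : ℕ) : ℝ) + n * ((j / n : ℕ) : ℝ) := by
        exact_mod_cast (Nat.mod_add_div j n).symm
      have : -(α + π / n + 2 * π * j / n) = -(α + π / n + 2 * π * ((j % n : ℕ) : ℝ) / n) +
          ((-((j / n : ℕ) : ℤ) : ℤ) : ℝ) * (2 * π) := by
        conv_lhs => rw [hj]
        simp only [Int.cast_neg, Int.cast_natCast]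
        field_simp
        ring
      rw [this, cis_int]
    rw [e]
    exact this

/-- The ratio of a single regular polygon. -/
lemma ratio_single (n : ℕ) (hn : 3 ≤ n) {R : ℝ} (hR : 0 < R) (α : ℝ) :
    ratioOf (convexHull ℝ (verts n (R * cis α))) = 2 / (R * Real.cos (π / n)) := by
  have hs := sinn_pos hn
  have hc := cosn_pos hn
  have hn0 : (0 : ℝ) < n := by exact_mod_cast (by omega : 0 < n)
  rw [hull_eq_star n hn hR α]
  unfold ratioOf
  set S := starReg n hn R α hR with hS
  rw [S.length, S.area]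
  have hu : ∀ i, S.u i = R * cis (α + 2 * π * i / n) := fun i => rfl
  have e1 : ∀ i, edist (S.u i) (S.u (i + 1)) = ENNReal.ofReal (2 * R * Real.sin (π / n)) := by
    intro i
    rw [edist_dist, dist_eq_norm, hu, hu]
    congr 1
    have h1 : (R * cis (α + 2 * π * i / n) : ℂ) - R * cis (α + 2 * π * ((i + 1 : ℕ) : ℝ) / n) =
        R * cis (α + 2 * π * i / n + π / n) * ((-2 * Real.sin (π / n) : ℝ) * I) := by
      have h2 : cis (α + 2 * π * i / n) = cis (α + 2 * π * i / n + π / n) * cis (-(π / n)) := by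
        rw [← cis_add]; congr 1; ring
      have h3 : cis (α + 2 * π * ((i + 1 : ℕ) : ℝ) / n) =
          cis (α + 2 * π * i / n + π / n) * cis (π / n) := by
        rw [← cis_add]; congr 1; push_cast; ring
      have h4 : cis (-(π / n)) - cis (π / n) = (-2 * Real.sin (π / n) : ℝ) * I := by
        apply Complex.ext
        · simp only [Complex.sub_re, cis_re, Real.cos_neg, sub_self, Complex.re_ofReal_mul,
            Complex.I_re, mul_zero]
        · simp only [Complex.sub_im, cis_im, Real.sin_neg, Complex.im_ofReal_mul, Complex.I_im]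
          ring
      rw [h2, h3, ← h4]; ring
    rw [h1]
    simp only [norm_mul, norm_cis, Complex.norm_I, Complex.norm_real, mul_one]
    rw [Real.norm_of_nonneg hR.le, Real.norm_of_nonneg hs.le, norm_neg,
      Real.norm_of_nonneg (by norm_num : (0 : ℝ) ≤ 2)]
    ring
  have e2 : ∀ i, ENNReal.ofReal (|(S.u i).re * (S.u (i + 1)).im - (S.u i).im * (S.u (i + 1)).re| / 2) =
      ENNReal.ofReal (R ^ 2 * (Real.sin (π / n) * Real.cos (π / n))) := by
    intro i
    congr 1
    rw [hu, hu]
    simp only [Complex.re_ofReal_mul, Complex.im_ofReal_mul, cis_re, cis_im]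
    have h1 : R * Real.cos (α + 2 * π * i / n) * (R * Real.sin (α + 2 * π * ((i + 1 : ℕ) : ℝ) / n)) -
        R * Real.sin (α + 2 * π * i / n) * (R * Real.cos (α + 2 * π * ((i + 1 : ℕ) : ℝ) / n)) =
        R ^ 2 * (2 * Real.sin (π / n) * Real.cos (π / n)) := by
      rw [← Real.sin_two_mul]
      rw [show 2 * (π / n) = (α + 2 * π * ((i + 1 : ℕ) : ℝ) / n) - (α + 2 * π * i / n) by
        push_cast; field_simp; ring, Real.sin_sub]
      ring
    rw [h1, abs_of_pos (by positivity)]
    ring
  simp only [e1, e2]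
  have hN : S.N = n := rfl
  rw [Finset.sum_const, Finset.sum_const, Finset.card_range, hN, nsmul_eq_mul, nsmul_eq_mul,
    ENNReal.toReal_mul, ENNReal.toReal_mul, ENNReal.toReal_ofReal (by positivity),
    ENNReal.toReal_ofReal (by positivity), ENNReal.toReal_natCast]
  field_simp

lemma ratio_translate (a : ℂ) (U : Set ℂ) : ratioOf ((fun x => a + x) '' U) = ratioOf U := by
  unfold ratioOf
  have h1 : frontier ((fun x => a + x) '' U) = (fun x => a + x) '' frontier U :=
    ((Homeomorph.addLeft a).image_frontier U).symm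
  have h2 : (Measure.hausdorffMeasure (1 : ℝ) : Measure ℂ) ((fun x => a + x) '' frontier U) =
      (Measure.hausdorffMeasure (1 : ℝ) : Measure ℂ) (frontier U) :=
    (isometry_add_left a).hausdorffMeasure_image (Or.inl zero_le_one) _
  have h3 : volume ((fun x => a + x) '' U) = volume U := by
    rw [Set.image_add_left, measure_preimage_add]
  rw [h1, h2, h3]

/-- The case `k = 1`. -/
lemma ratio_one {n : ℕ} (hn : 3 ≤ n) {A : Fin 1 → ℂ} (hA : IsMarkedBasicSetup 1 n A) (ε : ℝ) :
    ratioOf (shiftedUnion n A ε) = 4 * Real.tan (π / n) := by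
  have h1 : shiftedUnion n A ε = (fun x => ε • A 0 + x) '' convexHull ℝ (verts n (A 0)) := by
    unfold shiftedUnion
    ext x; simp
  have hR := norm_of_side hn (hA.side 0)
  have hs := sinn_pos hn
  have hR0 : 0 < ‖A 0‖ := by rw [hR]; positivity
  rw [h1, ratio_translate]
  conv_lhs => rw [eq_norm_cis_arg (A 0)]
  rw [ratio_single n hn hR0, rho_eq hn hR]

/-- For `k ≥ 2`: for small `ε ≠ 0` the ratio exceeds `4 tan (π / n)` iff `k ≡ 1 (mod n)`. -/
lemma ratio_two {k n : ℕ} (hk : 2 ≤ k) (hn : 3 ≤ n) (hcop : Nat.Coprime k n)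
    {A : Fin k → ℂ} (hA : IsMarkedBasicSetup k n A) :
    ∀ᶠ ε in 𝓝 (0 : ℝ), ε ≠ 0 →
      (4 * Real.tan (π / n) < ratioOf (shiftedUnion n A ε) ↔ k ≡ 1 [MOD n]) := by
  obtain ⟨P, hPk, hPn, hPR, hU⟩ := shiftedUnion_eq hk hn hcop hA
  filter_upwards [P.eventually_good] with ε hg hε
  rw [hU ε hg.h0]
  have h1 := P.ratio_gt_iff hg hε
  have h2 : 2 / (P.R * P.C) = 4 * Real.tan (π / n) := by
    have : P.C = Real.cos (π / n) := by unfold Par.C; rw [hPn]
    rw [this, rho_eq hn hPR]
  rw [h2] at h1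
  change 4 * Real.tan (π / n) < P.ratio ε ↔ _
  rw [h1, P.E_neg_iff, hPn]
  obtain ⟨z, hz⟩ := P.hp
  rw [hPk, hPn] at hz
  rw [Nat.ModEq.comm, Nat.modEq_iff_dvd]
  have hcop' : IsCoprime (n : ℤ) (k : ℤ) := (Nat.isCoprime_iff_coprime.2 hcop).symm
  constructor
  · intro h
    have h3 : (n : ℤ) ∣ k * (P.p + 1) := Dvd.dvd.mul_left h _
    have h4 : (k : ℤ) * (P.p + 1) = n * z + ((k : ℤ) - 1) := by linarith
    rw [h4] at h3
    have := (Int.dvd_add_right (Dvd.intro z rfl)).1 h3
    push_cast
    exact this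
  · intro h
    push_cast at h
    have h4 : (k : ℤ) * (P.p + 1) = n * z + ((k : ℤ) - 1) := by linarith
    have h5 : (n : ℤ) ∣ k * (P.p + 1) := by
      rw [h4]; exact Dvd.dvd.add (Dvd.intro z rfl) h
    exact hcop'.dvd_of_dvd_mul_left h5

end Pool.Agent.X147.SP
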