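import Mathlib

open Finset

namespace Pool.Agent.X147.Hs

variable {h : ℕ}

/-- position of a vertex `x` in the gadget attached to `e` -/
def pos (g : Finset ℕ → Bool → ℕ → Fin h) (T : ℕ → Finset ℕ × Fin h) (e : Finset ℕ) (b : Bool)
    (x : ℕ) : Fin h := if x ∈ e then g e b x else (T x).2

def Body (k : ℕ) (H : Finset (Finset (Fin h))) (f : Bool → Finset (Fin h))
    (g : Finset ℕ → Bool → ℕ → Fin h) (T : ℕ → Finset ℕ × Fin h)
    (e : Finset ℕ) (b : Bool) (s : Finset ℕ) : Prop :=
  s.card = k ∧ e.card = k ∧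
    (∀ x ∈ s, x ∉ e → (T x).1 = e ∧ e.sup id < x ∧ (T x).2 ∉ f b) ∧
    Set.InjOn (pos g T e b) s ∧ s.image (pos g T e b) ∈ H

open Classical in
noncomputable def E (k : ℕ) (H : Finset (Finset (Fin h))) (f : Bool → Finset (Fin h))
    (g : Finset ℕ → Bool → ℕ → Fin h) (T : ℕ → Finset ℕ × Fin h) (s : Finset ℕ) : Prop :=
  if _hlt : (T (s.sup id)).1.sup id < s.sup id then
    Body k H f g T (T (s.sup id)).1 (decide (E k H f g T (T (s.sup id)).1)) s
  else False
termination_by s.sup id
decreasing_by exact _hlt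

variable {k : ℕ} {H : Finset (Finset (Fin h))} {f : Bool → Finset (Fin h)}
    {g : Finset ℕ → Bool → ℕ → Fin h} {T : ℕ → Finset ℕ × Fin h}

open Classical in
lemma E_def (s : Finset ℕ) : E k H f g T s ↔ (T (s.sup id)).1.sup id < s.sup id ∧
    Body k H f g T (T (s.sup id)).1 (decide (E k H f g T (T (s.sup id)).1)) s := by
  rw [E]
  split_ifs with hlt
  · exact ⟨fun h => ⟨hlt, h⟩, fun h => h.2⟩
  · exact ⟨fun h => h.elim, fun h => hlt h.1⟩

lemma E_card {s : Finset ℕ} (hs : E k H f g T s) : s.card = k := ((E_def s).1 hs).2.1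

lemma sup_mem {s : Finset ℕ} (hs : s.Nonempty) : s.sup id ∈ s := by
  obtain ⟨i, hi, he⟩ := Finset.exists_mem_eq_sup s hs id
  rw [he]; exact hi

open Classical in
lemma E_key {e s : Finset ℕ} (he : e.card = k) (hs : s.card = k) (hne : s ≠ e)
    (hx : ∀ x ∈ s, x ∉ e → (T x).1 = e ∧ e.sup id < x ∧
      (T x).2 ∉ f (decide (E k H f g T e))) :
    E k H f g T s ↔ Set.InjOn (pos g T e (decide (E k H f g T e))) s ∧
      s.image (pos g T e (decide (E k H f g T e))) ∈ H := by
  have hex : ∃ x ∈ s, x ∉ e := by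
    by_contra hcon
    push Not at hcon
    exact hne (Finset.eq_of_subset_of_card_le hcon (by rw [he, hs]))
  obtain ⟨x, hxs, hxe⟩ := hex
  have hmem : s.sup id ∈ s := sup_mem ⟨x, hxs⟩
  have hlt : e.sup id < s.sup id := lt_of_lt_of_le (hx x hxs hxe).2.1 (Finset.le_sup (f := id) hxs)
  have hnot : s.sup id ∉ e := fun hme => absurd (Finset.le_sup (f := id) hme) (not_le.2 hlt)
  have hT : (T (s.sup id)).1 = e := (hx _ hmem hnot).1
  rw [E_def, hT]
  constructor
  · rintro ⟨_, _, _, _, h1, h2⟩
    exact ⟨h1, h2⟩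
  · rintro ⟨h1, h2⟩
    exact ⟨hlt, hs, he, hx, h1, h2⟩

/-- the standing hypotheses on the gadget data -/
structure Data (k : ℕ) (H : Finset (Finset (Fin h))) (f : Bool → Finset (Fin h))
    (g : Finset ℕ → Bool → ℕ → Fin h) (T : ℕ → Finset ℕ × Fin h) : Prop where
  two_le : 2 ≤ k
  unif : ∀ s ∈ H, s.card = k
  fcard : ∀ b, (f b).card = k
  ftrue : f true ∉ H
  ffalse : f false ∈ H
  ginj : ∀ (e : Finset ℕ) (b : Bool), e.card = k → Set.InjOn (g e b) e
  gimg : ∀ (e : Finset ℕ) (b : Bool), e.card = k → e.image (g e b) = f b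
  Tinf : ∀ (e : Finset ℕ) (j : Fin h) (N : ℕ), ∃ n, N ≤ n ∧ T n = (e, j)

open Classical in
theorem free (D : Data k H f g T)
    (hcover : ∀ x y : Fin h, x ≠ y → ∃ s ∈ H, x ∈ s ∧ y ∈ s) :
    ¬ ∃ φ : Fin h ↪ ℕ, ∀ s : Finset (Fin h), s.card = k → (s ∈ H ↔ E k H f g T (s.map φ)) := by
  rintro ⟨φ, hφ⟩
  have hfne : (f false).Nonempty := by
    rw [← Finset.card_pos, D.fcard]; have := D.two_le; omega
  obtain ⟨z₀, hz₀⟩ := hfne
  obtain ⟨x₀, -, hx₀⟩ := Finset.exists_max_image (univ : Finset (Fin h)) φ ⟨z₀, Finset.mem_univ _⟩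
  have hcov : ∀ y, ∃ s ∈ H, x₀ ∈ s ∧ y ∈ s := by
    intro y
    by_cases hy : x₀ = y
    · subst hy
      have h1 : 1 < (f false).card := by rw [D.fcard]; have := D.two_le; omega
      obtain ⟨z, hz, hzx⟩ := Finset.exists_mem_ne h1 x₀
      obtain ⟨s, hs, hs1, _⟩ := hcover x₀ z hzx.symm
      exact ⟨s, hs, hs1, hs1⟩
    · exact hcover x₀ y hy
  set e := (T (φ x₀)).1 with hedef
  set b := decide (E k H f g T e) with hb
  have hsup : ∀ s : Finset (Fin h), x₀ ∈ s → (s.map φ).sup id = φ x₀ := by
    intro s hs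
    apply le_antisymm
    · apply Finset.sup_le
      intro n hn
      obtain ⟨x, _, rfl⟩ := Finset.mem_map.1 hn
      exact hx₀ x (Finset.mem_univ _)
    · exact Finset.le_sup (f := id) (Finset.mem_map_of_mem φ hs)
  have hbody : ∀ s ∈ H, x₀ ∈ s → e.sup id < φ x₀ ∧ Body k H f g T e b (s.map φ) := by
    intro s hs hxs
    have h1 := (hφ s (D.unif s hs)).1 hs
    rw [E_def, hsup s hxs] at h1
    exact h1
  obtain ⟨s₀, hs₀, hxs₀, _⟩ := hcov x₀
  have hlt : e.sup id < φ x₀ := (hbody s₀ hs₀ hxs₀).1
  have hecard : e.card = k := (hbody s₀ hs₀ hxs₀).2.2.1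
  have hall : ∀ y, φ y ∉ e → (T (φ y)).1 = e ∧ e.sup id < φ y ∧ (T (φ y)).2 ∉ f b := by
    intro y hy
    obtain ⟨s, hs, hxs, hys⟩ := hcov y
    exact (hbody s hs hxs).2.2.2.1 (φ y) (Finset.mem_map_of_mem φ hys) hy
  have hkey : ∀ s : Finset (Fin h), s.card = k → s.map φ ≠ e →
      (E k H f g T (s.map φ) ↔ Set.InjOn (pos g T e b) (s.map φ : Finset ℕ) ∧
        (s.map φ).image (pos g T e b) ∈ H) := by
    intro s hs hne
    apply E_key hecard (by rw [Finset.card_map, hs]) hne
    intro x hx hxe
    obtain ⟨y, _, rfl⟩ := Finset.mem_map.1 hx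
    exact hall y hxe
  have hpos_e : ∀ x ∈ e, pos g T e b x = g e b x := fun x hx => if_pos hx
  have hσinj : Function.Injective (fun y => pos g T e b (φ y)) := by
    intro y z hyz
    by_contra hne
    obtain ⟨s, hs, hys, hzs⟩ := hcover y z hne
    have hEs := (hφ s (D.unif s hs)).1 hs
    by_cases hse : s.map φ = e
    · have hy : φ y ∈ e := hse ▸ Finset.mem_map_of_mem φ hys
      have hz : φ z ∈ e := hse ▸ Finset.mem_map_of_mem φ hzs
      simp only [hpos_e _ hy, hpos_e _ hz] at hyz
      exact hne (φ.injective (D.ginj e b hecard hy hz hyz))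
    · have h1 := ((hkey s (D.unif s hs) hse).1 hEs).1
      exact hne (φ.injective (h1 (Finset.mem_coe.2 (Finset.mem_map_of_mem φ hys))
        (Finset.mem_coe.2 (Finset.mem_map_of_mem φ hzs)) hyz))
  set σ : Fin h → Fin h := fun y => pos g T e b (φ y) with hσ
  have himg : ∀ s : Finset (Fin h), (s.map φ).image (pos g T e b) = s.image σ := by
    intro s
    rw [Finset.map_eq_image, Finset.image_image]
    rfl
  have hE : ∀ s : Finset (Fin h), s.card = k →
      (E k H f g T (s.map φ) ↔ (if s.image σ = f b then b = true else s.image σ ∈ H)) := by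
    intro s hs
    by_cases hse : s.map φ = e
    · have h1 : s.image σ = f b := by
        rw [← himg, hse]
        rw [Finset.image_congr (g := g e b) (fun x hx => hpos_e x hx)]
        exact D.gimg e b hecard
      rw [if_pos h1, hse, hb, decide_eq_true_iff]
    · have h1 : s.image σ ≠ f b := by
        intro heq
        apply hse
        apply Finset.eq_of_subset_of_card_le
        · intro n hn
          obtain ⟨y, hy, rfl⟩ := Finset.mem_map.1 hn
          by_contra hye
          have h2 : pos g T e b (φ y) = (T (φ y)).2 := if_neg hye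
          have h3 : σ y ∈ f b := heq ▸ Finset.mem_image_of_mem σ hy
          rw [hσ] at h3
          simp only at h3
          rw [h2] at h3
          exact (hall y hye).2.2 h3
        · rw [hecard, Finset.card_map, hs]
      rw [if_neg h1, hkey s hs hse, himg]
      constructor
      · exact fun h2 => h2.2
      · intro h2
        refine ⟨?_, h2⟩
        intro x hx y hy hxy
        obtain ⟨x', _, rfl⟩ := Finset.mem_map.1 (Finset.mem_coe.1 hx)
        obtain ⟨y', _, rfl⟩ := Finset.mem_map.1 (Finset.mem_coe.1 hy)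
        exact congrArg φ (hσinj hxy)
  -- counting
  have hσbij : Function.Bijective σ := Finite.injective_iff_bijective.1 hσinj
  set H' : Finset (Finset (Fin h)) := (powersetCard k (univ : Finset (Fin h))).filter
    (fun t => if t = f b then b = true else t ∈ H) with hH'
  have hcardeq : H.card = H'.card := by
    refine Finset.card_bij (fun s _ => s.image σ) ?_ ?_ ?_
    · intro s hs
      have hsk := D.unif s hs
      rw [hH', Finset.mem_filter, Finset.mem_powersetCard]
      refine ⟨⟨Finset.subset_univ _, ?_⟩, ?_⟩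
      · rw [Finset.card_image_of_injective _ hσinj, hsk]
      · exact (hE s hsk).1 ((hφ s hsk).1 hs)
    · intro s _ t _ hst
      exact Finset.image_injective hσinj hst
    · intro t ht
      rw [hH', Finset.mem_filter, Finset.mem_powersetCard] at ht
      obtain ⟨⟨_, htk⟩, ht2⟩ := ht
      set τ := Equiv.ofBijective σ hσbij with hτ
      have h1 : (t.image τ.symm).image σ = t := by
        rw [Finset.image_image]
        have : σ ∘ τ.symm = id := by
          funext x
          exact Equiv.ofBijective_apply_symm_apply σ hσbij x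
        rw [this, Finset.image_id]
      have h2 : (t.image τ.symm).card = k := by
        rw [Finset.card_image_of_injective _ τ.symm.injective, htk]
      refine ⟨t.image τ.symm, ?_, h1⟩
      rw [hφ _ h2, hE _ h2, h1]
      exact ht2
  cases hbb : b with
  | true =>
    have h1 : H' = insert (f true) H := by
      ext t
      rw [hH', Finset.mem_filter, Finset.mem_powersetCard, Finset.mem_insert, hbb]
      constructor
      · rintro ⟨_, h2⟩
        by_cases h3 : t = f true
        · exact Or.inl h3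
        · rw [if_neg h3] at h2; exact Or.inr h2
      · rintro (h2 | h2)
        · subst h2
          exact ⟨⟨Finset.subset_univ _, D.fcard true⟩, by rw [if_pos rfl]⟩
        · refine ⟨⟨Finset.subset_univ _, D.unif t h2⟩, ?_⟩
          by_cases h3 : t = f true
          · rw [if_pos h3]
          · rw [if_neg h3]; exact h2
    rw [h1, Finset.card_insert_of_notMem D.ftrue] at hcardeq
    omega
  | false =>
    have h1 : H' = H.erase (f false) := by
      ext t
      rw [hH', Finset.mem_filter, Finset.mem_powersetCard, Finset.mem_erase, hbb]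
      constructor
      · rintro ⟨_, h2⟩
        by_cases h3 : t = f false
        · rw [if_pos h3] at h2; exact absurd h2 (by simp)
        · rw [if_neg h3] at h2; exact ⟨h3, h2⟩
      · rintro ⟨h3, h2⟩
        exact ⟨⟨Finset.subset_univ _, D.unif t h2⟩, by rw [if_neg h3]; exact h2⟩
    rw [h1, Finset.card_erase_of_mem D.ffalse] at hcardeq
    have : 0 < H.card := Finset.card_pos.2 ⟨_, D.ffalse⟩
    omega

end Pool.Agent.X147.Hs
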