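import Mathlib
import Pool.Agent.X147.HsA

open Finset

namespace Pool.Agent.X147.Hs

variable {h : ℕ} {k : ℕ} {H : Finset (Finset (Fin h))} {f : Bool → Finset (Fin h)}
    {g : Finset ℕ → Bool → ℕ → Fin h} {T : ℕ → Finset ℕ × Fin h}

/-- sequential choice of the gadget vertices, avoiding the perturbed sets -/
lemma choose_w (D : Data k H f g T) (P : Set (Finset ℕ))
    (hPk : ∀ e ∈ P, e.card = k) (hloc : ∀ v, {e ∈ P | v ∈ e}.Finite) {e : Finset ℕ}
    (he : e.card = k) (J : Finset (Fin h)) :
    ∃ w : Fin h → ℕ, (∀ j ∈ J, T (w j) = (e, j) ∧ e.sup id < w j) ∧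
      (∀ p ∈ P, p ⊆ e ∪ J.image w → p = e) := by
  classical
  induction J using Finset.induction_on with
  | empty =>
    refine ⟨fun _ => 0, by simp, ?_⟩
    intro p hp hpe
    rw [Finset.image_empty, Finset.union_empty] at hpe
    exact Finset.eq_of_subset_of_card_le hpe (by rw [he, hPk p hp])
  | insert j J hj ih =>
    obtain ⟨w, hw1, hw2⟩ := ih
    set A : Finset ℕ := e ∪ J.image w with hA
    have hfin : (⋃ v ∈ (A : Set ℕ), ⋃ p ∈ {p ∈ P | v ∈ p}, (p : Set ℕ)).Finite := by
      refine Set.Finite.biUnion (Finset.finite_toSet A) fun v _ => ?_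
      exact Set.Finite.biUnion (hloc v) fun p _ => Finset.finite_toSet p
    obtain ⟨N, hN⟩ := hfin.bddAbove
    obtain ⟨n, hn, hTn⟩ := D.Tinf e j (N + e.sup id + 1)
    have hjimg : ∀ i ∈ J, Function.update w j n i = w i := by
      intro i hi
      rw [Function.update_of_ne]
      rintro rfl
      exact hj hi
    refine ⟨Function.update w j n, ?_, ?_⟩
    · intro i hi
      rcases Finset.mem_insert.1 hi with h1 | h1
      · subst h1
        rw [Function.update_self]
        exact ⟨hTn, by omega⟩
      · rw [hjimg i h1]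
        exact hw1 i h1
    · intro p hp hpe
      have himg : (insert j J).image (Function.update w j n) = insert n (J.image w) := by
        rw [Finset.image_insert, Function.update_self]
        congr 1
        exact Finset.image_congr fun i hi => hjimg i hi
      rw [himg] at hpe
      by_cases hnp : n ∈ p
      · exfalso
        have h1 : 1 < p.card := by rw [hPk p hp]; have := D.two_le; omega
        obtain ⟨v, hv, hvn⟩ := Finset.exists_mem_ne h1 n
        have hvA : v ∈ A := by
          have := hpe hv
          rw [Finset.mem_union, Finset.mem_insert] at this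
          rw [hA, Finset.mem_union]
          rcases this with h2 | h2 | h2
          · exact Or.inl h2
          · exact absurd h2 hvn
          · exact Or.inr h2
        have hmem : n ∈ (⋃ v ∈ (A : Set ℕ), ⋃ p ∈ {p ∈ P | v ∈ p}, (p : Set ℕ)) := by
          refine Set.mem_biUnion (Finset.mem_coe.2 hvA) ?_
          exact Set.mem_biUnion (show p ∈ {p ∈ P | v ∈ p} from ⟨hp, hv⟩) (Finset.mem_coe.2 hnp)
        have := hN hmem
        omega
      · apply hw2 p hp
        intro x hx
        have h2 := hpe hx
        rw [Finset.mem_union, Finset.mem_insert] at h2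
        rw [hA, Finset.mem_union]
        rcases h2 with h3 | h3 | h3
        · exact Or.inl h3
        · subst h3; exact absurd hx hnp
        · exact Or.inr h3

open Classical in
theorem robust (D : Data k H f g T) (P : Set (Finset ℕ)) (hP : P.Nonempty)
    (hPk : ∀ e ∈ P, e.card = k) (hloc : ∀ v, {e ∈ P | v ∈ e}.Finite) :
    ∃ φ : Fin h ↪ ℕ, ∀ s : Finset (Fin h), s.card = k →
      (s ∈ H ↔ s.map φ ∈ symmDiff {s | E k H f g T s} P) := by
  obtain ⟨e, heP⟩ := hP
  have he := hPk e heP
  set b := decide (E k H f g T e) with hb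
  obtain ⟨w, hw1, hw2⟩ := choose_w D P hPk hloc he ((univ : Finset (Fin h)) \ f b)
  have hw : ∀ j, j ∉ f b → T (w j) = (e, j) ∧ e.sup id < w j := fun j hj =>
    hw1 j (Finset.mem_sdiff.2 ⟨Finset.mem_univ _, hj⟩)
  -- inverse of g on e
  have hinv : ∀ x, x ∈ f b → ∃ a ∈ e, g e b a = x := by
    intro x hx
    rw [← D.gimg e b he] at hx
    exact Finset.mem_image.1 hx
  choose! u hu1 hu2 using hinv
  set φ₀ : Fin h → ℕ := fun x => if x ∈ f b then u x else w x with hφ₀
  have hφin : ∀ x, x ∈ f b → φ₀ x = u x := fun x hx => if_pos hx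
  have hφout : ∀ x, x ∉ f b → φ₀ x = w x := fun x hx => if_neg hx
  have hwe : ∀ x, x ∉ f b → w x ∉ e := fun x hx hxe =>
    absurd (Finset.le_sup (f := id) hxe) (not_le.2 (hw x hx).2)
  have hpos : ∀ x, pos g T e b (φ₀ x) = x := by
    intro x
    by_cases hx : x ∈ f b
    · rw [hφin x hx]
      unfold pos
      rw [if_pos (hu1 x hx), hu2 x hx]
    · rw [hφout x hx]
      unfold pos
      rw [if_neg (hwe x hx), (hw x hx).1]
  have hinj : Function.Injective φ₀ := by
    intro x y hxy
    rw [← hpos x, ← hpos y, hxy]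
  set φ : Fin h ↪ ℕ := ⟨φ₀, hinj⟩ with hφ
  refine ⟨φ, fun s hs => ?_⟩
  have himg : (s.map φ).image (pos g T e b) = s := by
    rw [Finset.map_eq_image, Finset.image_image]
    have : pos g T e b ∘ φ = id := by funext x; exact hpos x
    rw [this, Finset.image_id]
  by_cases hsf : s = f b
  · have hse : s.map φ = e := by
      apply Finset.eq_of_subset_of_card_le
      · intro n hn
        obtain ⟨x, hx, rfl⟩ := Finset.mem_map.1 hn
        rw [hsf] at hx
        show φ₀ x ∈ e
        rw [hφin x hx]; exact hu1 x hx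
      · rw [he, Finset.card_map, hs]
    rw [hse, Set.mem_symmDiff]
    have h1 : s ∈ H ↔ ¬ E k H f g T e := by
      rw [hsf]
      cases hbb : b with
      | true =>
        have : E k H f g T e := by
          rw [hb] at hbb; exact of_decide_eq_true hbb
        exact ⟨fun h => absurd h D.ftrue, fun h => absurd this h⟩
      | false =>
        have : ¬ E k H f g T e := by
          rw [hb] at hbb; exact of_decide_eq_false hbb
        exact ⟨fun _ => this, fun _ => D.ffalse⟩
    rw [h1]
    constructor
    · intro h2; exact Or.inr ⟨heP, h2⟩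
    · rintro (⟨_, h2⟩ | ⟨_, h2⟩)
      · exact absurd heP h2
      · exact h2
  · have hse : s.map φ ≠ e := by
      intro hse
      apply hsf
      rw [← himg, hse, ← D.gimg e b he]
      exact Finset.image_congr fun x hx => if_pos hx
    have hnotP : s.map φ ∉ P := by
      intro hmem
      apply hse
      apply hw2 _ hmem
      intro n hn
      obtain ⟨x, _, rfl⟩ := Finset.mem_map.1 hn
      rw [Finset.mem_union]
      by_cases hx : x ∈ f b
      · left
        show φ₀ x ∈ e
        rw [hφin x hx]; exact hu1 x hx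
      · right
        show φ₀ x ∈ _
        rw [hφout x hx]
        exact Finset.mem_image_of_mem w (Finset.mem_sdiff.2 ⟨Finset.mem_univ _, hx⟩)
    have hEiff : E k H f g T (s.map φ) ↔ s ∈ H := by
      rw [E_key he (by rw [Finset.card_map, hs]) hse]
      · rw [← hb, himg]
        constructor
        · exact fun h => h.2
        · intro h2
          refine ⟨?_, h2⟩
          intro x hx y hy hxy
          obtain ⟨x', _, rfl⟩ := Finset.mem_map.1 (Finset.mem_coe.1 hx)
          obtain ⟨y', _, rfl⟩ := Finset.mem_map.1 (Finset.mem_coe.1 hy)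
          have h3 : x' = y' := by
            have h4 : pos g T e b (φ₀ x') = pos g T e b (φ₀ y') := hxy
            rwa [hpos, hpos] at h4
          rw [h3]
      · intro n hn hne
        obtain ⟨x, _, rfl⟩ := Finset.mem_map.1 hn
        have hx : x ∉ f b := by
          intro hx
          apply hne
          show φ₀ x ∈ e
          rw [hφin x hx]; exact hu1 x hx
        show (T (φ₀ x)).1 = e ∧ e.sup id < φ₀ x ∧ (T (φ₀ x)).2 ∉ _
        rw [hφout x hx, (hw x hx).1]
        exact ⟨rfl, (hw x hx).2, hx⟩
    rw [← hEiff, Set.mem_symmDiff]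
    constructor
    · intro h2; exact Or.inl ⟨h2, hnotP⟩
    · rintro (⟨h2, _⟩ | ⟨h2, _⟩)
      · exact h2
      · exact absurd h2 hnotP

/-- existence of the gadget data -/
lemma exists_data (hk : 2 ≤ k) (hunif : ∀ s ∈ H, s.card = k) (hedge : ∃ s, s ∈ H)
    (hnon : ∃ s : Finset (Fin h), s.card = k ∧ s ∉ H) :
    ∃ (f : Bool → Finset (Fin h)) (g : Finset ℕ → Bool → ℕ → Fin h) (T : ℕ → Finset ℕ × Fin h),
      Data k H f g T := by
  classical
  obtain ⟨s₁, hs₁⟩ := hedge
  obtain ⟨s₂, hs₂k, hs₂⟩ := hnon
  set f : Bool → Finset (Fin h) := fun b => if b then s₂ else s₁ with hf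
  have hfcard : ∀ b, (f b).card = k := by
    intro b; cases b
    · exact hunif s₁ hs₁
    · exact hs₂k
  have hg : ∀ (e : Finset ℕ) (b : Bool), ∃ γ : ℕ → Fin h, e.card = k →
      Set.InjOn γ e ∧ e.image γ = f b := by
    intro e b
    have hne : (f b).Nonempty := by
      rw [← Finset.card_pos, hfcard]; omega
    obtain ⟨z, _⟩ := hne
    by_cases he : e.card = k
    · have heq : e.card = (f b).card := by rw [he, hfcard]
      set ε := Finset.equivOfCardEq heq with hε
      refine ⟨fun x => if hx : x ∈ e then (ε ⟨x, hx⟩ : Fin h) else z, fun _ => ⟨?_, ?_⟩⟩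
      · intro x hx y hy hxy
        have hx' : x ∈ e := hx
        have hy' : y ∈ e := hy
        simp only [dif_pos hx', dif_pos hy'] at hxy
        have := ε.injective (Subtype.ext hxy)
        exact congrArg Subtype.val this
      · ext t
        rw [Finset.mem_image]
        constructor
        · rintro ⟨x, hx, rfl⟩
          rw [dif_pos hx]
          exact (ε ⟨x, hx⟩).2
        · intro ht
          refine ⟨(ε.symm ⟨t, ht⟩ : ℕ), (ε.symm ⟨t, ht⟩).2, ?_⟩
          rw [dif_pos (ε.symm ⟨t, ht⟩).2]
          simp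
    · exact ⟨fun _ => z, fun h => absurd h he⟩
  choose g hg using hg
  have hne : (f false).Nonempty := by
    rw [← Finset.card_pos, hfcard]; omega
  obtain ⟨z, _⟩ := hne
  have : Nonempty (Finset ℕ × Fin h) := ⟨(∅, z)⟩
  obtain ⟨q, hq⟩ := exists_surjective_nat (Finset ℕ × Fin h)
  refine ⟨f, g, fun n => q (Nat.unpair n).2, ⟨hk, hunif, hfcard, hs₂, hs₁,
    fun e b he => (hg e b he).1, fun e b he => (hg e b he).2, ?_⟩⟩
  intro e j N
  obtain ⟨c, hc⟩ := hq (e, j)
  refine ⟨Nat.pair N c, Nat.left_le_pair N c, ?_⟩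
  rw [Nat.unpair_pair]
  exact hc

end Pool.Agent.X147.Hs
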