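import Mathlib

open Finset

namespace Pool.Agent.X147.Hc

variable {h : ℕ}

/-- no labelling of the vertices of `H` describes an induced copy meeting the last gadget -/
def NoBad (k : ℕ) (H : Finset (Finset (Fin h))) (f : Finset (Fin h))
    (R : Multiset (Option (Fin h)) → Prop) (b : Prop) : Prop :=
  ∀ lam : Fin h → Option (Fin h),
    (∀ x y, lam x = lam y → (∃ a ∈ f, lam x = some a) → x = y) →
    (∃ x, ∃ j, j ∉ f ∧ lam x = some j) →
    (∀ s : Finset (Fin h), s.card = k → (∃ x ∈ s, ∃ j, j ∉ f ∧ lam x = some j) →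
      (s ∈ H ↔ R (s.val.map lam))) →
    (∀ s : Finset (Fin h), s.card = k → s.image lam = f.image some → (s ∈ H ↔ b)) → False

def SideOK (k : ℕ) (H : Finset (Finset (Fin h))) (b : Prop) : Prop :=
  ∃ (f : Finset (Fin h)) (R : Multiset (Option (Fin h)) → Prop), f.card = k ∧ (f ∈ H ↔ ¬ b) ∧
    (∀ s : Finset (Fin h), s.card = k → s ≠ f → (R (s.val.map some) ↔ s ∈ H)) ∧
    NoBad k H f R b

/-- standing data of the construction -/
structure Frame (k : ℕ) (H : Finset (Finset (Fin h))) (f : Bool → Finset (Fin h))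
    (R : Bool → Multiset (Option (Fin h)) → Prop)
    (g : Finset ℕ → Bool → ℕ → Fin h) (st : ℕ → ℕ) (ep : ℕ → Finset ℕ)
    (p : Bool → ℕ → Fin h) : Prop where
  kpos : 2 ≤ k
  unif : ∀ s ∈ H, s.card = k
  fcard : ∀ b, (f b).card = k
  ftrue : f true ∉ H
  ffalse : f false ∈ H
  rule : ∀ b, ∀ s : Finset (Fin h), s.card = k → s ≠ f b → (R b (s.val.map some) ↔ s ∈ H)
  nobad : ∀ b, NoBad k H (f b) (R b) (b = true)
  ginj : ∀ (e : Finset ℕ) (b : Bool), e.card = k → Set.InjOn (g e b) e
  gimg : ∀ (e : Finset ℕ) (b : Bool), e.card = k → e.image (g e b) = f b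
  pnot : ∀ b n, p b n ∉ f b
  epst : ∀ t, ∀ x ∈ ep t, st x < t
  epcard : ∀ t, (ep t).card = k ∨ ep t = ∅
  epsurj : ∀ e : Finset ℕ, e.card = k → ∃ t, ep t = e
  pinf : ∀ (t : ℕ) (b : Bool) (j : Fin h) (N : ℕ), j ∉ f b → ∃ n, N ≤ n ∧ st n = t ∧ p b n = j

/-- label of the vertex `x` at stage `t` -/
def lab (g : Finset ℕ → Bool → ℕ → Fin h) (st : ℕ → ℕ) (ep : ℕ → Finset ℕ)
    (p : Bool → ℕ → Fin h) (t : ℕ) (b : Bool) (x : ℕ) : Option (Fin h) :=
  if x ∈ ep t then some (g (ep t) b x) else if st x = t then some (p b x) else none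

open Classical in
noncomputable def E (k : ℕ) (R : Bool → Multiset (Option (Fin h)) → Prop)
    (g : Finset ℕ → Bool → ℕ → Fin h) (st : ℕ → ℕ) (ep : ℕ → Finset ℕ)
    (p : Bool → ℕ → Fin h) (s : Finset ℕ) : Prop :=
  s.card = k ∧
  if _hlt : (ep (s.sup st)).sup st < s.sup st then
    R (decide (E k R g st ep p (ep (s.sup st))))
      (s.val.map (lab g st ep p (s.sup st) (decide (E k R g st ep p (ep (s.sup st))))))
  else R false (s.val.map (lab g st ep p (s.sup st) false))
termination_by s.sup st
decreasing_by all_goals exact _hlt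

variable {k : ℕ} {H : Finset (Finset (Fin h))} {f : Bool → Finset (Fin h)}
    {R : Bool → Multiset (Option (Fin h)) → Prop}
    {g : Finset ℕ → Bool → ℕ → Fin h} {st : ℕ → ℕ} {ep : ℕ → Finset ℕ}
    {p : Bool → ℕ → Fin h}

lemma E_card {s : Finset ℕ} (hs : E k R g st ep p s) : s.card = k := by
  rw [E] at hs
  exact hs.1

open Classical in
lemma E_def (D : Frame k H f R g st ep p) (s : Finset ℕ) :
    E k R g st ep p s ↔ s.card = k ∧ R (decide (E k R g st ep p (ep (s.sup st))))
      (s.val.map (lab g st ep p (s.sup st) (decide (E k R g st ep p (ep (s.sup st)))))) := by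
  rw [E]
  split_ifs with hlt
  · exact Iff.rfl
  · have h0 : ep (s.sup st) = ∅ := by
      by_contra hne
      apply hlt
      obtain ⟨x, hx⟩ := Finset.nonempty_iff_ne_empty.2 hne
      have hpos : 0 < s.sup st := lt_of_le_of_lt (Nat.zero_le _) (D.epst _ x hx)
      rw [Finset.sup_lt_iff (by simpa using hpos)]
      exact fun y hy => D.epst _ y hy
    have h1 : ¬ E k R g st ep p (ep (s.sup st)) := by
      intro hE
      have := E_card hE
      rw [h0, Finset.card_empty] at this
      have := D.kpos
      omega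
    have h2 : decide (E k R g st ep p (ep (s.sup st))) = false := decide_eq_false h1
    rw [h2]

open Classical in
theorem free (D : Frame k H f R g st ep p) :
    ¬ ∃ φ : Fin h ↪ ℕ, ∀ s : Finset (Fin h), s.card = k →
      (s ∈ H ↔ E k R g st ep p (s.map φ)) := by
  rintro ⟨φ, hφ⟩
  have hfne : (f false).Nonempty := by
    rw [← Finset.card_pos, D.fcard]; have := D.kpos; omega
  obtain ⟨z₀, hz₀⟩ := hfne
  obtain ⟨x₀, -, hx₀⟩ := Finset.exists_max_image (univ : Finset (Fin h)) (fun x => st (φ x))
    ⟨z₀, Finset.mem_univ _⟩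
  set t := st (φ x₀) with ht
  set b := decide (E k R g st ep p (ep t)) with hb
  have hle : ∀ x, st (φ x) ≤ t := fun x => hx₀ x (Finset.mem_univ _)
  have hlabe : ∀ x, φ x ∈ ep t → ∃ a ∈ f b, lab g st ep p t b (φ x) = some a := by
    intro x hx
    have hc : (ep t).card = k := by
      rcases D.epcard t with hc | hc
      · exact hc
      · rw [hc] at hx; simp at hx
    refine ⟨g (ep t) b (φ x), ?_, ?_⟩
    · rw [← D.gimg (ep t) b hc]
      exact Finset.mem_image_of_mem _ hx
    · unfold lab; rw [if_pos hx]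
  have hlabt : ∀ x, st (φ x) = t → lab g st ep p t b (φ x) = some (p b (φ x)) := by
    intro x hx
    have : φ x ∉ ep t := fun hmem => absurd (D.epst t _ hmem) (by omega)
    unfold lab
    rw [if_neg this, if_pos hx]
  have hout : ∀ x j, j ∉ f b → lab g st ep p t b (φ x) = some j → st (φ x) = t := by
    intro x j hj hx
    by_contra hne
    by_cases hmem : φ x ∈ ep t
    · obtain ⟨a, ha, hxa⟩ := hlabe x hmem
      rw [hxa] at hx
      exact hj (Option.some.inj hx ▸ ha)
    · unfold lab at hx
      rw [if_neg hmem, if_neg hne] at hx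
      exact absurd hx (by simp)
  have hin : ∀ x a, a ∈ f b → lab g st ep p t b (φ x) = some a → φ x ∈ ep t := by
    intro x a ha hx
    by_contra hmem
    unfold lab at hx
    rw [if_neg hmem] at hx
    split_ifs at hx with hst
    have : p b (φ x) = a := Option.some.inj hx
    exact D.pnot b (φ x) (this ▸ ha)
  refine D.nobad b (fun x => lab g st ep p t b (φ x)) ?_ ?_ ?_ ?_
  · rintro x y hxy ⟨a, ha, hxa⟩
    have hx : φ x ∈ ep t := hin x a ha hxa
    have hy : φ y ∈ ep t := hin y a ha (by rw [← hxa]; exact hxy.symm)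
    have hc : (ep t).card = k := by
      rcases D.epcard t with hc | hc
      · exact hc
      · rw [hc] at hx; simp at hx
    have h1 : lab g st ep p t b (φ x) = some (g (ep t) b (φ x)) := if_pos hx
    have h2 : lab g st ep p t b (φ y) = some (g (ep t) b (φ y)) := if_pos hy
    have h3 : lab g st ep p t b (φ x) = lab g st ep p t b (φ y) := hxy
    rw [h1, h2] at h3
    exact φ.injective (D.ginj (ep t) b hc hx hy (Option.some.inj h3))
  · exact ⟨x₀, p b (φ x₀), D.pnot b _, hlabt x₀ rfl⟩
  · rintro s hs ⟨x, hxs, j, hj, hxj⟩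
    have hstx : st (φ x) = t := hout x j hj hxj
    have hsup : (s.map φ).sup st = t := by
      apply le_antisymm
      · apply Finset.sup_le
        intro n hn
        obtain ⟨y, _, rfl⟩ := Finset.mem_map.1 hn
        exact hle y
      · rw [← hstx]
        exact Finset.le_sup (f := st) (Finset.mem_map_of_mem φ hxs)
    rw [hφ s hs, E_def D, hsup, Finset.map_val, Multiset.map_map]
    constructor
    · exact fun h => h.2
    · exact fun h => ⟨by rw [Finset.card_map, hs], h⟩
  · intro s hs himg
    have hsub : s.map φ ⊆ ep t := by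
      intro n hn
      obtain ⟨y, hy, rfl⟩ := Finset.mem_map.1 hn
      have h1 : lab g st ep p t b (φ y) ∈ (f b).image some := by
        rw [← himg]; exact Finset.mem_image_of_mem (fun x => lab g st ep p t b (φ x)) hy
      obtain ⟨a, ha, hya⟩ := Finset.mem_image.1 h1
      exact hin y a ha hya.symm
    have hcard : (s.map φ).card = k := by rw [Finset.card_map, hs]
    have heq : s.map φ = ep t := by
      apply Finset.eq_of_subset_of_card_le hsub
      rw [hcard]
      rcases D.epcard t with hc | hc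
      · exact hc.le
      · rw [hc, Finset.card_empty]; exact Nat.zero_le _
    rw [hφ s hs, heq, hb, decide_eq_true_iff]

end Pool.Agent.X147.Hc
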