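import Mathlib
import Pool.Agent.X147.HsC

open Finset

namespace Pool.Agent.X147.Hc

variable {h : ℕ} {k : ℕ} {H : Finset (Finset (Fin h))} {f : Bool → Finset (Fin h)}
    {R : Bool → Multiset (Option (Fin h)) → Prop}
    {g : Finset ℕ → Bool → ℕ → Fin h} {st : ℕ → ℕ} {ep : ℕ → Finset ℕ}
    {p : Bool → ℕ → Fin h}

/-- sequential choice of the gadget vertices, avoiding the perturbed sets -/
lemma choose_w (D : Frame k H f R g st ep p) (P : Set (Finset ℕ))
    (hPk : ∀ e ∈ P, e.card = k) (hloc : ∀ v, {e ∈ P | v ∈ e}.Finite) {e : Finset ℕ}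
    (he : e.card = k) (t : ℕ) (b : Bool) (J : Finset (Fin h)) :
    ∃ w : Fin h → ℕ, (∀ j ∈ J, j ∉ f b → st (w j) = t ∧ p b (w j) = j) ∧
      (∀ q ∈ P, q ⊆ e ∪ J.image w → q = e) := by
  classical
  induction J using Finset.induction_on with
  | empty =>
    refine ⟨fun _ => 0, by simp, ?_⟩
    intro q hp hpe
    rw [Finset.image_empty, Finset.union_empty] at hpe
    exact Finset.eq_of_subset_of_card_le hpe (by rw [he, hPk q hp])
  | insert j J hj ih =>
    obtain ⟨w, hw1, hw2⟩ := ih
    set A : Finset ℕ := e ∪ J.image w with hA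
    have hfin : (⋃ v ∈ (A : Set ℕ), ⋃ q ∈ {q ∈ P | v ∈ q}, (q : Set ℕ)).Finite := by
      refine Set.Finite.biUnion (Finset.finite_toSet A) fun v _ => ?_
      exact Set.Finite.biUnion (hloc v) fun q _ => Finset.finite_toSet q
    obtain ⟨N, hN⟩ := hfin.bddAbove
    have hex : ∃ n, N + 1 ≤ n ∧ (j ∉ f b → st n = t ∧ p b n = j) := by
      by_cases hjf : j ∈ f b
      · exact ⟨N + 1, le_rfl, fun h => absurd hjf h⟩
      · obtain ⟨n, hn, h1, h2⟩ := D.pinf t b j (N + 1) hjf
        exact ⟨n, hn, fun _ => ⟨h1, h2⟩⟩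
    obtain ⟨n, hn, hTn⟩ := hex
    have hjimg : ∀ i ∈ J, Function.update w j n i = w i := by
      intro i hi
      rw [Function.update_of_ne]
      rintro rfl
      exact hj hi
    refine ⟨Function.update w j n, ?_, ?_⟩
    · intro i hi hif
      rcases Finset.mem_insert.1 hi with h1 | h1
      · subst h1
        rw [Function.update_self]
        exact hTn hif
      · rw [hjimg i h1]
        exact hw1 i h1 hif
    · intro q hp hpe
      have himg : (insert j J).image (Function.update w j n) = insert n (J.image w) := by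
        rw [Finset.image_insert, Function.update_self]
        congr 1
        exact Finset.image_congr fun i hi => hjimg i hi
      rw [himg] at hpe
      by_cases hnp : n ∈ q
      · exfalso
        have h1 : 1 < q.card := by rw [hPk q hp]; have := D.kpos; omega
        obtain ⟨v, hv, hvn⟩ := Finset.exists_mem_ne h1 n
        have hvA : v ∈ A := by
          have := hpe hv
          rw [Finset.mem_union, Finset.mem_insert] at this
          rw [hA, Finset.mem_union]
          rcases this with h2 | h2 | h2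
          · exact Or.inl h2
          · exact absurd h2 hvn
          · exact Or.inr h2
        have hmem : n ∈ (⋃ v ∈ (A : Set ℕ), ⋃ q ∈ {q ∈ P | v ∈ q}, (q : Set ℕ)) := by
          refine Set.mem_biUnion (Finset.mem_coe.2 hvA) ?_
          exact Set.mem_biUnion (show q ∈ {q ∈ P | v ∈ q} from ⟨hp, hv⟩) (Finset.mem_coe.2 hnp)
        have := hN hmem
        omega
      · apply hw2 q hp
        intro x hx
        have h2 := hpe hx
        rw [Finset.mem_union, Finset.mem_insert] at h2
        rw [hA, Finset.mem_union]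
        rcases h2 with h3 | h3 | h3
        · exact Or.inl h3
        · subst h3; exact absurd hx hnp
        · exact Or.inr h3

open Classical in
theorem robust (D : Frame k H f R g st ep p) (P : Set (Finset ℕ)) (hP : P.Nonempty)
    (hPk : ∀ e ∈ P, e.card = k) (hloc : ∀ v, {e ∈ P | v ∈ e}.Finite) :
    ∃ φ : Fin h ↪ ℕ, ∀ s : Finset (Fin h), s.card = k →
      (s ∈ H ↔ s.map φ ∈ symmDiff {s | E k R g st ep p s} P) := by
  obtain ⟨e, heP⟩ := hP
  have he := hPk e heP
  obtain ⟨t, ht⟩ := D.epsurj e he
  set b := decide (E k R g st ep p e) with hb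
  obtain ⟨w, hw1, hw2⟩ := choose_w D P hPk hloc he t b ((univ : Finset (Fin h)) \ f b)
  have hw : ∀ j, j ∉ f b → st (w j) = t ∧ p b (w j) = j := fun j hj =>
    hw1 j (Finset.mem_sdiff.2 ⟨Finset.mem_univ _, hj⟩) hj
  have hste : ∀ x ∈ e, st x < t := fun x hx => D.epst t x (by rw [ht]; exact hx)
  -- inverse of g on e
  have hinv : ∀ x, x ∈ f b → ∃ a ∈ e, g e b a = x := by
    intro x hx
    rw [← D.gimg e b he] at hx
    exact Finset.mem_image.1 hx
  choose! u hu1 hu2 using hinv
  set φ₀ : Fin h → ℕ := fun x => if x ∈ f b then u x else w x with hφ₀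
  have hφin : ∀ x, x ∈ f b → φ₀ x = u x := fun x hx => if_pos hx
  have hφout : ∀ x, x ∉ f b → φ₀ x = w x := fun x hx => if_neg hx
  have hwe : ∀ x, x ∉ f b → w x ∉ e := fun x hx hxe =>
    absurd (hste _ hxe) (by rw [(hw x hx).1]; omega)
  have hlab : ∀ x, lab g st ep p t b (φ₀ x) = some x := by
    intro x
    by_cases hx : x ∈ f b
    · rw [hφin x hx]
      unfold lab
      rw [ht, if_pos (hu1 x hx), hu2 x hx]
    · rw [hφout x hx]
      unfold lab
      rw [ht, if_neg (hwe x hx), if_pos (hw x hx).1, (hw x hx).2]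
  have hinj : Function.Injective φ₀ := by
    intro x y hxy
    have := hlab x
    rw [hxy, hlab y] at this
    exact (Option.some.inj this).symm
  set φ : Fin h ↪ ℕ := ⟨φ₀, hinj⟩ with hφ
  refine ⟨φ, fun s hs => ?_⟩
  by_cases hsf : s = f b
  · have hse : s.map φ = e := by
      apply Finset.eq_of_subset_of_card_le
      · intro n hn
        obtain ⟨x, hx, rfl⟩ := Finset.mem_map.1 hn
        rw [hsf] at hx
        show φ₀ x ∈ e
        rw [hφin x hx]; exact hu1 x hx
      · rw [he, Finset.card_map, hs]
    rw [hse, Set.mem_symmDiff]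
    have h1 : s ∈ H ↔ ¬ E k R g st ep p e := by
      rw [hsf]
      cases hbb : b with
      | true =>
        have : E k R g st ep p e := by
          rw [hb] at hbb; exact of_decide_eq_true hbb
        exact ⟨fun h => absurd h D.ftrue, fun h => absurd this h⟩
      | false =>
        have : ¬ E k R g st ep p e := by
          rw [hb] at hbb; exact of_decide_eq_false hbb
        exact ⟨fun _ => this, fun _ => D.ffalse⟩
    rw [h1]
    constructor
    · intro h2; exact Or.inr ⟨heP, h2⟩
    · rintro (⟨_, h2⟩ | ⟨_, h2⟩)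
      · exact absurd heP h2
      · exact h2
  · have hex : ∃ x ∈ s, x ∉ f b := by
      by_contra hcon
      push Not at hcon
      exact hsf (Finset.eq_of_subset_of_card_le hcon (by rw [D.fcard, hs]))
    obtain ⟨x₀, hx₀s, hx₀f⟩ := hex
    have hst0 : st (φ x₀) = t := by
      show st (φ₀ x₀) = t
      rw [hφout x₀ hx₀f]; exact (hw x₀ hx₀f).1
    have hsup : (s.map φ).sup st = t := by
      apply le_antisymm
      · apply Finset.sup_le
        intro n hn
        obtain ⟨x, _, rfl⟩ := Finset.mem_map.1 hn
        show st (φ₀ x) ≤ t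
        by_cases hx : x ∈ f b
        · rw [hφin x hx]; exact (hste _ (hu1 x hx)).le
        · rw [hφout x hx]; exact (hw x hx).1.le
      · rw [← hst0]
        exact Finset.le_sup (f := st) (Finset.mem_map_of_mem φ hx₀s)
    have hse : s.map φ ≠ e := by
      intro hse
      have : φ x₀ ∈ e := hse ▸ Finset.mem_map_of_mem φ hx₀s
      have := hste _ this
      omega
    have hnotP : s.map φ ∉ P := by
      intro hmem
      apply hse
      apply hw2 _ hmem
      intro n hn
      obtain ⟨x, _, rfl⟩ := Finset.mem_map.1 hn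
      rw [Finset.mem_union]
      by_cases hx : x ∈ f b
      · left
        show φ₀ x ∈ e
        rw [hφin x hx]; exact hu1 x hx
      · right
        show φ₀ x ∈ _
        rw [hφout x hx]
        exact Finset.mem_image_of_mem w (Finset.mem_sdiff.2 ⟨Finset.mem_univ _, hx⟩)
    have hEiff : E k R g st ep p (s.map φ) ↔ s ∈ H := by
      rw [E_def D, hsup, ht, ← hb, Finset.map_val, Multiset.map_map]
      have : lab g st ep p t b ∘ φ = some := by funext x; exact hlab x
      rw [this, D.rule b s hs hsf]
      constructor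
      · exact fun h => h.2
      · exact fun h => ⟨by rw [Finset.card_map, hs], h⟩
    rw [← hEiff, Set.mem_symmDiff]
    constructor
    · intro h2; exact Or.inl ⟨h2, hnotP⟩
    · rintro (⟨h2, _⟩ | ⟨h2, _⟩)
      · exact h2
      · exact absurd h2 hnotP

/-- existence of the frame -/
theorem exists_frame (hk : 2 ≤ k) (hunif : ∀ s ∈ H, s.card = k)
    (h0 : SideOK k H False) (h1 : SideOK k H True) :
    ∃ (f : Bool → Finset (Fin h)) (R : Bool → Multiset (Option (Fin h)) → Prop)
      (g : Finset ℕ → Bool → ℕ → Fin h) (st : ℕ → ℕ) (ep : ℕ → Finset ℕ)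
      (p : Bool → ℕ → Fin h), Frame k H f R g st ep p := by
  classical
  obtain ⟨f₀, R₀, hf₀k, hf₀, hR₀, hb₀⟩ := h0
  obtain ⟨f₁, R₁, hf₁k, hf₁, hR₁, hb₁⟩ := h1
  have hf₀H : f₀ ∈ H := by simpa using hf₀
  have hf₁H : f₁ ∉ H := by simpa using hf₁
  set f : Bool → Finset (Fin h) := fun b => if b then f₁ else f₀ with hf
  set R : Bool → Multiset (Option (Fin h)) → Prop := fun b => if b then R₁ else R₀ with hR
  have hfcard : ∀ b, (f b).card = k := by
    intro b; cases b
    · exact hf₀k
    · exact hf₁k
  have hne01 : f₀ ≠ f₁ := fun h => hf₁H (h ▸ hf₀H)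
  have hout : ∀ b, ∃ j, j ∉ f b := by
    intro b
    by_contra hcon
    push Not at hcon
    have hu : f b = univ := Finset.eq_univ_iff_forall.2 hcon
    have hall : ∀ s : Finset (Fin h), s.card = k → s = univ := by
      intro s hs
      apply Finset.eq_of_subset_of_card_le (Finset.subset_univ _)
      rw [← hu, hfcard, hs]
    exact hne01 ((hall f₀ hf₀k).trans (hall f₁ hf₁k).symm)
  have hq : ∀ b, ∃ q : ℕ → {j // j ∉ f b}, Function.Surjective q := by
    intro b
    obtain ⟨j, hj⟩ := hout b
    have : Nonempty {j // j ∉ f b} := ⟨⟨j, hj⟩⟩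
    exact exists_surjective_nat _
  choose q hq using hq
  have hg : ∀ (e : Finset ℕ) (b : Bool), ∃ γ : ℕ → Fin h, e.card = k →
      Set.InjOn γ e ∧ e.image γ = f b := by
    intro e b
    have hne : (f b).Nonempty := by
      rw [← Finset.card_pos, hfcard]; omega
    obtain ⟨z, _⟩ := hne
    by_cases he : e.card = k
    · have heq : e.card = (f b).card := by rw [he, hfcard]
      set ε := Finset.equivOfCardEq heq with hε
      refine ⟨fun x => if hx : x ∈ e then (ε ⟨x, hx⟩ : Fin h) else z, fun _ => ⟨?_, ?_⟩⟩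
      · intro x hx y hy hxy
        have hx' : x ∈ e := hx
        have hy' : y ∈ e := hy
        simp only [dif_pos hx', dif_pos hy'] at hxy
        have := ε.injective (Subtype.ext hxy)
        exact congrArg Subtype.val this
      · ext t
        rw [Finset.mem_image]
        constructor
        · rintro ⟨x, hx, rfl⟩
          rw [dif_pos hx]
          exact (ε ⟨x, hx⟩).2
        · intro ht
          refine ⟨(ε.symm ⟨t, ht⟩ : ℕ), (ε.symm ⟨t, ht⟩).2, ?_⟩
          rw [dif_pos (ε.symm ⟨t, ht⟩).2]
          simp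
    · exact ⟨fun _ => z, fun h => absurd h he⟩
  choose g hg using hg
  obtain ⟨Q, hQ⟩ := exists_surjective_nat (Finset ℕ)
  set st : ℕ → ℕ := fun n => (Nat.unpair n).1 with hst
  set ep : ℕ → Finset ℕ := fun t =>
    if (∀ x ∈ Q (Nat.unpair t).2, st x < t) ∧ (Q (Nat.unpair t).2).card = k then
      Q (Nat.unpair t).2 else ∅ with hep
  refine ⟨f, R, g, st, ep, fun b n => (q b (Nat.unpair (Nat.unpair n).2).1 : Fin h), ?_⟩
  refine ⟨hk, hunif, hfcard, hf₁H, hf₀H, ?_, ?_, fun e b he => (hg e b he).1,
    fun e b he => (hg e b he).2, fun b n => (q b _).2, ?_, ?_, ?_, ?_⟩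
  · intro b; cases b
    · exact hR₀
    · exact hR₁
  · intro b; cases b
    · have : ((false : Bool) = true) = False := by simp
      rw [this]; exact hb₀
    · have : ((true : Bool) = true) = True := by simp
      rw [this]; exact hb₁
  · intro t x hx
    rw [hep] at hx
    simp only at hx
    split_ifs at hx with hc
    · exact hc.1 x hx
    · simp at hx
  · intro t
    rw [hep]
    simp only
    split_ifs with hc
    · exact Or.inl hc.2
    · exact Or.inr rfl
  · intro e he
    obtain ⟨m, hm⟩ := hQ e
    refine ⟨Nat.pair (e.sup st + 1) m, ?_⟩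
    have h2 : (Nat.unpair (Nat.pair (e.sup st + 1) m)).2 = m := by rw [Nat.unpair_pair]
    rw [hep]
    simp only
    rw [h2, hm, if_pos]
    refine ⟨fun x hx => ?_, he⟩
    have h3 : st x ≤ e.sup st := Finset.le_sup (f := st) hx
    have h4 := Nat.left_le_pair (e.sup st + 1) m
    omega
  · intro t b j N hj
    obtain ⟨m, hm⟩ := hq b ⟨j, hj⟩
    refine ⟨Nat.pair t (Nat.pair m N), ?_, ?_, ?_⟩
    · exact le_trans (Nat.right_le_pair m N) (Nat.right_le_pair t _)
    · simp [hst]
    · simp [hm]

end Pool.Agent.X147.Hc
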