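import Mathlib
import Pool.Agent.X147.HsC

open Finset

namespace Pool.Agent.X147.Hc

variable {h : ℕ}

/-- in-gadget condition for the edge `f` and the in-class rule `D` -/
def InOK (H : Finset (Finset (Fin h))) (f : Finset (Fin h))
    (D : Multiset (Option (Fin h)) → Prop) : Prop :=
  ∀ mu : Fin h → Fin h,
    (∀ x y, mu x = mu y → mu x ∈ f → x = y) →
    (∀ s : Finset (Fin h), s.card = 3 → (∃ x ∈ s, mu x ∉ f) →
      (s ∈ H ↔ s.image mu ∈ H ∨ ((s.image mu).card ≠ 3 ∧ D (s.val.map (fun x => some (mu x)))))) →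
    (∀ s : Finset (Fin h), s.card = 3 → s.image mu = f → s ∉ H) → False

def Unc (H : Finset (Finset (Fin h))) (x y : Fin h) : Prop :=
  x ≠ y ∧ ∀ s ∈ H, x ∈ s → y ∉ s

def Full (H : Finset (Finset (Fin h))) (x y : Fin h) : Prop :=
  x ≠ y ∧ ∀ s : Finset (Fin h), s.card = 3 → x ∈ s → y ∈ s → s ∈ H

def Cl (H : Finset (Finset (Fin h))) (d : Prop) (v v' : Fin h) : Prop :=
  v ≠ v' ∧ (∀ s : Finset (Fin h), s.card = 3 → v ∈ s → v' ∈ s → (s ∈ H ↔ d)) ∧
    (∀ t : Finset (Fin h), t.card = 2 → v ∉ t → v' ∉ t → (insert v t ∈ H ↔ insert v' t ∈ H))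

variable {H : Finset (Finset (Fin h))}

lemma Unc.symm {x y : Fin h} (hu : Unc H x y) : Unc H y x :=
  ⟨hu.1.symm, fun s hs hy hx => hu.2 s hs hx hy⟩

lemma Full.symm {x y : Fin h} (hu : Full H x y) : Full H y x :=
  ⟨hu.1.symm, fun s hs hy hx => hu.2 s hs hx hy⟩

lemma Cl.symm {d : Prop} {x y : Fin h} (hu : Cl H d x y) : Cl H d y x :=
  ⟨hu.1.symm, fun s hs hy hx => hu.2.1 s hs hx hy, fun t ht hy hx => (hu.2.2 t ht hx hy).symm⟩

lemma Cl.unc (hunif : ∀ s ∈ H, s.card = 3) {x y : Fin h} (hu : Cl H False x y) : Unc H x y :=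
  ⟨hu.1, fun s hs hx hy => (hu.2.1 s (hunif s hs) hx hy).1 hs⟩

lemma Cl.full {x y : Fin h} (hu : Cl H True x y) : Full H x y :=
  ⟨hu.1, fun s hs hx hy => (hu.2.1 s hs hx hy).2 trivial⟩

lemma card3 {a b c : Fin h} (hab : a ≠ b) (hac : a ≠ c) (hbc : b ≠ c) :
    ({a, b, c} : Finset (Fin h)).card = 3 := Finset.card_eq_three.2 ⟨a, b, c, hab, hac, hbc, rfl⟩

lemma unc_full (hh : 3 ≤ h) {x y z : Fin h} (hu : Unc H x y) (hf : Full H x z) : False := by
  by_cases hyz : y = z
  · subst hyz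
    have : ∃ g : Fin h, g ∉ ({x, y} : Finset (Fin h)) := by
      by_contra hcon
      push Not at hcon
      have h1 := Finset.eq_univ_iff_forall.2 hcon
      have h2 := Finset.card_le_two (a := x) (b := y)
      rw [h1, Finset.card_univ, Fintype.card_fin] at h2
      omega
    obtain ⟨g, hg⟩ := this
    simp only [Finset.mem_insert, Finset.mem_singleton, not_or] at hg
    exact hu.2 {x, y, g} (hf.2 _ (card3 hu.1 (Ne.symm hg.1) (Ne.symm hg.2)) (by simp) (by simp))
      (by simp) (by simp)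
  · exact hu.2 {x, y, z} (hf.2 _ (card3 hu.1 hf.1 hyz) (by simp) (by simp)) (by simp) (by simp)

/-- same labels give clones -/
lemma same_label {f : Finset (Fin h)} {D : Multiset (Option (Fin h)) → Prop}
    (hunif : ∀ s ∈ H, s.card = 3) {mu : Fin h → Fin h}
    (h1 : ∀ x y, mu x = mu y → mu x ∈ f → x = y)
    (h2 : ∀ s : Finset (Fin h), s.card = 3 → (∃ x ∈ s, mu x ∉ f) →
      (s ∈ H ↔ s.image mu ∈ H ∨ ((s.image mu).card ≠ 3 ∧ D (s.val.map (fun x => some (mu x))))))
    {v v' : Fin h} (hne : v ≠ v') (hmu : mu v = mu v') :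
    mu v ∉ f ∧
    (∀ s : Finset (Fin h), s.card = 3 → v ∈ s → v' ∈ s →
      (s ∈ H ↔ D (s.val.map (fun x => some (mu x))))) ∧
    (∀ t : Finset (Fin h), t.card = 2 → v ∉ t → v' ∉ t → (insert v t ∈ H ↔ insert v' t ∈ H)) := by
  have hvf : mu v ∉ f := fun hm => hne (h1 v v' hmu hm)
  refine ⟨hvf, ?_, ?_⟩
  · intro s hs hv hv'
    have hcard : (s.image mu).card ≠ 3 := by
      intro hc
      have : (s.image mu).card = s.card := by rw [hc, hs]
      rw [Finset.card_image_iff] at this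
      exact hne (this (Finset.mem_coe.2 hv) (Finset.mem_coe.2 hv') hmu)
    rw [h2 s hs ⟨v, hv, hvf⟩]
    constructor
    · rintro (h3 | h3)
      · exact absurd (hunif _ h3) hcard
      · exact h3.2
    · exact fun h3 => Or.inr ⟨hcard, h3⟩
  · intro t ht hv hv'
    have hv'f : mu v' ∉ f := hmu ▸ hvf
    rw [h2 (insert v t) (by rw [Finset.card_insert_of_notMem hv, ht])
      ⟨v, Finset.mem_insert_self _ _, hvf⟩,
      h2 (insert v' t) (by rw [Finset.card_insert_of_notMem hv', ht])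
      ⟨v', Finset.mem_insert_self _ _, hv'f⟩]
    rw [Finset.image_insert, Finset.image_insert, hmu, Finset.insert_val_of_notMem hv,
      Finset.insert_val_of_notMem hv', Multiset.map_cons, Multiset.map_cons, hmu]

/-- counting lemma -/
lemma counting {f : Finset (Fin h)} (hf : f ∈ H)
    (rho nu : Fin h → Fin h) (hrho : ∀ a ∈ f, rho a = a)
    (hinj : ∀ x y, rho x = x → rho y = y → nu x = nu y → x = y)
    (hidem : ∀ x, rho (nu x) = nu x)
    (hmap : ∀ s ∈ H, (∀ x ∈ s, rho x = x) → s.image nu ∈ H ∧ s.image nu ≠ f) : False := by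
  classical
  set S := H.filter (fun s => ∀ x ∈ s, rho x = x) with hS
  have hfS : f ∈ S := Finset.mem_filter.2 ⟨hf, hrho⟩
  have hle : S.card ≤ (S.erase f).card := by
    apply Finset.card_le_card_of_injOn (fun s => s.image nu)
    · intro s hs
      have hs' := Finset.mem_filter.1 (Finset.mem_coe.1 hs)
      obtain ⟨h1, h2⟩ := hmap s hs'.1 hs'.2
      rw [Finset.mem_coe, Finset.mem_erase]
      refine ⟨h2, Finset.mem_filter.2 ⟨h1, ?_⟩⟩
      intro x hx
      obtain ⟨y, _, rfl⟩ := Finset.mem_image.1 hx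
      exact hidem y
    · intro s hs s' hs' hss
      have hs1 := (Finset.mem_filter.1 (Finset.mem_coe.1 hs)).2
      have hs1' := (Finset.mem_filter.1 (Finset.mem_coe.1 hs')).2
      have hss' : s.image nu = s'.image nu := hss
      ext x
      constructor
      · intro hx
        have : nu x ∈ s'.image nu := hss' ▸ Finset.mem_image_of_mem nu hx
        obtain ⟨y, hy, hyx⟩ := Finset.mem_image.1 this
        rw [hinj x y (hs1 x hx) (hs1' y hy) hyx.symm]
        exact hy
      · intro hx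
        have : nu x ∈ s.image nu := hss' ▸ Finset.mem_image_of_mem nu hx
        obtain ⟨y, hy, hyx⟩ := Finset.mem_image.1 this
        rw [hinj x y (hs1' x hx) (hs1 y hy) hyx.symm]
        exact hy
  have := Finset.card_erase_lt_of_mem hfS
  omega

end Pool.Agent.X147.Hc
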