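import Mathlib
import Pool.Agent.X147.HsE

open Finset

namespace Pool.Agent.X147.Hc

variable {h : ℕ} {H : Finset (Finset (Fin h))}

/-- equality or clones -/
def Rel (H : Finset (Finset (Fin h))) (d : Prop) (v v' : Fin h) : Prop := v = v' ∨ Cl H d v v'

lemma Rel.symm {d : Prop} {v v' : Fin h} (hr : Rel H d v v') : Rel H d v' v := by
  rcases hr with h1 | h1
  · exact Or.inl h1.symm
  · exact Or.inr h1.symm

lemma Rel.trans {d : Prop} {a b c : Fin h} (h1 : Rel H d a b) (h2 : Rel H d b c) :
    Rel H d a c := by
  rcases h1 with h1 | h1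
  · subst h1; exact h2
  rcases h2 with h2 | h2
  · subst h2; exact Or.inr h1
  by_cases hac : a = c
  · exact Or.inl hac
  refine Or.inr ⟨hac, ?_, ?_⟩
  · intro s hs ha hc
    by_cases hb : b ∈ s
    · exact h1.2.1 s hs ha hb
    · -- s = insert a t with t = s.erase a, replace a by b
      have hcard : (s.erase a).card = 2 := by rw [Finset.card_erase_of_mem ha, hs]
      have h3 := h1.2.2 (s.erase a) hcard (Finset.notMem_erase a s)
        (fun hm => hb (Finset.mem_of_mem_erase hm))
      rw [Finset.insert_erase ha] at h3
      rw [h3]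
      apply h2.2.1
      · rw [Finset.card_insert_of_notMem (fun hm => hb (Finset.mem_of_mem_erase hm)), hcard]
      · exact Finset.mem_insert_self _ _
      · exact Finset.mem_insert_of_mem (Finset.mem_erase.2 ⟨Ne.symm hac, hc⟩)
  · intro t ht ha hc
    by_cases hb : b ∈ t
    · rw [h1.2.1 (insert a t) (by rw [Finset.card_insert_of_notMem ha, ht])
        (Finset.mem_insert_self _ _) (Finset.mem_insert_of_mem hb),
        h2.2.1 (insert c t) (by rw [Finset.card_insert_of_notMem hc, ht])
        (Finset.mem_insert_of_mem hb) (Finset.mem_insert_self _ _)]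
    · rw [h1.2.2 t ht ha hb, h2.2.2 t ht hb hc]

lemma image_pair {mu : Fin h → Fin h} {t : Finset (Fin h)} (ht : t.card = 2) :
    (t.image mu).card ≤ 2 := ht ▸ Finset.card_image_le

/-- labels that are clones give clones -/
lemma clone_label {f : Finset (Fin h)} {d : Prop}
    (hunif : ∀ s ∈ H, s.card = 3) (hf : ∀ a ∈ f, ∀ v, ¬ Cl H d a v) {mu : Fin h → Fin h}
    (h1 : ∀ x y, mu x = mu y → mu x ∈ f → x = y)
    (h2 : ∀ s : Finset (Fin h), s.card = 3 → (∃ x ∈ s, mu x ∉ f) →
      (s ∈ H ↔ s.image mu ∈ H ∨ ((s.image mu).card ≠ 3 ∧ d)))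
    {v v' : Fin h} (hr : Rel H d (mu v) (mu v')) : Rel H d v v' := by
  by_cases hvv : v = v'
  · exact Or.inl hvv
  rcases hr with hr | hr
  · have h2' : ∀ s : Finset (Fin h), s.card = 3 → (∃ x ∈ s, mu x ∉ f) →
      (s ∈ H ↔ s.image mu ∈ H ∨ ((s.image mu).card ≠ 3 ∧
        (fun _ : Multiset (Option (Fin h)) => d) (s.val.map (fun x => some (mu x))))) := h2
    obtain ⟨_, h3, h4⟩ := same_label (D := fun _ => d) hunif h1 h2' hvv hr
    exact Or.inr ⟨hvv, h3, h4⟩
  · have hvf : mu v ∉ f := fun hm => hf _ hm _ hr
    have hv'f : mu v' ∉ f := fun hm => hf _ hm _ hr.symm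
    refine Or.inr ⟨hvv, ?_, ?_⟩
    · intro s hs hv hv'
      rw [h2 s hs ⟨v, hv, hvf⟩]
      by_cases hc : (s.image mu).card = 3
      · rw [hr.2.1 (s.image mu) hc (Finset.mem_image_of_mem mu hv)
          (Finset.mem_image_of_mem mu hv')]
        constructor
        · rintro (h3 | h3)
          · exact h3
          · exact h3.2
        · exact fun h3 => Or.inl h3
      · constructor
        · rintro (h3 | h3)
          · exact absurd (hunif _ h3) hc
          · exact h3.2
        · exact fun h3 => Or.inr ⟨hc, h3⟩
    · intro t ht hv hv'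
      have hcv : (insert v t).card = 3 := by rw [Finset.card_insert_of_notMem hv, ht]
      have hcv' : (insert v' t).card = 3 := by rw [Finset.card_insert_of_notMem hv', ht]
      rw [h2 (insert v t) hcv ⟨v, Finset.mem_insert_self _ _, hvf⟩,
        h2 (insert v' t) hcv' ⟨v', Finset.mem_insert_self _ _, hv'f⟩]
      rw [Finset.image_insert, Finset.image_insert]
      set T := t.image mu with hT
      have hTle : T.card ≤ 2 := image_pair ht
      have hlow : ∀ u : Finset (Fin h), u.card ≤ 2 → ((u ∈ H ∨ (u.card ≠ 3 ∧ d)) ↔ d) := by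
        intro u hu
        constructor
        · rintro (h3 | h3)
          · have := hunif _ h3; omega
          · exact h3.2
        · exact fun h3 => Or.inr ⟨by omega, h3⟩
      by_cases hT2 : T.card = 2
      · by_cases hm : mu v ∈ T <;> by_cases hm' : mu v' ∈ T
        · rw [Finset.insert_eq_self.2 hm, Finset.insert_eq_self.2 hm']
        · rw [Finset.insert_eq_self.2 hm, hlow T hTle]
          have hc : (insert (mu v') T).card = 3 := by
            rw [Finset.card_insert_of_notMem hm', hT2]
          have h3 := hr.2.1 (insert (mu v') T) hc (Finset.mem_insert_of_mem hm)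
            (Finset.mem_insert_self _ _)
          constructor
          · exact fun h4 => Or.inl (h3.2 h4)
          · rintro (h4 | h4)
            · exact h3.1 h4
            · exact h4.2
        · rw [Finset.insert_eq_self.2 hm', hlow T hTle]
          have hc : (insert (mu v) T).card = 3 := by
            rw [Finset.card_insert_of_notMem hm, hT2]
          have h3 := hr.2.1 (insert (mu v) T) hc (Finset.mem_insert_self _ _)
            (Finset.mem_insert_of_mem hm')
          constructor
          · rintro (h4 | h4)
            · exact h3.1 h4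
            · exact h4.2
          · exact fun h4 => Or.inl (h3.2 h4)
        · have h3 := hr.2.2 T hT2 hm hm'
          have hc : (insert (mu v) T).card = 3 := by
            rw [Finset.card_insert_of_notMem hm, hT2]
          have hc' : (insert (mu v') T).card = 3 := by
            rw [Finset.card_insert_of_notMem hm', hT2]
          rw [h3, hc, hc']
      · have hT1 : T.card ≤ 1 := by omega
        have ha : (insert (mu v) T).card ≤ 2 := by
          have := Finset.card_insert_le (mu v) T; omega
        have hb : (insert (mu v') T).card ≤ 2 := by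
          have := Finset.card_insert_le (mu v') T; omega
        rw [hlow _ ha, hlow _ hb]

/-- replacing vertices by clones keeps edges -/
lemma replace3 {d : Prop} {rho : Fin h → Fin h} (hrho : ∀ v, Rel H d v (rho v))
    (hsep : ∀ v v', Rel H d v v' → rho v = rho v') {a b c : Fin h}
    (hab : rho a ≠ rho b) (hac : rho a ≠ rho c) (hbc : rho b ≠ rho c)
    (hH : ({a, b, c} : Finset (Fin h)) ∈ H) :
    ({rho a, rho b, rho c} : Finset (Fin h)) ∈ H := by
  have hid : ∀ v, rho (rho v) = rho v := fun v => (hsep v (rho v) (hrho v)).symm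
  have step : ∀ x y z : Fin h, rho x ≠ rho y → rho x ≠ rho z → rho y ≠ rho z →
      ({x, y, z} : Finset (Fin h)) ∈ H → ({rho x, y, z} : Finset (Fin h)) ∈ H := by
    intro x y z hxy hxz hyz hm
    rcases hrho x with h1 | h1
    · rw [← h1]; exact hm
    · have hyz' : y ≠ z := fun h => hyz (by rw [h])
      have hc : ({y, z} : Finset (Fin h)).card = 2 := Finset.card_pair hyz'
      have hx : x ∉ ({y, z} : Finset (Fin h)) := by
        simp only [Finset.mem_insert, Finset.mem_singleton, not_or]
        exact ⟨fun h => hxy (by rw [h]), fun h => hxz (by rw [h])⟩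
      have hrx : rho x ∉ ({y, z} : Finset (Fin h)) := by
        simp only [Finset.mem_insert, Finset.mem_singleton, not_or]
        constructor
        · intro h2; apply hxy; rw [← hid x, h2]
        · intro h2; apply hxz; rw [← hid x, h2]
      exact (h1.2.2 {y, z} hc hx hrx).1 hm
  have h1 := step a b c hab hac hbc hH
  have h2 : ({b, rho a, c} : Finset (Fin h)) ∈ H := by
    have : ({b, rho a, c} : Finset (Fin h)) = {rho a, b, c} := by
      ext x; simp only [Finset.mem_insert, Finset.mem_singleton]; tauto
    rw [this]; exact h1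
  have h3 := step b (rho a) c (by rw [hid]; exact hab.symm) hbc (by rw [hid]; exact hac) h2
  have h4 : ({c, rho a, rho b} : Finset (Fin h)) ∈ H := by
    have : ({c, rho a, rho b} : Finset (Fin h)) = {rho b, rho a, c} := by
      ext x; simp only [Finset.mem_insert, Finset.mem_singleton]; tauto
    rw [this]; exact h3
  have h5 := step c (rho a) (rho b) (by rw [hid]; exact hac.symm) (by rw [hid]; exact hbc.symm)
    (by rw [hid, hid]; exact hab) h4
  have : ({rho a, rho b, rho c} : Finset (Fin h)) = {rho c, rho a, rho b} := by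
    ext x; simp only [Finset.mem_insert, Finset.mem_singleton]; tauto
  rw [this]; exact h5

theorem inok_const {f : Finset (Fin h)} (hfH : f ∈ H) (d : Prop)
    (hunif : ∀ s ∈ H, s.card = 3) (hf : ∀ a ∈ f, ∀ v, ¬ Cl H d a v) :
    InOK H f (fun _ => d) := by
  classical
  intro mu h1 h2 h3
  have h2' : ∀ s : Finset (Fin h), s.card = 3 → (∃ x ∈ s, mu x ∉ f) →
      (s ∈ H ↔ s.image mu ∈ H ∨ ((s.image mu).card ≠ 3 ∧ d)) := h2
  let S : Setoid (Fin h) := ⟨Rel H d, ⟨fun _ => Or.inl rfl, Rel.symm, Rel.trans⟩⟩
  set rho : Fin h → Fin h := fun v => (Quotient.mk S v).out with hrhodef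
  have hrho : ∀ v, Rel H d v (rho v) := fun v => Rel.symm (Quotient.mk_out (s := S) v)
  have hsep : ∀ v v', Rel H d v v' → rho v = rho v' := by
    intro v v' hr
    have : (Quotient.mk S v) = (Quotient.mk S v') := Quotient.sound hr
    show (Quotient.mk S v).out = (Quotient.mk S v').out
    rw [this]
  have hsep' : ∀ v v', rho v = rho v' → Rel H d v v' := by
    intro v v' hr
    exact Rel.trans (hrho v) (hr ▸ Rel.symm (hrho v'))
  have hfix : ∀ a ∈ f, rho a = a := by
    intro a ha
    rcases hrho a with h4 | h4
    · exact h4.symm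
    · exact absurd h4 (hf a ha _)
  have hrefl : ∀ x y, rho x = x → rho y = y → rho (mu x) = rho (mu y) → x = y := by
    intro x y hx hy hxy
    have h4 := clone_label hunif hf h1 h2' (hsep' _ _ hxy)
    rw [← hx, ← hy]
    exact hsep _ _ h4
  refine counting hfH rho (fun x => rho (mu x)) hfix hrefl ?_ ?_
  · intro x
    exact (hsep _ _ (hrho (mu x))).symm
  · intro s hs hsr
    have hs3 := hunif s hs
    have hinj : Set.InjOn (fun x => rho (mu x)) s := fun x hx y hy hxy =>
      hrefl x y (hsr x hx) (hsr y hy) hxy
    have hinjmu : Set.InjOn mu s := fun x hx y hy hxy =>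
      hinj hx hy (show rho (mu x) = rho (mu y) by rw [hxy])
    have hcard : (s.image mu).card = 3 := by
      rw [Finset.card_image_of_injOn hinjmu, hs3]
    have hne : s.image mu ≠ f := fun h4 => h3 s hs3 h4 hs
    have hmem : s.image mu ∈ H := by
      by_cases hex : ∃ x ∈ s, mu x ∉ f
      · rcases (h2' s hs3 hex).1 hs with h4 | h4
        · exact h4
        · exact absurd hcard h4.1
      · push Not at hex
        exfalso
        apply hne
        apply Finset.eq_of_subset_of_card_le
        · intro n hn
          obtain ⟨x, hx, rfl⟩ := Finset.mem_image.1 hn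
          exact hex x hx
        · rw [hcard, hunif f hfH]
    obtain ⟨a, b, c, hab, hac, hbc, rfl⟩ := Finset.card_eq_three.1 hs3
    have ha : a ∈ ({a, b, c} : Finset (Fin h)) := by simp
    have hb : b ∈ ({a, b, c} : Finset (Fin h)) := by simp
    have hc : c ∈ ({a, b, c} : Finset (Fin h)) := by simp
    have hrab : rho (mu a) ≠ rho (mu b) := fun h4 => hab (hinj ha hb h4)
    have hrac : rho (mu a) ≠ rho (mu c) := fun h4 => hac (hinj ha hc h4)
    have hrbc : rho (mu b) ≠ rho (mu c) := fun h4 => hbc (hinj hb hc h4)
    have himg : ({a, b, c} : Finset (Fin h)).image mu = {mu a, mu b, mu c} := by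
      rw [Finset.image_insert, Finset.image_insert, Finset.image_singleton]
    have himg2 : ({a, b, c} : Finset (Fin h)).image (fun x => rho (mu x)) =
        {rho (mu a), rho (mu b), rho (mu c)} := by
      rw [Finset.image_insert, Finset.image_insert, Finset.image_singleton]
    rw [himg] at hmem hne
    rw [himg2]
    refine ⟨replace3 hrho hsep hrab hrac hrbc hmem, ?_⟩
    intro h4
    apply hne
    have key : ∀ x, rho (mu x) ∈ f → mu x ∈ f := by
      intro x hx
      rcases hrho (mu x) with h5 | h5
      · rw [h5]; exact hx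
      · exact absurd h5.symm (hf _ hx _)
    apply Finset.eq_of_subset_of_card_le
    · intro n hn
      simp only [Finset.mem_insert, Finset.mem_singleton] at hn
      rcases hn with rfl | rfl | rfl
      · exact key a (h4 ▸ (by simp))
      · exact key b (h4 ▸ (by simp))
      · exact key c (h4 ▸ (by simp))
    · rw [hunif f hfH, ← himg, hcard]

end Pool.Agent.X147.Hc
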