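import Mathlib
import Pool.Agent.X147.HsF

open Finset

namespace Pool.Agent.X147.Hc

variable {h : ℕ} {H : Finset (Finset (Fin h))}

theorem inok_three (hunif : ∀ s ∈ H, s.card = 3) (hh : 5 ≤ h) {p q v0 : Fin h}
    (hpq : Full H p q) (hv0p : v0 ≠ p) (hv0q : v0 ≠ q)
    (h3 : ∀ r, r ≠ p → r ≠ q → ∃ u, u ≠ p ∧ u ≠ q ∧ Cl H False r u)
    (h4 : ∀ s ∈ H, p ∈ s ∨ q ∈ s) :
    InOK H {p, q, v0} (fun m => some p ∉ m ∧ some q ∉ m) := by
  classical
  intro mu h1 h2 hf3
  have hpf : p ∈ ({p, q, v0} : Finset (Fin h)) := by simp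
  have hqf : q ∈ ({p, q, v0} : Finset (Fin h)) := by simp
  have claim1 : ∀ v v', v ≠ p → v ≠ q → v' ≠ p → v' ≠ q → v ≠ v' → mu v = mu v' → False := by
    intro v v' hvp hvq hv'p hv'q hvv hmu
    obtain ⟨hvf, PP, SL⟩ := same_label (D := fun m => some p ∉ m ∧ some q ∉ m) hunif h1 h2 hvv hmu
    obtain ⟨u, hup, huq, hcl⟩ := h3 v hvp hvq
    have hunc := hcl.unc hunif
    have hnot : ∀ z, v ≠ z → v' ≠ z → u ≠ z → ({v, v', z} : Finset (Fin h)) ∉ H := by
      intro z hvz hv'z huz hmem
      have huv' : u ≠ v' := by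
        rintro rfl
        exact hunc.2 _ hmem (by simp) (by simp)
      have h5 : insert u {v', z} ∈ H := (hcl.2.2 {v', z} (Finset.card_pair hv'z)
        (by simp only [Finset.mem_insert, Finset.mem_singleton, not_or]; exact ⟨hvv, hvz⟩)
        (by simp only [Finset.mem_insert, Finset.mem_singleton, not_or]; exact ⟨huv', huz⟩)).1 hmem
      have h6 : insert v' {u, z} ∈ H := by
        rw [Finset.insert_comm]; exact h5
      have h7 : insert v {u, z} ∈ H := (SL {u, z} (Finset.card_pair huz)
        (by simp only [Finset.mem_insert, Finset.mem_singleton, not_or]; exact ⟨hcl.1, hvz⟩)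
        (by simp only [Finset.mem_insert, Finset.mem_singleton, not_or]
            exact ⟨Ne.symm huv', hv'z⟩)).2 h6
      exact hunc.2 _ h7 (by simp) (by simp)
    have hnot2 : ∀ x, x ≠ v → x ≠ v' → ({v, v', x} : Finset (Fin h)) ∉ H := by
      intro x hxv hxv' hmem
      by_cases hxp : x = p
      · subst hxp; exact hnot x hvp hv'p hup hmem
      by_cases hxq : x = q
      · subst hxq; exact hnot x hvq hv'q huq hmem
      rcases h4 _ hmem with h5 | h5
      · simp only [Finset.mem_insert, Finset.mem_singleton] at h5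
        rcases h5 with h5 | h5 | h5
        · exact hvp h5.symm
        · exact hv'p h5.symm
        · exact hxp h5.symm
      · simp only [Finset.mem_insert, Finset.mem_singleton] at h5
        rcases h5 with h5 | h5 | h5
        · exact hvq h5.symm
        · exact hv'q h5.symm
        · exact hxq h5.symm
    have hx : ∀ x, x ≠ v → x ≠ v' → mu x = p ∨ mu x = q := by
      intro x hxv hxv'
      have hc := card3 hvv (Ne.symm hxv) (Ne.symm hxv')
      have h5 := (PP {v, v', x} hc (by simp) (by simp)).not.1 (hnot2 x hxv hxv')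
      by_contra hcon
      push Not at hcon
      have aux : ∀ z, z ∈ ({p, q, v0} : Finset (Fin h)) → mu x ≠ z →
          some z ∉ Multiset.map (fun x => some (mu x)) ({v, v', x} : Finset (Fin h)).val := by
        intro z hz hxz hm
        rw [Multiset.mem_map] at hm
        obtain ⟨y, hy, hyz⟩ := hm
        have hy' : y ∈ ({v, v', x} : Finset (Fin h)) := hy
        have hyz' : mu y = z := Option.some.inj hyz
        simp only [Finset.mem_insert, Finset.mem_singleton] at hy'
        rcases hy' with rfl | rfl | rfl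
        · exact hvf (hyz' ▸ hz)
        · exact hvf (hmu ▸ hyz' ▸ hz)
        · exact hxz hyz'
      exact h5 ⟨aux p hpf hcon.1, aux q hqf hcon.2⟩
    have hle : ((univ.erase v).erase v').card ≤ ({p, q} : Finset (Fin h)).card := by
      apply Finset.card_le_card_of_injOn mu
      · intro x hx'
        rw [Finset.mem_coe, Finset.mem_erase, Finset.mem_erase] at hx'
        rw [Finset.mem_coe, Finset.mem_insert, Finset.mem_singleton]
        exact hx x hx'.2.1 hx'.1
      · intro x hx' y hy' hxy
        rw [Finset.mem_coe, Finset.mem_erase, Finset.mem_erase] at hx'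
        apply h1 x y hxy
        rcases hx x hx'.2.1 hx'.1 with h5 | h5
        · rw [h5]; exact hpf
        · rw [h5]; exact hqf
    have h5 : ((univ.erase v).erase v').card = h - 1 - 1 := by
      rw [Finset.card_erase_of_mem, Finset.card_erase_of_mem (Finset.mem_univ _),
        Finset.card_univ, Fintype.card_fin]
      exact Finset.mem_erase.2 ⟨Ne.symm hvv, Finset.mem_univ _⟩
    have h6 := Finset.card_le_two (a := p) (b := q)
    omega
  have claim2 : ∀ a o, Full H a o →
      (∀ r, r ≠ a → r ≠ o → ∃ u, u ≠ a ∧ u ≠ o ∧ Cl H False r u) →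
      ∀ v', v' ≠ a → v' ≠ o → mu a = mu v' → False := by
    intro a o hao h3' v' hva hvo hmu
    obtain ⟨_, _, SL⟩ := same_label (D := fun m => some p ∉ m ∧ some q ∉ m) hunif h1 h2 (Ne.symm hva) hmu
    obtain ⟨u, hua, huo, hcl⟩ := h3' v' hva hvo
    have h5 : insert a {o, u} ∈ H := hao.2 _ (card3 hao.1 (Ne.symm hua) (Ne.symm huo))
      (by simp) (by simp)
    have h6 := (SL {o, u} (Finset.card_pair (Ne.symm huo))
        (by simp only [Finset.mem_insert, Finset.mem_singleton, not_or]
            exact ⟨hao.1, Ne.symm hua⟩)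
        (by simp only [Finset.mem_insert, Finset.mem_singleton, not_or]
            exact ⟨hvo, hcl.1⟩)).1 h5
    exact (hcl.unc hunif).2 _ h6 (by simp) (by simp)
  have claim2p := claim2 p q hpq h3
  have claim2q := claim2 q p hpq.symm (fun r hr1 hr2 => by
    obtain ⟨u, hu1, hu2, hu3⟩ := h3 r hr2 hr1
    exact ⟨u, hu2, hu1, hu3⟩)
  have claim3 : mu p ≠ mu q := by
    intro hmu
    obtain ⟨hjf, PP, _⟩ := same_label (D := fun m => some p ∉ m ∧ some q ∉ m) hunif h1 h2 hpq.1 hmu
    set S := (univ.erase p).erase q with hS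
    have hmS : ∀ x, x ∈ S ↔ x ≠ q ∧ x ≠ p := by
      intro x
      rw [hS, Finset.mem_erase, Finset.mem_erase]
      simp
    have hle : S.card ≤ (S.erase (mu p)).card := by
      apply Finset.card_le_card_of_injOn mu
      · intro x hx
        obtain ⟨hxq, hxp⟩ := (hmS x).1 (Finset.mem_coe.1 hx)
        rw [Finset.mem_coe, Finset.mem_erase, hmS]
        have h5 := (PP {p, q, x} (card3 hpq.1 (Ne.symm hxp) (Ne.symm hxq)) (by simp) (by simp)).1
          (hpq.2 _ (card3 hpq.1 (Ne.symm hxp) (Ne.symm hxq)) (by simp) (by simp))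
        have aux : ∀ z, mu x = z →
            some z ∈ Multiset.map (fun x => some (mu x)) ({p, q, x} : Finset (Fin h)).val := by
          intro z hz
          rw [Multiset.mem_map]
          refine ⟨x, ?_, by rw [hz]⟩
          show x ∈ ({p, q, x} : Finset (Fin h))
          simp
        refine ⟨fun h6 => claim2p x hxp hxq h6.symm, fun h6 => h5.2 (aux q h6),
          fun h6 => h5.1 (aux p h6)⟩
      · intro x hx y hy hxy
        obtain ⟨hxq, hxp⟩ := (hmS x).1 (Finset.mem_coe.1 hx)
        obtain ⟨hyq, hyp⟩ := (hmS y).1 (Finset.mem_coe.1 hy)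
        by_contra hne
        exact claim1 x y hxp hxq hyp hyq hne hxy
    have hjS : mu p ∈ S := by
      rw [hmS]
      exact ⟨fun h6 => hjf (h6 ▸ hqf), fun h6 => hjf (h6.symm ▸ hpf)⟩
    have := Finset.card_erase_lt_of_mem hjS
    omega
  have hinj : ∀ x y, mu x = mu y → x = y := by
    intro x y hxy
    by_contra hne
    by_cases hxp : x = p
    · subst hxp
      by_cases hyq : y = q
      · subst hyq; exact claim3 hxy
      · exact claim2p y (Ne.symm hne) hyq hxy
    by_cases hxq : x = q
    · subst hxq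
      by_cases hyp : y = p
      · subst hyp; exact claim3 hxy.symm
      · exact claim2q y (Ne.symm hne) hyp hxy
    by_cases hyp : y = p
    · subst hyp; exact claim2p x hxp hxq hxy.symm
    by_cases hyq : y = q
    · subst hyq; exact claim2q x hxq hxp hxy.symm
    exact claim1 x y hxp hxq hyp hyq hne hxy
  have hfH : ({p, q, v0} : Finset (Fin h)) ∈ H :=
    hpq.2 _ (card3 hpq.1 (Ne.symm hv0p) (Ne.symm hv0q)) (by simp) (by simp)
  refine counting hfH id mu (fun a _ => rfl) (fun x y _ _ hxy => hinj x y hxy)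
    (fun x => rfl) ?_
  intro s hs _
  have hs3 := hunif s hs
  have hcard : (s.image mu).card = 3 := by
    rw [Finset.card_image_of_injective _ (fun x y hxy => hinj x y hxy), hs3]
  have hne : s.image mu ≠ {p, q, v0} := fun h4 => hf3 s hs3 h4 hs
  refine ⟨?_, hne⟩
  by_cases hex : ∃ x ∈ s, mu x ∉ ({p, q, v0} : Finset (Fin h))
  · rcases (h2 s hs3 hex).1 hs with h4 | h4
    · exact h4
    · exact absurd hcard h4.1
  · push Not at hex
    exfalso
    apply hne
    apply Finset.eq_of_subset_of_card_le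
    · intro n hn
      obtain ⟨x, hx, rfl⟩ := Finset.mem_image.1 hn
      exact hex x hx
    · rw [hcard, hunif _ hfH]

/-- a good in-gadget rule exists, unless `h = 4` and there are both kinds of special pairs -/
theorem exists_inok (hunif : ∀ s ∈ H, s.card = 3) (hedge : ∃ s, s ∈ H)
    (hh : 5 ≤ h ∨ (∀ x y, ¬ Unc H x y) ∨ (∀ x y, ¬ Full H x y)) :
    ∃ f ∈ H, ∃ D, InOK H f D := by
  classical
  by_cases hI : ∃ f ∈ H, ∀ a ∈ f, ∀ v, ¬ Cl H False a v
  · obtain ⟨f, hf, hf2⟩ := hI
    exact ⟨f, hf, _, inok_const hf False hunif hf2⟩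
  by_cases hII : ∃ f ∈ H, ∀ a ∈ f, ∀ v, ¬ Cl H True a v
  · obtain ⟨f, hf, hf2⟩ := hII
    exact ⟨f, hf, _, inok_const hf True hunif hf2⟩
  push Not at hI hII
  obtain ⟨s0, hs0⟩ := hedge
  have h3h : 3 ≤ h := by
    have := Finset.card_le_univ s0
    rw [hunif s0 hs0, Fintype.card_fin] at this
    exact this
  obtain ⟨p, _, q, hclpq⟩ := hII s0 hs0
  have hpq : Full H p q := hclpq.full
  have hnp : ∀ v, ¬ Unc H p v := fun v hv => unc_full h3h hv hpq
  have hnq : ∀ v, ¬ Unc H q v := fun v hv => unc_full h3h hv hpq.symm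
  have h3 : ∀ r, r ≠ p → r ≠ q → ∃ u, u ≠ p ∧ u ≠ q ∧ Cl H False r u := by
    intro r hrp hrq
    have hm : ({p, q, r} : Finset (Fin h)) ∈ H :=
      hpq.2 _ (card3 hpq.1 (Ne.symm hrp) (Ne.symm hrq)) (by simp) (by simp)
    obtain ⟨a, ha, v, hcl⟩ := hI _ hm
    simp only [Finset.mem_insert, Finset.mem_singleton] at ha
    rcases ha with rfl | rfl | rfl
    · exact absurd (hcl.unc hunif) (hnp v)
    · exact absurd (hcl.unc hunif) (hnq v)
    · refine ⟨v, ?_, ?_, hcl⟩
      · rintro rfl; exact hnp _ (hcl.unc hunif).symm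
      · rintro rfl; exact hnq _ (hcl.unc hunif).symm
  have h4 : ∀ s ∈ H, p ∈ s ∨ q ∈ s := by
    intro s hs
    obtain ⟨a, ha, v, hcl⟩ := hII s hs
    by_cases hap : a = p
    · exact Or.inl (hap ▸ ha)
    by_cases haq : a = q
    · exact Or.inr (haq ▸ ha)
    obtain ⟨u, _, _, hu⟩ := h3 a hap haq
    exact absurd (unc_full h3h (hu.unc hunif) hcl.full) id
  have hex : ∃ v0 : Fin h, v0 ≠ p ∧ v0 ≠ q := by
    by_contra hcon
    push Not at hcon
    have : (univ : Finset (Fin h)) ⊆ {p, q} := by
      intro x _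
      rw [Finset.mem_insert, Finset.mem_singleton]
      by_cases hx : x = p
      · exact Or.inl hx
      · exact Or.inr (hcon x hx)
    have h5 := Finset.card_le_card this
    rw [Finset.card_univ, Fintype.card_fin] at h5
    have := Finset.card_le_two (a := p) (b := q)
    omega
  obtain ⟨v0, hv0p, hv0q⟩ := hex
  have h5 : 5 ≤ h := by
    rcases hh with hh | hh | hh
    · exact hh
    · obtain ⟨u, _, _, hu⟩ := h3 v0 hv0p hv0q
      exact absurd (hu.unc hunif) (hh v0 u)
    · exact absurd hpq (hh p q)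
  exact ⟨{p, q, v0}, hpq.2 _ (card3 hpq.1 (Ne.symm hv0p) (Ne.symm hv0q)) (by simp) (by simp),
    _, inok_three hunif h5 hpq hv0p hv0q h3 h4⟩

end Pool.Agent.X147.Hc
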