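import Mathlib
import Pool.Agent.X147.HsE

open Finset

namespace Pool.Agent.X147.Hc

variable {h : ℕ} {H : Finset (Finset (Fin h))}

def CrossOK (H : Finset (Finset (Fin h))) (f : Finset (Fin h)) (c : Prop) : Prop :=
  ∀ lam : Fin h → Option (Fin h),
  (∀ x y, lam x = lam y → (∃ a ∈ f, lam x = some a) → x = y) →
  (∃ x, ∃ j, j ∉ f ∧ lam x = some j) → (∃ y, lam y = none) →
  (∀ x j y, j ∉ f → lam x = some j → lam y = none →
    ∀ s : Finset (Fin h), s.card = 3 → x ∈ s → y ∈ s → (s ∈ H ↔ c)) →
  (∀ s : Finset (Fin h), s.card = 3 → s.image lam = f.image some → s ∉ H) → False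

theorem side_const (hunif : ∀ s ∈ H, s.card = 3) {f : Finset (Fin h)} (hfH : f ∈ H)
    {D : Multiset (Option (Fin h)) → Prop} (hin : InOK H f D) {c : Prop} (hc : CrossOK H f c) :
    SideOK 3 H False := by
  classical
  set R : Multiset (Option (Fin h)) → Prop := fun m =>
    (none ∈ m ∧ c) ∨ (none ∉ m ∧ ((∃ s ∈ H, m = s.val.map some) ∨ (¬ m.Nodup ∧ D m))) with hR
  refine ⟨f, R, hunif f hfH, by simpa using hfH, ?_, ?_⟩
  · intro s hs _
    have h1 : none ∉ s.val.map (some : Fin h → Option (Fin h)) := by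
      rw [Multiset.mem_map]
      rintro ⟨a, _, ha⟩
      exact absurd ha (by simp)
    have h2 : (s.val.map (some : Fin h → Option (Fin h))).Nodup :=
      s.nodup.map (Option.some_injective _)
    constructor
    · rintro (⟨h3, _⟩ | ⟨_, (⟨s', hs', h3⟩ | ⟨h3, _⟩)⟩)
      · exact absurd h3 h1
      · have h4 := Multiset.map_injective (Option.some_injective _) h3
        rw [Finset.val_inj.1 h4]; exact hs'
      · exact absurd h2 h3
    · intro h3
      exact Or.inr ⟨h1, Or.inl ⟨s, h3, rfl⟩⟩
  · intro lam h1 h2 h3 h4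
    by_cases hC : ∃ y, lam y = none
    · refine hc lam h1 h2 hC ?_ ?_
      · intro x j y hj hx hy s hs hxs hys
        rw [h3 s hs ⟨x, hxs, j, hj, hx⟩]
        have hm : none ∈ s.val.map lam := by
          rw [Multiset.mem_map]; exact ⟨y, hys, hy⟩
        constructor
        · rintro (⟨_, h5⟩ | ⟨h5, _⟩)
          · exact h5
          · exact absurd hm h5
        · exact fun h5 => Or.inl ⟨hm, h5⟩
      · intro s hs himg
        have := h4 s hs himg
        simpa using this
    · push Not at hC
      have hmu : ∀ x, ∃ a, lam x = some a := fun x => Option.ne_none_iff_exists'.1 (hC x)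
      choose mu hmu using hmu
      have hlam : lam = fun x => some (mu x) := funext hmu
      refine hin mu ?_ ?_ ?_
      · intro x y hxy hxf
        exact h1 x y (by rw [hmu, hmu, hxy]) ⟨mu x, hxf, hmu x⟩
      · rintro s hs ⟨x, hxs, hxf⟩
        rw [h3 s hs ⟨x, hxs, mu x, hxf, hmu x⟩, ← hlam]
        have h5 : none ∉ s.val.map lam := by
          rw [Multiset.mem_map]
          rintro ⟨a, _, ha⟩
          exact hC a ha
        have hmap : s.val.map lam = (s.val.map mu).map some := by
          rw [hlam, Multiset.map_map]; rfl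
        have h6 : (∃ s' ∈ H, s.val.map lam = s'.val.map some) ↔ s.image mu ∈ H := by
          constructor
          · rintro ⟨s', hs', h7⟩
            rw [hmap] at h7
            have h8 := Multiset.map_injective (Option.some_injective _) h7
            have h9 : s.image mu = s' := by
              rw [Finset.image, h8, Finset.val_toFinset]
            rw [h9]; exact hs'
          · intro h7
            refine ⟨s.image mu, h7, ?_⟩
            have hinj : Set.InjOn mu s := by
              rw [← Finset.card_image_iff, hunif _ h7, hs]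
            rw [hmap, Finset.image_val_of_injOn hinj]
        have h7 : ¬ (s.val.map lam).Nodup ↔ (s.image mu).card ≠ 3 := by
          rw [not_iff_not, hmap, Multiset.nodup_map_iff_of_injective (Option.some_injective _)]
          constructor
          · intro h8
            rw [Finset.image, Multiset.toFinset_card_of_nodup h8, Multiset.card_map]
            exact hs
          · intro h8
            have h9 : (s.image mu).card = s.card := by rw [h8, hs]
            rw [Finset.card_image_iff] at h9
            exact Multiset.Nodup.map_on (fun a ha b hb hab => h9 ha hb hab) s.nodup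
        constructor
        · rintro (⟨h8, _⟩ | ⟨_, (h8 | ⟨h8, h9⟩)⟩)
          · exact absurd h8 h5
          · exact Or.inl (h6.1 h8)
          · exact Or.inr ⟨h7.1 h8, h9⟩
        · rintro (h8 | ⟨h8, h9⟩)
          · exact Or.inr ⟨h5, Or.inl (h6.2 h8)⟩
          · exact Or.inr ⟨h5, Or.inr ⟨h7.2 h8, h9⟩⟩
      · intro s hs himg
        have h5 : s.image lam = f.image some := by
          rw [hlam, ← himg, Finset.image_image]; rfl
        have := h4 s hs h5
        simpa using this

/-- complement -/
def co (H : Finset (Finset (Fin h))) : Finset (Finset (Fin h)) := powersetCard 3 univ \ H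

lemma mem_co (s : Finset (Fin h)) : s ∈ co H ↔ s.card = 3 ∧ s ∉ H := by
  unfold co
  rw [Finset.mem_sdiff, Finset.mem_powersetCard]
  exact ⟨fun h => ⟨h.1.2, h.2⟩, fun h => ⟨⟨Finset.subset_univ _, h.1⟩, h.2⟩⟩

theorem side_compl (hs : SideOK 3 (co H) False) : SideOK 3 H True := by
  obtain ⟨f, R, hf3, hf, hrule, hbad⟩ := hs
  have hf' : f ∈ co H := by simpa using hf
  refine ⟨f, fun m => ¬ R m, hf3, ?_, ?_, ?_⟩
  · have := ((mem_co f).1 hf').2
    constructor
    · exact fun h => absurd h this
    · exact fun h => absurd trivial h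
  · intro s hs hsf
    show ¬ R (Multiset.map some s.val) ↔ s ∈ H
    rw [hrule s hs hsf, mem_co]
    simp [hs]
  · intro lam h1 h2 h3 h4
    refine hbad lam h1 h2 ?_ ?_
    · intro s hs hex
      have := h3 s hs hex
      rw [mem_co]
      simp only [hs, true_and]
      tauto
    · intro s hs himg
      have := h4 s hs himg
      rw [mem_co]
      simp only [hs, true_and]
      tauto

lemma cross_noUnc (hunif : ∀ s ∈ H, s.card = 3) (hn : ∀ x y, ¬ Unc H x y)
    (f : Finset (Fin h)) : CrossOK H f False := by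
  rintro lam _ ⟨x, j, hj, hx⟩ ⟨y, hy⟩ h3 _
  apply hn x y
  refine ⟨?_, fun s hs hxs hys => (h3 x j y hj hx hy s (hunif s hs) hxs hys).1 hs⟩
  rintro rfl
  rw [hx] at hy
  exact absurd hy (by simp)

lemma cross_noFull (hn : ∀ x y, ¬ Full H x y)
    (f : Finset (Fin h)) : CrossOK H f True := by
  rintro lam _ ⟨x, j, hj, hx⟩ ⟨y, hy⟩ h3 _
  apply hn x y
  refine ⟨?_, fun s hs hxs hys => (h3 x j y hj hx hy s hs hxs hys).2 trivial⟩
  rintro rfl
  rw [hx] at hy
  exact absurd hy (by simp)

/-- if all of three vertices are labelled in `f` and two of them form a full pair -/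
lemma three_in {f : Finset (Fin h)} (hf3 : f.card = 3) {lam : Fin h → Option (Fin h)}
    (h1 : ∀ x y, lam x = lam y → (∃ a ∈ f, lam x = some a) → x = y)
    (h4 : ∀ s : Finset (Fin h), s.card = 3 → s.image lam = f.image some → s ∉ H)
    {p q r : Fin h} (hpq : Full H p q) (hpr : p ≠ r) (hqr : q ≠ r)
    (hp : ∃ a ∈ f, lam p = some a) (hq : ∃ a ∈ f, lam q = some a) (hr : ∃ a ∈ f, lam r = some a) :
    False := by
  classical
  have hc := card3 hpq.1 hpr hqr
  have hall : ∀ v ∈ ({p, q, r} : Finset (Fin h)), ∃ a ∈ f, lam v = some a := by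
    intro v hv
    simp only [Finset.mem_insert, Finset.mem_singleton] at hv
    rcases hv with rfl | rfl | rfl
    · exact hp
    · exact hq
    · exact hr
  apply h4 {p, q, r} hc ?_ (hpq.2 _ hc (by simp) (by simp))
  apply Finset.eq_of_subset_of_card_le
  · intro n hn
    obtain ⟨v, hv, rfl⟩ := Finset.mem_image.1 hn
    obtain ⟨a, ha, hva⟩ := hall v hv
    rw [hva]
    exact Finset.mem_image_of_mem some ha
  · rw [Finset.card_image_of_injective _ (Option.some_injective _), hf3,
      Finset.card_image_of_injOn, hc]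
    intro v hv w _ hvw
    exact h1 v w hvw (hall v (Finset.mem_coe.1 hv))

/-- in the colour-`False` cross rule, vertices of full pairs get labels in `f` -/
lemma label_in (hunif : ∀ s ∈ H, s.card = 3) (hh : 3 ≤ h) {f : Finset (Fin h)}
    {lam : Fin h → Option (Fin h)}
    {x j y : Fin h} (hj : j ∉ f) (hx : lam x = some j) (hy : lam y = none)
    (h3 : ∀ x j y, j ∉ f → lam x = some j → lam y = none →
      ∀ s : Finset (Fin h), s.card = 3 → x ∈ s → y ∈ s → (s ∈ H ↔ False))
    {v v' : Fin h} (hv : Full H v v') : ∃ a ∈ f, lam v = some a := by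
  have hunc : ∀ x j y, j ∉ f → lam x = some j → lam y = none → Unc H x y := by
    intro x j y hj hx hy
    refine ⟨?_, fun s hs hxs hys => (h3 x j y hj hx hy s (hunif s hs) hxs hys).1 hs⟩
    rintro rfl
    rw [hx] at hy
    exact absurd hy (by simp)
  by_cases hn : lam v = none
  · exact absurd (unc_full hh (hunc x j v hj hx hn).symm hv) id
  · obtain ⟨a, ha⟩ := Option.ne_none_iff_exists'.1 hn
    by_cases haf : a ∈ f
    · exact ⟨a, haf, ha⟩
    · exact absurd (unc_full hh (hunc v a y haf ha hy) hv) id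

lemma cross_three (hunif : ∀ s ∈ H, s.card = 3) (hh : 3 ≤ h)
    {f : Finset (Fin h)} (hf3 : f.card = 3) {p q r r' : Fin h} (hpq : Full H p q)
    (hrr : Full H r r') (hpr : p ≠ r) (hqr : q ≠ r) : CrossOK H f False := by
  rintro lam h1 ⟨x, j, hj, hx⟩ ⟨y, hy⟩ h3 h4
  exact three_in hf3 h1 h4 hpq hpr hqr (label_in hunif hh hj hx hy h3 hpq)
    (label_in hunif hh hj hx hy h3 hpq.symm) (label_in hunif hh hj hx hy h3 hrr)

lemma cross_six (hh : 6 ≤ h) {f : Finset (Fin h)} (hf3 : f.card = 3) {p q : Fin h}
    (huniq : ∀ x y, Full H x y → (x = p ∧ y = q) ∨ (x = q ∧ y = p)) : CrossOK H f True := by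
  classical
  rintro lam h1 ⟨x, j, hj, hx⟩ ⟨y, hy⟩ h3 _
  have hfull : ∀ x j y, j ∉ f → lam x = some j → lam y = none → Full H x y := by
    intro x j y hj hx hy
    refine ⟨?_, fun s hs hxs hys => (h3 x j y hj hx hy s hs hxs hys).2 trivial⟩
    rintro rfl
    rw [hx] at hy
    exact absurd hy (by simp)
  have hxy := hfull x j y hj hx hy
  have hall : ∀ v, v ≠ x → v ≠ y → ∃ a ∈ f, lam v = some a := by
    intro v hvx hvy
    by_cases hn : lam v = none
    · have h5 := hfull x j v hj hx hn
      rcases huniq _ _ hxy with ⟨h6, h7⟩ | ⟨h6, h7⟩ <;>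
      rcases huniq _ _ h5 with ⟨h8, h9⟩ | ⟨h8, h9⟩
      · exact absurd (h9.trans h7.symm) hvy
      · exact absurd (h6.symm.trans h8) (fun h => hxy.1 (by rw [h6, h, h7]))
      · exact absurd (h6.symm.trans h8) (fun h => hxy.1 (by rw [h6, h, h7]))
      · exact absurd (h9.trans h7.symm) hvy
    · obtain ⟨a, ha⟩ := Option.ne_none_iff_exists'.1 hn
      by_cases haf : a ∈ f
      · exact ⟨a, haf, ha⟩
      · have h5 := hfull v a y haf ha hy
        rcases huniq _ _ hxy with ⟨h6, h7⟩ | ⟨h6, h7⟩ <;>
        rcases huniq _ _ h5 with ⟨h8, h9⟩ | ⟨h8, h9⟩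
        · exact absurd (h8.trans h6.symm) hvx
        · exact absurd (h7.symm.trans h9) (fun h => hxy.1 (by rw [h6, ← h, h7]))
        · exact absurd (h7.symm.trans h9) (fun h => hxy.1 (by rw [h6, ← h, h7]))
        · exact absurd (h8.trans h6.symm) hvx
  have hle : ((univ.erase x).erase y).card ≤ (f.image (some : Fin h → Option (Fin h))).card := by
    apply Finset.card_le_card_of_injOn lam
    · intro v hv
      rw [Finset.mem_coe, Finset.mem_erase, Finset.mem_erase] at hv
      obtain ⟨a, ha, hva⟩ := hall v hv.2.1 hv.1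
      rw [hva]
      exact Finset.mem_coe.2 (Finset.mem_image_of_mem some ha)
    · intro v hv w _ hvw
      rw [Finset.mem_coe, Finset.mem_erase, Finset.mem_erase] at hv
      exact h1 v w hvw (hall v hv.2.1 hv.1)
  have h5 : ((univ.erase x).erase y).card = h - 1 - 1 := by
    rw [Finset.card_erase_of_mem, Finset.card_erase_of_mem (Finset.mem_univ _),
      Finset.card_univ, Fintype.card_fin]
    exact Finset.mem_erase.2 ⟨Ne.symm hxy.1, Finset.mem_univ _⟩
  rw [Finset.card_image_of_injective _ (Option.some_injective _), hf3] at hle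
  omega

lemma cross_five (hunif : ∀ s ∈ H, s.card = 3) (hh : 5 ≤ h)
    {f : Finset (Fin h)} (hf3 : f.card = 3) {p q : Fin h} (hpq : Full H p q)
    (huniq : ∀ y x z, Unc H y x → Unc H y z → x = z) : CrossOK H f False := by
  classical
  rintro lam h1 ⟨x, j, hj, hx⟩ ⟨y, hy⟩ h3 h4
  have hp := label_in hunif (by omega) hj hx hy h3 hpq
  have hq := label_in hunif (by omega) hj hx hy h3 hpq.symm
  have hunc : ∀ x j y, j ∉ f → lam x = some j → lam y = none → Unc H x y := by
    intro x j y hj hx hy
    refine ⟨?_, fun s hs hxs hys => (h3 x j y hj hx hy s (hunif s hs) hxs hys).1 hs⟩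
    rintro rfl
    rw [hx] at hy
    exact absurd hy (by simp)
  have hex : ∃ z : Fin h, z ∉ ({p, q, x, y} : Finset (Fin h)) := by
    by_contra hcon
    push Not at hcon
    have h5 := Finset.eq_univ_iff_forall.2 hcon
    have h6 : ({p, q, x, y} : Finset (Fin h)).card ≤ 4 := Finset.card_le_four
    rw [h5, Finset.card_univ, Fintype.card_fin] at h6
    omega
  obtain ⟨z, hz⟩ := hex
  simp only [Finset.mem_insert, Finset.mem_singleton, not_or] at hz
  obtain ⟨hzp, hzq, hzx, hzy⟩ := hz
  by_cases hn : lam z = none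
  · exact hzy (huniq x z y (hunc x j z hj hx hn) (hunc x j y hj hx hy))
  · obtain ⟨a, ha⟩ := Option.ne_none_iff_exists'.1 hn
    by_cases haf : a ∈ f
    · exact three_in hf3 h1 h4 hpq (Ne.symm hzp) (Ne.symm hzq) hp hq ⟨a, haf, ha⟩
    · exact hzx (huniq y z x (hunc z a y haf ha hy).symm (hunc x j y hj hx hy).symm)

end Pool.Agent.X147.Hc
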