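import Mathlib
import Pool.Agent.X147.HsC

open Finset

namespace Pool.Agent.X147.Hc

def cd : Option (Fin 5) → ℕ
  | none => 1024
  | some j => 4 ^ (j : ℕ)

def codes : List ℕ := [1, 4, 16, 64, 256, 1024]

lemma cd_mem (o : Option (Fin 5)) : cd o ∈ codes := by
  revert o; decide

lemma cd_inj (o o' : Option (Fin 5)) (ho : cd o = cd o') : o = o' := by
  revert o o'; decide

def tri (oc L : List ℕ) (fsum : ℕ) (hb : Bool) (u v w : ℕ) : Bool :=
  if oc.contains u || oc.contains v || oc.contains w then hb == L.contains (u + v + w)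
  else if u + v + w == fsum then !hb else true

def inj (fc : List ℕ) (u v : ℕ) : Bool := !(fc.contains u && u == v)

def chk (fc oc L : List ℕ) (fsum : ℕ) (b012 b013 b014 b023 b024 b034 b123 b124 b134 b234 : Bool) :
    Bool :=
  codes.all fun a => codes.all fun b => !(inj fc a b) || codes.all fun c =>
    !(inj fc a c && inj fc b c && tri oc L fsum b012 a b c) || codes.all fun d =>
    !(inj fc a d && inj fc b d && inj fc c d && tri oc L fsum b013 a b d &&
      tri oc L fsum b023 a c d && tri oc L fsum b123 b c d) || codes.all fun e =>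
    !(inj fc a e && inj fc b e && inj fc c e && inj fc d e && tri oc L fsum b014 a b e &&
      tri oc L fsum b024 a c e && tri oc L fsum b034 a d e && tri oc L fsum b124 b c e &&
      tri oc L fsum b134 b d e && tri oc L fsum b234 c d e &&
      (oc.contains a || oc.contains b || oc.contains c || oc.contains d || oc.contains e))

theorem side_of_chk (H : Finset (Finset (Fin 5))) (f : Finset (Fin 5)) (fc oc L : List ℕ)
    (fsum : ℕ) (b012 b013 b014 b023 b024 b034 b123 b124 b134 b234 : Bool)
    (hf3 : f.card = 3) (hfH : f ∈ H)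
    (hrule : ∀ s : Finset (Fin 5), s.card = 3 → s ≠ f →
      (((s.val.map some).map cd).sum ∈ L ↔ s ∈ H))
    (hfc : ∀ o, fc.contains (cd o) = true → ∃ a ∈ f, o = some a)
    (hoc : ∀ o, oc.contains (cd o) = true ↔ ∃ j, j ∉ f ∧ o = some j)
    (hsum : ∀ o1 o2 o3, (oc.contains (cd o1) || oc.contains (cd o2) || oc.contains (cd o3)) = false →
      cd o1 + cd o2 + cd o3 = fsum → ({o1, o2, o3} : Finset (Option (Fin 5))) = f.image some)
    (h012 : ({0, 1, 2} : Finset (Fin 5)) ∈ H ↔ b012 = true)
    (h013 : ({0, 1, 3} : Finset (Fin 5)) ∈ H ↔ b013 = true)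
    (h014 : ({0, 1, 4} : Finset (Fin 5)) ∈ H ↔ b014 = true)
    (h023 : ({0, 2, 3} : Finset (Fin 5)) ∈ H ↔ b023 = true)
    (h024 : ({0, 2, 4} : Finset (Fin 5)) ∈ H ↔ b024 = true)
    (h034 : ({0, 3, 4} : Finset (Fin 5)) ∈ H ↔ b034 = true)
    (h123 : ({1, 2, 3} : Finset (Fin 5)) ∈ H ↔ b123 = true)
    (h124 : ({1, 2, 4} : Finset (Fin 5)) ∈ H ↔ b124 = true)
    (h134 : ({1, 3, 4} : Finset (Fin 5)) ∈ H ↔ b134 = true)
    (h234 : ({2, 3, 4} : Finset (Fin 5)) ∈ H ↔ b234 = true)
    (hchk : chk fc oc L fsum b012 b013 b014 b023 b024 b034 b123 b124 b134 b234 = true) :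
    SideOK 3 H False := by
  refine ⟨f, fun m => (m.map cd).sum ∈ L, hf3, by simpa using hfH, hrule, ?_⟩
  intro lam h1 h2 h3 h4
  have hinj : ∀ i j : Fin 5, i ≠ j → inj fc (cd (lam i)) (cd (lam j)) = true := by
    intro i j hij
    unfold inj
    by_contra hcon
    rw [Bool.not_eq_true, Bool.not_eq_false', Bool.and_eq_true, beq_iff_eq] at hcon
    exact hij (h1 i j (cd_inj _ _ hcon.2) (by
      obtain ⟨a, ha, hia⟩ := hfc _ hcon.1
      exact ⟨a, ha, hia⟩))
  have htri : ∀ (i j l : Fin 5) (hb : Bool), i ≠ j → i ≠ l → j ≠ l →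
      (({i, j, l} : Finset (Fin 5)) ∈ H ↔ hb = true) →
      tri oc L fsum hb (cd (lam i)) (cd (lam j)) (cd (lam l)) = true := by
    intro i j l hb hij hil hjl hH
    have hc : ({i, j, l} : Finset (Fin 5)).card = 3 :=
      Finset.card_eq_three.2 ⟨i, j, l, hij, hil, hjl, rfl⟩
    have hval : (({i, j, l} : Finset (Fin 5)).val.map lam) = {lam i, lam j, lam l} := by
      rw [Finset.insert_val_of_notMem (by simp [hij, hil]),
        Finset.insert_val_of_notMem (by simp [hjl])]
      rfl
    unfold tri
    split_ifs with hx hy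
    · have hex : ∃ x ∈ ({i, j, l} : Finset (Fin 5)), ∃ j, j ∉ f ∧ lam x = some j := by
        rw [Bool.or_eq_true, Bool.or_eq_true] at hx
        rcases hx with (hx | hx) | hx
        · exact ⟨i, by simp, (hoc _).1 hx⟩
        · exact ⟨j, by simp, (hoc _).1 hx⟩
        · exact ⟨l, by simp, (hoc _).1 hx⟩
      have h5 := h3 {i, j, l} hc hex
      simp only [hval] at h5
      have h6 : (({lam i, lam j, lam l} : Multiset (Option (Fin 5))).map cd).sum =
          cd (lam i) + cd (lam j) + cd (lam l) := by
        simp [Multiset.insert_eq_cons, add_assoc]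
      rw [h6, hH] at h5
      rw [beq_iff_eq, Bool.eq_iff_iff, h5, List.contains_iff_mem]
    · have h5 := h4 {i, j, l} hc (by
        rw [Finset.image_insert, Finset.image_insert, Finset.image_singleton]
        exact hsum _ _ _ (by simpa using hx) (by simpa using hy))
      rw [hH] at h5
      simpa using h5
    · rfl
  have hout : (oc.contains (cd (lam 0)) || oc.contains (cd (lam 1)) || oc.contains (cd (lam 2)) ||
      oc.contains (cd (lam 3)) || oc.contains (cd (lam 4))) = true := by
    obtain ⟨x, j, hj, hx⟩ := h2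
    have h5 : oc.contains (cd (lam x)) = true := (hoc _).2 ⟨j, hj, hx⟩
    fin_cases x
    · have h6 : oc.contains (cd (lam 0)) = true := h5
      rw [h6]; simp
    · have h6 : oc.contains (cd (lam 1)) = true := h5
      rw [h6]; simp
    · have h6 : oc.contains (cd (lam 2)) = true := h5
      rw [h6]; simp
    · have h6 : oc.contains (cd (lam 3)) = true := h5
      rw [h6]; simp
    · have h6 : oc.contains (cd (lam 4)) = true := h5
      rw [h6]; simp
  unfold chk at hchk
  have k0 := List.all_eq_true.1 hchk _ (cd_mem (lam 0))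
  have k1 := List.all_eq_true.1 k0 _ (cd_mem (lam 1))
  rw [hinj 0 1 (by decide), Bool.not_true, Bool.false_or] at k1
  have k2 := List.all_eq_true.1 k1 _ (cd_mem (lam 2))
  rw [hinj 0 2 (by decide), hinj 1 2 (by decide), htri 0 1 2 b012 (by decide) (by decide)
    (by decide) h012, Bool.and_true, Bool.and_true, Bool.not_true, Bool.false_or] at k2
  have k3 := List.all_eq_true.1 k2 _ (cd_mem (lam 3))
  rw [hinj 0 3 (by decide), hinj 1 3 (by decide), hinj 2 3 (by decide),
    htri 0 1 3 b013 (by decide) (by decide) (by decide) h013,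
    htri 0 2 3 b023 (by decide) (by decide) (by decide) h023,
    htri 1 2 3 b123 (by decide) (by decide) (by decide) h123] at k3
  simp only [Bool.and_true, Bool.not_true, Bool.false_or] at k3
  have k4 := List.all_eq_true.1 k3 _ (cd_mem (lam 4))
  rw [hinj 0 4 (by decide), hinj 1 4 (by decide), hinj 2 4 (by decide), hinj 3 4 (by decide),
    htri 0 1 4 b014 (by decide) (by decide) (by decide) h014,
    htri 0 2 4 b024 (by decide) (by decide) (by decide) h024,
    htri 0 3 4 b034 (by decide) (by decide) (by decide) h034,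
    htri 1 2 4 b124 (by decide) (by decide) (by decide) h124,
    htri 1 3 4 b134 (by decide) (by decide) (by decide) h134,
    htri 2 3 4 b234 (by decide) (by decide) (by decide) h234, hout] at k4
  simp at k4


theorem side_B3 : SideOK 3 ({{0, 2, 3}, {1, 2, 3}, {2, 3, 4}} : Finset (Finset (Fin 5))) False := by
  refine side_of_chk _ {0, 2, 3} [1, 16, 64] [4, 256] [12, 81, 84, 264, 336, 516, 768, 1029, 1032, 1044, 1092, 1281, 1284, 1296, 1344, 1536, 2052, 2304] 81 false false false true false false true false false true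
    (by decide) (by decide) (by decide +kernel) (by decide +kernel) (by decide +kernel) (by decide +kernel)
    (by decide) (by decide) (by decide) (by decide) (by decide) (by decide) (by decide) (by decide)
    (by decide) (by decide) (by decide +kernel)

theorem side_B3p : SideOK 3 ({{0, 2, 3}, {0, 2, 4}, {1, 2, 3}, {2, 3, 4}} : Finset (Finset (Fin 5))) False := by
  refine side_of_chk _ {1, 2, 3} [4, 16, 64] [1, 256] [6, 18, 66, 81, 84, 273, 336, 516, 528, 576, 1026, 1041, 1089, 1281, 1284, 1536, 2049, 2304] 84 false false false true true false true false false true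
    (by decide) (by decide) (by decide +kernel) (by decide +kernel) (by decide +kernel) (by decide +kernel)
    (by decide) (by decide) (by decide) (by decide) (by decide) (by decide) (by decide) (by decide)
    (by decide) (by decide) (by decide +kernel)

theorem side_B3pp : SideOK 3 ({{0, 2, 3}, {0, 2, 4}, {0, 3, 4}, {1, 2, 3}, {2, 3, 4}} : Finset (Finset (Fin 5))) False := by
  refine side_of_chk _ {0, 2, 4} [1, 16, 256] [4, 64] [81, 84, 273, 321, 336, 1029, 1032, 1044, 1089, 1092, 1104, 1152, 1284, 1344, 2052, 2112] 273 false false false true true true true false false true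
    (by decide) (by decide) (by decide +kernel) (by decide +kernel) (by decide +kernel) (by decide +kernel)
    (by decide) (by decide) (by decide) (by decide) (by decide) (by decide) (by decide) (by decide)
    (by decide) (by decide) (by decide +kernel)

end Pool.Agent.X147.Hc
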