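import Mathlib
import Pool.Agent.X147.HsI
import Pool.Agent.X147.HsG
import Pool.Agent.X147.HsJ

open Finset

namespace Pool.Agent.X147.Hc

variable {h : ℕ}

lemma image_symm_image (σ : Equiv.Perm (Fin h)) (s : Finset (Fin h)) :
    (s.image σ.symm).image σ = s := by
  rw [Finset.image_image]
  have : (σ ∘ σ.symm : Fin h → Fin h) = id := by funext x; simp
  rw [this, Finset.image_id]

lemma image_image_symm (σ : Equiv.Perm (Fin h)) (s : Finset (Fin h)) :
    (s.image σ).image σ.symm = s := by
  rw [Finset.image_image]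
  have : (σ.symm ∘ σ : Fin h → Fin h) = id := by funext x; simp
  rw [this, Finset.image_id]

lemma val_image (σ : Equiv.Perm (Fin h)) (s : Finset (Fin h)) :
    (s.image σ).val = s.val.map σ := Finset.image_val_of_injOn σ.injective.injOn

theorem side_transport (σ : Equiv.Perm (Fin h)) {k : ℕ} {H : Finset (Finset (Fin h))} {b : Prop}
    (hs : SideOK k (H.image (fun s => s.image σ)) b) : SideOK k H b := by
  classical
  obtain ⟨f', R', hf3, hfb, hrule, hbad⟩ := hs
  set H' := H.image (fun s => s.image σ) with hH'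
  have hm : ∀ s : Finset (Fin h), s.image σ ∈ H' ↔ s ∈ H := by
    intro s
    rw [hH', Finset.mem_image]
    constructor
    · rintro ⟨u, hu, huv⟩
      have := Finset.image_injective σ.injective huv
      rw [← this]; exact hu
    · exact fun h => ⟨s, h, rfl⟩
  set f := f'.image σ.symm with hf
  have hff : f.image σ = f' := image_symm_image σ f'
  have hmemf : ∀ a, σ a ∈ f' ↔ a ∈ f := by
    intro a
    rw [← hff, Finset.mem_image]
    constructor
    · rintro ⟨b, hb, hba⟩
      rw [← σ.injective hba]; exact hb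
    · exact fun h => ⟨a, h, rfl⟩
  refine ⟨f, fun m => R' (m.map (Option.map σ)), ?_, ?_, ?_, ?_⟩
  · rw [hf, Finset.card_image_of_injective _ σ.symm.injective, hf3]
  · rw [← hm, hff]; exact hfb
  · intro s hs hsf
    have h1 : (s.val.map some).map (Option.map σ) = (s.image σ).val.map some := by
      rw [val_image, Multiset.map_map, Multiset.map_map]
      rfl
    show R' ((s.val.map some).map (Option.map σ)) ↔ s ∈ H
    rw [h1, hrule (s.image σ) (by rw [Finset.card_image_of_injective _ σ.injective, hs]) ?_, hm]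
    intro h2
    apply hsf
    rw [← hff] at h2
    exact Finset.image_injective σ.injective h2
  · intro lam h1 h2 h3 h4
    have hmi : Function.Injective (Option.map σ) := Option.map_injective σ.injective
    refine hbad (fun v => Option.map σ (lam (σ.symm v))) ?_ ?_ ?_ ?_
    · rintro x y hxy ⟨a, ha, hxa⟩
      have h5 : lam (σ.symm x) = lam (σ.symm y) := hmi hxy
      have h6 : ∃ a ∈ f, lam (σ.symm x) = some a := by
        rw [Option.map_eq_some_iff] at hxa
        obtain ⟨c, hc, hca⟩ := hxa
        exact ⟨c, (hmemf c).1 (hca ▸ ha), hc⟩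
      exact σ.symm.injective (h1 _ _ h5 h6)
    · obtain ⟨x, j, hj, hx⟩ := h2
      refine ⟨σ x, σ j, fun h => hj ((hmemf j).1 h), ?_⟩
      simp [hx]
    · rintro s' hs' ⟨x, hxs, j, hj, hx⟩
      have hs0 : (s'.image σ.symm).card = k := by
        rw [Finset.card_image_of_injective _ σ.symm.injective, hs']
      rw [Option.map_eq_some_iff] at hx
      obtain ⟨c, hc, hcj⟩ := hx
      have h5 := h3 (s'.image σ.symm) hs0 ⟨σ.symm x, Finset.mem_image_of_mem _ hxs, c,
        fun h => hj (hcj ▸ (hmemf c).2 h), hc⟩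
      rw [← hm, image_symm_image] at h5
      rw [h5]
      show R' (((s'.image σ.symm).val.map lam).map (Option.map σ)) ↔ _
      have h6 : ((s'.image σ.symm).val.map lam).map (Option.map σ) =
          s'.val.map (fun v => Option.map σ (lam (σ.symm v))) := by
        have h7 : (s'.image σ.symm).val = s'.val.map σ.symm :=
          Finset.image_val_of_injOn σ.symm.injective.injOn
        rw [h7, Multiset.map_map, Multiset.map_map]
        rfl
      rw [h6]
    · intro s' hs' himg
      have hs0 : (s'.image σ.symm).card = k := by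
        rw [Finset.card_image_of_injective _ σ.symm.injective, hs']
      have h5 := h4 (s'.image σ.symm) hs0 ?_
      · rw [← hm, image_symm_image] at h5
        exact h5
      · apply Finset.image_injective hmi
        rw [Finset.image_image, Finset.image_image, Finset.image_image]
        have h6 : s'.image ((Option.map σ ∘ lam) ∘ σ.symm) = f'.image some := himg
        rw [h6, ← hff, Finset.image_image]
        rfl

/-- the special hypergraphs on five vertices -/
theorem side_special {H : Finset (Finset (Fin 5))} (hunif : ∀ s ∈ H, s.card = 3)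
    {p q x y z : Fin 5} (hpq : Full H p q) (hyx : Unc H y x) (hyz : Unc H y z) (hxz : x ≠ z) :
    SideOK 3 H False := by
  classical
  -- distinctness
  have hup : ∀ u v w, Unc H u v → Full H u w → False := fun u v w h1 h2 =>
    unc_full (by norm_num) h1 h2
  have hxp : x ≠ p := by rintro rfl; exact hup _ _ _ hyx.symm hpq
  have hxq : x ≠ q := by rintro rfl; exact hup _ _ _ hyx.symm hpq.symm
  have hyp : y ≠ p := by rintro rfl; exact hup _ _ _ hyx hpq
  have hyq : y ≠ q := by rintro rfl; exact hup _ _ _ hyx hpq.symm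
  have hzp : z ≠ p := by rintro rfl; exact hup _ _ _ hyz.symm hpq
  have hzq : z ≠ q := by rintro rfl; exact hup _ _ _ hyz.symm hpq.symm
  have hxy : x ≠ y := hyx.1.symm
  have hyz' : y ≠ z := hyz.1
  have hpq' : p ≠ q := hpq.1
  have nxyp : ({x, y, p} : Finset (Fin 5)) ∉ H := fun h => hyx.2 _ h (by simp) (by simp)
  have nxyq : ({x, y, q} : Finset (Fin 5)) ∉ H := fun h => hyx.2 _ h (by simp) (by simp)
  have nxyz : ({x, y, z} : Finset (Fin 5)) ∉ H := fun h => hyx.2 _ h (by simp) (by simp)
  have nypz : ({y, p, z} : Finset (Fin 5)) ∉ H := fun h => hyz.2 _ h (by simp) (by simp)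
  have nyqz : ({y, q, z} : Finset (Fin 5)) ∉ H := fun h => hyz.2 _ h (by simp) (by simp)
  have exx : ({x, p, q} : Finset (Fin 5)) ∈ H := hpq.2 _ (card3 hxp hxq hpq') (by simp) (by simp)
  have eyy : ({y, p, q} : Finset (Fin 5)) ∈ H := hpq.2 _ (card3 hyp hyq hpq') (by simp) (by simp)
  have ezz : ({p, q, z} : Finset (Fin 5)) ∈ H :=
    hpq.2 _ (card3 hpq' (Ne.symm hzp) (Ne.symm hzq)) (by simp) (by simp)
  -- the general reduction for an ordering of `p, q`
  have key : ∀ p q : Fin 5, x ≠ p → x ≠ q → y ≠ p → y ≠ q → z ≠ p → z ≠ q → p ≠ q →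
      ({x, y, p} : Finset (Fin 5)) ∉ H → ({x, y, q} : Finset (Fin 5)) ∉ H →
      ({y, p, z} : Finset (Fin 5)) ∉ H → ({y, q, z} : Finset (Fin 5)) ∉ H →
      ({x, p, q} : Finset (Fin 5)) ∈ H → ({y, p, q} : Finset (Fin 5)) ∈ H →
      ({p, q, z} : Finset (Fin 5)) ∈ H →
      ((({x, q, z} : Finset (Fin 5)) ∈ H) → (({x, p, z} : Finset (Fin 5)) ∈ H)) →
      SideOK 3 H False := by
    intro p q hxp hxq hyp hyq hzp hzq hpq' nxyp nxyq nypz nyqz exx eyy ezz himp
    set F : Fin 5 → Fin 5 := ![x, y, p, q, z] with hF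
    have hFinj : Function.Injective F := by
      intro i j hij
      have g01 : F 0 ≠ F 1 := hxy
      have g02 : F 0 ≠ F 2 := hxp
      have g03 : F 0 ≠ F 3 := hxq
      have g04 : F 0 ≠ F 4 := hxz
      have g12 : F 1 ≠ F 2 := hyp
      have g13 : F 1 ≠ F 3 := hyq
      have g14 : F 1 ≠ F 4 := hyz'
      have g23 : F 2 ≠ F 3 := hpq'
      have g24 : F 2 ≠ F 4 := Ne.symm hzp
      have g34 : F 3 ≠ F 4 := Ne.symm hzq
      have hall : ∀ i j : Fin 5, i < j → F i ≠ F j := by
        intro i j hlt
        fin_cases i <;> fin_cases j <;>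
          first
          | exact absurd hlt (by decide)
          | exact g01
          | exact g02
          | exact g03
          | exact g04
          | exact g12
          | exact g13
          | exact g14
          | exact g23
          | exact g24
          | exact g34
      rcases lt_trichotomy i j with hlt | heq | hlt
      · exact absurd hij (hall i j hlt)
      · exact heq
      · exact absurd hij.symm (hall j i hlt)
    set τ : Equiv.Perm (Fin 5) := Equiv.ofBijective F (Finite.injective_iff_bijective.1 hFinj)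
      with hτ
    have hτv : ∀ i, τ i = F i := fun i => Equiv.ofBijective_apply _ _ _
    apply side_transport τ.symm
    set H' := H.image (fun s => s.image τ.symm) with hH'
    have hm : ∀ s : Finset (Fin 5), s ∈ H' ↔ s.image τ ∈ H := by
      intro s
      rw [hH', Finset.mem_image]
      constructor
      · rintro ⟨u, hu, rfl⟩
        have := image_symm_image τ u
        rw [this]; exact hu
      · exact fun h => ⟨s.image τ, h, image_image_symm τ s⟩
    have m3 : ∀ i j l : Fin 5, ({i, j, l} : Finset (Fin 5)) ∈ H' ↔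
        ({F i, F j, F l} : Finset (Fin 5)) ∈ H := by
      intro i j l
      rw [hm, Finset.image_insert, Finset.image_insert, Finset.image_singleton, hτv, hτv, hτv]
    have a012 : ({0, 1, 2} : Finset (Fin 5)) ∉ H' := by rw [m3]; exact nxyp
    have a013 : ({0, 1, 3} : Finset (Fin 5)) ∉ H' := by rw [m3]; exact nxyq
    have a014 : ({0, 1, 4} : Finset (Fin 5)) ∉ H' := by rw [m3]; exact nxyz
    have a023 : ({0, 2, 3} : Finset (Fin 5)) ∈ H' := by rw [m3]; exact exx
    have a123 : ({1, 2, 3} : Finset (Fin 5)) ∈ H' := by rw [m3]; exact eyy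
    have a124 : ({1, 2, 4} : Finset (Fin 5)) ∉ H' := by rw [m3]; exact nypz
    have a134 : ({1, 3, 4} : Finset (Fin 5)) ∉ H' := by rw [m3]; exact nyqz
    have a234 : ({2, 3, 4} : Finset (Fin 5)) ∈ H' := by rw [m3]; exact ezz
    have a024 : ({0, 2, 4} : Finset (Fin 5)) ∈ H' ↔ ({x, p, z} : Finset (Fin 5)) ∈ H := m3 0 2 4
    have a034 : ({0, 3, 4} : Finset (Fin 5)) ∈ H' ↔ ({x, q, z} : Finset (Fin 5)) ∈ H := m3 0 3 4
    have hunif' : ∀ s ∈ H', s.card = 3 := by
      intro s hs
      have := hunif _ ((hm s).1 hs)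
      rwa [Finset.card_image_of_injective _ τ.injective] at this
    have hten : ∀ s : Finset (Fin 5), s.card = 3 → s = {0, 1, 2} ∨ s = {0, 1, 3} ∨ s = {0, 1, 4} ∨
        s = {0, 2, 3} ∨ s = {0, 2, 4} ∨ s = {0, 3, 4} ∨ s = {1, 2, 3} ∨ s = {1, 2, 4} ∨
        s = {1, 3, 4} ∨ s = {2, 3, 4} := by decide
    have hext : ∀ K : Finset (Finset (Fin 5)), (∀ s ∈ K, s.card = 3) →
        ({0, 1, 2} : Finset (Fin 5)) ∉ K → ({0, 1, 3} : Finset (Fin 5)) ∉ K →
        ({0, 1, 4} : Finset (Fin 5)) ∉ K → ({0, 2, 3} : Finset (Fin 5)) ∈ K →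
        ({1, 2, 3} : Finset (Fin 5)) ∈ K → ({1, 2, 4} : Finset (Fin 5)) ∉ K →
        ({1, 3, 4} : Finset (Fin 5)) ∉ K → ({2, 3, 4} : Finset (Fin 5)) ∈ K →
        (({0, 2, 4} : Finset (Fin 5)) ∈ H' ↔ ({0, 2, 4} : Finset (Fin 5)) ∈ K) →
        (({0, 3, 4} : Finset (Fin 5)) ∈ H' ↔ ({0, 3, 4} : Finset (Fin 5)) ∈ K) → H' = K := by
      intro K hK k012 k013 k014 k023 k123 k124 k134 k234 k024 k034
      ext s
      by_cases hs : s.card = 3
      · rcases hten s hs with rfl | rfl | rfl | rfl | rfl | rfl | rfl | rfl | rfl | rfl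
        · exact ⟨fun h => absurd h a012, fun h => absurd h k012⟩
        · exact ⟨fun h => absurd h a013, fun h => absurd h k013⟩
        · exact ⟨fun h => absurd h a014, fun h => absurd h k014⟩
        · exact ⟨fun _ => k023, fun _ => a023⟩
        · exact k024
        · exact k034
        · exact ⟨fun _ => k123, fun _ => a123⟩
        · exact ⟨fun h => absurd h a124, fun h => absurd h k124⟩
        · exact ⟨fun h => absurd h a134, fun h => absurd h k134⟩
        · exact ⟨fun _ => k234, fun _ => a234⟩
      · exact ⟨fun h => absurd (hunif' s h) hs, fun h => absurd (hK s h) hs⟩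
    by_cases b024 : ({x, p, z} : Finset (Fin 5)) ∈ H
    · by_cases b034 : ({x, q, z} : Finset (Fin 5)) ∈ H
      · have : H' = {{0, 2, 3}, {0, 2, 4}, {0, 3, 4}, {1, 2, 3}, {2, 3, 4}} := by
          have w1 := a024.trans ⟨fun _ => (by decide : ({0, 2, 4} : Finset (Fin 5)) ∈
            ({{0, 2, 3}, {0, 2, 4}, {0, 3, 4}, {1, 2, 3}, {2, 3, 4}} : Finset (Finset (Fin 5)))),
            fun _ => b024⟩
          have w2 := a034.trans ⟨fun _ => (by decide : ({0, 3, 4} : Finset (Fin 5)) ∈
            ({{0, 2, 3}, {0, 2, 4}, {0, 3, 4}, {1, 2, 3}, {2, 3, 4}} : Finset (Finset (Fin 5)))),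
            fun _ => b034⟩
          exact hext _ (by decide) (by decide) (by decide) (by decide) (by decide) (by decide)
            (by decide) (by decide) (by decide) w1 w2
        rw [this]; exact side_B3pp
      · have : H' = {{0, 2, 3}, {0, 2, 4}, {1, 2, 3}, {2, 3, 4}} := by
          have w1 := a024.trans ⟨fun _ => (by decide : ({0, 2, 4} : Finset (Fin 5)) ∈
            ({{0, 2, 3}, {0, 2, 4}, {1, 2, 3}, {2, 3, 4}} : Finset (Finset (Fin 5)))),
            fun _ => b024⟩
          have w2 := a034.trans (show _ ↔ ({0, 3, 4} : Finset (Fin 5)) ∈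
            ({{0, 2, 3}, {0, 2, 4}, {1, 2, 3}, {2, 3, 4}} : Finset (Finset (Fin 5))) from
            ⟨fun h => absurd h b034, fun h => absurd h (by decide)⟩)
          exact hext _ (by decide) (by decide) (by decide) (by decide) (by decide) (by decide)
            (by decide) (by decide) (by decide) w1 w2
        rw [this]; exact side_B3p
    · have b034 : ({x, q, z} : Finset (Fin 5)) ∉ H := fun h => b024 (himp h)
      have : H' = {{0, 2, 3}, {1, 2, 3}, {2, 3, 4}} := by
        have w1 := a024.trans (show _ ↔ ({0, 2, 4} : Finset (Fin 5)) ∈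
          ({{0, 2, 3}, {1, 2, 3}, {2, 3, 4}} : Finset (Finset (Fin 5))) from
          ⟨fun h => absurd h b024, fun h => absurd h (by decide)⟩)
        have w2 := a034.trans (show _ ↔ ({0, 3, 4} : Finset (Fin 5)) ∈
          ({{0, 2, 3}, {1, 2, 3}, {2, 3, 4}} : Finset (Finset (Fin 5))) from
          ⟨fun h => absurd h b034, fun h => absurd h (by decide)⟩)
        exact hext _ (by decide) (by decide) (by decide) (by decide) (by decide) (by decide)
          (by decide) (by decide) (by decide) w1 w2
      rw [this]; exact side_B3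
  by_cases himp : (({x, q, z} : Finset (Fin 5)) ∈ H) → (({x, p, z} : Finset (Fin 5)) ∈ H)
  · exact key p q hxp hxq hyp hyq hzp hzq hpq' nxyp nxyq nypz nyqz exx eyy ezz himp
  · push Not at himp
    have sw1 : ({x, q, p} : Finset (Fin 5)) ∈ H := by
      have : ({x, q, p} : Finset (Fin 5)) = {x, p, q} := by
        ext v; simp only [Finset.mem_insert, Finset.mem_singleton]; tauto
      rw [this]; exact exx
    have sw2 : ({y, q, p} : Finset (Fin 5)) ∈ H := by
      have : ({y, q, p} : Finset (Fin 5)) = {y, p, q} := by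
        ext v; simp only [Finset.mem_insert, Finset.mem_singleton]; tauto
      rw [this]; exact eyy
    have sw3 : ({q, p, z} : Finset (Fin 5)) ∈ H := by
      have : ({q, p, z} : Finset (Fin 5)) = {p, q, z} := by
        ext v; simp only [Finset.mem_insert, Finset.mem_singleton]; tauto
      rw [this]; exact ezz
    exact key q p hxq hxp hyq hyp hzq hzp hpq'.symm nxyq nxyp nyqz nypz sw1 sw2 sw3
      (fun _ => himp.1)

end Pool.Agent.X147.Hc
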