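import Mathlib
import Pool.Agent.X147.HsK
import Pool.Agent.X147.HsD

open Finset

namespace Pool.Agent.X147.Hc

variable {h : ℕ} {H : Finset (Finset (Fin h))}

theorem side_false (hunif : ∀ s ∈ H, s.card = 3) (hedge : ∃ s, s ∈ H)
    (hh : 5 ≤ h ∨ (∀ x y, ¬ Unc H x y) ∨ (∀ x y, ¬ Full H x y)) : SideOK 3 H False := by
  classical
  obtain ⟨f, hfH, D, hin⟩ := exists_inok hunif hedge hh
  have hf3 := hunif f hfH
  have h3h : 3 ≤ h := by
    have := Finset.card_le_univ f
    rw [hf3, Fintype.card_fin] at this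
    exact this
  by_cases hU : ∀ x y, ¬ Unc H x y
  · exact side_const hunif hfH hin (cross_noUnc hunif hU f)
  by_cases hF : ∀ x y, ¬ Full H x y
  · exact side_const hunif hfH hin (cross_noFull hF f)
  have h5 : 5 ≤ h := by
    rcases hh with hh | hh | hh
    · exact hh
    · exact absurd hh hU
    · exact absurd hh hF
  push Not at hF
  obtain ⟨p, q, hpq⟩ := hF
  by_cases huniq : ∀ x y, Full H x y → (x = p ∧ y = q) ∨ (x = q ∧ y = p)
  · by_cases h6 : 6 ≤ h
    · exact side_const hunif hfH hin (cross_six h6 hf3 huniq)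
    · obtain rfl : h = 5 := by omega
      by_cases hu : ∀ y x z, Unc H y x → Unc H y z → x = z
      · exact side_const hunif hfH hin (cross_five hunif le_rfl hf3 hpq hu)
      · push Not at hu
        obtain ⟨y, x, z, hyx, hyz, hxz⟩ := hu
        exact side_special hunif hpq hyx hyz hxz
  · push Not at huniq
    obtain ⟨r, r', hrr, g1, g2⟩ := huniq
    by_cases hrp : r = p
    · have hr'q : r' ≠ q := g1 hrp
      have hr'p : r' ≠ p := fun h => hrr.1 (hrp.trans h.symm)
      exact side_const hunif hfH hin (cross_three hunif h3h hf3 hpq hrr.symm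
        (Ne.symm hr'p) (Ne.symm hr'q))
    by_cases hrq : r = q
    · have hr'p : r' ≠ p := g2 hrq
      have hr'q : r' ≠ q := fun h => hrr.1 (hrq.trans h.symm)
      exact side_const hunif hfH hin (cross_three hunif h3h hf3 hpq hrr.symm
        (Ne.symm hr'p) (Ne.symm hr'q))
    exact side_const hunif hfH hin (cross_three hunif h3h hf3 hpq hrr (Ne.symm hrp) (Ne.symm hrq))

lemma unc_co {x y : Fin h} (hu : Unc (co H) x y) : Full H x y := by
  refine ⟨hu.1, fun s hs hx hy => ?_⟩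
  by_contra hH
  exact hu.2 s ((mem_co s).2 ⟨hs, hH⟩) hx hy

lemma full_co (hunif : ∀ s ∈ H, s.card = 3) {x y : Fin h} (hu : Full (co H) x y) :
    Unc H x y :=
  ⟨hu.1, fun s hs hx hy => ((mem_co s).1 (hu.2 s (hunif s hs) hx hy)).2 hs⟩

theorem exists_three (hunif : ∀ s ∈ H, s.card = 3) (hedge : ∃ s, s ∈ H)
    (hnon : ∃ s : Finset (Fin h), s.card = 3 ∧ s ∉ H)
    (hh : 5 ≤ h ∨ (∀ x y, ¬ Unc H x y) ∨ (∀ x y, ¬ Full H x y)) :
    ∃ G : Set (Finset ℕ), (∀ e ∈ G, e.card = 3) ∧
      (¬ ∃ φ : Fin h ↪ ℕ, ∀ s : Finset (Fin h), s.card = 3 → (s ∈ H ↔ s.map φ ∈ G)) ∧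
      ∀ P : Set (Finset ℕ), P.Nonempty → (∀ e ∈ P, e.card = 3) →
        (∀ u, {e ∈ P | u ∈ e}.Finite) →
        ∃ φ : Fin h ↪ ℕ, ∀ s : Finset (Fin h), s.card = 3 →
          (s ∈ H ↔ s.map φ ∈ symmDiff G P) := by
  have h0 := side_false hunif hedge hh
  have h1 : SideOK 3 H True := by
    apply side_compl
    apply side_false
    · exact fun s hs => ((mem_co s).1 hs).1
    · obtain ⟨s, hs, hs'⟩ := hnon
      exact ⟨s, (mem_co s).2 ⟨hs, hs'⟩⟩
    · rcases hh with hh | hh | hh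
      · exact Or.inl hh
      · exact Or.inr (Or.inr fun x y hu => hh x y (full_co hunif hu))
      · exact Or.inr (Or.inl fun x y hu => hh x y (unc_co hu))
  obtain ⟨f, R, g, st, ep, p, D⟩ := exists_frame (by norm_num) hunif h0 h1
  exact ⟨{s | E 3 R g st ep p s}, fun e he => E_card he, free D,
    fun P hP hPk hloc => robust D P hP hPk hloc⟩

end Pool.Agent.X147.Hc
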