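import Mathlib
import Pool.Agent.X147.HsE

open Finset

namespace Pool.Agent.X147.Hc

/-- `r` is the top level at which the members of `s` do not all agree -/
def IsLev (v : ℕ → Finset ℤ) (s : Finset ℕ) (r : ℤ) : Prop :=
  (∃ a ∈ s, ∃ b ∈ s, r ∈ v a ∧ r ∉ v b) ∧ ∀ i, r < i → ∀ a ∈ s, ∀ b ∈ s, (i ∈ v a ↔ i ∈ v b)

def UE (v : ℕ → Finset ℤ) (s : Finset ℕ) : Prop := s.card = 3 ∧ ∃ r, Even r ∧ IsLev v s r

lemma lev_unique {v : ℕ → Finset ℤ} {s : Finset ℕ} {r r' : ℤ} (h1 : IsLev v s r)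
    (h2 : IsLev v s r') : r = r' := by
  rcases lt_trichotomy r r' with hlt | heq | hlt
  · obtain ⟨a, ha, b, hb, hra, hrb⟩ := h2.1
    exact absurd ((h1.2 r' hlt a ha b hb).1 hra) hrb
  · exact heq
  · obtain ⟨a, ha, b, hb, hra, hrb⟩ := h1.1
    exact absurd ((h2.2 r hlt a ha b hb).1 hra) hrb

lemma exists_lev {v : ℕ → Finset ℤ} (hv : Function.Injective v) {s : Finset ℕ} {a b : ℕ}
    (ha : a ∈ s) (hb : b ∈ s) (hab : a ≠ b) : ∃ r, IsLev v s r := by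
  classical
  set U : Finset ℤ := (s.biUnion v).filter (fun i => ∃ b ∈ s, i ∉ v b) with hU
  have hmem : ∀ i, i ∈ U ↔ ∃ a ∈ s, ∃ b ∈ s, i ∈ v a ∧ i ∉ v b := by
    intro i
    rw [hU, Finset.mem_filter, Finset.mem_biUnion]
    constructor
    · rintro ⟨⟨a, ha, hia⟩, b, hb, hib⟩; exact ⟨a, ha, b, hb, hia, hib⟩
    · rintro ⟨a, ha, b, hb, hia, hib⟩; exact ⟨⟨a, ha, hia⟩, b, hb, hib⟩
  have hne : U.Nonempty := by
    by_contra hcon
    rw [Finset.not_nonempty_iff_eq_empty] at hcon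
    apply hab
    apply hv
    ext i
    by_contra hi
    have : i ∈ U := by
      rw [hmem]
      by_cases hia : i ∈ v a
      · exact ⟨a, ha, b, hb, hia, fun hib => hi ⟨fun _ => hib, fun _ => hia⟩⟩
      · refine ⟨b, hb, a, ha, ?_, hia⟩
        by_contra hib
        exact hi ⟨fun h => absurd h hia, fun h => absurd h hib⟩
    rw [hcon] at this
    simp at this
  refine ⟨U.max' hne, (hmem _).1 (U.max'_mem hne), ?_⟩
  intro i hi a ha b hb
  have hnot : i ∉ U := fun h => absurd (U.le_max' i h) (not_le.2 hi)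
  rw [hmem] at hnot
  push Not at hnot
  exact ⟨fun h => hnot a ha b hb h, fun h => hnot b hb a ha h⟩

lemma ue_iff {v : ℕ → Finset ℤ} {s : Finset ℕ} {r : ℤ} (hs : s.card = 3) (hr : IsLev v s r) :
    UE v s ↔ Even r := by
  constructor
  · rintro ⟨_, r', hr', hl⟩
    rw [lev_unique hr hl]; exact hr'
  · exact fun h => ⟨hs, r, h, hr⟩

variable {H : Finset (Finset (Fin 4))}

lemma card3n {a b c : ℕ} (hab : a ≠ b) (hac : a ≠ c) (hbc : b ≠ c) :
    ({a, b, c} : Finset ℕ).card = 3 := Finset.card_eq_three.2 ⟨a, b, c, hab, hac, hbc, rfl⟩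

/-- freeness for the four-vertex hypergraph with two edges -/
lemma free4 {v : ℕ → Finset ℤ} (hv : Function.Injective v) {n0 n1 n2 n3 : ℕ}
    (h01 : n0 ≠ n1) (h02 : n0 ≠ n2) (h03 : n0 ≠ n3) (h12 : n1 ≠ n2) (h13 : n1 ≠ n3)
    (h23 : n2 ≠ n3)
    (e1 : ¬ UE v {n0, n1, n2}) (e2 : ¬ UE v {n0, n1, n3}) (e3 : UE v {n0, n2, n3})
    (e4 : UE v {n1, n2, n3}) : False := by
  classical
  obtain ⟨R, hR1, hR2⟩ := exists_lev hv (s := {n0, n1, n2, n3}) (a := n0) (b := n1)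
    (by simp) (by simp) h01
  have hsub : ∀ s : Finset ℕ, s ⊆ {n0, n1, n2, n3} → (∃ a ∈ s, ∃ b ∈ s, R ∈ v a ∧ R ∉ v b) →
      IsLev v s R := by
    intro s hs hex
    exact ⟨hex, fun i hi a ha b hb => hR2 i hi a (hs ha) b (hs hb)⟩
  have hall : ¬ ((R ∈ v n0 ↔ R ∈ v n1) ∧ (R ∈ v n0 ↔ R ∈ v n2) ∧ (R ∈ v n0 ↔ R ∈ v n3)) := by
    rintro ⟨g1, g2, g3⟩
    obtain ⟨a, ha, b, hb, hRa, hRb⟩ := hR1
    have hc : ∀ a ∈ ({n0, n1, n2, n3} : Finset ℕ), (R ∈ v n0 ↔ R ∈ v a) := by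
      intro a ha
      simp only [Finset.mem_insert, Finset.mem_singleton] at ha
      rcases ha with rfl | rfl | rfl | rfl
      · exact Iff.rfl
      · exact g1
      · exact g2
      · exact g3
    exact hRb ((hc b hb).1 ((hc a ha).2 hRa))
  have mix : ∀ a b c : ℕ, ({a, b, c} : Finset ℕ) ⊆ {n0, n1, n2, n3} →
      ¬ ((R ∈ v a ↔ R ∈ v b) ∧ (R ∈ v a ↔ R ∈ v c)) → IsLev v {a, b, c} R := by
    intro a b c hs hmix
    apply hsub _ hs
    by_cases ha : R ∈ v a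
    · by_cases hb : R ∈ v b
      · have hc : R ∉ v c := fun hc => hmix ⟨⟨fun _ => hb, fun _ => ha⟩, ⟨fun _ => hc, fun _ => ha⟩⟩
        exact ⟨a, by simp, c, by simp, ha, hc⟩
      · exact ⟨a, by simp, b, by simp, ha, hb⟩
    · by_cases hb : R ∈ v b
      · exact ⟨b, by simp, a, by simp, hb, ha⟩
      · have hc : R ∈ v c := by
          by_contra hc
          exact hmix ⟨⟨fun h => absurd h ha, fun h => absurd h hb⟩,
            ⟨fun h => absurd h ha, fun h => absurd h hc⟩⟩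
        exact ⟨c, by simp, a, by simp, hc, ha⟩
  have s1 : ({n0, n1, n2} : Finset ℕ) ⊆ {n0, n1, n2, n3} := by
    intro x hx; simp only [Finset.mem_insert, Finset.mem_singleton] at hx ⊢
    rcases hx with h | h | h
    · exact Or.inl h
    · exact Or.inr (Or.inl h)
    · exact Or.inr (Or.inr (Or.inl h))
  have s2 : ({n0, n1, n3} : Finset ℕ) ⊆ {n0, n1, n2, n3} := by
    intro x hx; simp only [Finset.mem_insert, Finset.mem_singleton] at hx ⊢
    rcases hx with h | h | h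
    · exact Or.inl h
    · exact Or.inr (Or.inl h)
    · exact Or.inr (Or.inr (Or.inr h))
  have s3 : ({n0, n2, n3} : Finset ℕ) ⊆ {n0, n1, n2, n3} := by
    intro x hx; simp only [Finset.mem_insert, Finset.mem_singleton] at hx ⊢
    rcases hx with h | h | h
    · exact Or.inl h
    · exact Or.inr (Or.inr (Or.inl h))
    · exact Or.inr (Or.inr (Or.inr h))
  have s4 : ({n1, n2, n3} : Finset ℕ) ⊆ {n0, n1, n2, n3} := Finset.subset_insert _ _
  have hodd : ¬ Even R := by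
    intro hev
    by_cases g1 : (R ∈ v n0 ↔ R ∈ v n1) ∧ (R ∈ v n0 ↔ R ∈ v n2)
    · have g2 : ¬ ((R ∈ v n0 ↔ R ∈ v n1) ∧ (R ∈ v n0 ↔ R ∈ v n3)) :=
        fun g => hall ⟨g1.1, g1.2, g.2⟩
      exact e2 ((ue_iff (card3n h01 h03 h13) (mix _ _ _ s2 g2)).2 hev)
    · exact e1 ((ue_iff (card3n h01 h02 h12) (mix _ _ _ s1 g1)).2 hev)
  apply hodd
  by_cases g1 : (R ∈ v n0 ↔ R ∈ v n2) ∧ (R ∈ v n0 ↔ R ∈ v n3)
  · have g2 : ¬ ((R ∈ v n1 ↔ R ∈ v n2) ∧ (R ∈ v n1 ↔ R ∈ v n3)) :=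
      fun g => hall ⟨g1.1.trans g.1.symm, g1.1, g1.2⟩
    exact (ue_iff (card3n h12 h13 h23) (mix _ _ _ s4 g2)).1 e4
  · exact (ue_iff (card3n h02 h03 h23) (mix _ _ _ s3 g1)).1 e3

/-- the copy of `H` on four given vertices -/
lemma copy4 {u0 u1 u2 u3 : Fin 4} (h01 : u0 ≠ u1) (h02 : u0 ≠ u2) (h03 : u0 ≠ u3)
    (h12 : u1 ≠ u2) (h13 : u1 ≠ u3) (h23 : u2 ≠ u3) (hunc : Unc H u0 u1) (hfull : Full H u2 u3)
    {n0 n1 n2 n3 : ℕ}
    (k01 : n0 ≠ n1) (k02 : n0 ≠ n2) (k03 : n0 ≠ n3) (k12 : n1 ≠ n2) (k13 : n1 ≠ n3)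
    (k23 : n2 ≠ n3) (G : Set (Finset ℕ))
    (e1 : {n0, n1, n2} ∉ G) (e2 : {n0, n1, n3} ∉ G) (e3 : {n0, n2, n3} ∈ G)
    (e4 : {n1, n2, n3} ∈ G) :
    ∃ φ : Fin 4 ↪ ℕ, ∀ s : Finset (Fin 4), s.card = 3 → (s ∈ H ↔ s.map φ ∈ G) := by
  classical
  set F : Fin 4 → ℕ := fun w => if w = u0 then n0 else if w = u1 then n1 else
    if w = u2 then n2 else n3 with hF
  have f0 : F u0 = n0 := if_pos rfl
  have f1 : F u1 = n1 := by simp [hF, h01.symm]
  have f2 : F u2 = n2 := by simp [hF, h02.symm, h12.symm]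
  have f3 : F u3 = n3 := by simp [hF, h03.symm, h13.symm, h23.symm]
  have hcov : ∀ w : Fin 4, w = u0 ∨ w = u1 ∨ w = u2 ∨ w = u3 := by
    revert h01 h02 h03 h12 h13 h23
    clear hunc hfull f0 f1 f2 f3 hF F
    revert u0 u1 u2 u3
    decide
  have hinj : Function.Injective F := by
    intro a b hab
    rcases hcov a with rfl | rfl | rfl | rfl <;> rcases hcov b with rfl | rfl | rfl | rfl
    · rfl
    · rw [f0, f1] at hab; exact absurd hab k01
    · rw [f0, f2] at hab; exact absurd hab k02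
    · rw [f0, f3] at hab; exact absurd hab k03
    · rw [f1, f0] at hab; exact absurd hab.symm k01
    · rfl
    · rw [f1, f2] at hab; exact absurd hab k12
    · rw [f1, f3] at hab; exact absurd hab k13
    · rw [f2, f0] at hab; exact absurd hab.symm k02
    · rw [f2, f1] at hab; exact absurd hab.symm k12
    · rfl
    · rw [f2, f3] at hab; exact absurd hab k23
    · rw [f3, f0] at hab; exact absurd hab.symm k03
    · rw [f3, f1] at hab; exact absurd hab.symm k13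
    · rw [f3, f2] at hab; exact absurd hab.symm k23
    · rfl
  refine ⟨⟨F, hinj⟩, fun s hs => ?_⟩
  have hmap : ∀ a b c : Fin 4, ({a, b, c} : Finset (Fin 4)).map ⟨F, hinj⟩ = {F a, F b, F c} := by
    intro a b c
    rw [Finset.map_insert, Finset.map_insert, Finset.map_singleton]
    rfl
  have hfour : s = {u0, u1, u2} ∨ s = {u0, u1, u3} ∨ s = {u0, u2, u3} ∨ s = {u1, u2, u3} := by
    revert hs h01 h02 h03 h12 h13 h23
    clear hmap hinj hcov hunc hfull f0 f1 f2 f3 hF F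
    revert u0 u1 u2 u3 s
    decide
  rcases hfour with rfl | rfl | rfl | rfl
  · rw [hmap, f0, f1, f2]
    exact ⟨fun h => absurd (hunc.2 _ h (by simp)) (by simp), fun h => absurd h e1⟩
  · rw [hmap, f0, f1, f3]
    exact ⟨fun h => absurd (hunc.2 _ h (by simp)) (by simp), fun h => absurd h e2⟩
  · rw [hmap, f0, f2, f3]
    exact ⟨fun _ => e3, fun _ => hfull.2 _ hs (by simp) (by simp)⟩
  · rw [hmap, f1, f2, f3]
    exact ⟨fun _ => e4, fun _ => hfull.2 _ hs (by simp) (by simp)⟩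

end Pool.Agent.X147.Hc
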