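import Mathlib
import Pool.Agent.X147.HsM

open Finset

namespace Pool.Agent.X147.Hc

variable {H : Finset (Finset (Fin 4))}

lemma rot (a b c : ℕ) : ({a, b, c} : Finset ℕ) = {c, a, b} := by
  ext x; simp only [Finset.mem_insert, Finset.mem_singleton]; tauto

lemma core4 {v : ℕ → Finset ℤ} (hv : Function.Bijective v) {P : Set (Finset ℕ)}
    (hloc : ∀ u, {e ∈ P | u ∈ e}.Finite)
    {u0 u1 u2 u3 : Fin 4} (h01 : u0 ≠ u1) (h02 : u0 ≠ u2) (h03 : u0 ≠ u3)
    (h12 : u1 ≠ u2) (h13 : u1 ≠ u3) (h23 : u2 ≠ u3) (hunc : Unc H u0 u1) (hfull : Full H u2 u3)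
    {x y z : ℕ} (hxy : x ≠ y) (hxz : x ≠ z) (hyz : y ≠ z) (heP : {x, y, z} ∈ P) {r : ℤ}
    (hr : IsLev v {x, y, z} r) (hrxy : r ∈ v x ↔ r ∈ v y) (hrxz : ¬ (r ∈ v x ↔ r ∈ v z)) :
    ∃ φ : Fin 4 ↪ ℕ, ∀ s : Finset (Fin 4), s.card = 3 →
      (s ∈ H ↔ s.map φ ∈ symmDiff {s | UE v s} P) := by
  classical
  set N : Set ℕ := (({x, y, z} : Finset ℕ) : Set ℕ) ∪
    ⋃ u ∈ (({x, y, z} : Finset ℕ) : Set ℕ), ⋃ q ∈ {q ∈ P | u ∈ q}, (q : Set ℕ) with hN
  have hNfin : N.Finite := by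
    refine (Finset.finite_toSet _).union ?_
    refine Set.Finite.biUnion (Finset.finite_toSet _) fun u _ => ?_
    exact Set.Finite.biUnion (hloc u) fun q _ => Finset.finite_toSet q
  have hsurj : ∀ m : ℤ, ∃ w, v w = symmDiff (v x) {r - 1, m} := fun m => hv.2 _
  choose W hW using hsurj
  have hWinj : Set.InjOn W (Set.Iio (r - 1)) := by
    intro m hm m' hm' hmm
    have h1 : symmDiff (v x) ({r - 1, m} : Finset ℤ) = symmDiff (v x) {r - 1, m'} := by
      rw [← hW, ← hW, hmm]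
    have h2 : ({r - 1, m} : Finset ℤ) = {r - 1, m'} := symmDiff_right_injective _ h1
    have h3 : m ∈ ({r - 1, m'} : Finset ℤ) := by rw [← h2]; simp
    simp only [Finset.mem_insert, Finset.mem_singleton] at h3
    rcases h3 with h3 | h3
    · exact absurd h3 (ne_of_lt (Set.mem_Iio.1 hm))
    · exact h3
  have hinf : (W '' Set.Iio (r - 1)).Infinite := (Set.Iio_infinite (r - 1)).image hWinj
  obtain ⟨w, ⟨m, hm, rfl⟩, hwN⟩ := hinf.exists_notMem_finite hNfin
  have hm' : m < r - 1 := hm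
  have hvw : ∀ i, i ∈ v (W m) ↔ (i ∈ v x ∧ i ≠ r - 1 ∧ i ≠ m) ∨
      ((i = r - 1 ∨ i = m) ∧ i ∉ v x) := by
    intro i
    rw [hW, Finset.mem_symmDiff]
    simp only [Finset.mem_insert, Finset.mem_singleton, not_or]
  have hge : ∀ i, r ≤ i → (i ∈ v (W m) ↔ i ∈ v x) := by
    intro i hi
    rw [hvw]
    constructor
    · rintro (h | ⟨h | h, _⟩)
      · exact h.1
      · omega
      · omega
    · exact fun h => Or.inl ⟨h, by omega, by omega⟩
  have hr1 : r - 1 ∈ v (W m) ↔ r - 1 ∉ v x := by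
    rw [hvw]
    constructor
    · rintro (h | h)
      · exact absurd rfl h.2.1
      · exact h.2
    · exact fun h => Or.inr ⟨Or.inl rfl, h⟩
  have hnotN : ∀ u, u ∈ ({x, y, z} : Finset ℕ) → u ≠ W m ∧
      ∀ q : Finset ℕ, u ∈ q → W m ∈ q → q ∉ P := by
    intro u hu
    constructor
    · rintro rfl
      exact hwN (Or.inl (Finset.mem_coe.2 hu))
    · intro q huq hwq hqP
      apply hwN
      refine Or.inr (Set.mem_biUnion (Finset.mem_coe.2 hu) ?_)
      exact Set.mem_biUnion (show q ∈ {q ∈ P | u ∈ q} from ⟨hqP, huq⟩) (Finset.mem_coe.2 hwq)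
  obtain ⟨hxw, hxP⟩ := hnotN x (by simp)
  obtain ⟨hyw, hyP⟩ := hnotN y (by simp)
  obtain ⟨hzw, _⟩ := hnotN z (by simp)
  set w := W m with hw
  have hxyi : ∀ i, r ≤ i → (i ∈ v x ↔ i ∈ v y) := by
    intro i hi
    rcases eq_or_lt_of_le hi with h | h
    · rw [← h]; exact hrxy
    · exact hr.2 i h x (by simp) y (by simp)
  have hxzi : ∀ i, r < i → (i ∈ v x ↔ i ∈ v z) := fun i h => hr.2 i h x (by simp) z (by simp)
  -- levels
  have agree : ∀ (a b c : ℕ) (i : ℤ), (i ∈ v a ↔ i ∈ v b) → (i ∈ v a ↔ i ∈ v c) →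
      ∀ p ∈ ({a, b, c} : Finset ℕ), ∀ q ∈ ({a, b, c} : Finset ℕ), (i ∈ v p ↔ i ∈ v q) := by
    intro a b c i h1 h2
    have hall : ∀ p ∈ ({a, b, c} : Finset ℕ), (i ∈ v a ↔ i ∈ v p) := by
      intro p hp
      simp only [Finset.mem_insert, Finset.mem_singleton] at hp
      rcases hp with rfl | rfl | rfl
      · exact Iff.rfl
      · exact h1
      · exact h2
    exact fun p hp q hq => (hall p hp).symm.trans (hall q hq)
  have differ : ∀ (s : Finset ℕ) (a b : ℕ) (i : ℤ), a ∈ s → b ∈ s → ¬ (i ∈ v a ↔ i ∈ v b) →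
      ∃ a ∈ s, ∃ b ∈ s, i ∈ v a ∧ i ∉ v b := by
    intro s a b i ha hb h1
    by_cases h2 : i ∈ v a
    · exact ⟨a, ha, b, hb, h2, fun h3 => h1 ⟨fun _ => h3, fun _ => h2⟩⟩
    · refine ⟨b, hb, a, ha, ?_, h2⟩
      by_contra h3
      exact h1 ⟨fun h => absurd h h2, fun h => absurd h h3⟩
  have l1 : IsLev v {x, y, w} (r - 1) := by
    refine ⟨differ _ x w (r - 1) (by simp) (by simp) ?_, ?_⟩
    · rw [hr1]; exact iff_not_self
    · intro i hi
      exact agree x y w i (hxyi i (by omega)) (hge i (by omega)).symm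
  have l2 : IsLev v {x, z, w} r := by
    refine ⟨differ _ x z r (by simp) (by simp) hrxz, ?_⟩
    intro i hi
    exact agree x z w i (hxzi i hi) (hge i hi.le).symm
  have l3 : IsLev v {y, z, w} r := by
    refine ⟨differ _ y z r (by simp) (by simp) (fun h => hrxz (hrxy.trans h)), ?_⟩
    intro i hi
    exact agree y z w i ((hxyi i hi.le).symm.trans (hxzi i hi))
      ((hxyi i hi.le).symm.trans (hge i hi.le).symm)
  have c0 := card3n hxy hxz hyz
  have c1 := card3n hxy hxw hyw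
  have c2 := card3n hxz hxw hzw
  have c3 := card3n hyz hyw hzw
  have m1 : ({x, y, w} : Finset ℕ) ∈ symmDiff {s | UE v s} P ↔ Even (r - 1) := by
    rw [← ue_iff c1 l1, Set.mem_symmDiff]
    have := hxP {x, y, w} (by simp) (by simp)
    constructor
    · rintro (⟨h, _⟩ | ⟨h, _⟩)
      · exact h
      · exact absurd h this
    · exact fun h => Or.inl ⟨h, this⟩
  have m2 : ({x, z, w} : Finset ℕ) ∈ symmDiff {s | UE v s} P ↔ Even r := by
    rw [← ue_iff c2 l2, Set.mem_symmDiff]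
    have := hxP {x, z, w} (by simp) (by simp)
    constructor
    · rintro (⟨h, _⟩ | ⟨h, _⟩)
      · exact h
      · exact absurd h this
    · exact fun h => Or.inl ⟨h, this⟩
  have m3 : ({y, z, w} : Finset ℕ) ∈ symmDiff {s | UE v s} P ↔ Even r := by
    rw [← ue_iff c3 l3, Set.mem_symmDiff]
    have := hyP {y, z, w} (by simp) (by simp)
    constructor
    · rintro (⟨h, _⟩ | ⟨h, _⟩)
      · exact h
      · exact absurd h this
    · exact fun h => Or.inl ⟨h, this⟩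
  have m0 : ({x, y, z} : Finset ℕ) ∈ symmDiff {s | UE v s} P ↔ ¬ Even r := by
    rw [← ue_iff c0 hr, Set.mem_symmDiff]
    constructor
    · rintro (⟨_, h⟩ | ⟨_, h⟩)
      · exact absurd heP h
      · exact h
    · exact fun h => Or.inr ⟨heP, h⟩
  by_cases hev : Even r
  · have hodd : ¬ Even (r - 1) := by
      rw [Int.even_sub_one]; exact fun h => h hev
    exact copy4 h01 h02 h03 h12 h13 h23 hunc hfull hxy hxz hxw hyz hyw hzw _
      (fun h => m0.1 h hev) (fun h => hodd (m1.1 h)) (m2.2 hev) (m3.2 hev)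
  · have hev' : Even (r - 1) := by
      rw [Int.even_sub_one]; exact hev
    refine copy4 h01 h02 h03 h12 h13 h23 hunc hfull hzw hxz.symm hyz.symm hxw.symm hyw.symm hxy _
      ?_ ?_ ?_ ?_
    · rw [rot z w x]; exact fun h => hev (m2.1 h)
    · rw [rot z w y]; exact fun h => hev (m3.1 h)
    · rw [← rot x y z]; exact m0.2 hev
    · rw [← rot x y w]; exact m1.2 hev'

theorem sat4 {v : ℕ → Finset ℤ} (hv : Function.Bijective v) {P : Set (Finset ℕ)}
    (hP : P.Nonempty) (hPk : ∀ e ∈ P, e.card = 3) (hloc : ∀ u, {e ∈ P | u ∈ e}.Finite)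
    {u0 u1 u2 u3 : Fin 4} (h01 : u0 ≠ u1) (h02 : u0 ≠ u2) (h03 : u0 ≠ u3)
    (h12 : u1 ≠ u2) (h13 : u1 ≠ u3) (h23 : u2 ≠ u3) (hunc : Unc H u0 u1)
    (hfull : Full H u2 u3) :
    ∃ φ : Fin 4 ↪ ℕ, ∀ s : Finset (Fin 4), s.card = 3 →
      (s ∈ H ↔ s.map φ ∈ symmDiff {s | UE v s} P) := by
  classical
  obtain ⟨e, heP⟩ := hP
  obtain ⟨a, b, c, hab, hac, hbc, rfl⟩ := Finset.card_eq_three.1 (hPk e heP)
  obtain ⟨r, hr⟩ := exists_lev hv.1 (s := {a, b, c}) (a := a) (b := b) (by simp) (by simp) hab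
  have hnot : ¬ ((r ∈ v a ↔ r ∈ v b) ∧ (r ∈ v a ↔ r ∈ v c)) := by
    rintro ⟨g1, g2⟩
    obtain ⟨p, hp, q, hq, hrp, hrq⟩ := hr.1
    have hall : ∀ p ∈ ({a, b, c} : Finset ℕ), (r ∈ v a ↔ r ∈ v p) := by
      intro p hp
      simp only [Finset.mem_insert, Finset.mem_singleton] at hp
      rcases hp with rfl | rfl | rfl
      · exact Iff.rfl
      · exact g1
      · exact g2
    exact hrq ((hall q hq).1 ((hall p hp).2 hrp))
  by_cases g1 : r ∈ v a ↔ r ∈ v b
  · exact core4 hv hloc h01 h02 h03 h12 h13 h23 hunc hfull hab hac hbc heP hr g1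
      (fun g => hnot ⟨g1, g⟩)
  · by_cases g2 : r ∈ v a ↔ r ∈ v c
    · -- x = c, y = a, z = b
      rw [rot a b c] at heP hr
      exact core4 hv hloc h01 h02 h03 h12 h13 h23 hunc hfull hac.symm hbc.symm hab heP hr
        g2.symm (fun g => g1 (g2.trans g))
    · -- b and c agree: x = b, y = c, z = a
      have g3 : r ∈ v b ↔ r ∈ v c := by
        by_cases t1 : r ∈ v a <;> by_cases t2 : r ∈ v b <;> by_cases t3 : r ∈ v c <;>
          simp_all
      rw [rot a b c, rot c a b] at heP hr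
      exact core4 hv hloc h01 h02 h03 h12 h13 h23 hunc hfull hbc hab.symm hac.symm heP hr
        g3 (fun g => g1 g.symm)

end Pool.Agent.X147.Hc
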