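import Mathlib

open Finset

namespace Pool.Agent.X147.Ssd

lemma exists_sum (M : ℕ) : ∀ K s : ℕ, K ≤ M → s ≤ K * (M - K) →
    ∃ t ⊆ Icc 1 M, t.card = K ∧ 2 * ∑ j ∈ t, j = K * (K + 1) + 2 * s := by
  induction M with
  | zero =>
    intro K s hK hs
    have hK0 : K = 0 := by omega
    subst hK0
    have hs0 : s = 0 := by simpa using hs
    subst hs0
    exact ⟨∅, by simp, by simp, by simp⟩
  | succ M ih =>
    intro K s hK hs
    by_cases h : K ≤ M ∧ s ≤ K * (M - K)
    · obtain ⟨t, hts, htc, ht⟩ := ih K s h.1 h.2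
      exact ⟨t, hts.trans (Finset.Icc_subset_Icc le_rfl (Nat.le_succ M)), htc, ht⟩
    · obtain ⟨L, hL⟩ : ∃ L, K = L + 1 := by
        rcases Nat.eq_zero_or_pos K with h0 | h0
        · subst h0
          exfalso; apply h
          refine ⟨Nat.zero_le _, ?_⟩
          simp at hs ⊢; exact hs
        · exact ⟨K - 1, by omega⟩
      subst hL
      obtain ⟨e, he⟩ : ∃ e, M = L + e := ⟨M - L, by omega⟩
      subst he
      have h1 : L + e + 1 - (L + 1) = e := by omega
      rw [h1] at hs
      have hse : e ≤ s := by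
        by_contra hlt
        push Not at hlt
        apply h
        refine ⟨by omega, ?_⟩
        have h2 : L + e - (L + 1) = e - 1 := by omega
        rw [h2]
        have : s ≤ e - 1 := by omega
        nlinarith
      obtain ⟨s', rfl⟩ : ∃ s', s = s' + e := ⟨s - e, by omega⟩
      have hs' : s' ≤ L * (L + e - L) := by
        have : L + e - L = e := by omega
        rw [this]; nlinarith
      obtain ⟨t, hts, htc, ht⟩ := ih L s' (by omega) hs'
      have hnot : (L + e + 1) ∉ t := by
        intro hmem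
        have := Finset.mem_Icc.1 (hts hmem)
        omega
      refine ⟨insert (L + e + 1) t, ?_, ?_, ?_⟩
      · intro j hj
        rcases Finset.mem_insert.1 hj with h | h
        · rw [Finset.mem_Icc]; omega
        · have := Finset.mem_Icc.1 (hts h)
          rw [Finset.mem_Icc]; omega
      · rw [Finset.card_insert_of_notMem hnot, htc]
      · rw [Finset.sum_insert hnot, mul_add, ht]
        ring

lemma exists_residue {M K N : ℕ} (hK : K ≤ M) (hN : 0 < N) (h : N ≤ K * (M - K) + 1) (a : ℕ) :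
    ∃ t ⊆ Icc 1 M, t.card = K ∧ ∑ j ∈ t, j ≡ a [MOD N] := by
  obtain ⟨T, hT⟩ : ∃ T, K * (K + 1) = 2 * T := by
    have := Nat.even_mul_succ_self K
    obtain ⟨T, hT⟩ := this
    exact ⟨T, by omega⟩
  have hs : (a + (N - 1) * T) % N ≤ K * (M - K) := by
    have := Nat.mod_lt (a + (N - 1) * T) hN
    omega
  obtain ⟨t, hts, htc, ht⟩ := exists_sum M K _ hK hs
  refine ⟨t, hts, htc, ?_⟩
  have h1 : ∑ j ∈ t, j = T + (a + (N - 1) * T) % N := by
    rw [hT] at ht; omega
  rw [h1]
  have h2 : T + (a + (N - 1) * T) % N ≡ T + (a + (N - 1) * T) [MOD N] :=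
    Nat.ModEq.add_left T (Nat.mod_modEq _ _)
  refine h2.trans ?_
  have h3 : T + (a + (N - 1) * T) = a + N * T := by
    obtain ⟨N', rfl⟩ : ∃ N', N = N' + 1 := ⟨N - 1, by omega⟩
    rw [Nat.add_sub_cancel]; ring
  rw [h3]
  show (a + N * T) % N = a % N
  rw [Nat.add_mul_mod_self_left]

end Pool.Agent.X147.Ssd
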