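import Mathlib

open Finset Polynomial

namespace Pool.Agent.X147.Ssd

lemma prod_prim {ζ : ℂ} {D : ℕ} (hD : 0 < D) (h : IsPrimitiveRoot ζ D) :
    ∏ j ∈ range D, (1 - C (ζ ^ j) * X : ℂ[X]) = 1 - X ^ D := by
  have : NeZero D := ⟨hD.ne'⟩
  have h' : IsPrimitiveRoot (C ζ : ℂ[X]) D := h.map_of_injective C_injective
  have := h'.pow_sub_pow_eq_prod_sub_mul (1 : ℂ[X]) X hD
  rw [one_pow] at this
  rw [this]
  refine Finset.prod_nbij (fun j => (C ζ : ℂ[X]) ^ j) ?_ ?_ ?_ ?_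
  · intro j _
    rw [Polynomial.mem_nthRootsFinset hD, ← pow_mul, mul_comm, pow_mul, h'.pow_eq_one, one_pow]
  · intro i hi j hj hij
    exact h'.pow_inj (by simpa using hi) (by simpa using hj) hij
  · intro ξ hξ
    have hξ' : ξ ^ D = 1 := (Polynomial.mem_nthRootsFinset hD 1).1 (by simpa using hξ)
    obtain ⟨i, hi, hi'⟩ := h'.eq_pow_of_pow_eq_one hξ'
    exact ⟨i, by simpa using hi, hi'⟩
  · intro j _
    rw [C_pow]

lemma prod_prim_mul {ζ : ℂ} {D : ℕ} (hD : 0 < D) (h : IsPrimitiveRoot ζ D) (M : ℕ) :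
    ∏ j ∈ range (D * M), (1 - C (ζ ^ j) * X : ℂ[X]) = (1 - X ^ D) ^ M := by
  induction M with
  | zero => simp
  | succ M ih =>
    rw [Nat.mul_succ, Finset.prod_range_add, ih, pow_succ]
    congr 1
    rw [← prod_prim hD h]
    refine Finset.prod_congr rfl fun j _ => ?_
    rw [pow_add, pow_mul, h.pow_eq_one, one_pow, one_mul]

lemma coeff_prod {ι : Type*} [DecidableEq ι] (S : Finset ι) (a : ι → ℂ) (m : ℕ) :
    (∏ i ∈ S, (1 - C (a i) * X : ℂ[X])).coeff m
      = (-1) ^ m * ∑ t ∈ S.powersetCard m, ∏ i ∈ t, a i := by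
  have h1 : ∏ i ∈ S, (1 - C (a i) * X : ℂ[X]) = ∏ i ∈ S, (1 + C (- a i) * X) := by
    refine Finset.prod_congr rfl fun i _ => ?_
    rw [C_neg]; ring
  rw [h1, Finset.prod_one_add, Polynomial.finsetSum_coeff]
  have h2 : ∀ t ∈ S.powerset, (∏ i ∈ t, (C (- a i) * X : ℂ[X])).coeff m
      = if t.card = m then (-1) ^ m * ∏ i ∈ t, a i else 0 := by
    intro t _
    rw [Finset.prod_mul_distrib, Finset.prod_const, ← map_prod, coeff_C_mul_X_pow]
    split_ifs with h3 h4 h4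
    · rw [Finset.prod_neg, h4]
    · exact absurd h3.symm h4
    · exact absurd h4.symm h3
    · rfl
  rw [Finset.sum_congr rfl h2, ← Finset.sum_filter, Finset.mul_sum]
  refine Finset.sum_congr ?_ fun _ _ => rfl
  ext t
  simp [Finset.mem_powersetCard]

lemma one_sub_X_ne : (1 - X : ℂ[X]) ≠ 0 := by
  intro h
  have := congrArg (Polynomial.eval 0) h
  simp at this

lemma range_split {f : ℕ → ℂ[X]} {n : ℕ} (hn : 0 < n) :
    ∏ j ∈ range n, f j = f 0 * ∏ j ∈ Icc 1 (n - 1), f j := by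
  have : range n = insert 0 (Icc 1 (n - 1)) := by
    ext j; simp; omega
  rw [this, Finset.prod_insert (by simp)]

/-- the key factorisation -/
lemma key_prod {ζ : ℂ} {D d N n : ℕ} (hd : 0 < d) (hN : 0 < N) (hn : n = d * N)
    (h : IsPrimitiveRoot ζ D) (hdD : d ∣ D) (hDn : D ∣ n) :
    ∏ j ∈ Icc 1 (n - 1), (1 - C (ζ ^ j) * X : ℂ[X])
      = expand ℂ d (∏ j ∈ Icc 1 (N - 1), (1 - C ((ζ ^ d) ^ j) * X : ℂ[X]))
        * ∑ i ∈ range d, X ^ i := by
  have hn0 : 0 < n := by rw [hn]; positivity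
  have hD : 0 < D := Nat.pos_of_dvd_of_pos hDn hn0
  obtain ⟨M, rfl⟩ := hDn
  obtain ⟨E, rfl⟩ := hdD
  have hE : 0 < E := by
    rcases Nat.eq_zero_or_pos E with h0 | h0
    · subst h0; simp at hD
    · exact h0
  have hNE : N = E * M := by
    have : d * (E * M) = d * N := by rw [← hn]; ring
    exact (Nat.eq_of_mul_eq_mul_left hd this).symm
  have hpd : IsPrimitiveRoot (ζ ^ d) E := h.pow hD rfl
  have h1 := prod_prim_mul hD h M
  have h2 := prod_prim_mul hE hpd M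
  rw [← hNE, range_split hN] at h2
  rw [range_split hn0] at h1
  have h3 := congrArg (expand ℂ d) h2
  simp only [pow_zero, one_mul, map_mul, map_sub, map_one, expand_X, map_pow] at h3 h1
  rw [← pow_mul] at h3
  have h4 : (1 - X : ℂ[X]) * ∑ i ∈ range d, X ^ i = 1 - X ^ d := mul_neg_geom_sum X d
  apply mul_left_cancel₀ one_sub_X_ne
  simp only [map_pow] at h1 h3 ⊢
  rw [h1, ← h3, ← h4]
  ring

lemma coeff_expand_geom (Q : ℂ[X]) {d : ℕ} (hd : 0 < d) (m : ℕ) :
    (expand ℂ d Q * ∑ i ∈ range d, X ^ i).coeff m = Q.coeff (m / d) := by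
  rw [Finset.mul_sum, Polynomial.finsetSum_coeff,
    Finset.sum_eq_single (m % d)]
  · rw [coeff_mul_X_pow', if_pos (Nat.mod_le m d), coeff_expand hd, if_pos (Nat.dvd_sub_mod m)]
    congr 1
    rw [← Nat.div_add_mod m d]
    have : d * (m / d) + m % d - (d * (m / d) + m % d) % d = d * (m / d) := by
      rw [Nat.div_add_mod]
      have := Nat.div_add_mod m d
      omega
    rw [this, Nat.mul_div_cancel_left _ hd, Nat.div_add_mod]
  · intro i hi him
    rw [coeff_mul_X_pow']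
    split_ifs with h
    · rw [coeff_expand hd, if_neg]
      intro hdv
      apply him
      have hi' : i < d := by simpa using hi
      have h1 : m ≡ i [MOD d] := by
        have := (Nat.modEq_iff_dvd' h).2 hdv
        exact this.symm
      rw [h1, Nat.mod_eq_of_lt hi']
    · rfl
  · intro hmd
    exact absurd (Finset.mem_range.2 (Nat.mod_lt m hd)) hmd

/-- combined: elementary symmetric sums -/
lemma esymm_key {ζ : ℂ} {D d N n : ℕ} (hd : 0 < d) (hN : 0 < N) (hn : n = d * N)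
    (h : IsPrimitiveRoot ζ D) (hdD : d ∣ D) (hDn : D ∣ n) (m : ℕ) :
    (-1) ^ m * ∑ t ∈ (Icc 1 (n - 1)).powersetCard m, ∏ j ∈ t, ζ ^ j
      = (-1) ^ (m / d) * ∑ t ∈ (Icc 1 (N - 1)).powersetCard (m / d), ∏ j ∈ t, (ζ ^ d) ^ j := by
  rw [← coeff_prod, ← coeff_prod, key_prod hd hN hn h hdD hDn, coeff_expand_geom _ hd]

end Pool.Agent.X147.Ssd
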