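import Mathlib

open Finset

namespace Pool.Agent.X147.Ssd

/-- divisors `d > 1` of `n` in which every prime occurs to a higher power than in `k` -/
def DD (n k d : ℕ) : Prop :=
  d ∣ n ∧ 1 < d ∧ ∀ p : ℕ, p.Prime → p ∣ d → k.factorization p < d.factorization p

lemma nat_mul_eq_zero_iff {n : ℕ} (v : ZMod n) (m : ℕ) :
    (m : ZMod n) * v = 0 ↔ addOrderOf v ∣ m := by
  rw [← nsmul_eq_mul, addOrderOf_dvd_iff_nsmul_eq_zero]

lemma lemA {n k : ℕ} [NeZero n] (hk : k ≠ 0) (v : ZMod n) (hv : (k : ZMod n) * v ≠ 0) :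
    ∃ v₀ : ZMod n, (k : ZMod n) * v₀ = k * v ∧ DD n k (addOrderOf v₀) := by
  classical
  have hex : ∃ m : ℕ, 0 < m ∧ ∃ v' : ZMod n, (k : ZMod n) * v' = k * v ∧ (m : ZMod n) * v' = 0 :=
    ⟨n, Nat.pos_of_ne_zero (NeZero.ne n), v, rfl, by simp⟩
  obtain ⟨hm0, v₀, hv₀, hmv⟩ := Nat.find_spec hex
  set m := Nat.find hex with hm
  have hmin : ∀ j, j < m → ¬ (0 < j ∧ ∃ v' : ZMod n, (k : ZMod n) * v' = k * v ∧
      (j : ZMod n) * v' = 0) := fun j hj => Nat.find_min hex hj
  have hdm : addOrderOf v₀ = m := by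
    have h1 : addOrderOf v₀ ∣ m := (nat_mul_eq_zero_iff v₀ m).1 hmv
    have h2 : 0 < addOrderOf v₀ := Nat.pos_of_dvd_of_pos h1 hm0
    by_contra h3
    have h4 : addOrderOf v₀ < m := lt_of_le_of_ne (Nat.le_of_dvd hm0 h1) h3
    exact hmin _ h4 ⟨h2, v₀, hv₀, (nat_mul_eq_zero_iff v₀ _).2 dvd_rfl⟩
  refine ⟨v₀, hv₀, ?_, ?_, ?_⟩
  · have := addOrderOf_dvd_card (x := v₀)
    rwa [ZMod.card] at this
  · rw [hdm]
    by_contra h
    have h1 : m = 1 := by omega
    rw [h1] at hmv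
    simp only [Nat.cast_one, one_mul] at hmv
    apply hv
    rw [← hv₀, hmv, mul_zero]
  · rw [hdm]
    intro p hp hpm
    by_contra hle
    push Not at hle
    have hpk : p ^ m.factorization p ∣ k :=
      (hp.pow_dvd_iff_le_factorization hk).2 hle
    have hprod : p ^ m.factorization p * (m / p ^ m.factorization p) = m :=
      Nat.ordProj_mul_ordCompl_eq_self m p
    have hcop : Nat.Coprime (p ^ m.factorization p) (m / p ^ m.factorization p) :=
      Nat.Coprime.pow_left _ (Nat.coprime_ordCompl hp hm0.ne')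
    set q := p ^ m.factorization p with hq
    set m' := m / q with hm'
    obtain ⟨a, b, hab⟩ := Nat.isCoprime_iff_coprime.2 hcop
    have hm'0 : 0 < m' := by
      rcases Nat.eq_zero_or_pos m' with h0 | h0
      · rw [h0, mul_zero] at hprod; omega
      · exact h0
    have hc1 : 1 ≤ m.factorization p := by
      exact (hp.dvd_iff_one_le_factorization hm0.ne').1 hpm
    have hq1 : 1 < q := Nat.one_lt_pow (by omega) hp.one_lt
    have hm'm : m' < m := by
      rw [← hprod]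
      nlinarith
    have habz : (a : ZMod n) * (q : ZMod n) + (b : ZMod n) * (m' : ZMod n) = 1 := by
      have := congrArg (Int.cast : ℤ → ZMod n) hab
      push_cast at this
      exact this
    apply hmin m' hm'm
    refine ⟨hm'0, (a : ZMod n) * (q : ZMod n) * v₀, ?_, ?_⟩
    · have h1 : ((k * m' : ℕ) : ZMod n) * v₀ = 0 := by
        rw [nat_mul_eq_zero_iff, hdm, ← hprod]
        exact Nat.mul_dvd_mul_right hpk m'
      push_cast at h1
      rw [← hv₀]
      have h2 : (a : ZMod n) * (q : ZMod n) = 1 - (b : ZMod n) * (m' : ZMod n) := by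
        rw [← habz]; ring
      rw [h2]
      linear_combination (-(b : ZMod n)) * h1
    · have h1 : ((q * m' : ℕ) : ZMod n) * v₀ = 0 := by
        rw [nat_mul_eq_zero_iff, hdm, hprod]
      push_cast at h1
      linear_combination (a : ZMod n) * h1

lemma lemD {n k : ℕ} [NeZero n] (hk : k ≠ 0) (v₀ w : ZMod n) (hw : (k : ZMod n) * w = 0)
    (hD : DD n k (addOrderOf v₀)) : addOrderOf v₀ ∣ addOrderOf (v₀ + w) := by
  obtain ⟨hdn, hd1, hp⟩ := hD
  set d := addOrderOf v₀ with hd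
  set D := addOrderOf (v₀ + w) with hDdef
  have hD0 : D ≠ 0 := by
    have := addOrderOf_dvd_card (x := v₀ + w)
    rw [ZMod.card] at this
    intro h0
    rw [← hDdef, h0] at this
    exact NeZero.ne n (Nat.eq_zero_of_zero_dvd this)
  have hd0 : d ≠ 0 := by omega
  rw [Nat.dvd_iff_prime_pow_dvd_dvd]
  intro p j hpp hpj
  rcases Nat.eq_zero_or_pos j with h0 | hj0
  · subst h0; simp
  have hpd : p ∣ d := (dvd_pow_self p hj0.ne').trans hpj
  have hlt := hp p hpp hpd
  have hjc : j ≤ d.factorization p := (hpp.pow_dvd_iff_le_factorization hd0).1 hpj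
  refine (pow_dvd_pow p hjc).trans ?_
  set c := d.factorization p with hc
  by_contra hnd
  obtain ⟨i, m, hpm, hDe⟩ := Nat.exists_eq_pow_mul_and_not_dvd hD0 p hpp.ne_one
  obtain ⟨b, k₁, hpk, hke⟩ := Nat.exists_eq_pow_mul_and_not_dvd hk p hpp.ne_one
  have hic : i < c := by
    by_contra h
    push Not at h
    exact hnd ((pow_dvd_pow p h).trans (hDe ▸ dvd_mul_right _ _))
  have hbc : b < c := by
    have : b ≤ k.factorization p :=
      (hpp.pow_dvd_iff_le_factorization hk).1 (hke ▸ dvd_mul_right _ _)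
    omega
  have h1 : ((p ^ (c - 1) * (m * k₁) : ℕ) : ZMod n) * (v₀ + w) = 0 := by
    rw [nat_mul_eq_zero_iff, ← hDdef, hDe]
    exact Nat.mul_dvd_mul (pow_dvd_pow p (by omega)) (dvd_mul_right _ _)
  have h2 : ((p ^ (c - 1) * (m * k₁) : ℕ) : ZMod n) * w = 0 := by
    obtain ⟨t, ht⟩ : k ∣ p ^ (c - 1) * (m * k₁) := by
      rw [hke]
      exact Nat.mul_dvd_mul (pow_dvd_pow p (by omega)) (dvd_mul_left _ _)
    rw [ht]
    push_cast
    linear_combination (t : ZMod n) * hw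
  have h3 : ((p ^ (c - 1) * (m * k₁) : ℕ) : ZMod n) * v₀ = 0 := by
    linear_combination h1 - h2
  rw [nat_mul_eq_zero_iff, ← hd] at h3
  have h4 : p ^ c ∣ p ^ (c - 1) * (m * k₁) :=
    ((hpp.pow_dvd_iff_le_factorization hd0).2 le_rfl).trans h3
  have h5 : p ^ c = p ^ (c - 1) * p := by
    rw [← pow_succ]; congr 1; omega
  rw [h5] at h4
  have h6 : p ∣ m * k₁ := Nat.dvd_of_mul_dvd_mul_left (pow_pos hpp.pos _) h4
  rcases hpp.dvd_mul.1 h6 with h | h
  · exact hpm h
  · exact hpk h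

lemma addOrderOf_div {n d : ℕ} (hn : n ≠ 0) (hd : d ∣ n) :
    addOrderOf ((n / d : ℕ) : ZMod n) = d := by
  rw [ZMod.addOrderOf_coe _ hn, Nat.gcd_eq_right (Nat.div_dvd_of_dvd hd), Nat.div_div_self hd hn]

lemma DD_not_dvd {n k d : ℕ} (hk : k ≠ 0) (h : DD n k d) : ¬ d ∣ k := by
  obtain ⟨_, hd1, hp⟩ := h
  intro hdk
  obtain ⟨p, hpp, hpd⟩ := Nat.exists_prime_and_dvd (show d ≠ 1 by omega)
  have h1 := hp p hpp hpd
  have h2 : p ^ d.factorization p ∣ k :=
    ((hpp.pow_dvd_iff_le_factorization (by omega)).2 le_rfl).trans hdk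
  have h3 := (hpp.pow_dvd_iff_le_factorization hk).1 h2
  omega

end Pool.Agent.X147.Ssd
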