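import Mathlib
import Pool.Agent.X147.SsdB
import Pool.Agent.X147.SsdC

open Finset Polynomial

namespace Pool.Agent.X147.Ssd

/-- the standard additive character of `ZMod n` -/
noncomputable abbrev ee (n : ℕ) [NeZero n] : AddChar (ZMod n) ℂ := ZMod.stdAddChar

variable {n : ℕ} [NeZero n]

lemma ee_nat (v : ZMod n) (j : ℕ) : ee n (v * (j : ZMod n)) = (ee n v) ^ j := by
  rw [mul_comm, ← nsmul_eq_mul, AddChar.map_nsmul_eq_pow]

lemma ee_eq_one_iff (v : ZMod n) : ee n v = 1 ↔ v = 0 := by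
  constructor
  · intro h
    have : ee n v = ee n 0 := by rw [h, AddChar.map_zero_eq_one]
    exact ZMod.injective_stdAddChar this
  · rintro rfl
    exact AddChar.map_zero_eq_one _

lemma ee_ne_zero (v : ZMod n) : ee n v ≠ 0 := by
  intro h
  have h1 : ee n (v + -v) = 0 := by rw [AddChar.map_add_eq_mul, h, zero_mul]
  rw [add_neg_cancel, AddChar.map_zero_eq_one] at h1
  exact one_ne_zero h1

lemma ee_prim (v : ZMod n) : IsPrimitiveRoot (ee n v) (addOrderOf v) where
  pow_eq_one := by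
    rw [← ee_nat, ee_eq_one_iff, mul_comm, nat_mul_eq_zero_iff]
  dvd_of_pow_eq_one := by
    intro l hl
    rwa [← ee_nat, ee_eq_one_iff, mul_comm, nat_mul_eq_zero_iff] at hl

lemma ee_sum (v : ZMod n) (C : Finset (ZMod n)) :
    ee n (v * ∑ c ∈ C, c) = ∏ c ∈ C, ee n (v * c) := by
  classical
  induction C using Finset.induction_on with
  | empty => simp
  | insert a s ha ih =>
    rw [Finset.sum_insert ha, Finset.prod_insert ha, mul_add, AddChar.map_add_eq_mul, ih]

lemma sum_star_zero (v : ZMod n) (m : ℕ) :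
    ∑ A ∈ ((univ : Finset (ZMod n)).powersetCard (m + 1)).filter (fun A => (0 : ZMod n) ∈ A),
      ee n (v * ∑ a ∈ A, a)
    = ∑ C ∈ ((univ : Finset (ZMod n)).erase 0).powersetCard m, ee n (v * ∑ c ∈ C, c) := by
  refine Finset.sum_nbij' (fun A => A.erase 0) (fun C => insert 0 C) ?_ ?_ ?_ ?_ ?_
  · intro A hA
    simp only [Finset.mem_filter, Finset.mem_powersetCard] at hA ⊢
    obtain ⟨⟨_, hc⟩, h0⟩ := hA
    refine ⟨Finset.erase_subset_erase _ (Finset.subset_univ _), ?_⟩
    rw [Finset.card_erase_of_mem h0, hc, Nat.add_sub_cancel]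
  · intro C hC
    simp only [Finset.mem_filter, Finset.mem_powersetCard] at hC ⊢
    obtain ⟨hs, hc⟩ := hC
    have h0 : (0 : ZMod n) ∉ C := fun h => by
      have := hs h
      simp at this
    refine ⟨⟨Finset.subset_univ _, ?_⟩, Finset.mem_insert_self _ _⟩
    rw [Finset.card_insert_of_notMem h0, hc]
  · intro A hA
    simp only [Finset.mem_filter] at hA
    exact Finset.insert_erase hA.2
  · intro C hC
    simp only [Finset.mem_powersetCard] at hC
    have h0 : (0 : ZMod n) ∉ C := fun h => by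
      have := hC.1 h
      simp at this
    exact Finset.erase_insert h0
  · intro A hA
    simp only [Finset.mem_filter] at hA
    rw [← Finset.add_sum_erase A (fun a => a) hA.2, zero_add]

lemma sum_star (v y : ZMod n) (m : ℕ) :
    ∑ A ∈ ((univ : Finset (ZMod n)).powersetCard (m + 1)).filter (fun A => y ∈ A),
      ee n (v * ∑ a ∈ A, a)
    = ee n (v * (((m + 1 : ℕ) : ZMod n) * y)) *
      ∑ C ∈ ((univ : Finset (ZMod n)).erase 0).powersetCard m, ee n (v * ∑ c ∈ C, c) := by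
  rw [← sum_star_zero, Finset.mul_sum]
  symm
  refine Finset.sum_equiv (Equiv.finsetCongr (Equiv.addRight y)) ?_ ?_
  · intro A
    simp only [Finset.mem_filter, Finset.mem_powersetCard, Finset.subset_univ, true_and,
      Equiv.finsetCongr_apply, Finset.card_map]
    refine and_congr Iff.rfl ?_
    constructor
    · intro h
      rw [Finset.mem_map]
      exact ⟨0, h, by simp⟩
    · intro h
      rw [Finset.mem_map] at h
      obtain ⟨a, ha, hay⟩ := h
      have : a = 0 := by simpa using hay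
      rwa [← this]
  · intro A hA
    simp only [Finset.mem_filter, Finset.mem_powersetCard] at hA
    rw [← AddChar.map_add_eq_mul]
    congr 1
    rw [Equiv.finsetCongr_apply, Finset.sum_map]
    simp only [Equiv.coe_toEmbedding, Equiv.coe_addRight]
    rw [Finset.sum_add_distrib, Finset.sum_const, hA.1.2, nsmul_eq_mul]
    ring

lemma alpha_eq (v : ZMod n) (m : ℕ) :
    ∑ C ∈ ((univ : Finset (ZMod n)).erase 0).powersetCard m, ee n (v * ∑ c ∈ C, c)
      = ∑ t ∈ (Icc 1 (n - 1)).powersetCard m, ∏ j ∈ t, (ee n v) ^ j := by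
  have h1 : ∏ y ∈ (univ : Finset (ZMod n)).erase 0, (1 - C (ee n (v * y)) * X : ℂ[X])
      = ∏ j ∈ Icc 1 (n - 1), (1 - C ((ee n v) ^ j) * X : ℂ[X]) := by
    refine Finset.prod_nbij' ZMod.val (fun j : ℕ => (j : ZMod n)) ?_ ?_ ?_ ?_ ?_
    · intro y hy
      have hy0 : y ≠ 0 := by simpa using hy
      have h1 : y.val ≠ 0 := fun h => hy0 ((ZMod.val_eq_zero y).1 h)
      have h2 := ZMod.val_lt y
      rw [Finset.mem_Icc]; omega
    · intro j hj
      rw [Finset.mem_Icc] at hj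
      simp only [Finset.mem_erase, Finset.mem_univ, and_true]
      intro h0
      rw [ZMod.natCast_eq_zero_iff] at h0
      have := Nat.le_of_dvd (by omega) h0
      omega
    · intro y _
      exact ZMod.natCast_zmod_val y
    · intro j hj
      rw [Finset.mem_Icc] at hj
      exact ZMod.val_cast_of_lt (by omega)
    · intro y _
      rw [← ee_nat, ZMod.natCast_zmod_val]
  have h2 := congrArg (fun P => Polynomial.coeff P m) h1
  simp only [coeff_prod] at h2
  have h3 : ((-1 : ℂ)) ^ m ≠ 0 := pow_ne_zero _ (by norm_num)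
  have h4 := mul_left_cancel₀ h3 h2
  rw [← h4]
  exact Finset.sum_congr rfl fun C _ => ee_sum v C

/-- the value of `α` on a coset -/
lemma alpha_coset {d N : ℕ} (hn : n = d * N) (hd : 0 < d) (hN : 0 < N)
    (v₀ w : ZMod n) (hv : (d : ZMod n) * v₀ = 0) (hdv : d ∣ addOrderOf (v₀ + w)) (m : ℕ) :
    (-1) ^ m * ∑ C ∈ ((univ : Finset (ZMod n)).erase 0).powersetCard m,
        ee n ((v₀ + w) * ∑ c ∈ C, c)
      = (-1) ^ (m / d) * ∑ t ∈ (Icc 1 (N - 1)).powersetCard (m / d),
        ee n (w * ((d * ∑ j ∈ t, j : ℕ) : ZMod n)) := by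
  have hDn : addOrderOf (v₀ + w) ∣ n := by
    have := addOrderOf_dvd_card (x := v₀ + w)
    rwa [ZMod.card] at this
  rw [alpha_eq, esymm_key hd hN hn (ee_prim (v₀ + w)) hdv hDn]
  congr 1
  refine Finset.sum_congr rfl fun t _ => ?_
  rw [Finset.prod_pow_eq_pow_sum, ← pow_mul, ← ee_nat]
  congr 1
  push_cast
  linear_combination ((∑ j ∈ t, (j : ZMod n))) * hv

/-- orthogonality over the kernel of multiplication by `k` -/
lemma ker_sum (k : ℕ) (a : ZMod n) :
    ∑ w ∈ (univ : Finset (ZMod n)).filter (fun w => (k : ZMod n) * w = 0), ee n (w * a)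
      = if ((n / n.gcd k : ℕ) : ZMod n) * a = 0 then
        (((univ : Finset (ZMod n)).filter (fun w => (k : ZMod n) * w = 0)).card : ℂ) else 0 := by
  have hn0 : 0 < n := Nat.pos_of_ne_zero (NeZero.ne n)
  have hg : 0 < n.gcd k := Nat.gcd_pos_of_pos_left _ hn0
  have hgn : n.gcd k * (n / n.gcd k) = n := Nat.mul_div_cancel' (Nat.gcd_dvd_left n k)
  split_ifs with h
  · rw [Finset.card_eq_sum_ones, Nat.cast_sum]
    refine Finset.sum_congr rfl fun w hw => ?_
    rw [Nat.cast_one, ee_eq_one_iff]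
    have hkw : (k : ZMod n) * w = 0 := (Finset.mem_filter.1 hw).2
    -- gcd * w = 0
    have hgw : ((n.gcd k : ℕ) : ZMod n) * w = 0 := by
      rw [nat_mul_eq_zero_iff] at hkw ⊢
      refine Nat.dvd_gcd ?_ hkw
      have := addOrderOf_dvd_card (x := w)
      rwa [ZMod.card] at this
    -- gcd divides a.val
    have hga : n.gcd k ∣ a.val := by
      have h1 : ((n / n.gcd k * a.val : ℕ) : ZMod n) = 0 := by
        rw [Nat.cast_mul, ZMod.natCast_zmod_val]; exact h
      rw [ZMod.natCast_eq_zero_iff] at h1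
      have h2 : n / n.gcd k * n.gcd k ∣ n / n.gcd k * a.val := by
        rw [mul_comm (n / n.gcd k) (n.gcd k), hgn]; exact h1
      refine Nat.dvd_of_mul_dvd_mul_left ?_ h2
      exact Nat.div_pos (Nat.le_of_dvd hn0 (Nat.gcd_dvd_left n k)) hg
    obtain ⟨t, ht⟩ := hga
    have h3 : a = ((n.gcd k : ℕ) : ZMod n) * (t : ZMod n) := by
      rw [← Nat.cast_mul, ← ht, ZMod.natCast_zmod_val]
    rw [h3]
    linear_combination (t : ZMod n) * hgw
  · set w₁ : ZMod n := ((n / n.gcd k : ℕ) : ZMod n) with hw₁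
    have hkw₁ : (k : ZMod n) * w₁ = 0 := by
      obtain ⟨t, ht⟩ := Nat.gcd_dvd_right n k
      rw [hw₁, ← Nat.cast_mul, ZMod.natCast_eq_zero_iff]
      refine ⟨t, ?_⟩
      calc k * (n / n.gcd k) = (n.gcd k * t) * (n / n.gcd k) := by rw [← ht]
        _ = (n.gcd k * (n / n.gcd k)) * t := by ring
        _ = n * t := by rw [hgn]
    have hshift : ∑ w ∈ (univ : Finset (ZMod n)).filter (fun w => (k : ZMod n) * w = 0),
        ee n (w * a) = ee n (w₁ * a) *
        ∑ w ∈ (univ : Finset (ZMod n)).filter (fun w => (k : ZMod n) * w = 0), ee n (w * a) := by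
      rw [Finset.mul_sum]
      symm
      refine Finset.sum_equiv (Equiv.addLeft w₁) ?_ ?_
      · intro w
        simp only [Finset.mem_filter, Finset.mem_univ, true_and, Equiv.coe_addLeft]
        rw [mul_add, hkw₁, zero_add]
      · intro w _
        rw [Equiv.coe_addLeft, add_mul, AddChar.map_add_eq_mul]
    have hne : ee n (w₁ * a) ≠ 1 := fun h1 => h ((ee_eq_one_iff _).1 h1)
    have : (1 - ee n (w₁ * a)) *
        ∑ w ∈ (univ : Finset (ZMod n)).filter (fun w => (k : ZMod n) * w = 0), ee n (w * a) = 0 := by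
      linear_combination hshift
    rcases mul_eq_zero.1 this with h1 | h1
    · exact absurd (sub_eq_zero.1 h1).symm hne
    · exact h1

/-- number of `k`-subsets with sum `x` containing `y` -/
def rc (n : ℕ) [NeZero n] (k : ℕ) (x y : ZMod n) : ℕ :=
  ((((univ : Finset (ZMod n)).powersetCard k).filter (fun A => ∑ a ∈ A, a = x)).filter
    (fun A => y ∈ A)).card

lemma rc_fourier (m : ℕ) (x y : ZMod n) :
    (n : ℂ) * (rc n (m + 1) x y : ℂ) = ∑ v : ZMod n, ee n (-(v * x)) *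
      (ee n (v * (((m + 1 : ℕ) : ZMod n) * y)) *
      ∑ C ∈ ((univ : Finset (ZMod n)).erase 0).powersetCard m, ee n (v * ∑ c ∈ C, c)) := by
  have h1 : ∀ v : ZMod n, ee n (-(v * x)) *
      (ee n (v * (((m + 1 : ℕ) : ZMod n) * y)) *
      ∑ C ∈ ((univ : Finset (ZMod n)).erase 0).powersetCard m, ee n (v * ∑ c ∈ C, c))
      = ∑ A ∈ ((univ : Finset (ZMod n)).powersetCard (m + 1)).filter (fun A => y ∈ A),
        ee n (v * (∑ a ∈ A, a - x)) := by
    intro v
    rw [← sum_star, Finset.mul_sum]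
    refine Finset.sum_congr rfl fun A _ => ?_
    rw [← AddChar.map_add_eq_mul]
    congr 1
    ring
  rw [Finset.sum_congr rfl (fun v _ => h1 v), Finset.sum_comm]
  have h2 : ∀ A : Finset (ZMod n), ∑ v : ZMod n, ee n (v * (∑ a ∈ A, a - x))
      = if ∑ a ∈ A, a = x then (n : ℂ) else 0 := by
    intro A
    rw [AddChar.sum_mulShift _ (ZMod.isPrimitive_stdAddChar n), ZMod.card]
    simp only [sub_eq_zero]
    split_ifs <;> simp
  rw [Finset.sum_congr rfl (fun A _ => h2 A), ← Finset.sum_filter, Finset.sum_const, nsmul_eq_mul,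
    mul_comm]
  congr 2
  unfold rc
  rw [Finset.filter_comm]

lemma rhat (m : ℕ) (x u : ZMod n) :
    ∑ y : ZMod n, (rc n (m + 1) x y : ℂ) * ee n (-(u * y))
      = ∑ v ∈ (univ : Finset (ZMod n)).filter (fun v => ((m + 1 : ℕ) : ZMod n) * v = u),
        ee n (-(v * x)) *
        ∑ C ∈ ((univ : Finset (ZMod n)).erase 0).powersetCard m, ee n (v * ∑ c ∈ C, c) := by
  have hn0 : (n : ℂ) ≠ 0 := Nat.cast_ne_zero.2 (NeZero.ne n)
  apply mul_left_cancel₀ hn0
  rw [Finset.mul_sum]
  have h1 : ∀ y : ZMod n, (n : ℂ) * ((rc n (m + 1) x y : ℂ) * ee n (-(u * y)))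
      = ∑ v : ZMod n, (ee n (-(v * x)) *
        ∑ C ∈ ((univ : Finset (ZMod n)).erase 0).powersetCard m, ee n (v * ∑ c ∈ C, c)) *
        ee n (y * (((m + 1 : ℕ) : ZMod n) * v - u)) := by
    intro y
    rw [← mul_assoc, rc_fourier, Finset.sum_mul]
    refine Finset.sum_congr rfl fun v _ => ?_
    have : ee n (y * (((m + 1 : ℕ) : ZMod n) * v - u))
        = ee n (v * (((m + 1 : ℕ) : ZMod n) * y)) * ee n (-(u * y)) := by
      rw [← AddChar.map_add_eq_mul]
      congr 1
      ring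
    rw [this]
    ring
  rw [Finset.sum_congr rfl (fun y _ => h1 y), Finset.sum_comm]
  have h2 : ∀ v : ZMod n, ∑ y : ZMod n, (ee n (-(v * x)) *
        ∑ C ∈ ((univ : Finset (ZMod n)).erase 0).powersetCard m, ee n (v * ∑ c ∈ C, c)) *
        ee n (y * (((m + 1 : ℕ) : ZMod n) * v - u))
      = if ((m + 1 : ℕ) : ZMod n) * v = u then (n : ℂ) * (ee n (-(v * x)) *
        ∑ C ∈ ((univ : Finset (ZMod n)).erase 0).powersetCard m, ee n (v * ∑ c ∈ C, c)) else 0 := by
    intro v
    rw [← Finset.mul_sum, AddChar.sum_mulShift _ (ZMod.isPrimitive_stdAddChar n), ZMod.card]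
    simp only [sub_eq_zero]
    split_ifs
    · ring
    · ring
  rw [Finset.sum_congr rfl (fun v _ => h2 v), ← Finset.sum_filter, Finset.mul_sum]

/-- the fibre sum in terms of subset counts -/
lemma rhat_coset {m d : ℕ} (x v₀ : ZMod n)
    (hD : DD n (m + 1) (addOrderOf v₀)) (hd : d = addOrderOf v₀) :
    ∑ y : ZMod n, (rc n (m + 1) x y : ℂ) * ee n (-((((m + 1 : ℕ) : ZMod n) * v₀) * y))
      = (-1) ^ m * (-1) ^ (m / d) * ee n (-(v₀ * x)) *
        ((((univ : Finset (ZMod n)).filter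
          (fun w => ((m + 1 : ℕ) : ZMod n) * w = 0)).card : ℕ) : ℂ) *
        ((((Icc 1 (n / d - 1)).powersetCard (m / d)).filter
          (fun t => ((n / n.gcd (m + 1) : ℕ) : ZMod n) *
            (((d * ∑ j ∈ t, j : ℕ) : ZMod n) - x) = 0)).card : ℂ) := by
  have hn0 : 0 < n := Nat.pos_of_ne_zero (NeZero.ne n)
  have hdn : d ∣ n := hd ▸ hD.1
  have hd0 : 0 < d := by have := hD.2.1; omega
  have hN : 0 < n / d := Nat.div_pos (Nat.le_of_dvd hn0 hdn) hd0
  have hnd : n = d * (n / d) := (Nat.mul_div_cancel' hdn).symm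
  have hdv : (d : ZMod n) * v₀ = 0 := by rw [nat_mul_eq_zero_iff, hd]
  rw [rhat]
  have h1 : ∑ v ∈ (univ : Finset (ZMod n)).filter
        (fun v => ((m + 1 : ℕ) : ZMod n) * v = ((m + 1 : ℕ) : ZMod n) * v₀),
        ee n (-(v * x)) *
        ∑ C ∈ ((univ : Finset (ZMod n)).erase 0).powersetCard m, ee n (v * ∑ c ∈ C, c)
      = ∑ w ∈ (univ : Finset (ZMod n)).filter (fun w => ((m + 1 : ℕ) : ZMod n) * w = 0),
        ee n (-((v₀ + w) * x)) *
        ∑ C ∈ ((univ : Finset (ZMod n)).erase 0).powersetCard m,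
          ee n ((v₀ + w) * ∑ c ∈ C, c) := by
    symm
    refine Finset.sum_equiv (Equiv.addLeft v₀) ?_ ?_
    · intro w
      simp only [Finset.mem_filter, Finset.mem_univ, true_and, Equiv.coe_addLeft]
      rw [mul_add, add_eq_left]
    · intro w _
      rw [Equiv.coe_addLeft]
  rw [h1]
  have h2 : ∀ w ∈ (univ : Finset (ZMod n)).filter (fun w => ((m + 1 : ℕ) : ZMod n) * w = 0),
      ee n (-((v₀ + w) * x)) *
        ∑ C ∈ ((univ : Finset (ZMod n)).erase 0).powersetCard m,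
          ee n ((v₀ + w) * ∑ c ∈ C, c)
      = (-1) ^ m * (-1) ^ (m / d) * ee n (-(v₀ * x)) *
        ∑ t ∈ (Icc 1 (n / d - 1)).powersetCard (m / d),
          ee n (w * (((d * ∑ j ∈ t, j : ℕ) : ZMod n) - x)) := by
    intro w hw
    have hw' : ((m + 1 : ℕ) : ZMod n) * w = 0 := (Finset.mem_filter.1 hw).2
    have hdvd : d ∣ addOrderOf (v₀ + w) := hd ▸ lemD (Nat.succ_ne_zero m) v₀ w hw' hD
    have h3 := alpha_coset hnd hd0 hN v₀ w hdv hdvd m
    have h4 : ((-1 : ℂ)) ^ m * (-1) ^ m = 1 := by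
      rw [← pow_add, ← two_mul, pow_mul]; simp
    have h5 : ∑ C ∈ ((univ : Finset (ZMod n)).erase 0).powersetCard m,
          ee n ((v₀ + w) * ∑ c ∈ C, c)
        = (-1) ^ m * ((-1) ^ (m / d) * ∑ t ∈ (Icc 1 (n / d - 1)).powersetCard (m / d),
        ee n (w * ((d * ∑ j ∈ t, j : ℕ) : ZMod n))) := by
      rw [← h3, ← mul_assoc, h4, one_mul]
    rw [h5]
    have h6 : ∀ t ∈ (Icc 1 (n / d - 1)).powersetCard (m / d),
        ee n (w * (((d * ∑ j ∈ t, j : ℕ) : ZMod n) - x))
        = ee n (w * ((d * ∑ j ∈ t, j : ℕ) : ZMod n)) * ee n (-(w * x)) := by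
      intro t _
      rw [← AddChar.map_add_eq_mul]
      congr 1
      ring
    rw [Finset.sum_congr rfl h6, ← Finset.sum_mul]
    have h7 : ee n (-((v₀ + w) * x)) = ee n (-(v₀ * x)) * ee n (-(w * x)) := by
      rw [← AddChar.map_add_eq_mul]
      congr 1
      ring
    rw [h7]
    ring
  rw [Finset.sum_congr rfl h2, ← Finset.mul_sum, Finset.sum_comm]
  rw [Finset.sum_congr rfl (fun t _ => ker_sum (m + 1) (((d * ∑ j ∈ t, j : ℕ) : ZMod n) - x))]
  rw [← Finset.sum_filter, Finset.sum_const, nsmul_eq_mul]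
  ring

/-- the obstruction attached to `d` -/
def Bad (n k d X : ℕ) : Prop :=
  ∃ t ⊆ Icc 1 (n / d - 1), t.card = (k - 1) / d ∧ d * ∑ j ∈ t, j ≡ X [MOD n.gcd k]

lemma bad_conv (k : ℕ) (a : ℕ) (x : ZMod n) :
    ((n / n.gcd k : ℕ) : ZMod n) * ((a : ZMod n) - x) = 0 ↔ a ≡ x.val [MOD n.gcd k] := by
  have hn0 : 0 < n := Nat.pos_of_ne_zero (NeZero.ne n)
  have hg : 0 < n.gcd k := Nat.gcd_pos_of_pos_left _ hn0
  have hgn : n / n.gcd k * n.gcd k = n := Nat.div_mul_cancel (Nat.gcd_dvd_left n k)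
  have hc : n / n.gcd k ≠ 0 := by
    intro h; rw [h, zero_mul] at hgn; omega
  have h1 : ((n / n.gcd k : ℕ) : ZMod n) * ((a : ZMod n) - x) = 0 ↔
      ((n / n.gcd k * a : ℕ) : ZMod n) = ((n / n.gcd k * x.val : ℕ) : ZMod n) := by
    rw [Nat.cast_mul, Nat.cast_mul, ZMod.natCast_zmod_val, mul_sub, sub_eq_zero]
  rw [h1, ZMod.natCast_eq_natCast_iff]
  constructor
  · intro h
    have h' : n / n.gcd k * a ≡ n / n.gcd k * x.val [MOD n / n.gcd k * n.gcd k] := by
      rw [hgn]; exact h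
    exact Nat.ModEq.mul_left_cancel' hc h'
  · intro h
    have h' := Nat.ModEq.mul_left' (n / n.gcd k) h
    rwa [hgn] at h'

lemma const_of_rhat (m : ℕ) (x : ZMod n)
    (h : ∀ u : ZMod n, u ≠ 0 → ∑ y : ZMod n, (rc n (m + 1) x y : ℂ) * ee n (-(u * y)) = 0) :
    ∀ y, rc n (m + 1) x y = rc n (m + 1) x 0 := by
  have hn0 : (n : ℂ) ≠ 0 := Nat.cast_ne_zero.2 (NeZero.ne n)
  have hinv : ∀ z : ZMod n, (n : ℂ) * (rc n (m + 1) x z : ℂ)
      = ∑ y : ZMod n, (rc n (m + 1) x y : ℂ) := by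
    intro z
    have h1 : ∑ u : ZMod n, (∑ y : ZMod n, (rc n (m + 1) x y : ℂ) * ee n (-(u * y))) *
        ee n (u * z) = ∑ y : ZMod n, (rc n (m + 1) x y : ℂ) := by
      rw [Finset.sum_eq_single 0]
      · simp
      · intro u _ hu
        rw [h u hu, zero_mul]
      · intro h0; exact absurd (Finset.mem_univ _) h0
    rw [← h1]
    have h2 : ∀ u : ZMod n, (∑ y : ZMod n, (rc n (m + 1) x y : ℂ) * ee n (-(u * y))) *
        ee n (u * z) = ∑ y : ZMod n, (rc n (m + 1) x y : ℂ) * ee n (u * (z - y)) := by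
      intro u
      rw [Finset.sum_mul]
      refine Finset.sum_congr rfl fun y _ => ?_
      have : ee n (u * (z - y)) = ee n (-(u * y)) * ee n (u * z) := by
        rw [← AddChar.map_add_eq_mul]
        congr 1
        ring
      rw [this]; ring
    rw [Finset.sum_congr rfl (fun u _ => h2 u), Finset.sum_comm]
    have h3 : ∀ y : ZMod n, ∑ u : ZMod n, (rc n (m + 1) x y : ℂ) * ee n (u * (z - y))
        = if z = y then (n : ℂ) * (rc n (m + 1) x y : ℂ) else 0 := by
      intro y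
      rw [← Finset.mul_sum, AddChar.sum_mulShift _ (ZMod.isPrimitive_stdAddChar n), ZMod.card]
      simp only [sub_eq_zero]
      split_ifs
      · ring
      · simp
    rw [Finset.sum_congr rfl (fun y _ => h3 y), Finset.sum_ite_eq]
    simp
  intro y
  have h1 := (hinv y).trans (hinv 0).symm
  have h2 := mul_left_cancel₀ hn0 h1
  exact_mod_cast h2

theorem const_iff (m : ℕ) (x : ZMod n) :
    (∃ r, ∀ y, rc n (m + 1) x y = r) ↔
      ∀ d, DD n (m + 1) d → ¬ Bad n (m + 1) d x.val := by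
  have hn0 : 0 < n := Nat.pos_of_ne_zero (NeZero.ne n)
  have hcard : ∀ d : ℕ, Bad n (m + 1) d x.val ↔
      (((Icc 1 (n / d - 1)).powersetCard (m / d)).filter
          (fun t => ((n / n.gcd (m + 1) : ℕ) : ZMod n) *
            (((d * ∑ j ∈ t, j : ℕ) : ZMod n) - x) = 0)).card ≠ 0 := by
    intro d
    rw [Finset.card_ne_zero]
    unfold Bad
    rw [Nat.add_sub_cancel]
    constructor
    · rintro ⟨t, hts, htc, htm⟩
      exact ⟨t, Finset.mem_filter.2 ⟨Finset.mem_powersetCard.2 ⟨hts, htc⟩,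
        (bad_conv (m + 1) _ x).2 htm⟩⟩
    · rintro ⟨t, ht⟩
      obtain ⟨h1, h2⟩ := Finset.mem_filter.1 ht
      obtain ⟨hts, htc⟩ := Finset.mem_powersetCard.1 h1
      exact ⟨t, hts, htc, (bad_conv (m + 1) _ x).1 h2⟩
  constructor
  · rintro ⟨r, hr⟩ d hD hbad
    have hd : addOrderOf ((n / d : ℕ) : ZMod n) = d := addOrderOf_div hn0.ne' hD.1
    have h1 := rhat_coset (d := d) x ((n / d : ℕ) : ZMod n) (by rw [hd]; exact hD) hd.symm
    set u : ZMod n := ((m + 1 : ℕ) : ZMod n) * ((n / d : ℕ) : ZMod n) with hu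
    have hu0 : u ≠ 0 := by
      rw [hu, Ne, nat_mul_eq_zero_iff, hd]
      exact DD_not_dvd (Nat.succ_ne_zero m) hD
    have h2 : ∑ y : ZMod n, (rc n (m + 1) x y : ℂ) * ee n (-(u * y)) = 0 := by
      have h3 : ∀ y : ZMod n, (rc n (m + 1) x y : ℂ) * ee n (-(u * y))
          = (r : ℂ) * ee n (y * (-u)) := by
        intro y
        rw [hr y]
        congr 2
        ring
      rw [Finset.sum_congr rfl (fun y _ => h3 y), ← Finset.mul_sum,
        AddChar.sum_mulShift _ (ZMod.isPrimitive_stdAddChar n), if_neg (neg_ne_zero.2 hu0)]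
      simp
    rw [h2] at h1
    have hk0 : (((((univ : Finset (ZMod n)).filter
          (fun w => ((m + 1 : ℕ) : ZMod n) * w = 0)).card : ℕ)) : ℂ) ≠ 0 := by
      rw [Nat.cast_ne_zero, Finset.card_ne_zero]
      exact ⟨0, by simp⟩
    have hc0 : ((((Icc 1 (n / d - 1)).powersetCard (m / d)).filter
          (fun t => ((n / n.gcd (m + 1) : ℕ) : ZMod n) *
            (((d * ∑ j ∈ t, j : ℕ) : ZMod n) - x) = 0)).card : ℂ) ≠ 0 := by
      rw [Nat.cast_ne_zero]
      exact (hcard d).1 hbad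
    have hs : ((-1 : ℂ)) ^ m * (-1) ^ (m / d) * ee n (-(((n / d : ℕ) : ZMod n) * x)) ≠ 0 := by
      refine mul_ne_zero (mul_ne_zero (pow_ne_zero _ (by norm_num)) (pow_ne_zero _ (by norm_num)))
        (ee_ne_zero _)
    exact mul_ne_zero (mul_ne_zero hs hk0) hc0 h1.symm
  · intro h
    refine ⟨rc n (m + 1) x 0, const_of_rhat m x ?_⟩
    intro u hu
    by_cases hex : ∃ v : ZMod n, ((m + 1 : ℕ) : ZMod n) * v = u
    · obtain ⟨v, hv⟩ := hex
      obtain ⟨v₀, hv₀, hD⟩ := lemA (Nat.succ_ne_zero m) v (by rw [hv]; exact hu)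
      have h1 := rhat_coset x v₀ hD rfl
      rw [hv₀, hv] at h1
      have hc : (((Icc 1 (n / (addOrderOf v₀) - 1)).powersetCard (m / (addOrderOf v₀))).filter
          (fun t => ((n / n.gcd (m + 1) : ℕ) : ZMod n) *
            ((((addOrderOf v₀) * ∑ j ∈ t, j : ℕ) : ZMod n) - x) = 0)).card = 0 := by
        by_contra hne
        exact h _ hD ((hcard _).2 hne)
      rw [h1, hc]
      simp
    · rw [rhat, Finset.filter_false_of_mem, Finset.sum_empty]
      intro v _ hv
      exact hex ⟨v, hv⟩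

end Pool.Agent.X147.Ssd
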