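import Mathlib
import Pool.Agent.X147.SsdA
import Pool.Agent.X147.SsdD

open Finset

namespace Pool.Agent.X147.Ssd

lemma two_sum {N : ℕ} (hN : 0 < N) : 2 * ∑ j ∈ Icc 1 (N - 1), j = N * (N - 1) := by
  have h1 : range N = insert 0 (Icc 1 (N - 1)) := by
    ext j; simp; omega
  have h2 := Finset.sum_range_id_mul_two N
  rw [h1, Finset.sum_insert (by simp)] at h2
  omega

lemma fact_quot {n k p : ℕ} (hn : 0 < n) (hk : k ≠ 0) (hp : p.Prime) :
    p ∣ n / n.gcd k ↔ k.factorization p < n.factorization p := by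
  have hg : 0 < n.gcd k := Nat.gcd_pos_of_pos_left _ hn
  have hne : n / n.gcd k ≠ 0 :=
    (Nat.div_pos (Nat.le_of_dvd hn (Nat.gcd_dvd_left n k)) hg).ne'
  have h2 : (n.gcd k).factorization p = min (n.factorization p) (k.factorization p) := by
    rw [Nat.factorization_gcd hn.ne' hk]; rfl
  have h3 : (n / n.gcd k).factorization p = n.factorization p - (n.gcd k).factorization p := by
    rw [Nat.factorization_div (Nat.gcd_dvd_left n k)]; rfl
  rw [hp.dvd_iff_one_le_factorization hne, h3, h2]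
  omega

lemma struct {n k p : ℕ} (hn : 0 < n) (hk : k ≠ 0) (hp : p.Prime) (hpn : p ∣ n / n.gcd k) :
    ∃ g' N : ℕ, n.gcd k = p ^ k.factorization p * g' ∧ n = p ^ (k.factorization p + 1) * N ∧
      g' ∣ N ∧ p.Coprime g' ∧ 0 < g' ∧ 0 < N ∧ DD n k (p ^ (k.factorization p + 1)) := by
  have hlt := (fact_quot hn hk hp).1 hpn
  set b := k.factorization p with hb
  have hdn : p ^ (b + 1) ∣ n := (hp.pow_dvd_iff_le_factorization hn.ne').2 hlt
  have hqk : p ^ b ∣ k := (hp.pow_dvd_iff_le_factorization hk).2 le_rfl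
  have hqg : p ^ b ∣ n.gcd k := Nat.dvd_gcd ((pow_dvd_pow p (Nat.le_succ b)).trans hdn) hqk
  obtain ⟨g', hg'⟩ := hqg
  obtain ⟨N, hN⟩ := hdn
  have hg0 : 0 < n.gcd k := Nat.gcd_pos_of_pos_left _ hn
  have hg'0 : 0 < g' := by
    rcases Nat.eq_zero_or_pos g' with h | h
    · rw [h, mul_zero] at hg'; omega
    · exact h
  have hN0 : 0 < N := by
    rcases Nat.eq_zero_or_pos N with h | h
    · rw [h, mul_zero] at hN; omega
    · exact h
  have hcop : p.Coprime g' := by
    rw [hp.coprime_iff_not_dvd]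
    rintro ⟨c, hc⟩
    have h1 : p ^ (b + 1) ∣ k := by
      refine Dvd.dvd.trans ?_ (Nat.gcd_dvd_right n k)
      exact ⟨c, by rw [hg', hc]; ring⟩
    have h2 := (hp.pow_dvd_iff_le_factorization hk).1 h1
    omega
  have hgN : g' ∣ N := by
    have h1 : p ^ b * g' ∣ p ^ b * (p * N) := by
      rw [← hg', ← mul_assoc, ← pow_succ, ← hN]
      exact Nat.gcd_dvd_left n k
    have h2 := Nat.dvd_of_mul_dvd_mul_left (pow_pos hp.pos b) h1
    exact (Nat.Coprime.dvd_of_dvd_mul_left hcop.symm h2)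
  refine ⟨g', N, hg', hN, hgN, hcop, hg'0, hN0, ⟨N, hN⟩, ?_, ?_⟩
  · exact Nat.one_lt_pow (Nat.succ_ne_zero b) hp.one_lt
  · intro r hr hrd
    have : r = p := (Nat.prime_dvd_prime_iff_eq hr hp).1 (hr.dvd_of_dvd_pow hrd)
    subst this
    rw [hp.factorization_pow, Finsupp.single_eq_same]
    omega

lemma DD_dvd {n k d p : ℕ} (hn : 0 < n) (hk : k ≠ 0) (hD : DD n k d) (hp : p.Prime)
    (hpd : p ∣ d) : p ∣ n / n.gcd k := by
  rw [fact_quot hn hk hp]
  have h1 := hD.2.2 p hp hpd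
  have h2 : d.factorization p ≤ n.factorization p := by
    have hd0 : d ≠ 0 := by have := hD.2.1; omega
    exact (Nat.factorization_le_iff_dvd hd0 hn.ne').2 hD.1 p
  omega

lemma sigma_eq {n k d : ℕ} (hn : 0 < n) (hk : k ≠ 0) (hD : DD n k d) :
    n * (n - 1) / 2 ≡ d * ∑ j ∈ Icc 1 (n / d - 1), j [MOD n.gcd k] := by
  obtain ⟨N, hN⟩ := hD.1
  have hd0 : 0 < d := by have := hD.2.1; omega
  have hNd : n / d = N := by rw [hN, Nat.mul_div_cancel_left _ hd0]
  have hN0 : 0 < N := by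
    rcases Nat.eq_zero_or_pos N with h | h
    · rw [h, mul_zero] at hN; omega
    · exact h
  rw [hNd]
  have h1 : 2 * (n * (n - 1) / 2) = n * (n - 1) :=
    Nat.mul_div_cancel' (Nat.even_mul_pred_self n).two_dvd
  have h2 : 2 * (d * ∑ j ∈ Icc 1 (N - 1), j) = n * (N - 1) := by
    have := two_sum hN0
    rw [hN]
    calc 2 * (d * ∑ j ∈ Icc 1 (N - 1), j) = d * (2 * ∑ j ∈ Icc 1 (N - 1), j) := by ring
      _ = d * (N * (N - 1)) := by rw [this]
      _ = d * N * (N - 1) := by ring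
  have hdiv : 2 * n.gcd k ∣ n * (N * (d - 1)) := by
    have hgn := Nat.gcd_dvd_left n k
    rcases Nat.even_or_odd d with he | ho
    · have h2d : 2 ∣ n / n.gcd k := DD_dvd hn hk hD Nat.prime_two he.two_dvd
      have h3 : 2 * n.gcd k ∣ n := by
        obtain ⟨c, hc⟩ := h2d
        refine ⟨c, ?_⟩
        have h4 := Nat.mul_div_cancel' hgn
        rw [hc] at h4
        linarith
      exact h3.trans (dvd_mul_right _ _)
    · obtain ⟨c, hc⟩ := ho
      obtain ⟨e, he⟩ := hgn
      refine ⟨e * (N * c), ?_⟩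
      have : d - 1 = 2 * c := by omega
      rw [this]
      calc n * (N * (2 * c)) = (n.gcd k * e) * (N * (2 * c)) := by rw [← he]
        _ = 2 * n.gcd k * (e * (N * c)) := by ring
  have h3 : n * (n - 1) = n * (N - 1) + n * (N * (d - 1)) := by
    rw [← mul_add]
    congr 1
    obtain ⟨d', rfl⟩ : ∃ d', d = d' + 1 := ⟨d - 1, by omega⟩
    rw [Nat.add_sub_cancel, hN]
    obtain ⟨N', rfl⟩ : ∃ N', N = N' + 1 := ⟨N - 1, by omega⟩
    rw [Nat.add_sub_cancel]
    have : (d' + 1) * (N' + 1) = N' + (N' + 1) * d' + 1 := by ring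
    rw [this, Nat.add_sub_cancel]
  have h4 : 2 * (n * (n - 1) / 2) ≡ 2 * (d * ∑ j ∈ Icc 1 (N - 1), j) [MOD 2 * n.gcd k] := by
    rw [h1, h2, h3]
    obtain ⟨c, hc⟩ := hdiv
    rw [hc]
    show (n * (N - 1) + 2 * n.gcd k * c) % (2 * n.gcd k) = _
    rw [Nat.add_mul_mod_self_left]
  exact Nat.ModEq.mul_left_cancel' (by norm_num) h4

lemma solve {p g' : ℕ} (hcop : p.Coprime g') (T : ℕ) : ∃ s, p * s ≡ T [MOD g'] := by
  obtain ⟨z, hz1, hz2⟩ := Nat.chineseRemainder hcop 0 T
  obtain ⟨s, hs⟩ := (Nat.modEq_zero_iff_dvd.1 hz1)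
  exact ⟨s, by rw [← hs]; exact hz2⟩

lemma one_elt {p g' N T : ℕ} (hcop : p.Coprime g') (hg' : 0 < g') (hgN : g' ∣ N) (hN0 : 0 < N)
    (h : N = g' → ¬ g' ∣ T) : ∃ s, 1 ≤ s ∧ s ≤ N - 1 ∧ p * s ≡ T [MOD g'] := by
  obtain ⟨s₀, hs₀⟩ := solve hcop T
  by_cases h0 : s₀ % N = 0
  · have h1 : g' ∣ s₀ := hgN.trans (Nat.dvd_of_mod_eq_zero h0)
    have h2 : g' ∣ T := (hs₀.dvd_iff dvd_rfl).1 (h1.mul_left p)
    have h3 : N ≠ g' := fun h4 => h h4 h2
    have h4 : g' ≤ N := Nat.le_of_dvd hN0 hgN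
    refine ⟨g', hg', by omega, ?_⟩
    exact (Nat.modEq_zero_iff_dvd.2 (dvd_mul_left g' p)).trans (Nat.modEq_zero_iff_dvd.2 h2).symm
  · refine ⟨s₀ % N, by omega, ?_, ?_⟩
    · have := Nat.mod_lt s₀ hN0
      omega
    · have h1 : s₀ % N ≡ s₀ [MOD g'] := (Nat.mod_modEq s₀ N).of_dvd hgN
      exact (h1.mul_left p).trans hs₀

/-- the five escape clauses for the prime `p` -/
def Clause (n k X p : ℕ) : Prop :=
    ¬ (p ^ k.factorization p ∣ X) ∨
    (k < p ^ (k.factorization p + 1) ∧ ¬ n.gcd k ∣ X) ∨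
    (n < k + p ^ (k.factorization p + 1) ∧ ¬ n * (n - 1) / 2 ≡ X [MOD n.gcd k]) ∨
    (n = p * n.gcd k ∧ p ^ (k.factorization p + 1) < k ∧ k < 2 * p ^ (k.factorization p + 1) ∧
      n.gcd k ∣ X) ∨
    (n = p * n.gcd k ∧ p ^ (k.factorization p + 1) + k < n ∧
      n < k + 2 * p ^ (k.factorization p + 1) ∧ n * (n - 1) / 2 ≡ X [MOD n.gcd k])

lemma bad_of {n k X p : ℕ} (hk1 : 1 ≤ k) (hkn : k < n) (hp : p.Prime) (hpn : p ∣ n / n.gcd k)
    (hcl : ¬ Clause n k X p) : Bad n k (p ^ (k.factorization p + 1)) X := by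
  unfold Clause at hcl
  push Not at hcl
  obtain ⟨ha, hb, hc, hd, he⟩ := hcl
  obtain ⟨g', N, hg, hn, hgN, hcop, hg'0, hN0, hD⟩ := struct (by omega) (by omega) hp hpn
  have hn0 : 0 < n := by omega
  have hk0 : k ≠ 0 := by omega
  set q := p ^ k.factorization p with hq
  set d := p ^ (k.factorization p + 1) with hddef
  have hdq : d = q * p := pow_succ p _
  have hd0 : 0 < d := by have := hD.2.1; omega
  have hnd : n / d = N := by rw [hn, Nat.mul_div_cancel_left _ hd0]
  have hnotdvd : ¬ d ∣ k := DD_not_dvd hk0 hD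
  obtain ⟨x', hx'⟩ := ha
  have hsig := sigma_eq hn0 hk0 hD
  rw [hnd] at hsig
  -- reduction to modulus g'
  have hred : ∀ s : ℕ, p * s ≡ x' [MOD g'] → d * s ≡ X [MOD n.gcd k] := by
    intro s hs
    rw [hg, hdq, hx', mul_assoc]
    exact Nat.ModEq.mul_left' q hs
  have hK1 : d * ((k - 1) / d) ≤ k - 1 := Nat.mul_div_le _ _
  have hK2 : k - 1 < d * ((k - 1) / d + 1) := Nat.lt_mul_div_succ _ hd0
  unfold Bad
  rw [hnd]
  set K := (k - 1) / d with hK
  have hK1' : d * K < k := by omega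
  have hK2' : k < d * (K + 1) := by
    rcases Nat.lt_or_ge k (d * (K + 1)) with h | h
    · exact h
    · exfalso
      apply hnotdvd
      exact ⟨K + 1, by omega⟩
  have hKN : K < N := by
    have : d * K < d * N := by rw [← hn]; omega
    exact Nat.lt_of_mul_lt_mul_left this
  have hnpg : N = g' → n = p * n.gcd k := by
    intro h
    rw [hg]
    conv_lhs => rw [hn, h, hdq]
    ring
  rcases Nat.eq_zero_or_pos K with hK0 | hKpos
  · -- K = 0
    rw [hK0] at hK2'
    have hkd : k < d := by omega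
    refine ⟨∅, by simp, by simp [hK0], ?_⟩
    rw [Finset.sum_empty, mul_zero]
    exact (Nat.modEq_zero_iff_dvd.2 (hb hkd)).symm
  by_cases hKN1 : K + 1 = N
  · -- everything
    refine ⟨Icc 1 (N - 1), subset_rfl, ?_, ?_⟩
    · rw [Nat.card_Icc]; omega
    · have h1 : n < k + d := by
        have : n = d * K + d := by rw [hn, ← hKN1]; ring
        omega
      exact hsig.symm.trans (hc h1)
  by_cases hKe1 : K = 1
  · -- one element
    have hcond : N = g' → ¬ g' ∣ x' := by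
      intro h hdv
      apply hd (hnpg h)
      · rw [hKe1] at hK1'; omega
      · rw [hKe1] at hK2'; omega
      · rw [hg, hx']; exact Nat.mul_dvd_mul_left q hdv
    obtain ⟨s, hs1, hs2, hs3⟩ := one_elt hcop hg'0 hgN hN0 hcond
    refine ⟨{s}, ?_, ?_, ?_⟩
    · intro j hj
      rw [Finset.mem_singleton] at hj
      rw [Finset.mem_Icc]; omega
    · rw [Finset.card_singleton, hKe1]
    · rw [Finset.sum_singleton]
      exact hred s hs3
  by_cases hKN2 : K + 2 = N
  · -- all but one element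
    set S := ∑ j ∈ Icc 1 (N - 1), j with hS
    have hcond : N = g' → ¬ g' ∣ (p * S + (g' - 1) * x') := by
      intro h hdv
      apply he (hnpg h)
      · have : n = d * (K + 1) + d := by rw [hn, ← hKN2]; ring
        omega
      · have : n = d * K + 2 * d := by rw [hn, ← hKN2]; ring
        omega
      · refine hsig.trans ?_
        apply hred
        have h1 : p * S + (g' - 1) * x' + x' ≡ 0 + x' [MOD g'] :=
          (Nat.modEq_zero_iff_dvd.2 hdv).add_right x'
        have h2 : p * S + (g' - 1) * x' + x' = p * S + g' * x' := by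
          obtain ⟨c, rfl⟩ : ∃ c, g' = c + 1 := ⟨g' - 1, by omega⟩
          rw [Nat.add_sub_cancel]; ring
        rw [h2, zero_add] at h1
        have h3 : p * S + g' * x' ≡ p * S [MOD g'] := by
          show (p * S + g' * x') % g' = _
          rw [Nat.add_mul_mod_self_left]
        exact h3.symm.trans h1
    obtain ⟨s, hs1, hs2, hs3⟩ := one_elt hcop hg'0 hgN hN0 hcond
    have hmem : s ∈ Icc 1 (N - 1) := Finset.mem_Icc.2 ⟨hs1, hs2⟩
    refine ⟨(Icc 1 (N - 1)).erase s, Finset.erase_subset _ _, ?_, ?_⟩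
    · rw [Finset.card_erase_of_mem hmem, Nat.card_Icc]; omega
    · apply hred
      have h1 : ∑ j ∈ (Icc 1 (N - 1)).erase s, j + s = S := Finset.sum_erase_add _ _ hmem
      have h2 : p * ∑ j ∈ (Icc 1 (N - 1)).erase s, j + p * s = p * S := by
        rw [← mul_add, h1]
      have h3 : x' + p * s ≡ p * S [MOD g'] := by
        refine (hs3.add_left x').trans ?_
        have h4 : x' + (p * S + (g' - 1) * x') = p * S + g' * x' := by
          obtain ⟨c, rfl⟩ : ∃ c, g' = c + 1 := ⟨g' - 1, by omega⟩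
          rw [Nat.add_sub_cancel]; ring
        rw [h4]
        show (p * S + g' * x') % g' = _
        rw [Nat.add_mul_mod_self_left]
      rw [← h2] at h3
      exact (Nat.ModEq.add_right_cancel' (p * s) h3).symm
  · -- generic case
    have hKM : K ≤ N - 1 := by omega
    have hlarge : N ≤ K * (N - 1 - K) + 1 := by
      obtain ⟨a, ha'⟩ : ∃ a, K = a + 2 := ⟨K - 2, by omega⟩
      obtain ⟨b, hb'⟩ : ∃ b, N = a + b + 5 := ⟨N - a - 5, by omega⟩
      have : N - 1 - K = b + 2 := by omega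
      rw [this, hb', ha']
      nlinarith [Nat.zero_le (a * b)]
    obtain ⟨s₀, hs₀⟩ := solve hcop x'
    obtain ⟨t, hts, htc, ht⟩ := exists_residue hKM hN0 hlarge s₀
    refine ⟨t, hts, htc, hred _ ?_⟩
    exact ((ht.of_dvd hgN).mul_left p).trans hs₀

lemma clause_contra {n k X d p : ℕ} (hk1 : 1 ≤ k) (hkn : k < n) (hD : DD n k d)
    (hbad : Bad n k d X) (hp : p.Prime) (hpd : p ∣ d) : ¬ Clause n k X p := by
  have hn0 : 0 < n := by omega
  have hk0 : k ≠ 0 := by omega
  have hpn : p ∣ n / n.gcd k := DD_dvd hn0 hk0 hD hp hpd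
  have hsig := sigma_eq hn0 hk0 hD
  have hnotdvd : ¬ d ∣ k := DD_not_dvd hk0 hD
  obtain ⟨g', N₀, hg, hn, hgN, hcop, hg'0, hN0, hD₀⟩ := struct hn0 hk0 hp hpn
  obtain ⟨N, hN⟩ := hD.1
  have hd1 := hD.2.1
  have hd0 : 0 < d := by omega
  have hnd : n / d = N := by rw [hN, Nat.mul_div_cancel_left _ hd0]
  have hdd : p ^ (k.factorization p + 1) ∣ d :=
    (hp.pow_dvd_iff_le_factorization hd0.ne').2 (hD.2.2 p hp hpd)
  have hdle : p ^ (k.factorization p + 1) ≤ d := Nat.le_of_dvd hd0 hdd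
  obtain ⟨t, hts, htc, htm⟩ := hbad
  rw [hnd] at hts hsig
  set q := p ^ k.factorization p with hq
  set d₀ := p ^ (k.factorization p + 1) with hddef
  have hdq : d₀ = q * p := pow_succ p _
  have hK1 : d * ((k - 1) / d) ≤ k - 1 := Nat.mul_div_le _ _
  have hK2 : k - 1 < d * ((k - 1) / d + 1) := Nat.lt_mul_div_succ _ hd0
  set K := (k - 1) / d with hK
  have hNpos : 0 < N := by
    rcases Nat.eq_zero_or_pos N with h | h
    · rw [h, mul_zero] at hN; omega
    · exact h
  -- when n = p * gcd, d = d₀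
  have hdeq : n = p * n.gcd k → d = d₀ := by
    intro hnp
    have hgpos : 0 < n.gcd k := Nat.gcd_pos_of_pos_left _ hn0
    have hquot : n / n.gcd k = p := Nat.div_eq_of_eq_mul_left hgpos hnp
    have honly : ∀ r : ℕ, r.Prime → r ∣ d → r = p := by
      intro r hr hrd
      have := DD_dvd hn0 hk0 hD hr hrd
      rw [hquot] at this
      exact (Nat.prime_dvd_prime_iff_eq hr hp).1 this
    have hdpow : d = p ^ d.primeFactorsList.length := Nat.eq_prime_pow_of_unique_prime_dvd hd0.ne'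
      (fun {r} hr hrd => honly r hr hrd)
    set c := d.primeFactorsList.length with hc
    have hcn : p ^ c ∣ n := hdpow ▸ hD.1
    have hcle : c ≤ k.factorization p + 1 := by
      by_contra hlt
      push Not at hlt
      have h1 : p ^ (k.factorization p + 1 + 1) ∣ n := (pow_dvd_pow p (by omega)).trans hcn
      have h2 : p ^ (k.factorization p + 1) ∣ n.gcd k := by
        have h3 : p * p ^ (k.factorization p + 1) ∣ p * n.gcd k := by
          rw [← hnp, ← pow_succ']; exact h1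
        exact Nat.dvd_of_mul_dvd_mul_left hp.pos h3
      have h4 := (hp.pow_dvd_iff_le_factorization hk0).1 (h2.trans (Nat.gcd_dvd_right n k))
      omega
    have h5 : d ∣ d₀ := by
      rw [hdpow, hddef]; exact pow_dvd_pow p hcle
    exact Nat.dvd_antisymm h5 hdd
  -- final contradiction in the exceptional cases
  have hfin : n = p * n.gcd k → ∀ s, 1 ≤ s → s ≤ N - 1 → ¬ d * s ≡ 0 [MOD n.gcd k] := by
    intro hnp s hs1 hs2 hs
    have hd' := hdeq hnp
    have hNg : N = g' := by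
      have h1 : d₀ * N = d₀ * g' := by
        rw [← hd', ← hN]
        conv_lhs => rw [hnp, hg]
        rw [hd', hdq]; ring
      have hd₀0 : 0 < d₀ := by omega
      exact Nat.eq_of_mul_eq_mul_left hd₀0 h1
    have h2 : n.gcd k ∣ d * s := Nat.modEq_zero_iff_dvd.1 hs
    rw [hg, hd', hdq, mul_assoc] at h2
    have h3 : g' ∣ p * s := Nat.dvd_of_mul_dvd_mul_left (pow_pos hp.pos _) h2
    have h4 : g' ∣ s := Nat.Coprime.dvd_of_dvd_mul_left hcop.symm h3
    have h5 := Nat.le_of_dvd (by omega) h4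
    omega
  rintro (ha | ⟨hb1, hb2⟩ | ⟨hc1, hc2⟩ | ⟨hd₁, hd₂, hd₃, hd₄⟩ | ⟨he₁, he₂, he₃, he₄⟩)
  · apply ha
    have hqg : q ∣ n.gcd k := by rw [hg]; exact dvd_mul_right _ _
    have h1 : d * ∑ j ∈ t, j ≡ X [MOD q] := htm.of_dvd hqg
    refine (h1.dvd_iff dvd_rfl).1 ?_
    refine Dvd.dvd.mul_right ?_ _
    exact (pow_dvd_pow p (Nat.le_succ _)).trans hdd
  · apply hb2
    have hK0 : K = 0 := Nat.div_eq_of_lt (by omega)
    rw [hK0, Finset.card_eq_zero] at htc
    rw [htc, Finset.sum_empty, mul_zero] at htm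
    exact Nat.modEq_zero_iff_dvd.1 htm.symm
  · apply hc2
    have hKN : N - 1 ≤ K := by
      rw [hK, Nat.le_div_iff_mul_le hd0]
      obtain ⟨N', rfl⟩ : ∃ N', N = N' + 1 := ⟨N - 1, by omega⟩
      rw [Nat.add_sub_cancel]
      have : n = N' * d + d := by rw [hN]; ring
      omega
    have hte : t = Icc 1 (N - 1) := by
      apply Finset.eq_of_subset_of_card_le hts
      rw [Nat.card_Icc, htc]; omega
    rw [hte] at htm
    exact hsig.trans htm
  · have hd' := hdeq hd₁
    have hKe : K = 1 := by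
      have h1 : 1 ≤ K := by
        rw [hK, Nat.le_div_iff_mul_le hd0]; omega
      have h2 : K < 2 := by
        rw [hK, Nat.div_lt_iff_lt_mul hd0]; omega
      omega
    rw [hKe] at htc
    obtain ⟨s, hs⟩ := Finset.card_eq_one.1 htc
    rw [hs, Finset.sum_singleton] at htm
    have hsm : s ∈ Icc 1 (N - 1) := hts (by rw [hs]; exact Finset.mem_singleton_self s)
    rw [Finset.mem_Icc] at hsm
    exact hfin hd₁ s hsm.1 hsm.2 (htm.trans (Nat.modEq_zero_iff_dvd.2 hd₄))
  · have hd' := hdeq he₁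
    have hN2 : 2 ≤ N := by
      by_contra hlt
      have : N = 1 := by omega
      rw [this, mul_one] at hN
      omega
    obtain ⟨N', rfl⟩ : ∃ N', N = N' + 2 := ⟨N - 2, by omega⟩
    have hKe : K = N' := by
      have hnn : n = d * N' + 2 * d := by rw [hN]; ring
      have h1 : N' ≤ K := by
        rw [hK, Nat.le_div_iff_mul_le hd0, mul_comm]; omega
      have h2 : K < N' + 1 := by
        rw [hK, Nat.div_lt_iff_lt_mul hd0]
        have : (N' + 1) * d = d * N' + d := by ring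
        rw [this]; omega
      omega
    have hsd : ((Icc 1 (N' + 2 - 1)) \ t).card = 1 := by
      rw [Finset.card_sdiff_of_subset hts, Nat.card_Icc, htc]; omega
    obtain ⟨s, hs⟩ := Finset.card_eq_one.1 hsd
    have hsm : s ∈ (Icc 1 (N' + 2 - 1)) \ t := by rw [hs]; exact Finset.mem_singleton_self s
    have hsI : s ∈ Icc 1 (N' + 2 - 1) := (Finset.mem_sdiff.1 hsm).1
    have hsum : s + ∑ j ∈ t, j = ∑ j ∈ Icc 1 (N' + 2 - 1), j := by
      rw [← Finset.sum_sdiff hts, hs, Finset.sum_singleton]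
    rw [Finset.mem_Icc] at hsI
    refine hfin he₁ s hsI.1 hsI.2 ?_
    have h1 : d * s + d * ∑ j ∈ t, j ≡ 0 + d * ∑ j ∈ t, j [MOD n.gcd k] := by
      rw [← mul_add, hsum, zero_add]
      exact (hsig.symm.trans he₄).trans htm.symm
    exact Nat.ModEq.add_right_cancel' _ h1

theorem bad_iff_clause {n k X : ℕ} (hk1 : 1 ≤ k) (hkn : k < n) :
    (∀ d, DD n k d → ¬ Bad n k d X) ↔ ∀ p : ℕ, p.Prime → p ∣ n / n.gcd k → Clause n k X p := by
  constructor
  · intro h p hp hpn
    by_contra hcl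
    obtain ⟨g', N₀, hg, hn, hgN, hcop, hg'0, hN0, hD₀⟩ :=
      struct (show 0 < n by omega) (show k ≠ 0 by omega) hp hpn
    exact h _ hD₀ (bad_of hk1 hkn hp hpn hcl)
  · intro h d hD hbad
    have hd1 := hD.2.1
    obtain ⟨p, hp, hpd⟩ := Nat.exists_prime_and_dvd (show d ≠ 1 by omega)
    exact clause_contra hk1 hkn hD hbad hp hpd
      (h p hp (DD_dvd (by omega) (by omega) hD hp hpd))

/-- nonemptiness for `k < n` -/
lemma nonempty_lt {n k : ℕ} [NeZero n] (hk1 : 1 ≤ k) (hkn : k < n) (x : ZMod n) :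
    (((univ : Finset (ZMod n)).powersetCard k).filter (fun A => ∑ a ∈ A, a = x)).Nonempty := by
  have hn0 : 0 < n := by omega
  have hlarge : n ≤ k * (n - k) + 1 := by
    obtain ⟨a, ha⟩ : ∃ a, k = a + 1 := ⟨k - 1, by omega⟩
    obtain ⟨b, hb⟩ : ∃ b, n = a + b + 2 := ⟨n - a - 2, by omega⟩
    have : n - k = b + 1 := by omega
    rw [this, hb, ha]
    nlinarith [Nat.zero_le (a * b)]
  obtain ⟨t, hts, htc, ht⟩ := exists_residue hkn.le hn0 hlarge x.val
  have hinj : Set.InjOn (fun j : ℕ => (j : ZMod n)) (t : Set ℕ) := by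
    intro i hi j hj hij
    have hi' := Finset.mem_Icc.1 (hts hi)
    have hj' := Finset.mem_Icc.1 (hts hj)
    have hij' : (i : ZMod n) = (j : ZMod n) := hij
    rw [ZMod.natCast_eq_natCast_iff] at hij'
    rcases Nat.lt_trichotomy i j with h | h | h
    · have h1 := (Nat.modEq_iff_dvd' h.le).1 hij'
      have h2 := Nat.le_of_dvd (by omega) h1
      omega
    · exact h
    · have h1 := (Nat.modEq_iff_dvd' h.le).1 hij'.symm
      have h2 := Nat.le_of_dvd (by omega) h1
      omega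
  refine ⟨t.image (fun j : ℕ => (j : ZMod n)), ?_⟩
  rw [Finset.mem_filter, Finset.mem_powersetCard]
  refine ⟨⟨Finset.subset_univ _, ?_⟩, ?_⟩
  · rw [Finset.card_image_of_injOn hinj, htc]
  · rw [Finset.sum_image hinj, ← Nat.cast_sum]
    have h1 := (ZMod.natCast_eq_natCast_iff _ _ n).2 ht
    rw [h1, ZMod.natCast_zmod_val]

lemma sum_univ (n : ℕ) [NeZero n] :
    ∑ a : ZMod n, a = ((n * (n - 1) / 2 : ℕ) : ZMod n) := by
  have h1 : ∑ a : ZMod n, a = ∑ j ∈ range n, (j : ZMod n) := by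
    refine Finset.sum_nbij' ZMod.val (fun j : ℕ => (j : ZMod n)) ?_ ?_ ?_ ?_ ?_
    · intro a _
      exact Finset.mem_range.2 (ZMod.val_lt a)
    · intro j _
      exact Finset.mem_univ _
    · intro a _
      exact ZMod.natCast_zmod_val a
    · intro j hj
      exact ZMod.val_cast_of_lt (Finset.mem_range.1 hj)
    · intro a _
      rw [ZMod.natCast_zmod_val]
  rw [h1, ← Nat.cast_sum, Finset.sum_range_id]

end Pool.Agent.X147.Ssd
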