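import Mathlib

set_option autoImplicit false

/-! # Trigonometric polynomials on the unit interval: Parseval and density -/

open MeasureTheory Set
open scoped ENNReal Real

namespace Pool.Agent.X147.Sq

/-- Lebesgue measure on `(0,1]` -/
noncomputable abbrev nu : Measure ℝ := volume.restrict (Ioc 0 1)

/-- `e n t = exp (2 π i n t)` -/
noncomputable def en (n : ℤ) (t : ℝ) : ℂ := Complex.exp (2 * π * Complex.I * n * t)

lemma en_eq (n : ℤ) (t : ℝ) : en n t = fourier (T := (1 : ℝ)) n (t : AddCircle (1 : ℝ)) := by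
  rw [fourier_coe_apply, en]
  simp

lemma mp_mk : MeasurePreserving (fun t : ℝ => (t : AddCircle (1 : ℝ))) nu volume := by
  have := AddCircle.measurePreserving_mk (1 : ℝ) 0
  simpa [nu] using this

lemma haar_eq : (AddCircle.haarAddCircle : Measure (AddCircle (1 : ℝ))) = volume := by
  rw [AddCircle.volume_eq_smul_haarAddCircle]
  simp

/-- trig polynomial -/
noncomputable def trig (s : Finset ℤ) (c : ℤ → ℂ) (t : ℝ) : ℂ := ∑ n ∈ s, c n * en n t

lemma continuous_en (n : ℤ) : Continuous (en n) := by unfold en; fun_prop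

lemma continuous_trig (s : Finset ℤ) (c : ℤ → ℂ) : Continuous (trig s c) := by
  unfold trig
  exact continuous_finsetSum _ fun n _ => continuous_const.mul (continuous_en n)

lemma parseval (s : Finset ℤ) (c : ℤ → ℂ) :
    ∫ t, ‖trig s c t‖ ^ 2 ∂nu = ∑ n ∈ s, ‖c n‖ ^ 2 := by
  let G : C(AddCircle (1 : ℝ), ℂ) := ∑ n ∈ s, c n • fourier n
  have hG : ∀ t : ℝ, G (t : AddCircle (1 : ℝ)) = trig s c t := by
    intro t
    simp [G, trig, en_eq]
  have h1 : ∫ t, ‖trig s c t‖ ^ 2 ∂nu = ∫ x : AddCircle (1 : ℝ), ‖G x‖ ^ 2 := by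
    have := AddCircle.integral_preimage (1 : ℝ) 0 (fun x => ‖G x‖ ^ 2)
    rw [zero_add] at this
    rw [← this]
    simp only [hG, nu]
  rw [h1, ← haar_eq]
  have h2 : ContinuousMap.toLp (E := ℂ) 2 AddCircle.haarAddCircle ℂ G =
      ∑ n ∈ s, c n • (@fourierLp (1 : ℝ) _ 2 _ n) := by
    simp only [G, map_sum, map_smul]
  have h3 : ‖ContinuousMap.toLp (E := ℂ) 2 AddCircle.haarAddCircle ℂ G‖ ^ 2 =
      ∑ n ∈ s, ‖c n‖ ^ 2 := by
    rw [h2]
    have ho := (@orthonormal_fourier (1 : ℝ) _)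
    have := ho.inner_sum c c s
    rw [← Complex.ofReal_inj]
    have h4 := inner_self_eq_norm_sq_to_K (𝕜 := ℂ) (∑ n ∈ s, c n • (@fourierLp (1 : ℝ) _ 2 _ n))
    rw [this] at h4
    push_cast
    simp only [Complex.coe_algebraMap] at h4
    rw [← h4]
    refine Finset.sum_congr rfl fun n _ => ?_
    rw [Complex.conj_mul']
  rw [← h3]
  rw [← @inner_self_eq_norm_sq ℂ]
  rw [ContinuousMap.inner_toLp]
  rw [← integral_re]
  · refine integral_congr_ae (Filter.Eventually.of_forall fun x => ?_)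
    simp only
    rw [Complex.mul_conj, Complex.normSq_eq_norm_sq]
    simp only [RCLike.re_to_complex, Complex.ofReal_re]
  · apply Continuous.integrable_of_hasCompactSupport
    · fun_prop
    · exact HasCompactSupport.of_compactSpace _

lemma approx {p : ℝ → ℂ} (hp : MemLp p 2 nu) {ε : ℝ≥0∞} (hε : ε ≠ 0) :
    ∃ (s : Finset ℤ) (c : ℤ → ℂ), eLpNorm (fun t => p t - trig s c t) 2 nu < ε := by
  classical
  let p' : ℝ → ℂ := hp.1.mk p
  have hp' : StronglyMeasurable p' := hp.1.stronglyMeasurable_mk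
  have hpp : p =ᵐ[nu] p' := hp.1.ae_eq_mk
  let g : AddCircle (1 : ℝ) → ℂ := fun x => p' ((AddCircle.equivIoc (1 : ℝ) 0 x : Ioc (0 : ℝ) (0 + 1)) : ℝ)
  have hgm : StronglyMeasurable g :=
    hp'.comp_measurable (measurable_subtype_coe.comp (AddCircle.measurableEquivIoc (1 : ℝ) 0).measurable)
  have hgc : (g ∘ fun t : ℝ => (t : AddCircle (1 : ℝ))) =ᵐ[nu] p' := by
    refine (ae_restrict_iff' measurableSet_Ioc).2 (Filter.Eventually.of_forall fun t ht => ?_)
    have ht' : t ∈ Ioc (0 : ℝ) (0 + 1) := by simpa using ht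
    simp only [g, Function.comp]
    rw [AddCircle.equivIoc_coe_eq ht']
  have hg : MemLp g 2 AddCircle.haarAddCircle := by
    rw [haar_eq]
    refine ⟨hgm.aestronglyMeasurable, ?_⟩
    rw [← eLpNorm_comp_measurePreserving hgm.aestronglyMeasurable mp_mk]
    rw [eLpNorm_congr_ae hgc, ← eLpNorm_congr_ae hpp]
    exact hp.2
  have hmem : hg.toLp g ∈ (Submodule.span ℂ (range (@fourierLp (1 : ℝ) _ 2 _))).topologicalClosure := by
    rw [span_fourierLp_closure_eq_top (by simp)]
    exact Submodule.mem_top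
  rw [← SetLike.mem_coe, Submodule.topologicalClosure_coe, EMetric.mem_closure_iff] at hmem
  obtain ⟨y, hy, hdist⟩ := hmem ε (pos_iff_ne_zero.2 hε)
  rw [SetLike.mem_coe, Finsupp.mem_span_range_iff_exists_finsupp] at hy
  obtain ⟨c, rfl⟩ := hy
  refine ⟨c.support, c, ?_⟩
  let G : C(AddCircle (1 : ℝ), ℂ) := ∑ n ∈ c.support, c n • fourier n
  have hG : ∀ t : ℝ, G (t : AddCircle (1 : ℝ)) = trig c.support c t := by
    intro t
    simp [G, trig, en_eq]
  have h2 : (c.sum fun i a => a • (@fourierLp (1 : ℝ) _ 2 _ i)) =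
    ContinuousMap.toLp (E := ℂ) 2 AddCircle.haarAddCircle ℂ G := by
    simp only [G, map_sum, map_smul]
    rfl
  rw [h2, Lp.edist_def] at hdist
  have h3 : eLpNorm (fun t => p t - trig c.support c t) 2 nu =
      eLpNorm (fun x => g x - G x) 2 AddCircle.haarAddCircle := by
    rw [haar_eq]
    change _ = eLpNorm (g - ⇑G) 2 volume
    rw [← eLpNorm_comp_measurePreserving
      ((hgm.sub G.continuous.stronglyMeasurable).aestronglyMeasurable) mp_mk]
    apply eLpNorm_congr_ae
    filter_upwards [hpp, hgc] with t h4 h5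
    simp only [Function.comp, Pi.sub_apply] at h5 ⊢
    rw [h5, h4, hG]
  rw [h3]
  refine lt_of_le_of_lt (le_of_eq ?_) hdist
  apply eLpNorm_congr_ae
  filter_upwards [hg.coeFn_toLp, ContinuousMap.coeFn_toLp (𝕜 := ℂ) (p := 2)
    AddCircle.haarAddCircle G] with x h4 h5
  simp only [Pi.sub_apply]
  rw [h4, h5]

end Pool.Agent.X147.Sq
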