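import Mathlib
import Pool.Agent.X147.SqA

set_option autoImplicit false

/-! # The length measure on the boundary of a square -/

open MeasureTheory Set
open scoped ENNReal Real

namespace Pool.Agent.X147.Sq

abbrev E2 := EuclideanSpace ℝ (Fin 2)

lemma edge_measure (p w : E2) (hw : w ≠ 0) :
    (Measure.hausdorffMeasure (1 : ℝ) : Measure E2).restrict ((fun t : ℝ => p + t • w) '' Icc 0 1) =
      ENNReal.ofReal ‖w‖ • Measure.map (fun t : ℝ => p + t • w) nu := by
  have hw0 : 0 < ‖w‖ := norm_pos_iff.2 hw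
  let io : ℝ → E2 := fun t => p + t • (‖w‖⁻¹ • w)
  have hio : Isometry io := by
    refine Isometry.of_dist_eq fun x y => ?_
    simp only [io]
    rw [dist_add_left, dist_eq_norm, ← sub_smul, norm_smul, norm_smul, norm_inv, norm_norm,
      inv_mul_cancel₀ hw0.ne', mul_one, dist_eq_norm]
  have hcomp : (fun t : ℝ => p + t • w) = io ∘ fun t => ‖w‖ * t := by
    funext t
    simp only [io, Function.comp, smul_smul]
    congr 2
    field_simp
  have himg : (fun t : ℝ => p + t • w) '' Icc 0 1 = io '' Icc 0 ‖w‖ := by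
    rw [hcomp, image_comp]
    congr 1
    ext x
    simp only [mem_image, mem_Icc]
    constructor
    · rintro ⟨t, ⟨h1, h2⟩, rfl⟩
      exact ⟨by positivity, by nlinarith⟩
    · rintro ⟨h1, h2⟩
      refine ⟨x / ‖w‖, ⟨by positivity, (div_le_one hw0).2 h2⟩, by field_simp⟩
  have hme : MeasurableEmbedding io := hio.isClosedEmbedding.measurableEmbedding
  have h1 : Measure.map io volume = (Measure.hausdorffMeasure (1 : ℝ) : Measure E2).restrict (range io) := by
    rw [← hio.map_hausdorffMeasure (Or.inl zero_le_one), hausdorffMeasure_real]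
  have h2 : (Measure.hausdorffMeasure (1 : ℝ) : Measure E2).restrict (io '' Icc 0 ‖w‖) =
      Measure.map io (volume.restrict (Icc 0 ‖w‖)) := by
    have h3 : (Measure.hausdorffMeasure (1 : ℝ) : Measure E2).restrict (io '' Icc 0 ‖w‖) =
        ((Measure.hausdorffMeasure (1 : ℝ) : Measure E2).restrict (range io)).restrict (io '' Icc 0 ‖w‖) := by
      rw [Measure.restrict_restrict (hme.measurableSet_image.2 measurableSet_Icc),
        inter_eq_left.2 (image_subset_range _ _)]
    rw [h3, ← h1, hme.restrict_map, preimage_image_eq _ hio.injective]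
  rw [himg, h2, hcomp, ← Measure.map_map hme.measurable (measurable_const_mul _), ← Measure.map_smul]
  congr 1
  have hme2 : MeasurableEmbedding (fun t : ℝ => ‖w‖ * t) :=
    (Homeomorph.mulLeft₀ ‖w‖ hw0.ne').measurableEmbedding
  have h4 : Measure.map (fun t : ℝ => ‖w‖ * t) nu =
      (Measure.map (fun t : ℝ => ‖w‖ * t) volume).restrict (Ioc 0 ‖w‖) := by
    have hpre : (fun t : ℝ => ‖w‖ * t) ⁻¹' (Ioc 0 ‖w‖) = Ioc 0 1 := by
      ext t
      simp only [mem_Ioc, mem_preimage]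
      constructor
      · rintro ⟨h1, h2⟩
        exact ⟨(pos_iff_pos_of_mul_pos h1).1 hw0, by nlinarith⟩
      · rintro ⟨h1, h2⟩; exact ⟨by positivity, by nlinarith⟩
    rw [hme2.restrict_map, hpre]
  rw [h4, Real.map_volume_mul_left hw0.ne', Measure.restrict_smul, smul_smul]
  rw [abs_of_pos (inv_pos.2 hw0), ← ENNReal.ofReal_mul hw0.le, mul_inv_cancel₀ hw0.ne',
    ENNReal.ofReal_one, one_smul]
  exact restrict_Ioc_eq_restrict_Icc.symm

/-- the affine parametrisation -/
noncomputable def phi (a u v : E2) (z : ℝ × ℝ) : E2 := a + z.1 • u + z.2 • v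

/-- the closed square (parallelogram) with corner `a` and sides `u`, `v` -/
def sq (a u v : E2) : Set E2 := {x | ∃ s ∈ Icc (0 : ℝ) 1, ∃ t ∈ Icc (0 : ℝ) 1, x = a + s • u + t • v}

lemma sq_eq (a u v : E2) : sq a u v = phi a u v '' (Icc 0 1 ×ˢ Icc 0 1) := by
  ext x
  simp only [sq, phi, Set.mem_ofPred_eq, mem_image, mem_prod, Prod.exists]
  constructor
  · rintro ⟨s, hs, t, ht, rfl⟩
    exact ⟨s, t, ⟨hs, ht⟩, rfl⟩
  · rintro ⟨s, t, ⟨hs, ht⟩, rfl⟩
    exact ⟨s, hs, t, ht, rfl⟩

lemma phi_homeo {a u v : E2} (h : LinearIndependent ℝ ![u, v]) :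
    ∃ f : (ℝ × ℝ) ≃ₜ E2, ∀ z, f z = phi a u v z := by
  let L : (ℝ × ℝ) →ₗ[ℝ] E2 :=
    (LinearMap.fst ℝ ℝ ℝ).smulRight u + (LinearMap.snd ℝ ℝ ℝ).smulRight v
  have hL : ∀ z, L z = z.1 • u + z.2 • v := fun z => by simp [L]
  have hinj : Function.Injective L := by
    rw [← LinearMap.ker_eq_bot, LinearMap.ker_eq_bot']
    rintro ⟨x, y⟩ hz
    rw [hL] at hz
    have := LinearIndependent.pair_iff.1 h x y hz
    simp [this.1, this.2]
  have hd : Module.finrank ℝ (ℝ × ℝ) = Module.finrank ℝ E2 := by simp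
  let Le := (LinearMap.linearEquivOfInjective L hinj hd).toContinuousLinearEquiv
  refine ⟨Le.toHomeomorph.trans (Homeomorph.addLeft a), fun z => ?_⟩
  simp only [Homeomorph.trans_apply, Homeomorph.coe_addLeft]
  change a + L z = _
  rw [hL, phi, add_assoc]

lemma frontier_sq {a u v : E2} (h : LinearIndependent ℝ ![u, v]) :
    frontier (sq a u v) = phi a u v '' (Icc 0 1 ×ˢ {0} ∪ Icc 0 1 ×ˢ {1} ∪ {0} ×ˢ Icc 0 1 ∪
      {1} ×ˢ Icc 0 1) := by
  obtain ⟨f, hf⟩ := phi_homeo (a := a) h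
  have hfe : phi a u v = f := funext fun z => (hf z).symm
  rw [sq_eq, hfe, ← f.image_frontier, frontier_prod_eq, isClosed_Icc.closure_eq,
    frontier_Icc zero_le_one]
  congr 1
  ext ⟨x, y⟩
  simp only [mem_union, mem_prod, mem_insert_iff, mem_singleton_iff]
  tauto

lemma sigma_eq {a u v : E2} (h : LinearIndependent ℝ ![u, v]) :
    (Measure.hausdorffMeasure (1 : ℝ) : Measure E2).restrict (frontier (sq a u v)) =
      ENNReal.ofReal ‖u‖ • Measure.map (fun t : ℝ => phi a u v (t, 0)) nu +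
      ENNReal.ofReal ‖u‖ • Measure.map (fun t : ℝ => phi a u v (t, 1)) nu +
      ENNReal.ofReal ‖v‖ • Measure.map (fun t : ℝ => phi a u v (0, t)) nu +
      ENNReal.ofReal ‖v‖ • Measure.map (fun t : ℝ => phi a u v (1, t)) nu := by
  obtain ⟨f, hf⟩ := phi_homeo (a := a) h
  have hfe : phi a u v = f := funext fun z => (hf z).symm
  have hinj : Function.Injective (phi a u v) := by rw [hfe]; exact f.injective
  have hcl : ∀ s : Set (ℝ × ℝ), IsClosed s → MeasurableSet (phi a u v '' s) := by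
    intro s hs
    rw [hfe]
    exact (f.isClosedMap s hs).measurableSet
  have hnull : ∀ s t : Set (ℝ × ℝ), s ∩ t ⊆ ({0, 1} : Set ℝ) ×ˢ ({0, 1} : Set ℝ) →
      AEDisjoint (Measure.hausdorffMeasure (1 : ℝ) : Measure E2) (phi a u v '' s)
        (phi a u v '' t) := by
    intro s t hst
    have : NullSingletonClass (Measure.hausdorffMeasure (1 : ℝ) : Measure E2) :=
      Measure.nullSingletonClass_hausdorff _ zero_lt_one
    unfold AEDisjoint
    rw [← image_inter hinj]
    refine Set.Finite.measure_zero (Finite.image _ (Finite.subset ?_ hst)) _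
    exact (by simp : Set.Finite ({0, 1} : Set ℝ)).prod (by simp)
  have c1 : IsClosed (Icc (0 : ℝ) 1 ×ˢ ({0} : Set ℝ)) := isClosed_Icc.prod isClosed_singleton
  have c2 : IsClosed (Icc (0 : ℝ) 1 ×ˢ ({1} : Set ℝ)) := isClosed_Icc.prod isClosed_singleton
  have c3 : IsClosed (({0} : Set ℝ) ×ˢ Icc (0 : ℝ) 1) := isClosed_singleton.prod isClosed_Icc
  have c4 : IsClosed (({1} : Set ℝ) ×ˢ Icc (0 : ℝ) 1) := isClosed_singleton.prod isClosed_Icc
  have hu : u ≠ 0 := h.ne_zero 0
  have hv : v ≠ 0 := h.ne_zero 1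
  have e1 : phi a u v '' (Icc (0 : ℝ) 1 ×ˢ ({0} : Set ℝ)) = (fun t : ℝ => a + t • u) '' Icc 0 1 := by
    ext x; simp [phi]
  have e2 : phi a u v '' (Icc (0 : ℝ) 1 ×ˢ ({1} : Set ℝ)) =
      (fun t : ℝ => (a + v) + t • u) '' Icc 0 1 := by
    ext x
    simp only [mem_image, mem_prod, mem_Icc, mem_singleton_iff, Prod.exists, phi]
    constructor
    · rintro ⟨s, t, ⟨hs, rfl⟩, rfl⟩; exact ⟨s, hs, by simp; abel⟩
    · rintro ⟨s, hs, rfl⟩; exact ⟨s, 1, ⟨hs, rfl⟩, by simp; abel⟩
  have e3 : phi a u v '' (({0} : Set ℝ) ×ˢ Icc (0 : ℝ) 1) = (fun t : ℝ => a + t • v) '' Icc 0 1 := by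
    ext x; simp [phi]
  have e4 : phi a u v '' (({1} : Set ℝ) ×ˢ Icc (0 : ℝ) 1) =
      (fun t : ℝ => (a + u) + t • v) '' Icc 0 1 := by
    ext x; simp [phi]
  rw [frontier_sq h, image_union, image_union, image_union]
  rw [Measure.restrict_union₀, Measure.restrict_union₀, Measure.restrict_union₀, e1, e2, e3, e4,
    edge_measure a u hu, edge_measure (a + v) u hu, edge_measure a v hv, edge_measure (a + u) v hv]
  · have f1 : (fun t : ℝ => phi a u v (t, 0)) = fun t : ℝ => a + t • u := by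
      funext t; simp [phi]
    have f2 : (fun t : ℝ => phi a u v (t, 1)) = fun t : ℝ => (a + v) + t • u := by
      funext t; simp [phi]; abel
    have f3 : (fun t : ℝ => phi a u v (0, t)) = fun t : ℝ => a + t • v := by
      funext t; simp [phi]
    have f4 : (fun t : ℝ => phi a u v (1, t)) = fun t : ℝ => (a + u) + t • v := by
      funext t; simp [phi]
    rw [f1, f2, f3, f4]
  · apply hnull
    rintro ⟨x, y⟩ ⟨⟨-, h1⟩, ⟨-, h2⟩⟩
    simp only [mem_singleton_iff] at h1 h2
    exact absurd (h1.symm.trans h2) (by norm_num)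
  · exact (hcl _ c2).nullMeasurableSet
  · rw [← image_union]
    apply hnull
    rintro ⟨x, y⟩ ⟨h1, ⟨h2, h3⟩⟩
    simp only [mem_union, mem_prod, mem_singleton_iff] at h1 h2 h3 ⊢
    simp only [mem_insert_iff, mem_singleton_iff]
    rcases h1 with h1 | h1
    · exact ⟨Or.inl h2, Or.inl h1.2⟩
    · exact ⟨Or.inl h2, Or.inr h1.2⟩
  · exact (hcl _ c3).nullMeasurableSet
  · rw [← image_union, ← image_union]
    apply hnull
    rintro ⟨x, y⟩ ⟨h1, ⟨h2, h3⟩⟩
    simp only [mem_union, mem_prod, mem_singleton_iff] at h1 h2 h3 ⊢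
    simp only [mem_insert_iff, mem_singleton_iff]
    rcases h1 with (h1 | h1) | h1
    · exact ⟨Or.inr h2, Or.inl h1.2⟩
    · exact ⟨Or.inr h2, Or.inr h1.2⟩
    · exact absurd (h1.1.symm.trans h2) (by norm_num)
  · exact (hcl _ c4).nullMeasurableSet

end Pool.Agent.X147.Sq
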