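import Mathlib
import Pool.Agent.X147.SqB

set_option autoImplicit false

/-! # The Riesz basis computation on the boundary of a parallelogram -/

open MeasureTheory Set
open scoped ENNReal Real ComplexConjugate

namespace Pool.Agent.X147.Sq

/-- `ee z = exp (2 π i z)` -/
noncomputable def ee (z : ℝ) : ℂ := Complex.exp (2 * π * Complex.I * z)

lemma ee_add (x y : ℝ) : ee (x + y) = ee x * ee y := by
  simp only [ee]; rw [← Complex.exp_add]; push_cast; ring_nf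

lemma ee_int (n : ℤ) : ee n = 1 := by
  simp only [ee]
  rw [show (2 * (π : ℂ) * Complex.I * ((n : ℝ) : ℂ)) = n * (2 * π * Complex.I) by push_cast; ring]
  exact Complex.exp_int_mul_two_pi_mul_I n

lemma ee_half : ee (1 / 2) = -1 := by
  simp only [ee]
  rw [show (2 * (π : ℂ) * Complex.I * ((1 / 2 : ℝ) : ℂ)) = π * Complex.I by push_cast; ring]
  exact Complex.exp_pi_mul_I

lemma norm_ee (z : ℝ) : ‖ee z‖ = 1 := by
  simp only [ee]
  rw [show (2 * (π : ℂ) * Complex.I * z) = ((2 * π * z : ℝ) : ℂ) * Complex.I by push_cast; ring]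
  exact Complex.norm_exp_ofReal_mul_I _

lemma ee_zero : ee 0 = 1 := by simp [ee]

lemma ee_neg (z : ℝ) : ee (-z) = conj (ee z) := by
  have h1 : ee z * ee (-z) = 1 := by rw [← ee_add]; simp [ee_zero]
  have h2 : ee z * conj (ee z) = 1 := by
    rw [Complex.mul_conj, Complex.normSq_eq_norm_sq, norm_ee]; simp
  have h3 : ee z ≠ 0 := fun h => by rw [h] at h1; simp at h1
  exact mul_left_cancel₀ h3 (h1.trans h2.symm)

lemma en_ee (n : ℤ) (t : ℝ) : en n t = ee (n * t) := by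
  simp only [en, ee]; push_cast; ring_nf

lemma continuous_ee : Continuous ee := by unfold ee; fun_prop

/-- half character -/
noncomputable def hh (t : ℝ) : ℂ := ee (t / 2)

lemma continuous_hh : Continuous hh := continuous_ee.comp (by fun_prop)

lemma norm_hh (t : ℝ) : ‖hh t‖ = 1 := norm_ee _

lemma hh_mul_conj (t : ℝ) : hh t * conj (hh t) = 1 := by
  rw [Complex.mul_conj, Complex.normSq_eq_norm_sq, norm_hh]; simp

lemma hh_refl (t : ℝ) : conj (hh (1 - t)) = - hh t := by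
  simp only [hh]
  rw [← ee_neg, show -((1 - t) / 2) = t / 2 + (1/2) + ((-1 : ℤ) : ℝ) by push_cast; ring, ee_add, ee_add,
    ee_half, ee_int]
  ring

/-- frequencies along the first side -/
noncomputable def al (j : Fin 4) (n : ℤ) : ℝ := ![(n : ℝ), n, n + 1 / 2, n + 1 / 2] j

/-- frequencies along the second side -/
noncomputable def be (j : Fin 4) (n : ℤ) : ℝ := ![-(n : ℝ), -n + 1 / 2, n + 1, n + 1 / 2] j

lemma al_be_inj {p q : Fin 4 × ℤ} (h1 : al p.1 p.2 = al q.1 q.2) (h2 : be p.1 p.2 = be q.1 q.2) :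
    p = q := by
  obtain ⟨j, n⟩ := p
  obtain ⟨k, m⟩ := q
  have key : ∀ x y : ℤ, (x : ℝ) = y → x = y := fun x y h => by exact_mod_cast h
  fin_cases j <;> fin_cases k <;> simp only [al, be, Fin.zero_eta, Fin.mk_one, Fin.reduceFinMk,
    Matrix.cons_val, Matrix.cons_val_zero, Matrix.cons_val_one] at h1 h2
  all_goals first
    | (have h3 := key n m (by linarith); subst h3; rfl)
    | (exfalso; have h3 := key (2 * n) (2 * m + 1) (by push_cast; linarith); omega)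
    | (exfalso; have h3 := key (2 * n + 1) (2 * m) (by push_cast; linarith); omega)

/-- double sum -/
noncomputable def GG (N : Finset ℤ) (d : Fin 4 → ℤ → ℂ) (x y : ℝ) : ℂ :=
  ∑ j : Fin 4, ∑ n ∈ N, d j n * ee (al j n * x + be j n * y)

lemma GG_B (N : Finset ℤ) (d : Fin 4 → ℤ → ℂ) (t : ℝ) :
    GG N d t 0 = (trig N (d 0) t + trig N (d 1) t) +
      hh t * (trig N (d 2) t + trig N (d 3) t) := by
  simp only [GG, Fin.sum_univ_four, trig, Finset.mul_sum, mul_add, ← Finset.sum_add_distrib]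
  refine Finset.sum_congr rfl fun n _ => ?_
  simp only [al, be, Matrix.cons_val, Matrix.cons_val_zero, Matrix.cons_val_one, en_ee, hh]
  have e1 : ee ((n : ℝ) * t + -(n : ℝ) * 0) = ee (n * t) := by congr 1; ring
  have e2 : ee ((n : ℝ) * t + (-(n : ℝ) + 1 / 2) * 0) = ee (n * t) := by congr 1; ring
  have e3 : ee (((n : ℝ) + 1 / 2) * t + ((n : ℝ) + 1) * 0) = ee (t / 2) * ee (n * t) := by
    rw [← ee_add]; congr 1; ring
  have e4 : ee (((n : ℝ) + 1 / 2) * t + ((n : ℝ) + 1 / 2) * 0) = ee (t / 2) * ee (n * t) := by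
    rw [← ee_add]; congr 1; ring
  rw [e1, e2, e3, e4]; ring

lemma GG_T (N : Finset ℤ) (d : Fin 4 → ℤ → ℂ) (t : ℝ) :
    GG N d t 1 = (trig N (d 0) t - trig N (d 1) t) +
      hh t * (trig N (d 2) t - trig N (d 3) t) := by
  simp only [GG, Fin.sum_univ_four, trig, Finset.mul_sum, mul_add, mul_sub,
    ← Finset.sum_add_distrib, ← Finset.sum_sub_distrib]
  refine Finset.sum_congr rfl fun n _ => ?_
  simp only [al, be, Matrix.cons_val, Matrix.cons_val_zero, Matrix.cons_val_one, en_ee, hh]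
  have e1 : ee ((n : ℝ) * t + -(n : ℝ) * 1) = ee (n * t) := by
    rw [show (n : ℝ) * t + -(n : ℝ) * 1 = n * t + ((-n : ℤ) : ℝ) by push_cast; ring, ee_add,
      ee_int, mul_one]
  have e2 : ee ((n : ℝ) * t + (-(n : ℝ) + 1 / 2) * 1) = - ee (n * t) := by
    rw [show (n : ℝ) * t + (-(n : ℝ) + 1 / 2) * 1 = n * t + 1 / 2 + ((-n : ℤ) : ℝ) by
      push_cast; ring, ee_add, ee_add, ee_int, ee_half]; ring
  have e3 : ee (((n : ℝ) + 1 / 2) * t + ((n : ℝ) + 1) * 1) = ee (t / 2) * ee (n * t) := by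
    rw [show ((n : ℝ) + 1 / 2) * t + ((n : ℝ) + 1) * 1 = t / 2 + n * t + ((n + 1 : ℤ) : ℝ) by
      push_cast; ring, ee_add, ee_add, ee_int]; ring
  have e4 : ee (((n : ℝ) + 1 / 2) * t + ((n : ℝ) + 1 / 2) * 1) = - (ee (t / 2) * ee (n * t)) := by
    rw [show ((n : ℝ) + 1 / 2) * t + ((n : ℝ) + 1 / 2) * 1 = t / 2 + n * t + 1 / 2 + ((n : ℤ) : ℝ) by
      push_cast; ring, ee_add, ee_add, ee_add, ee_int, ee_half]; ring
  rw [e1, e2, e3, e4]; ring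

lemma GG_L (N : Finset ℤ) (d : Fin 4 → ℤ → ℂ) (t : ℝ) :
    GG N d 0 t = (trig N (d 0) (1 - t) + hh t * trig N (d 1) (1 - t)) +
      hh t * (hh t * trig N (d 2) t + trig N (d 3) t) := by
  simp only [GG, Fin.sum_univ_four, trig, Finset.mul_sum, mul_add,
    ← Finset.sum_add_distrib]
  refine Finset.sum_congr rfl fun n _ => ?_
  simp only [al, be, Matrix.cons_val, Matrix.cons_val_zero, Matrix.cons_val_one, en_ee, hh]
  have e0 : ee (n * (1 - t)) = ee (-(n : ℝ) * t) := by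
    rw [show (n : ℝ) * (1 - t) = -(n : ℝ) * t + ((n : ℤ) : ℝ) by ring, ee_add, ee_int, mul_one]
  have e1 : ee ((n : ℝ) * 0 + -(n : ℝ) * t) = ee (n * (1 - t)) := by rw [e0]; congr 1; ring
  have e2 : ee ((n : ℝ) * 0 + (-(n : ℝ) + 1 / 2) * t) = ee (t / 2) * ee (n * (1 - t)) := by
    rw [e0, ← ee_add]; congr 1; ring
  have e3 : ee (((n : ℝ) + 1 / 2) * 0 + ((n : ℝ) + 1) * t) = ee (t / 2) * (ee (t / 2) * ee (n * t)) := by
    rw [← ee_add, ← ee_add]; congr 1; ring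
  have e4 : ee (((n : ℝ) + 1 / 2) * 0 + ((n : ℝ) + 1 / 2) * t) = ee (t / 2) * ee (n * t) := by
    rw [← ee_add]; congr 1; ring
  rw [e1, e2, e3, e4]; ring

lemma GG_R (N : Finset ℤ) (d : Fin 4 → ℤ → ℂ) (t : ℝ) :
    GG N d 1 t = (trig N (d 0) (1 - t) + hh t * trig N (d 1) (1 - t)) -
      hh t * (hh t * trig N (d 2) t + trig N (d 3) t) := by
  simp only [GG, Fin.sum_univ_four, trig, Finset.mul_sum, mul_add,
    ← Finset.sum_add_distrib, ← Finset.sum_sub_distrib]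
  refine Finset.sum_congr rfl fun n _ => ?_
  simp only [al, be, Matrix.cons_val, Matrix.cons_val_zero, Matrix.cons_val_one, en_ee, hh]
  have e0 : ee (n * (1 - t)) = ee (-(n : ℝ) * t) := by
    rw [show (n : ℝ) * (1 - t) = -(n : ℝ) * t + ((n : ℤ) : ℝ) by ring, ee_add, ee_int, mul_one]
  have e1 : ee ((n : ℝ) * 1 + -(n : ℝ) * t) = ee (n * (1 - t)) := by
    rw [e0, show (n : ℝ) * 1 + -(n : ℝ) * t = -(n : ℝ) * t + ((n : ℤ) : ℝ) by ring, ee_add,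
      ee_int, mul_one]
  have e2 : ee ((n : ℝ) * 1 + (-(n : ℝ) + 1 / 2) * t) = ee (t / 2) * ee (n * (1 - t)) := by
    rw [e0, ← ee_add, show (n : ℝ) * 1 + (-(n : ℝ) + 1 / 2) * t = (t / 2 + -(n : ℝ) * t) +
      ((n : ℤ) : ℝ) by ring, ee_add _ (n : ℝ), ee_int, mul_one]
  have e3 : ee (((n : ℝ) + 1 / 2) * 1 + ((n : ℝ) + 1) * t) =
      - (ee (t / 2) * (ee (t / 2) * ee (n * t))) := by
    rw [show ((n : ℝ) + 1 / 2) * 1 + ((n : ℝ) + 1) * t = t / 2 + (t / 2 + n * t) + 1 / 2 +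
      ((n : ℤ) : ℝ) by ring, ee_add, ee_add, ee_add, ee_add, ee_int, ee_half]; ring
  have e4 : ee (((n : ℝ) + 1 / 2) * 1 + ((n : ℝ) + 1 / 2) * t) = -(ee (t / 2) * ee (n * t)) := by
    rw [show ((n : ℝ) + 1 / 2) * 1 + ((n : ℝ) + 1 / 2) * t = t / 2 + n * t + 1 / 2 +
      ((n : ℤ) : ℝ) by ring, ee_add, ee_add, ee_add, ee_int, ee_half]; ring
  rw [e1, e2, e3, e4]; ring

/-! ### pointwise quadratic bounds -/

lemma par_law (x y : ℂ) : ‖x + y‖ ^ 2 + ‖x - y‖ ^ 2 = 2 * ‖x‖ ^ 2 + 2 * ‖y‖ ^ 2 := by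
  have := parallelogram_law_with_norm ℝ x y
  nlinarith [this]

lemma quad_real (a b c d : ℝ) : a ^ 2 + b ^ 2 + c ^ 2 + d ^ 2 ≤
    4 * ((a + c) ^ 2 + (b + d) ^ 2 + (a - b) ^ 2 + (c + d) ^ 2) := by
  nlinarith [sq_nonneg ((a + c) + (b + d)), sq_nonneg ((a - b) - (c + d)),
    sq_nonneg ((a + c) - (a - b)), sq_nonneg ((b + d) - (c + d)),
    sq_nonneg ((a+c) + (c+d)), sq_nonneg ((b+d) - (a-b)), sq_nonneg ((a+c)-(b+d)),
    sq_nonneg ((a-b)+(c+d)), sq_nonneg ((a+c)+(a-b)), sq_nonneg ((b+d)+(c+d)),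
    sq_nonneg ((a+c)-(c+d)), sq_nonneg ((b+d)+(a-b))]

lemma quad_real' (a b c d : ℝ) :
    ((a + c) ^ 2 + (b + d) ^ 2 + (a - b) ^ 2 + (c + d) ^ 2) ≤
    4 * (a ^ 2 + b ^ 2 + c ^ 2 + d ^ 2) := by
  nlinarith [sq_nonneg (a - c), sq_nonneg (b - d), sq_nonneg (a + b), sq_nonneg (c - d)]

lemma quad_lower (a b c d : ℂ) : ‖a‖ ^ 2 + ‖b‖ ^ 2 + ‖c‖ ^ 2 + ‖d‖ ^ 2 ≤
    4 * (‖a + c‖ ^ 2 + ‖b + d‖ ^ 2 + ‖a - b‖ ^ 2 + ‖c + d‖ ^ 2) := by
  simp only [← Complex.normSq_eq_norm_sq, Complex.normSq_apply, Complex.add_re, Complex.add_im,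
    Complex.sub_re, Complex.sub_im]
  nlinarith [quad_real a.re b.re c.re d.re, quad_real a.im b.im c.im d.im]

lemma quad_upper (a b c d : ℂ) :
    ‖a + c‖ ^ 2 + ‖b + d‖ ^ 2 + ‖a - b‖ ^ 2 + ‖c + d‖ ^ 2 ≤
    4 * (‖a‖ ^ 2 + ‖b‖ ^ 2 + ‖c‖ ^ 2 + ‖d‖ ^ 2) := by
  simp only [← Complex.normSq_eq_norm_sq, Complex.normSq_apply, Complex.add_re, Complex.add_im,
    Complex.sub_re, Complex.sub_im]
  nlinarith [quad_real' a.re b.re c.re d.re, quad_real' a.im b.im c.im d.im]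

lemma quad_hh (P0 P1 P2 P3 h : ℂ) (hn : ‖h‖ = 1) :
    ‖P0‖ ^ 2 + ‖P1‖ ^ 2 + ‖P2‖ ^ 2 + ‖P3‖ ^ 2 ≤
      4 * (‖P0 + h * P2‖ ^ 2 + ‖P1 + h * P3‖ ^ 2 + ‖P0 - conj h * P1‖ ^ 2 + ‖h * P2 + P3‖ ^ 2) ∧
    ‖P0 + h * P2‖ ^ 2 + ‖P1 + h * P3‖ ^ 2 + ‖P0 - conj h * P1‖ ^ 2 + ‖h * P2 + P3‖ ^ 2 ≤
      4 * (‖P0‖ ^ 2 + ‖P1‖ ^ 2 + ‖P2‖ ^ 2 + ‖P3‖ ^ 2) := by
  have hc : h * conj h = 1 := by
    rw [Complex.mul_conj, Complex.normSq_eq_norm_sq, hn]; simp
  have e1 : ‖P1‖ = ‖conj h * P1‖ := by rw [norm_mul, RCLike.norm_conj, hn, one_mul]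
  have e2 : ‖P2‖ = ‖h * P2‖ := by rw [norm_mul, hn, one_mul]
  have e3 : ‖P1 + h * P3‖ = ‖conj h * P1 + P3‖ := by
    have : P1 + h * P3 = h * (conj h * P1 + P3) := by linear_combination (-P1) * hc
    rw [this, norm_mul, hn, one_mul]
  rw [e3, e1, e2]
  exact ⟨quad_lower _ _ _ _, quad_upper _ _ _ _⟩


/-! ### reflection and integrals -/

lemma mp_refl : MeasurePreserving (fun t : ℝ => 1 - t) nu nu := by
  have h := ((volume : Measure ℝ).measurePreserving_sub_left 1).restrict_preimage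
    (measurableSet_Ioc : MeasurableSet (Ioc (0 : ℝ) 1))
  have h2 : (fun t : ℝ => 1 - t) ⁻¹' (Ioc 0 1) = Ico 0 1 := by
    ext t; simp only [mem_preimage, mem_Ioc, mem_Ico]; constructor <;> rintro ⟨a, b⟩ <;>
      constructor <;> linarith
  rw [h2, restrict_Ico_eq_restrict_Ioc] at h
  exact h

lemma int_cont {f : ℝ → ℝ} (hf : Continuous f) : Integrable f nu :=
  hf.integrableOn_Ioc

lemma int_refl (f : ℝ → ℝ) : ∫ t, f (1 - t) ∂nu = ∫ t, f t ∂nu := by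
  have h : MeasurableEmbedding (fun t : ℝ => 1 - t) :=
    (Homeomorph.subLeft (1 : ℝ)).measurableEmbedding
  exact mp_refl.integral_comp h f

lemma int4 {f1 f2 f3 f4 : ℝ → ℝ} (h1 : Integrable f1 nu) (h2 : Integrable f2 nu)
    (h3 : Integrable f3 nu) (h4 : Integrable f4 nu) :
    ∫ t, f1 t ∂nu + ∫ t, f2 t ∂nu + ∫ t, f3 t ∂nu + ∫ t, f4 t ∂nu =
      ∫ t, (f1 t + f2 t + f3 t + f4 t) ∂nu := by
  have a := integral_add ((h1.add h2).add h3) h4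
  have b := integral_add (h1.add h2) h3
  have c := integral_add h1 h2
  simp only [Pi.add_apply] at a b c
  rw [a, b, c]

/-- The four edge integrals against the four coefficient integrals. -/
lemma int_bounds (P0 P1 P2 P3 : ℝ → ℂ) (h0 : Continuous P0) (h1 : Continuous P1)
    (h2 : Continuous P2) (h3 : Continuous P3) :
    let IB := ∫ t, ‖(P0 t + P1 t) + hh t * (P2 t + P3 t)‖ ^ 2 ∂nu
    let IT := ∫ t, ‖(P0 t - P1 t) + hh t * (P2 t - P3 t)‖ ^ 2 ∂nu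
    let IL := ∫ t, ‖(P0 (1 - t) + hh t * P1 (1 - t)) + hh t * (hh t * P2 t + P3 t)‖ ^ 2 ∂nu
    let IR := ∫ t, ‖(P0 (1 - t) + hh t * P1 (1 - t)) - hh t * (hh t * P2 t + P3 t)‖ ^ 2 ∂nu
    let S := ∫ t, ‖P0 t‖ ^ 2 ∂nu + ∫ t, ‖P1 t‖ ^ 2 ∂nu + ∫ t, ‖P2 t‖ ^ 2 ∂nu + ∫ t, ‖P3 t‖ ^ 2 ∂nu
    S / 2 ≤ IB + IT + IL + IR ∧ IB + IT + IL + IR ≤ 8 * S := by
  intro IB IT IL IR S
  have ch := continuous_hh
  have hr : Continuous fun t : ℝ => 1 - t := by fun_prop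
  have e1 : IB + IT = 2 * ∫ t, ‖P0 t + hh t * P2 t‖ ^ 2 ∂nu + 2 * ∫ t, ‖P1 t + hh t * P3 t‖ ^ 2 ∂nu := by
    simp only [IB, IT]
    rw [← integral_add (int_cont (by fun_prop)) (int_cont (by fun_prop)),
      ← integral_const_mul, ← integral_const_mul,
      ← integral_add (int_cont (by fun_prop)) (int_cont (by fun_prop))]
    congr 1
    funext t
    rw [← par_law]
    congr 2 <;> congr 1 <;> ring
  have e2 : IL + IR = 2 * ∫ t, ‖P0 t - conj (hh t) * P1 t‖ ^ 2 ∂nu +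
      2 * ∫ t, ‖hh t * P2 t + P3 t‖ ^ 2 ∂nu := by
    have e3 : ∫ t, ‖P0 t - conj (hh t) * P1 t‖ ^ 2 ∂nu =
        ∫ t, ‖P0 (1 - t) + hh t * P1 (1 - t)‖ ^ 2 ∂nu := by
      rw [← int_refl (fun t => ‖P0 t - conj (hh t) * P1 t‖ ^ 2)]
      congr 1
      funext t
      rw [hh_refl]
      congr 2; ring
    have e4 : ∫ t, ‖hh t * P2 t + P3 t‖ ^ 2 ∂nu =
        ∫ t, ‖hh t * (hh t * P2 t + P3 t)‖ ^ 2 ∂nu := by
      congr 1
      funext t
      rw [norm_mul, norm_hh, one_mul]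
    rw [e3, e4]
    simp only [IL, IR]
    rw [← integral_add (int_cont (by fun_prop)) (int_cont (by fun_prop)),
      ← integral_const_mul, ← integral_const_mul,
      ← integral_add (int_cont (by fun_prop)) (int_cont (by fun_prop))]
    congr 1
    funext t
    exact par_law _ _
  have i1 : Integrable (fun t => ‖P0 t + hh t * P2 t‖ ^ 2) nu := int_cont (by fun_prop)
  have i2 : Integrable (fun t => ‖P1 t + hh t * P3 t‖ ^ 2) nu := int_cont (by fun_prop)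
  have i3 : Integrable (fun t => ‖P0 t - conj (hh t) * P1 t‖ ^ 2) nu := int_cont (by fun_prop)
  have i4 : Integrable (fun t => ‖hh t * P2 t + P3 t‖ ^ 2) nu := int_cont (by fun_prop)
  have j0 : Integrable (fun t => ‖P0 t‖ ^ 2) nu := int_cont (by fun_prop)
  have j1 : Integrable (fun t => ‖P1 t‖ ^ 2) nu := int_cont (by fun_prop)
  have j2 : Integrable (fun t => ‖P2 t‖ ^ 2) nu := int_cont (by fun_prop)
  have j3 : Integrable (fun t => ‖P3 t‖ ^ 2) nu := int_cont (by fun_prop)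
  have eS : S = ∫ t, (‖P0 t‖ ^ 2 + ‖P1 t‖ ^ 2 + ‖P2 t‖ ^ 2 + ‖P3 t‖ ^ 2) ∂nu := by
    exact int4 j0 j1 j2 j3
  have eQ : ∫ t, ‖P0 t + hh t * P2 t‖ ^ 2 ∂nu + ∫ t, ‖P1 t + hh t * P3 t‖ ^ 2 ∂nu +
      ∫ t, ‖P0 t - conj (hh t) * P1 t‖ ^ 2 ∂nu + ∫ t, ‖hh t * P2 t + P3 t‖ ^ 2 ∂nu =
      ∫ t, (‖P0 t + hh t * P2 t‖ ^ 2 + ‖P1 t + hh t * P3 t‖ ^ 2 + ‖P0 t - conj (hh t) * P1 t‖ ^ 2 +
        ‖hh t * P2 t + P3 t‖ ^ 2) ∂nu := by
    exact int4 i1 i2 i3 i4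
  have k1 : S ≤ 4 * ∫ t, (‖P0 t + hh t * P2 t‖ ^ 2 + ‖P1 t + hh t * P3 t‖ ^ 2 +
      ‖P0 t - conj (hh t) * P1 t‖ ^ 2 + ‖hh t * P2 t + P3 t‖ ^ 2) ∂nu := by
    rw [eS, ← integral_const_mul]
    refine integral_mono (((j0.add j1).add j2).add j3)
      ((((i1.add i2).add i3).add i4).const_mul 4) fun t => ?_
    exact (quad_hh (P0 t) (P1 t) (P2 t) (P3 t) (hh t) (norm_hh t)).1
  have k2 : ∫ t, (‖P0 t + hh t * P2 t‖ ^ 2 + ‖P1 t + hh t * P3 t‖ ^ 2 +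
      ‖P0 t - conj (hh t) * P1 t‖ ^ 2 + ‖hh t * P2 t + P3 t‖ ^ 2) ∂nu ≤ 4 * S := by
    rw [eS, ← integral_const_mul]
    refine integral_mono (((i1.add i2).add i3).add i4)
      ((((j0.add j1).add j2).add j3).const_mul 4) fun t => ?_
    exact (quad_hh (P0 t) (P1 t) (P2 t) (P3 t) (hh t) (norm_hh t)).2
  rw [← eQ] at k1 k2
  constructor <;> linarith

end Pool.Agent.X147.Sq
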