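import Mathlib
import Pool.Agent.X147.SqC

set_option autoImplicit false

/-! # Exponential Riesz bases on the boundary of a parallelogram: main proof -/

open MeasureTheory Set
open scoped ENNReal Real ComplexConjugate

namespace Pool.Agent.X147.Sq

/-- the exponential `x ↦ exp (2 π i ⟨l, x⟩)` -/
noncomputable def ex (l x : EuclideanSpace ℝ (Fin 2)) : ℂ :=
  Complex.exp (2 * π * Complex.I * (inner ℝ l x : ℝ))

/-- exponential Riesz basis -/
def IsExpRieszBasis (μ : Measure (EuclideanSpace ℝ (Fin 2)))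
    (Λ : Set (EuclideanSpace ℝ (Fin 2))) : Prop :=
  Λ.Countable ∧
  (∀ f : EuclideanSpace ℝ (Fin 2) → ℂ, MemLp f 2 μ → ∀ ε : ℝ≥0∞, 0 < ε →
    ∃ (s : Finset (EuclideanSpace ℝ (Fin 2))) (c : EuclideanSpace ℝ (Fin 2) → ℂ),
      (s : Set (EuclideanSpace ℝ (Fin 2))) ⊆ Λ ∧
      eLpNorm (fun x => f x - ∑ l ∈ s, c l * ex l x) 2 μ < ε) ∧
  ∃ A B : ℝ, 0 < A ∧ A ≤ B ∧
    ∀ (s : Finset (EuclideanSpace ℝ (Fin 2))) (c : EuclideanSpace ℝ (Fin 2) → ℂ),
      (s : Set (EuclideanSpace ℝ (Fin 2))) ⊆ Λ →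
      A * ∑ l ∈ s, ‖c l‖ ^ 2 ≤ ∫ x, ‖∑ l ∈ s, c l * ex l x‖ ^ 2 ∂μ ∧
      ∫ x, ‖∑ l ∈ s, c l * ex l x‖ ^ 2 ∂μ ≤ B * ∑ l ∈ s, ‖c l‖ ^ 2

lemma ex_eq (l x : E2) : ex l x = ee (inner ℝ l x) := rfl

lemma exists_dual {u v : E2} (h : LinearIndependent ℝ ![u, v]) (x y : ℝ) :
    ∃ l : E2, inner ℝ l u = x ∧ inner ℝ l v = y := by
  let L : E2 →ₗ[ℝ] (ℝ × ℝ) := (innerₗ E2 u).prod (innerₗ E2 v)
  have hL : ∀ l, L l = (inner ℝ u l, inner ℝ v l) := fun l => rfl
  have hinj : Function.Injective L := by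
    rw [← LinearMap.ker_eq_bot, LinearMap.ker_eq_bot']
    intro l hl
    rw [hL, Prod.mk_eq_zero] at hl
    have hspan : Submodule.span ℝ (range ![u, v]) = ⊤ := by
      apply h.span_eq_top_of_card_eq_finrank
      simp
    have hmem : l ∈ Submodule.span ℝ (range ![u, v]) := by rw [hspan]; trivial
    have : range ![u, v] = {u, v} := by
      ext z; simp [eq_comm, or_comm]
    rw [this, Submodule.mem_span_pair] at hmem
    obtain ⟨p, q, hpq⟩ := hmem
    have h0 : inner ℝ l l = (0 : ℝ) := by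
      conv_lhs => rw [← hpq]
      rw [inner_add_left, inner_smul_left, inner_smul_left, hpq, hl.1, hl.2]
      simp
    exact inner_self_eq_zero.1 h0
  have hd : Module.finrank ℝ E2 = Module.finrank ℝ (ℝ × ℝ) := by simp
  obtain ⟨l, hl⟩ := (LinearMap.injective_iff_surjective_of_finrank_eq_finrank hd).1 hinj (x, y)
  rw [hL, Prod.mk.injEq] at hl
  exact ⟨l, by rw [real_inner_comm]; exact hl.1, by rw [real_inner_comm]; exact hl.2⟩

section main

variable {a u v : E2}

/-- the four edges -/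
noncomputable def gam (a u v : E2) (i : Fin 4) (t : ℝ) : E2 :=
  ![phi a u v (t, 0), phi a u v (t, 1), phi a u v (0, t), phi a u v (1, t)] i

lemma cont_phi (a u v : E2) : Continuous (phi a u v) := by
  unfold phi; fun_prop

lemma cont_gam (a u v : E2) (i : Fin 4) : Continuous (gam a u v i) := by
  have := cont_phi a u v
  fin_cases i
  · exact this.comp (by fun_prop : Continuous fun t : ℝ => ((t, 0) : ℝ × ℝ))
  · exact this.comp (by fun_prop : Continuous fun t : ℝ => ((t, 1) : ℝ × ℝ))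
  · exact this.comp (by fun_prop : Continuous fun t : ℝ => ((0, t) : ℝ × ℝ))
  · exact this.comp (by fun_prop : Continuous fun t : ℝ => ((1, t) : ℝ × ℝ))

/-- weights of the edges -/
noncomputable def wt (u v : E2) (i : Fin 4) : ℝ := ![‖u‖, ‖u‖, ‖v‖, ‖v‖] i

lemma sigma_sum (h : LinearIndependent ℝ ![u, v]) :
    (Measure.hausdorffMeasure (1 : ℝ) : Measure E2).restrict (frontier (sq a u v)) =
      ∑ i : Fin 4, ENNReal.ofReal (wt u v i) • Measure.map (gam a u v i) nu := by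
  rw [sigma_eq h, Fin.sum_univ_four]
  rfl

lemma wt_pos (h : LinearIndependent ℝ ![u, v]) (i : Fin 4) : 0 < wt u v i := by
  have hu : u ≠ 0 := h.ne_zero 0
  have hv : v ≠ 0 := h.ne_zero 1
  fin_cases i <;> simp [wt, hu, hv]

lemma integral_sigma (h : LinearIndependent ℝ ![u, v]) {F : E2 → ℝ} (hF : Continuous F) :
    ∫ x, F x ∂((Measure.hausdorffMeasure (1 : ℝ) : Measure E2).restrict (frontier (sq a u v))) =
      ∑ i : Fin 4, wt u v i * ∫ t, F (gam a u v i t) ∂nu := by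
  rw [sigma_sum h, integral_finsetSum_measure]
  · refine Finset.sum_congr rfl fun i _ => ?_
    rw [integral_smul_measure, ENNReal.toReal_ofReal (wt_pos h i).le, smul_eq_mul,
      integral_map (cont_gam a u v i).aemeasurable hF.aestronglyMeasurable]
  · intro i _
    refine Integrable.smul_measure ?_ ENNReal.ofReal_ne_top
    rw [integrable_map_measure hF.aestronglyMeasurable (cont_gam a u v i).aemeasurable]
    exact int_cont (hF.comp (cont_gam a u v i))

/-- The frequencies. -/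
structure Freq (u v : E2) where
  lam : Fin 4 → ℤ → E2
  h1 : ∀ j n, inner ℝ (lam j n) u = al j n
  h2 : ∀ j n, inner ℝ (lam j n) v = be j n

lemma exists_freq (h : LinearIndependent ℝ ![u, v]) : Nonempty (Freq u v) := by
  choose f hf1 hf2 using fun (j : Fin 4) (n : ℤ) => exists_dual h (al j n) (be j n)
  exact ⟨⟨f, hf1, hf2⟩⟩

namespace Freq

variable (Fr : Freq u v)

/-- the frequencies as a map of pairs -/
def L (p : Fin 4 × ℤ) : E2 := Fr.lam p.1 p.2

lemma inj : Function.Injective Fr.L := by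
  intro p q hpq
  have e1 : al p.1 p.2 = al q.1 q.2 := by
    rw [← Fr.h1, ← Fr.h1]; exact congrArg (fun l => inner ℝ l u) hpq
  have e2 : be p.1 p.2 = be q.1 q.2 := by
    rw [← Fr.h2, ← Fr.h2]; exact congrArg (fun l => inner ℝ l v) hpq
  exact al_be_inj e1 e2

lemma ex_phi (a : E2) (p : Fin 4 × ℤ) (x y : ℝ) :
    ex (Fr.L p) (phi a u v (x, y)) = ee (inner ℝ (Fr.L p) a) * ee (al p.1 p.2 * x + be p.1 p.2 * y) := by
  rw [ex_eq, phi, inner_add_right, inner_add_right, inner_smul_right, inner_smul_right]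
  rw [show inner ℝ (Fr.L p) u = al p.1 p.2 from Fr.h1 _ _,
    show inner ℝ (Fr.L p) v = be p.1 p.2 from Fr.h2 _ _, ← ee_add]
  congr 1
  ring

/-- a sum over frequencies as a double sum -/
lemma sum_eq (a : E2) (t : Finset (Fin 4 × ℤ)) (c : Fin 4 × ℤ → ℂ) (x y : ℝ) :
    ∑ p ∈ t, c p * ex (Fr.L p) (phi a u v (x, y)) =
      GG (t.image Prod.snd) (fun j n => if (j, n) ∈ t then c (j, n) * ee (inner ℝ (Fr.L (j, n)) a)
        else 0) x y := by
  classical
  unfold GG
  rw [← Finset.sum_product']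
  have hsub : t ⊆ Finset.univ ×ˢ t.image Prod.snd := by
    intro p hp
    simp only [Finset.mem_product, Finset.mem_univ, true_and]
    exact Finset.mem_image_of_mem _ hp
  rw [← Finset.sum_subset hsub]
  · refine Finset.sum_congr rfl fun p hp => ?_
    obtain ⟨j, n⟩ := p
    rw [Fr.ex_phi]
    simp only [if_pos hp]
    ring
  · intro p _ hp
    obtain ⟨j, n⟩ := p
    simp only [if_neg hp, zero_mul]

/-- the coefficient family -/
noncomputable def co (a : E2) (t : Finset (Fin 4 × ℤ)) (c : Fin 4 × ℤ → ℂ) (j : Fin 4) (n : ℤ) :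
    ℂ := by
  classical
  exact if (j, n) ∈ t then c (j, n) * ee (inner ℝ (Fr.L (j, n)) a) else 0

lemma sum_co (a : E2) (t : Finset (Fin 4 × ℤ)) (c : Fin 4 × ℤ → ℂ) :
    ∑ j : Fin 4, ∑ n ∈ t.image Prod.snd, ‖Fr.co a t c j n‖ ^ 2 = ∑ p ∈ t, ‖c p‖ ^ 2 := by
  classical
  rw [← Finset.sum_product']
  have hsub : t ⊆ Finset.univ ×ˢ t.image Prod.snd := by
    intro p hp
    simp only [Finset.mem_product, Finset.mem_univ, true_and]
    exact Finset.mem_image_of_mem _ hp
  rw [← Finset.sum_subset hsub]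
  · refine Finset.sum_congr rfl fun p hp => ?_
    obtain ⟨j, n⟩ := p
    simp only [co, if_pos hp, norm_mul, norm_ee, mul_one]
  · intro p _ hp
    obtain ⟨j, n⟩ := p
    simp [co, if_neg hp]

/-- the two bounds for finite sums indexed by pairs -/
lemma bounds (h : LinearIndependent ℝ ![u, v]) (a : E2) (t : Finset (Fin 4 × ℤ))
    (c : Fin 4 × ℤ → ℂ) :
    min ‖u‖ ‖v‖ / 2 * ∑ p ∈ t, ‖c p‖ ^ 2 ≤
      ∫ x, ‖∑ p ∈ t, c p * ex (Fr.L p) x‖ ^ 2
        ∂((Measure.hausdorffMeasure (1 : ℝ) : Measure E2).restrict (frontier (sq a u v))) ∧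
    ∫ x, ‖∑ p ∈ t, c p * ex (Fr.L p) x‖ ^ 2
        ∂((Measure.hausdorffMeasure (1 : ℝ) : Measure E2).restrict (frontier (sq a u v))) ≤
      8 * max ‖u‖ ‖v‖ * ∑ p ∈ t, ‖c p‖ ^ 2 := by
  classical
  have hcont : Continuous fun x => ‖∑ p ∈ t, c p * ex (Fr.L p) x‖ ^ 2 := by
    refine Continuous.pow (Continuous.norm (continuous_finsetSum _ fun p _ => ?_)) 2
    refine continuous_const.mul ?_
    unfold ex
    fun_prop
  rw [integral_sigma h hcont, Fin.sum_univ_four]
  have hs : ∀ x y : ℝ, ∑ p ∈ t, c p * ex (Fr.L p) (phi a u v (x, y)) =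
      GG (t.image Prod.snd) (Fr.co a t c) x y := by
    intro x y
    rw [Fr.sum_eq a t c x y]
    rfl
  have g0 : ∀ r, gam a u v 0 r = phi a u v (r, 0) := fun r => rfl
  have g1 : ∀ r, gam a u v 1 r = phi a u v (r, 1) := fun r => rfl
  have g2 : ∀ r, gam a u v 2 r = phi a u v (0, r) := fun r => rfl
  have g3 : ∀ r, gam a u v 3 r = phi a u v (1, r) := fun r => rfl
  simp only [g0, g1, g2, g3, hs, GG_B, GG_T, GG_L, GG_R]
  have hw0 : wt u v 0 = ‖u‖ := rfl
  have hw1 : wt u v 1 = ‖u‖ := rfl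
  have hw2 : wt u v 2 = ‖v‖ := rfl
  have hw3 : wt u v 3 = ‖v‖ := rfl
  rw [hw0, hw1, hw2, hw3]
  have key := int_bounds (trig (t.image Prod.snd) (Fr.co a t c 0)) (trig (t.image Prod.snd) (Fr.co a t c 1))
    (trig (t.image Prod.snd) (Fr.co a t c 2)) (trig (t.image Prod.snd) (Fr.co a t c 3))
    (continuous_trig _ _) (continuous_trig _ _) (continuous_trig _ _) (continuous_trig _ _)
  simp only [parseval] at key
  have hS := Fr.sum_co a t c
  rw [Fin.sum_univ_four] at hS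
  rw [hS] at key
  obtain ⟨k1, k2⟩ := key
  have nn : ∀ f : ℝ → ℂ, 0 ≤ ∫ r, ‖f r‖ ^ 2 ∂nu := fun f =>
    integral_nonneg fun r => by positivity
  have n1 := nn fun r => trig (t.image Prod.snd) (Fr.co a t c 0) r +
    trig (t.image Prod.snd) (Fr.co a t c 1) r + hh r * (trig (t.image Prod.snd) (Fr.co a t c 2) r +
      trig (t.image Prod.snd) (Fr.co a t c 3) r)
  have n2 := nn fun r => trig (t.image Prod.snd) (Fr.co a t c 0) r -
    trig (t.image Prod.snd) (Fr.co a t c 1) r + hh r * (trig (t.image Prod.snd) (Fr.co a t c 2) r -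
      trig (t.image Prod.snd) (Fr.co a t c 3) r)
  have n3 := nn fun r => trig (t.image Prod.snd) (Fr.co a t c 0) (1 - r) +
    hh r * trig (t.image Prod.snd) (Fr.co a t c 1) (1 - r) +
      hh r * (hh r * trig (t.image Prod.snd) (Fr.co a t c 2) r +
      trig (t.image Prod.snd) (Fr.co a t c 3) r)
  have n4 := nn fun r => trig (t.image Prod.snd) (Fr.co a t c 0) (1 - r) +
    hh r * trig (t.image Prod.snd) (Fr.co a t c 1) (1 - r) -
      hh r * (hh r * trig (t.image Prod.snd) (Fr.co a t c 2) r +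
      trig (t.image Prod.snd) (Fr.co a t c 3) r)
  have m1 : min ‖u‖ ‖v‖ ≤ ‖u‖ := min_le_left _ _
  have m2 : min ‖u‖ ‖v‖ ≤ ‖v‖ := min_le_right _ _
  have m3 : ‖u‖ ≤ max ‖u‖ ‖v‖ := le_max_left _ _
  have m4 : ‖v‖ ≤ max ‖u‖ ‖v‖ := le_max_right _ _
  have m0 : 0 ≤ min ‖u‖ ‖v‖ := le_min (norm_nonneg _) (norm_nonneg _)
  have m5 : 0 ≤ max ‖u‖ ‖v‖ := (norm_nonneg u).trans m3
  generalize min ‖u‖ ‖v‖ = mm at *
  generalize max ‖u‖ ‖v‖ = MM at *
  constructor
  · have := mul_le_mul_of_nonneg_left k1 m0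
    have q1 := mul_le_mul_of_nonneg_right m1 n1
    have q2 := mul_le_mul_of_nonneg_right m1 n2
    have q3 := mul_le_mul_of_nonneg_right m2 n3
    have q4 := mul_le_mul_of_nonneg_right m2 n4
    linarith
  · have := mul_le_mul_of_nonneg_left k2 m5
    have q1 := mul_le_mul_of_nonneg_right m3 n1
    have q2 := mul_le_mul_of_nonneg_right m3 n2
    have q3 := mul_le_mul_of_nonneg_right m4 n3
    have q4 := mul_le_mul_of_nonneg_right m4 n4
    linarith

end Freq

end main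

end Pool.Agent.X147.Sq
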