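import Mathlib
import Pool.Agent.X147.SqD

set_option autoImplicit false

/-! # Density of the exponentials -/

open MeasureTheory Set
open scoped ENNReal Real ComplexConjugate

namespace Pool.Agent.X147.Sq

lemma eLpNorm_add_measure {α : Type*} [MeasurableSpace α] (g : α → ℂ) (m1 m2 : Measure α) :
    eLpNorm g 2 (m1 + m2) ≤ eLpNorm g 2 m1 + eLpNorm g 2 m2 := by
  rw [eLpNorm_eq_lintegral_rpow_enorm_toReal (by simp) (by simp),
    eLpNorm_eq_lintegral_rpow_enorm_toReal (by simp) (by simp),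
    eLpNorm_eq_lintegral_rpow_enorm_toReal (by simp) (by simp), lintegral_add_measure]
  exact ENNReal.rpow_add_le_add_rpow _ _ (by simp) (by norm_num)

lemma memLp_unimod {g : ℝ → ℂ} (hg : MemLp g 2 nu) {k : ℝ → ℂ} (hk : Continuous k)
    (hn : ∀ t, ‖k t‖ = 1) : MemLp (fun t => k t * g t) 2 nu :=
  hg.congr_norm (hk.aestronglyMeasurable.mul hg.1)
    (Filter.Eventually.of_forall fun t => by simp [hn])

lemma eLpNorm_unimod (g : ℝ → ℂ) {k : ℝ → ℂ} (hn : ∀ t, ‖k t‖ = 1) :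
    eLpNorm (fun t => k t * g t) 2 nu = eLpNorm g 2 nu :=
  eLpNorm_congr_norm_ae (Filter.Eventually.of_forall fun t => by simp [hn])

lemma memLp_refl {g : ℝ → ℂ} (hg : MemLp g 2 nu) : MemLp (fun t => g (1 - t)) 2 nu :=
  hg.comp_measurePreserving mp_refl

lemma eLpNorm_refl {g : ℝ → ℂ} (hg : MemLp g 2 nu) :
    eLpNorm (fun t => g (1 - t)) 2 nu = eLpNorm g 2 nu :=
  eLpNorm_comp_measurePreserving hg.1 mp_refl

lemma four {a b c d : ℝ → ℂ} {δ : ℝ≥0∞} (ha : MemLp a 2 nu) (hb : MemLp b 2 nu)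
    (hc : MemLp c 2 nu) (hd : MemLp d 2 nu) (ea : eLpNorm a 2 nu ≤ δ) (eb : eLpNorm b 2 nu ≤ δ)
    (ec : eLpNorm c 2 nu ≤ δ) (ed : eLpNorm d 2 nu ≤ δ) :
    eLpNorm (fun t => a t + b t + c t + d t) 2 nu ≤ 4 * δ := by
  have h1 : eLpNorm (a + b + c + d) 2 nu ≤ eLpNorm (a + b + c) 2 nu + eLpNorm d 2 nu :=
    eLpNorm_add_le ((ha.add hb).add hc).1 hd.1 (by norm_num)
  have h2 : eLpNorm (a + b + c) 2 nu ≤ eLpNorm (a + b) 2 nu + eLpNorm c 2 nu :=
    eLpNorm_add_le (ha.add hb).1 hc.1 (by norm_num)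
  have h3 : eLpNorm (a + b) 2 nu ≤ eLpNorm a 2 nu + eLpNorm b 2 nu :=
    eLpNorm_add_le ha.1 hb.1 (by norm_num)
  calc eLpNorm (fun t => a t + b t + c t + d t) 2 nu = eLpNorm (a + b + c + d) 2 nu := rfl
    _ ≤ δ + δ + δ + δ := by
        refine h1.trans (add_le_add (h2.trans (add_le_add (h3.trans (add_le_add ea eb)) ec)) ed)
    _ = 4 * δ := by ring

lemma memLp_trig (s : Finset ℤ) (c : ℤ → ℂ) : MemLp (trig s c) 2 nu := by
  refine MemLp.of_bound (continuous_trig s c).aestronglyMeasurable (∑ n ∈ s, ‖c n‖)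
    (Filter.Eventually.of_forall fun t => ?_)
  refine (norm_sum_le _ _).trans (Finset.sum_le_sum fun n _ => ?_)
  rw [norm_mul, en_ee, norm_ee, mul_one]

lemma approx_common {p : Fin 4 → ℝ → ℂ} (hp : ∀ j, MemLp (p j) 2 nu) {δ : ℝ≥0∞} (hδ : δ ≠ 0) :
    ∃ (N : Finset ℤ) (d : Fin 4 → ℤ → ℂ), ∀ j, eLpNorm (fun t => p j t - trig N (d j) t) 2 nu ≤ δ := by
  classical
  choose s c hsc using fun j => approx (hp j) hδ
  refine ⟨Finset.univ.biUnion s, fun j n => if n ∈ s j then c j n else 0, fun j => ?_⟩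
  have : trig (Finset.univ.biUnion s) (fun n => if n ∈ s j then c j n else 0) = trig (s j) (c j) := by
    funext t
    unfold trig
    have hsub : s j ⊆ Finset.univ.biUnion s := Finset.subset_biUnion_of_mem s (Finset.mem_univ j)
    rw [← Finset.sum_subset hsub]
    · refine Finset.sum_congr rfl fun n hn => ?_
      simp only [if_pos hn]
    · intro n _ hn
      simp only [if_neg hn, zero_mul]
  rw [this]
  exact (hsc j).le

/-- Approximation on the four edges simultaneously. -/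
lemma core {fB fT fL fR : ℝ → ℂ} (hB : MemLp fB 2 nu) (hT : MemLp fT 2 nu) (hL : MemLp fL 2 nu)
    (hR : MemLp fR 2 nu) {δ : ℝ≥0∞} (hδ : δ ≠ 0) :
    ∃ (N : Finset ℤ) (d : Fin 4 → ℤ → ℂ),
      eLpNorm (fun t => fB t - GG N d t 0) 2 nu ≤ 4 * δ ∧
      eLpNorm (fun t => fT t - GG N d t 1) 2 nu ≤ 4 * δ ∧
      eLpNorm (fun t => fL t - GG N d 0 t) 2 nu ≤ 4 * δ ∧
      eLpNorm (fun t => fR t - GG N d 1 t) 2 nu ≤ 4 * δ := by
  have ch := continuous_hh
  have cc : Continuous fun t => conj (hh t) := Complex.continuous_conj.comp ch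
  have nc : ∀ t, ‖conj (hh t)‖ = 1 := fun t => by rw [RCLike.norm_conj, norm_hh]
  let y1 : ℝ → ℂ := fun t => (1 / 2) * (fB t + fT t)
  let y2 : ℝ → ℂ := fun t => conj (hh t) * ((1 / 2) * (fB t - fT t))
  let y3 : ℝ → ℂ := fun t => (1 / 2) * (fL (1 - t) + fR (1 - t))
  let y4 : ℝ → ℂ := fun t => conj (hh t) * ((1 / 2) * (fL t - fR t))
  have m1 : MemLp y1 2 nu := (hB.add hT).const_mul (1 / 2)
  have m2 : MemLp y2 2 nu := memLp_unimod ((hB.sub hT).const_mul (1 / 2)) cc nc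
  have m3 : MemLp y3 2 nu := ((memLp_refl hL).add (memLp_refl hR)).const_mul (1 / 2)
  have m4 : MemLp y4 2 nu := memLp_unimod ((hL.sub hR).const_mul (1 / 2)) cc nc
  let p0 : ℝ → ℂ := fun t => (1 / 2) * (y1 t + y2 t + y3 t - y4 t)
  let p1 : ℝ → ℂ := fun t => hh t * ((1 / 2) * (y1 t + y2 t - y3 t - y4 t))
  let p2 : ℝ → ℂ := fun t => conj (hh t) * ((1 / 2) * (y1 t - y2 t - y3 t + y4 t))
  let p3 : ℝ → ℂ := fun t => (1 / 2) * (y2 t - y1 t + y3 t + y4 t)
  have q0 : MemLp p0 2 nu := (((m1.add m2).add m3).sub m4).const_mul (1 / 2)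
  have q1 : MemLp p1 2 nu := memLp_unimod ((((m1.add m2).sub m3).sub m4).const_mul (1 / 2)) ch norm_hh
  have q2 : MemLp p2 2 nu := memLp_unimod ((((m1.sub m2).sub m3).add m4).const_mul (1 / 2)) cc nc
  have q3 : MemLp p3 2 nu := (((m2.sub m1).add m3).add m4).const_mul (1 / 2)
  obtain ⟨N, d, hd⟩ := approx_common (p := ![p0, p1, p2, p3])
    (fun j => by fin_cases j; exacts [q0, q1, q2, q3]) hδ
  have d0 : eLpNorm (fun t => p0 t - trig N (d 0) t) 2 nu ≤ δ := hd 0
  have d1 : eLpNorm (fun t => p1 t - trig N (d 1) t) 2 nu ≤ δ := hd 1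
  have d2 : eLpNorm (fun t => p2 t - trig N (d 2) t) 2 nu ≤ δ := hd 2
  have d3 : eLpNorm (fun t => p3 t - trig N (d 3) t) 2 nu ≤ δ := hd 3
  let r0 : ℝ → ℂ := fun t => p0 t - trig N (d 0) t
  let r1 : ℝ → ℂ := fun t => p1 t - trig N (d 1) t
  let r2 : ℝ → ℂ := fun t => p2 t - trig N (d 2) t
  let r3 : ℝ → ℂ := fun t => p3 t - trig N (d 3) t
  have s0 : MemLp r0 2 nu := q0.sub (memLp_trig _ _)
  have s1 : MemLp r1 2 nu := q1.sub (memLp_trig _ _)
  have s2 : MemLp r2 2 nu := q2.sub (memLp_trig _ _)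
  have s3 : MemLp r3 2 nu := q3.sub (memLp_trig _ _)
  have hHK : ∀ t, hh t * conj (hh t) = 1 := hh_mul_conj
  have none : ∀ t : ℝ, ‖(-1 : ℂ)‖ = 1 := fun t => by simp
  have nneg : ∀ t : ℝ, ‖- hh t‖ = 1 := fun t => by rw [norm_neg, norm_hh]
  have nsq : ∀ t : ℝ, ‖hh t * hh t‖ = 1 := fun t => by rw [norm_mul, norm_hh, one_mul]
  have nsqn : ∀ t : ℝ, ‖-(hh t * hh t)‖ = 1 := fun t => by rw [norm_neg, norm_mul, norm_hh, one_mul]
  refine ⟨N, d, ?_, ?_, ?_, ?_⟩
  · have : (fun t => fB t - GG N d t 0) = fun t => r0 t + r1 t + hh t * r2 t + hh t * r3 t := by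
      funext t
      rw [GG_B]
      simp only [r0, r1, r2, r3, p0, p1, p2, p3, y1, y2]
      have := hHK t
      linear_combination (-(1/2) * (y1 t - y2 t - y3 t + y4 t) - (1/2) * (fB t - fT t)) * this
    rw [this]
    exact four s0 s1 (memLp_unimod s2 ch norm_hh) (memLp_unimod s3 ch norm_hh) d0 d1
      ((eLpNorm_unimod _ norm_hh).trans_le d2) ((eLpNorm_unimod _ norm_hh).trans_le d3)
  · have : (fun t => fT t - GG N d t 1) = fun t => r0 t + (-1) * r1 t + hh t * r2 t + (-hh t) * r3 t := by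
      funext t
      rw [GG_T]
      simp only [r0, r1, r2, r3, p0, p1, p2, p3, y1, y2]
      have := hHK t
      linear_combination (-(1/2) * (y1 t - y2 t - y3 t + y4 t) + (1/2) * (fB t - fT t)) * this
    rw [this]
    exact four s0 (memLp_unimod s1 continuous_const none) (memLp_unimod s2 ch norm_hh)
      (memLp_unimod s3 ch.neg nneg) d0
      ((eLpNorm_unimod _ none).trans_le d1)
      ((eLpNorm_unimod _ norm_hh).trans_le d2) ((eLpNorm_unimod _ nneg).trans_le d3)
  · have : (fun t => fL t - GG N d 0 t) = fun t => r0 (1 - t) + hh t * r1 (1 - t) +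
        (hh t * hh t) * r2 t + hh t * r3 t := by
      funext t
      rw [GG_L]
      simp only [r0, r1, r2, r3, p0, p1, p2, p3]
      have h1 := hHK t
      have h2 := hHK (1 - t)
      rw [hh_refl] at h2
      have e3 : y3 (1 - t) = (1 / 2) * (fL t + fR t) := by
        simp only [y3]; rw [show 1 - (1 - t) = t by ring]
      have e4 : y4 t = conj (hh t) * ((1 / 2) * (fL t - fR t)) := rfl
      rw [e3, e4]
      linear_combination (-(1/2) * hh t * (y1 t - y2 t - y3 t + conj (hh t) * ((1 / 2) * (fL t - fR t))) -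
        (1/2) * (fL t - fR t)) * h1 +
        ((1/2) * (y1 (1 - t) + y2 (1 - t) - (1 / 2) * (fL t + fR t) - y4 (1 - t))) * h2
    rw [this]
    exact four (memLp_refl s0) (memLp_unimod (memLp_refl s1) ch norm_hh)
      (memLp_unimod s2 (ch.mul ch) nsq) (memLp_unimod s3 ch norm_hh)
      ((eLpNorm_refl s0).trans_le d0)
      ((eLpNorm_unimod _ norm_hh).trans_le ((eLpNorm_refl s1).trans_le d1))
      ((eLpNorm_unimod _ nsq).trans_le d2) ((eLpNorm_unimod _ norm_hh).trans_le d3)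
  · have : (fun t => fR t - GG N d 1 t) = fun t => r0 (1 - t) + hh t * r1 (1 - t) +
        (-(hh t * hh t)) * r2 t + (-hh t) * r3 t := by
      funext t
      rw [GG_R]
      simp only [r0, r1, r2, r3, p0, p1, p2, p3]
      have h1 := hHK t
      have h2 := hHK (1 - t)
      rw [hh_refl] at h2
      have e3 : y3 (1 - t) = (1 / 2) * (fL t + fR t) := by
        simp only [y3]; rw [show 1 - (1 - t) = t by ring]
      have e4 : y4 t = conj (hh t) * ((1 / 2) * (fL t - fR t)) := rfl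
      rw [e3, e4]
      linear_combination ((1/2) * hh t * (y1 t - y2 t - y3 t + conj (hh t) * ((1 / 2) * (fL t - fR t))) +
        (1/2) * (fL t - fR t)) * h1 +
        ((1/2) * (y1 (1 - t) + y2 (1 - t) - (1 / 2) * (fL t + fR t) - y4 (1 - t))) * h2
    rw [this]
    exact four (memLp_refl s0) (memLp_unimod (memLp_refl s1) ch norm_hh)
      (memLp_unimod s2 (ch.mul ch).neg nsqn) (memLp_unimod s3 ch.neg nneg)
      ((eLpNorm_refl s0).trans_le d0)
      ((eLpNorm_unimod _ norm_hh).trans_le ((eLpNorm_refl s1).trans_le d1))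
      ((eLpNorm_unimod _ nsqn).trans_le d2) ((eLpNorm_unimod _ nneg).trans_le d3)

lemma exists_delta {K ε : ℝ≥0∞} (hK : K ≠ ⊤) (hε : 0 < ε) : ∃ δ : ℝ≥0∞, δ ≠ 0 ∧ K * δ < ε := by
  obtain ⟨e, he0, he⟩ := ENNReal.lt_iff_exists_nnreal_btwn.1 hε
  lift K to NNReal using hK
  have he0' : 0 < e := by exact_mod_cast he0
  refine ⟨((e / (K + 1) : NNReal) : ℝ≥0∞), ?_, ?_⟩
  · have : 0 < e / (K + 1) := by positivity
    exact_mod_cast this.ne'
  · refine lt_of_le_of_lt ?_ he
    have : K * (e / (K + 1)) ≤ e := by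
      rw [← mul_div_assoc, div_le_iff₀ (by positivity)]
      calc K * e = e * K := mul_comm _ _
        _ ≤ e * (K + 1) := by gcongr; exact le_add_of_nonneg_right zero_le_one
    exact_mod_cast this

lemma density {a u v : E2} (h : LinearIndependent ℝ ![u, v]) (Fr : Freq u v) {f : E2 → ℂ}
    (hf : MemLp f 2 ((Measure.hausdorffMeasure (1 : ℝ) : Measure E2).restrict
      (frontier (sq a u v)))) {ε : ℝ≥0∞} (hε : 0 < ε) :
    ∃ (t : Finset (Fin 4 × ℤ)) (c : Fin 4 × ℤ → ℂ),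
      eLpNorm (fun x => f x - ∑ p ∈ t, c p * ex (Fr.L p) x) 2
        ((Measure.hausdorffMeasure (1 : ℝ) : Measure E2).restrict (frontier (sq a u v))) < ε := by
  classical
  rw [sigma_sum h] at hf ⊢
  have hmap : ∀ i, MemLp f 2 (Measure.map (gam a u v i) nu) := by
    intro i
    refine MemLp.of_measure_le_smul (c := (ENNReal.ofReal (wt u v i))⁻¹) ?_ ?_ hf
    · exact ENNReal.inv_ne_top.2 (ENNReal.ofReal_pos.2 (wt_pos h i)).ne'
    · have h1 : Measure.map (gam a u v i) nu = (ENNReal.ofReal (wt u v i))⁻¹ •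
          (ENNReal.ofReal (wt u v i) • Measure.map (gam a u v i) nu) := by
        rw [smul_smul, ENNReal.inv_mul_cancel (ENNReal.ofReal_pos.2 (wt_pos h i)).ne'
          ENNReal.ofReal_ne_top, one_smul]
      rw [h1]
      refine Measure.le_iff'.2 fun s => ?_
      simp only [Measure.smul_apply, smul_eq_mul]
      gcongr
      rw [Measure.finsetSum_apply]
      exact Finset.single_le_sum (f := fun i => (ENNReal.ofReal (wt u v i) •
        Measure.map (gam a u v i) nu) s) (fun _ _ => bot_le) (Finset.mem_univ i)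
  have hcomp : ∀ i, MemLp (fun t => f (gam a u v i t)) 2 nu := fun i =>
    (hmap i).comp_of_map (cont_gam a u v i).aemeasurable
  let K : ℝ≥0∞ := (∑ i : Fin 4, ENNReal.ofReal (wt u v i) ^ (1 / (2 : ℝ≥0∞)).toReal) * 4
  have hK : K ≠ ⊤ := by
    refine ENNReal.mul_ne_top ?_ (by norm_num)
    refine (ENNReal.sum_lt_top.2 fun i _ => ?_).ne
    exact ENNReal.rpow_lt_top_of_nonneg (by positivity) ENNReal.ofReal_ne_top
  obtain ⟨δ, hδ0, hδ⟩ := exists_delta hK hε
  obtain ⟨N, d, c0, c1, c2, c3⟩ := core (hcomp 0) (hcomp 1) (hcomp 2) (hcomp 3) hδ0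
  refine ⟨Finset.univ ×ˢ N, fun p => d p.1 p.2 * conj (ee (inner ℝ (Fr.L p) a)), ?_⟩
  set F : E2 → ℂ := fun x => ∑ p ∈ Finset.univ ×ˢ N,
    (d p.1 p.2 * conj (ee (inner ℝ (Fr.L p) a))) * ex (Fr.L p) x with hF
  have hFc : Continuous F := by
    rw [hF]
    refine continuous_finsetSum _ fun p _ => continuous_const.mul ?_
    unfold ex
    fun_prop
  have hFphi : ∀ x y : ℝ, F (phi a u v (x, y)) = GG N d x y := by
    intro x y
    rw [hF]
    simp only
    rw [Finset.sum_product]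
    unfold GG
    refine Finset.sum_congr rfl fun j _ => Finset.sum_congr rfl fun n _ => ?_
    rw [Fr.ex_phi]
    have hone : ee (inner ℝ (Fr.L (j, n)) a) * conj (ee (inner ℝ (Fr.L (j, n)) a)) = 1 := by
      rw [Complex.mul_conj, Complex.normSq_eq_norm_sq, norm_ee]; simp
    linear_combination (d j n * ee (al j n * x + be j n * y)) * hone
  have hedge : ∀ i, eLpNorm (fun x => f x - F x) 2 (Measure.map (gam a u v i) nu) ≤ 4 * δ := by
    intro i
    change eLpNorm (f - F) 2 _ ≤ _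
    rw [eLpNorm_map_measure ((hmap i).1.sub hFc.aestronglyMeasurable)
      (cont_gam a u v i).aemeasurable]
    have e : ((f - F) ∘ gam a u v i) = fun t => f (gam a u v i t) - F (gam a u v i t) := rfl
    rw [e]
    fin_cases i
    · have g : ∀ t, F (gam a u v 0 t) = GG N d t 0 := fun t => hFphi t 0
      simp only [Fin.zero_eta, Fin.isValue, g]
      exact c0
    · have g : ∀ t, F (gam a u v 1 t) = GG N d t 1 := fun t => hFphi t 1
      simp only [Fin.mk_one, Fin.isValue, g]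
      exact c1
    · have g : ∀ t, F (gam a u v 2 t) = GG N d 0 t := fun t => hFphi 0 t
      simp only [Fin.reduceFinMk, Fin.isValue, g]
      exact c2
    · have g : ∀ t, F (gam a u v 3 t) = GG N d 1 t := fun t => hFphi 1 t
      simp only [Fin.reduceFinMk, Fin.isValue, g]
      exact c3
  refine lt_of_le_of_lt ?_ hδ
  have hsm : ∀ i, eLpNorm (fun x => f x - F x) 2 (ENNReal.ofReal (wt u v i) •
      Measure.map (gam a u v i) nu) ≤ ENNReal.ofReal (wt u v i) ^ (1 / (2 : ℝ≥0∞)).toReal * (4 * δ) := by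
    intro i
    rw [eLpNorm_smul_measure_of_ne_top (by simp)]
    simp only [smul_eq_mul]
    gcongr
    exact hedge i
  rw [Fin.sum_univ_four]
  refine (eLpNorm_add_measure _ _ _).trans ((add_le_add_left ((eLpNorm_add_measure _ _ _).trans
    (add_le_add_left (eLpNorm_add_measure _ _ _) _)) _).trans ?_)
  refine (add_le_add (add_le_add (add_le_add (hsm 0) (hsm 1)) (hsm 2)) (hsm 3)).trans (le_of_eq ?_)
  simp only [K, Fin.sum_univ_four]
  ring

/-- Main theorem: the length measure on the boundary of a parallelogram has an exponential Riesz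
basis. -/
theorem main (a : E2) {u v : E2} (h : LinearIndependent ℝ ![u, v]) :
    ∃ Λ : Set E2, IsExpRieszBasis ((Measure.hausdorffMeasure (1 : ℝ) : Measure E2).restrict
      (frontier (sq a u v))) Λ := by
  classical
  obtain ⟨Fr⟩ := exists_freq h
  have hu : 0 < ‖u‖ := norm_pos_iff.2 (h.ne_zero 0)
  have hv : 0 < ‖v‖ := norm_pos_iff.2 (h.ne_zero 1)
  refine ⟨range Fr.L, countable_range _, ?_, min ‖u‖ ‖v‖ / 2, 8 * max ‖u‖ ‖v‖, ?_, ?_, ?_⟩
  · intro f hf ε hε
    obtain ⟨t, c, htc⟩ := density h Fr hf hε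
    refine ⟨t.image Fr.L, Function.extend Fr.L c 0, ?_, ?_⟩
    · intro x hx
      simp only [Finset.coe_image, mem_image] at hx
      obtain ⟨p, -, rfl⟩ := hx
      exact mem_range_self p
    · convert htc using 3 with x
      rw [Finset.sum_image (fun p _ q _ hpq => Fr.inj hpq)]
      congr 1
      refine Finset.sum_congr rfl fun p _ => ?_
      rw [Fr.inj.extend_apply]
  · have : 0 < min ‖u‖ ‖v‖ := lt_min hu hv
    positivity
  · have h1 : min ‖u‖ ‖v‖ ≤ max ‖u‖ ‖v‖ := min_le_max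
    have h2 : 0 < min ‖u‖ ‖v‖ := lt_min hu hv
    linarith
  · intro s c hs
    have hinj : Set.InjOn Fr.L (Fr.L ⁻¹' (s : Set E2)) := Fr.inj.injOn
    have e : ∀ g : E2 → ℂ, ∑ l ∈ s, g l = ∑ p ∈ s.preimage Fr.L hinj, g (Fr.L p) := fun g =>
      (Finset.sum_preimage Fr.L s hinj g (fun x hx hx' => absurd (hs hx) hx')).symm
    have e' : ∀ g : E2 → ℝ, ∑ l ∈ s, g l = ∑ p ∈ s.preimage Fr.L hinj, g (Fr.L p) := fun g =>
      (Finset.sum_preimage Fr.L s hinj g (fun x hx hx' => absurd (hs hx) hx')).symm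
    have key := Fr.bounds h a (s.preimage Fr.L hinj) (fun p => c (Fr.L p))
    rw [e' fun l => ‖c l‖ ^ 2]
    have e2 : ∀ x, ∑ l ∈ s, c l * ex l x = ∑ p ∈ s.preimage Fr.L hinj, c (Fr.L p) * ex (Fr.L p) x :=
      fun x => e fun l => c l * ex l x
    simp only [e2]
    exact key

end Pool.Agent.X147.Sq
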