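import Mathlib

set_option autoImplicit false

/-! # Length of curves on spheres -/

open Set Filter Topology EuclideanGeometry

namespace Pool.Agent.X147.SV

variable {E : Type*} [NormedAddCommGroup E] [InnerProductSpace ℝ E]

lemma chord {O X Y : E} {R : ℝ} (hR : 0 < R) (hX : dist X O = R) (hY : dist Y O = R) :
    dist X Y = 2 * R * Real.sin (∠ X O Y / 2) := by
  have h := EuclideanGeometry.law_cos X O Y
  have h1 : 0 ≤ ∠ X O Y := angle_nonneg _ _ _
  have h2 : ∠ X O Y ≤ Real.pi := angle_le_pi _ _ _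
  have h3 : 0 ≤ Real.sin (∠ X O Y / 2) :=
    Real.sin_nonneg_of_nonneg_of_le_pi (by linarith) (by linarith)
  rw [hX, hY] at h
  have h4 : Real.cos (∠ X O Y) = 1 - 2 * Real.sin (∠ X O Y / 2) ^ 2 := by
    have := Real.cos_two_mul (∠ X O Y / 2)
    rw [show 2 * (∠ X O Y / 2) = ∠ X O Y by ring] at this
    have h5 := Real.sin_sq_add_cos_sq (∠ X O Y / 2)
    linarith
  rw [h4] at h
  have h6 : dist X Y ^ 2 = (2 * R * Real.sin (∠ X O Y / 2)) ^ 2 := by
    rw [sq]; rw [h]; ring
  have h7 : 0 ≤ 2 * R * Real.sin (∠ X O Y / 2) := by positivity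
  rw [← abs_of_nonneg (dist_nonneg (x := X) (y := Y)), ← abs_of_nonneg h7]
  exact (sq_eq_sq_iff_abs_eq_abs _ _).1 h6

lemma step (O : E) {R : ℝ} (hR : 0 < R) (k : ℕ) : ∀ (γ : ℝ → E) (s t : ℝ), s ≤ t →
    ContinuousOn γ (Icc s t) → (∀ r ∈ Icc s t, dist (γ r) O = R) →
    ENNReal.ofReal (2 ^ (k + 1) * R * Real.sin (∠ (γ s) O (γ t) / 2 ^ (k + 1))) ≤
      eVariationOn γ (Icc s t) := by
  induction k with
  | zero =>
    intro γ s t hst hc hsph
    have h1 := chord hR (hsph s (left_mem_Icc.2 hst)) (hsph t (right_mem_Icc.2 hst))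
    have h2 := eVariationOn.edist_le γ (left_mem_Icc.2 hst) (right_mem_Icc.2 hst)
    rw [edist_dist, h1] at h2
    simpa using h2
  | succ k ih =>
    intro γ s t hst hc hsph
    set α := ∠ (γ s) O (γ t) with hα
    have hα0 : 0 ≤ α := angle_nonneg _ _ _
    have hαπ : α ≤ Real.pi := angle_le_pi _ _ _
    have hne : ∀ r ∈ Icc s t, γ r - O ≠ 0 := by
      intro r hr h
      have := hsph r hr
      rw [dist_eq_norm, h, norm_zero] at this
      exact hR.ne this
    -- the angle from the start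
    have hf : ContinuousOn (fun r => ∠ (γ s) O (γ r)) (Icc s t) := by
      intro r hr
      have h1 : ContinuousAt (fun y : E × E => InnerProductGeometry.angle y.1 y.2)
          (γ s - O, γ r - O) :=
        InnerProductGeometry.continuousAt_angle (hne s (left_mem_Icc.2 hst)) (hne r hr)
      have h2 : ContinuousWithinAt (fun r => (γ s - O, γ r - O)) (Icc s t) r :=
        ContinuousWithinAt.prodMk continuousWithinAt_const ((hc r hr).sub continuousWithinAt_const)
      exact ContinuousAt.comp_continuousWithinAt (f := fun r => (γ s - O, γ r - O))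
        (g := fun y : E × E => InnerProductGeometry.angle y.1 y.2) h1 h2
    have h0 : ∠ (γ s) O (γ s) = 0 := by
      unfold EuclideanGeometry.angle
      exact InnerProductGeometry.angle_self (by
        simpa using hne s (left_mem_Icc.2 hst))
    obtain ⟨m, hm, hmα⟩ : ∃ m ∈ Icc s t, ∠ (γ s) O (γ m) = α / 2 := by
      have := intermediate_value_Icc hst hf
      have hmem : α / 2 ∈ Icc (∠ (γ s) O (γ s)) (∠ (γ s) O (γ t)) := by
        rw [h0, ← hα]; exact ⟨by linarith, by linarith⟩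
      obtain ⟨m, hm, h⟩ := this hmem
      exact ⟨m, hm, h⟩
    have h3 : α / 2 ≤ ∠ (γ m) O (γ t) := by
      have := angle_le_angle_add_angle O (γ s) (γ m) (γ t)
      rw [hmα, ← hα] at this
      linarith
    have i1 := ih γ s m hm.1 (hc.mono (Icc_subset_Icc_right hm.2))
      (fun r hr => hsph r ⟨hr.1, hr.2.trans hm.2⟩)
    have i2 := ih γ m t hm.2 (hc.mono (Icc_subset_Icc_left hm.1))
      (fun r hr => hsph r ⟨hm.1.trans hr.1, hr.2⟩)
    have h4 := eVariationOn.Icc_add_Icc γ hm.1 hm.2 (mem_univ m)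
    simp only [univ_inter] at h4
    rw [← h4]
    have h5 : Real.sin (α / 2 ^ (k + 1 + 1)) ≤ Real.sin (∠ (γ m) O (γ t) / 2 ^ (k + 1)) := by
      have hp : (1 : ℝ) ≤ 2 ^ k := one_le_pow₀ (by norm_num)
      apply Real.sin_le_sin_of_le_of_le_pi_div_two
      · have : 0 ≤ α / 2 ^ (k + 1 + 1) := by positivity
        linarith [Real.pi_pos]
      · have h6 : ∠ (γ m) O (γ t) ≤ Real.pi := angle_le_pi _ _ _
        rw [div_le_div_iff₀ (by positivity) (by norm_num), pow_succ]
        nlinarith [Real.pi_pos]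
      · rw [pow_succ 2 (k + 1), mul_comm, ← div_div]
        gcongr
    have h6 : Real.sin (α / 2 ^ (k + 1 + 1)) = Real.sin (∠ (γ s) O (γ m) / 2 ^ (k + 1)) := by
      rw [hmα, pow_succ 2 (k + 1), div_div, mul_comm]
    refine le_trans ?_ (add_le_add i1 i2)
    have hsin : 0 ≤ Real.sin (α / 2 ^ (k + 1 + 1)) := by
      apply Real.sin_nonneg_of_nonneg_of_le_pi (by positivity)
      have hp : (1 : ℝ) ≤ 2 ^ (k + 1 + 1) := one_le_pow₀ (by norm_num)
      exact (div_le_self hα0 hp).trans hαπ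
    rw [← h6, ← ENNReal.ofReal_add (by positivity)
      (mul_nonneg (by positivity) (hsin.trans h5))]
    apply ENNReal.ofReal_le_ofReal
    have h7 : 2 ^ (k + 1) * R * Real.sin (α / 2 ^ (k + 1 + 1)) ≤
        2 ^ (k + 1) * R * Real.sin (∠ (γ m) O (γ t) / 2 ^ (k + 1)) :=
      mul_le_mul_of_nonneg_left h5 (by positivity)
    have h8 : ∀ S : ℝ, 2 ^ (k + 1 + 1) * R * S = 2 ^ (k + 1) * R * S + 2 ^ (k + 1) * R * S := by
      intro S; ring
    rw [h8]
    linarith

/-- A curve on a sphere of radius `R` about `O` has length at least `R` times the angle. -/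
lemma sphere_variation (O : E) {R : ℝ} (hR : 0 < R) (γ : ℝ → E) {s t : ℝ} (hst : s ≤ t)
    (hc : ContinuousOn γ (Icc s t)) (hsph : ∀ r ∈ Icc s t, dist (γ r) O = R) :
    ENNReal.ofReal (R * ∠ (γ s) O (γ t)) ≤ eVariationOn γ (Icc s t) := by
  rcases eq_or_ne (eVariationOn γ (Icc s t)) ⊤ with htop | htop
  · rw [htop]; exact le_top
  set α := ∠ (γ s) O (γ t) with hα
  have hα0 : 0 ≤ α := angle_nonneg _ _ _
  have hαπ : α ≤ Real.pi := angle_le_pi _ _ _
  rw [ENNReal.ofReal_le_iff_le_toReal htop]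
  set V := (eVariationOn γ (Icc s t)).toReal with hV
  have hk : ∀ k : ℕ, R * α - R * α ^ 3 / 6 * (1 / 4 : ℝ) ^ (k + 2) ≤ V := by
    intro k
    have h1 := step O hR (k + 1) γ s t hst hc hsph
    rw [ENNReal.ofReal_le_iff_le_toReal htop, ← hV, ← hα] at h1
    refine le_trans ?_ h1
    rcases hα0.eq_or_lt with h0 | h0
    · rw [← h0]; simp
    · have hx0 : 0 < α / 2 ^ (k + 1 + 1) := by positivity
      have h2 := Real.sin_gt_sub_cube hx0
      have h3 : R * α - R * α ^ 3 / 6 * (1 / 4 : ℝ) ^ (k + 2) =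
          2 ^ (k + 1 + 1) * R * (α / 2 ^ (k + 1 + 1) - (α / 2 ^ (k + 1 + 1)) ^ 3 / 6) := by
        have h4 : (1 / 4 : ℝ) ^ (k + 2) = 1 / (2 ^ (k + 1 + 1)) ^ 2 := by
          rw [one_div_pow, ← pow_mul, mul_comm, pow_mul]; norm_num
        rw [h4]
        field_simp
      rw [h3]
      exact mul_le_mul_of_nonneg_left h2.le (by positivity)
  have hlim : Tendsto (fun k : ℕ => R * α - R * α ^ 3 / 6 * (1 / 4 : ℝ) ^ (k + 2)) atTop
      (𝓝 (R * α - R * α ^ 3 / 6 * 0)) := by
    refine tendsto_const_nhds.sub (tendsto_const_nhds.mul ?_)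
    exact (tendsto_pow_atTop_nhds_zero_of_lt_one (by norm_num) (by norm_num)).comp
      (tendsto_add_atTop_nat 2)
  rw [mul_zero, sub_zero] at hlim
  exact le_of_tendsto hlim (Eventually.of_forall hk)

end Pool.Agent.X147.SV
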