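import Mathlib
import Pool.Agent.X147.SphVar

set_option autoImplicit false

/-! # Moving a segment: definitions and the lower bound for three-stage motions -/

open Set Filter Topology EuclideanGeometry
open scoped ENNReal

namespace Pool.Agent.X147.Seg

/-- Euclidean 3-space -/
abbrev E3 := EuclideanSpace ℝ (Fin 3)

noncomputable def A₁ : E3 := !₂[0, 0, 0]
noncomputable def B₁ : E3 := !₂[1, 1, 0]
noncomputable def A₂ : E3 := !₂[0, 1, 2]
noncomputable def B₂ : E3 := !₂[1, 0, 2]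
noncomputable def C₁ (θ : ℝ) : E3 := !₂[1, Real.cos θ, Real.sin θ]
noncomputable def C₂ (θ : ℝ) : E3 := !₂[0, Real.cos θ, 2 - Real.sin θ]

/-- A motion of the segment. -/
structure IsMotion (A B : ℝ → E3) : Prop where
  contA : ContinuousOn A (Icc 0 1)
  contB : ContinuousOn B (Icc 0 1)
  dist_eq : ∀ t ∈ Icc (0 : ℝ) 1, dist (A t) (B t) = Real.sqrt 2
  A_zero : A 0 = A₁
  B_zero : B 0 = B₁
  A_one : A 1 = A₂
  B_one : B 1 = B₂

/-- The cost: sum of the lengths (total variations) of the two curves. -/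
noncomputable def cost (A B : ℝ → E3) : ℝ≥0∞ :=
  eVariationOn A (Icc 0 1) + eVariationOn B (Icc 0 1)

/-- `γ` moves monotonically on `[s, t]` along the shorter great-circle arc about `O` from `X` to
`Y`. -/
def MovesAlongArc (γ : ℝ → E3) (s t : ℝ) (O X Y : E3) : Prop :=
  γ s = X ∧ γ t = Y ∧ (∀ r ∈ Icc s t, ∠ X O (γ r) + ∠ (γ r) O Y = ∠ X O Y) ∧
    MonotoneOn (fun r => ∠ X O (γ r)) (Icc s t)

/-- `γ` moves monotonically on `[s, t]` along the straight segment from `X` to `Y`. -/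
def MovesAlongSegment (γ : ℝ → E3) (s t : ℝ) (X Y : E3) : Prop :=
  ∃ a : ℝ → ℝ, MonotoneOn a (Icc s t) ∧ a s = 0 ∧ a t = 1 ∧
    ∀ r ∈ Icc s t, γ r = X + a r • (Y - X)

/-- A motion of the form `M_θ`. -/
def IsThreeStage (θ : ℝ) (A B : ℝ → E3) : Prop :=
  IsMotion A B ∧ ∃ s₁ s₂ : ℝ, 0 ≤ s₁ ∧ s₁ ≤ s₂ ∧ s₂ ≤ 1 ∧
    (∀ t ∈ Icc 0 s₁, A t = A₁) ∧ MovesAlongArc B 0 s₁ A₁ B₁ (C₁ θ) ∧
    MovesAlongSegment B s₁ s₂ (C₁ θ) B₂ ∧ MovesAlongSegment A s₁ s₂ A₁ (C₂ θ) ∧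
    (∀ t ∈ Icc s₂ 1, B t = B₂) ∧ MovesAlongArc A s₂ 1 B₂ (C₂ θ) A₂

lemma inner3 (x y : E3) : inner ℝ x y = x 0 * y 0 + x 1 * y 1 + x 2 * y 2 := by
  rw [PiLp.inner_apply, Fin.sum_univ_three]
  simp [mul_comm]

lemma norm3 (x : E3) : ‖x‖ ^ 2 = x 0 ^ 2 + x 1 ^ 2 + x 2 ^ 2 := by
  rw [← real_inner_self_eq_norm_sq, inner3]; ring

lemma dist3 (x y : E3) : dist x y ^ 2 = (x 0 - y 0) ^ 2 + (x 1 - y 1) ^ 2 + (x 2 - y 2) ^ 2 := by
  rw [dist_eq_norm, norm3]; simp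

lemma ext3 {x y : E3} (h0 : x 0 = y 0) (h1 : x 1 = y 1) (h2 : x 2 = y 2) : x = y := by
  ext i; fin_cases i
  · exact h0
  · exact h1
  · exact h2

lemma dist_eq_of_sq {x y : E3} {r : ℝ} (hr : 0 ≤ r) (h : dist x y ^ 2 = r ^ 2) : dist x y = r := by
  rw [← abs_of_nonneg (dist_nonneg (x := x) (y := y)), ← abs_of_nonneg hr]
  exact (sq_eq_sq_iff_abs_eq_abs _ _).1 h

lemma sq2 : Real.sqrt 2 ^ 2 = 2 := Real.sq_sqrt (by norm_num)

/-! ### The lower bound -/

/-- `y ≥ sin y + 0.16 sin³ y` for `0 ≤ y ≤ 4/5` -/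
lemma angle_lower {y : ℝ} (h0 : 0 ≤ y) (hY : y ≤ 4 / 5) :
    Real.sin y + 4 / 25 * Real.sin y ^ 3 ≤ y := by
  have h1 := Real.sin_bound (x := y) (by rw [abs_of_nonneg h0]; linarith)
  rw [abs_of_nonneg h0] at h1
  have h2 := (abs_le.1 h1).2
  have h3 : 0 ≤ Real.sin y := Real.sin_nonneg_of_nonneg_of_le_pi h0 (by
    linarith [Real.pi_gt_three])
  have h4 : Real.sin y ≤ y := Real.sin_le h0
  have h5 : Real.sin y ^ 3 ≤ y ^ 3 := by gcongr
  have h7 : y ^ 5 / 100 ≤ (1 / 6 - 4 / 25) * y ^ 3 := by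
    have e : (1 / 6 - 4 / 25) * y ^ 3 - y ^ 5 / 100 = y ^ 3 * ((2 / 3 - y ^ 2) / 100) := by ring
    have h8 : 0 ≤ y ^ 3 * ((2 / 3 - y ^ 2) / 100) := by
      apply mul_nonneg (by positivity)
      apply div_nonneg _ (by norm_num)
      nlinarith
    linarith
  linarith

/-- polynomial inequality -/
lemma poly_ineq {u : ℝ} (h0 : 1 / 4 ≤ u) :
    64 * u ^ 2 * (1 - u ^ 2) ≤ (5 - (2.26748 - 2.0768 * u) ^ 2) ^ 2 := by
  set h := u - 2 / 5 with hh
  have hu : u = h + 2 / 5 := by rw [hh]; ring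
  have h1 : -(3 / 20) ≤ h := by rw [hh]; linarith
  have e : (5 - (2.26748 - 2.0768 * u) ^ 2) ^ 2 - 64 * u ^ 2 * (1 - u ^ 2) =
      6584391601542721 / 390625000000000000 + 272406618293209 / 1220703125000000 * h +
      235890320803283 / 30517578125000 * h ^ 2 + 38849807805476 / 762939453125 * h ^ 3 +
      12604189518416 / 152587890625 * h ^ 4 := by
    rw [hu]; ring
  have hq : 0 ≤ 12604189518416 / 152587890625 * h ^ 2 + 38849807805476 / 762939453125 * h +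
      235890320803283 / 30517578125000 - 19 / 10 := by
    nlinarith
  have hq2 := mul_nonneg (sq_nonneg h) hq
  nlinarith [sq_nonneg (h + 1 / 17)]

/-- The main numerical inequality. -/
lemma main_ineq {c s α : ℝ} (hcs : c ^ 2 + s ^ 2 = 1) (hs : 1 / 2 ≤ s) (hα0 : 0 ≤ α)
    (hαπ : α ≤ Real.pi) (hα : Real.cos α = (1 + c) / 2) :
    2.247 ≤ Real.sqrt 2 * α + Real.sqrt (5 - 4 * s) := by
  have hπ := Real.pi_gt_three
  have hπ' := Real.pi_lt_d2
  have hs1 : s ≤ 1 := by nlinarith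
  have hc1 : c ≤ 1 := by nlinarith
  have hc2 : -1 < c := by nlinarith
  set u := Real.sqrt ((1 - c) / 2) with hu
  have hu0 : 0 ≤ u := Real.sqrt_nonneg _
  have hu2 : u ^ 2 = (1 - c) / 2 := Real.sq_sqrt (by linarith)
  set x := Real.sin (α / 2) with hx
  have hx0 : 0 ≤ x := Real.sin_nonneg_of_nonneg_of_le_pi (by linarith) (by linarith)
  have hx2 : x ^ 2 = (1 - c) / 4 := by
    have h1 := Real.cos_two_mul (α / 2)
    rw [show 2 * (α / 2) = α by ring, hα] at h1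
    have h2 := Real.sin_sq_add_cos_sq (α / 2)
    rw [hx]; linarith
  have hxu : Real.sqrt 2 * x = u := by
    have h1 : (Real.sqrt 2 * x) ^ 2 = u ^ 2 := by rw [mul_pow, sq2, hx2, hu2]; ring
    rw [← abs_of_nonneg (by positivity : 0 ≤ Real.sqrt 2 * x), ← abs_of_nonneg hu0]
    exact (sq_eq_sq_iff_abs_eq_abs _ _).1 h1
  -- the angle is at most `π / 2`
  have hα2 : α ≤ Real.pi / 2 := by
    by_contra hcon
    push Not at hcon
    have := Real.cos_neg_of_pi_div_two_lt_of_lt hcon (by linarith)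
    linarith
  have key : 2 * u + 4 / 25 * u ^ 3 ≤ Real.sqrt 2 * α := by
    have h := angle_lower (y := α / 2) (by linarith) (by linarith)
    rw [← hx] at h
    have h1 : 2 * u + 4 / 25 * u ^ 3 = 2 * Real.sqrt 2 * (x + 4 / 25 * x ^ 3) := by
      rw [← hxu]
      have : (Real.sqrt 2 * x) ^ 3 = 2 * Real.sqrt 2 * x ^ 3 := by
        rw [mul_pow, show Real.sqrt 2 ^ 3 = Real.sqrt 2 ^ 2 * Real.sqrt 2 by ring, sq2]
      rw [this]; ring
    rw [h1]
    have := mul_le_mul_of_nonneg_left h (by positivity : 0 ≤ 2 * Real.sqrt 2)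
    linarith
  by_cases hbig : 3 / 8 ≤ u ^ 2
  · have h2 : 0.612 ≤ u := by nlinarith
    have h3 : 0.229 ≤ u ^ 3 := by
      have : u ^ 3 = u * u ^ 2 := by ring
      rw [this]; nlinarith
    have h4 : 1 ≤ Real.sqrt (5 - 4 * s) := by
      rw [Real.one_le_sqrt]; linarith
    linarith
  · push Not at hbig
    have hs2 : s ^ 2 = 4 * u ^ 2 * (1 - u ^ 2) := by rw [hu2]; nlinarith
    have hu4 : 1 / 4 ≤ u := by
      by_contra hcon
      push Not at hcon
      have h1 : u ^ 2 < 1 / 16 := by nlinarith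
      have h2 : 1 / 4 ≤ s ^ 2 := by nlinarith
      nlinarith [sq_nonneg u, sq_nonneg (u ^ 2)]
    have hu5 : u ≤ 0.6125 := by
      by_contra hcon
      push Not at hcon
      nlinarith
    have h2 : 0.48 * u - 0.128 ≤ u ^ 3 := by
      have e : u ^ 3 - (0.48 * u - 0.128) = (u - 0.4) ^ 2 * (u + 0.8) := by ring
      have h3 : 0 ≤ (u - 0.4) ^ 2 * (u + 0.8) := by positivity
      linarith
    have h3 : 2.247 - Real.sqrt 2 * α ≤ 2.26748 - 2.0768 * u := by linarith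
    have h5 : 2.26748 - 2.0768 * u ≤ Real.sqrt (5 - 4 * s) := by
      apply Real.le_sqrt_of_sq_le
      have h6 : 4 * s ≤ 5 - (2.26748 - 2.0768 * u) ^ 2 := by
        have h9 : 0 ≤ 5 - (2.26748 - 2.0768 * u) ^ 2 := by
          have h10 : 0 ≤ 2.26748 - 2.0768 * u := by linarith
          have h11 : 2.26748 - 2.0768 * u ≤ 2 := by linarith
          nlinarith
        apply le_of_sq_le_sq _ h9
        have h7 : (4 * s) ^ 2 = 64 * u ^ 2 * (1 - u ^ 2) := by rw [mul_pow, hs2]; ring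
        rw [h7]
        exact poly_ineq hu4
      linarith
    linarith

end Pool.Agent.X147.Seg
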