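import Mathlib
import Pool.Agent.X147.SegDef

set_option autoImplicit false

/-! # Moving a segment: the lower bound for three-stage motions -/

open Set Filter Topology EuclideanGeometry
open scoped ENNReal

namespace Pool.Agent.X147.Seg

lemma cos_angle_of {X O Y : E3} {k : ℝ} (hX : dist X O = Real.sqrt 2) (hY : dist Y O = Real.sqrt 2)
    (h : inner ℝ (X - O) (Y - O) = 2 * k) : Real.cos (∠ X O Y) = k := by
  unfold EuclideanGeometry.angle
  rw [vsub_eq_sub, vsub_eq_sub, InnerProductGeometry.cos_angle, h, ← dist_eq_norm, ← dist_eq_norm,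
    hX, hY, ← sq, sq2]
  ring

lemma dist_B₁ : dist B₁ A₁ = Real.sqrt 2 := by
  apply dist_eq_of_sq (Real.sqrt_nonneg _)
  rw [dist3, sq2]; simp [A₁, B₁]; norm_num

lemma dist_C₁ (θ : ℝ) : dist (C₁ θ) A₁ = Real.sqrt 2 := by
  apply dist_eq_of_sq (Real.sqrt_nonneg _)
  have := Real.sin_sq_add_cos_sq θ
  rw [dist3, sq2]; simp [A₁, C₁]; linarith

lemma dist_A₂ : dist A₂ B₂ = Real.sqrt 2 := by
  apply dist_eq_of_sq (Real.sqrt_nonneg _)
  rw [dist3, sq2]; simp [A₂, B₂]; norm_num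

lemma dist_C₂ (θ : ℝ) : dist (C₂ θ) B₂ = Real.sqrt 2 := by
  apply dist_eq_of_sq (Real.sqrt_nonneg _)
  have := Real.sin_sq_add_cos_sq θ
  rw [dist3, sq2]; simp [C₂, B₂]; linarith

lemma cos_one (θ : ℝ) : Real.cos (∠ B₁ A₁ (C₁ θ)) = (1 + Real.cos θ) / 2 := by
  apply cos_angle_of dist_B₁ (dist_C₁ θ)
  rw [inner3]; simp [A₁, B₁, C₁]; ring

lemma cos_two (θ : ℝ) : Real.cos (∠ (C₂ θ) B₂ A₂) = (1 + Real.cos θ) / 2 := by
  apply cos_angle_of (dist_C₂ θ) dist_A₂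
  rw [inner3]; simp [A₂, B₂, C₂]; ring

lemma dist_seg₁ (θ : ℝ) : dist (C₁ θ) B₂ = Real.sqrt (5 - 4 * Real.sin θ) := by
  have hs := Real.sin_le_one θ
  apply dist_eq_of_sq (Real.sqrt_nonneg _)
  rw [dist3, Real.sq_sqrt (by linarith)]
  have := Real.sin_sq_add_cos_sq θ
  simp [B₂, C₁]; linarith

lemma dist_seg₂ (θ : ℝ) : dist A₁ (C₂ θ) = Real.sqrt (5 - 4 * Real.sin θ) := by
  have hs := Real.sin_le_one θ
  apply dist_eq_of_sq (Real.sqrt_nonneg _)
  rw [dist3, Real.sq_sqrt (by linarith)]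
  have := Real.sin_sq_add_cos_sq θ
  simp [A₁, C₂]; linarith

/-- Stage 2 cannot start if `-1/4 < sin θ < 1/2`. -/
lemma no_start {θ : ℝ} {A B : ℝ → E3} (h : IsThreeStage θ A B) (h1 : -1 / 4 < Real.sin θ)
    (h2 : Real.sin θ < 1 / 2) : False := by
  obtain ⟨hm, s₁, s₂, h0s, hs, hs1, hA1, hB1, ⟨b, hbm, hb0, hb1, hb⟩, ⟨a, ham, ha0, ha1, ha⟩, -, -⟩ := h
  obtain ⟨c, hc⟩ : ∃ c, c = Real.cos θ := ⟨_, rfl⟩
  obtain ⟨s, hsn⟩ : ∃ s, s = Real.sin θ := ⟨_, rfl⟩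
  rw [← hsn] at h1 h2
  have hcs : s ^ 2 + c ^ 2 = 1 := by rw [hc, hsn]; exact Real.sin_sq_add_cos_sq θ
  have hsub : Icc s₁ s₂ ⊆ Icc (0 : ℝ) 1 := Icc_subset_Icc h0s hs1
  -- the constraint
  have hcon : ∀ t ∈ Icc s₁ s₂, 1 + (c * (1 - a t - b t)) ^ 2 +
      (s + (2 - s) * (b t - a t)) ^ 2 = 2 := by
    intro t ht
    have e := hm.dist_eq t (hsub ht)
    have e2 : dist (A t) (B t) ^ 2 = 2 := by rw [e, sq2]
    have k0 : (A t) 0 = 0 := by rw [ha t ht]; simp [A₁, C₂]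
    have k1 : (A t) 1 = a t * c := by rw [ha t ht, hc]; simp [A₁, C₂]
    have k2 : (A t) 2 = a t * (2 - s) := by rw [ha t ht, hsn]; simp [A₁, C₂]
    have l0 : (B t) 0 = 1 := by rw [hb t ht]; simp [B₂, C₁]
    have l1 : (B t) 1 = c - b t * c := by rw [hb t ht, hc]; simp [B₂, C₁]; ring
    have l2 : (B t) 2 = s + b t * (2 - s) := by rw [hb t ht, hsn]; simp [B₂, C₁]
    rw [dist3, k0, k1, k2, l0, l1, l2] at e2
    linarith
  -- continuity of `a + b`
  have hn : 0 < 5 - 4 * s := by linarith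
  have hac : ContinuousOn (fun t => a t + b t) (Icc s₁ s₂) := by
    have h3 : ContinuousOn (fun t => (inner ℝ (C₂ θ) (A t) +
        inner ℝ (B₂ - C₁ θ) (B t - C₁ θ)) / (5 - 4 * s)) (Icc s₁ s₂) := by
      apply ContinuousOn.div_const
      apply ContinuousOn.add
      · exact continuousOn_const.inner (hm.contA.mono hsub)
      · exact continuousOn_const.inner ((hm.contB.mono hsub).sub continuousOn_const)
    refine h3.congr fun t ht => ?_
    simp only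
    have e3 : inner ℝ (C₂ θ) (A t) = a t * (5 - 4 * s) := by
      rw [ha t ht, inner3, hsn]; simp [A₁, C₂]
      have := Real.sin_sq_add_cos_sq θ
      linear_combination (a t) * this
    have e4 : inner ℝ (B₂ - C₁ θ) (B t - C₁ θ) = b t * (5 - 4 * s) := by
      rw [hb t ht, inner3, hsn]; simp [B₂, C₁]
      have := Real.sin_sq_add_cos_sq θ
      linear_combination (b t) * this
    rw [e3, e4]
    field_simp
  obtain ⟨t, ht, hη⟩ : ∃ t ∈ Icc s₁ s₂, a t + b t = (1 - 2 * s) / 20 := by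
    have := intermediate_value_Icc hs hac
    have hmem : (1 - 2 * s) / 20 ∈ Icc (a s₁ + b s₁) (a s₂ + b s₂) := by
      rw [ha0, hb0, ha1, hb1]; constructor <;> linarith
    obtain ⟨t, ht, h⟩ := this hmem
    exact ⟨t, ht, h⟩
  have ht0 : 0 ≤ a t := by
    rw [← ha0]; exact ham (left_mem_Icc.2 hs) ht ht.1
  have ht1 : 0 ≤ b t := by
    rw [← hb0]; exact hbm (left_mem_Icc.2 hs) ht ht.1
  have e := hcon t ht
  obtain ⟨x, hx⟩ : ∃ x, x = a t := ⟨_, rfl⟩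
  obtain ⟨y, hy⟩ : ∃ y, y = b t := ⟨_, rfl⟩
  rw [← hx] at ht0 e hη
  rw [← hy] at ht1 e hη
  -- contradiction
  have hc2 : c ^ 2 = 1 - s ^ 2 := by linarith
  have e3 : 0 = -2 * (1 - 2 * s) * y - (2 + 4 * s - 4 * s ^ 2) * x + (1 - s ^ 2) * (x + y) ^ 2 +
      (2 - s) ^ 2 * (y - x) ^ 2 := by
    have : (c * (1 - x - y)) ^ 2 = (1 - s ^ 2) * (1 - x - y) ^ 2 := by rw [mul_pow, hc2]
    rw [this] at e
    linarith
  have e4 : (y - x) ^ 2 ≤ (x + y) ^ 2 := by nlinarith [mul_nonneg ht0 ht1]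
  have e5 : (2 - s) ^ 2 * (y - x) ^ 2 ≤ (2 - s) ^ 2 * (x + y) ^ 2 :=
    mul_le_mul_of_nonneg_left e4 (sq_nonneg _)
  have e6 : (1 - s ^ 2) * (x + y) ^ 2 + (2 - s) ^ 2 * (x + y) ^ 2 =
      (5 - 4 * s) * ((1 - 2 * s) / 20) * (x + y) := by
    rw [← hη]; ring
  have e7 : 0 ≤ (2 * (1 - 2 * s) - (5 - 4 * s) * ((1 - 2 * s) / 20) - (1 - 2 * s)) * y := by
    apply mul_nonneg _ ht1
    have e10 : 2 * (1 - 2 * s) - (5 - 4 * s) * ((1 - 2 * s) / 20) - (1 - 2 * s) =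
        (1 - 2 * s) * (1 - (5 - 4 * s) / 20) := by ring
    rw [e10]
    exact mul_nonneg (by linarith) (by linarith)
  have e8 : 0 ≤ ((2 + 4 * s - 4 * s ^ 2) - (5 - 4 * s) * ((1 - 2 * s) / 20) -
      (1 - 2 * s) / 10) * x := by
    apply mul_nonneg _ ht0
    nlinarith [mul_nonneg (by linarith : 0 ≤ s + 1 / 4) (by linarith : 0 ≤ 1 / 2 - s)]
  have e9 : 0 < (1 - 2 * s) * (x + y) := by rw [hη]; nlinarith
  have e10 : 0 ≤ (1 - 2 * s) * y := mul_nonneg (by linarith) ht1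
  linarith

/-- Lower bound for the cost of three-stage motions. -/
lemma three_stage_cost {θ : ℝ} {A B : ℝ → E3} (h : IsThreeStage θ A B) :
    ENNReal.ofReal 4.494 ≤ cost A B := by
  have hno := no_start h
  obtain ⟨hm, s₁, s₂, h0s, hs, hs1, hA1, hB1, ⟨b, hbm, hb0, hb1, hb⟩, ⟨a, ham, ha0, ha1, ha⟩, hB3, hA3⟩ := h
  have hs01 : s₁ ≤ 1 := hs.trans hs1
  have hs02 : 0 ≤ s₂ := h0s.trans hs
  have hsub1 : Icc 0 s₁ ⊆ Icc (0 : ℝ) 1 := Icc_subset_Icc le_rfl hs01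
  have hsub3 : Icc s₂ 1 ⊆ Icc (0 : ℝ) 1 := Icc_subset_Icc hs02 le_rfl
  -- positions
  have pB1 : B s₁ = C₁ θ := hB1.2.1
  have pB2 : B s₂ = B₂ := by
    rw [hb s₂ (right_mem_Icc.2 hs), hb1]; simp
  have pA1 : A s₁ = A₁ := by
    rw [ha s₁ (left_mem_Icc.2 hs), ha0]; simp
  have pA2 : A s₂ = C₂ θ := hA3.1
  -- variations on the stages
  have vB1 : ENNReal.ofReal (Real.sqrt 2 * ∠ B₁ A₁ (C₁ θ)) ≤ eVariationOn B (Icc 0 s₁) := by
    have := SV.sphere_variation A₁ (R := Real.sqrt 2) (by positivity) B h0s (hm.contB.mono hsub1)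
      (fun r hr => by
        have e := hm.dist_eq r (hsub1 hr)
        rw [hA1 r hr, dist_comm] at e
        exact e)
    rwa [hm.B_zero, pB1] at this
  have vA3 : ENNReal.ofReal (Real.sqrt 2 * ∠ (C₂ θ) B₂ A₂) ≤ eVariationOn A (Icc s₂ 1) := by
    have := SV.sphere_variation B₂ (R := Real.sqrt 2) (by positivity) A hs1 (hm.contA.mono hsub3)
      (fun r hr => by
        have e := hm.dist_eq r (hsub3 hr)
        rwa [hB3 r hr] at e)
    rwa [hm.A_one, pA2] at this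
  have vB2 : ENNReal.ofReal (Real.sqrt (5 - 4 * Real.sin θ)) ≤ eVariationOn B (Icc s₁ s₂) := by
    have := eVariationOn.edist_le B (left_mem_Icc.2 hs) (right_mem_Icc.2 hs)
    rwa [edist_dist, pB1, pB2, dist_seg₁] at this
  have vA2 : ENNReal.ofReal (Real.sqrt (5 - 4 * Real.sin θ)) ≤ eVariationOn A (Icc s₁ s₂) := by
    have := eVariationOn.edist_le A (left_mem_Icc.2 hs) (right_mem_Icc.2 hs)
    rwa [edist_dist, pA1, pA2, dist_seg₂] at this
  have cB : eVariationOn B (Icc 0 s₁) + eVariationOn B (Icc s₁ s₂) ≤ eVariationOn B (Icc 0 1) := by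
    have := eVariationOn.Icc_add_Icc B h0s hs (mem_univ s₁)
    simp only [univ_inter] at this
    rw [this]
    exact eVariationOn.mono B (Icc_subset_Icc le_rfl hs1)
  have cA : eVariationOn A (Icc s₁ s₂) + eVariationOn A (Icc s₂ 1) ≤ eVariationOn A (Icc 0 1) := by
    have := eVariationOn.Icc_add_Icc A hs hs1 (mem_univ s₂)
    simp only [univ_inter] at this
    rw [this]
    exact eVariationOn.mono A (Icc_subset_Icc h0s le_rfl)
  have hα1 : 0 ≤ ∠ B₁ A₁ (C₁ θ) := angle_nonneg _ _ _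
  have hα2 : 0 ≤ ∠ (C₂ θ) B₂ A₂ := angle_nonneg _ _ _
  have hcs := Real.sin_sq_add_cos_sq θ
  -- the real lower bounds
  have hreal : 2.247 ≤ Real.sqrt 2 * ∠ B₁ A₁ (C₁ θ) + Real.sqrt (5 - 4 * Real.sin θ) ∧
      2.247 ≤ Real.sqrt 2 * ∠ (C₂ θ) B₂ A₂ + Real.sqrt (5 - 4 * Real.sin θ) := by
    rcases le_or_gt (1 / 2) (Real.sin θ) with h5 | h5
    · exact ⟨main_ineq (by linarith) h5 hα1 (angle_le_pi _ _ _) (cos_one θ),
        main_ineq (by linarith) h5 hα2 (angle_le_pi _ _ _) (cos_two θ)⟩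
    · have h6 : Real.sin θ ≤ -1 / 4 := by
        by_contra hcon
        push Not at hcon
        exact hno hcon h5
      have h7 : 2.4 ≤ Real.sqrt (5 - 4 * Real.sin θ) := by
        apply Real.le_sqrt_of_sq_le; linarith
      have h8 : 0 ≤ Real.sqrt 2 * ∠ B₁ A₁ (C₁ θ) := by positivity
      have h9 : 0 ≤ Real.sqrt 2 * ∠ (C₂ θ) B₂ A₂ := by positivity
      constructor <;> linarith
  have hB : ENNReal.ofReal 2.247 ≤ eVariationOn B (Icc 0 1) := by
    refine le_trans ?_ ((add_le_add vB1 vB2).trans cB)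
    rw [← ENNReal.ofReal_add (by positivity) (by positivity)]
    exact ENNReal.ofReal_le_ofReal hreal.1
  have hA : ENNReal.ofReal 2.247 ≤ eVariationOn A (Icc 0 1) := by
    refine le_trans ?_ ((add_le_add vA2 vA3).trans cA)
    rw [← ENNReal.ofReal_add (by positivity) (by positivity)]
    apply ENNReal.ofReal_le_ofReal
    linarith [hreal.2]
  unfold cost
  refine le_trans ?_ (add_le_add hA hB)
  rw [← ENNReal.ofReal_add (by norm_num) (by norm_num)]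
  apply ENNReal.ofReal_le_ofReal
  norm_num

end Pool.Agent.X147.Seg
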