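import Mathlib
import Pool.Agent.X147.SegLow

set_option autoImplicit false

/-! # Moving a segment: explicit motions -/

open Set Filter Topology EuclideanGeometry
open scoped ENNReal NNReal

namespace Pool.Agent.X147.Seg

/-- the great circle through `B₁` in the plane of `A₁, B₁, B₂` -/
noncomputable def arc (σ : ℝ) : E3 :=
  !₂[Real.cos σ + Real.sin σ / 3, Real.cos σ - Real.sin σ / 3, 4 * Real.sin σ / 3]

/-- its image under the symmetry -/
noncomputable def arc' (σ : ℝ) : E3 :=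
  !₂[1 - (Real.cos σ + Real.sin σ / 3), Real.cos σ - Real.sin σ / 3, 2 - 4 * Real.sin σ / 3]

lemma arc_zero : arc 0 = B₁ := by
  apply ext3 <;> simp [arc, B₁]

lemma arc'_zero : arc' 0 = A₂ := by
  apply ext3 <;> simp [arc', A₂]

lemma arc_dist (σ : ℝ) : dist (arc σ) A₁ = Real.sqrt 2 := by
  apply dist_eq_of_sq (Real.sqrt_nonneg _)
  have := Real.sin_sq_add_cos_sq σ
  rw [dist3, sq2]; simp [arc, A₁]; linarith

lemma arc'_dist (σ : ℝ) : dist (arc' σ) B₂ = Real.sqrt 2 := by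
  apply dist_eq_of_sq (Real.sqrt_nonneg _)
  have := Real.sin_sq_add_cos_sq σ
  rw [dist3, sq2]; simp [arc', B₂]; linarith

lemma arc_dist_sq (σ τ : ℝ) : dist (arc σ) (arc τ) ^ 2 = 4 * (1 - Real.cos (σ - τ)) := by
  have h1 := Real.sin_sq_add_cos_sq σ
  have h2 := Real.sin_sq_add_cos_sq τ
  rw [dist3, Real.cos_sub]; simp [arc]; linarith

lemma arc'_dist_sq (σ τ : ℝ) : dist (arc' σ) (arc' τ) ^ 2 = 4 * (1 - Real.cos (σ - τ)) := by
  have h1 := Real.sin_sq_add_cos_sq σ
  have h2 := Real.sin_sq_add_cos_sq τ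
  rw [dist3, Real.cos_sub]; simp [arc']; linarith

/-- `√2` as a nonnegative real -/
noncomputable def s2 : ℝ≥0 := ⟨Real.sqrt 2, Real.sqrt_nonneg 2⟩

lemma s2_coe : (s2 : ℝ) = Real.sqrt 2 := rfl

lemma lip_of {f : ℝ → E3} (h : ∀ σ τ, dist (f σ) (f τ) ^ 2 = 4 * (1 - Real.cos (σ - τ))) :
    LipschitzWith s2 f := by
  refine LipschitzWith.of_dist_le_mul fun σ τ => ?_
  have h1 : dist (f σ) (f τ) ^ 2 ≤ (Real.sqrt 2 * dist σ τ) ^ 2 := by
    rw [h, mul_pow, sq2, Real.dist_eq, sq_abs]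
    have := Real.one_sub_sq_div_two_le_cos (x := σ - τ)
    linarith
  exact le_of_sq_le_sq h1 (by positivity)

lemma arc_lip : LipschitzWith s2 arc := lip_of arc_dist_sq
lemma arc'_lip : LipschitzWith s2 arc' := lip_of arc'_dist_sq

/-- clamp to `[0, 1]` -/
noncomputable def cl (t : ℝ) : ℝ := max 0 (min 1 t)

lemma cl_cont : Continuous cl := by unfold cl; fun_prop
lemma cl_mono : Monotone cl := fun _ _ h => max_le_max le_rfl (min_le_min le_rfl h)
lemma cl_nonneg (t : ℝ) : 0 ≤ cl t := le_max_left _ _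
lemma cl_le_one (t : ℝ) : cl t ≤ 1 := max_le zero_le_one (min_le_left _ _)
lemma cl_of_le {t : ℝ} (h : t ≤ 0) : cl t = 0 := by
  unfold cl; rw [min_eq_right (by linarith), max_eq_left h]
lemma cl_of_ge {t : ℝ} (h : 1 ≤ t) : cl t = 1 := by
  unfold cl; rw [min_eq_left h, max_eq_right zero_le_one]
lemma cl_of_mem {t : ℝ} (h0 : 0 ≤ t) (h1 : t ≤ 1) : cl t = t := by
  unfold cl; rw [min_eq_right h1, max_eq_right h0]

/-- variation of a Lipschitz function of a monotone function -/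
lemma var_comp {f : ℝ → E3} {K : ℝ≥0} (hf : LipschitzWith K f) {g : ℝ → ℝ} {s t : ℝ} (hst : s ≤ t)
    (hg : MonotoneOn g (Icc s t)) :
    eVariationOn (fun r => f (g r)) (Icc s t) ≤ ENNReal.ofReal (K * (g t - g s)) := by
  have h1 : eVariationOn (f ∘ g) (Icc s t) ≤ K * eVariationOn g (Icc s t) :=
    (hf.lipschitzOnWith (s := univ)).comp_eVariationOn_le (fun _ _ => mem_univ _)
  have h2 : eVariationOn g (Icc s t) ≤ ENNReal.ofReal (g t - g s) := by
    have := hg.eVariationOn_eq (left_mem_Icc.2 hst) (right_mem_Icc.2 hst)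
    rw [inter_self] at this
    exact this.le
  calc eVariationOn (fun r => f (g r)) (Icc s t) ≤ K * eVariationOn g (Icc s t) := h1
    _ ≤ K * ENNReal.ofReal (g t - g s) := by gcongr
    _ = ENNReal.ofReal (K * (g t - g s)) := by
      rw [ENNReal.ofReal_mul (NNReal.coe_nonneg K), ENNReal.ofReal_coe_nnreal]

/-- the parameters -/
structure Pr where
  τ : ℝ
  τ0 : 0 ≤ τ
  hτ : 2 ≤ Real.cos τ + 3 * Real.sin τ

namespace Pr

variable (p : Pr)

noncomputable def x : ℝ := Real.cos p.τ + Real.sin p.τ / 3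
noncomputable def y : ℝ := Real.cos p.τ - Real.sin p.τ / 3
noncomputable def z : ℝ := 4 * Real.sin p.τ / 3
noncomputable def μ : ℝ := p.x + 2 * p.z - 2 + p.y ^ 2
noncomputable def κ : ℝ := (1 - p.x) ^ 2 + (2 - p.z) ^ 2
noncomputable def D (r : ℝ) : ℝ := Real.sqrt (p.μ ^ 2 + 4 * p.κ * p.y ^ 2 * (r * (1 - r)))
noncomputable def q (r : ℝ) : ℝ := (p.D r - p.μ) / p.κ
noncomputable def a (r : ℝ) : ℝ := r - p.q r / 2
noncomputable def b (r : ℝ) : ℝ := r + p.q r / 2

lemma xyz : p.x ^ 2 + p.y ^ 2 + p.z ^ 2 = 2 := by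
  have := Real.sin_sq_add_cos_sq p.τ
  unfold x y z; linarith

lemma xz : 2 ≤ p.x + 2 * p.z := by have := p.hτ; unfold x z; linarith

lemma κ_pos : 0 < p.κ := by
  have h1 := Real.sin_le_one p.τ
  have : 0 < 2 - p.z := by unfold z; linarith
  unfold κ; positivity

lemma μ_ge : p.y ^ 2 ≤ p.μ := by have := p.xz; unfold μ; linarith

lemma μ_nonneg : 0 ≤ p.μ := (sq_nonneg _).trans p.μ_ge

lemma D_sq {r : ℝ} (h0 : 0 ≤ r) (h1 : r ≤ 1) :
    p.D r ^ 2 = p.μ ^ 2 + 4 * p.κ * p.y ^ 2 * (r * (1 - r)) := by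
  apply Real.sq_sqrt
  have := p.κ_pos
  have : 0 ≤ r * (1 - r) := mul_nonneg h0 (by linarith)
  positivity

lemma D_ge {r : ℝ} (h0 : 0 ≤ r) (h1 : r ≤ 1) : p.μ ≤ p.D r := by
  apply Real.le_sqrt_of_sq_le
  have := p.κ_pos
  have : 0 ≤ r * (1 - r) := mul_nonneg h0 (by linarith)
  have : 0 ≤ 4 * p.κ * p.y ^ 2 * (r * (1 - r)) := by positivity
  linarith

lemma D_zero : p.D 0 = p.μ := by
  unfold D; simp only [zero_mul, mul_zero, add_zero]; exact Real.sqrt_sq p.μ_nonneg

lemma D_one : p.D 1 = p.μ := by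
  unfold D; simp only [sub_self, mul_zero, add_zero]; exact Real.sqrt_sq p.μ_nonneg

lemma a_zero : p.a 0 = 0 := by unfold a q; rw [D_zero]; simp
lemma b_zero : p.b 0 = 0 := by unfold b q; rw [D_zero]; simp
lemma a_one : p.a 1 = 1 := by unfold a q; rw [D_one]; simp
lemma b_one : p.b 1 = 1 := by unfold b q; rw [D_one]; simp

lemma q_eq {r : ℝ} (h0 : 0 ≤ r) (h1 : r ≤ 1) :
    p.κ * p.q r ^ 2 + 2 * p.μ * p.q r = 4 * p.y ^ 2 * (r * (1 - r)) := by
  have hκ := p.κ_pos
  have hD := p.D_sq h0 h1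
  unfold q
  field_simp
  linear_combination hD

lemma q_lip {r r' : ℝ} (h0 : 0 ≤ r) (hr : r ≤ r') (h1 : r' ≤ 1) :
    |p.q r' - p.q r| ≤ 2 * (r' - r) := by
  have hκ := p.κ_pos
  have h2 := p.D_ge h0 (hr.trans h1)
  have h3 := p.D_ge (h0.trans hr) h1
  have h4 := p.μ_ge
  have h5 := p.D_sq h0 (hr.trans h1)
  have h6 := p.D_sq (h0.trans hr) h1
  have h7 : (p.D r' - p.D r) * (p.D r' + p.D r) =
      4 * p.κ * p.y ^ 2 * ((r' - r) * (1 - r - r')) := by
    linear_combination h6 - h5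
  have hy : 0 ≤ p.y ^ 2 := sq_nonneg _
  have h8 : |p.D r' - p.D r| * (p.D r' + p.D r) ≤ 2 * p.κ * (r' - r) * (p.D r' + p.D r) := by
    have h9 : |p.D r' - p.D r| * (p.D r' + p.D r) =
        4 * p.κ * p.y ^ 2 * ((r' - r) * |1 - r - r'|) := by
      have h10 : 0 ≤ p.D r' + p.D r := by linarith
      have h11 : |p.D r' - p.D r| * (p.D r' + p.D r) = |(p.D r' - p.D r) * (p.D r' + p.D r)| := by
        rw [abs_mul, abs_of_nonneg h10]
      have h12 : |4 * p.κ * p.y ^ 2| = 4 * p.κ * p.y ^ 2 := abs_of_nonneg (by positivity)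
      have h13 : |r' - r| = r' - r := abs_of_nonneg (by linarith)
      rw [h11, h7, abs_mul (4 * p.κ * p.y ^ 2), h12, abs_mul (r' - r), h13]
    rw [h9]
    have h11 : |1 - r - r'| ≤ 1 := by rw [abs_le]; constructor <;> linarith
    have h12 : 4 * p.κ * p.y ^ 2 * ((r' - r) * |1 - r - r'|) ≤ 4 * p.κ * p.y ^ 2 * ((r' - r) * 1) := by
      have : 0 ≤ r' - r := by linarith
      gcongr
    refine h12.trans ?_
    have h13 : 4 * p.κ * p.y ^ 2 * ((r' - r) * 1) = 2 * p.κ * (r' - r) * (2 * p.y ^ 2) := by ring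
    rw [h13]
    apply mul_le_mul_of_nonneg_left
    · linarith
    · have : 0 ≤ r' - r := by linarith
      positivity
  have h14 : |p.D r' - p.D r| ≤ 2 * p.κ * (r' - r) := by
    by_cases h15 : p.D r' + p.D r = 0
    · have e1 : p.D r' = p.D r := by
        have := p.μ_nonneg
        linarith
      rw [e1, sub_self, abs_zero]
      have : 0 ≤ r' - r := by linarith
      positivity
    · have h16 : 0 < p.D r' + p.D r := lt_of_le_of_ne (by have := p.μ_nonneg; linarith) (Ne.symm h15)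
      exact le_of_mul_le_mul_right h8 h16
  have h17 : p.q r' - p.q r = (p.D r' - p.D r) / p.κ := by unfold q; ring
  rw [h17, abs_div, abs_of_pos hκ, div_le_iff₀ hκ]
  linarith

lemma a_mono : MonotoneOn p.a (Icc 0 1) := by
  intro r hr r' hr' h
  have := (abs_le.1 (p.q_lip hr.1 h hr'.2)).2
  unfold a; linarith

lemma b_mono : MonotoneOn p.b (Icc 0 1) := by
  intro r hr r' hr' h
  have := (abs_le.1 (p.q_lip hr.1 h hr'.2)).1
  unfold b; linarith

lemma q_cont : Continuous p.q := by unfold q D; fun_prop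
lemma a_cont : Continuous p.a := by have := p.q_cont; unfold a; fun_prop
lemma b_cont : Continuous p.b := by have := p.q_cont; unfold b; fun_prop

/-- path of `B` -/
noncomputable def B (t : ℝ) : E3 :=
  arc (p.τ * cl (3 * t)) + p.b (cl (3 * t - 1)) • (B₂ - arc p.τ)

/-- path of `A` -/
noncomputable def A (t : ℝ) : E3 :=
  p.a (cl (3 * t - 1)) • arc' p.τ + (arc' (p.τ * (1 - cl (3 * t - 2))) - arc' p.τ)

lemma B_first {t : ℝ} (h : t ≤ 1 / 3) : p.B t = arc (p.τ * cl (3 * t)) := by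
  unfold B; rw [cl_of_le (by linarith : 3 * t - 1 ≤ 0), b_zero, zero_smul, add_zero]

lemma B_second {t : ℝ} (h : 1 / 3 ≤ t) : p.B t = arc p.τ + p.b (cl (3 * t - 1)) • (B₂ - arc p.τ) := by
  unfold B; rw [cl_of_ge (by linarith : 1 ≤ 3 * t), mul_one]

lemma B_third {t : ℝ} (h : 2 / 3 ≤ t) : p.B t = B₂ := by
  rw [p.B_second (by linarith), cl_of_ge (by linarith : 1 ≤ 3 * t - 1), b_one, one_smul]
  abel

lemma A_second {t : ℝ} (h : t ≤ 2 / 3) : p.A t = p.a (cl (3 * t - 1)) • arc' p.τ := by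
  unfold A; rw [cl_of_le (by linarith : 3 * t - 2 ≤ 0), sub_zero, mul_one, sub_self, add_zero]

lemma A₁_eq : A₁ = 0 := by apply ext3 <;> simp [A₁]

lemma A_first {t : ℝ} (h : t ≤ 1 / 3) : p.A t = A₁ := by
  rw [p.A_second (by linarith), cl_of_le (by linarith : 3 * t - 1 ≤ 0), a_zero, zero_smul, A₁_eq]

lemma A_third {t : ℝ} (h : 2 / 3 ≤ t) : p.A t = arc' (p.τ * (1 - cl (3 * t - 2))) := by
  unfold A; rw [cl_of_ge (by linarith : 1 ≤ 3 * t - 1), a_one, one_smul]
  abel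

lemma isMotion : IsMotion p.A p.B where
  contA := by
    apply Continuous.continuousOn
    have h1 := p.a_cont
    have h2 := cl_cont
    have h3 := arc'_lip.continuous
    unfold A
    fun_prop
  contB := by
    apply Continuous.continuousOn
    have h1 := p.b_cont
    have h2 := cl_cont
    have h3 := arc_lip.continuous
    unfold B
    fun_prop
  dist_eq t ht := by
    rcases le_or_gt t (1 / 3) with h1 | h1
    · rw [p.A_first h1, p.B_first h1, dist_comm]; exact arc_dist _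
    · rcases le_or_gt (2 / 3) t with h2 | h2
      · rw [p.A_third h2, p.B_third h2]; exact arc'_dist _
      · rw [p.A_second h2.le, p.B_second h1.le, cl_of_mem (by linarith) (by linarith)]
        set r := 3 * t - 1 with hr
        have hr0 : 0 ≤ r := by rw [hr]; linarith
        have hr1 : r ≤ 1 := by rw [hr]; linarith
        apply dist_eq_of_sq (Real.sqrt_nonneg _)
        have hq := p.q_eq hr0 hr1
        have hx := p.xyz
        have ea : p.a r = r - p.q r / 2 := rfl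
        have eb : p.b r = r + p.q r / 2 := rfl
        have k0 : (p.a r • arc' p.τ) 0 = p.a r * (1 - p.x) := by simp [arc', x]
        have k1 : (p.a r • arc' p.τ) 1 = p.a r * p.y := by simp [arc', y]
        have k2 : (p.a r • arc' p.τ) 2 = p.a r * (2 - p.z) := by simp [arc', z]
        have l0 : (arc p.τ + p.b r • (B₂ - arc p.τ)) 0 = p.x + p.b r * (1 - p.x) := by
          simp [arc, B₂, x]
        have l1 : (arc p.τ + p.b r • (B₂ - arc p.τ)) 1 = p.y - p.b r * p.y := by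
          simp [arc, B₂, y]; ring
        have l2 : (arc p.τ + p.b r • (B₂ - arc p.τ)) 2 = p.z + p.b r * (2 - p.z) := by
          simp [arc, B₂, z]
        rw [dist3, sq2, k0, k1, k2, l0, l1, l2, ea, eb]
        have eκ : p.κ = (1 - p.x) ^ 2 + (2 - p.z) ^ 2 := rfl
        have eμ : p.μ = p.x + 2 * p.z - 2 + p.y ^ 2 := rfl
        rw [eκ, eμ] at hq
        linear_combination hq + (1 - 2 * p.q r) * hx
  A_zero := p.A_first (by norm_num)
  B_zero := by
    rw [p.B_first (by norm_num), mul_zero, cl_of_le le_rfl, mul_zero, arc_zero]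
  A_one := by
    rw [p.A_third (by norm_num), cl_of_ge (by norm_num), sub_self, mul_zero, arc'_zero]
  B_one := p.B_third (by norm_num)

/-- the distance travelled on the straight part -/
lemma dist_B₂ : dist (arc p.τ) B₂ ^ 2 = 7 - 2 * (p.x + 2 * p.z) := by
  have h := p.xyz
  have k0 : (arc p.τ) 0 = p.x := by simp [arc, x]
  have k1 : (arc p.τ) 1 = p.y := by simp [arc, y]
  have k2 : (arc p.τ) 2 = p.z := by simp [arc, z]
  rw [dist3, k0, k1, k2]
  simp [B₂]
  linear_combination h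

lemma norm_arc' : ‖arc' p.τ‖ ^ 2 = 7 - 2 * (p.x + 2 * p.z) := by
  have h := p.xyz
  have k0 : (arc' p.τ) 0 = 1 - p.x := by simp [arc', x]
  have k1 : (arc' p.τ) 1 = p.y := by simp [arc', y]
  have k2 : (arc' p.τ) 2 = 2 - p.z := by simp [arc', z]
  rw [norm3, k0, k1, k2]
  linear_combination h

lemma costB : eVariationOn p.B (Icc 0 1) ≤
    ENNReal.ofReal (Real.sqrt 2 * p.τ + dist (arc p.τ) B₂) := by
  have e1 := eVariationOn.Icc_add_Icc p.B (s := univ) (by norm_num : (0 : ℝ) ≤ 1 / 3)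
    (by norm_num : (1 / 3 : ℝ) ≤ 2 / 3) (mem_univ _)
  have e2 := eVariationOn.Icc_add_Icc p.B (s := univ) (by norm_num : (0 : ℝ) ≤ 2 / 3)
    (by norm_num : (2 / 3 : ℝ) ≤ 1) (mem_univ _)
  simp only [univ_inter] at e1 e2
  rw [← e2, ← e1]
  have v1 : eVariationOn p.B (Icc 0 (1 / 3)) ≤ ENNReal.ofReal (Real.sqrt 2 * p.τ) := by
    rw [eVariationOn.congr (g := fun t => arc (p.τ * cl (3 * t)))
      (fun t ht => p.B_first ht.2)]
    have hm : MonotoneOn (fun t => p.τ * cl (3 * t)) (Icc 0 (1 / 3)) := by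
      intro a _ b _ h
      exact mul_le_mul_of_nonneg_left (cl_mono (by linarith)) p.τ0
    refine (var_comp arc_lip (by norm_num) hm).trans ?_
    apply ENNReal.ofReal_le_ofReal
    rw [cl_of_ge (by norm_num : (1 : ℝ) ≤ 3 * (1 / 3)), cl_of_le (by norm_num : (3 : ℝ) * 0 ≤ 0)]
    simp [s2_coe]
  have v2 : eVariationOn p.B (Icc (1 / 3) (2 / 3)) ≤ ENNReal.ofReal (dist (arc p.τ) B₂) := by
    rw [eVariationOn.congr (g := fun t => (fun r : ℝ => arc p.τ + r • (B₂ - arc p.τ))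
      (p.b (cl (3 * t - 1)))) (fun t ht => p.B_second ht.1)]
    have hm : MonotoneOn (fun t => p.b (cl (3 * t - 1))) (Icc (1 / 3) (2 / 3)) := by
      intro a _ b _ h
      exact p.b_mono ⟨cl_nonneg _, cl_le_one _⟩ ⟨cl_nonneg _, cl_le_one _⟩ (cl_mono (by linarith))
    have hl : LipschitzWith ‖B₂ - arc p.τ‖₊ (fun r : ℝ => arc p.τ + r • (B₂ - arc p.τ)) := by
      refine LipschitzWith.of_dist_le_mul fun r s => ?_
      rw [dist_add_left, dist_eq_norm, ← sub_smul, norm_smul, mul_comm, Real.dist_eq]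
      exact le_rfl
    refine (var_comp hl (by norm_num) hm).trans ?_
    apply ENNReal.ofReal_le_ofReal
    rw [cl_of_ge (by norm_num : (1 : ℝ) ≤ 3 * (2 / 3) - 1),
      cl_of_le (by norm_num : (3 : ℝ) * (1 / 3) - 1 ≤ 0), b_one, b_zero, sub_zero, mul_one,
      coe_nnnorm, ← dist_eq_norm, dist_comm]
  have v3 : eVariationOn p.B (Icc (2 / 3) 1) = 0 := by
    rw [eVariationOn.congr (g := fun _ => B₂) (fun t ht => p.B_third ht.1)]
    apply eVariationOn.constant_on
    rintro _ ⟨a, _, rfl⟩ _ ⟨b, _, rfl⟩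
    rfl
  have hτ := p.τ0
  rw [v3, add_zero, ENNReal.ofReal_add (by positivity) dist_nonneg]
  exact add_le_add v1 v2

lemma costA : eVariationOn p.A (Icc 0 1) ≤
    ENNReal.ofReal (Real.sqrt 2 * p.τ + ‖arc' p.τ‖) := by
  have e1 := eVariationOn.Icc_add_Icc p.A (s := univ) (by norm_num : (0 : ℝ) ≤ 1 / 3)
    (by norm_num : (1 / 3 : ℝ) ≤ 2 / 3) (mem_univ _)
  have e2 := eVariationOn.Icc_add_Icc p.A (s := univ) (by norm_num : (0 : ℝ) ≤ 2 / 3)
    (by norm_num : (2 / 3 : ℝ) ≤ 1) (mem_univ _)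
  simp only [univ_inter] at e1 e2
  rw [← e2, ← e1]
  have v3 : eVariationOn p.A (Icc (2 / 3) 1) ≤ ENNReal.ofReal (Real.sqrt 2 * p.τ) := by
    rw [eVariationOn.congr (g := fun t => (fun r : ℝ => arc' (-r)) (-(p.τ * (1 - cl (3 * t - 2)))))
      (fun t ht => by simp only [neg_neg]; exact p.A_third ht.1)]
    have hm : MonotoneOn (fun t => -(p.τ * (1 - cl (3 * t - 2)))) (Icc (2 / 3) 1) := by
      intro a _ b _ h
      have h1 : cl (3 * a - 2) ≤ cl (3 * b - 2) := cl_mono (by linarith)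
      have h2 : p.τ * cl (3 * a - 2) ≤ p.τ * cl (3 * b - 2) := mul_le_mul_of_nonneg_left h1 p.τ0
      simp only
      linarith
    have hl : LipschitzWith s2 (fun r : ℝ => arc' (-r)) := by
      refine LipschitzWith.of_dist_le_mul fun r s => ?_
      have := arc'_lip.dist_le_mul (-r) (-s)
      rwa [dist_neg_neg] at this
    refine (var_comp hl (by norm_num) hm).trans ?_
    apply ENNReal.ofReal_le_ofReal
    rw [cl_of_ge (by norm_num : (1 : ℝ) ≤ 3 * 1 - 2),
      cl_of_le (by norm_num : (3 : ℝ) * (2 / 3) - 2 ≤ 0)]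
    simp [s2_coe]
  have v2 : eVariationOn p.A (Icc (1 / 3) (2 / 3)) ≤ ENNReal.ofReal ‖arc' p.τ‖ := by
    rw [eVariationOn.congr (g := fun t => (fun r : ℝ => r • arc' p.τ)
      (p.a (cl (3 * t - 1)))) (fun t ht => p.A_second ht.2)]
    have hm : MonotoneOn (fun t => p.a (cl (3 * t - 1))) (Icc (1 / 3) (2 / 3)) := by
      intro a _ b _ h
      exact p.a_mono ⟨cl_nonneg _, cl_le_one _⟩ ⟨cl_nonneg _, cl_le_one _⟩ (cl_mono (by linarith))
    have hl : LipschitzWith ‖arc' p.τ‖₊ (fun r : ℝ => r • arc' p.τ) := by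
      refine LipschitzWith.of_dist_le_mul fun r s => ?_
      rw [dist_eq_norm, ← sub_smul, norm_smul, mul_comm, Real.dist_eq]
      exact le_rfl
    refine (var_comp hl (by norm_num) hm).trans ?_
    apply ENNReal.ofReal_le_ofReal
    rw [cl_of_ge (by norm_num : (1 : ℝ) ≤ 3 * (2 / 3) - 1),
      cl_of_le (by norm_num : (3 : ℝ) * (1 / 3) - 1 ≤ 0), a_one, a_zero, sub_zero, mul_one,
      coe_nnnorm]
  have v1 : eVariationOn p.A (Icc 0 (1 / 3)) = 0 := by
    rw [eVariationOn.congr (g := fun _ => A₁) (fun t ht => p.A_first ht.2)]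
    apply eVariationOn.constant_on
    rintro _ ⟨a, _, rfl⟩ _ ⟨b, _, rfl⟩
    rfl
  have hτ := p.τ0
  rw [v1, zero_add, add_comm, ENNReal.ofReal_add (by positivity) (norm_nonneg _)]
  exact add_le_add v3 v2

end Pr

end Pool.Agent.X147.Seg
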