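import Mathlib

set_option autoImplicit false

/-! # Braced polygons: rigidity and flexibility in the plane `ℂ` -/

open Set Filter Topology

namespace Pool.Agent.X147.BP

/-- A continuous motion of the framework `(G, p)`: all bars keep their lengths. -/
structure IsMotion {n : ℕ} (G : SimpleGraph (Fin n)) (p : Fin n → ℂ) (P : ℝ → Fin n → ℂ) :
    Prop where
  cont : ContinuousOn P (Icc 0 1)
  start : P 0 = p
  bars : ∀ t ∈ Icc (0 : ℝ) 1, ∀ u w, G.Adj u w → dist (P t u) (P t w) = dist (p u) (p w)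

/-- The framework `(G, p)` is flexible: there is a motion reaching a configuration not congruent
to `p`. -/
def Flexible {n : ℕ} (G : SimpleGraph (Fin n)) (p : Fin n → ℂ) : Prop :=
  ∃ P : ℝ → Fin n → ℂ, IsMotion G p P ∧ ∃ t ∈ Icc (0 : ℝ) 1, ¬ Congruent (P t) p

/-- inner product of plane vectors -/
def ip (z w : ℂ) : ℝ := z.re * w.re + z.im * w.im

lemma ip_continuous : Continuous fun x : ℂ × ℂ => ip x.1 x.2 := by
  unfold ip; fun_prop

/-- rigidity up to second order: a local uniqueness statement -/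
lemma local_unique {n : ℕ} (G : SimpleGraph (Fin n)) (p : Fin n → ℂ) (u₀ v₀ : Fin n)
    (hIR : ∀ m : Fin n → ℂ, m u₀ = 0 → m v₀ = 0 →
      (∀ u w, G.Adj u w → ip (p u - p w) (m u - m w) = 0) → m = 0) :
    ∀ᶠ q in 𝓝 p, q u₀ = p u₀ → q v₀ = p v₀ →
      (∀ u w, G.Adj u w → dist (q u) (q w) = dist (p u) (p w)) → q = p := by
  classical
  set Ψ : (Fin n → ℂ) × (Fin n → ℂ) → ℝ := fun x =>
    (∑ u, ∑ w, if G.Adj u w then (ip (x.1 u - x.1 w) (x.2 u - x.2 w)) ^ 2 else 0) +
      (‖x.2 u₀‖ ^ 2 + ‖x.2 v₀‖ ^ 2) with hΨ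
  have hcont : Continuous Ψ := by
    rw [hΨ]
    refine Continuous.add ?_ (by fun_prop)
    refine continuous_finsetSum _ fun u _ => continuous_finsetSum _ fun w _ => ?_
    split_ifs
    · unfold ip; fun_prop
    · exact continuous_const
  have hnn : ∀ x, (∀ u w, G.Adj u w → ip (x.1 u - x.1 w) (x.2 u - x.2 w) = 0) → x.2 u₀ = 0 →
      x.2 v₀ = 0 → Ψ x = 0 := by
    intro x h1 h2 h3
    simp only [hΨ, h2, h3, norm_zero]
    rw [Finset.sum_eq_zero fun u _ => Finset.sum_eq_zero fun w _ => ?_]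
    · simp
    · split_ifs with h
      · rw [h1 u w h]; simp
      · rfl
  have hpos : ∀ m, m ≠ 0 → 0 < Ψ (p, m) := by
    intro m hm
    have h0 : 0 ≤ Ψ (p, m) := by
      simp only [hΨ]
      refine add_nonneg (Finset.sum_nonneg fun u _ => Finset.sum_nonneg fun w _ => ?_)
        (by positivity)
      split_ifs
      · positivity
      · exact le_rfl
    refine lt_of_le_of_ne h0 fun hz => hm ?_
    simp only [hΨ] at hz
    have hA : 0 ≤ ∑ u, ∑ w, (if G.Adj u w then (ip (p u - p w) (m u - m w)) ^ 2 else 0) := by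
      refine Finset.sum_nonneg fun u _ => Finset.sum_nonneg fun w _ => ?_
      split_ifs
      · positivity
      · exact le_rfl
    have h1 : ‖m u₀‖ ^ 2 = 0 := by nlinarith [sq_nonneg ‖m u₀‖, sq_nonneg ‖m v₀‖]
    have h2 : ‖m v₀‖ ^ 2 = 0 := by nlinarith [sq_nonneg ‖m u₀‖, sq_nonneg ‖m v₀‖]
    have h3 : ∑ u, ∑ w, (if G.Adj u w then (ip (p u - p w) (m u - m w)) ^ 2 else 0) = 0 := by
      linarith
    refine hIR m (by simpa using h1) (by simpa using h2) fun u w huw => ?_
    rw [Finset.sum_eq_zero_iff_of_nonneg] at h3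
    · have h4 := h3 u (Finset.mem_univ u)
      rw [Finset.sum_eq_zero_iff_of_nonneg] at h4
      · have h5 := h4 w (Finset.mem_univ w)
        rw [if_pos huw] at h5
        simpa using h5
      · intro w _
        split_ifs
        · positivity
        · exact le_rfl
    · intro u _
      refine Finset.sum_nonneg fun w _ => ?_
      split_ifs
      · positivity
      · exact le_rfl
  have hK : IsCompact (Metric.sphere (0 : Fin n → ℂ) 1) := isCompact_sphere _ _
  have hev : ∀ᶠ r in 𝓝 p, ∀ m ∈ Metric.sphere (0 : Fin n → ℂ) 1, 0 < Ψ (r, m) := by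
    refine hK.eventually_forall_of_forall_eventually fun m hm => ?_
    have hm0 : m ≠ 0 := by
      rintro rfl
      simp at hm
    exact hcont.continuousAt.eventually (lt_mem_nhds (hpos m hm0))
  have hmid : Tendsto (fun q : Fin n → ℂ => (1 / 2 : ℝ) • (q + p)) (𝓝 p) (𝓝 p) := by
    have : Continuous fun q : Fin n → ℂ => (1 / 2 : ℝ) • (q + p) := by fun_prop
    have h := this.tendsto p
    have e : (1 / 2 : ℝ) • (p + p) = p := by
      rw [← two_smul ℝ p, smul_smul]; norm_num
    rwa [e] at h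
  filter_upwards [hmid.eventually hev] with q hq h1 h2 h3
  by_contra hne
  set m : Fin n → ℂ := q - p with hm
  have hm0 : m ≠ 0 := fun h => hne (sub_eq_zero.1 h)
  have hnm : 0 < ‖m‖ := norm_pos_iff.2 hm0
  have hmem : (‖m‖⁻¹ : ℝ) • m ∈ Metric.sphere (0 : Fin n → ℂ) 1 := by
    rw [mem_sphere_zero_iff_norm, norm_smul, Real.norm_of_nonneg (by positivity),
      inv_mul_cancel₀ hnm.ne']
  have h4 := hq _ hmem
  rw [hnn] at h4
  · exact lt_irrefl _ h4
  · intro u w huw
    have h5 := h3 u w huw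
    have h6 : ‖q u - q w‖ ^ 2 = ‖p u - p w‖ ^ 2 := by
      rw [dist_eq_norm, dist_eq_norm] at h5; rw [h5]
    rw [← Complex.normSq_eq_norm_sq, ← Complex.normSq_eq_norm_sq, Complex.normSq_apply,
      Complex.normSq_apply] at h6
    simp only [Complex.sub_re, Complex.sub_im] at h6
    simp only [ip, hm, Pi.smul_apply, Pi.add_apply, Pi.sub_apply, Complex.sub_re, Complex.sub_im,
      Complex.smul_re, Complex.smul_im, Complex.add_re, Complex.add_im, smul_eq_mul]
    linear_combination (‖m‖⁻¹ / 2) * h6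
  · simp [hm, h1]
  · simp [hm, h2]

/-- Infinitesimally rigid frameworks are rigid. -/
lemma rigid_of_IR {n : ℕ} (G : SimpleGraph (Fin n)) (p : Fin n → ℂ) (u₀ v₀ : Fin n)
    (hadj : G.Adj u₀ v₀) (hne : p u₀ ≠ p v₀)
    (hIR : ∀ m : Fin n → ℂ, m u₀ = 0 → m v₀ = 0 →
      (∀ u w, G.Adj u w → ip (p u - p w) (m u - m w) = 0) → m = 0) :
    ¬ Flexible G p := by
  rintro ⟨P, hP, t₁, ht₁, hcong⟩
  apply hcong
  set c : ℝ → ℂ := fun t => (p v₀ - p u₀) / (P t v₀ - P t u₀) with hc
  set Q : ℝ → Fin n → ℂ := fun t v => p u₀ + (P t v - P t u₀) * c t with hQ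
  have hbase : ∀ t ∈ Icc (0 : ℝ) 1, P t v₀ - P t u₀ ≠ 0 := by
    intro t ht h
    have h1 := hP.bars t ht u₀ v₀ hadj
    rw [dist_comm, dist_eq_norm, h, norm_zero] at h1
    exact hne (dist_eq_zero.1 h1.symm)
  have hc1 : ∀ t ∈ Icc (0 : ℝ) 1, ‖c t‖ = 1 := by
    intro t ht
    have h1 := hP.bars t ht v₀ u₀ hadj.symm
    rw [dist_eq_norm, dist_eq_norm] at h1
    simp only [hc, norm_div, ← h1]
    exact div_self (norm_ne_zero_iff.2 (hbase t ht))
  have hdist : ∀ t ∈ Icc (0 : ℝ) 1, ∀ u w, dist (Q t u) (Q t w) = dist (P t u) (P t w) := by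
    intro t ht u w
    rw [dist_eq_norm, dist_eq_norm]
    have : Q t u - Q t w = (P t u - P t w) * c t := by simp only [hQ]; ring
    rw [this, norm_mul, hc1 t ht, mul_one]
  have hQu : ∀ t, Q t u₀ = p u₀ := by intro t; simp [hQ]
  have hQv : ∀ t ∈ Icc (0 : ℝ) 1, Q t v₀ = p v₀ := by
    intro t ht
    simp only [hQ, hc]
    rw [mul_div_cancel₀ _ (hbase t ht)]; ring
  have hQ0 : Q 0 = p := by
    funext v
    simp only [hQ, hc, hP.start]
    have : p v₀ - p u₀ ≠ 0 := sub_ne_zero.2 hne.symm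
    rw [div_self this]; ring
  have hPc : ∀ v, ContinuousOn (fun t => P t v) (Icc 0 1) := fun v =>
    (continuous_apply v).comp_continuousOn hP.cont
  have hQc : ContinuousOn Q (Icc 0 1) := by
    refine continuousOn_pi.2 fun v => ?_
    simp only [hQ, hc]
    refine ContinuousOn.add continuousOn_const (ContinuousOn.mul ((hPc v).sub (hPc u₀)) ?_)
    exact ContinuousOn.div continuousOn_const ((hPc v₀).sub (hPc u₀)) hbase
  have hloc := local_unique G p u₀ v₀ hIR
  -- clopen argument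
  set Q' : Icc (0 : ℝ) 1 → Fin n → ℂ := fun t => Q t with hQ'
  have hQ'c : Continuous Q' := continuousOn_iff_continuous_restrict.1 hQc
  have hS : IsClopen {t : Icc (0 : ℝ) 1 | Q' t = p} := by
    refine ⟨isClosed_eq hQ'c continuous_const, ?_⟩
    rw [isOpen_iff_mem_nhds]
    intro t ht
    have ht' : Q' t = p := ht
    have h1 : ∀ᶠ s in 𝓝 t, Q' s ∈ {q | q u₀ = p u₀ → q v₀ = p v₀ →
        (∀ u w, G.Adj u w → dist (q u) (q w) = dist (p u) (p w)) → q = p} := by
      have := hQ'c.continuousAt (x := t)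
      rw [ContinuousAt, ht'] at this
      exact this.eventually hloc
    filter_upwards [h1] with s hs
    refine hs (hQu s) (hQv s s.2) fun u w huw => ?_
    rw [show Q' s = Q s from rfl, hdist s s.2, hP.bars s s.2 u w huw]
  have huniv : {t : Icc (0 : ℝ) 1 | Q' t = p} = univ := by
    refine hS.eq_univ ⟨⟨0, by simp⟩, ?_⟩
    exact hQ0
  have h2 : Q t₁ = p := by
    have : (⟨t₁, ht₁⟩ : Icc (0 : ℝ) 1) ∈ {t : Icc (0 : ℝ) 1 | Q' t = p} := by
      rw [huniv]; trivial
    exact this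
  intro u w
  rw [edist_dist, edist_dist, ← hdist t₁ ht₁, h2]

end Pool.Agent.X147.BP
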