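import Mathlib
import Pool.Agent.X147.SetF

set_option autoImplicit false

/-! # Exact area and perimeter for `k = n + 1` -/

open MeasureTheory Set Complex Filter Topology
open scoped ENNReal Real

namespace Pool.Agent.X147.SP

/-- length of the boundary -/
noncomputable def perim (U : Set ℂ) : ℝ :=
  ((Measure.hausdorffMeasure (1 : ℝ) : Measure ℂ) (frontier U)).toReal

/-- area -/
noncomputable def area (U : Set ℂ) : ℝ := (volume U).toReal

lemma exact_formulas {n : ℕ} (hn : 3 ≤ n) {A : Fin (n + 1) → ℂ}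
    (hA : IsMarkedBasicSetup (n + 1) n A) :
    ∀ᶠ ε in 𝓝 (0 : ℝ),
      perim (shiftedUnion n A ε) = perim (shiftedUnion n A 0) ∧
      area (shiftedUnion n A ε) = area (shiftedUnion n A 0) -
        ε ^ 2 * (n * (n + 1) * Real.tan (π / (n + 1)) / (8 * Real.sin (π / n) ^ 2)) := by
  have hcop : Nat.Coprime (n + 1) n := by simp
  obtain ⟨P, hPk, hPn, hPR, hU⟩ := shiftedUnion_eq (by omega) hn hcop hA
  have g0 : P.Good 0 := P.eventually_good.self_of_nhds
  -- the coefficient
  have hdvd : (P.n : ℤ) ∣ P.p + 1 := by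
    obtain ⟨z, hz⟩ := P.hp
    rw [hPk, hPn] at hz
    rw [hPn]
    push_cast at hz
    exact ⟨z - P.p, by linarith⟩
  have hn0 : (0 : ℝ) < n := by exact_mod_cast (by omega : 0 < n)
  have hn3 : (3 : ℝ) ≤ n := by exact_mod_cast hn
  have hπ := Real.pi_pos
  have hE : P.E = -Real.tan (π / (n + 1)) := by
    have h1 : Real.cos ((P.p + 1) * (2 * π / P.n)) = 1 := by
      obtain ⟨z, hz⟩ := hdvd
      have hP0 := P.n0
      have e : ((P.p : ℝ) + 1) * (2 * π / P.n) = (z : ℝ) * (2 * π) := by
        have : (P.p : ℝ) + 1 = P.n * z := by exact_mod_cast hz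
        rw [this]; field_simp
      rw [e, Real.cos_int_mul_two_pi]
    have h2 : (P.k - 1) * P.δ = 2 * (π / (n + 1)) := by
      unfold Par.δ
      rw [hPk, hPn]
      push_cast
      field_simp
      ring
    unfold Par.E
    rw [h1, h2]
    set y := π / ((n : ℝ) + 1) with hy
    have hy0 : 0 < y := by positivity
    have hy1 : y < π / 2 := by
      rw [hy, div_lt_div_iff₀ (by linarith) (by norm_num)]; nlinarith
    have hs : 0 < Real.sin y := Real.sin_pos_of_pos_of_lt_pi hy0 (by linarith)
    have hc : 0 < Real.cos y := Real.cos_pos_of_mem_Ioo ⟨by linarith, hy1⟩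
    rw [Real.tan_eq_sin_div_cos, Real.sin_two_mul, Real.cos_two_mul]
    have := Real.sin_sq_add_cos_sq y
    field_simp
    linear_combination 2 * this
  have hk0 := P.k0
  have hPn0 := P.n0
  have hR := P.hR
  have hC := P.C0
  have hT := P.T_pos
  have hp : ∀ ε, P.Good ε → perim (shiftedUnion n A ε) = 2 * (P.k * P.n) * (P.R * P.C) * P.T := by
    intro ε hg
    unfold perim
    rw [hU ε hg.h0, P.perim hg, P.sum_perim, ENNReal.toReal_ofReal (by positivity)]
  have ha : ∀ ε, P.Good ε → area (shiftedUnion n A ε) =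
      P.k * P.n * P.R ^ 2 * (P.C ^ 2 * P.T + ε ^ 2 * P.E / 2) := by
    intro ε hg
    unfold area
    have h2 := (P.ratio_eq hg).2
    rw [hU ε hg.h0, P.area hg, P.sum_area, ENNReal.toReal_ofReal (by positivity)]
  filter_upwards [P.eventually_good] with ε hg
  refine ⟨by rw [hp ε hg, hp 0 g0], ?_⟩
  rw [ha ε hg, ha 0 g0, hE, hPk, hPn, hPR]
  have hs := sinn_pos hn
  push_cast
  field_simp
  ring

end Pool.Agent.X147.SP
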