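import Mathlib
import Pool.Agent.Results.MP_e3c312_co.CuspSymmetry

set_option autoImplicit false
set_option maxHeartbeats 4000000

/-!
The example of `CuspSymmetry` in the form of the frozen statement `S12060`: the configuration space
is a subspace of the space of all placements modulo isometries.
-/

namespace Pool.Agent.X147.Cusp

open Pool.Agent.Results.MP_e3c312_co.CuspSymmetry Topology

/-- the congruence relation on all placements -/
abbrev rel (q q' : Fin 7 → EuclideanSpace ℝ (Fin 3)) : Prop :=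
  ∃ T : EuclideanSpace ℝ (Fin 3) ≃ᵢ EuclideanSpace ℝ (Fin 3), ∀ i, T (q i) = q' i

/-- the space of all placements modulo isometries -/
abbrev Qt : Type := Quot rel

theorem rel_symm {q q' : Fin 7 → EuclideanSpace ℝ (Fin 3)} (h : rel q q') : rel q' q := by
  obtain ⟨T, hT⟩ := h
  exact ⟨T.symm, fun i => by rw [← hT i, T.symm_apply_apply]⟩

theorem rel_dist {q q' : Fin 7 → EuclideanSpace ℝ (Fin 3)} (h : rel q q') (i j : Fin 7) :
    dist (q i) (q j) = dist (q' i) (q' j) := by
  obtain ⟨T, hT⟩ := h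
  rw [← hT i, ← hT j, T.dist_eq]

/-- the invariant, on all placements -/
noncomputable def inv0 (q : Fin 7 → EuclideanSpace ℝ (Fin 3)) : ℝ :=
  dist (q 2) (q 6) ^ 2 - dist (q 1) (q 6) ^ 2

theorem inv0_congr (q q' : Fin 7 → EuclideanSpace ℝ (Fin 3)) (h : rel q q') : inv0 q = inv0 q' := by
  unfold inv0
  rw [rel_dist h, rel_dist h]

theorem inv0_continuous : Continuous inv0 := by
  unfold inv0
  fun_prop

/-- the invariant on the quotient -/
noncomputable def invQ : Qt → ℝ := Quot.lift inv0 inv0_congr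

theorem invQ_continuous : Continuous invQ := continuous_quot_lift _ inv0_continuous

/-- the local conditions, on all placements -/
def Near0 (q : Fin 7 → EuclideanSpace ℝ (Fin 3)) : Prop :=
  0 < dist (q 1) (q 2) ∧ dist (q 1) (q 2) ^ 2 < 8 ∧
    |dist (q 3) (q 4) ^ 2 - 25| < 12 / 100 ∧ dist (q 3) (q 5) ^ 2 < 5661

theorem near0_congr (q q' : Fin 7 → EuclideanSpace ℝ (Fin 3)) (h : rel q q') :
    Near0 q = Near0 q' := by
  unfold Near0
  rw [rel_dist h, rel_dist h, rel_dist h]

theorem near0_isOpen : IsOpen {q | Near0 q} := by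
  have c12 : Continuous fun q : Fin 7 → EuclideanSpace ℝ (Fin 3) => dist (q 1) (q 2) := by fun_prop
  have c34 : Continuous fun q : Fin 7 → EuclideanSpace ℝ (Fin 3) => dist (q 3) (q 4) := by fun_prop
  have c35 : Continuous fun q : Fin 7 → EuclideanSpace ℝ (Fin 3) => dist (q 3) (q 5) := by fun_prop
  refine (isOpen_lt continuous_const c12).inter ((isOpen_lt (c12.pow 2) continuous_const).inter
    ((isOpen_lt ((c34.pow 2).sub continuous_const).abs continuous_const).inter
      (isOpen_lt (c35.pow 2) continuous_const)))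

/-- the local conditions on the quotient -/
def NearQ : Qt → Prop := Quot.lift Near0 near0_congr

theorem nearQ_isOpen : IsOpen {c | NearQ c} := by
  refine isQuotientMap_quot_mk.isOpen_preimage.1 ?_
  exact near0_isOpen

theorem near0_std {x : ℝ} (hx : x ∈ Dom) : Near0 (std x) := by
  have hr := rel_std hx
  obtain ⟨h12, h34, h35, _, _, _, _⟩ := hr.nonedges
  have h1 := dom_X hx
  have h0 : 0 ≤ x ^ 2 := sq_nonneg x
  change dist (std x 1) (std x 2) ^ 2 = _ at h12
  change dist (std x 3) (std x 4) ^ 2 = _ at h34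
  change dist (std x 3) (std x 5) ^ 2 = _ at h35
  refine ⟨?_, ?_, ?_, ?_⟩
  · have hz := hr.z0
    have : dist (std x 1) (std x 2) ≠ 0 := by
      intro h
      rw [h] at h12
      have : 0 < 4 * fz (x ^ 2) ^ 2 := by positivity
      linarith
    positivity
  · rw [h12]
    have hA := hr.hA
    have hs : fs (x ^ 2) ≠ 0 := by
      intro h
      have := hr.hs
      rw [h] at this
      norm_num at this
    have : 0 < fs (x ^ 2) ^ 2 := by positivity
    linarith
  · rw [h34, abs_lt]
    constructor <;> nlinarith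
  · rw [h35]
    nlinarith

theorem param_dom (u : Set.Ioo (0 : ℝ) 1) : (2 * (u : ℝ) - 1) / 10 ∈ Dom := by
  obtain ⟨u, h1, h2⟩ := u
  constructor <;> simp only <;> linarith

/-- the curve of classes -/
noncomputable def cur (u : Set.Ioo (0 : ℝ) 1) : Qt := Quot.mk rel (std ((2 * (u : ℝ) - 1) / 10))

theorem cur_continuous : Continuous cur := by
  unfold cur
  refine continuous_quot_mk.comp ?_
  exact cont_std.comp_continuous (by fun_prop) (fun u => param_dom u)

theorem inv0_std {x : ℝ} (hx : x ∈ Dom) : inv0 (std x) = 4 * fh x := inv_std hx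

theorem cur_isEmbedding : Topology.IsEmbedding cur := by
  refine Topology.IsEmbedding.of_comp cur_continuous invQ_continuous ?_
  have hc : Continuous (invQ ∘ cur) := invQ_continuous.comp cur_continuous
  have hm : StrictMono (invQ ∘ cur) := by
    intro y y' h
    have e : ∀ u, (invQ ∘ cur) u = 4 * fh ((2 * (u : ℝ) - 1) / 10) := fun u =>
      inv0_std (param_dom u)
    rw [e, e]
    have h' : (2 * (y : ℝ) - 1) / 10 < (2 * (y' : ℝ) - 1) / 10 := by
      have : (y : ℝ) < y' := h
      linarith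
    have := fh_strictMono (param_dom y) (param_dom y') h'
    linarith
  refine hm.isEmbedding_of_ordConnected ?_
  have : PreconnectedSpace (Set.Ioo (0 : ℝ) 1) :=
    Subtype.preconnectedSpace isPreconnected_Ioo
  exact (isPreconnected_range hc).ordConnected

/-- the classes of realizations -/
def RR : Set Qt := {x : Qt | ∃ q : Fin 7 → EuclideanSpace ℝ (Fin 3),
  Quot.mk rel q = x ∧ ∀ i j : Fin 7, G7.Adj i j → dist (q i) (q j) = dist (p7 i) (p7 j)}

theorem range_eq : Set.range cur = {c | NearQ c} ∩ RR := by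
  ext c
  constructor
  · rintro ⟨u, rfl⟩
    exact ⟨near0_std (param_dom u), _, rfl, fun i j h => std_mem (param_dom u) i j h⟩
  · rintro ⟨hn, q, rfl, hq⟩
    obtain ⟨h1, h2, h3, h4⟩ : Near0 q := hn
    obtain ⟨T, x, hx, hT⟩ := local_unique q hq h1 h2 h3 h4
    have hx10 : (10 * x + 1) / 2 ∈ Set.Ioo (0 : ℝ) 1 := by
      obtain ⟨a, b⟩ := hx
      constructor <;> linarith
    refine ⟨⟨(10 * x + 1) / 2, hx10⟩, ?_⟩
    refine (Quot.sound ⟨T, fun i => ?_⟩).symm
    rw [hT i]
    congr 1
    ring_nf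

/-- the group -/
def Gam' : Subgroup (EuclideanSpace ℝ (Fin 3) ≃ᵢ EuclideanSpace ℝ (Fin 3)) where
  carrier := {g | g = 1 ∨ g = refl3}
  one_mem' := Or.inl rfl
  mul_mem' := by
    have h : refl3 * refl3 = 1 := refl3_mul
    rintro a b (rfl | rfl) (rfl | rfl)
    · left; simp
    · right; simp
    · right; simp
    · left; exact h
  inv_mem' := by
    have h : refl3 * refl3 = 1 := refl3_mul
    rintro a (rfl | rfl)
    · left; simp
    · right; exact inv_eq_of_mul_eq_one_left h

instance : Finite Gam' := by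
  have : Finite ({1, refl3} : Set (EuclideanSpace ℝ (Fin 3) ≃ᵢ EuclideanSpace ℝ (Fin 3))) :=
    Set.toFinite _
  exact this

/-- the reflection -/
noncomputable def rr : Gam' := ⟨refl3, Or.inr rfl⟩

theorem gam_cases' (g : Gam') : g = 1 ∨ g = rr := by
  obtain ⟨g, hg⟩ := g
  rcases hg with h | h
  · left; exact Subtype.ext h
  · right; exact Subtype.ext h

theorem rr_mul : rr * rr = 1 := Subtype.ext refl3_mul

theorem rr_ne : rr ≠ 1 := fun h => refl3_ne (congrArg Subtype.val h)

open Classical in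
/-- the homomorphism to the permutations -/
noncomputable def theta' : Gam' →* Equiv.Perm (Fin 7) :=
  MonoidHom.mk' (fun g => if g = 1 then 1 else Equiv.swap 1 2) (by
    intro g h
    rcases gam_cases' g with rfl | rfl <;> rcases gam_cases' h with rfl | rfl
    · simp
    · simp
    · simp
    · rw [rr_mul, if_pos rfl, if_neg rr_ne, Equiv.swap_mul_self])

theorem theta'_rG : theta' rr = Equiv.swap 1 2 := by
  simp [theta', rr_ne]

theorem swap_adj (i j : Fin 7) :
    G7.Adj i j ↔ G7.Adj (Equiv.swap (1 : Fin 7) 2 i) (Equiv.swap (1 : Fin 7) 2 j) := by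
  revert i j
  decide

theorem adj_iff (g : Gam') (i j : Fin 7) : G7.Adj i j ↔ G7.Adj (theta' g i) (theta' g j) := by
  rcases gam_cases' g with rfl | rfl
  · rw [map_one]; rfl
  · rw [theta'_rG]; exact swap_adj i j

theorem symm' (g : Gam') (i : Fin 7) :
    (g : EuclideanSpace ℝ (Fin 3) ≃ᵢ EuclideanSpace ℝ (Fin 3)) (p7 i) = p7 (theta' g i) := by
  rcases gam_cases' g with rfl | rfl
  · rw [map_one]; rfl
  · rw [theta'_rG]
    have h := p7_symm rG i
    rw [theta_rG] at h
    exact h

/-- the motion -/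
noncomputable def mot (t : ℝ) : Fin 7 → EuclideanSpace ℝ (Fin 3) := std (t / 20)

theorem mot_dom {t : ℝ} (ht : t ∈ Set.Icc (0 : ℝ) 1) : t / 20 ∈ Dom := by
  obtain ⟨h0, h1⟩ := ht
  constructor <;> linarith

theorem mot_cont : ContinuousOn mot (Set.Icc 0 1) := by
  unfold mot
  exact cont_std.comp (by fun_prop) (fun t ht => mot_dom ht)

theorem mot_zero : mot 0 = p7 := by
  unfold mot
  rw [zero_div, std_zero]

theorem mot_mono (i j : Fin 7) : MonotoneOn (fun t => dist (mot t i) (mot t j)) (Set.Icc (0:ℝ) 1) := by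
  intro t ht t' ht' h
  exact std_dist_mono (by linarith [ht.1]) (by linarith) (mot_dom ht) (mot_dom ht') i j

theorem mot_change : dist (mot 1 3) (mot 1 4) ≠ dist (p7 3) (p7 4) := by
  have h1 : (1 : ℝ) / 20 ∈ Dom := mot_dom (t := 1) ⟨by norm_num, by norm_num⟩
  obtain ⟨_, h2, _⟩ := (rel_std h1).nonedges
  obtain ⟨_, h3, _⟩ := rel0.nonedges
  intro h
  have h4 : dist (mot 1 3) (mot 1 4) ^ 2 = dist (p7 3) (p7 4) ^ 2 := by rw [h]
  have h5 := (h2.symm.trans h4).trans h3
  norm_num at h5

theorem mot_inj : Set.InjOn (fun t => Quot.mk rel (mot t)) (Set.Icc (0:ℝ) 1) := by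
  intro t ht t' ht' h
  have h1 : invQ (Quot.mk rel (mot t)) = invQ (Quot.mk rel (mot t')) := congrArg invQ h
  have h2 : 4 * fh (t / 20) = 4 * fh (t' / 20) :=
    (inv0_std (mot_dom ht)).symm.trans (h1.trans (inv0_std (mot_dom ht')))
  have h3 := fh_strictMono.injOn (mot_dom ht) (mot_dom ht') (by linarith)
  linarith

theorem cur_half : cur ⟨1 / 2, by norm_num, by norm_num⟩ = Quot.mk rel p7 := by
  unfold cur
  rw [← std_zero]
  congr 2
  norm_num

theorem cur_mot (t : ℝ) (h : 1 / 2 + t / 4 ∈ Set.Ioo (0 : ℝ) 1) :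
    cur ⟨1 / 2 + t / 4, h⟩ = Quot.mk rel (mot t) := by
  unfold cur mot
  congr 2
  ring

theorem no_sym (T : EuclideanSpace ℝ (Fin 3) ≃ᵢ EuclideanSpace ℝ (Fin 3))
    (h : ∀ g : Gam', ∀ i : Fin 7,
      (g : EuclideanSpace ℝ (Fin 3) ≃ᵢ EuclideanSpace ℝ (Fin 3)) (T (mot 1 i)) =
        T (mot 1 (theta' g i))) : False := by
  have h1 : (1 : ℝ) / 20 ∈ Dom := mot_dom (t := 1) ⟨by norm_num, by norm_num⟩
  have e6 := h rr 6
  have e1 := h rr 1
  rw [theta'_rG] at e6 e1
  have s6 : Equiv.swap (1 : Fin 7) 2 6 = 6 := by decide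
  have s1 : Equiv.swap (1 : Fin 7) 2 1 = 2 := by decide
  rw [s6] at e6
  rw [s1] at e1
  have e6' : refl3 (T (mot 1 6)) = T (mot 1 6) := e6
  have e1' : refl3 (T (mot 1 1)) = T (mot 1 2) := e1
  have hd : dist (mot 1 2) (mot 1 6) = dist (mot 1 1) (mot 1 6) := by
    calc dist (mot 1 2) (mot 1 6)
        = dist (T (mot 1 2)) (T (mot 1 6)) := (T.dist_eq _ _).symm
      _ = dist (refl3 (T (mot 1 1))) (refl3 (T (mot 1 6))) := by rw [e1', e6']
      _ = dist (T (mot 1 1)) (T (mot 1 6)) := refl3.dist_eq _ _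
      _ = dist (mot 1 1) (mot 1 6) := T.dist_eq _ _
  have h2 : inv0 (mot 1) = 4 * fh (1 / 20) := inv0_std h1
  have h3 : inv0 (mot 1) = 0 := by
    unfold inv0; rw [hd, sub_self]
  have h5 : fh 0 = 0 := by simp [fh, fm]
  have h6 := fh_lt (x := 0) (y := 1 / 20) le_rfl (by norm_num) zero_dom h1
  linarith

end Pool.Agent.X147.Cusp
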