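import Mathlib

/-!
Geometry behind the Beer index problem: six points of the plane in general position, three red and
three blue, contain a convex quadrilateral whose diagonals are red-blue segments.
-/

namespace Pool.Agent.X147.Beer

/-- Twice the signed area of the triangle `a b c`. -/
def D (a b c : ℝ × ℝ) : ℝ := (b.1 - a.1) * (c.2 - a.2) - (b.2 - a.2) * (c.1 - a.1)

/-- Sign bit. -/
noncomputable def sg (x : ℝ) : ZMod 2 := if 0 < x then 1 else 0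

theorem sg_pos {x : ℝ} (h : 0 < x) : sg x = 1 := by simp [sg, h]

theorem sg_neg {x : ℝ} (h : x < 0) : sg x = 0 := by simp [sg, not_lt.mpr h.le]

theorem gp {P1 P2 P3 Q1 Q2 Q3 : ℝ} (h1 : P1 ≠ 0) (h2 : P2 ≠ 0) (h3 : P3 ≠ 0) (h4 : Q1 ≠ 0)
    (h5 : Q2 ≠ 0) (h6 : Q3 ≠ 0) (h : P1 * Q2 + P2 * Q3 + P3 * Q1 = 0) :
    ¬ (sg P1 + sg Q2 = sg P2 + sg Q3 ∧ sg P2 + sg Q3 = sg P3 + sg Q1) := by
  have key : ∀ {x y : ℝ}, x ≠ 0 → y ≠ 0 → ((0 < x * y ∧ sg x + sg y = 0) ∨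
      (x * y < 0 ∧ sg x + sg y = 1)) := by
    intro x y hx hy
    rcases lt_or_gt_of_ne hx with a | a <;> rcases lt_or_gt_of_ne hy with b | b
    · left
      exact ⟨mul_pos_of_neg_of_neg a b, by rw [sg_neg a, sg_neg b]; rfl⟩
    · right
      exact ⟨mul_neg_of_neg_of_pos a b, by rw [sg_neg a, sg_pos b]; rfl⟩
    · right
      exact ⟨mul_neg_of_pos_of_neg a b, by rw [sg_pos a, sg_neg b]; rfl⟩
    · left
      exact ⟨mul_pos a b, by rw [sg_pos a, sg_pos b]; rfl⟩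
  rintro ⟨e1, e2⟩
  rcases key h1 h5 with ⟨a, a'⟩ | ⟨a, a'⟩ <;> rcases key h2 h6 with ⟨b, b'⟩ | ⟨b, b'⟩ <;>
    rcases key h3 h4 with ⟨c, c'⟩ | ⟨c, c'⟩ <;> rw [a', b'] at e1 <;> rw [b', c'] at e2
  · linarith
  · exact absurd e2 (by decide)
  · exact absurd e1 (by decide)
  · exact absurd e1 (by decide)
  · exact absurd e1 (by decide)
  · exact absurd e1 (by decide)
  · exact absurd e2 (by decide)
  · linarith

/-- A Boolean function of three sign bits. -/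
def W (q1 q2 q3 : ZMod 2) : ZMod 2 := 1 + q1 * q2 + q1 * q3 + q2 * q3

theorem bool_five : ∀ p1 p2 p3 q1 q2 q3 r1 r2 r3 : ZMod 2,
    ¬ (p1 + q2 = p2 + q3 ∧ p2 + q3 = p3 + q1) →
    ¬ (p1 + r2 = p2 + r3 ∧ p2 + r3 = p3 + r1) →
    (1 + (p1 + p2)) * (1 + (q1 + r1)) + (1 + (p2 + p3)) * (1 + (q2 + r2))
      + (1 + (p3 + p1)) * (1 + (q3 + r3)) = 1 + W q1 q2 q3 + W r1 r2 r3 := by
  decide

/-- The weight of a point relative to the triangle `c d e`. -/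
noncomputable def w (c d e a : ℝ × ℝ) : ZMod 2 := W (sg (D c d a)) (sg (D d e a)) (sg (D e c a))

theorem five (a b c d e : ℝ × ℝ)
    (h1 : D a b c ≠ 0) (h2 : D a b d ≠ 0) (h3 : D a b e ≠ 0)
    (h4 : D c d a ≠ 0) (h5 : D d e a ≠ 0) (h6 : D e c a ≠ 0)
    (h7 : D c d b ≠ 0) (h8 : D d e b ≠ 0) (h9 : D e c b ≠ 0) :
    (1 + (sg (D a b c) + sg (D a b d))) * (1 + (sg (D c d a) + sg (D c d b)))
      + (1 + (sg (D a b d) + sg (D a b e))) * (1 + (sg (D d e a) + sg (D d e b)))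
      + (1 + (sg (D a b e) + sg (D a b c))) * (1 + (sg (D e c a) + sg (D e c b)))
      = 1 + w c d e a + w c d e b := by
  apply bool_five
  · exact gp h1 h2 h3 h4 h5 h6 (by simp only [D]; ring)
  · exact gp h1 h2 h3 h7 h8 h9 (by simp only [D]; ring)

theorem bool_term : ∀ p1 p2 q1 r1 : ZMod 2, ¬ (p1 = p2 ∧ q1 = r1) →
    (1 + (p1 + p2)) * (1 + (q1 + r1)) = 0 := by
  decide

theorem bool_sum : ∀ a b c : ZMod 2, (1 + a + b) + (1 + b + c) + (1 + c + a) = 1 := by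
  decide

/-- No red line separates the blue pair and no blue line separates the red pair. -/
def good (a b c d : ℝ × ℝ) : Prop :=
  sg (D a b c) = sg (D a b d) ∧ sg (D c d a) = sg (D c d b)

theorem exists_good (x1 x2 x3 y1 y2 y3 : ℝ × ℝ)
    (hx : ∀ y ∈ [y1, y2, y3], D x1 x2 y ≠ 0 ∧ D x2 x3 y ≠ 0 ∧ D x3 x1 y ≠ 0)
    (hy : ∀ x ∈ [x1, x2, x3], D y1 y2 x ≠ 0 ∧ D y2 y3 x ≠ 0 ∧ D y3 y1 x ≠ 0) :
    good x1 x2 y1 y2 ∨ good x1 x2 y2 y3 ∨ good x1 x2 y3 y1 ∨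
    good x2 x3 y1 y2 ∨ good x2 x3 y2 y3 ∨ good x2 x3 y3 y1 ∨
    good x3 x1 y1 y2 ∨ good x3 x1 y2 y3 ∨ good x3 x1 y3 y1 := by
  by_contra hcon
  simp only [not_or] at hcon
  obtain ⟨n1, n2, n3, n4, n5, n6, n7, n8, n9⟩ := hcon
  simp only [List.mem_cons, List.not_mem_nil, or_false, forall_eq_or_imp, forall_eq] at hx hy
  obtain ⟨⟨a1, a2, a3⟩, ⟨b1, b2, b3⟩, ⟨c1, c2, c3⟩⟩ := hx
  obtain ⟨⟨d1, d2, d3⟩, ⟨e1, e2, e3⟩, ⟨f1, f2, f3⟩⟩ := hy
  have t1 := five x1 x2 y1 y2 y3 a1 b1 c1 d1 d2 d3 e1 e2 e3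
  have t2 := five x2 x3 y1 y2 y3 a2 b2 c2 e1 e2 e3 f1 f2 f3
  have t3 := five x3 x1 y1 y2 y3 a3 b3 c3 f1 f2 f3 d1 d2 d3
  rw [bool_term _ _ _ _ n1, bool_term _ _ _ _ n2, bool_term _ _ _ _ n3] at t1
  rw [bool_term _ _ _ _ n4, bool_term _ _ _ _ n5, bool_term _ _ _ _ n6] at t2
  rw [bool_term _ _ _ _ n7, bool_term _ _ _ _ n8, bool_term _ _ _ _ n9] at t3
  have := bool_sum (w y1 y2 y3 x1) (w y1 y2 y3 x2) (w y1 y2 y3 x3)
  rw [← t1, ← t2, ← t3] at this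
  exact absurd this (by decide)

/-- A triangle with sides in `S` and twice its area at least `e`. -/
def Big (S : Set (ℝ × ℝ)) (e : ℝ) : Prop :=
  ∃ p q r : ℝ × ℝ, segment ℝ p q ⊆ S ∧ segment ℝ q r ⊆ S ∧ segment ℝ r p ⊆ S ∧ e ≤ |D p q r|

theorem core {S : Set (ℝ × ℝ)} {e : ℝ} (he : 0 < e) {x1 x2 y1 y2 : ℝ × ℝ}
    (s11 : segment ℝ x1 y1 ⊆ S) (s12 : segment ℝ x1 y2 ⊆ S)
    (s21 : segment ℝ x2 y1 ⊆ S) (s22 : segment ℝ x2 y2 ⊆ S)
    (h1 : e ≤ D x1 x2 y1) (h2 : e ≤ D x1 x2 y2) (h3 : e ≤ D y1 y2 x1) (h4 : e ≤ D y1 y2 x2) :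
    Big S (e / 2) := by
  have hQ : D x1 x2 y1 + D y1 y2 x1 = D x1 x2 y2 + D y1 y2 x2 := by
    simp only [D]; ring
  set d1 := D x1 x2 y1 with hd1
  set d2 := D x1 x2 y2 with hd2
  set d3 := D y1 y2 x1 with hd3
  set d4 := D y1 y2 x2 with hd4
  have q24 : 0 < d2 + d4 := by linarith
  have q13 : 0 < d1 + d3 := by linarith
  obtain ⟨p, hp⟩ : ∃ p, p = x1 + (d2 / (d2 + d4)) • (y1 - x1) := ⟨_, rfl⟩
  have hp' : p = x2 + (d1 / (d1 + d3)) • (y2 - x2) := by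
    rw [hp, hQ]
    ext
    · simp only [Prod.fst_add, Prod.smul_fst, Prod.fst_sub, smul_eq_mul]
      field_simp
      simp only [hd1, hd2, hd4, D]
      ring
    · simp only [Prod.snd_add, Prod.smul_snd, Prod.snd_sub, smul_eq_mul]
      field_simp
      simp only [hd1, hd2, hd4, D]
      ring
  have t0 : 0 ≤ d2 / (d2 + d4) := div_nonneg (by linarith) q24.le
  have t1 : d2 / (d2 + d4) ≤ 1 := by rw [div_le_one q24]; linarith
  have u0 : 0 ≤ d1 / (d1 + d3) := div_nonneg (by linarith) q13.le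
  have u1 : d1 / (d1 + d3) ≤ 1 := by rw [div_le_one q13]; linarith
  have m1 : p ∈ segment ℝ x1 y1 := by
    rw [segment_eq_image']
    exact ⟨_, ⟨t0, t1⟩, hp.symm⟩
  have m2 : p ∈ segment ℝ x2 y2 := by
    rw [segment_eq_image']
    exact ⟨_, ⟨u0, u1⟩, hp'.symm⟩
  have l1 : x1 ∈ segment ℝ x1 y1 := left_mem_segment ℝ _ _
  have r1 : y1 ∈ segment ℝ x1 y1 := right_mem_segment ℝ _ _
  have l2 : x2 ∈ segment ℝ x2 y2 := left_mem_segment ℝ _ _
  have r2 : y2 ∈ segment ℝ x2 y2 := right_mem_segment ℝ _ _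
  have c1 : Convex ℝ (segment ℝ x1 y1) := convex_segment _ _
  have c2 : Convex ℝ (segment ℝ x2 y2) := convex_segment _ _
  rcases le_total d4 d2 with hle | hle
  · refine ⟨x1, p, y2, (c1.segment_subset l1 m1).trans s11, (c2.segment_subset m2 r2).trans s22, ?_, ?_⟩
    · rw [segment_symm]; exact s12
    · have : D x1 p y2 = (d2 / (d2 + d4)) * d3 := by
        rw [hp]
        simp only [D, Prod.fst_add, Prod.smul_fst, Prod.fst_sub, smul_eq_mul, Prod.snd_add,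
          Prod.smul_snd, Prod.snd_sub, hd3]
        ring
      rw [this, abs_of_nonneg (mul_nonneg t0 (by linarith))]
      have : 1 / 2 ≤ d2 / (d2 + d4) := by
        rw [div_le_div_iff₀ (by norm_num) q24]; linarith
      nlinarith
  · refine ⟨x2, p, y1, (c2.segment_subset l2 m2).trans s22, (c1.segment_subset m1 r1).trans s11, ?_, ?_⟩
    · rw [segment_symm]; exact s21
    · have hh : D x2 p y1 = - ((d4 / (d2 + d4)) * d1) := by
        rw [hp']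
        have : d4 / (d2 + d4) * d1 = d1 / (d1 + d3) * d4 := by
          rw [hQ]; ring
        rw [this]
        simp only [D, Prod.fst_add, Prod.smul_fst, Prod.fst_sub, smul_eq_mul, Prod.snd_add,
          Prod.smul_snd, Prod.snd_sub, hd4]
        ring
      have h0 : 0 ≤ d4 / (d2 + d4) := div_nonneg (by linarith) q24.le
      rw [hh, abs_neg, abs_of_nonneg (mul_nonneg h0 (by linarith))]
      have : 1 / 2 ≤ d4 / (d2 + d4) := by
        rw [div_le_div_iff₀ (by norm_num) q24]; linarith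
      nlinarith

theorem D_swap (a b c : ℝ × ℝ) : D b a c = - D a b c := by
  simp only [D]; ring

theorem big_of_good {S : Set (ℝ × ℝ)} {e : ℝ} (he : 0 < e) {x1 x2 y1 y2 : ℝ × ℝ}
    (s11 : segment ℝ x1 y1 ⊆ S) (s12 : segment ℝ x1 y2 ⊆ S)
    (s21 : segment ℝ x2 y1 ⊆ S) (s22 : segment ℝ x2 y2 ⊆ S)
    (h1 : e ≤ |D x1 x2 y1|) (h2 : e ≤ |D x1 x2 y2|) (h3 : e ≤ |D y1 y2 x1|)
    (h4 : e ≤ |D y1 y2 x2|) (hg : good x1 x2 y1 y2) :
    Big S (e / 2) := by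
  obtain ⟨g1, g2⟩ := hg
  have key : ∀ {x y : ℝ}, e ≤ |x| → e ≤ |y| → sg x = sg y →
      (e ≤ x ∧ e ≤ y) ∨ (e ≤ -x ∧ e ≤ -y) := by
    intro x y hx hy hxy
    rcases le_abs.mp hx with a | a <;> rcases le_abs.mp hy with b | b
    · exact Or.inl ⟨a, b⟩
    · rw [sg_pos (by linarith), sg_neg (by linarith)] at hxy
      exact absurd hxy (by decide)
    · rw [sg_neg (by linarith), sg_pos (by linarith)] at hxy
      exact absurd hxy (by decide)
    · exact Or.inr ⟨a, b⟩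
  rcases key h1 h2 g1 with ⟨a1, a2⟩ | ⟨a1, a2⟩ <;> rcases key h3 h4 g2 with ⟨b1, b2⟩ | ⟨b1, b2⟩
  · exact core he s11 s12 s21 s22 a1 a2 b1 b2
  · -- swap the y's
    exact core he s12 s11 s22 s21 a2 a1 (by rw [D_swap]; exact b1) (by rw [D_swap]; exact b2)
  · -- swap the x's
    exact core he s21 s22 s11 s12 (by rw [D_swap]; exact a1) (by rw [D_swap]; exact a2) b2 b1
  · exact core he s22 s21 s12 s11 (by rw [D_swap]; exact a2) (by rw [D_swap]; exact a1)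
      (by rw [D_swap]; exact b2) (by rw [D_swap]; exact b1)

end Pool.Agent.X147.Beer
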