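import Mathlib

/-!
A selection lemma in probability spaces: a dense bipartite relation contains a complete `3 × 3`
pattern avoiding a rare ternary relation.
-/

namespace Pool.Agent.X147.Beer

open MeasureTheory

variable {α : Type*} [MeasurableSpace α] (μ : Measure α) [IsProbabilityMeasure μ]

theorem cube {f : α → ENNReal} (hf : AEMeasurable f μ) :
    (∫⁻ x, f x ∂μ) ^ 3 ≤ ∫⁻ x, f x ^ 3 ∂μ := by
  have h := ENNReal.lintegral_mul_le_Lp_mul_Lq μ
    (Real.holderConjugate_iff.mpr ⟨by norm_num, by norm_num⟩ : (3 : ℝ).HolderConjugate (3/2)) hf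
    (aemeasurable_const (b := (1 : ENNReal)))
  simp only [Pi.mul_apply, mul_one, ENNReal.one_rpow, lintegral_const, measure_univ] at h
  have h2 := pow_le_pow_left₀ (bot_le) h 3
  refine h2.trans ?_
  rw [← ENNReal.rpow_natCast, ← ENNReal.rpow_mul]
  norm_num

/-- The space of triples. -/
noncomputable abbrev P3 : Measure (α × α × α) := μ.prod (μ.prod μ)

theorem mp1 : MeasurePreserving (fun z : α × α × α => z.1) (P3 μ) μ :=
  measurePreserving_fst

theorem mp2 : MeasurePreserving (fun z : α × α × α => z.2.1) (P3 μ) μ :=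
  measurePreserving_fst.comp measurePreserving_snd

theorem mp3 : MeasurePreserving (fun z : α × α × α => z.2.2) (P3 μ) μ :=
  measurePreserving_snd.comp measurePreserving_snd

theorem mp23 : MeasurePreserving (fun z : α × α × α => z.2) (P3 μ) (μ.prod μ) :=
  measurePreserving_snd

theorem mp12 : MeasurePreserving (fun z : α × α × α => (z.1, z.2.1)) (P3 μ) (μ.prod μ) :=
  (MeasurePreserving.id μ).prod measurePreserving_fst

theorem mp13 : MeasurePreserving (fun z : α × α × α => (z.1, z.2.2)) (P3 μ) (μ.prod μ) :=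
  (MeasurePreserving.id μ).prod measurePreserving_snd

theorem lowerN {A : Set (α × α)} (hA : MeasurableSet A) :
    ((μ.prod μ) A) ^ 9 ≤
      ∫⁻ z, (μ {y | (z.1, y) ∈ A ∧ (z.2.1, y) ∈ A ∧ (z.2.2, y) ∈ A}) ^ 3 ∂(P3 μ) := by
  let B : Set ((α × α × α) × α) :=
    {w | (w.1.1, w.2) ∈ A ∧ (w.1.2.1, w.2) ∈ A ∧ (w.1.2.2, w.2) ∈ A}
  have m1 : Measurable (fun w : (α × α × α) × α => (w.1.1, w.2)) := by fun_prop
  have m2 : Measurable (fun w : (α × α × α) × α => (w.1.2.1, w.2)) := by fun_prop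
  have m3 : Measurable (fun w : (α × α × α) × α => (w.1.2.2, w.2)) := by fun_prop
  have hB : MeasurableSet B := (m1 hA).inter ((m2 hA).inter (m3 hA))
  have e1 : ((P3 μ).prod μ) B =
      ∫⁻ z, μ {y | (z.1, y) ∈ A ∧ (z.2.1, y) ∈ A ∧ (z.2.2, y) ∈ A} ∂(P3 μ) := by
    rw [Measure.prod_apply hB]
    rfl
  have e2 : ((P3 μ).prod μ) B = ∫⁻ y, (μ ((fun x => (x, y)) ⁻¹' A)) ^ 3 ∂μ := by
    rw [Measure.prod_apply_symm hB]
    refine lintegral_congr fun y => ?_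
    have : (fun x : α × α × α => (x, y)) ⁻¹' B =
        ((fun x => (x, y)) ⁻¹' A) ×ˢ (((fun x => (x, y)) ⁻¹' A) ×ˢ ((fun x => (x, y)) ⁻¹' A)) := by
      ext z
      simp [B, Set.mem_prod]
    rw [this, Measure.prod_prod, Measure.prod_prod]
    ring
  have e3 : ((μ.prod μ) A) ^ 3 ≤ ((P3 μ).prod μ) B := by
    rw [e2, Measure.prod_apply_symm hA]
    exact cube μ (measurable_measure_prodMk_right hA).aemeasurable
  have e4 : (((P3 μ).prod μ) B) ^ 3 ≤
      ∫⁻ z, (μ {y | (z.1, y) ∈ A ∧ (z.2.1, y) ∈ A ∧ (z.2.2, y) ∈ A}) ^ 3 ∂(P3 μ) := by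
    rw [e1]
    exact cube (P3 μ) (measurable_measure_prodMk_left (ν := μ) hB).aemeasurable
  calc ((μ.prod μ) A) ^ 9 = (((μ.prod μ) A) ^ 3) ^ 3 := by ring
    _ ≤ (((P3 μ).prod μ) B) ^ 3 := pow_le_pow_left₀ bot_le e3 3
    _ ≤ _ := e4

/-- The section of the ternary relation at a pair. -/
def E (T : Set (α × α × α)) (q : α × α) : Set α := {c | (q.1, q.2, c) ∈ T}

/-- The section of the ternary relation at a point. -/
def F (T : Set (α × α × α)) (a : α) : Set (α × α) := {p | (a, p.1, p.2) ∈ T}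

theorem measE {T : Set (α × α × α)} (hT : MeasurableSet T) (q : α × α) : MeasurableSet (E T q) := by
  have : Measurable (fun c : α => (q.1, q.2, c)) := by fun_prop
  exact this hT

theorem measF {T : Set (α × α × α)} (hT : MeasurableSet T) (a : α) : MeasurableSet (F T a) := by
  have : Measurable (fun p : α × α => (a, p.1, p.2)) := by fun_prop
  exact this hT

theorem measS {T : Set (α × α × α)} (hT : MeasurableSet T) : Measurable fun q => μ (E T q) := by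
  have hm : Measurable (fun w : (α × α) × α => (w.1.1, w.1.2, w.2)) := by fun_prop
  exact measurable_measure_prodMk_left (ν := μ) (hm hT)

theorem intS {T : Set (α × α × α)} (hT : MeasurableSet T) {τ : ENNReal}
    (hb : ∀ a, (μ.prod μ) (F T a) ≤ τ) : ∫⁻ q, μ (E T q) ∂(μ.prod μ) ≤ τ := by
  rw [lintegral_prod _ (measS μ hT).aemeasurable]
  calc ∫⁻ a, ∫⁻ b, μ (E T (a, b)) ∂μ ∂μ = ∫⁻ a, (μ.prod μ) (F T a) ∂μ := by
        refine lintegral_congr fun a => ?_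
        rw [Measure.prod_apply (measF hT a)]
        rfl
    _ ≤ ∫⁻ _, τ ∂μ := lintegral_mono hb
    _ = τ := by simp

theorem three_E {T : Set (α × α × α)} (hT : MeasurableSet T) (q : α × α) :
    P3 μ {y | y.1 ∈ E T q ∨ y.2.1 ∈ E T q ∨ y.2.2 ∈ E T q} ≤ 3 * μ (E T q) := by
  have h1 := (mp1 μ).measure_preimage (measE hT q).nullMeasurableSet
  have h2 := (mp2 μ).measure_preimage (measE hT q).nullMeasurableSet
  have h3 := (mp3 μ).measure_preimage (measE hT q).nullMeasurableSet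
  have : {y : α × α × α | y.1 ∈ E T q ∨ y.2.1 ∈ E T q ∨ y.2.2 ∈ E T q} =
      ((fun z : α × α × α => z.1) ⁻¹' (E T q)) ∪ (((fun z : α × α × α => z.2.1) ⁻¹' (E T q)) ∪
        ((fun z : α × α × α => z.2.2) ⁻¹' (E T q))) := rfl
  rw [this]
  refine (measure_union_le _ _).trans ?_
  refine (add_le_add le_rfl (measure_union_le _ _)).trans ?_
  rw [h1, h2, h3]
  apply le_of_eq
  ring

theorem three_F {T : Set (α × α × α)} (hT : MeasurableSet T) {τ : ENNReal}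
    (hb : ∀ a, (μ.prod μ) (F T a) ≤ τ) (a : α) :
    P3 μ {y | (y.1, y.2.1) ∈ F T a ∨ y.2 ∈ F T a ∨ (y.1, y.2.2) ∈ F T a} ≤ 3 * τ := by
  have h1 := (mp12 μ).measure_preimage (measF hT a).nullMeasurableSet
  have h2 := (mp23 μ).measure_preimage (measF hT a).nullMeasurableSet
  have h3 := (mp13 μ).measure_preimage (measF hT a).nullMeasurableSet
  have : {y : α × α × α | (y.1, y.2.1) ∈ F T a ∨ y.2 ∈ F T a ∨ (y.1, y.2.2) ∈ F T a} =
      ((fun z : α × α × α => (z.1, z.2.1)) ⁻¹' (F T a)) ∪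
      (((fun z : α × α × α => z.2) ⁻¹' (F T a)) ∪
        ((fun z : α × α × α => (z.1, z.2.2)) ⁻¹' (F T a))) := rfl
  rw [this]
  refine (measure_union_le _ _).trans ?_
  refine (add_le_add le_rfl (measure_union_le _ _)).trans ?_
  rw [h1, h2, h3]
  calc (μ.prod μ) (F T a) + ((μ.prod μ) (F T a) + (μ.prod μ) (F T a)) ≤ τ + (τ + τ) :=
        add_le_add (hb a) (add_le_add (hb a) (hb a))
    _ = 3 * τ := by ring

theorem select {A : Set (α × α)} (hA : MeasurableSet A) {T : Set (α × α × α)}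
    (hT : MeasurableSet T) {τ : ENNReal} (hb : ∀ a, (μ.prod μ) (F T a) ≤ τ)
    (hlt : 18 * τ < ((μ.prod μ) A) ^ 9) :
    ∃ x y : α × α × α,
      (∀ b ∈ [y.1, y.2.1, y.2.2], (x.1, b) ∈ A ∧ (x.2.1, b) ∈ A ∧ (x.2.2, b) ∈ A) ∧
      (∀ b ∈ [y.1, y.2.1, y.2.2], (x.1, x.2.1, b) ∉ T ∧ (x.2.1, x.2.2, b) ∉ T ∧
        (x.1, x.2.2, b) ∉ T) ∧
      (∀ a ∈ [x.1, x.2.1, x.2.2], (a, y.1, y.2.1) ∉ T ∧ (a, y.2.1, y.2.2) ∉ T ∧
        (a, y.1, y.2.2) ∉ T) := by
  set n : α × α × α → ENNReal :=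
    fun z => μ {y | (z.1, y) ∈ A ∧ (z.2.1, y) ∈ A ∧ (z.2.2, y) ∈ A} with hn
  have hM := lowerN μ hA
  have i12 : ∫⁻ z, μ (E T (z.1, z.2.1)) ∂(P3 μ) ≤ τ := by
    rw [(mp12 μ).lintegral_comp (measS μ hT)]
    exact intS μ hT hb
  have i23 : ∫⁻ z, μ (E T z.2) ∂(P3 μ) ≤ τ := by
    rw [(mp23 μ).lintegral_comp (measS μ hT)]
    exact intS μ hT hb
  have i13 : ∫⁻ z, μ (E T (z.1, z.2.2)) ∂(P3 μ) ≤ τ := by
    rw [(mp13 μ).lintegral_comp (measS μ hT)]
    exact intS μ hT hb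
  have m12 : Measurable fun z : α × α × α => μ (E T (z.1, z.2.1)) :=
    (measS μ hT).comp (mp12 μ).measurable
  have m23 : Measurable fun z : α × α × α => μ (E T z.2) :=
    (measS μ hT).comp (mp23 μ).measurable
  have m13 : Measurable fun z : α × α × α => μ (E T (z.1, z.2.2)) :=
    (measS μ hT).comp (mp13 μ).measurable
  obtain ⟨x, hx⟩ : ∃ z : α × α × α, 3 * μ (E T (z.1, z.2.1)) + (3 * μ (E T z.2) +
      (3 * μ (E T (z.1, z.2.2)) + 9 * τ)) < n z ^ 3 := by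
    by_contra hcon
    push Not at hcon
    have h1 := lintegral_mono (μ := P3 μ) hcon
    have h2 : ∫⁻ z : α × α × α, (3 * μ (E T (z.1, z.2.1)) + (3 * μ (E T z.2) +
      (3 * μ (E T (z.1, z.2.2)) + 9 * τ))) ∂(P3 μ) ≤ 18 * τ := by
      rw [lintegral_add_left (m12.const_mul 3), lintegral_add_left (m23.const_mul 3),
        lintegral_add_left (m13.const_mul 3), lintegral_const_mul _ m12, lintegral_const_mul _ m23,
        lintegral_const_mul _ m13, lintegral_const, measure_univ, mul_one]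
      calc _ ≤ 3 * τ + (3 * τ + (3 * τ + 9 * τ)) := by gcongr
        _ = 18 * τ := by ring
    exact absurd (hM.trans (h1.trans h2)) (not_le.mpr hlt)
  set N : Set α := {y | (x.1, y) ∈ A ∧ (x.2.1, y) ∈ A ∧ (x.2.2, y) ∈ A} with hN
  have hNP : n x ^ 3 = P3 μ (N ×ˢ (N ×ˢ N)) := by
    rw [Measure.prod_prod, Measure.prod_prod]
    simp only [hn, hN]
    ring
  set bad : Set (α × α × α) :=
    {y | y.1 ∈ E T (x.1, x.2.1) ∨ y.2.1 ∈ E T (x.1, x.2.1) ∨ y.2.2 ∈ E T (x.1, x.2.1)} ∪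
    ({y | y.1 ∈ E T x.2 ∨ y.2.1 ∈ E T x.2 ∨ y.2.2 ∈ E T x.2} ∪
    ({y | y.1 ∈ E T (x.1, x.2.2) ∨ y.2.1 ∈ E T (x.1, x.2.2) ∨ y.2.2 ∈ E T (x.1, x.2.2)} ∪
    ({y | (y.1, y.2.1) ∈ F T x.1 ∨ y.2 ∈ F T x.1 ∨ (y.1, y.2.2) ∈ F T x.1} ∪
    ({y | (y.1, y.2.1) ∈ F T x.2.1 ∨ y.2 ∈ F T x.2.1 ∨ (y.1, y.2.2) ∈ F T x.2.1} ∪
    {y | (y.1, y.2.1) ∈ F T x.2.2 ∨ y.2 ∈ F T x.2.2 ∨ (y.1, y.2.2) ∈ F T x.2.2})))) with hbad
  have hbd : P3 μ bad ≤ 3 * μ (E T (x.1, x.2.1)) + (3 * μ (E T x.2) +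
      (3 * μ (E T (x.1, x.2.2)) + 9 * τ)) := by
    refine (measure_union_le _ _).trans (add_le_add (three_E μ hT _) ?_)
    refine (measure_union_le _ _).trans (add_le_add (three_E μ hT _) ?_)
    refine (measure_union_le _ _).trans (add_le_add (three_E μ hT _) ?_)
    refine (measure_union_le _ _).trans ((add_le_add (three_F μ hT hb _)
      ((measure_union_le _ _).trans (add_le_add (three_F μ hT hb _) (three_F μ hT hb _)))).trans ?_)
    apply le_of_eq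
    ring
  have hex : ∃ y ∈ N ×ˢ (N ×ˢ N), y ∉ bad := by
    by_contra hcon
    push Not at hcon
    have : P3 μ (N ×ˢ (N ×ˢ N)) ≤ P3 μ bad := measure_mono hcon
    rw [← hNP] at this
    exact absurd (this.trans hbd) (not_le.mpr hx)
  obtain ⟨y, hyN, hyb⟩ := hex
  refine ⟨x, y, ?_, ?_, ?_⟩
  · simp only [Set.mem_prod] at hyN
    intro b hb'
    simp only [List.mem_cons, List.not_mem_nil, or_false] at hb'
    rcases hb' with rfl | rfl | rfl
    · exact hyN.1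
    · exact hyN.2.1
    · exact hyN.2.2
  · simp only [hbad, Set.mem_union, Set.mem_ofPred_eq, not_or, E, F] at hyb
    obtain ⟨⟨a1, a2, a3⟩, ⟨b1, b2, b3⟩, ⟨c1, c2, c3⟩, _⟩ := hyb
    intro b hb'
    simp only [List.mem_cons, List.not_mem_nil, or_false] at hb'
    rcases hb' with rfl | rfl | rfl
    · exact ⟨a1, b1, c1⟩
    · exact ⟨a2, b2, c2⟩
    · exact ⟨a3, b3, c3⟩
  · simp only [hbad, Set.mem_union, Set.mem_ofPred_eq, not_or, E, F] at hyb
    obtain ⟨_, _, _, ⟨a1, a2, a3⟩, ⟨b1, b2, b3⟩, ⟨c1, c2, c3⟩⟩ := hyb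
    intro a ha'
    simp only [List.mem_cons, List.not_mem_nil, or_false] at ha'
    rcases ha' with rfl | rfl | rfl
    · exact ⟨a1, a2, a3⟩
    · exact ⟨b1, b2, b3⟩
    · exact ⟨c1, c2, c3⟩

end Pool.Agent.X147.Beer
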