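import Pool.Agent.X147.BeerA
import Pool.Agent.X147.BeerB

/-!
Measure estimates in the plane: strips and triangles.
-/

namespace Pool.Agent.X147.Beer

open MeasureTheory

theorem mset {β : Type*} [MeasurableSpace β] {f g h : β → ℝ} (hf : Measurable f)
    (hg : Measurable g) (hh : Measurable h) (η : ℝ) :
    MeasurableSet {x | f x ≤ g x ∧ h x < η} :=
  (measurableSet_le hf hg).inter (measurableSet_lt hh measurable_const)

theorem strip1 (a b : ℝ × ℝ) (η : ℝ) (hr : 0 < |b.1 - a.1|) (hle : |b.2 - a.2| ≤ |b.1 - a.1|) :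
    volume {c : ℝ × ℝ | ‖c - a‖ ≤ ‖b - a‖ ∧ |D a b c| < η} ≤ ENNReal.ofReal (4 * η) := by
  rcases le_or_gt η 0 with hη | hη
  · have : {c : ℝ × ℝ | ‖c - a‖ ≤ ‖b - a‖ ∧ |D a b c| < η} = ∅ := by
      ext c
      simp only [Set.mem_ofPred_eq, Set.mem_empty_iff_false, iff_false, not_and, not_lt]
      intro _
      exact hη.trans (abs_nonneg _)
    rw [this]; simp
  set r := |b.1 - a.1| with hrdef
  have hsub : {c : ℝ × ℝ | ‖c - a‖ ≤ ‖b - a‖ ∧ |D a b c| < η} ⊆
      {c : ℝ × ℝ | c.1 ∈ Set.Icc (a.1 - r) (a.1 + r) ∧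
        c.2 ∈ Metric.closedBall (a.2 + (b.2 - a.2) * (c.1 - a.1) / (b.1 - a.1)) (η / r)} := by
    rintro c ⟨h1, h2⟩
    have hnorm : ‖b - a‖ = r := by
      rw [Prod.norm_def]
      simp only [Prod.fst_sub, Prod.snd_sub, Real.norm_eq_abs]
      exact max_eq_left hle
    have h3 : |c.1 - a.1| ≤ r := by
      rw [← hnorm]
      refine le_trans ?_ h1
      rw [Prod.norm_def]
      simp only [Prod.fst_sub, Prod.snd_sub, Real.norm_eq_abs]
      exact le_max_left _ _
    have hne : b.1 - a.1 ≠ 0 := abs_pos.mp hr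
    refine ⟨?_, ?_⟩
    · rw [abs_le] at h3
      exact ⟨by linarith [h3.1], by linarith [h3.2]⟩
    · rw [Metric.mem_closedBall, Real.dist_eq, le_div_iff₀ hr, hrdef, ← abs_mul]
      have : (c.2 - (a.2 + (b.2 - a.2) * (c.1 - a.1) / (b.1 - a.1))) * (b.1 - a.1) = D a b c := by
        simp only [D]
        field_simp
        ring
      rw [this]
      exact h2.le
  refine (measure_mono hsub).trans ?_
  have hms : MeasurableSet {c : ℝ × ℝ | c.1 ∈ Set.Icc (a.1 - r) (a.1 + r) ∧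
        c.2 ∈ Metric.closedBall (a.2 + (b.2 - a.2) * (c.1 - a.1) / (b.1 - a.1)) (η / r)} := by
    have h1 : MeasurableSet {c : ℝ × ℝ | c.1 ∈ Set.Icc (a.1 - r) (a.1 + r)} :=
      measurable_fst measurableSet_Icc
    have h2 : MeasurableSet
        {c : ℝ × ℝ | dist c.2 (a.2 + (b.2 - a.2) * (c.1 - a.1) / (b.1 - a.1)) ≤ η / r} :=
      measurableSet_le (by fun_prop) measurable_const
    exact h1.inter h2
  rw [Measure.volume_eq_prod, Measure.prod_apply hms]
  have hpt : ∀ x : ℝ, volume (Prod.mk x ⁻¹' {c : ℝ × ℝ | c.1 ∈ Set.Icc (a.1 - r) (a.1 + r) ∧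
        c.2 ∈ Metric.closedBall (a.2 + (b.2 - a.2) * (c.1 - a.1) / (b.1 - a.1)) (η / r)}) ≤
        (Set.Icc (a.1 - r) (a.1 + r)).indicator (fun _ => ENNReal.ofReal (2 * (η / r))) x := by
    intro x
    by_cases hx : x ∈ Set.Icc (a.1 - r) (a.1 + r)
    · rw [Set.indicator_of_mem hx]
      have : Prod.mk x ⁻¹' {c : ℝ × ℝ | c.1 ∈ Set.Icc (a.1 - r) (a.1 + r) ∧
          c.2 ∈ Metric.closedBall (a.2 + (b.2 - a.2) * (c.1 - a.1) / (b.1 - a.1)) (η / r)} ⊆
          Metric.closedBall (a.2 + (b.2 - a.2) * (x - a.1) / (b.1 - a.1)) (η / r) := by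
        intro y hy
        exact hy.2
      refine (measure_mono this).trans ?_
      rw [Real.volume_closedBall]
    · rw [Set.indicator_of_notMem hx]
      have : Prod.mk x ⁻¹' {c : ℝ × ℝ | c.1 ∈ Set.Icc (a.1 - r) (a.1 + r) ∧
          c.2 ∈ Metric.closedBall (a.2 + (b.2 - a.2) * (c.1 - a.1) / (b.1 - a.1)) (η / r)} = ∅ := by
        ext y
        simp only [Set.mem_preimage, Set.mem_ofPred_eq, Set.mem_empty_iff_false, iff_false, not_and]
        intro h
        exact absurd h hx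
      rw [this]; simp
  refine (lintegral_mono hpt).trans ?_
  rw [lintegral_indicator measurableSet_Icc, lintegral_const, Measure.restrict_apply_univ,
    Real.volume_Icc, ← ENNReal.ofReal_mul (by positivity)]
  apply ENNReal.ofReal_le_ofReal
  apply le_of_eq
  field_simp
  ring

theorem strip (a b : ℝ × ℝ) (η : ℝ) :
    volume {c : ℝ × ℝ | ‖c - a‖ ≤ ‖b - a‖ ∧ |D a b c| < η} ≤ ENNReal.ofReal (4 * η) := by
  by_cases hab : b = a
  · have : {c : ℝ × ℝ | ‖c - a‖ ≤ ‖b - a‖ ∧ |D a b c| < η} ⊆ {a} := by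
      rintro c ⟨h1, _⟩
      rw [hab, sub_self, norm_zero] at h1
      have := norm_le_zero_iff.mp h1
      exact sub_eq_zero.mp this
    refine (measure_mono this).trans ?_
    simp
  rcases le_total |b.2 - a.2| |b.1 - a.1| with hle | hle
  · have hr : 0 < |b.1 - a.1| := by
      rw [abs_pos]
      intro h0
      rw [h0, abs_zero] at hle
      have h1 : b.2 - a.2 = 0 := abs_eq_zero.mp (le_antisymm hle (abs_nonneg _))
      exact hab (Prod.ext (by linarith) (by linarith))
    exact strip1 a b η hr hle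
  · have hr : 0 < |b.2 - a.2| := by
      rw [abs_pos]
      intro h0
      rw [h0, abs_zero] at hle
      have h1 : b.1 - a.1 = 0 := abs_eq_zero.mp (le_antisymm hle (abs_nonneg _))
      exact hab (Prod.ext (by linarith) (by linarith))
    have h := strip1 a.swap b.swap η (by simpa using hr) (by simpa using hle)
    have hswap : MeasurePreserving (Prod.swap : ℝ × ℝ → ℝ × ℝ) volume volume :=
      Measure.measurePreserving_swap
    have hpre : (Prod.swap : ℝ × ℝ → ℝ × ℝ) ⁻¹'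
        {c : ℝ × ℝ | ‖c - a.swap‖ ≤ ‖b.swap - a.swap‖ ∧ |D a.swap b.swap c| < η} =
        {c : ℝ × ℝ | ‖c - a‖ ≤ ‖b - a‖ ∧ |D a b c| < η} := by
      ext c
      simp only [Set.mem_preimage, Set.mem_ofPred_eq]
      have e1 : ‖c.swap - a.swap‖ = ‖c - a‖ := by
        simp only [Prod.norm_def, Prod.fst_sub, Prod.snd_sub, Prod.fst_swap, Prod.snd_swap]
        exact max_comm _ _
      have e2 : ‖b.swap - a.swap‖ = ‖b - a‖ := by
        simp only [Prod.norm_def, Prod.fst_sub, Prod.snd_sub, Prod.fst_swap, Prod.snd_swap]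
        exact max_comm _ _
      have e3 : |D a.swap b.swap c.swap| = |D a b c| := by
        rw [← abs_neg]
        congr 1
        simp only [D, Prod.fst_swap, Prod.snd_swap]
        ring
      rw [e1, e2, e3]
    rw [← hpre]
    have hms : MeasurableSet
        {c : ℝ × ℝ | ‖c - a.swap‖ ≤ ‖b.swap - a.swap‖ ∧ |D a.swap b.swap c| < η} := by
      refine mset (by fun_prop) (by fun_prop) ?_ η
      unfold D
      fun_prop
    rw [hswap.measure_preimage hms.nullMeasurableSet]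
    exact h

theorem measT (η : ℝ) : MeasurableSet {p : (ℝ × ℝ) × (ℝ × ℝ) × (ℝ × ℝ) |
    |D p.1 p.2.1 p.2.2| < η} := by
  refine measurableSet_lt ?_ (by fun_prop)
  unfold D
  fun_prop

theorem pair_bound (μ : Measure (ℝ × ℝ)) [IsProbabilityMeasure μ] {κ : ENNReal}
    (hκ : ∀ s, μ s ≤ κ * volume s) (η : ℝ) (a : ℝ × ℝ) :
    (μ.prod μ) (F {p : (ℝ × ℝ) × (ℝ × ℝ) × (ℝ × ℝ) | |D p.1 p.2.1 p.2.2| < η} a) ≤
      2 * (κ * ENNReal.ofReal (4 * η)) := by
  set U : Set ((ℝ × ℝ) × (ℝ × ℝ)) := {p | ‖p.2 - a‖ ≤ ‖p.1 - a‖ ∧ |D a p.1 p.2| < η} with hU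
  set V : Set ((ℝ × ℝ) × (ℝ × ℝ)) := {p | ‖p.1 - a‖ ≤ ‖p.2 - a‖ ∧ |D a p.2 p.1| < η} with hV
  have hUm : MeasurableSet U := by
    refine mset (by fun_prop) (by fun_prop) ?_ η
    unfold D
    fun_prop
  have hVm : MeasurableSet V := by
    refine mset (by fun_prop) (by fun_prop) ?_ η
    unfold D
    fun_prop
  have hsub : F {p : (ℝ × ℝ) × (ℝ × ℝ) × (ℝ × ℝ) | |D p.1 p.2.1 p.2.2| < η} a ⊆ U ∪ V := by
    intro p hp
    have hp' : |D a p.1 p.2| < η := hp
    rcases le_total ‖p.2 - a‖ ‖p.1 - a‖ with h | h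
    · exact Or.inl ⟨h, hp'⟩
    · refine Or.inr ⟨h, ?_⟩
      have : D a p.2 p.1 = - D a p.1 p.2 := by simp only [D]; ring
      rw [this, abs_neg]
      exact hp'
  refine (measure_mono hsub).trans ((measure_union_le _ _).trans ?_)
  have h1 : (μ.prod μ) U ≤ κ * ENNReal.ofReal (4 * η) := by
    rw [Measure.prod_apply hUm]
    calc _ ≤ ∫⁻ _, κ * ENNReal.ofReal (4 * η) ∂μ := by
          refine lintegral_mono fun b => ?_
          refine (hκ _).trans ?_
          gcongr
          exact strip a b η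
      _ = _ := by simp
  have h2 : (μ.prod μ) V ≤ κ * ENNReal.ofReal (4 * η) := by
    rw [Measure.prod_apply_symm hVm]
    calc _ ≤ ∫⁻ _, κ * ENNReal.ofReal (4 * η) ∂μ := by
          refine lintegral_mono fun b => ?_
          refine (hκ _).trans ?_
          gcongr
          exact strip a b η
      _ = _ := by simp
  calc _ ≤ κ * ENNReal.ofReal (4 * η) + κ * ENNReal.ofReal (4 * η) := add_le_add h1 h2
    _ = _ := by ring

theorem triangle_area (p q r : ℝ × ℝ) :
    ENNReal.ofReal (|D p q r| / 4) ≤ volume (convexHull ℝ {p, q, r}) := by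
  set b := Module.Basis.finTwoProd ℝ
  set M : Matrix (Fin 2) (Fin 2) ℝ := !![q.1 - p.1, r.1 - p.1; q.2 - p.2, r.2 - p.2] with hM
  set f : (ℝ × ℝ) →ₗ[ℝ] (ℝ × ℝ) := Matrix.toLin b b M with hf
  have hdet : LinearMap.det f = D p q r := by
    rw [hf, LinearMap.det_toLin, hM, Matrix.det_fin_two_of]
    simp only [D]; ring
  set box : Set (ℝ × ℝ) := Set.Icc (0 : ℝ) (1/2) ×ˢ Set.Icc (0 : ℝ) (1/2) with hbox
  have hvol : volume (f '' box) = ENNReal.ofReal (|D p q r| / 4) := by
    rw [Measure.addHaar_image_linearMap, hdet, hbox, Measure.volume_eq_prod, Measure.prod_prod,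
      Real.volume_Icc, ← ENNReal.ofReal_mul (by norm_num), ← ENNReal.ofReal_mul (abs_nonneg _)]
    congr 1
    ring
  rw [← hvol, ← measure_preimage_add volume p (convexHull ℝ {p, q, r})]
  apply measure_mono
  rintro _ ⟨z, ⟨⟨hz1, hz2⟩, ⟨hz3, hz4⟩⟩, rfl⟩
  rw [Set.mem_preimage]
  have hp : p ∈ convexHull ℝ ({p, q, r} : Set (ℝ × ℝ)) := subset_convexHull ℝ _ (by simp)
  have hq : q ∈ convexHull ℝ ({p, q, r} : Set (ℝ × ℝ)) := subset_convexHull ℝ _ (by simp)
  have hr : r ∈ convexHull ℝ ({p, q, r} : Set (ℝ × ℝ)) := subset_convexHull ℝ _ (by simp)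
  have hfz : f z = z.1 • (q - p) + z.2 • (r - p) := by
    rw [hf, hM]
    rw [Matrix.toLin_finTwoProd_apply]
    ext <;> simp <;> ring
  have hpt : p + f z = (1 - z.1 - z.2) • p + z.1 • q + z.2 • r := by
    rw [hfz]
    ext <;> simp <;> ring
  rw [hpt]
  have hc := convex_convexHull ℝ ({p, q, r} : Set (ℝ × ℝ))
  have := hc.sum_mem (t := (Finset.univ : Finset (Fin 3))) (w := ![1 - z.1 - z.2, z.1, z.2])
    (z := ![p, q, r])
    (by
      intro i _
      fin_cases i
      · show 0 ≤ 1 - z.1 - z.2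
        linarith
      · exact hz1
      · exact hz3)
    (by
      rw [Fin.sum_univ_three]
      show 1 - z.1 - z.2 + z.1 + z.2 = 1
      ring)
    (by
      intro i _
      fin_cases i
      · exact hp
      · exact hq
      · exact hr)
  rw [Fin.sum_univ_three] at this
  exact this

end Pool.Agent.X147.Beer
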