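import Mathlib

/-! Comparison tools for the steering equation `θ' = μ v sin(φ - θ)`. -/

namespace Pool.Agent.X147.Bike

open Real Set

theorem sin_diff_sinc (a b c : ℝ) :
    sin (c - a) - sin (c - b) = -(cos (c - (a + b) / 2) * sinc ((a - b) / 2) * (a - b)) := by
  by_cases h : a = b
  · subst h; simp
  · have h1 : (a - b) / 2 ≠ 0 := by
      intro h2; apply h; linarith
    have h2 : a - b ≠ 0 := sub_ne_zero.2 h
    rw [sinc_of_ne_zero h1, Real.sin_sub_sin]
    have e1 : (c - a - (c - b)) / 2 = -((a - b) / 2) := by ring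
    have e2 : (c - a + (c - b)) / 2 = c - (a + b) / 2 := by ring
    rw [e1, e2, Real.sin_neg]
    field_simp

theorem cmp {φ v f g e₁ e₂ : ℝ → ℝ} {μ : ℝ} (hφ : Continuous φ) (hv : Continuous v)
    (hf : ∀ t, HasDerivAt f (μ * v t * sin (φ t - f t) + e₁ t) t)
    (hg : ∀ t, HasDerivAt g (μ * v t * sin (φ t - g t) + e₂ t) t) :
    ∃ E : ℝ → ℝ, (∀ t, 0 < E t) ∧
      ∀ t, HasDerivAt (fun t => (f t - g t) * E t) ((e₁ t - e₂ t) * E t) t := by
  have hfc : Continuous f := continuous_iff_continuousAt.2 fun t => (hf t).continuousAt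
  have hgc : Continuous g := continuous_iff_continuousAt.2 fun t => (hg t).continuousAt
  have hsc := Real.continuous_sinc
  have hAc : Continuous (fun t => μ * v t * cos (φ t - (f t + g t) / 2)
      * sinc ((f t - g t) / 2)) := by
    have h1 : Continuous (fun t => sinc ((f t - g t) / 2)) :=
      hsc.comp ((hfc.sub hgc).div_const 2)
    have h2 : Continuous (fun t => cos (φ t - (f t + g t) / 2)) := by fun_prop
    exact ((continuous_const.mul hv).mul h2).mul h1
  refine ⟨fun t => exp (∫ s in (0:ℝ)..t, μ * v s * cos (φ s - (f s + g s) / 2)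
      * sinc ((f s - g s) / 2)), fun t => exp_pos _, fun t => ?_⟩
  have hI := (hAc.integral_hasStrictDerivAt 0 t).hasDerivAt
  have h1 := ((hf t).sub (hg t)).mul hI.exp
  have key := sin_diff_sinc (f t) (g t) (φ t)
  have h2 : HasDerivAt (fun t => (f t - g t) * exp (∫ s in (0:ℝ)..t,
      μ * v s * cos (φ s - (f s + g s) / 2) * sinc ((f s - g s) / 2)))
      _ t := h1
  convert h2 using 1
  simp only [Pi.sub_apply]
  linear_combination (-(μ * v t) * exp (∫ s in (0:ℝ)..t,
      μ * v s * cos (φ s - (f s + g s) / 2) * sinc ((f s - g s) / 2))) * key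

/-- weak comparison -/
theorem cmp_le {φ v f g e₁ e₂ : ℝ → ℝ} {μ : ℝ} (hφ : Continuous φ) (hv : Continuous v)
    (hf : ∀ t, HasDerivAt f (μ * v t * sin (φ t - f t) + e₁ t) t)
    (hg : ∀ t, HasDerivAt g (μ * v t * sin (φ t - g t) + e₂ t) t)
    (he : ∀ t, e₁ t ≤ e₂ t) {s t : ℝ} (hst : s ≤ t) (h : f s ≤ g s) : f t ≤ g t := by
  obtain ⟨E, hE0, hE⟩ := cmp hφ hv hf hg
  have hanti : Antitone (fun t => (f t - g t) * E t) := by
    apply antitone_of_deriv_nonpos
    · intro x; exact (hE x).differentiableAt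
    · intro x; rw [(hE x).deriv]
      exact mul_nonpos_of_nonpos_of_nonneg (by linarith [he x]) (hE0 x).le
  have h1 : (f t - g t) * E t ≤ (f s - g s) * E s := hanti hst
  have h2 : (f s - g s) * E s ≤ 0 :=
    mul_nonpos_of_nonpos_of_nonneg (by linarith) (hE0 s).le
  by_contra hc
  push Not at hc
  have : 0 < (f t - g t) * E t := mul_pos (by linarith) (hE0 t)
  linarith

/-- strict comparison -/
theorem cmp_lt {φ v f g e₁ e₂ : ℝ → ℝ} {μ : ℝ} (hφ : Continuous φ) (hv : Continuous v)
    (hf : ∀ t, HasDerivAt f (μ * v t * sin (φ t - f t) + e₁ t) t)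
    (hg : ∀ t, HasDerivAt g (μ * v t * sin (φ t - g t) + e₂ t) t)
    (he : ∀ t, e₁ t < e₂ t) {s t : ℝ} (hst : s < t) (h : f s ≤ g s) : f t < g t := by
  obtain ⟨E, hE0, hE⟩ := cmp hφ hv hf hg
  have hanti : StrictAnti (fun t => (f t - g t) * E t) := by
    apply strictAnti_of_deriv_neg
    · intro x; rw [(hE x).deriv]
      exact mul_neg_of_neg_of_pos (by linarith [he x]) (hE0 x)
  have h1 : (f t - g t) * E t < (f s - g s) * E s := hanti hst
  have h2 : (f s - g s) * E s ≤ 0 :=
    mul_nonpos_of_nonpos_of_nonneg (by linarith) (hE0 s).le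
  by_contra hc
  push Not at hc
  have : 0 ≤ (f t - g t) * E t := mul_nonneg (by linarith) (hE0 t).le
  linarith

/-- uniqueness -/
theorem cmp_eq {φ v f g : ℝ → ℝ} {μ : ℝ} (hφ : Continuous φ) (hv : Continuous v)
    (hf : ∀ t, HasDerivAt f (μ * v t * sin (φ t - f t)) t)
    (hg : ∀ t, HasDerivAt g (μ * v t * sin (φ t - g t)) t)
    {s : ℝ} (h : f s = g s) : f = g := by
  obtain ⟨E, hE0, hE⟩ := cmp (e₁ := fun _ => 0) (e₂ := fun _ => 0) hφ hv
    (by simpa using hf) (by simpa using hg)
  have hc : ∀ x y, (fun t => (f t - g t) * E t) x = (fun t => (f t - g t) * E t) y := by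
    apply is_const_of_deriv_eq_zero
    · intro x; exact (hE x).differentiableAt
    · intro x; rw [(hE x).deriv]; ring
  funext t
  have h1 := hc t s
  simp only at h1
  rw [h, sub_self, zero_mul] at h1
  have := (mul_eq_zero.1 h1).resolve_right (hE0 t).ne'
  linarith

theorem strictMono_deriv_nonneg {φ k : ℝ → ℝ} (hφd : ∀ t, HasDerivAt φ (k t) t)
    (hφm : StrictMono φ) (t : ℝ) : 0 ≤ k t := by
  have := hφm.monotone.deriv_nonneg (x := t)
  rwa [(hφd t).deriv] at this

/-- the barrier: `θ - φ` crosses multiples of `π` only downwards -/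
theorem barrier {φ v θ k : ℝ → ℝ} {μ : ℝ} (hφd : ∀ t, HasDerivAt φ (k t) t)
    (hφm : StrictMono φ) (hv : Continuous v)
    (hθ : ∀ t, HasDerivAt θ (μ * v t * sin (φ t - θ t)) t) (m : ℤ) {s t : ℝ} (hst : s < t)
    (h : θ s ≤ φ s + m * π) : θ t < φ t + m * π := by
  have hφ : Continuous φ := continuous_iff_continuousAt.2 fun t => (hφd t).continuousAt
  have hg : ∀ t, HasDerivAt (fun t => φ t + m * π)
      (μ * v t * sin (φ t - (φ t + m * π)) + k t) t := by
    intro t
    have : sin (φ t - (φ t + m * π)) = 0 := by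
      have e : φ t - (φ t + m * π) = -((m:ℝ) * π) := by ring
      rw [e, Real.sin_neg, Real.sin_int_mul_pi]; simp
    rw [this]
    simpa using (hφd t).add_const (m * π)
  have hk := strictMono_deriv_nonneg hφd hφm
  obtain ⟨E, hE0, hE⟩ := cmp (e₁ := fun _ => 0) hφ hv (by simpa using hθ) hg
  have hanti : Antitone (fun t => (θ t - (φ t + m * π)) * E t) := by
    apply antitone_of_deriv_nonpos
    · intro x; exact (hE x).differentiableAt
    · intro x; rw [(hE x).deriv]
      exact mul_nonpos_of_nonpos_of_nonneg (by linarith [hk x]) (hE0 x).le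
  have h2 : (θ s - (φ s + m * π)) * E s ≤ 0 :=
    mul_nonpos_of_nonpos_of_nonneg (by linarith) (hE0 s).le
  by_contra hc
  push Not at hc
  have h3 : 0 ≤ (θ t - (φ t + m * π)) * E t := mul_nonneg (by linarith) (hE0 t).le
  -- the product is constant zero on [s,t]
  have hz : ∀ x ∈ Icc s t, θ x = φ x + m * π := by
    intro x hx
    have a1 : (θ x - (φ x + m * π)) * E x ≤ (θ s - (φ s + m * π)) * E s := hanti hx.1
    have a2 : (θ t - (φ t + m * π)) * E t ≤ (θ x - (φ x + m * π)) * E x := hanti hx.2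
    have a3 : (θ x - (φ x + m * π)) * E x = 0 := by linarith
    have := (mul_eq_zero.1 a3).resolve_right (hE0 x).ne'
    linarith
  -- hence θ' = φ' and sin = 0 there, so θ constant, so φ constant
  have hc1 : ∀ x ∈ Icc s t, θ x = θ s := by
    have hd : DifferentiableOn ℝ θ (Icc s t) := fun x _ => (hθ x).differentiableAt.differentiableWithinAt
    intro x hx
    have := constant_of_derivWithin_zero (f := θ) (a := s) (b := t) hd (by
      intro y hy
      have hy' : y ∈ Icc s t := ⟨hy.1, hy.2.le⟩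
      have h5 := hz y hy'
      have hd0 : HasDerivAt θ 0 y := by
        have := hθ y
        have e : φ y - θ y = -((m:ℝ) * π) := by rw [h5]; ring
        rw [e, Real.sin_neg, Real.sin_int_mul_pi] at this
        simpa using this
      exact hd0.hasDerivWithinAt.derivWithin (uniqueDiffOn_Icc hst y hy')) x hx
    exact this
  have h6 := hc1 t ⟨hst.le, le_rfl⟩
  have h7 := hz t ⟨hst.le, le_rfl⟩
  have h8 := hz s ⟨le_rfl, hst.le⟩
  have := hφm hst
  linarith

end Pool.Agent.X147.Bike
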