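import Pool.Agent.X147.BikeA

/-! Rotation number of closed solutions of `θ' = μ v sin(φ - θ)`, `φ` strictly increasing by
`2π` per period. -/

namespace Pool.Agent.X147.Bike

open Real Set

/-- A function with `f (t+T) = f t + c` satisfies `f (t + j T) = f t + j c`. -/
theorem quasi_int {f : ℝ → ℝ} {T c : ℝ} (h : ∀ t, f (t + T) = f t + c) (j : ℤ) (t : ℝ) :
    f (t + j * T) = f t + j * c := by
  induction j using Int.induction_on generalizing t with
  | zero => simp
  | succ i ih =>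
    have e : t + ((i:ℤ) + 1 : ℤ) * T = (t + (i:ℤ) * T) + T := by push_cast; ring
    rw [e, h, ih]; push_cast; ring
  | pred i ih =>
    have e : t + (-(i:ℤ) : ℤ) * T = (t + (-(i:ℤ) - 1 : ℤ) * T) + T := by push_cast; ring
    have h1 := ih t
    rw [e, h] at h1
    push_cast at h1 ⊢
    linarith

/-- surjectivity of continuous quasi-periodic functions with nonzero drift -/
theorem quasi_surj {f : ℝ → ℝ} {T c : ℝ} (hf : Continuous f)
    (h : ∀ t, f (t + T) = f t + c) (hc : c ≠ 0) : Function.Surjective f := by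
  intro y
  have h1 : ∀ j : ℤ, f (j * T) = f 0 + j * c := by
    intro j; have := quasi_int h j 0; simpa using this
  -- find integers above and below
  obtain ⟨j1, hj1⟩ : ∃ j : ℤ, f 0 + j * c ≤ y := by
    rcases lt_or_gt_of_ne hc with hc | hc
    · obtain ⟨n, hn⟩ := exists_int_gt ((y - f 0) / c)
      refine ⟨n, ?_⟩
      have := (div_lt_iff_of_neg hc).1 hn
      linarith
    · obtain ⟨n, hn⟩ := exists_int_lt ((y - f 0) / c)
      refine ⟨n, ?_⟩
      have := (lt_div_iff₀ hc).1 hn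
      linarith
  obtain ⟨j2, hj2⟩ : ∃ j : ℤ, y ≤ f 0 + j * c := by
    rcases lt_or_gt_of_ne hc with hc | hc
    · obtain ⟨n, hn⟩ := exists_int_lt ((y - f 0) / c)
      refine ⟨n, ?_⟩
      have := (lt_div_iff_of_neg hc).1 hn
      linarith
    · obtain ⟨n, hn⟩ := exists_int_gt ((y - f 0) / c)
      refine ⟨n, ?_⟩
      have := (div_lt_iff₀ hc).1 hn
      linarith
  have := mem_range_of_exists_le_of_exists_ge hf (c := y) ⟨j1 * T, by rw [h1]; exact hj1⟩
    ⟨j2 * T, by rw [h1]; exact hj2⟩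
  exact this

section core

variable {X Y φ v θ k : ℝ → ℝ} {μ T : ℝ} {n : ℤ}

/-- `n ≤ 1` -/
theorem rot_le_one (hT : 0 < T) (hφd : ∀ t, HasDerivAt φ (k t) t) (hφm : StrictMono φ)
    (hφT : ∀ t, φ (t + T) = φ t + 2 * π) (hv : Continuous v)
    (hθ : ∀ t, HasDerivAt θ (μ * v t * sin (φ t - θ t)) t)
    (hθT : θ T = θ 0 + n * (2 * π)) : n ≤ 1 := by
  by_contra hn
  push Not at hn
  have hn2 : (2:ℝ) ≤ n := by exact_mod_cast hn
  have hpi := Real.pi_pos
  have h1 : (θ 0 - φ 0) / π ≤ (⌈(θ 0 - φ 0) / π⌉ : ℝ) := Int.le_ceil _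
  have h2 : (⌈(θ 0 - φ 0) / π⌉ : ℝ) < (θ 0 - φ 0) / π + 1 := Int.ceil_lt_add_one _
  rw [div_le_iff₀ hpi] at h1
  have h3 : (⌈(θ 0 - φ 0) / π⌉ : ℝ) * π < (θ 0 - φ 0) + π := by
    have := mul_lt_mul_of_pos_right h2 hpi
    rw [add_mul, div_mul_cancel₀ _ hpi.ne'] at this
    linarith
  have h4 := barrier hφd hφm hv hθ ⌈(θ 0 - φ 0) / π⌉ hT (by linarith)
  have h5 := hφT 0
  rw [zero_add] at h5
  rw [hθT, h5] at h4
  nlinarith

/-- crossing times -/
theorem crossing (hφd : ∀ t, HasDerivAt φ (k t) t) (hφm : StrictMono φ)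
    (hφT : ∀ t, φ (t + T) = φ t + 2 * π) (hv : Continuous v)
    (hθ : ∀ t, HasDerivAt θ (μ * v t * sin (φ t - θ t)) t)
    (hθT : ∀ t, θ (t + T) = θ t + n * (2 * π)) (hn : n ≠ 1) (m : ℤ) :
    ∃ s, θ s = φ s + m * π ∧ (∀ t, s < t → θ t < φ t + m * π) ∧
      (∀ t, t < s → φ t + m * π < θ t) := by
  have hφc : Continuous φ := continuous_iff_continuousAt.2 fun t => (hφd t).continuousAt
  have hθc : Continuous θ := continuous_iff_continuousAt.2 fun t => (hθ t).continuousAt
  have hs : Function.Surjective (fun t => θ t - φ t) := by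
    refine quasi_surj (T := T) (c := (n - 1) * (2 * π)) (hθc.sub hφc) ?_ ?_
    · intro t; simp only [hφT, hθT]; ring
    · have h1 : ((n:ℝ) - 1) ≠ 0 := by
        intro h; apply hn; have : (n:ℝ) = 1 := by linarith
        exact_mod_cast this
      have := Real.pi_pos
      positivity
  obtain ⟨s, hs⟩ := hs (m * π)
  simp only at hs
  have hs' : θ s = φ s + m * π := by linarith
  refine ⟨s, hs', fun t ht => barrier hφd hφm hv hθ m ht hs'.le, fun t ht => ?_⟩
  by_contra hc
  push Not at hc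
  have := barrier hφd hφm hv hθ m ht hc
  linarith

/-- the sign of `sin (φ - θ)` between consecutive crossings: increasing regime -/
theorem sin_pos_of (j : ℤ) {x : ℝ} (h1 : -(2 * j + 1 : ℝ) * π < x) (h2 : x < -(2 * j : ℝ) * π) :
    0 < sin (-x) := by
  have e : sin (-x) = sin (-x - j * (2 * π)) := (Real.sin_sub_int_mul_two_pi _ _).symm
  rw [e]
  apply Real.sin_pos_of_pos_of_lt_pi <;> nlinarith

theorem strictMono_between {a b : ℝ} (hμ : 0 < μ) (hv0 : ∀ t, 0 < v t)
    (hθ : ∀ t, HasDerivAt θ (μ * v t * sin (φ t - θ t)) t)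
    (h : ∀ t ∈ Ioo a b, 0 < sin (φ t - θ t)) : StrictMonoOn θ (Icc a b) := by
  apply strictMonoOn_of_deriv_pos (convex_Icc a b)
  · exact fun t _ => (hθ t).continuousAt.continuousWithinAt
  · intro t ht
    rw [interior_Icc] at ht
    rw [(hθ t).deriv]
    have := h t ht
    have := hv0 t
    positivity

theorem strictAnti_between {a b : ℝ} (hμ : 0 < μ) (hv0 : ∀ t, 0 < v t)
    (hθ : ∀ t, HasDerivAt θ (μ * v t * sin (φ t - θ t)) t)
    (h : ∀ t ∈ Ioo a b, sin (φ t - θ t) < 0) : StrictAntiOn θ (Icc a b) := by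
  apply strictAntiOn_of_deriv_neg (convex_Icc a b)
  · exact fun t _ => (hθ t).continuousAt.continuousWithinAt
  · intro t ht
    rw [interior_Icc] at ht
    rw [(hθ t).deriv]
    have := h t ht
    have := hv0 t
    have h3 : 0 < μ * v t := by positivity
    exact mul_neg_of_pos_of_neg h3 (h t ht)

/-- `n ≥ 0` -/
theorem rot_nonneg (hμ : 0 < μ) (hφd : ∀ t, HasDerivAt φ (k t) t) (hφm : StrictMono φ)
    (hφT : ∀ t, φ (t + T) = φ t + 2 * π) (hv : Continuous v) (hv0 : ∀ t, 0 < v t)
    (hθ : ∀ t, HasDerivAt θ (μ * v t * sin (φ t - θ t)) t)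
    (hθT : ∀ t, θ (t + T) = θ t + n * (2 * π)) : 0 ≤ n := by
  by_contra hn
  push Not at hn
  have hn1 : n ≠ 1 := by omega
  have hn2 : (n:ℝ) ≤ -1 := by
    have : n ≤ -1 := by omega
    exact_mod_cast this
  have hpi := Real.pi_pos
  obtain ⟨s0, h0, h0r, h0l⟩ := crossing hφd hφm hφT hv hθ hθT hn1 0
  obtain ⟨s1, h1, h1r, h1l⟩ := crossing hφd hφm hφT hv hθ hθT hn1 (-1)
  obtain ⟨s2, h2, h2r, h2l⟩ := crossing hφd hφm hφT hv hθ hθT hn1 (-2)
  obtain ⟨s3, h3, h3r, h3l⟩ := crossing hφd hφm hφT hv hθ hθT hn1 (-3)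
  push_cast at h0 h0r h0l h1 h1r h1l h2 h2r h2l h3 h3r h3l
  have h01 : s0 < s1 := by
    by_contra hc
    push Not at hc
    rcases hc.lt_or_eq with hc | hc
    · have := h1r s0 hc; linarith
    · rw [hc] at h1; linarith
  have h12 : s1 < s2 := by
    by_contra hc
    push Not at hc
    rcases hc.lt_or_eq with hc | hc
    · have := h2r s1 hc; linarith
    · rw [hc] at h2; linarith
  have h23 : s2 < s3 := by
    by_contra hc
    push Not at hc
    rcases hc.lt_or_eq with hc | hc
    · have := h3r s2 hc; linarith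
    · rw [hc] at h3; linarith
  have m01 : StrictMonoOn θ (Icc s0 s1) := by
    apply strictMono_between hμ hv0 hθ
    intro t ht
    have a1 := h0r t ht.1
    have a2 := h1l t ht.2
    have := sin_pos_of 0 (x := θ t - φ t) (by push_cast; linarith) (by push_cast; linarith)
    rwa [neg_sub] at this
  have m23 : StrictMonoOn θ (Icc s2 s3) := by
    apply strictMono_between hμ hv0 hθ
    intro t ht
    have a1 := h2r t ht.1
    have a2 := h3l t ht.2
    have := sin_pos_of 1 (x := θ t - φ t) (by push_cast; linarith) (by push_cast; linarith)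
    rwa [neg_sub] at this
  have b1 := m01 ⟨le_rfl, h01.le⟩ ⟨h01.le, le_rfl⟩ h01
  have b2 := m23 ⟨le_rfl, h23.le⟩ ⟨h23.le, le_rfl⟩ h23
  have b3 := hφm h12
  have b4 : φ (s0 + T) < φ s3 := by rw [hφT]; linarith
  have b5 : s0 + T < s3 := hφm.lt_iff_lt.1 b4
  have b6 := h3l _ b5
  rw [hφT, hθT, h0] at b6
  nlinarith

/-- antiderivative of the secant -/
theorem hasDerivAt_sec {x : ℝ} (hx : 0 < cos x) :
    HasDerivAt (fun x => Real.log (1 + sin x) - Real.log (cos x)) (1 / cos x) x := by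
  have h1 : 0 < 1 + sin x := by
    have : -1 < sin x := by
      by_contra hc
      push Not at hc
      have h2 := Real.neg_one_le_sin x
      have h3 : sin x = -1 := le_antisymm hc h2
      have h4 := Real.sin_sq_add_cos_sq x
      rw [h3] at h4
      nlinarith
    linarith
  have d1 := ((Real.hasDerivAt_sin x).const_add 1).log h1.ne'
  have d2 := (Real.hasDerivAt_cos x).log hx.ne'
  refine (d1.sub d2).congr_deriv ?_
  have h4 := Real.sin_sq_add_cos_sq x
  have h5 := h1.ne'
  have h6 := hx.ne'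
  field_simp
  linear_combination h4

/-- `n ≠ 0`, the key step. -/
theorem rot_ne_zero (hT : 0 < T) (hμ : 0 < μ)
    (hX : ∀ t, HasDerivAt X (v t * cos (φ t)) t) (hY : ∀ t, HasDerivAt Y (v t * sin (φ t)) t)
    (hXT : ∀ t, X (t + T) = X t) (hYT : ∀ t, Y (t + T) = Y t)
    (hφd : ∀ t, HasDerivAt φ (k t) t) (hφm : StrictMono φ)
    (hφT : ∀ t, φ (t + T) = φ t + 2 * π) (hv : Continuous v) (hv0 : ∀ t, 0 < v t)
    (hθ : ∀ t, HasDerivAt θ (μ * v t * sin (φ t - θ t)) t)
    (hθT : ∀ t, θ (t + T) = θ t) : False := by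
  have hpi := Real.pi_pos
  have hφc : Continuous φ := continuous_iff_continuousAt.2 fun t => (hφd t).continuousAt
  have hθc : Continuous θ := continuous_iff_continuousAt.2 fun t => (hθ t).continuousAt
  have hθT' : ∀ t, θ (t + T) = θ t + (0:ℤ) * (2 * π) := by intro t; simp [hθT t]
  obtain ⟨t0, h0, h0r, h0l⟩ := crossing hφd hφm hφT hv hθ hθT' (by norm_num) 1
  obtain ⟨t1, h1, h1r, h1l⟩ := crossing hφd hφm hφT hv hθ hθT' (by norm_num) 0
  push_cast at h0 h0r h0l h1 h1r h1l
  have h01 : t0 < t1 := by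
    by_contra hc
    push Not at hc
    rcases hc.lt_or_eq with hc | hc
    · have := h1r t0 hc; linarith
    · rw [hc] at h1; linarith
  have h2 : θ (t0 + T) = φ (t0 + T) - π := by rw [hφT, hθT]; linarith
  have h12 : t1 < t0 + T := by
    by_contra hc
    push Not at hc
    rcases hc.lt_or_eq with hc | hc
    · have := h1l _ hc; linarith
    · rw [hc] at h2; linarith
  have h2l : ∀ t, t < t0 + T → φ t - π < θ t := by
    intro t ht
    have := h0l (t - T) (by linarith)
    have e1 := hφT (t - T)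
    have e2 := hθT (t - T)
    rw [sub_add_cancel] at e1 e2
    linarith
  -- monotonicity
  have anti : StrictAntiOn θ (Icc t0 t1) := by
    apply strictAnti_between hμ hv0 hθ
    intro t ht
    have a1 := h0r t ht.1
    have a2 := h1l t ht.2
    have : 0 < sin (θ t - φ t) := Real.sin_pos_of_pos_of_lt_pi (by linarith) (by linarith)
    have e : φ t - θ t = -(θ t - φ t) := by ring
    rw [e, Real.sin_neg]; linarith
  have mono : StrictMonoOn θ (Icc t1 (t0 + T)) := by
    apply strictMono_between hμ hv0 hθ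
    intro t ht
    have a1 := h1r t ht.1
    have a2 := h2l t ht.2
    exact Real.sin_pos_of_pos_of_lt_pi (by linarith) (by linarith)
  have b1 := anti ⟨le_rfl, h01.le⟩ ⟨h01.le, le_rfl⟩ h01
  -- the inverse of `φ`
  have hφs : Function.Surjective φ := quasi_surj hφc hφT (by positivity)
  set Φ : ℝ ≃o ℝ := hφm.orderIsoOfSurjective φ hφs with hΦ
  have hΦφ : ∀ t, Φ.symm (φ t) = t := fun t => hφm.orderIsoOfSurjective_symm_apply_self _ hφs t
  have hφΦ : ∀ y, φ (Φ.symm y) = y := fun y => hφm.orderIsoOfSurjective_self_symm_apply _ hφs y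
  set σ : ℝ → ℝ := fun t => Φ.symm (φ t + π) with hσ
  have hσφ : ∀ t, φ (σ t) = φ t + π := fun t => hφΦ _
  have hσc : Continuous σ := Φ.symm.continuous.comp (hφc.add continuous_const)
  have hσr : ∀ t ∈ Icc t0 t1, t1 < σ t ∧ σ t < t0 + T := by
    intro t ht
    constructor
    · apply hφm.lt_iff_lt.1
      rw [hσφ]
      have := hφm.monotone ht.1
      linarith
    · apply hφm.lt_iff_lt.1
      rw [hσφ]
      have := hφm.monotone ht.2
      rw [hφT]
      linarith
  obtain ⟨a, ha, hab⟩ : ∃ a ∈ Icc t0 t1, θ (σ a) - θ a = 0 := by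
    have hcont : ContinuousOn (fun t => θ (σ t) - θ t) (Icc t0 t1) :=
      ((hθc.comp hσc).sub hθc).continuousOn
    have := intermediate_value_Icc h01.le hcont
    apply this
    constructor
    · have a1 := hσr t0 ⟨le_rfl, h01.le⟩
      have a2 := mono ⟨a1.1.le, a1.2.le⟩ ⟨h12.le, le_rfl⟩ a1.2
      rw [hθT] at a2
      linarith
    · have a1 := hσr t1 ⟨h01.le, le_rfl⟩
      have a2 := mono ⟨le_rfl, h12.le⟩ ⟨a1.1.le, a1.2.le⟩ a1.1
      linarith
  obtain ⟨hb1, hb2⟩ := hσr a ha
  set b := σ a with hb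
  have hφb : φ b = φ a + π := hσφ a
  have hθb : θ b = θ a := by linarith
  have hab' : a < b := lt_of_le_of_lt ha.2 hb1
  -- signs
  have s1 : ∀ t ∈ Ioo a b, θ t < θ a := by
    intro t ht
    rcases le_total t t1 with h | h
    · exact anti ha ⟨ha.1.trans ht.1.le, h⟩ ht.1
    · have := mono ⟨h, (ht.2.trans hb2).le⟩ ⟨hb1.le, hb2.le⟩ ht.2
      rwa [hθb] at this
  have s2 : ∀ t ∈ Ioo b (a + T), θ a < θ t := by
    intro t ht
    rcases le_total t (t0 + T) with h | h
    · have := mono ⟨hb1.le, hb2.le⟩ ⟨(hb1.trans ht.1).le, h⟩ ht.1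
      rwa [hθb] at this
    · have e := hθT (t - T)
      rw [sub_add_cancel] at e
      rw [e]
      exact anti ⟨by linarith, by linarith [ht.2, ha.2]⟩ ha (by linarith [ht.2])
  -- range of θ
  have r1 : ∀ t, θ t1 ≤ θ t ∧ θ t ≤ θ t0 := by
    have key : ∀ t ∈ Icc t0 (t0 + T), θ t1 ≤ θ t ∧ θ t ≤ θ t0 := by
      intro t ht
      rcases le_total t t1 with h | h
      · exact ⟨anti.antitoneOn ⟨ht.1, h⟩ ⟨h01.le, le_rfl⟩ h,
          anti.antitoneOn ⟨le_rfl, h01.le⟩ ⟨ht.1, h⟩ ht.1⟩
      · refine ⟨mono.monotoneOn ⟨le_rfl, h12.le⟩ ⟨h, ht.2⟩ h, ?_⟩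
        have := mono.monotoneOn ⟨h, ht.2⟩ ⟨h12.le, le_rfl⟩ ht.2
        rwa [hθT] at this
    intro t
    have hper : Function.Periodic θ T := hθT
    obtain ⟨y, hy, hty⟩ := hper.exists_mem_Ico hT t t0
    rw [hty]
    exact key y ⟨hy.1, hy.2.le⟩
  have hα : φ a ≤ θ t1 := by
    have := hφm.monotone ha.2
    linarith
  -- strictness: a ≠ t1 and a ≠ t0
  have ha1 : a ≠ t1 := by
    intro h
    have := mono ⟨le_rfl, h12.le⟩ ⟨hb1.le, hb2.le⟩ hb1
    rw [hθb, h] at this
    exact lt_irrefl _ this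
  have ha0 : a ≠ t0 := by
    intro h
    have := mono ⟨hb1.le, hb2.le⟩ ⟨h12.le, le_rfl⟩ hb2
    rw [hθb, h, hθT] at this
    exact lt_irrefl _ this
  have hα1 : φ a < θ t1 := by
    have := hφm (lt_of_le_of_ne ha.2 ha1)
    linarith
  have hα2 : θ t0 < φ a + π := by
    have := hφm (lt_of_le_of_ne ha.1 (Ne.symm ha0))
    linarith
  -- β
  set β := φ a + π / 2 with hβ
  have hcosβ : ∀ t, 0 < cos (θ t - β) := by
    intro t
    apply Real.cos_pos_of_mem_Ioo
    constructor
    · have := (r1 t).1; linarith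
    · have := (r1 t).2; linarith
  set η := θ a with hη
  set Q : ℝ → ℝ := fun t => (cos η * Y t - sin η * X t) -
    cos (β - η) / μ * (Real.log (1 + sin (θ t - β)) - Real.log (cos (θ t - β))) with hQ
  have hQd : ∀ t, HasDerivAt Q (v t * sin (θ t - η) * cos (φ t - β) / cos (θ t - β)) t := by
    intro t
    have d1 : HasDerivAt (fun t => cos η * Y t - sin η * X t)
        (cos η * (v t * sin (φ t)) - sin η * (v t * cos (φ t))) t :=
      ((hY t).const_mul _).sub ((hX t).const_mul _)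
    have d2 : HasDerivAt (fun t => θ t - β) (μ * v t * sin (φ t - θ t)) t := (hθ t).sub_const β
    have d3 := (hasDerivAt_sec (hcosβ t)).comp t d2
    have d4 := d1.sub (d3.const_mul (cos (β - η) / μ))
    refine HasDerivAt.congr_deriv d4 ?_
    have hc := (hcosβ t).ne'
    have hμ' := hμ.ne'
    have e1 : cos η * (v t * sin (φ t)) - sin η * (v t * cos (φ t)) = v t * sin (φ t - η) := by
      rw [Real.sin_sub]; ring
    rw [e1]
    have e2 : sin (φ t - η) * cos (θ t - β) =
        cos (β - η) * sin (φ t - θ t) + sin (θ t - η) * cos (φ t - β) := by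
      have x1 : φ t - η = (φ t - β) + (β - η) := by ring
      have x2 : φ t - θ t = (φ t - β) - (θ t - β) := by ring
      have x3 : θ t - η = (θ t - β) + (β - η) := by ring
      rw [x1, x2, x3]
      rw [Real.sin_add, Real.sin_sub (φ t - β), Real.sin_add (θ t - β)]
      ring
    field_simp
    linear_combination (v t) * e2
  have hQper : Q (a + T) = Q a := by
    simp only [hQ, hXT, hYT, hθT]
  have hQc : Continuous Q := continuous_iff_continuousAt.2 fun t => (hQd t).continuousAt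
  have q1 : StrictAntiOn Q (Icc a b) := by
    apply strictAntiOn_of_deriv_neg (convex_Icc a b) hQc.continuousOn
    intro t ht
    rw [interior_Icc] at ht
    rw [(hQd t).deriv]
    have c1 : sin (θ t - η) < 0 := by
      apply Real.sin_neg_of_neg_of_neg_pi_lt
      · have := s1 t ht; linarith
      · have := (r1 t).1
        have := (r1 a).2
        linarith
    have c2 : 0 < cos (φ t - β) := by
      have x1 := hφm ht.1
      have x2 := hφm ht.2
      apply Real.cos_pos_of_mem_Ioo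
      constructor <;> linarith
    apply div_neg_of_neg_of_pos _ (hcosβ t)
    exact mul_neg_of_neg_of_pos (mul_neg_of_pos_of_neg (hv0 t) c1) c2
  have q2 : AntitoneOn Q (Icc b (a + T)) := by
    apply antitoneOn_of_deriv_nonpos (convex_Icc b (a + T)) hQc.continuousOn
    · intro t _; exact (hQd t).differentiableAt.differentiableWithinAt
    intro t ht
    rw [interior_Icc] at ht
    rw [(hQd t).deriv]
    have c1 : 0 < sin (θ t - η) := by
      apply Real.sin_pos_of_pos_of_lt_pi
      · have := s2 t ht; linarith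
      · have := (r1 t).2
        have := (r1 a).1
        linarith
    have c2 : cos (φ t - β) < 0 := by
      have x1 := hφm ht.1
      have x2 := hφm ht.2
      rw [hφT] at x2
      apply Real.cos_neg_of_pi_div_two_lt_of_lt <;> linarith
    apply div_nonpos_of_nonpos_of_nonneg _ (hcosβ t).le
    exact mul_nonpos_of_nonneg_of_nonpos (mul_pos (hv0 t) c1).le c2.le
  have hbT : b ≤ a + T := by linarith [ha.1]
  have z1 := q1 ⟨le_rfl, hab'.le⟩ ⟨hab'.le, le_rfl⟩ hab'
  have z2 := q2 ⟨le_rfl, hbT⟩ ⟨hbT, le_rfl⟩ hbT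
  rw [hQper] at z2
  linarith

/-- The rotation number is one. -/
theorem rot_eq_one (hT : 0 < T) (hμ : 0 < μ)
    (hX : ∀ t, HasDerivAt X (v t * cos (φ t)) t) (hY : ∀ t, HasDerivAt Y (v t * sin (φ t)) t)
    (hXT : ∀ t, X (t + T) = X t) (hYT : ∀ t, Y (t + T) = Y t)
    (hφd : ∀ t, HasDerivAt φ (k t) t) (hφm : StrictMono φ)
    (hφT : ∀ t, φ (t + T) = φ t + 2 * π) (hv : Continuous v) (hv0 : ∀ t, 0 < v t)
    (hθ : ∀ t, HasDerivAt θ (μ * v t * sin (φ t - θ t)) t)
    (hθT : ∀ t, θ (t + T) = θ t + n * (2 * π)) : n = 1 := by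
  have h1 : n ≤ 1 := by
    have := hθT 0
    rw [zero_add] at this
    exact rot_le_one hT hφd hφm hφT hv hθ this
  have h2 := rot_nonneg hμ hφd hφm hφT hv hv0 hθ hθT
  have h3 : n ≠ 0 := by
    intro h
    subst h
    exact rot_ne_zero hT hμ hX hY hXT hYT hφd hφm hφT hv hv0 hθ (by simpa using hθT)
  omega

/-- for a closed solution of rotation number one, `sin (φ - θ) > 0` always -/
theorem sin_pos_of_rot_one (hT : 0 < T) (hμ : 0 < μ)
    (hφd : ∀ t, HasDerivAt φ (k t) t) (hφm : StrictMono φ)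
    (hφT : ∀ t, φ (t + T) = φ t + 2 * π) (hv : Continuous v) (hv0 : ∀ t, 0 < v t)
    (hθ : ∀ t, HasDerivAt θ (μ * v t * sin (φ t - θ t)) t)
    (hθT : ∀ t, θ (t + T) = θ t + 2 * π) (t : ℝ) : 0 < sin (φ t - θ t) := by
  have hpi := Real.pi_pos
  by_contra hc
  push Not at hc
  -- write χ = θ - φ in [2mπ, (2m+1)π]
  set m : ℤ := ⌊(θ t - φ t) / (2 * π)⌋ with hm
  have f1 : (m:ℝ) * (2 * π) ≤ θ t - φ t := by
    have := Int.floor_le ((θ t - φ t) / (2 * π))
    rwa [le_div_iff₀ (by positivity)] at this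
  have f2 : θ t - φ t < ((m:ℝ) + 1) * (2 * π) := by
    have := Int.lt_floor_add_one ((θ t - φ t) / (2 * π))
    rwa [div_lt_iff₀ (by positivity)] at this
  have f3 : θ t - φ t ≤ (2 * (m:ℝ) + 1) * π := by
    by_contra h
    push Not at h
    have : 0 < sin (φ t - θ t) := by
      have e : sin (φ t - θ t) = sin (φ t - θ t + (m + 1 : ℤ) * (2 * π)) :=
        (Real.sin_add_int_mul_two_pi _ _).symm
      rw [e]
      push_cast
      apply Real.sin_pos_of_pos_of_lt_pi <;> nlinarith
    linarith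
  have g1 : ∀ s, t < s → θ s - φ s < (2 * (m:ℝ) + 1) * π := by
    intro s hs
    have := barrier hφd hφm hv hθ (2 * m + 1) hs (by push_cast; linarith)
    push_cast at this
    linarith
  have g2 : ∀ s, t < s → (2 * (m:ℝ)) * π < θ s - φ s := by
    intro s hs
    by_contra h
    push Not at h
    obtain ⟨j, hj⟩ := exists_int_gt ((s - t) / T)
    rw [div_lt_iff₀ hT] at hj
    have := barrier hφd hφm hv hθ (2 * m) (s := s) (t := t + j * T) (by linarith)
      (by push_cast; linarith)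
    rw [quasi_int hφT, quasi_int hθT] at this
    push_cast at this
    nlinarith
  have anti : StrictAntiOn θ (Icc t (t + T)) := by
    apply strictAnti_between hμ hv0 hθ
    intro s hs
    have a1 := g1 s hs.1
    have a2 := g2 s hs.1
    have e : sin (θ s - φ s) = sin (θ s - φ s - (m : ℤ) * (2 * π)) :=
      (Real.sin_sub_int_mul_two_pi _ _).symm
    have : 0 < sin (θ s - φ s) := by
      rw [e]
      apply Real.sin_pos_of_pos_of_lt_pi <;> nlinarith
    have e : φ s - θ s = -(θ s - φ s) := by ring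
    rw [e, Real.sin_neg]; linarith
  have := anti ⟨le_rfl, by linarith⟩ ⟨by linarith, le_rfl⟩ (by linarith : t < t + T)
  rw [hθT] at this
  linarith

end core

end Pool.Agent.X147.Bike
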