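import Pool.Agent.X147.BikeB

/-! From a strictly convex region bounded by a regular simple closed curve to the tangent angle. -/

namespace Pool.Agent.X147.Bike

open Real Set

/-- A `C²` regular closed plane curve `t ↦ (X t, Y t)` of period `T`, simple, and bounding a
strictly convex compact region `K`. -/
structure ConvexTrack (X Y : ℝ → ℝ) (T : ℝ) : Prop where
  period_pos : 0 < T
  smooth_X : ContDiff ℝ 2 X
  smooth_Y : ContDiff ℝ 2 Y
  periodic_X : ∀ t, X (t + T) = X t
  periodic_Y : ∀ t, Y (t + T) = Y t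
  regular : ∀ t, deriv X t ≠ 0 ∨ deriv Y t ≠ 0
  simple : Set.InjOn (fun t => (X t, Y t)) (Set.Ico 0 T)
  convex : ∃ K : Set (ℝ × ℝ), IsCompact K ∧ StrictConvex ℝ K ∧ (interior K).Nonempty ∧
    frontier K = Set.range (fun t => (X t, Y t))

/-- cross product of the velocity at `t` with `p - Γ(t)` -/
noncomputable def crs (X Y : ℝ → ℝ) (t : ℝ) (p : ℝ × ℝ) : ℝ :=
  deriv X t * (p.2 - Y t) - deriv Y t * (p.1 - X t)

section

variable {X Y : ℝ → ℝ} {T : ℝ}

theorem ConvexTrack.hasDerivX (h : ConvexTrack X Y T) (t : ℝ) : HasDerivAt X (deriv X t) t :=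
  (h.smooth_X.differentiable (by norm_num)).differentiableAt.hasDerivAt

theorem ConvexTrack.hasDerivY (h : ConvexTrack X Y T) (t : ℝ) : HasDerivAt Y (deriv Y t) t :=
  (h.smooth_Y.differentiable (by norm_num)).differentiableAt.hasDerivAt

theorem deriv_C1 {f : ℝ → ℝ} (h : ContDiff ℝ 2 f) : ContDiff ℝ 1 (deriv f) := by
  have h2 : ContDiff ℝ (1 + 1) f := by simpa [one_add_one_eq_two] using h
  exact (contDiff_succ_iff_deriv.1 h2).2.2

theorem ConvexTrack.contX' (h : ConvexTrack X Y T) : Continuous (deriv X) :=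
  (deriv_C1 h.smooth_X).continuous

theorem ConvexTrack.contY' (h : ConvexTrack X Y T) : Continuous (deriv Y) :=
  (deriv_C1 h.smooth_Y).continuous

/-- every point of `K` other than `Γ(t)` lies strictly on one side of the tangent line -/
theorem one_side {K : Set (ℝ × ℝ)} (hK : IsCompact K) (hsc : StrictConvex ℝ K)
    (hint : (interior K).Nonempty) (hfr : frontier K = Set.range (fun t => (X t, Y t)))
    (hX : ∀ t, HasDerivAt X (deriv X t) t) (hY : ∀ t, HasDerivAt Y (deriv Y t) t)
    (hreg : ∀ t, deriv X t ≠ 0 ∨ deriv Y t ≠ 0) (t : ℝ) :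
    (∀ p ∈ K, p ≠ (X t, Y t) → 0 < crs X Y t p) ∨
      (∀ p ∈ K, p ≠ (X t, Y t) → crs X Y t p < 0) := by
  have hmem : ∀ s, (X s, Y s) ∈ frontier K := fun s => by rw [hfr]; exact ⟨s, rfl⟩
  have hKc : IsClosed K := hK.isClosed
  have hfK : ∀ s, (X s, Y s) ∈ K := fun s => hKc.frontier_subset (hmem s)
  have hni : (X t, Y t) ∉ interior K := (hmem t).2
  obtain ⟨f, hf⟩ := geometric_hahn_banach_open_point hsc.convex.interior isOpen_interior hni
  have hfp : ∀ p ∈ K, p ≠ (X t, Y t) → f p < f (X t, Y t) := by
    intro p hp hne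
    have h1 := hsc hp (hfK t) hne (a := 1/2) (b := 1/2) (by norm_num) (by norm_num) (by norm_num)
    have h2 := hf _ h1
    rw [map_add, map_smul, map_smul] at h2
    simp only [smul_eq_mul] at h2
    linarith
  set A := f (1, 0) with hA
  set B := f (0, 1) with hB
  have hfe : ∀ x y : ℝ, f (x, y) = A * x + B * y := by
    intro x y
    have : ((x, y) : ℝ × ℝ) = x • (1, 0) + y • (0, 1) := by
      ext <;> simp
    rw [this, map_add, map_smul, map_smul]
    simp only [smul_eq_mul]; ring
  have hmax : IsLocalMax (fun s => f (X s, Y s)) t := by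
    apply Filter.Eventually.of_forall
    intro s
    by_cases hs : (X s, Y s) = (X t, Y t)
    · exact le_of_eq (congrArg f hs)
    · exact (hfp _ (hfK s) hs).le
  have hder : HasDerivAt (fun s => f (X s, Y s)) (A * deriv X t + B * deriv Y t) t := by
    have : (fun s => f (X s, Y s)) = fun s => A * X s + B * Y s := by funext s; exact hfe _ _
    rw [this]
    exact ((hX t).const_mul A).add ((hY t).const_mul B)
  have h0 := hmax.hasDerivAt_eq_zero hder
  set a := deriv X t with ha
  set b := deriv Y t with hb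
  have hn : 0 < a ^ 2 + b ^ 2 := by
    rcases hreg t with h | h
    · have : 0 < a ^ 2 := by positivity
      positivity
    · have : 0 < b ^ 2 := by positivity
      positivity
  have key : ∀ p : ℝ × ℝ, (a ^ 2 + b ^ 2) * (f p - f (X t, Y t)) =
      -(A * b - B * a) * crs X Y t p * (-1) * (-1) := by
    intro p
    have e : f p = A * p.1 + B * p.2 := hfe p.1 p.2
    rw [e, hfe]
    simp only [crs, ← ha, ← hb]
    linear_combination (a * (p.1 - X t) + b * (p.2 - Y t)) * h0
  rcases lt_trichotomy (A * b - B * a) 0 with h | h | h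
  · right
    intro p hp hne
    have h1 := hfp p hp hne
    have h2 := key p
    have h3 : (a ^ 2 + b ^ 2) * (f p - f (X t, Y t)) < 0 :=
      mul_neg_of_pos_of_neg hn (by linarith)
    rw [h2] at h3
    by_contra hc
    push Not at hc
    nlinarith
  · exfalso
    obtain ⟨q, hq⟩ := hint
    have h1 := hf q hq
    have h2 := key q
    rw [h] at h2
    have h3 : (a ^ 2 + b ^ 2) * (f q - f (X t, Y t)) < 0 :=
      mul_neg_of_pos_of_neg hn (by linarith)
    rw [h2] at h3
    simp at h3
  · left
    intro p hp hne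
    have h1 := hfp p hp hne
    have h2 := key p
    have h3 : (a ^ 2 + b ^ 2) * (f p - f (X t, Y t)) < 0 :=
      mul_neg_of_pos_of_neg hn (by linarith)
    rw [h2] at h3
    by_contra hc
    push Not at hc
    nlinarith

/-- the side is the same for all `t` -/
theorem ConvexTrack.side (h : ConvexTrack X Y T) :
    (∀ s t, (X s, Y s) ≠ (X t, Y t) → 0 < crs X Y t (X s, Y s)) ∨
      (∀ s t, (X s, Y s) ≠ (X t, Y t) → crs X Y t (X s, Y s) < 0) := by
  obtain ⟨K, hK, hsc, hint, hfr⟩ := h.convex
  have hside := one_side hK hsc hint hfr h.hasDerivX h.hasDerivY h.regular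
  obtain ⟨q, hq⟩ := hint
  have hmem : ∀ s, (X s, Y s) ∈ frontier K := fun s => by rw [hfr]; exact ⟨s, rfl⟩
  have hfK : ∀ s, (X s, Y s) ∈ K := fun s => hK.isClosed.frontier_subset (hmem s)
  have hqne : ∀ t, q ≠ (X t, Y t) := by
    intro t e
    rw [e] at hq
    exact (hmem t).2 hq
  have hqK : q ∈ K := interior_subset hq
  have hXc : Continuous X := h.smooth_X.continuous
  have hYc : Continuous Y := h.smooth_Y.continuous
  have hX'c := h.contX'
  have hY'c := h.contY'
  have hcont : Continuous (fun t => crs X Y t q) := by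
    unfold crs
    fun_prop
  have hne : ∀ t, crs X Y t q ≠ 0 := by
    intro t
    rcases hside t with h1 | h1
    · exact (h1 q hqK (hqne t)).ne'
    · exact (h1 q hqK (hqne t)).ne
  have hsgn : (∀ t, 0 < crs X Y t q) ∨ (∀ t, crs X Y t q < 0) := by
    by_contra hc
    push Not at hc
    obtain ⟨⟨t1, h1⟩, ⟨t2, h2⟩⟩ := hc
    obtain ⟨x, hx⟩ := mem_range_of_exists_le_of_exists_ge hcont (c := 0) ⟨t1, h1⟩ ⟨t2, h2⟩
    exact hne x hx
  rcases hsgn with hs | hs
  · left
    intro s t hst
    rcases hside t with h1 | h1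
    · exact h1 _ (hfK s) hst
    · exact absurd (h1 q hqK (hqne t)) (not_lt.2 (hs t).le)
  · right
    intro s t hst
    rcases hside t with h1 | h1
    · exact absurd (h1 q hqK (hqne t)) (not_lt.2 (hs t).le)
    · exact h1 _ (hfK s) hst

/-- with positive signed area the side is the left one -/
theorem ConvexTrack.left_of_area (h : ConvexTrack X Y T)
    (harea : 0 < ∫ t in (0:ℝ)..T, (X t * deriv Y t - Y t * deriv X t)) :
    ∀ s t, (X s, Y s) ≠ (X t, Y t) → 0 < crs X Y t (X s, Y s) := by
  rcases h.side with hs | hs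
  · exact hs
  · exfalso
    have hXc : Continuous X := h.smooth_X.continuous
    have hYc : Continuous Y := h.smooth_Y.continuous
    have hX'c := h.contX'
    have hY'c := h.contY'
    -- use the point q = Γ(0)
    have hle : ∀ t, crs X Y t (X 0, Y 0) ≤ 0 := by
      intro t
      by_cases e : (X 0, Y 0) = (X t, Y t)
      · rw [e]; simp [crs]
      · exact (hs 0 t e).le
    have hcc : Continuous (fun t => crs X Y t (X 0, Y 0)) := by unfold crs; fun_prop
    have h1 : ∫ t in (0:ℝ)..T, crs X Y t (X 0, Y 0) ≤ 0 := by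
      have := intervalIntegral.integral_mono_on (μ := MeasureTheory.volume) h.period_pos.le
        (f := fun t => crs X Y t (X 0, Y 0)) (g := fun _ => (0:ℝ))
        (hcc.intervalIntegrable _ _) (continuous_const.intervalIntegrable _ _)
        (fun x _ => hle x)
      simpa using this
    have e1 : ∫ t in (0:ℝ)..T, crs X Y t (X 0, Y 0) =
        (∫ t in (0:ℝ)..T, (X t * deriv Y t - Y t * deriv X t)) +
          ((∫ t in (0:ℝ)..T, Y 0 * deriv X t) - ∫ t in (0:ℝ)..T, X 0 * deriv Y t) := by
      rw [← intervalIntegral.integral_sub, ← intervalIntegral.integral_add]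
      · congr 1; funext t; simp only [crs]; ring
      all_goals (apply Continuous.intervalIntegrable; fun_prop)
    have e2 : ∫ t in (0:ℝ)..T, Y 0 * deriv X t = 0 := by
      rw [intervalIntegral.integral_const_mul,
        intervalIntegral.integral_eq_sub_of_hasDerivAt (fun t _ => h.hasDerivX t)
          (hX'c.intervalIntegrable _ _)]
      have := h.periodic_X 0
      rw [zero_add] at this
      rw [this]; simp
    have e3 : ∫ t in (0:ℝ)..T, X 0 * deriv Y t = 0 := by
      rw [intervalIntegral.integral_const_mul,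
        intervalIntegral.integral_eq_sub_of_hasDerivAt (fun t _ => h.hasDerivY t)
          (hY'c.intervalIntegrable _ _)]
      have := h.periodic_Y 0
      rw [zero_add] at this
      rw [this]; simp
    rw [e1, e2, e3] at h1
    linarith

end

/-- logarithm of a nonvanishing `C¹` function -/
theorem exists_log {z z' : ℝ → ℂ} (hz : ∀ t, HasDerivAt z (z' t) t) (hz' : Continuous z')
    (h0 : ∀ t, z t ≠ 0) :
    ∃ L : ℝ → ℂ, (∀ t, HasDerivAt L (z' t / z t) t) ∧ ∀ t, z t = Complex.exp (L t) := by
  have hzc : Continuous z := continuous_iff_continuousAt.2 fun t => (hz t).continuousAt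
  have hq : Continuous (fun t => z' t / z t) := hz'.div hzc h0
  set L : ℝ → ℂ := fun t => Complex.log (z 0) + ∫ s in (0:ℝ)..t, z' s / z s with hL
  have hLd : ∀ t, HasDerivAt L (z' t / z t) t := by
    intro t
    exact ((hq.integral_hasStrictDerivAt 0 t).hasDerivAt).const_add _
  refine ⟨L, hLd, ?_⟩
  have hd : ∀ t, HasDerivAt (fun t => z t * Complex.exp (-L t)) 0 t := by
    intro t
    have h1 := (hz t).mul ((hLd t).neg.cexp)
    refine h1.congr_deriv ?_
    have := h0 t
    simp only [Pi.neg_apply]
    field_simp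
    ring
  have hc : ∀ t, z t * Complex.exp (-L t) = z 0 * Complex.exp (-L 0) := by
    intro t
    exact is_const_of_deriv_eq_zero (fun t => (hd t).differentiableAt)
      (fun t => (hd t).deriv) t 0
  intro t
  have h1 := hc t
  have h2 : L 0 = Complex.log (z 0) := by simp [hL]
  rw [h2, Complex.exp_neg (Complex.log (z 0)), Complex.exp_log (h0 0),
    mul_inv_cancel₀ (h0 0), Complex.exp_neg] at h1
  have h3 := Complex.exp_ne_zero (L t)
  field_simp at h1
  exact h1

end Pool.Agent.X147.Bike
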