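import Pool.Agent.X147.BikeC

/-! The tangent angle of a strictly convex track. -/

namespace Pool.Agent.X147.Bike

open Real Set

/-- distinct parameters within a period give distinct points -/
theorem ConvexTrack.ne_of_lt {X Y : ℝ → ℝ} {T : ℝ} (h : ConvexTrack X Y T) {s t : ℝ}
    (h1 : t < s) (h2 : s < t + T) : (X s, Y s) ≠ (X t, Y t) := by
  intro e
  have hT := h.period_pos
  have hpX : ∀ (j : ℤ) t, X (t + j * T) = X t := by
    intro j t
    have := quasi_int (f := X) (T := T) (c := 0) (by simpa using h.periodic_X) j t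
    simpa using this
  have hpY : ∀ (j : ℤ) t, Y (t + j * T) = Y t := by
    intro j t
    have := quasi_int (f := Y) (T := T) (c := 0) (by simpa using h.periodic_Y) j t
    simpa using this
  obtain ⟨j, hj, -⟩ := existsUnique_add_zsmul_mem_Ico hT t 0
  simp only [zsmul_eq_mul, zero_add] at hj
  rcases lt_or_ge (s + j * T) T with hlt | hge
  · have hs : s + j * T ∈ Set.Ico 0 T := ⟨by linarith [hj.1], hlt⟩
    have := h.simple hs hj (by
      simp only [hpX, hpY]
      exact e)
    linarith
  · have hs : s + ((j - 1 : ℤ) : ℝ) * T ∈ Set.Ico 0 T := by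
      push_cast
      constructor
      · linarith
      · have := hj.2; linarith
    have := h.simple hs hj (by
      simp only [hpX, hpY]
      exact e)
    push_cast at this
    linarith

theorem ConvexTrack.angle {X Y : ℝ → ℝ} {T : ℝ} (h : ConvexTrack X Y T)
    (hleft : ∀ s t, (X s, Y s) ≠ (X t, Y t) → 0 < crs X Y t (X s, Y s)) :
    ∃ φ v k : ℝ → ℝ, (∀ t, HasDerivAt φ (k t) t) ∧ Continuous k ∧ StrictMono φ ∧
      (∀ t, φ (t + T) = φ t + 2 * π) ∧ Continuous v ∧ (∀ t, 0 < v t) ∧
      (∀ t, v (t + T) = v t) ∧
      (∀ t, HasDerivAt X (v t * cos (φ t)) t) ∧ (∀ t, HasDerivAt Y (v t * sin (φ t)) t) := by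
  have hT := h.period_pos
  have hpi := Real.pi_pos
  have hX'1 := deriv_C1 h.smooth_X
  have hY'1 := deriv_C1 h.smooth_Y
  have hX'' : Continuous (deriv (deriv X)) := hX'1.continuous_deriv (by norm_num)
  have hY'' : Continuous (deriv (deriv Y)) := hY'1.continuous_deriv (by norm_num)
  set z : ℝ → ℂ := fun t => ((deriv X t : ℝ) : ℂ) + ((deriv Y t : ℝ) : ℂ) * Complex.I with hz
  set z' : ℝ → ℂ := fun t => ((deriv (deriv X) t : ℝ) : ℂ)
    + ((deriv (deriv Y) t : ℝ) : ℂ) * Complex.I with hz'
  have hzd : ∀ t, HasDerivAt z (z' t) t := by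
    intro t
    have d1 : HasDerivAt (deriv X) (deriv (deriv X) t) t :=
      ((hX'1.differentiable (by norm_num)) t).hasDerivAt
    have d2 : HasDerivAt (deriv Y) (deriv (deriv Y) t) t :=
      ((hY'1.differentiable (by norm_num)) t).hasDerivAt
    exact d1.ofReal_comp.add (d2.ofReal_comp.mul_const Complex.I)
  have hz'c : Continuous z' := by
    simp only [hz']
    fun_prop
  have hre : ∀ t, (z t).re = deriv X t := by intro t; simp [hz]
  have him : ∀ t, (z t).im = deriv Y t := by intro t; simp [hz]
  have hz0 : ∀ t, z t ≠ 0 := by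
    intro t e
    have e1 := hre t
    have e2 := him t
    rw [e] at e1 e2
    simp only [Complex.zero_re, Complex.zero_im] at e1 e2
    rcases h.regular t with h1 | h1
    · exact h1 e1.symm
    · exact h1 e2.symm
  obtain ⟨L, hLd, hLe⟩ := exists_log hzd hz'c hz0
  set φ : ℝ → ℝ := fun t => (L t).im with hφ
  set v : ℝ → ℝ := fun t => Real.exp (L t).re with hv
  set k : ℝ → ℝ := fun t => (z' t / z t).im with hk
  have hφd : ∀ t, HasDerivAt φ (k t) t := fun t => by
    have := Complex.imCLM.hasFDerivAt.comp_hasDerivAt t (hLd t)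
    exact this
  have hzc : Continuous z := continuous_iff_continuousAt.2 fun t => (hzd t).continuousAt
  have hLc : Continuous L := continuous_iff_continuousAt.2 fun t => (hLd t).continuousAt
  have hkc : Continuous k := Complex.continuous_im.comp (hz'c.div hzc hz0)
  have hφc : Continuous φ := Complex.continuous_im.comp hLc
  have hvc : Continuous v := Real.continuous_exp.comp (Complex.continuous_re.comp hLc)
  have hv0 : ∀ t, 0 < v t := fun t => Real.exp_pos _
  have hX'e : ∀ t, deriv X t = v t * cos (φ t) := by
    intro t; rw [← hre, hLe, Complex.exp_re]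
  have hY'e : ∀ t, deriv Y t = v t * sin (φ t) := by
    intro t; rw [← him, hLe, Complex.exp_im]
  have hXd : ∀ t, HasDerivAt X (v t * cos (φ t)) t := fun t => by
    rw [← hX'e]; exact h.hasDerivX t
  have hYd : ∀ t, HasDerivAt Y (v t * sin (φ t)) t := fun t => by
    rw [← hY'e]; exact h.hasDerivY t
  -- the support function of the tangent line at t
  have gd : ∀ t s, HasDerivAt (fun s => cos (φ t) * (Y s - Y t) - sin (φ t) * (X s - X t))
      (v s * sin (φ s - φ t)) s := by
    intro t s
    have := (((hYd s).sub_const (Y t)).const_mul (cos (φ t))).sub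
      (((hXd s).sub_const (X t)).const_mul (sin (φ t)))
    refine this.congr_deriv ?_
    rw [Real.sin_sub]; ring
  have gpos : ∀ t s, (X s, Y s) ≠ (X t, Y t) →
      0 < cos (φ t) * (Y s - Y t) - sin (φ t) * (X s - X t) := by
    intro t s hne
    have h1 := hleft s t hne
    unfold crs at h1
    rw [hX'e, hY'e] at h1
    simp only at h1
    have h2 : 0 < v t * (cos (φ t) * (Y s - Y t) - sin (φ t) * (X s - X t)) := by
      have e : v t * (cos (φ t) * (Y s - Y t) - sin (φ t) * (X s - X t)) =
        v t * cos (φ t) * (Y s - Y t) - v t * sin (φ t) * (X s - X t) := by ring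
      rw [e]; exact h1
    exact (pos_iff_pos_of_mul_pos h2).1 (hv0 t)
  -- k ≥ 0
  have hk0 : ∀ t, 0 ≤ k t := by
    intro t
    by_contra hneg
    push Not at hneg
    -- φ s < φ t for s slightly larger
    have hev : ∀ᶠ s in nhdsWithin t (Set.Ioi t), φ s < φ t := by
      have h1 := (hφd t).hasDerivWithinAt (s := Set.Ioi t)
      have h2 := (hasDerivWithinAt_iff_tendsto_slope' (by simp)).1 h1
      have h3 := h2.eventually (gt_mem_nhds hneg)
      filter_upwards [h3, self_mem_nhdsWithin] with s hs hst
      have hst' : 0 < s - t := sub_pos.2 hst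
      rw [slope_def_field, div_lt_iff₀ hst'] at hs
      linarith
    have hev2 : ∀ᶠ s in nhdsWithin t (Set.Ioi t), φ t - π < φ s :=
      (hφc.continuousAt.eventually (lt_mem_nhds (by linarith : φ t - π < φ t))).filter_mono
        nhdsWithin_le_nhds
    have hev3 : ∀ᶠ s in nhdsWithin t (Set.Ioi t), s < t + T :=
      (gt_mem_nhds (by linarith : t < t + T)).filter_mono nhdsWithin_le_nhds
    obtain ⟨u, hu, hu2⟩ := (mem_nhdsGT_iff_exists_Ioo_subset).1 (hev.and (hev2.and hev3))
    have hu' : t < u := hu
    set w := (t + u) / 2 with hw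
    have hw1 : t < w := by rw [hw]; linarith
    have hw2 : w < u := by rw [hw]; linarith
    have anti : StrictAntiOn (fun s => cos (φ t) * (Y s - Y t) - sin (φ t) * (X s - X t))
        (Icc t w) := by
      apply strictAntiOn_of_deriv_neg (convex_Icc t w)
      · exact fun s _ => (gd t s).continuousAt.continuousWithinAt
      · intro s hs
        rw [interior_Icc] at hs
        rw [(gd t s).deriv]
        have h5 := hu2 (show s ∈ Ioo t u from ⟨hs.1, hs.2.trans hw2⟩)
        obtain ⟨h6, h7, -⟩ := h5
        exact mul_neg_of_pos_of_neg (hv0 s)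
          (Real.sin_neg_of_neg_of_neg_pi_lt (by linarith) (by linarith))
    have h8 := anti ⟨le_rfl, hw1.le⟩ ⟨hw1.le, le_rfl⟩ hw1
    have h9 := (hu2 (show w ∈ Ioo t u from ⟨hw1, hw2⟩)).2.2
    have h10 := gpos t w (h.ne_of_lt hw1 h9)
    simp only [sub_self, mul_zero] at h8
    linarith
  have hmono : Monotone φ := by
    apply monotone_of_deriv_nonneg
    · intro t; exact (hφd t).differentiableAt
    · intro t; rw [(hφd t).deriv]; exact hk0 t
  have hstrict : StrictMono φ := by
    intro t s hts
    refine lt_of_le_of_ne (hmono hts.le) ?_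
    intro e
    set w := min s (t + T / 2) with hw
    have hw1 : t < w := lt_min hts (by linarith)
    have hw2 : w < t + T := lt_of_le_of_lt (min_le_right _ _) (by linarith)
    have hconst : ∀ r ∈ Icc t w, φ r = φ t := by
      intro r hr
      apply le_antisymm _ (hmono hr.1)
      rw [e]
      exact hmono (hr.2.trans (min_le_left _ _))
    have hz := constant_of_derivWithin_zero
      (f := fun s => cos (φ t) * (Y s - Y t) - sin (φ t) * (X s - X t)) (a := t) (b := w)
      (fun s _ => (gd t s).differentiableAt.differentiableWithinAt) (by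
        intro y hy
        have hy' : y ∈ Icc t w := ⟨hy.1, hy.2.le⟩
        have hd0 := gd t y
        rw [hconst y hy', sub_self, Real.sin_zero, mul_zero] at hd0
        exact hd0.hasDerivWithinAt.derivWithin (uniqueDiffOn_Icc hw1 y hy')) w ⟨hw1.le, le_rfl⟩
    have h10 := gpos t w (h.ne_of_lt hw1 hw2)
    simp only [sub_self, mul_zero] at hz
    linarith
  -- periodicity
  have hX'T : ∀ t, deriv X (t + T) = deriv X t := by
    intro t
    have h1 : HasDerivAt (fun t => X (t + T)) (deriv X (t + T)) t :=
      (h.hasDerivX (t + T)).comp_add_const t T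
    have h2 : (fun t => X (t + T)) = X := funext h.periodic_X
    rw [h2] at h1
    exact h1.deriv.symm
  have hY'T : ∀ t, deriv Y (t + T) = deriv Y t := by
    intro t
    have h1 : HasDerivAt (fun t => Y (t + T)) (deriv Y (t + T)) t :=
      (h.hasDerivY (t + T)).comp_add_const t T
    have h2 : (fun t => Y (t + T)) = Y := funext h.periodic_Y
    rw [h2] at h1
    exact h1.deriv.symm
  have hX''T : ∀ t, deriv (deriv X) (t + T) = deriv (deriv X) t := by
    intro t
    have h1 : HasDerivAt (fun t => deriv X (t + T)) (deriv (deriv X) (t + T)) t :=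
      (((hX'1.differentiable (by norm_num)) (t + T)).hasDerivAt).comp_add_const t T
    have h2 : (fun t => deriv X (t + T)) = deriv X := funext hX'T
    rw [h2] at h1
    exact h1.deriv.symm
  have hY''T : ∀ t, deriv (deriv Y) (t + T) = deriv (deriv Y) t := by
    intro t
    have h1 : HasDerivAt (fun t => deriv Y (t + T)) (deriv (deriv Y) (t + T)) t :=
      (((hY'1.differentiable (by norm_num)) (t + T)).hasDerivAt).comp_add_const t T
    have h2 : (fun t => deriv Y (t + T)) = deriv Y := funext hY'T
    rw [h2] at h1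
    exact h1.deriv.symm
  have hzT : ∀ t, z (t + T) = z t := by intro t; simp only [hz, hX'T, hY'T]
  have hz'T : ∀ t, z' (t + T) = z' t := by intro t; simp only [hz', hX''T, hY''T]
  have hLc : ∀ t, L (t + T) - L t = L (0 + T) - L 0 := by
    intro t
    have hd : ∀ t, HasDerivAt (fun t => L (t + T) - L t) 0 t := by
      intro t
      have h1 := ((hLd (t + T)).comp_add_const t T).sub (hLd t)
      rw [hzT, hz'T, sub_self] at h1
      exact h1
    exact is_const_of_deriv_eq_zero (fun t => (hd t).differentiableAt)
      (fun t => (hd t).deriv) t 0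
  obtain ⟨m, hm⟩ : ∃ m : ℤ, L (0 + T) = L 0 + m * (2 * π * Complex.I) := by
    apply Complex.exp_eq_exp_iff_exists_int.1
    rw [← hLe, ← hLe, hzT]
  have hLT : ∀ t, L (t + T) = L t + m * (2 * π * Complex.I) := by
    intro t
    have := hLc t
    rw [hm] at this
    linear_combination this
  have hvT : ∀ t, v (t + T) = v t := by
    intro t
    simp only [hv, hLT]
    simp
  have hφT : ∀ t, φ (t + T) = φ t + m * (2 * π) := by
    intro t
    simp only [hφ, hLT]
    simp
  have hm1 : 0 < m := by
    have h1 := hstrict (show (0:ℝ) < 0 + T by linarith)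
    rw [hφT] at h1
    have h2 : (0:ℝ) < m * (2 * π) := by linarith
    have h3 : (0:ℝ) < m := (pos_iff_pos_of_mul_pos h2).2 (by positivity)
    exact_mod_cast h3
  have hm2 : m < 2 := by
    by_contra hc
    push Not at hc
    have hc' : (2:ℝ) ≤ m := by exact_mod_cast hc
    obtain ⟨s, hs, hse⟩ : ∃ s ∈ Icc (0:ℝ) (0 + T), φ s = φ 0 + 2 * π := by
      have := intermediate_value_Icc (by linarith : (0:ℝ) ≤ 0 + T) hφc.continuousOn
      apply this
      constructor
      · linarith
      · rw [hφT]; nlinarith
    have hs0 : 0 < s := by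
      apply hstrict.lt_iff_lt.1
      rw [hse]; linarith
    have hsT : s < 0 + T := by
      apply hstrict.lt_iff_lt.1
      rw [hse, hφT]; nlinarith
    have hne := h.ne_of_lt hs0 hsT
    have g1 := gpos 0 s hne
    have g2 := gpos s 0 hne.symm
    rw [hse, Real.cos_add_two_pi, Real.sin_add_two_pi] at g2
    linarith
  have hm3 : m = 1 := by omega
  refine ⟨φ, v, k, hφd, hkc, hstrict, ?_, hvc, hv0, hvT, hXd, hYd⟩
  intro t
  rw [hφT, hm3]; push_cast; ring

end Pool.Agent.X147.Bike
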