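import Pool.Agent.X147.BikeD

/-! Closed solutions are quasi-periodic; rotation number theorem in terms of tracks. -/

namespace Pool.Agent.X147.Bike

open Real Set

section

variable {X Y φ v θ k : ℝ → ℝ} {μ T : ℝ} {n : ℤ}

/-- a solution with `θ T = θ 0 + 2πn` satisfies `θ (t+T) = θ t + 2πn` for all `t` -/
theorem quasi_of_closed (hφc : Continuous φ)
    (hφT : ∀ t, φ (t + T) = φ t + 2 * π) (hv : Continuous v) (hvT : ∀ t, v (t + T) = v t)
    (hθ : ∀ t, HasDerivAt θ (μ * v t * sin (φ t - θ t)) t)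
    (hθT : θ T = θ 0 + n * (2 * π)) : ∀ t, θ (t + T) = θ t + n * (2 * π) := by
  have h1 : ∀ t, HasDerivAt (fun t => θ (t + T)) (μ * v t * sin (φ t - θ (t + T))) t := by
    intro t
    have := (hθ (t + T)).comp_add_const t T
    rw [hvT, hφT] at this
    have e : φ t + 2 * π - θ (t + T) = φ t - θ (t + T) + 2 * π := by ring
    rw [e, Real.sin_add_two_pi] at this
    exact this
  have h2 : ∀ t, HasDerivAt (fun t => θ t + n * (2 * π))
      (μ * v t * sin (φ t - (θ t + n * (2 * π)))) t := by
    intro t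
    have := (hθ t).add_const (n * (2 * π))
    have e : φ t - (θ t + n * (2 * π)) = φ t - θ t - n * (2 * π) := by ring
    rw [e, Real.sin_sub_int_mul_two_pi]
    exact this
  have h3 := cmp_eq hφc hv h1 h2 (s := 0) (by simp only [zero_add]; exact hθT)
  intro t
  exact congrFun h3 t

end

theorem eq_add_int {a b : ℝ} (hc : cos a = cos b) (hs : sin a = sin b) :
    ∃ n : ℤ, a = b + n * (2 * π) := by
  have h1 : (a : Real.Angle) = b := Real.Angle.cos_sin_inj hc hs
  rw [Real.Angle.angle_eq_iff_two_pi_dvd_sub] at h1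
  obtain ⟨n, hn⟩ := h1
  exact ⟨n, by linarith⟩

end Pool.Agent.X147.Bike
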