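import Pool.Agent.X147.BikeE

/-! Global existence for the steering equation, and the monodromy matrix. -/

namespace Pool.Agent.X147.Bike

open Real Set

theorem exists_global {F : ℝ → ℝ → ℝ} {K C : NNReal} (hK : ∀ t, LipschitzWith K (F t))
    (hc : ∀ x, Continuous fun t => F t x) (hb : ∀ t x, ‖F t x‖ ≤ C) (x0 : ℝ) :
    ∃ f : ℝ → ℝ, f 0 = x0 ∧ ∀ t, HasDerivAt f (F t (f t)) t := by
  have key : ∀ n : ℕ, ∃ α : ℝ → ℝ, α 0 = x0 ∧
      ∀ t ∈ Ioo (-((n:ℝ) + 1)) ((n:ℝ) + 1), HasDerivAt α (F t (α t)) t := by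
    intro n
    have hn : (0:ℝ) < (n:ℝ) + 1 := by positivity
    have h0 : (0:ℝ) ∈ Icc (-((n:ℝ) + 1)) ((n:ℝ) + 1) := ⟨by linarith, hn.le⟩
    have hPL : IsPicardLindelof F (tmin := -((n:ℝ) + 1)) (tmax := (n:ℝ) + 1) ⟨0, h0⟩ x0
        (C * ((n:NNReal) + 1)) 0 C K := by
      refine ⟨fun t _ => (hK t).lipschitzOnWith, fun x _ => (hc x).continuousOn,
        fun t _ x _ => hb t x, ?_⟩
      simp
    obtain ⟨α, hα0, hα⟩ := hPL.exists_eq_forall_mem_Icc_hasDerivWithinAt₀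
    exact ⟨α, hα0, fun t ht => (hα t (Ioo_subset_Icc_self ht)).hasDerivAt (Icc_mem_nhds ht.1 ht.2)⟩
  choose α hα0 hα using key
  have huniq : ∀ n m : ℕ, n ≤ m → EqOn (α n) (α m) (Ioo (-((n:ℝ) + 1)) ((n:ℝ) + 1)) := by
    intro n m hnm
    have hn : (0:ℝ) < (n:ℝ) + 1 := by positivity
    have hnm' : (n:ℝ) ≤ m := by exact_mod_cast hnm
    apply ODE_solution_unique_of_mem_Ioo (v := F) (s := fun _ => univ) (K := K) (t₀ := 0)
    · exact fun t _ => (hK t).lipschitzOnWith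
    · exact ⟨by linarith, hn⟩
    · exact fun t ht => ⟨hα n t ht, trivial⟩
    · exact fun t ht => ⟨hα m t ⟨by linarith [ht.1], by linarith [ht.2]⟩, trivial⟩
    · rw [hα0, hα0]
  refine ⟨fun t : ℝ => α ⌈|t|⌉₊ t, ?_, ?_⟩
  · simp only; exact hα0 _
  · intro t
    set N := ⌈|t|⌉₊ + 1 with hN
    have h1 : |t| ≤ (⌈|t|⌉₊ : ℝ) := Nat.le_ceil _
    have h2 : (N:ℝ) = (⌈|t|⌉₊ : ℝ) + 1 := by rw [hN]; push_cast; ring
    have h3 : |t| < (N:ℝ) := by linarith
    have hev : (fun t : ℝ => α ⌈|t|⌉₊ t) =ᶠ[nhds t] α N := by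
      have h4 : ∀ᶠ s in nhds t, |s| < (N:ℝ) :=
        continuous_abs.continuousAt.eventually (gt_mem_nhds h3)
      filter_upwards [h4] with s hs
      have h5 : ⌈|s|⌉₊ ≤ N := Nat.ceil_le.2 hs.le
      apply huniq _ _ h5
      have h6 : |s| ≤ (⌈|s|⌉₊ : ℝ) := Nat.le_ceil _
      have := abs_le.1 h6
      exact ⟨by linarith [this.1], by linarith [this.2]⟩
    have h7 : t ∈ Ioo (-((N:ℝ) + 1)) ((N:ℝ) + 1) := by
      have := abs_lt.1 h3
      exact ⟨by linarith [this.1], by linarith [this.2]⟩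
    have h8 := hα N t h7
    have h9 := h8.congr_of_eventuallyEq hev
    have h10 : α ⌈|t|⌉₊ t = α N t := hev.self_of_nhds
    rw [← h10] at h9
    exact h9

/-- bounded periodic continuous functions -/
theorem periodic_bound {f : ℝ → ℝ} {T : ℝ} (hT : 0 < T) (hf : Continuous f)
    (hp : ∀ t, f (t + T) = f t) : ∃ C, 0 < C ∧ ∀ t, |f t| ≤ C := by
  obtain ⟨C, hC⟩ := isCompact_Icc.exists_bound_of_continuousOn (s := Icc (0:ℝ) T) hf.continuousOn
  refine ⟨max C 1, by positivity, fun t => ?_⟩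
  have hper : Function.Periodic f T := hp
  obtain ⟨y, hy, hty⟩ := hper.exists_mem_Ico₀ hT t
  rw [hty]
  exact (hC y ⟨hy.1, hy.2.le⟩).trans (le_max_left _ _)

/-- The no-skid equation `ℓ θ' = Γ' · (-sin θ, cos θ)` for the rear track
`γ = Γ - ℓ (cos θ, sin θ)`. -/
def Steering (X Y : ℝ → ℝ) (ℓ : ℝ) (θ : ℝ → ℝ) : Prop :=
  Differentiable ℝ θ ∧ ∀ t, ℓ * deriv θ t = deriv X t * (-sin (θ t)) + deriv Y t * cos (θ t)

/-- The point `(cos (x/2), sin (x/2))`; the circle of directions `x` is identified with the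
projective line through it. -/
noncomputable def circlePt (x : ℝ) : Fin 2 → ℝ := ![cos (x / 2), sin (x / 2)]

/-- `M` is a lift to `SL(2,ℝ)` of the monodromy `θ(0) ↦ θ(T)`. -/
def IsLift (X Y : ℝ → ℝ) (T ℓ : ℝ) (M : Matrix.SpecialLinearGroup (Fin 2) ℝ) : Prop :=
  ∀ θ, Steering X Y ℓ θ → ∃ c : ℝ, c ≠ 0 ∧
    (M : Matrix (Fin 2) (Fin 2) ℝ).mulVec (circlePt (θ 0)) = c • circlePt (θ T)

theorem steering_iff {X Y : ℝ → ℝ} {ℓ : ℝ} (hℓ : 0 < ℓ) {θ : ℝ → ℝ} :
    Steering X Y ℓ θ ↔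
      ∀ t, HasDerivAt θ ((deriv X t * (-sin (θ t)) + deriv Y t * cos (θ t)) / ℓ) t := by
  constructor
  · rintro ⟨h1, h2⟩ t
    have := (h1 t).hasDerivAt
    rw [← h2 t, mul_div_cancel_left₀ _ hℓ.ne']
    exact this
  · intro h
    refine ⟨fun t => (h t).differentiableAt, fun t => ?_⟩
    rw [(h t).deriv]
    field_simp

section exist

variable {X Y : ℝ → ℝ} {T ℓ : ℝ}

theorem steering_field (hT : 0 < T) (hX' : Continuous (deriv X)) (hY' : Continuous (deriv Y))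
    (hXT : ∀ t, deriv X (t + T) = deriv X t) (hYT : ∀ t, deriv Y (t + T) = deriv Y t)
    (hℓ : 0 < ℓ) : ∃ K : NNReal,
    (∀ t, LipschitzWith K (fun x => (deriv X t * (-sin x) + deriv Y t * cos x) / ℓ)) ∧
    ∀ t x, ‖(deriv X t * (-sin x) + deriv Y t * cos x) / ℓ‖ ≤ K := by
  obtain ⟨A, hA0, hA⟩ := periodic_bound hT hX' hXT
  obtain ⟨B, hB0, hB⟩ := periodic_bound hT hY' hYT
  have hK0 : 0 ≤ (A + B) / ℓ := by positivity
  have aux : ∀ t x y : ℝ, |x| ≤ 1 → |y| ≤ 1 →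
      ‖(deriv X t * x + deriv Y t * y) / ℓ‖ ≤ (A + B) / ℓ := by
    intro t x y hx hy
    rw [Real.norm_eq_abs, abs_div, abs_of_pos hℓ]
    apply div_le_div_of_nonneg_right _ hℓ.le
    refine (abs_add_le _ _).trans ?_
    rw [abs_mul, abs_mul]
    have h1 : |deriv X t| * |x| ≤ A * 1 := mul_le_mul (hA t) hx (abs_nonneg _) hA0.le
    have h2 : |deriv Y t| * |y| ≤ B * 1 := mul_le_mul (hB t) hy (abs_nonneg _) hB0.le
    linarith
  refine ⟨⟨(A + B) / ℓ, hK0⟩, fun t => ?_, fun t x => ?_⟩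
  · have hd : ∀ x, HasDerivAt (fun x => (deriv X t * (-sin x) + deriv Y t * cos x) / ℓ)
        ((deriv X t * (-cos x) + deriv Y t * (-sin x)) / ℓ) x := by
      intro x
      exact ((((Real.hasDerivAt_sin x).neg).const_mul _).add
        ((Real.hasDerivAt_cos x).const_mul _)).div_const _
    apply lipschitzWith_of_nnnorm_deriv_le (fun x => (hd x).differentiableAt)
    intro x
    rw [(hd x).deriv]
    apply NNReal.coe_le_coe.1
    rw [coe_nnnorm]
    exact aux t _ _ (by rw [abs_neg]; exact Real.abs_cos_le_one x)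
      (by rw [abs_neg]; exact Real.abs_sin_le_one x)
  · exact aux t _ _ (by rw [abs_neg]; exact Real.abs_sin_le_one x) (Real.abs_cos_le_one x)

theorem steering_exists (hT : 0 < T) (hX' : Continuous (deriv X)) (hY' : Continuous (deriv Y))
    (hXT : ∀ t, deriv X (t + T) = deriv X t) (hYT : ∀ t, deriv Y (t + T) = deriv Y t)
    (hℓ : 0 < ℓ) (η : ℝ) : ∃ θ, Steering X Y ℓ θ ∧ θ 0 = η := by
  obtain ⟨K, hK1, hK2⟩ := steering_field hT hX' hY' hXT hYT hℓ
  obtain ⟨θ, h0, h⟩ := exists_global (F := fun t x => (deriv X t * (-sin x) + deriv Y t * cos x) / ℓ)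
    hK1 (fun x => by fun_prop) hK2 η
  exact ⟨θ, (steering_iff hℓ).2 h, h0⟩

theorem steering_unique (hT : 0 < T) (hX' : Continuous (deriv X)) (hY' : Continuous (deriv Y))
    (hXT : ∀ t, deriv X (t + T) = deriv X t) (hYT : ∀ t, deriv Y (t + T) = deriv Y t)
    (hℓ : 0 < ℓ) {θ₁ θ₂ : ℝ → ℝ} (h1 : Steering X Y ℓ θ₁) (h2 : Steering X Y ℓ θ₂)
    (h0 : θ₁ 0 = θ₂ 0) : θ₁ = θ₂ := by
  obtain ⟨K, hK1, hK2⟩ := steering_field hT hX' hY' hXT hYT hℓ
  exact ODE_solution_unique_univ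
    (v := fun t x => (deriv X t * (-sin x) + deriv Y t * cos x) / ℓ)
    (s := fun _ => univ) (K := K) (t₀ := 0) (fun t => (hK1 t).lipschitzOnWith)
    (fun t => ⟨(steering_iff hℓ).1 h1 t, trivial⟩) (fun t => ⟨(steering_iff hℓ).1 h2 t, trivial⟩) h0

/-- linearisation -/
theorem lin_of_steering (hX' : Continuous (deriv X)) (hY' : Continuous (deriv Y)) (hℓ : 0 < ℓ)
    {θ : ℝ → ℝ} (h : Steering X Y ℓ θ) :
    ∃ r : ℝ → ℝ, (∀ t, 0 < r t) ∧ r 0 = 1 ∧
      (∀ t, HasDerivAt (fun t => r t * cos (θ t / 2))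
        ((deriv X t * (r t * cos (θ t / 2)) + deriv Y t * (r t * sin (θ t / 2))) / (2 * ℓ)) t) ∧
      (∀ t, HasDerivAt (fun t => r t * sin (θ t / 2))
        ((deriv Y t * (r t * cos (θ t / 2)) - deriv X t * (r t * sin (θ t / 2))) / (2 * ℓ)) t) := by
  have hθ := (steering_iff hℓ).1 h
  have hθc : Continuous θ := continuous_iff_continuousAt.2 fun t => (hθ t).continuousAt
  have hc : Continuous (fun t => (deriv X t * cos (θ t) + deriv Y t * sin (θ t)) / (2 * ℓ)) := by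
    fun_prop
  have hI : ∀ t, HasDerivAt (fun t => exp (∫ s in (0:ℝ)..t,
      (deriv X s * cos (θ s) + deriv Y s * sin (θ s)) / (2 * ℓ))) _ t := fun t =>
    ((hc.integral_hasStrictDerivAt 0 t).hasDerivAt).exp
  set r : ℝ → ℝ := fun t => exp (∫ s in (0:ℝ)..t,
      (deriv X s * cos (θ s) + deriv Y s * sin (θ s)) / (2 * ℓ)) with hr
  have hrd : ∀ t, HasDerivAt r (r t * ((deriv X t * cos (θ t) + deriv Y t * sin (θ t)) /
      (2 * ℓ))) t := hI
  have hcos : ∀ t, cos (θ t) = cos (θ t / 2) ^ 2 - sin (θ t / 2) ^ 2 := by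
    intro t
    have : θ t = 2 * (θ t / 2) := by ring
    conv_lhs => rw [this]
    rw [Real.cos_two_mul']
  have hsin : ∀ t, sin (θ t) = 2 * sin (θ t / 2) * cos (θ t / 2) := by
    intro t
    have : θ t = 2 * (θ t / 2) := by ring
    conv_lhs => rw [this]
    rw [Real.sin_two_mul]
  have hℓ' := hℓ.ne'
  refine ⟨r, fun t => exp_pos _, by simp [hr], fun t => ?_, fun t => ?_⟩
  · have h1 := (hrd t).mul (((hθ t).div_const 2).cos)
    refine h1.congr_deriv ?_
    have e := Real.sin_sq_add_cos_sq (θ t / 2)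
    rw [hcos, hsin]
    field_simp
    generalize cos (θ t / 2) = c at *
    generalize sin (θ t / 2) = s at *
    linear_combination (r t * (deriv X t * c + deriv Y t * s)) * e
  · have h1 := (hrd t).mul (((hθ t).div_const 2).sin)
    refine h1.congr_deriv ?_
    have e := Real.sin_sq_add_cos_sq (θ t / 2)
    rw [hcos, hsin]
    field_simp
    generalize cos (θ t / 2) = c at *
    generalize sin (θ t / 2) = s at *
    linear_combination (r t * (deriv Y t * c - deriv X t * s)) * e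

/-- constancy of the Wronskian -/
theorem wronskian {p q p' q' : ℝ → ℝ} {a b : ℝ → ℝ}
    (hp : ∀ t, HasDerivAt p ((a t * p t + b t * q t) / (2 * ℓ)) t)
    (hq : ∀ t, HasDerivAt q ((b t * p t - a t * q t) / (2 * ℓ)) t)
    (hp' : ∀ t, HasDerivAt p' ((a t * p' t + b t * q' t) / (2 * ℓ)) t)
    (hq' : ∀ t, HasDerivAt q' ((b t * p' t - a t * q' t) / (2 * ℓ)) t) (t : ℝ) :
    p t * q' t - q t * p' t = p 0 * q' 0 - q 0 * p' 0 := by
  have hd : ∀ t, HasDerivAt (fun t => p t * q' t - q t * p' t) 0 t := by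
    intro t
    have h1 := ((hp t).mul (hq' t)).sub ((hq t).mul (hp' t))
    refine h1.congr_deriv ?_
    ring
  exact is_const_of_deriv_eq_zero (fun t => (hd t).differentiableAt) (fun t => (hd t).deriv) t 0

/-- There is a lift with positive factors. -/
theorem exists_pos_lift (hT : 0 < T) (hX' : Continuous (deriv X)) (hY' : Continuous (deriv Y))
    (hXT : ∀ t, deriv X (t + T) = deriv X t) (hYT : ∀ t, deriv Y (t + T) = deriv Y t)
    (hℓ : 0 < ℓ) : ∃ M : Matrix.SpecialLinearGroup (Fin 2) ℝ,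
      ∀ θ, Steering X Y ℓ θ → ∃ c : ℝ, 0 < c ∧
        (M : Matrix (Fin 2) (Fin 2) ℝ).mulVec (circlePt (θ 0)) = c • circlePt (θ T) := by
  obtain ⟨θa, ha, ha0⟩ := steering_exists hT hX' hY' hXT hYT hℓ 0
  obtain ⟨θb, hb, hb0⟩ := steering_exists hT hX' hY' hXT hYT hℓ π
  obtain ⟨ra, ra0, ra1, dpa, dqa⟩ := lin_of_steering hX' hY' hℓ ha
  obtain ⟨rb, rb0, rb1, dpb, dqb⟩ := lin_of_steering hX' hY' hℓ hb
  have hdet := wronskian dpa dqa dpb dqb T
  rw [ha0, hb0, ra1, rb1] at hdet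
  simp only [zero_div, cos_zero, sin_zero, cos_pi_div_two, sin_pi_div_two] at hdet
  set M : Matrix (Fin 2) (Fin 2) ℝ := !![ra T * cos (θa T / 2), rb T * cos (θb T / 2);
    ra T * sin (θa T / 2), rb T * sin (θb T / 2)] with hM
  have hMdet : M.det = 1 := by
    rw [hM, Matrix.det_fin_two_of]
    linarith
  refine ⟨⟨M, hMdet⟩, fun θ hθ => ?_⟩
  obtain ⟨r, r0, r1, dp, dq⟩ := lin_of_steering hX' hY' hℓ hθ
  have w1 := wronskian dp dq dpb dqb T
  have w2 := wronskian dpa dqa dp dq T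
  rw [hb0, r1, rb1] at w1
  rw [ha0, r1, ra1] at w2
  simp only [zero_div, cos_zero, sin_zero, cos_pi_div_two, sin_pi_div_two] at w1 w2
  refine ⟨r T, r0 T, ?_⟩
  ext i
  fin_cases i
  · simp only [hM, circlePt, Matrix.mulVec, dotProduct, Fin.sum_univ_two]
    simp
    linear_combination (-(ra T * cos (θa T / 2))) * w1 - (rb T * cos (θb T / 2)) * w2
      + (r T * cos (θ T / 2)) * hdet
  · simp only [hM, circlePt, Matrix.mulVec, dotProduct, Fin.sum_univ_two]
    simp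
    linear_combination (-(ra T * sin (θa T / 2))) * w1 - (rb T * sin (θb T / 2)) * w2
      + (r T * sin (θ T / 2)) * hdet

end exist

/-- Uniqueness of the lift up to sign; we record the squared trace. -/
theorem lift_trace_sq {X Y : ℝ → ℝ} {T ℓ : ℝ}
    (hex : ∀ η, ∃ θ, Steering X Y ℓ θ ∧ θ 0 = η)
    {M N : Matrix.SpecialLinearGroup (Fin 2) ℝ} (hM : IsLift X Y T ℓ M) (hN : IsLift X Y T ℓ N) :
    (N : Matrix (Fin 2) (Fin 2) ℝ).trace ^ 2 = (M : Matrix (Fin 2) (Fin 2) ℝ).trace ^ 2 := by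
  have key : ∀ η, ∃ l : ℝ,
      (N : Matrix (Fin 2) (Fin 2) ℝ).mulVec (circlePt η) =
        l • (M : Matrix (Fin 2) (Fin 2) ℝ).mulVec (circlePt η) := by
    intro η
    obtain ⟨θ, hθ, h0⟩ := hex η
    obtain ⟨c, hc, h1⟩ := hM θ hθ
    obtain ⟨c', hc', h2⟩ := hN θ hθ
    rw [h0] at h1 h2
    refine ⟨c' / c, ?_⟩
    rw [h1, h2, smul_smul, div_mul_cancel₀ _ hc]
  obtain ⟨l1, h1⟩ := key 0
  obtain ⟨l2, h2⟩ := key π
  obtain ⟨l3, h3⟩ := key (π / 2)
  have hdM : (M : Matrix (Fin 2) (Fin 2) ℝ).det = 1 := M.2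
  have hdN : (N : Matrix (Fin 2) (Fin 2) ℝ).det = 1 := N.2
  rw [Matrix.det_fin_two] at hdM hdN
  rw [Matrix.trace_fin_two, Matrix.trace_fin_two]
  have a1 := congrFun h1 0
  have a2 := congrFun h1 1
  have b1 := congrFun h2 0
  have b2 := congrFun h2 1
  have c1 := congrFun h3 0
  have c2 := congrFun h3 1
  simp only [circlePt, Matrix.mulVec, dotProduct, Fin.sum_univ_two, Pi.smul_apply, smul_eq_mul,
    Matrix.cons_val_zero, Matrix.cons_val_one, zero_div, cos_zero, sin_zero, cos_pi_div_two,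
    sin_pi_div_two, mul_one, mul_zero, add_zero, zero_add] at a1 a2 b1 b2 c1 c2
  have e4 : π / 2 / 2 = π / 4 := by ring
  rw [e4, Real.cos_pi_div_four, Real.sin_pi_div_four] at c1 c2
  have hs : (0:ℝ) < √2 / 2 := by positivity
  generalize √2 / 2 = s at *
  have c1' : (N : Matrix (Fin 2) (Fin 2) ℝ) 0 0 + (N : Matrix (Fin 2) (Fin 2) ℝ) 0 1 =
      l3 * ((M : Matrix (Fin 2) (Fin 2) ℝ) 0 0 + (M : Matrix (Fin 2) (Fin 2) ℝ) 0 1) := by
    apply mul_right_cancel₀ hs.ne'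
    linear_combination c1
  have c2' : (N : Matrix (Fin 2) (Fin 2) ℝ) 1 0 + (N : Matrix (Fin 2) (Fin 2) ℝ) 1 1 =
      l3 * ((M : Matrix (Fin 2) (Fin 2) ℝ) 1 0 + (M : Matrix (Fin 2) (Fin 2) ℝ) 1 1) := by
    apply mul_right_cancel₀ hs.ne'
    linear_combination c2
  generalize (N : Matrix (Fin 2) (Fin 2) ℝ) 0 0 = a' at *
  generalize (N : Matrix (Fin 2) (Fin 2) ℝ) 0 1 = b' at *
  generalize (N : Matrix (Fin 2) (Fin 2) ℝ) 1 0 = c' at *
  generalize (N : Matrix (Fin 2) (Fin 2) ℝ) 1 1 = d' at *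
  generalize (M : Matrix (Fin 2) (Fin 2) ℝ) 0 0 = a at *
  generalize (M : Matrix (Fin 2) (Fin 2) ℝ) 0 1 = b at *
  generalize (M : Matrix (Fin 2) (Fin 2) ℝ) 1 0 = c at *
  generalize (M : Matrix (Fin 2) (Fin 2) ℝ) 1 1 = d at *
  have e1 : (l1 - l3) * a + (l2 - l3) * b = 0 := by linear_combination c1' - a1 - b1
  have e2 : (l1 - l3) * c + (l2 - l3) * d = 0 := by linear_combination c2' - a2 - b2
  have f1 : l1 = l3 := by linear_combination (-(l1 - l3)) * hdM + d * e1 - b * e2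
  have f2 : l2 = l3 := by linear_combination (-(l2 - l3)) * hdM + a * e2 - c * e1
  subst f1
  subst f2
  have hl : l2 ^ 2 = 1 := by
    rw [a1, a2, b1, b2] at hdN
    linear_combination hdN - l2 ^ 2 * hdM
  rw [a1, b2]
  linear_combination (a + d) ^ 2 * hl

theorem quad_value {M : Matrix (Fin 2) (Fin 2) ℝ} {x y c : ℝ}
    (h : M.mulVec (circlePt x) = c • circlePt y) :
    M 1 0 * cos (x / 2) ^ 2 + (M 1 1 - M 0 0) * (cos (x / 2) * sin (x / 2)) -
      M 0 1 * sin (x / 2) ^ 2 = c * sin ((y - x) / 2) := by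
  have a1 := congrFun h 0
  have a2 := congrFun h 1
  simp only [circlePt, Matrix.mulVec, dotProduct, Fin.sum_univ_two, Pi.smul_apply, smul_eq_mul,
    Matrix.cons_val_zero, Matrix.cons_val_one] at a1 a2
  have e : (y - x) / 2 = y / 2 - x / 2 := by ring
  rw [e, Real.sin_sub]
  linear_combination cos (x / 2) * a2 - sin (x / 2) * a1

/-- indefinite form implies positive discriminant -/
theorem disc_pos {a b c d x y z w : ℝ} (h1 : 0 < c * x ^ 2 + (d - a) * (x * y) - b * y ^ 2)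
    (h2 : c * z ^ 2 + (d - a) * (z * w) - b * w ^ 2 < 0) : 0 < (d - a) ^ 2 + 4 * b * c := by
  by_contra hc
  push Not at hc
  have q1 : 4 * c * (c * x ^ 2 + (d - a) * (x * y) - b * y ^ 2) =
      (2 * c * x + (d - a) * y) ^ 2 - ((d - a) ^ 2 + 4 * b * c) * y ^ 2 := by ring
  have q2 : 4 * c * (c * z ^ 2 + (d - a) * (z * w) - b * w ^ 2) =
      (2 * c * z + (d - a) * w) ^ 2 - ((d - a) ^ 2 + 4 * b * c) * w ^ 2 := by ring
  have p1 : 0 ≤ 4 * c * (c * x ^ 2 + (d - a) * (x * y) - b * y ^ 2) := by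
    rw [q1]
    have := mul_nonneg (neg_nonneg.2 hc) (sq_nonneg y)
    nlinarith [sq_nonneg (2 * c * x + (d - a) * y)]
  have p2 : 0 ≤ 4 * c * (c * z ^ 2 + (d - a) * (z * w) - b * w ^ 2) := by
    rw [q2]
    have := mul_nonneg (neg_nonneg.2 hc) (sq_nonneg w)
    nlinarith [sq_nonneg (2 * c * z + (d - a) * w)]
  have hc0 : 0 ≤ c := by
    by_contra h
    push Not at h
    have := mul_neg_of_neg_of_pos (by linarith : 4 * c < 0) h1
    linarith
  have hc1 : c ≤ 0 := by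
    by_contra h
    push Not at h
    have := mul_neg_of_pos_of_neg (by linarith : 0 < 4 * c) h2
    linarith
  have hc2 : c = 0 := le_antisymm hc1 hc0
  subst hc2
  have hda : (d - a) ^ 2 = 0 := le_antisymm (by linarith) (sq_nonneg _)
  have hda' : d - a = 0 := by simpa using hda
  rw [hda'] at h1 h2
  have g1 : 0 < -b * y ^ 2 := by linarith
  have g2 : -b * w ^ 2 < 0 := by linarith
  have g3 : 0 < -b := by
    by_contra h
    push Not at h
    have := mul_nonpos_of_nonpos_of_nonneg h (sq_nonneg y)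
    linarith
  have := mul_nonneg g3.le (sq_nonneg w)
  linarith

/-- nonnegative discriminant gives a direction where the form vanishes -/
theorem exists_zero_dir {a b c d : ℝ} (h : 0 ≤ (d - a) ^ 2 + 4 * b * c) :
    ∃ η : ℝ, c * cos (η / 2) ^ 2 + (d - a) * (cos (η / 2) * sin (η / 2)) -
      b * sin (η / 2) ^ 2 = 0 := by
  by_cases hc : c = 0
  · exact ⟨0, by simp [hc]⟩
  · set s := √((d - a) ^ 2 + 4 * b * c) with hs
    have hs2 : s ^ 2 = (d - a) ^ 2 + 4 * b * c := Real.sq_sqrt h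
    set x := (-(d - a) + s) / (2 * c) with hx
    have hq : c * x ^ 2 + (d - a) * x - b = 0 := by
      rw [hx]
      field_simp
      linear_combination hs2
    -- normalise
    have hn : 0 < x ^ 2 + 1 := by positivity
    set z : ℂ := ⟨x, 1⟩ with hz
    have hz0 : z ≠ 0 := by
      intro e
      have := congrArg Complex.im e
      simp [hz] at this
    have h1 : ‖z‖ * cos (Complex.arg z) = x := by
      rw [Complex.norm_mul_cos_arg]
    have h2 : ‖z‖ * sin (Complex.arg z) = 1 := by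
      rw [Complex.norm_mul_sin_arg]
    have hzn : 0 < ‖z‖ := norm_pos_iff.2 hz0
    refine ⟨2 * Complex.arg z, ?_⟩
    have e : 2 * Complex.arg z / 2 = Complex.arg z := by ring
    rw [e]
    have h3 : ‖z‖ ^ 2 * (c * cos (Complex.arg z) ^ 2 + (d - a) *
        (cos (Complex.arg z) * sin (Complex.arg z)) - b * sin (Complex.arg z) ^ 2) = 0 := by
      have : ‖z‖ ^ 2 * (c * cos (Complex.arg z) ^ 2 + (d - a) *
        (cos (Complex.arg z) * sin (Complex.arg z)) - b * sin (Complex.arg z) ^ 2) =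
        c * (‖z‖ * cos (Complex.arg z)) ^ 2 + (d - a) * ((‖z‖ * cos (Complex.arg z)) *
        (‖z‖ * sin (Complex.arg z))) - b * (‖z‖ * sin (Complex.arg z)) ^ 2 := by ring
      rw [this, h1, h2]
      linear_combination hq
    exact (mul_eq_zero.1 h3).resolve_left (by positivity)

end Pool.Agent.X147.Bike
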