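import Pool.Agent.X147.BikeF

/-! The hyperbolic-elliptic transition, for data given by a tangent angle. -/

namespace Pool.Agent.X147.Bike

open Real Set

section

variable {X Y φ v k : ℝ → ℝ} {T : ℝ}

theorem steering_iff_angle (hX : ∀ t, HasDerivAt X (v t * cos (φ t)) t)
    (hY : ∀ t, HasDerivAt Y (v t * sin (φ t)) t) {ℓ : ℝ} (hℓ : 0 < ℓ) {θ : ℝ → ℝ} :
    Steering X Y ℓ θ ↔ ∀ t, HasDerivAt θ (1 / ℓ * v t * sin (φ t - θ t)) t := by
  rw [steering_iff hℓ]
  have e : ∀ t, (deriv X t * (-sin (θ t)) + deriv Y t * cos (θ t)) / ℓ =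
      1 / ℓ * v t * sin (φ t - θ t) := by
    intro t
    rw [(hX t).deriv, (hY t).deriv, Real.sin_sub]
    ring
  constructor
  · intro h t; rw [← e]; exact h t
  · intro h t; rw [e]; exact h t

theorem contX'_of_angle (hX : ∀ t, HasDerivAt X (v t * cos (φ t)) t) (hφc : Continuous φ)
    (hv : Continuous v) : Continuous (deriv X) := by
  have : deriv X = fun t => v t * cos (φ t) := funext fun t => (hX t).deriv
  rw [this]; fun_prop

theorem contY'_of_angle (hY : ∀ t, HasDerivAt Y (v t * sin (φ t)) t) (hφc : Continuous φ)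
    (hv : Continuous v) : Continuous (deriv Y) := by
  have : deriv Y = fun t => v t * sin (φ t) := funext fun t => (hY t).deriv
  rw [this]; fun_prop

theorem perX'_of_angle (hX : ∀ t, HasDerivAt X (v t * cos (φ t)) t)
    (hφT : ∀ t, φ (t + T) = φ t + 2 * π) (hvT : ∀ t, v (t + T) = v t) (t : ℝ) :
    deriv X (t + T) = deriv X t := by
  rw [(hX _).deriv, (hX _).deriv, hφT, hvT, Real.cos_add_two_pi]

theorem perY'_of_angle (hY : ∀ t, HasDerivAt Y (v t * sin (φ t)) t)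
    (hφT : ∀ t, φ (t + T) = φ t + 2 * π) (hvT : ∀ t, v (t + T) = v t) (t : ℝ) :
    deriv Y (t + T) = deriv Y t := by
  rw [(hY _).deriv, (hY _).deriv, hφT, hvT, Real.sin_add_two_pi]

/-- a strict subsolution winding once forces hyperbolicity -/
theorem hyperbolic_of_sub (hT : 0 < T)
    (hX : ∀ t, HasDerivAt X (v t * cos (φ t)) t) (hY : ∀ t, HasDerivAt Y (v t * sin (φ t)) t)
    (hφd : ∀ t, HasDerivAt φ (k t) t) (hφm : StrictMono φ)
    (hφT : ∀ t, φ (t + T) = φ t + 2 * π) (hv : Continuous v)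
    (hvT : ∀ t, v (t + T) = v t) {ℓ : ℝ} (hℓ : 0 < ℓ) {f e : ℝ → ℝ}
    (hf : ∀ t, HasDerivAt f (1 / ℓ * v t * sin (φ t - f t) + e t) t) (he : ∀ t, e t < 0)
    (h1 : φ 0 - π ≤ f 0) (h2 : f 0 ≤ φ 0) (h3 : f T = f 0 + 2 * π)
    {M : Matrix.SpecialLinearGroup (Fin 2) ℝ} (hM : IsLift X Y T ℓ M) :
    4 < (M : Matrix (Fin 2) (Fin 2) ℝ).trace ^ 2 := by
  have hpi := Real.pi_pos
  have hφc : Continuous φ := continuous_iff_continuousAt.2 fun t => (hφd t).continuousAt
  have cX := contX'_of_angle hX hφc hv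
  have cY := contY'_of_angle hY hφc hv
  have pX := perX'_of_angle hX hφT hvT
  have pY := perY'_of_angle hY hφT hvT
  have hex := steering_exists hT cX cY pX pY hℓ
  obtain ⟨N, hN⟩ := exists_pos_lift hT cX cY pX pY hℓ
  have hNl : IsLift X Y T ℓ N := fun θ hθ => by
    obtain ⟨c, hc, h⟩ := hN θ hθ
    exact ⟨c, hc.ne', h⟩
  rw [lift_trace_sq hex hNl hM]
  obtain ⟨θ1, hθ1, h10⟩ := hex (f 0)
  obtain ⟨θ2, hθ2, h20⟩ := hex (φ 0)
  obtain ⟨c1, hc1, e1⟩ := hN θ1 hθ1
  obtain ⟨c2, hc2, e2⟩ := hN θ2 hθ2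
  have q1 := quad_value e1
  have q2 := quad_value e2
  have s1 := (steering_iff_angle hX hY hℓ).1 hθ1
  have s2 := (steering_iff_angle hX hY hℓ).1 hθ2
  have φT : φ T = φ 0 + 2 * π := by have := hφT 0; rwa [zero_add] at this
  -- bounds for θ1
  have a1 : f T < θ1 T := cmp_lt (e₂ := fun _ => 0) hφc hv hf (by simpa using s1) he hT h10.ge
  have a2 : θ1 T < φ T + (0:ℤ) * π := barrier hφd hφm hv s1 0 hT (by simp; rw [h10]; exact h2)
  have a3 : f T < θ2 T := cmp_lt (e₂ := fun _ => 0) hφc hv hf (by simpa using s2) he hT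
    (by rw [h20]; exact h2)
  have a4 : θ2 T < φ T + (0:ℤ) * π := barrier hφd hφm hv s2 0 hT (by simp [h20])
  push_cast at a2 a4
  have n1 : sin ((θ1 T - θ1 0) / 2) < 0 := by
    have e : (θ1 T - θ1 0) / 2 = ((θ1 T - θ1 0) / 2 - π) + π := by ring
    rw [e, Real.sin_add_pi]
    have : 0 < sin ((θ1 T - θ1 0) / 2 - π) :=
      Real.sin_pos_of_pos_of_lt_pi (by linarith) (by linarith)
    linarith
  have n2 : 0 < sin ((θ2 T - θ2 0) / 2) :=
    Real.sin_pos_of_pos_of_lt_pi (by linarith) (by linarith)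
  have r1 : c1 * sin ((θ1 T - θ1 0) / 2) < 0 := mul_neg_of_pos_of_neg hc1 n1
  have r2 : 0 < c2 * sin ((θ2 T - θ2 0) / 2) := mul_pos hc2 n2
  rw [← q1] at r1
  rw [← q2] at r2
  have hd := disc_pos r2 r1
  have hdN : (N : Matrix (Fin 2) (Fin 2) ℝ).det = 1 := N.2
  rw [Matrix.det_fin_two] at hdN
  rw [Matrix.trace_fin_two]
  nlinarith

/-- a non-elliptic lift gives a closed solution -/
theorem closed_of_trace {ℓ : ℝ} (hex : ∀ η, ∃ θ, Steering X Y ℓ θ ∧ θ 0 = η)
    {M : Matrix.SpecialLinearGroup (Fin 2) ℝ} (hM : IsLift X Y T ℓ M)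
    (h : 4 ≤ (M : Matrix (Fin 2) (Fin 2) ℝ).trace ^ 2) :
    ∃ θ, Steering X Y ℓ θ ∧ ∃ n : ℤ, θ T = θ 0 + n * (2 * π) := by
  have hdM : (M : Matrix (Fin 2) (Fin 2) ℝ).det = 1 := M.2
  rw [Matrix.det_fin_two] at hdM
  rw [Matrix.trace_fin_two] at h
  obtain ⟨η, hη⟩ := exists_zero_dir (a := (M : Matrix (Fin 2) (Fin 2) ℝ) 0 0)
    (b := (M : Matrix (Fin 2) (Fin 2) ℝ) 0 1) (c := (M : Matrix (Fin 2) (Fin 2) ℝ) 1 0)
    (d := (M : Matrix (Fin 2) (Fin 2) ℝ) 1 1) (by nlinarith)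
  obtain ⟨θ, hθ, h0⟩ := hex η
  obtain ⟨c, hc, e⟩ := hM θ hθ
  have q := quad_value e
  rw [h0, hη] at q
  have hs : sin ((θ T - η) / 2) = 0 := by
    rcases mul_eq_zero.1 q.symm with h | h
    · exact absurd h hc
    · exact h
  rw [Real.sin_eq_zero_iff] at hs
  obtain ⟨n, hn⟩ := hs
  exact ⟨θ, hθ, n, by rw [h0]; linarith⟩

theorem transition_of_angle (hT : 0 < T)
    (hX : ∀ t, HasDerivAt X (v t * cos (φ t)) t) (hY : ∀ t, HasDerivAt Y (v t * sin (φ t)) t)
    (hXT : ∀ t, X (t + T) = X t) (hYT : ∀ t, Y (t + T) = Y t)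
    (hφd : ∀ t, HasDerivAt φ (k t) t) (hkc : Continuous k) (hφm : StrictMono φ)
    (hφT : ∀ t, φ (t + T) = φ t + 2 * π) (hv : Continuous v) (hv0 : ∀ t, 0 < v t)
    (hvT : ∀ t, v (t + T) = v t) :
    ∃ ℓ₀ : ℝ, 0 < ℓ₀ ∧ ∀ ℓ : ℝ, 0 < ℓ → ∀ M : Matrix.SpecialLinearGroup (Fin 2) ℝ,
      IsLift X Y T ℓ M →
        (ℓ < ℓ₀ → 4 < (M : Matrix (Fin 2) (Fin 2) ℝ).trace ^ 2) ∧
        (ℓ₀ < ℓ → (M : Matrix (Fin 2) (Fin 2) ℝ).trace ^ 2 < 4) := by
  have hpi := Real.pi_pos
  have hφc : Continuous φ := continuous_iff_continuousAt.2 fun t => (hφd t).continuousAt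
  have cX := contX'_of_angle hX hφc hv
  have cY := contY'_of_angle hY hφc hv
  have pX := perX'_of_angle hX hφT hvT
  have pY := perY'_of_angle hY hφT hvT
  have φT : φ T = φ 0 + 2 * π := by have := hφT 0; rwa [zero_add] at this
  set S : Set ℝ := {ℓ | 0 < ℓ ∧ ∃ θ, Steering X Y ℓ θ ∧ ∃ n : ℤ, θ T = θ 0 + n * (2 * π)} with hS
  -- closed solutions wind once
  have hone : ∀ ℓ, 0 < ℓ → ∀ θ, Steering X Y ℓ θ → (∃ n : ℤ, θ T = θ 0 + n * (2 * π)) →
      ∀ t, θ (t + T) = θ t + 2 * π := by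
    rintro ℓ hℓ θ hθ ⟨n, hn⟩
    have s := (steering_iff_angle hX hY hℓ).1 hθ
    have hq := quasi_of_closed hφc hφT hv hvT s hn
    have h1 := rot_eq_one hT (by positivity : (0:ℝ) < 1 / ℓ) hX hY hXT hYT hφd hφm hφT hv hv0 s hq
    intro t
    rw [hq, h1]; push_cast; ring
  -- bounded above
  obtain ⟨C, hC0, hC⟩ := periodic_bound hT hv hvT
  have hbdd : BddAbove S := by
    refine ⟨C * T / (2 * π), ?_⟩
    rintro ℓ ⟨hℓ, θ, hθ, hn⟩
    have h1 := hone ℓ hℓ θ hθ hn 0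
    rw [zero_add] at h1
    have s := (steering_iff_angle hX hY hℓ).1 hθ
    have hd : ∀ t, HasDerivAt (fun t => θ t - C / ℓ * t)
        (1 / ℓ * v t * sin (φ t - θ t) - C / ℓ * 1) t := fun t =>
      (s t).sub ((hasDerivAt_id t).const_mul (C / ℓ))
    have hanti : Antitone (fun t => θ t - C / ℓ * t) := by
      apply antitone_of_deriv_nonpos
      · exact fun t => (hd t).differentiableAt
      · intro t
        rw [(hd t).deriv]
        have h2 : v t * sin (φ t - θ t) ≤ C := by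
          have h3 := hC t
          rw [abs_of_pos (hv0 t)] at h3
          calc v t * sin (φ t - θ t) ≤ v t * 1 :=
                mul_le_mul_of_nonneg_left (Real.sin_le_one _) (hv0 t).le
            _ ≤ C := by linarith
        have e : 1 / ℓ * v t * sin (φ t - θ t) - C / ℓ * 1 =
          (v t * sin (φ t - θ t) - C) / ℓ := by ring
        rw [e]
        exact div_nonpos_of_nonpos_of_nonneg (by linarith) hℓ.le
    have h4 : θ T - C / ℓ * T ≤ θ 0 - C / ℓ * 0 := hanti hT.le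
    rw [h1] at h4
    have h5 : 2 * π ≤ C * T / ℓ := by
      have : C / ℓ * T = C * T / ℓ := by ring
      linarith
    rw [le_div_iff₀ hℓ] at h5
    rw [le_div_iff₀ (by positivity)]
    linarith
  -- nonempty: small ℓ
  have hkT : ∀ t, k (t + T) = k t := by
    intro t
    have h1 := (hφd (t + T)).comp_add_const t T
    have h2 : (fun t => φ (t + T)) = fun t => φ t + 2 * π := funext hφT
    rw [h2] at h1
    have h3 := (hφd t).add_const (2 * π)
    exact h1.unique h3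
  obtain ⟨D, hD0, hD⟩ := periodic_bound (f := fun t => k t / v t) hT
    (hkc.div hv fun t => (hv0 t).ne') (by intro t; simp only [hkT, hvT])
  have hsmall : ∀ ℓ, 0 < ℓ → ℓ < 1 / D → ∀ M : Matrix.SpecialLinearGroup (Fin 2) ℝ,
      IsLift X Y T ℓ M → 4 < (M : Matrix (Fin 2) (Fin 2) ℝ).trace ^ 2 := by
    intro ℓ hℓ hℓD M hM
    apply hyperbolic_of_sub hT hX hY hφd hφm hφT hv hvT hℓ (f := fun t => φ t - π / 2)
      (e := fun t => k t - 1 / ℓ * v t) _ _ _ _ _ hM
    · intro t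
      have e : φ t - (φ t - π / 2) = π / 2 := by ring
      rw [e, Real.sin_pi_div_two]
      have : 1 / ℓ * v t * 1 + (k t - 1 / ℓ * v t) = k t := by ring
      rw [this]
      exact (hφd t).sub_const _
    · intro t
      have h1 := (abs_le.1 (hD t)).2
      rw [div_le_iff₀ (hv0 t)] at h1
      have h2 : D < 1 / ℓ := by
        rw [lt_div_iff₀ hℓ]
        rw [lt_div_iff₀ hD0] at hℓD
        linarith
      have h3 := mul_lt_mul_of_pos_right h2 (hv0 t)
      linarith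
    · linarith
    · linarith
    · rw [φT]; ring
  have hne : S.Nonempty := by
    have hℓ : 0 < 1 / (2 * D) := by positivity
    have hex := steering_exists hT cX cY pX pY hℓ
    obtain ⟨N, hN⟩ := exists_pos_lift hT cX cY pX pY hℓ
    have hNl : IsLift X Y T (1 / (2 * D)) N := fun θ hθ => by
      obtain ⟨c, hc, h⟩ := hN θ hθ
      exact ⟨c, hc.ne', h⟩
    have h1 := hsmall _ hℓ (by
      apply one_div_lt_one_div_of_lt hD0; linarith) N hNl
    exact ⟨_, hℓ, closed_of_trace hex hNl h1.le⟩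
  refine ⟨sSup S, ?_, ?_⟩
  · obtain ⟨x, hx⟩ := hne
    exact lt_of_lt_of_le hx.1 (le_csSup hbdd hx)
  intro ℓ hℓ M hM
  constructor
  · intro hlt
    obtain ⟨ℓ', hℓ'S, hlt'⟩ := exists_lt_of_lt_csSup hne hlt
    obtain ⟨hℓ', θ, hθ, hn⟩ := hℓ'S
    have hper := hone ℓ' hℓ' θ hθ hn
    have s := (steering_iff_angle hX hY hℓ').1 hθ
    have hsin := sin_pos_of_rot_one hT (by positivity : (0:ℝ) < 1 / ℓ') hφd hφm hφT hv hv0 s hper
    -- shift
    set j : ℤ := ⌊(θ 0 - φ 0) / (2 * π)⌋ + 1 with hj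
    have f1 : ((j:ℝ) - 1) * (2 * π) ≤ θ 0 - φ 0 := by
      have := Int.floor_le ((θ 0 - φ 0) / (2 * π))
      rw [le_div_iff₀ (by positivity)] at this
      rw [hj]; push_cast; linarith
    have f2 : θ 0 - φ 0 < (j:ℝ) * (2 * π) := by
      have := Int.lt_floor_add_one ((θ 0 - φ 0) / (2 * π))
      rw [div_lt_iff₀ (by positivity)] at this
      rw [hj]; push_cast; linarith
    have hs : ∀ t, sin (φ t - (θ t - j * (2 * π))) = sin (φ t - θ t) := by
      intro t
      have e : φ t - (θ t - j * (2 * π)) = φ t - θ t + j * (2 * π) := by ring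
      rw [e, Real.sin_add_int_mul_two_pi]
    apply hyperbolic_of_sub hT hX hY hφd hφm hφT hv hvT hℓ (f := fun t => θ t - j * (2 * π))
      (e := fun t => (1 / ℓ' - 1 / ℓ) * v t * sin (φ t - θ t)) _ _ _ _ _ hM
    · intro t
      rw [hs]
      refine ((s t).sub_const _).congr_deriv ?_
      ring
    · intro t
      have h1 : 1 / ℓ' < 1 / ℓ := one_div_lt_one_div_of_lt hℓ hlt'
      have h2 := hsin t
      have h3 := hv0 t
      have h4 : 0 < v t * sin (φ t - θ t) := by positivity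
      have e : (1 / ℓ' - 1 / ℓ) * v t * sin (φ t - θ t) =
        (1 / ℓ' - 1 / ℓ) * (v t * sin (φ t - θ t)) := by ring
      rw [e]
      exact mul_neg_of_neg_of_pos (by linarith) h4
    · by_contra hcon
      push Not at hcon
      have h1 := hsin 0
      rw [← hs 0] at h1
      have h2 : sin (φ 0 - (θ 0 - j * (2 * π)) - π) ≥ 0 := by
        apply Real.sin_nonneg_of_nonneg_of_le_pi <;> linarith
      rw [Real.sin_sub_pi] at h2
      linarith
    · linarith
    · have := hper 0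
      rw [zero_add] at this
      rw [this]; ring
  · intro hlt
    by_contra hcon
    push Not at hcon
    have hex := steering_exists hT cX cY pX pY hℓ
    have h1 := closed_of_trace hex hM hcon
    have h2 : ℓ ∈ S := ⟨hℓ, h1⟩
    have := le_csSup hbdd h2
    linarith

end

end Pool.Agent.X147.Bike
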