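import Pool.Agent.X147.BikeG

/-! Reflection, and the transition theorem for convex tracks. -/

namespace Pool.Agent.X147.Bike

open Real Set

/-- reflection in the horizontal axis -/
noncomputable def refl : (ℝ × ℝ) ≃L[ℝ] (ℝ × ℝ) :=
  (ContinuousLinearEquiv.refl ℝ ℝ).prodCongr (ContinuousLinearEquiv.neg ℝ)

theorem refl_apply (p : ℝ × ℝ) : refl p = (p.1, -p.2) := rfl

theorem ConvexTrack.reflect {X Y : ℝ → ℝ} {T : ℝ} (h : ConvexTrack X Y T) :
    ConvexTrack X (fun t => -Y t) T where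
  period_pos := h.period_pos
  smooth_X := h.smooth_X
  smooth_Y := h.smooth_Y.neg
  periodic_X := h.periodic_X
  periodic_Y := fun t => by rw [h.periodic_Y]
  regular := fun t => by
    rcases h.regular t with h1 | h1
    · exact Or.inl h1
    · right
      rw [deriv.fun_neg]
      exact neg_ne_zero.2 h1
  simple := by
    intro s hs t ht e
    apply h.simple hs ht
    simp only [Prod.mk.injEq, neg_inj] at e
    simp only [e.1, e.2]
  convex := by
    obtain ⟨K, hK, hsc, hint, hfr⟩ := h.convex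
    refine ⟨refl '' K, hK.image refl.continuous, ?_, ?_, ?_⟩
    · exact hsc.linear_image (refl : (ℝ × ℝ) →ₗ[ℝ] (ℝ × ℝ)) refl.toHomeomorph.isOpenMap
    · have : interior (refl '' K) = refl '' interior K :=
        (refl.toHomeomorph.image_interior K).symm
      rw [this]
      exact hint.image _
    · have : frontier (refl '' K) = refl '' frontier K :=
        (refl.toHomeomorph.image_frontier K).symm
      rw [this, hfr, ← Set.range_comp]
      rfl

theorem lift_reflect {X Y : ℝ → ℝ} {T ℓ : ℝ}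
    {M : Matrix.SpecialLinearGroup (Fin 2) ℝ} (hM : IsLift X Y T ℓ M) :
    ∃ N : Matrix.SpecialLinearGroup (Fin 2) ℝ, IsLift X (fun t => -Y t) T ℓ N ∧
      (N : Matrix (Fin 2) (Fin 2) ℝ).trace = (M : Matrix (Fin 2) (Fin 2) ℝ).trace := by
  have hdM : (M : Matrix (Fin 2) (Fin 2) ℝ).det = 1 := M.2
  rw [Matrix.det_fin_two] at hdM
  set N : Matrix (Fin 2) (Fin 2) ℝ := !![(M : Matrix (Fin 2) (Fin 2) ℝ) 0 0,
    -(M : Matrix (Fin 2) (Fin 2) ℝ) 0 1; -(M : Matrix (Fin 2) (Fin 2) ℝ) 1 0,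
    (M : Matrix (Fin 2) (Fin 2) ℝ) 1 1] with hN
  have hdN : N.det = 1 := by
    rw [hN, Matrix.det_fin_two_of]; linarith
  refine ⟨⟨N, hdN⟩, ?_, ?_⟩
  · intro θ hθ
    have h1 : Steering X Y ℓ (fun t => -θ t) := by
      obtain ⟨d, e⟩ := hθ
      refine ⟨d.neg, fun t => ?_⟩
      have h2 := e t
      rw [deriv.fun_neg] at h2
      rw [deriv.fun_neg, Real.sin_neg, Real.cos_neg]
      linarith
    obtain ⟨c, hc, h2⟩ := hM _ h1
    refine ⟨c, hc, ?_⟩
    have a1 := congrFun h2 0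
    have a2 := congrFun h2 1
    simp only [circlePt, Matrix.mulVec, dotProduct, Fin.sum_univ_two, Pi.smul_apply, smul_eq_mul,
      Matrix.cons_val_zero, Matrix.cons_val_one, neg_div, Real.sin_neg, Real.cos_neg] at a1 a2
    ext i
    fin_cases i
    · simp only [hN, circlePt, Matrix.mulVec, dotProduct, Fin.sum_univ_two]
      simp
      linear_combination a1
    · simp only [hN, circlePt, Matrix.mulVec, dotProduct, Fin.sum_univ_two]
      simp
      linear_combination (-1) * a2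
  · change N.trace = _
    rw [hN, Matrix.trace_fin_two, Matrix.trace_fin_two]
    simp

theorem ConvexTrack.transition {X Y : ℝ → ℝ} {T : ℝ} (h : ConvexTrack X Y T) :
    ∃ ℓ₀ : ℝ, 0 < ℓ₀ ∧ ∀ ℓ : ℝ, 0 < ℓ → ∀ M : Matrix.SpecialLinearGroup (Fin 2) ℝ,
      IsLift X Y T ℓ M →
        (ℓ < ℓ₀ → 4 < (M : Matrix (Fin 2) (Fin 2) ℝ).trace ^ 2) ∧
        (ℓ₀ < ℓ → (M : Matrix (Fin 2) (Fin 2) ℝ).trace ^ 2 < 4) := by
  rcases h.side with hs | hs
  · obtain ⟨φ, v, k, hφd, hkc, hφm, hφT, hvc, hv0, hvT, hX, hY⟩ := h.angle hs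
    exact transition_of_angle h.period_pos hX hY h.periodic_X h.periodic_Y hφd hkc hφm hφT hvc
      hv0 hvT
  · have h' := h.reflect
    obtain ⟨φ, v, k, hφd, hkc, hφm, hφT, hvc, hv0, hvT, hX, hY⟩ := h'.angle (by
      intro s t hne
      have h1 : (X s, Y s) ≠ (X t, Y t) := by
        intro e
        apply hne
        simp only [Prod.mk.injEq] at e
        simp only [e.1, e.2]
      have h2 := hs s t h1
      simp only [crs, deriv.fun_neg] at h2 ⊢
      linarith)
    obtain ⟨ℓ₀, h0, h1⟩ := transition_of_angle h'.period_pos hX hY h'.periodic_X h'.periodic_Y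
      hφd hkc hφm hφT hvc hv0 hvT
    refine ⟨ℓ₀, h0, fun ℓ hℓ M hM => ?_⟩
    obtain ⟨N, hN, hNM⟩ := lift_reflect hM
    have := h1 ℓ hℓ N hN
    rw [hNM] at this
    exact this

theorem ConvexTrack.perX' {X Y : ℝ → ℝ} {T : ℝ} (h : ConvexTrack X Y T) (t : ℝ) :
    deriv X (t + T) = deriv X t := by
  have h1 : HasDerivAt (fun t => X (t + T)) (deriv X (t + T)) t :=
    (h.hasDerivX (t + T)).comp_add_const t T
  have h2 : (fun t => X (t + T)) = X := funext h.periodic_X
  rw [h2] at h1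
  exact h1.deriv.symm

theorem ConvexTrack.perY' {X Y : ℝ → ℝ} {T : ℝ} (h : ConvexTrack X Y T) (t : ℝ) :
    deriv Y (t + T) = deriv Y t := by
  have h1 : HasDerivAt (fun t => Y (t + T)) (deriv Y (t + T)) t :=
    (h.hasDerivY (t + T)).comp_add_const t T
  have h2 : (fun t => Y (t + T)) = Y := funext h.periodic_Y
  rw [h2] at h1
  exact h1.deriv.symm

end Pool.Agent.X147.Bike
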