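import Mathlib

set_option autoImplicit false

/-! # MP_c5a4a7_gt, Q1: no bound on the number of simple closed quasigeodesics through a vertex

The regular tetrahedron carries infinitely many simple closed quasigeodesics through its vertices:
the four vertices have total angle `π`, so that a curve may turn there arbitrarily. -/

open Set Filter Topology InnerProductGeometry

namespace Pool.Agent.X147.Quasi

/-- Euclidean 3-space -/
abbrev E3 := EuclideanSpace ℝ (Fin 3)

/-- The face of the tetrahedron `V` opposite to the vertex `V j`. -/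
def face (V : Fin 4 → E3) (j : Fin 4) : Set E3 := convexHull ℝ (V '' {i | i ≠ j})

/-- The total surface angle at the vertex `V a`: the sum of the angles at `V a` of the three faces
containing `V a`. -/
noncomputable def totalAngle (V : Fin 4 → E3) (a : Fin 4) : ℝ :=
  angle (V (a + 1) - V a) (V (a + 2) - V a) + angle (V (a + 2) - V a) (V (a + 3) - V a) +
    angle (V (a + 3) - V a) (V (a + 1) - V a)

/-- `Θ` is the total surface angle at the point `p` of the surface: `2π` unless `p` is a vertex. -/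
def IsConeAngle (V : Fin 4 → E3) (p : E3) (Θ : ℝ) : Prop :=
  (∃ a, p = V a ∧ Θ = totalAngle V a) ∨ ((∀ a, p ≠ V a) ∧ Θ = 2 * Real.pi)

/-- The direction `u` at `p` points into the face opposite to `V g`. -/
def PointsInto (V : Fin 4 → E3) (g : Fin 4) (p u : E3) : Prop :=
  ∀ᶠ s in 𝓝[>] (0 : ℝ), p + s • u ∈ face V g

/-- `α` is the surface angle, on one side, between the two directions `u` and `w` at the point `p`
of the surface: the angle in the face if both directions point into the same face; the sum of the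
angles with the common edge if they point into two different faces (for `p` in the interior of the
edge, each of its two end points `V b` gives the angle on one side). -/
def IsSideAngle (V : Fin 4 → E3) (p u w : E3) (α : ℝ) : Prop :=
  ∃ g g' : Fin 4, PointsInto V g p u ∧ PointsInto V g' p w ∧
    ((g = g' ∧ α = angle u w) ∨
      (g ≠ g' ∧ ∃ b : Fin 4, b ≠ g ∧ b ≠ g' ∧ p ≠ V b ∧ α = angle u (V b - p) + angle (V b - p) w))

/-- Both surface angles between the directions `u` and `w` at `p` are at most `π`. -/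
def Admissible (V : Fin 4 → E3) (p u w : E3) : Prop :=
  ∃ α Θ : ℝ, IsSideAngle V p u w α ∧ IsConeAngle V p Θ ∧ α ≤ Real.pi ∧ Θ - α ≤ Real.pi

/-- `γ` is (a periodic parametrisation of) a simple closed quasigeodesic on the surface of the
tetrahedron `V`: the curve is piecewise linear, and at each of its points the surface angles on
the two sides are at most `π`. -/
structure IsSimpleClosedQuasigeodesic (V : Fin 4 → E3) (L : ℝ) (γ : ℝ → E3) : Prop where
  pos : 0 < L
  periodic : ∀ t, γ (t + L) = γ t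
  simple : InjOn γ (Ico 0 L)
  mem_surface : ∀ t, ∃ j, γ t ∈ face V j
  angles : ∀ t, ∃ u w : E3, u ≠ 0 ∧ w ≠ 0 ∧ (∀ᶠ s in 𝓝[>] (0 : ℝ), γ (t - s) = γ t + s • u) ∧
    (∀ᶠ s in 𝓝[>] (0 : ℝ), γ (t + s) = γ t + s • w) ∧ Admissible V (γ t) u w

/-! ### The regular tetrahedron and the folding map -/

/-- vertices of the regular tetrahedron -/
noncomputable def V : Fin 4 → E3 := ![!₂[1, 1, 1], !₂[1, -1, -1], !₂[-1, 1, -1], !₂[-1, -1, 1]]

lemma ext3 {x y : E3} (h0 : x 0 = y 0) (h1 : x 1 = y 1) (h2 : x 2 = y 2) : x = y := by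
  ext i; fin_cases i
  · exact h0
  · exact h1
  · exact h2

lemma affineIndependent : AffineIndependent ℝ V := by
  rw [affineIndependent_iff_of_fintype]
  intro w hw h
  rw [Finset.weightedVSub_eq_linear_combination _ hw] at h
  rw [Fin.sum_univ_four] at hw h
  have h0 := congrArg (fun z : E3 => z 0) h
  have h1 := congrArg (fun z : E3 => z 1) h
  have h2 := congrArg (fun z : E3 => z 2) h
  simp [V] at h0 h1 h2
  intro i
  fin_cases i <;> simp <;> linarith

lemma inner3 (x y : E3) : inner ℝ x y = x 0 * y 0 + x 1 * y 1 + x 2 * y 2 := by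
  rw [PiLp.inner_apply, Fin.sum_univ_three]
  simp [mul_comm]

lemma norm3 (x : E3) : ‖x‖ ^ 2 = x 0 ^ 2 + x 1 ^ 2 + x 2 ^ 2 := by
  rw [← real_inner_self_eq_norm_sq, inner3]; ring

lemma angle_sum {d1 d2 e : E3} (h1 : ‖d1‖ ^ 2 = ‖d2‖ ^ 2)
    (h2 : inner ℝ d1 e = -(inner ℝ d2 e)) :
    angle d1 e + angle e d2 = Real.pi := by
  have h3 : ‖d1‖ = ‖d2‖ := by
    rw [← abs_of_nonneg (norm_nonneg d1), ← abs_of_nonneg (norm_nonneg d2)]
    exact (sq_eq_sq_iff_abs_eq_abs _ _).1 h1
  rw [InnerProductGeometry.angle_comm e d2]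
  unfold InnerProductGeometry.angle
  have h4 : inner ℝ d1 e / (‖d1‖ * ‖e‖) = -(inner ℝ d2 e / (‖d2‖ * ‖e‖)) := by
    rw [h2, h3, neg_div]
  rw [h4, Real.arccos_neg]; ring

lemma angle_third {d e : E3} (h1 : ‖d‖ ^ 2 = 8) (h2 : ‖e‖ ^ 2 = 8) (h3 : inner ℝ d e = 4) :
    angle d e = Real.pi / 3 := by
  unfold InnerProductGeometry.angle
  have h4 : ‖d‖ = ‖e‖ := by
    rw [← abs_of_nonneg (norm_nonneg d), ← abs_of_nonneg (norm_nonneg e)]
    apply (sq_eq_sq_iff_abs_eq_abs _ _).1
    rw [h1, h2]
  have h5 : inner ℝ d e / (‖d‖ * ‖e‖) = Real.cos (Real.pi / 3) := by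
    rw [h3, ← h4, ← sq, h1, Real.cos_pi_div_three]; norm_num
  rw [h5, Real.arccos_cos (by positivity) (by linarith [Real.pi_pos])]

lemma total_eq (a : Fin 4) : totalAngle V a = Real.pi := by
  have key : ∀ b c : Fin 4, b ≠ a → c ≠ a → b ≠ c → angle (V b - V a) (V c - V a) = Real.pi / 3 := by
    intro b c hb hc hbc
    apply angle_third
    · rw [norm3]
      fin_cases a <;> fin_cases b <;> first
        | exact absurd rfl hb
        | (simp [V]; norm_num)
    · rw [norm3]
      fin_cases a <;> fin_cases c <;> first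
        | exact absurd rfl hc
        | (simp [V]; norm_num)
    · rw [inner3]
      fin_cases a <;> fin_cases b <;> first
        | exact absurd rfl hb
        | (fin_cases c <;> first
            | exact absurd rfl hc
            | exact absurd rfl hbc
            | (simp [V]; norm_num))
  unfold totalAngle
  rw [key, key, key]
  · ring
  all_goals (fin_cases a <;> decide)

/-- barycentric coordinates -/
noncomputable def lam (z : E3) : Fin 4 → ℝ :=
  ![(1 + z 0 + z 1 + z 2) / 4, (1 + z 0 - z 1 - z 2) / 4, (1 - z 0 + z 1 - z 2) / 4,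
    (1 - z 0 - z 1 + z 2) / 4]

lemma mem_face_of_lam {z : E3} {j : Fin 4} (h0 : lam z j = 0) (h : ∀ i, 0 ≤ lam z i) :
    z ∈ face V j := by
  have hsum : ∑ i, lam z i = 1 := by
    rw [Fin.sum_univ_four]; simp [lam]; ring
  have hz : ∑ i, lam z i • V i = z := by
    rw [Fin.sum_univ_four]
    apply ext3 <;> simp [lam, V] <;> ring
  have h1 : ∑ i ∈ Finset.univ.erase j, lam z i = 1 := by
    rw [← hsum, ← Finset.add_sum_erase _ _ (Finset.mem_univ j), h0, zero_add]
  have h2 : ∑ i ∈ Finset.univ.erase j, lam z i • V i = z := by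
    conv_rhs => rw [← hz, ← Finset.add_sum_erase _ _ (Finset.mem_univ j), h0, zero_smul, zero_add]
  have := (convex_convexHull ℝ (V '' {i | i ≠ j})).sum_mem (t := Finset.univ.erase j)
    (w := lam z) (z := V) (fun i _ => h i) h1 (fun i hi =>
      subset_convexHull ℝ _ (mem_image_of_mem V (Finset.ne_of_mem_erase hi)))
  rw [h2] at this
  exact this

/-- the triangle wave of period 2 -/
noncomputable def T (x : ℝ) : ℝ := (-1 : ℝ) ^ ⌊x⌋ * (1 - 2 * Int.fract x)

lemma T_eq {n : ℤ} {x : ℝ} (h1 : (n : ℝ) ≤ x) (h2 : x ≤ n + 1) :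
    T x = (-1 : ℝ) ^ n * (1 - 2 * (x - n)) := by
  rcases h2.lt_or_eq with h | h
  · have hf : ⌊x⌋ = n := Int.floor_eq_iff.2 ⟨h1, h⟩
    unfold T
    rw [Int.fract, hf]
  · have hf : ⌊x⌋ = n + 1 := Int.floor_eq_iff.2 ⟨by push_cast; exact h.ge, by
      push_cast; linarith⟩
    unfold T
    rw [Int.fract, hf, zpow_add_one₀ (by norm_num), h]
    push_cast
    ring

lemma T_01 {x : ℝ} (h1 : 0 ≤ x) (h2 : x ≤ 1) : T x = 1 - 2 * x := by
  have := T_eq (n := 0) (x := x) (by simpa using h1) (by simpa using h2)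
  simpa using this

lemma T_add_one (x : ℝ) : T (1 + x) = -T x := by
  unfold T
  have h1 : ⌊1 + x⌋ = ⌊x⌋ + 1 := by rw [add_comm]; exact Int.floor_add_one x
  have h2 : Int.fract (1 + x) = Int.fract x := by rw [add_comm]; exact Int.fract_add_one x
  rw [h1, h2, zpow_add_one₀ (by norm_num)]; ring

lemma T_zero_imp {x : ℝ} (h : T x = 0) : ∃ n : ℤ, x = n + 1 / 2 := by
  unfold T at h
  have h1 : (-1 : ℝ) ^ ⌊x⌋ ≠ 0 := zpow_ne_zero _ (by norm_num)
  have h2 := (mul_eq_zero.1 h).resolve_left h1
  exact ⟨⌊x⌋, by have := Int.floor_add_fract x; linarith⟩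

/-- the folding map from the plane (with lattice coordinates) onto the tetrahedron -/
noncomputable def F (x y : ℝ) : E3 := !₂[T y, T x, T (x + y)]

@[simp] lemma F0 (x y : ℝ) : F x y 0 = T y := rfl
@[simp] lemma F1 (x y : ℝ) : F x y 1 = T x := rfl
@[simp] lemma F2 (x y : ℝ) : F x y 2 = T (x + y) := rfl

lemma sgn (n : ℤ) : ((-1 : ℝ) ^ n = 1 ∧ Even n) ∨ ((-1 : ℝ) ^ n = -1 ∧ ¬ Even n) := by
  rcases Int.even_or_odd n with h | h
  · exact Or.inl ⟨h.neg_one_zpow, h⟩
  · exact Or.inr ⟨h.neg_one_zpow, by simpa using h⟩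

/-- lower triangles -/
lemma F_I {n : ℤ} {x y : ℝ} (h1 : (n : ℝ) ≤ x) (h2 : x + y ≤ n + 1) (h3 : 0 ≤ y) (h4 : y ≤ 1) :
    F x y = !₂[1 - 2 * y, (-1 : ℝ) ^ n * (1 - 2 * (x - n)),
      (-1 : ℝ) ^ n * (1 - 2 * (x + y - n))] ∧
    F x y ∈ face V (if Even n then 3 else 2) := by
  have e : F x y = !₂[1 - 2 * y, (-1 : ℝ) ^ n * (1 - 2 * (x - n)),
      (-1 : ℝ) ^ n * (1 - 2 * (x + y - n))] := by
    unfold F
    rw [T_01 h3 h4, T_eq h1 (by linarith), T_eq (n := n) (by linarith) h2]
  refine ⟨e, ?_⟩
  rw [e]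
  rcases sgn n with ⟨hs, he⟩ | ⟨hs, he⟩
  · rw [if_pos he, hs]
    apply mem_face_of_lam
    · simp [lam]; ring
    · intro i; fin_cases i <;> simp [lam] <;> linarith
  · rw [if_neg he, hs]
    apply mem_face_of_lam
    · simp [lam]; ring
    · intro i; fin_cases i <;> simp [lam] <;> linarith

/-- upper triangles -/
lemma F_II {n : ℤ} {x y : ℝ} (h1 : x ≤ n + 1) (h2 : (n : ℝ) + 1 ≤ x + y) (h3 : 0 ≤ y)
    (h4 : y ≤ 1) :
    F x y = !₂[1 - 2 * y, (-1 : ℝ) ^ n * (1 - 2 * (x - n)),
      -((-1 : ℝ) ^ n) * (1 - 2 * (x + y - n - 1))] ∧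
    F x y ∈ face V (if Even n then 0 else 1) := by
  have e : F x y = !₂[1 - 2 * y, (-1 : ℝ) ^ n * (1 - 2 * (x - n)),
      -((-1 : ℝ) ^ n) * (1 - 2 * (x + y - n - 1))] := by
    unfold F
    rw [T_01 h3 h4, T_eq (n := n) (by linarith) h1,
      T_eq (n := n + 1) (x := x + y) (by push_cast; exact h2) (by push_cast; linarith),
      zpow_add_one₀ (by norm_num)]
    have e3 : (-1 : ℝ) ^ n * -1 * (1 - 2 * (x + y - ((n + 1 : ℤ) : ℝ))) =
        -((-1 : ℝ) ^ n) * (1 - 2 * (x + y - n - 1)) := by push_cast; ring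
    rw [e3]
  refine ⟨e, ?_⟩
  rw [e]
  rcases sgn n with ⟨hs, he⟩ | ⟨hs, he⟩
  · rw [if_pos he, hs]
    apply mem_face_of_lam
    · simp [lam]; ring
    · intro i; fin_cases i <;> simp [lam] <;> linarith
  · rw [if_neg he, hs]
    apply mem_face_of_lam
    · simp [lam]; ring
    · intro i; fin_cases i <;> simp [lam] <;> linarith

lemma lin_ev (a b : ℝ) (h : 0 < a) : ∀ᶠ s in 𝓝[>] (0 : ℝ), 0 < a + b * s := by
  have hc : Continuous fun s : ℝ => a + b * s := by fun_prop
  have h1 : Tendsto (fun s : ℝ => a + b * s) (𝓝 0) (𝓝 a) := by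
    have := hc.tendsto 0
    simpa using this
  exact (h1.eventually (lt_mem_nhds h)).filter_mono nhdsWithin_le_nhds

lemma pos_ev : ∀ᶠ s in 𝓝[>] (0 : ℝ), 0 < s := self_mem_nhdsWithin

/-! ### Admissible turns -/

lemma sideAngle_symm {p u w : E3} {α : ℝ} (h : IsSideAngle V p u w α) : IsSideAngle V p w u α := by
  obtain ⟨g, g', h1, h2, h3⟩ := h
  refine ⟨g', g, h2, h1, ?_⟩
  rcases h3 with ⟨h3, h4⟩ | ⟨h3, b, hb1, hb2, hb3, h4⟩
  · exact Or.inl ⟨h3.symm, by rw [h4, InnerProductGeometry.angle_comm]⟩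
  · refine Or.inr ⟨fun h => h3 h.symm, b, hb2, hb1, hb3, ?_⟩
    rw [h4, InnerProductGeometry.angle_comm u, InnerProductGeometry.angle_comm (V b - p) w]
    ring

lemma Admissible.symm {p u w : E3} (h : Admissible V p u w) : Admissible V p w u := by
  obtain ⟨α, Θ, h1, h2, h3, h4⟩ := h
  exact ⟨α, Θ, sideAngle_symm h1, h2, h3, h4⟩

/-- at a vertex: both directions in one face -/
lemma admissible_vertex {a g : Fin 4} {u w : E3} (hu : PointsInto V g (V a) u)
    (hw : PointsInto V g (V a) w) : Admissible V (V a) u w := by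
  refine ⟨angle u w, Real.pi, ⟨g, g, hu, hw, Or.inl ⟨rfl, rfl⟩⟩,
    Or.inl ⟨a, rfl, (total_eq a).symm⟩, angle_le_pi _ _, ?_⟩
  have := angle_nonneg u w
  linarith

/-- straight in a face -/
lemma admissible_straight {p w : E3} {g : Fin 4} (hp : ∀ a, p ≠ V a) (hw0 : w ≠ 0)
    (hu : PointsInto V g p (-w)) (hw : PointsInto V g p w) : Admissible V p (-w) w := by
  refine ⟨Real.pi, 2 * Real.pi, ⟨g, g, hu, hw, Or.inl ⟨rfl, ?_⟩⟩, Or.inr ⟨hp, rfl⟩, le_rfl, ?_⟩
  · rw [angle_neg_self_of_nonzero hw0]
  · linarith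

/-- across an edge -/
lemma admissible_edge {p u w : E3} {g g' b : Fin 4} (hp : ∀ a, p ≠ V a) (hg : g ≠ g')
    (hb : b ≠ g) (hb' : b ≠ g') (hu : PointsInto V g p u) (hw : PointsInto V g' p w)
    (h1 : ‖u‖ ^ 2 = ‖w‖ ^ 2) (h2 : inner ℝ u (V b - p) = -(inner ℝ w (V b - p))) :
    Admissible V p u w := by
  refine ⟨Real.pi, 2 * Real.pi, ⟨g, g', hu, hw, Or.inr ⟨hg, b, hb, hb', hp b, ?_⟩⟩,
    Or.inr ⟨hp, rfl⟩, le_rfl, ?_⟩
  · rw [angle_sum h1 h2]
  · linarith

lemma ne_vertex {p : E3} (h1 : -1 < p 0) (h2 : p 0 < 1) (a : Fin 4) : p ≠ V a := by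
  intro e
  rw [e] at h1 h2
  fin_cases a <;> simp [V] at h1 h2

/-- A helix on the tetrahedron is a geodesic. -/
lemma helix {κ : ℝ} (hκ : 0 < κ) (x : ℝ) {y : ℝ} (hy0 : 0 < y) (hy1 : y < 1) :
    ∃ u w : E3, u ≠ 0 ∧ w ≠ 0 ∧
      (∀ᶠ s in 𝓝[>] (0 : ℝ), F (x - κ * s) (y - s) = F x y + s • u) ∧
      (∀ᶠ s in 𝓝[>] (0 : ℝ), F (x + κ * s) (y + s) = F x y + s • w) ∧
      Admissible V (F x y) u w := by
  have hp : ∀ a, F x y ≠ V a := by
    apply ne_vertex
    · rw [F0, T_01 hy0.le hy1.le]; linarith
    · rw [F0, T_01 hy0.le hy1.le]; linarith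
  set n := ⌊x⌋ with hn
  have hn1 : (n : ℝ) ≤ x := Int.floor_le x
  have hn2 : x < n + 1 := Int.lt_floor_add_one x
  have a1 := lin_ev y (-1) hy0
  have a2 := lin_ev (1 - y) (-1) (by linarith)
  rcases lt_trichotomy (x + y) (n + 1) with hxy | hxy | hxy
  · have a3 := lin_ev (n + 1 - (x + y)) (-(κ + 1)) (by linarith)
    rcases hn1.lt_or_eq with hx | hx
    · -- interior of a lower triangle
      have a4 := lin_ev (x - n) (-κ) (by linarith)
      obtain ⟨e0, -⟩ := F_I hx.le hxy.le hy0.le hy1.le
      set w : E3 := !₂[-2, (-1 : ℝ) ^ n * (-2 * κ), (-1 : ℝ) ^ n * (-2 * (κ + 1))] with hw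
      have hw0 : w ≠ 0 := by
        intro h
        have := congrArg (fun z : E3 => z 0) h
        simp [hw] at this
      have f1 : ∀ᶠ s in 𝓝[>] (0 : ℝ), F (x + κ * s) (y + s) = F x y + s • w := by
        filter_upwards [a1, a2, a3, a4, pos_ev] with s s1 s2 s3 s4 s5
        have hks : 0 < κ * s := by positivity
        rw [(F_I (n := n) (x := x + κ * s) (y := y + s) (by linarith) (by linarith) (by linarith)
          (by linarith)).1, e0]
        apply ext3 <;> simp [hw] <;> ring
      have f2 : ∀ᶠ s in 𝓝[>] (0 : ℝ), F (x - κ * s) (y - s) = F x y + s • (-w) := by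
        filter_upwards [a1, a2, a3, a4, pos_ev] with s s1 s2 s3 s4 s5
        have hks : 0 < κ * s := by positivity
        rw [(F_I (n := n) (x := x - κ * s) (y := y - s) (by linarith) (by linarith) (by linarith)
          (by linarith)).1, e0]
        apply ext3 <;> simp [hw] <;> ring
      refine ⟨-w, w, neg_ne_zero.2 hw0, hw0, f2, f1, ?_⟩
      apply admissible_straight (g := if Even n then 3 else 2) hp hw0
      · filter_upwards [f2, a1, a2, a3, a4, pos_ev] with s s0 s1 s2 s3 s4 s5
        have hks : 0 < κ * s := by positivity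
        rw [← s0]
        exact (F_I (n := n) (x := x - κ * s) (y := y - s) (by linarith) (by linarith)
          (by linarith) (by linarith)).2
      · filter_upwards [f1, a1, a2, a3, a4, pos_ev] with s s0 s1 s2 s3 s4 s5
        have hks : 0 < κ * s := by positivity
        rw [← s0]
        exact (F_I (n := n) (x := x + κ * s) (y := y + s) (by linarith) (by linarith)
          (by linarith) (by linarith)).2
    · -- crossing a vertical edge
      obtain ⟨e0, -⟩ := F_I hx.le hxy.le hy0.le hy1.le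
      have a4 := lin_ev y (-(κ + 1)) (by linarith)
      set w : E3 := !₂[-2, (-1 : ℝ) ^ n * (-2 * κ), (-1 : ℝ) ^ n * (-2 * (κ + 1))] with hw
      set u : E3 := !₂[2, (-1 : ℝ) ^ n * (-2 * κ), (-1 : ℝ) ^ n * (2 * (κ + 1))] with hu
      have hw0 : w ≠ 0 := by
        intro h
        have := congrArg (fun z : E3 => z 0) h
        simp [hw] at this
      have hu0 : u ≠ 0 := by
        intro h
        have := congrArg (fun z : E3 => z 0) h
        simp [hu] at this
      have hpm : (-1 : ℝ) ^ (n - 1) = -(-1 : ℝ) ^ n := by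
        rw [zpow_sub_one₀ (by norm_num)]; ring
      have f1 : ∀ᶠ s in 𝓝[>] (0 : ℝ), F (x + κ * s) (y + s) = F x y + s • w := by
        filter_upwards [a1, a2, a3, pos_ev] with s s1 s2 s3 s5
        have hks : 0 < κ * s := by positivity
        rw [(F_I (n := n) (x := x + κ * s) (y := y + s) (by linarith) (by linarith) (by linarith)
          (by linarith)).1, e0]
        apply ext3 <;> simp [hw] <;> ring
      have f2 : ∀ᶠ s in 𝓝[>] (0 : ℝ), F (x - κ * s) (y - s) = F x y + s • u := by
        filter_upwards [a1, a2, a3, a4, pos_ev] with s s1 s2 s3 s4 s5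
        have hks : 0 < κ * s := by positivity
        rw [(F_II (n := n - 1) (x := x - κ * s) (y := y - s) (by push_cast; linarith)
          (by push_cast; linarith) (by linarith) (by linarith)).1, e0, hpm]
        apply ext3
        · simp [hu]; ring
        · simp [hu]; rw [← hx]; ring
        · simp [hu]; rw [← hx]; ring
      refine ⟨u, w, hu0, hw0, f2, f1, ?_⟩
      have g1 : PointsInto V (if Even (n - 1) then 0 else 1) (F x y) u := by
        filter_upwards [f2, a1, a2, a3, a4, pos_ev] with s s0 s1 s2 s3 s4 s5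
        have hks : 0 < κ * s := by positivity
        rw [← s0]
        exact (F_II (n := n - 1) (x := x - κ * s) (y := y - s) (by push_cast; linarith)
          (by push_cast; linarith) (by linarith) (by linarith)).2
      have g2 : PointsInto V (if Even n then 3 else 2) (F x y) w := by
        filter_upwards [f1, a1, a2, a3, pos_ev] with s s0 s1 s2 s3 s5
        have hks : 0 < κ * s := by positivity
        rw [← s0]
        exact (F_I (n := n) (x := x + κ * s) (y := y + s) (by linarith) (by linarith)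
          (by linarith) (by linarith)).2
      have hnorm : ‖u‖ ^ 2 = ‖w‖ ^ 2 := by
        rw [norm3, norm3]; simp [hu, hw]
      rcases sgn n with ⟨hs, he⟩ | ⟨hs, he⟩
      · have he' : ¬ Even (n - 1) := by
          rw [Int.even_sub_one]; simpa using he
        rw [if_neg he'] at g1
        rw [if_pos he] at g2
        refine admissible_edge (g := 1) (g' := 3) (b := 2) hp (by decide) (by decide) (by decide)
          g1 g2 hnorm ?_
        rw [inner3, inner3, e0]
        simp [hu, hw, hs, V]
        rw [← hx]; ring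
      · have he' : Even (n - 1) := by
          rw [Int.even_sub_one]; exact he
        rw [if_pos he'] at g1
        rw [if_neg he] at g2
        refine admissible_edge (g := 0) (g' := 2) (b := 3) hp (by decide) (by decide) (by decide)
          g1 g2 hnorm ?_
        rw [inner3, inner3, e0]
        simp [hu, hw, hs, V]
        rw [← hx]; ring
  · -- crossing a diagonal edge
    obtain ⟨e0, -⟩ := F_I hn1 hxy.le hy0.le hy1.le
    have hxn : (n : ℝ) < x := by linarith
    have a3 := lin_ev (x - n) (-κ) (by linarith)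
    have a4 := lin_ev (n + 1 - x) (-κ) (by linarith)
    set w : E3 := !₂[-2, (-1 : ℝ) ^ n * (-2 * κ), (-1 : ℝ) ^ n * (2 * (κ + 1))] with hw
    set u : E3 := !₂[2, (-1 : ℝ) ^ n * (2 * κ), (-1 : ℝ) ^ n * (2 * (κ + 1))] with hu
    have hw0 : w ≠ 0 := by
      intro h
      have := congrArg (fun z : E3 => z 0) h
      simp [hw] at this
    have hu0 : u ≠ 0 := by
      intro h
      have := congrArg (fun z : E3 => z 0) h
      simp [hu] at this
    have hy' : y = n + 1 - x := by linarith
    have f1 : ∀ᶠ s in 𝓝[>] (0 : ℝ), F (x + κ * s) (y + s) = F x y + s • w := by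
      filter_upwards [a1, a2, a3, a4, pos_ev] with s s1 s2 s3 s4 s5
      have hks : 0 < κ * s := by positivity
      rw [(F_II (n := n) (x := x + κ * s) (y := y + s) (by linarith) (by linarith) (by linarith)
        (by linarith)).1, e0]
      apply ext3 <;> simp [hw, hy'] <;> (try ring)
    have f2 : ∀ᶠ s in 𝓝[>] (0 : ℝ), F (x - κ * s) (y - s) = F x y + s • u := by
      filter_upwards [a1, a2, a3, a4, pos_ev] with s s1 s2 s3 s4 s5
      have hks : 0 < κ * s := by positivity
      rw [(F_I (n := n) (x := x - κ * s) (y := y - s) (by linarith)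
        (by linarith) (by linarith) (by linarith)).1, e0]
      apply ext3 <;> simp [hu, hy'] <;> (try ring)
    refine ⟨u, w, hu0, hw0, f2, f1, ?_⟩
    have g1 : PointsInto V (if Even n then 3 else 2) (F x y) u := by
      filter_upwards [f2, a1, a2, a3, a4, pos_ev] with s s0 s1 s2 s3 s4 s5
      have hks : 0 < κ * s := by positivity
      rw [← s0]
      exact (F_I (n := n) (x := x - κ * s) (y := y - s) (by linarith)
        (by linarith) (by linarith) (by linarith)).2
    have g2 : PointsInto V (if Even n then 0 else 1) (F x y) w := by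
      filter_upwards [f1, a1, a2, a3, a4, pos_ev] with s s0 s1 s2 s3 s4 s5
      have hks : 0 < κ * s := by positivity
      rw [← s0]
      exact (F_II (n := n) (x := x + κ * s) (y := y + s) (by linarith) (by linarith)
        (by linarith) (by linarith)).2
    have hnorm : ‖u‖ ^ 2 = ‖w‖ ^ 2 := by
      rw [norm3, norm3]; simp [hu, hw]
    rcases sgn n with ⟨hs, he⟩ | ⟨hs, he⟩
    · rw [if_pos he] at g1 g2
      refine admissible_edge (g := 3) (g' := 0) (b := 2) hp (by decide) (by decide) (by decide)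
        g1 g2 hnorm ?_
      rw [inner3, inner3, e0]
      simp [hu, hw, hs, V, hy']
      ring
    · rw [if_neg he] at g1 g2
      refine admissible_edge (g := 2) (g' := 1) (b := 3) hp (by decide) (by decide) (by decide)
        g1 g2 hnorm ?_
      rw [inner3, inner3, e0]
      simp [hu, hw, hs, V, hy']
      ring
  · -- interior of an upper triangle
    have hxn : (n : ℝ) < x := by linarith
    obtain ⟨e0, -⟩ := F_II hn2.le hxy.le hy0.le hy1.le
    have a3 := lin_ev (n + 1 - x) (-κ) (by linarith)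
    have a4 := lin_ev (x + y - (n + 1)) (-(κ + 1)) (by linarith)
    set w : E3 := !₂[-2, (-1 : ℝ) ^ n * (-2 * κ), (-1 : ℝ) ^ n * (2 * (κ + 1))] with hw
    have hw0 : w ≠ 0 := by
      intro h
      have := congrArg (fun z : E3 => z 0) h
      simp [hw] at this
    have f1 : ∀ᶠ s in 𝓝[>] (0 : ℝ), F (x + κ * s) (y + s) = F x y + s • w := by
      filter_upwards [a1, a2, a3, a4, pos_ev] with s s1 s2 s3 s4 s5
      have hks : 0 < κ * s := by positivity
      rw [(F_II (n := n) (x := x + κ * s) (y := y + s) (by linarith) (by linarith) (by linarith)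
        (by linarith)).1, e0]
      apply ext3 <;> simp [hw] <;> ring
    have f2 : ∀ᶠ s in 𝓝[>] (0 : ℝ), F (x - κ * s) (y - s) = F x y + s • (-w) := by
      filter_upwards [a1, a2, a3, a4, pos_ev] with s s1 s2 s3 s4 s5
      have hks : 0 < κ * s := by positivity
      rw [(F_II (n := n) (x := x - κ * s) (y := y - s) (by linarith) (by linarith) (by linarith)
        (by linarith)).1, e0]
      apply ext3 <;> simp [hw] <;> ring
    refine ⟨-w, w, neg_ne_zero.2 hw0, hw0, f2, f1, ?_⟩
    apply admissible_straight (g := if Even n then 0 else 1) hp hw0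
    · filter_upwards [f2, a1, a2, a3, a4, pos_ev] with s s0 s1 s2 s3 s4 s5
      have hks : 0 < κ * s := by positivity
      rw [← s0]
      exact (F_II (n := n) (x := x - κ * s) (y := y - s) (by linarith) (by linarith)
        (by linarith) (by linarith)).2
    · filter_upwards [f1, a1, a2, a3, a4, pos_ev] with s s0 s1 s2 s3 s4 s5
      have hks : 0 < κ * s := by positivity
      rw [← s0]
      exact (F_II (n := n) (x := x + κ * s) (y := y + s) (by linarith) (by linarith)
        (by linarith) (by linarith)).2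

/-! ### The closed curves -/

/-- The four sides of the parallelogram with vertices `(0,0), (κ,1), (κ+1,1), (1,0)`, folded onto the
tetrahedron. -/
noncomputable def side (κ : ℝ) (m : ℤ) (s : ℝ) : E3 :=
  if m % 4 = 0 then F (κ * s) s
  else if m % 4 = 1 then F (κ + s) 1
  else if m % 4 = 2 then F (1 + κ * (1 - s)) (1 - s)
  else F (1 - s) 0

/-- The closed curve, of period 4. -/
noncomputable def γ (κ t : ℝ) : E3 := side κ ⌊t⌋ (Int.fract t)

lemma mod4 (m : ℤ) : m % 4 = 0 ∨ m % 4 = 1 ∨ m % 4 = 2 ∨ m % 4 = 3 := by omega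

lemma side_0 {κ : ℝ} {m : ℤ} (h : m % 4 = 0) (s : ℝ) : side κ m s = F (κ * s) s := by
  simp [side, h]
lemma side_1 {κ : ℝ} {m : ℤ} (h : m % 4 = 1) (s : ℝ) : side κ m s = F (κ + s) 1 := by
  simp [side, h]
lemma side_2 {κ : ℝ} {m : ℤ} (h : m % 4 = 2) (s : ℝ) :
    side κ m s = F (1 + κ * (1 - s)) (1 - s) := by
  simp [side, h]
lemma side_3 {κ : ℝ} {m : ℤ} (h : m % 4 = 3) (s : ℝ) : side κ m s = F (1 - s) 0 := by
  simp [side, h]

lemma side_join (κ : ℝ) (m : ℤ) : side κ (m - 1) 1 = side κ m 0 := by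
  rcases mod4 m with h | h | h | h
  · rw [side_0 h, side_3 (by omega)]; simp
  · rw [side_1 h, side_0 (by omega)]; simp
  · rw [side_2 h, side_1 (by omega)]; simp [add_comm]
  · rw [side_3 h, side_2 (by omega)]; simp

lemma γ_of {κ : ℝ} {m : ℤ} {s : ℝ} (h0 : 0 ≤ s) (h1 : s < 1) : γ κ (m + s) = side κ m s := by
  have hf : ⌊(m : ℝ) + s⌋ = m := by
    rw [Int.floor_intCast_add, Int.floor_eq_zero_iff.2 ⟨h0, h1⟩, add_zero]
  unfold γ
  rw [Int.fract, hf]
  congr 1; ring

lemma T_nat (k : ℕ) {s : ℝ} (h0 : 0 ≤ s) (h1 : s ≤ 1) : T (k + s) = (-1 : ℝ) ^ k * (1 - 2 * s) := by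
  have := T_eq (n := (k : ℤ)) (x := k + s) (by push_cast; linarith) (by push_cast; linarith)
  rw [this]
  push_cast
  rw [zpow_natCast]; ring

lemma side1_eq (k : ℕ) {m : ℤ} (h : m % 4 = 1) {s : ℝ} (h0 : 0 ≤ s) (h1 : s ≤ 1) :
    side (k : ℝ) m s = !₂[-1, (-1 : ℝ) ^ k * (1 - 2 * s), -((-1 : ℝ) ^ k * (1 - 2 * s))] := by
  rw [side_1 h]
  unfold F
  have e : (k : ℝ) + s + 1 = 1 + (k + s) := by ring
  rw [e, T_add_one, T_nat k h0 h1, T_01 (by norm_num) (by norm_num)]
  norm_num

lemma side3_eq (κ : ℝ) {m : ℤ} (h : m % 4 = 3) {s : ℝ} (h0 : 0 ≤ s) (h1 : s ≤ 1) :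
    side κ m s = !₂[1, 2 * s - 1, 2 * s - 1] := by
  rw [side_3 h]
  unfold F
  rw [add_zero, T_01 (by norm_num) (by norm_num), T_01 (x := 1 - s) (by linarith) (by linarith)]
  have e : 1 - 2 * (1 - s) = 2 * s - 1 := by ring
  rw [e]; norm_num

/-- the lower end of the first helix -/
lemma low {κ s : ℝ} (hκ : 0 < κ) (h0 : 0 ≤ s) (h1 : (κ + 1) * s ≤ 1) :
    F (κ * s) s = !₂[1 - 2 * s, 1 - 2 * (κ * s), 1 - 2 * ((κ + 1) * s)] := by
  have hks : 0 ≤ κ * s := by positivity
  unfold F
  rw [T_01 h0 (by nlinarith), T_01 hks (by nlinarith), T_01 (by linarith) (by linarith)]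
  have e : κ * s + s = (κ + 1) * s := by ring
  rw [e]

/-- the upper end of the first helix -/
lemma high (k : ℕ) (hk : 0 < k) {s : ℝ} (h0 : 0 ≤ s) (h1 : ((k : ℝ) + 1) * s ≤ 1) :
    F (k * (1 - s)) (1 - s) = !₂[2 * s - 1, (-1 : ℝ) ^ k * (1 - 2 * (k * s)),
      -((-1 : ℝ) ^ k * (1 - 2 * ((k + 1) * s)))] := by
  have hk' : (0 : ℝ) < k := by exact_mod_cast hk
  have hks : 0 ≤ (k : ℝ) * s := by positivity
  unfold F
  have e1 : T (k * (1 - s)) = (-1 : ℝ) ^ k * (1 - 2 * (k * s)) := by
    have := T_eq (n := (k : ℤ) - 1) (x := k * (1 - s)) (by push_cast; nlinarith)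
      (by push_cast; nlinarith)
    rw [this, zpow_sub_one₀ (by norm_num), zpow_natCast]
    push_cast; ring
  have e2 : T (k * (1 - s) + (1 - s)) = -((-1 : ℝ) ^ k * (1 - 2 * ((k + 1) * s))) := by
    have := T_eq (n := (k : ℤ)) (x := k * (1 - s) + (1 - s)) (by push_cast; nlinarith)
      (by push_cast; nlinarith)
    rw [this, zpow_natCast]
    push_cast; ring
  rw [e1, e2, T_01 (x := 1 - s) (by nlinarith) (by linarith)]
  have e : 1 - 2 * (1 - s) = 2 * s - 1 := by ring
  rw [e]

lemma F_one_add (x y : ℝ) : F (1 + x) y = !₂[T y, -T x, -T (x + y)] := by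
  unfold F
  rw [T_add_one, add_assoc, T_add_one]

/-- corner at a vertex -/
lemma corner {κ : ℝ} {p u w : E3} {m : ℤ} {a g : Fin 4} (hp : side κ m 0 = p) (hpa : p = V a)
    (hu0 : u ≠ 0) (hw0 : w ≠ 0)
    (hu : ∀ᶠ s in 𝓝[>] (0 : ℝ), side κ (m - 1) (1 - s) = p + s • u ∧ p + s • u ∈ face V g)
    (hw : ∀ᶠ s in 𝓝[>] (0 : ℝ), side κ m s = p + s • w ∧ p + s • w ∈ face V g) :
    ∃ u w : E3, u ≠ 0 ∧ w ≠ 0 ∧ (∀ᶠ s in 𝓝[>] (0 : ℝ), γ κ (m - s) = γ κ m + s • u) ∧
      (∀ᶠ s in 𝓝[>] (0 : ℝ), γ κ (m + s) = γ κ m + s • w) ∧ Admissible V (γ κ m) u w := by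
  have hγ : γ κ m = p := by
    have := γ_of (κ := κ) (m := m) (s := 0) le_rfl zero_lt_one
    rw [add_zero] at this
    rw [this, hp]
  have a1 := lin_ev 1 (-1) (by norm_num)
  refine ⟨u, w, hu0, hw0, ?_, ?_, ?_⟩
  · filter_upwards [hu, a1, pos_ev] with s s1 s2 s3
    have e : (m : ℝ) - s = ((m - 1 : ℤ) : ℝ) + (1 - s) := by push_cast; ring
    rw [e, γ_of (by linarith) (by linarith), s1.1, hγ]
  · filter_upwards [hw, a1, pos_ev] with s s1 s2 s3
    rw [γ_of (by linarith) (by linarith), s1.1, hγ]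
  · rw [hγ, hpa]
    apply admissible_vertex (g := g)
    · filter_upwards [hu] with s s1
      rw [← hpa]; exact s1.2
    · filter_upwards [hw] with s s1
      rw [← hpa]; exact s1.2

/-- generic point of a side -/
lemma generic {κ : ℝ} {m : ℤ} {s₀ : ℝ} (h0 : 0 < s₀) (h1 : s₀ < 1) {u w : E3}
    (hu0 : u ≠ 0) (hw0 : w ≠ 0)
    (hu : ∀ᶠ s in 𝓝[>] (0 : ℝ), side κ m (s₀ - s) = side κ m s₀ + s • u)
    (hw : ∀ᶠ s in 𝓝[>] (0 : ℝ), side κ m (s₀ + s) = side κ m s₀ + s • w)
    (hA : Admissible V (side κ m s₀) u w) :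
    ∃ u w : E3, u ≠ 0 ∧ w ≠ 0 ∧
      (∀ᶠ s in 𝓝[>] (0 : ℝ), γ κ (m + s₀ - s) = γ κ (m + s₀) + s • u) ∧
      (∀ᶠ s in 𝓝[>] (0 : ℝ), γ κ (m + s₀ + s) = γ κ (m + s₀) + s • w) ∧
      Admissible V (γ κ (m + s₀)) u w := by
  have hγ : γ κ (m + s₀) = side κ m s₀ := γ_of h0.le h1
  have a1 := lin_ev s₀ (-1) h0
  have a2 := lin_ev (1 - s₀) (-1) (by linarith)
  refine ⟨u, w, hu0, hw0, ?_, ?_, ?_⟩
  · filter_upwards [hu, a1, pos_ev] with s s1 s2 s3
    have e : (m : ℝ) + s₀ - s = m + (s₀ - s) := by ring
    rw [e, γ_of (by linarith) (by linarith), s1, hγ]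
  · filter_upwards [hw, a2, pos_ev] with s s1 s2 s3
    have e : (m : ℝ) + s₀ + s = m + (s₀ + s) := by ring
    rw [e, γ_of (by linarith) (by linarith), s1, hγ]
  · rw [hγ]; exact hA

lemma eps_cases (k : ℕ) : (-1 : ℝ) ^ k = 1 ∨ (-1 : ℝ) ^ k = -1 := neg_one_pow_eq_or ℝ k

/-- the local condition at every point -/
lemma angles_γ (k : ℕ) (hk : 0 < k) (t : ℝ) : ∃ u w : E3, u ≠ 0 ∧ w ≠ 0 ∧
    (∀ᶠ s in 𝓝[>] (0 : ℝ), γ k (t - s) = γ k t + s • u) ∧
    (∀ᶠ s in 𝓝[>] (0 : ℝ), γ k (t + s) = γ k t + s • w) ∧ Admissible V (γ k t) u w := by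
  have hk' : (0 : ℝ) < k := by exact_mod_cast hk
  obtain ⟨m, s₀, h0, h1, rfl⟩ : ∃ (m : ℤ) (s₀ : ℝ), 0 ≤ s₀ ∧ s₀ < 1 ∧ t = m + s₀ :=
    ⟨⌊t⌋, Int.fract t, Int.fract_nonneg t, Int.fract_lt_one t, (Int.floor_add_fract t).symm⟩
  rcases h0.lt_or_eq with h0 | h0
  · -- inside a side
    have b1 := lin_ev s₀ (-1) h0
    have b2 := lin_ev (1 - s₀) (-1) (by linarith)
    rcases mod4 m with h | h | h | h
    · obtain ⟨u, w, hu0, hw0, hu, hw, hA⟩ := helix hk' (k * s₀) h0 h1
      apply generic h0 h1 hu0 hw0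
      · filter_upwards [hu] with s s1
        rw [side_0 h, side_0 h, mul_sub]; exact s1
      · filter_upwards [hw] with s s1
        rw [side_0 h, side_0 h, mul_add]; exact s1
      · rw [side_0 h]; exact hA
    · -- edge `V 2 V 3`
      set w : E3 := !₂[0, (-1 : ℝ) ^ k * (-2), (-1 : ℝ) ^ k * 2] with hw
      have hw0 : w ≠ 0 := by
        intro e
        have := congrArg (fun z : E3 => z 1) e
        rcases eps_cases k with h | h <;> simp [hw] at this
      have e0 := side1_eq k h h0.le h1.le
      have f1 : ∀ᶠ s in 𝓝[>] (0 : ℝ), side k m (s₀ + s) = side k m s₀ + s • w := by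
        filter_upwards [b2, pos_ev] with s s1 s2
        rw [side1_eq k h (by linarith) (by linarith), e0]
        apply ext3 <;> simp [hw] <;> ring
      have f2 : ∀ᶠ s in 𝓝[>] (0 : ℝ), side k m (s₀ - s) = side k m s₀ + s • (-w) := by
        filter_upwards [b1, pos_ev] with s s1 s2
        rw [side1_eq k h (by linarith) (by linarith), e0]
        apply ext3 <;> simp [hw] <;> ring
      have hmem : ∀ s : ℝ, 0 ≤ s → s ≤ 1 → side k m s ∈ face V 0 := by
        intro s s1 s2
        rw [side1_eq k h s1 s2]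
        apply mem_face_of_lam
        · simp [lam]
        · intro i
          rcases eps_cases k with h | h <;> rw [h] <;> fin_cases i <;> simp [lam] <;> linarith
      apply generic h0 h1 (neg_ne_zero.2 hw0) hw0 f2 f1
      apply admissible_straight (g := 0) _ hw0
      · filter_upwards [f2, b1, pos_ev] with s s1 s2 s3
        rw [← s1]; exact hmem _ (by linarith) (by linarith)
      · filter_upwards [f1, b2, pos_ev] with s s1 s2 s3
        rw [← s1]; exact hmem _ (by linarith) (by linarith)
      · intro a e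
        rw [e0] at e
        have e1 := congrArg (fun z : E3 => z 0) e
        have e2 := congrArg (fun z : E3 => z 1) e
        rcases eps_cases k with h | h <;> rw [h] at e2 <;> fin_cases a <;>
          simp [V] at e1 e2 <;> linarith
    · have h1' : 0 < 1 - s₀ := by linarith
      have h2' : 1 - s₀ < 1 := by linarith
      obtain ⟨u, w, hu0, hw0, hu, hw, hA⟩ := helix hk' (1 + k * (1 - s₀)) h1' h2'
      apply generic h0 h1 hw0 hu0
      · filter_upwards [hw] with s s1
        rw [side_2 h, side_2 h, ← s1]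
        congr 1 <;> ring
      · filter_upwards [hu] with s s1
        rw [side_2 h, side_2 h, ← s1]
        congr 1 <;> ring
      · rw [side_2 h]; exact hA.symm
    · -- edge `V 0 V 1`
      set w : E3 := !₂[0, 2, 2] with hw
      have hw0 : w ≠ 0 := by
        intro e
        have := congrArg (fun z : E3 => z 1) e
        simp [hw] at this
      have e0 := side3_eq (k : ℝ) h h0.le h1.le
      have f1 : ∀ᶠ s in 𝓝[>] (0 : ℝ), side k m (s₀ + s) = side k m s₀ + s • w := by
        filter_upwards [b2, pos_ev] with s s1 s2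
        rw [side3_eq (k : ℝ) h (by linarith) (by linarith), e0]
        apply ext3 <;> simp [hw] <;> ring
      have f2 : ∀ᶠ s in 𝓝[>] (0 : ℝ), side k m (s₀ - s) = side k m s₀ + s • (-w) := by
        filter_upwards [b1, pos_ev] with s s1 s2
        rw [side3_eq (k : ℝ) h (by linarith) (by linarith), e0]
        apply ext3 <;> simp [hw] <;> ring
      have hmem : ∀ s : ℝ, 0 ≤ s → s ≤ 1 → side k m s ∈ face V 3 := by
        intro s s1 s2
        rw [side3_eq (k : ℝ) h s1 s2]
        apply mem_face_of_lam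
        · simp [lam]
        · intro i
          fin_cases i <;> simp [lam] <;> linarith
      apply generic h0 h1 (neg_ne_zero.2 hw0) hw0 f2 f1
      apply admissible_straight (g := 3) _ hw0
      · filter_upwards [f2, b1, pos_ev] with s s1 s2 s3
        rw [← s1]; exact hmem _ (by linarith) (by linarith)
      · filter_upwards [f1, b2, pos_ev] with s s1 s2 s3
        rw [← s1]; exact hmem _ (by linarith) (by linarith)
      · intro a e
        rw [e0] at e
        have e1 := congrArg (fun z : E3 => z 0) e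
        have e2 := congrArg (fun z : E3 => z 1) e
        fin_cases a <;> simp [V] at e1 e2 <;> linarith
  · -- a corner
    rw [← h0, add_zero]
    clear h0 h1
    have b1 := lin_ev 1 (-(k + 1)) (by norm_num)
    rcases mod4 m with h | h | h | h
    · refine corner (p := V 0) (a := 0) (g := 3) (u := !₂[0, -2, -2])
        (w := !₂[-2, -2 * k, -2 * (k + 1)]) ?_ rfl ?_ ?_ ?_ ?_
      · rw [side_0 h, low hk' (by norm_num) (by norm_num)]
        apply ext3 <;> simp [V]
      · intro e
        have := congrArg (fun z : E3 => z 1) e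
        simp at this
      · intro e
        have := congrArg (fun z : E3 => z 0) e
        simp at this
      · filter_upwards [b1, pos_ev] with s s1 s2
        have hks : 0 < k * s := by positivity
        constructor
        · rw [side3_eq (k : ℝ) (by omega) (by linarith) (by linarith)]
          apply ext3 <;> simp [V] <;> ring
        · apply mem_face_of_lam
          · simp [lam, V]
          · intro i
            fin_cases i <;> simp [lam, V] <;> linarith
      · filter_upwards [b1, pos_ev] with s s1 s2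
        have hks : 0 < k * s := by positivity
        constructor
        · rw [side_0 h, low hk' (by linarith) (by linarith)]
          apply ext3 <;> simp [V] <;> ring
        · apply mem_face_of_lam
          · simp [lam, V]; ring
          · intro i
            fin_cases i <;> simp [lam, V] <;> linarith
    · rcases eps_cases k with he | he
      · refine corner (p := V 2) (a := 2) (g := 1) (u := !₂[2, -2 * k, 2 * (k + 1)])
          (w := !₂[0, -2, 2]) ?_ rfl ?_ ?_ ?_ ?_
        · rw [side1_eq k h (by norm_num) (by norm_num), he]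
          apply ext3 <;> simp [V]
        · intro e
          have := congrArg (fun z : E3 => z 0) e
          simp at this
        · intro e
          have := congrArg (fun z : E3 => z 1) e
          simp at this
        · filter_upwards [b1, pos_ev] with s s1 s2
          have hks : 0 < k * s := by positivity
          constructor
          · rw [side_0 (by omega), high k hk (by linarith) (by linarith), he]
            apply ext3 <;> simp [V] <;> ring
          · apply mem_face_of_lam
            · simp [lam, V]; ring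
            · intro i
              fin_cases i <;> simp [lam, V] <;> linarith
        · filter_upwards [b1, pos_ev] with s s1 s2
          have hks : 0 < k * s := by positivity
          constructor
          · rw [side1_eq k h (by linarith) (by linarith), he]
            apply ext3 <;> simp [V] <;> ring
          · apply mem_face_of_lam
            · simp [lam, V]; ring
            · intro i
              fin_cases i <;> simp [lam, V] <;> linarith
      · refine corner (p := V 3) (a := 3) (g := 0) (u := !₂[2, 2 * k, -2 * (k + 1)])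
          (w := !₂[0, 2, -2]) ?_ rfl ?_ ?_ ?_ ?_
        · rw [side1_eq k h (by norm_num) (by norm_num), he]
          apply ext3 <;> simp [V]
        · intro e
          have := congrArg (fun z : E3 => z 0) e
          simp at this
        · intro e
          have := congrArg (fun z : E3 => z 1) e
          simp at this
        · filter_upwards [b1, pos_ev] with s s1 s2
          have hks : 0 < k * s := by positivity
          constructor
          · rw [side_0 (by omega), high k hk (by linarith) (by linarith), he]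
            apply ext3 <;> simp [V] <;> ring
          · apply mem_face_of_lam
            · simp [lam, V]; ring
            · intro i
              fin_cases i <;> simp [lam, V] <;> linarith
        · filter_upwards [b1, pos_ev] with s s1 s2
          have hks : 0 < k * s := by positivity
          constructor
          · rw [side1_eq k h (by linarith) (by linarith), he]
            apply ext3 <;> simp [V] <;> ring
          · apply mem_face_of_lam
            · simp [lam, V]; ring
            · intro i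
              fin_cases i <;> simp [lam, V] <;> linarith
    · rcases eps_cases k with he | he
      · refine corner (p := V 3) (a := 3) (g := 0) (u := !₂[0, 2, -2])
          (w := !₂[2, 2 * k, -2 * (k + 1)]) ?_ rfl ?_ ?_ ?_ ?_
        · rw [← side_join, side1_eq k (by omega) (by norm_num) (by norm_num), he]
          apply ext3 <;> simp [V] <;> norm_num
        · intro e
          have := congrArg (fun z : E3 => z 1) e
          simp at this
        · intro e
          have := congrArg (fun z : E3 => z 0) e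
          simp at this
        · filter_upwards [b1, pos_ev] with s s1 s2
          have hks : 0 < k * s := by positivity
          constructor
          · rw [side1_eq k (by omega) (by linarith) (by linarith), he]
            apply ext3 <;> simp [V] <;> ring
          · apply mem_face_of_lam
            · simp [lam, V]; ring
            · intro i
              fin_cases i <;> simp [lam, V] <;> linarith
        · filter_upwards [b1, pos_ev] with s s1 s2
          have hks : 0 < k * s := by positivity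
          have hh := high k hk (s := s) (by linarith) (by linarith)
          have h0' := congrArg (fun z : E3 => z 0) hh
          have h1' := congrArg (fun z : E3 => z 1) hh
          have h2' := congrArg (fun z : E3 => z 2) hh
          simp [he] at h0' h1' h2'
          constructor
          · rw [side_2 h, F_one_add, h0', h1', h2']
            apply ext3 <;> simp [V] <;> ring
          · apply mem_face_of_lam
            · simp [lam, V]; ring
            · intro i
              fin_cases i <;> simp [lam, V] <;> linarith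
      · refine corner (p := V 2) (a := 2) (g := 1) (u := !₂[0, -2, 2])
          (w := !₂[2, -2 * k, 2 * (k + 1)]) ?_ rfl ?_ ?_ ?_ ?_
        · rw [← side_join, side1_eq k (by omega) (by norm_num) (by norm_num), he]
          apply ext3 <;> simp [V] <;> norm_num
        · intro e
          have := congrArg (fun z : E3 => z 1) e
          simp at this
        · intro e
          have := congrArg (fun z : E3 => z 0) e
          simp at this
        · filter_upwards [b1, pos_ev] with s s1 s2
          have hks : 0 < k * s := by positivity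
          constructor
          · rw [side1_eq k (by omega) (by linarith) (by linarith), he]
            apply ext3 <;> simp [V] <;> ring
          · apply mem_face_of_lam
            · simp [lam, V]; ring
            · intro i
              fin_cases i <;> simp [lam, V] <;> linarith
        · filter_upwards [b1, pos_ev] with s s1 s2
          have hks : 0 < k * s := by positivity
          have hh := high k hk (s := s) (by linarith) (by linarith)
          have h0' := congrArg (fun z : E3 => z 0) hh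
          have h1' := congrArg (fun z : E3 => z 1) hh
          have h2' := congrArg (fun z : E3 => z 2) hh
          simp [he] at h0' h1' h2'
          constructor
          · rw [side_2 h, F_one_add, h0', h1', h2']
            apply ext3 <;> simp [V] <;> ring
          · apply mem_face_of_lam
            · simp [lam, V]; ring
            · intro i
              fin_cases i <;> simp [lam, V] <;> linarith
    · refine corner (p := V 1) (a := 1) (g := 2) (u := !₂[-2, 2 * k, 2 * (k + 1)])
        (w := !₂[0, 2, 2]) ?_ rfl ?_ ?_ ?_ ?_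
      · rw [side3_eq (k : ℝ) h (by norm_num) (by norm_num)]
        apply ext3 <;> simp [V]
      · intro e
        have := congrArg (fun z : E3 => z 0) e
        simp at this
      · intro e
        have := congrArg (fun z : E3 => z 1) e
        simp at this
      · filter_upwards [b1, pos_ev] with s s1 s2
        have hks : 0 < k * s := by positivity
        have hh := low (s := s) hk' (by linarith) (by linarith)
        have h0' := congrArg (fun z : E3 => z 0) hh
        have h1' := congrArg (fun z : E3 => z 1) hh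
        have h2' := congrArg (fun z : E3 => z 2) hh
        simp at h0' h1' h2'
        constructor
        · rw [side_2 (by omega), sub_sub_cancel, F_one_add, h0', h1', h2']
          apply ext3 <;> simp [V] <;> ring
        · apply mem_face_of_lam
          · simp [lam, V]; ring
          · intro i
            fin_cases i <;> simp [lam, V] <;> linarith
      · filter_upwards [b1, pos_ev] with s s1 s2
        have hks : 0 < k * s := by positivity
        constructor
        · rw [side3_eq (k : ℝ) h (by linarith) (by linarith)]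
          apply ext3 <;> simp [V] <;> ring
        · apply mem_face_of_lam
          · simp [lam, V]
          · intro i
            fin_cases i <;> simp [lam, V] <;> linarith

/-! ### Global properties -/

lemma periodic_γ (κ t : ℝ) : γ κ (t + 4) = γ κ t := by
  unfold γ
  have h1 : ⌊t + 4⌋ = ⌊t⌋ + 4 := by
    have := Int.floor_add_intCast t 4
    simpa using this
  have h2 : Int.fract (t + 4) = Int.fract t := by
    have := Int.fract_add_intCast t 4
    simpa using this
  rw [h1, h2]
  have h3 : (⌊t⌋ + 4) % 4 = ⌊t⌋ % 4 := by omega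
  unfold side
  rw [h3]

lemma F_mem (x : ℝ) {y : ℝ} (h0 : 0 ≤ y) (h1 : y ≤ 1) : ∃ j, F x y ∈ face V j := by
  rcases le_total (x + y) (⌊x⌋ + 1) with h | h
  · exact ⟨_, (F_I (Int.floor_le x) h h0 h1).2⟩
  · exact ⟨_, (F_II (Int.lt_floor_add_one x).le h h0 h1).2⟩

lemma mem_surface_γ (κ t : ℝ) : ∃ j, γ κ t ∈ face V j := by
  unfold γ
  have h0 := Int.fract_nonneg t
  have h1 := Int.fract_lt_one t
  rcases mod4 ⌊t⌋ with h | h | h | h
  · rw [side_0 h]; exact F_mem _ h0 h1.le
  · rw [side_1 h]; exact F_mem _ zero_le_one le_rfl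
  · rw [side_2 h]; exact F_mem _ (by linarith) (by linarith)
  · rw [side_3 h]; exact F_mem _ le_rfl zero_le_one

/-- coordinates on the sides -/
lemma coord0 {κ : ℝ} {m : ℤ} (h : m % 4 = 0) {s : ℝ} (h0 : 0 ≤ s) (h1 : s < 1) :
    side κ m s 0 = 1 - 2 * s ∧ side κ m s 1 = T (κ * s) ∧ side κ m s 2 = T (κ * s + s) := by
  rw [side_0 h]
  exact ⟨by rw [F0, T_01 h0 h1.le], rfl, rfl⟩

lemma coord1 (k : ℕ) {m : ℤ} (h : m % 4 = 1) {s : ℝ} (h0 : 0 ≤ s) (h1 : s < 1) :
    side (k : ℝ) m s 0 = -1 ∧ side (k : ℝ) m s 1 = (-1 : ℝ) ^ k * (1 - 2 * s) ∧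
      side (k : ℝ) m s 2 = -((-1 : ℝ) ^ k * (1 - 2 * s)) := by
  rw [side1_eq k h h0 h1.le]
  exact ⟨rfl, rfl, rfl⟩

lemma coord2 {κ : ℝ} {m : ℤ} (h : m % 4 = 2) {s : ℝ} (h0 : 0 ≤ s) (h1 : s < 1) :
    side κ m s 0 = 2 * s - 1 ∧ side κ m s 1 = -T (κ * (1 - s)) ∧
      side κ m s 2 = -T (κ * (1 - s) + (1 - s)) := by
  rw [side_2 h, F_one_add]
  refine ⟨?_, rfl, rfl⟩
  change T (1 - s) = _
  rw [T_01 (by linarith) (by linarith)]; ring

lemma coord3 (κ : ℝ) {m : ℤ} (h : m % 4 = 3) {s : ℝ} (h0 : 0 ≤ s) (h1 : s < 1) :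
    side κ m s 0 = 1 ∧ side κ m s 1 = 2 * s - 1 ∧ side κ m s 2 = 2 * s - 1 := by
  rw [side3_eq κ h h0 h1.le]
  exact ⟨rfl, rfl, rfl⟩

lemma no_cross {κ s : ℝ} (h1 : T (κ * s) = 0) (h2 : T (κ * s + s) = 0) : ∃ n : ℤ, s = n := by
  obtain ⟨a, ha⟩ := T_zero_imp h1
  obtain ⟨b, hb⟩ := T_zero_imp h2
  exact ⟨b - a, by push_cast; linarith⟩

lemma T_zero : T 0 = 1 := by rw [T_01 le_rfl zero_le_one]; ring

lemma side_inj (k : ℕ) {m m' : ℤ} {s s' : ℝ} (hm0 : 0 ≤ m) (hmm : m ≤ m') (hm4 : m' < 4)
    (h0 : 0 ≤ s) (h1 : s < 1) (h0' : 0 ≤ s') (h1' : s' < 1)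
    (h : side (k : ℝ) m s = side (k : ℝ) m' s') : m = m' ∧ s = s' := by
  have e0 := congrArg (fun z : E3 => z 0) h
  have e1 := congrArg (fun z : E3 => z 1) h
  have e2 := congrArg (fun z : E3 => z 2) h
  simp only at e0 e1 e2
  have hm : m = 0 ∨ m = 1 ∨ m = 2 ∨ m = 3 := by omega
  have hm' : m' = 0 ∨ m' = 1 ∨ m' = 2 ∨ m' = 3 := by omega
  rcases hm with rfl | rfl | rfl | rfl <;> rcases hm' with rfl | rfl | rfl | rfl <;>
    first
    | (exfalso; omega)
    | skip
  · obtain ⟨c0, c1, c2⟩ := coord0 (κ := (k : ℝ)) (m := 0) (by norm_num) h0 h1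
    obtain ⟨d0, d1, d2⟩ := coord0 (κ := (k : ℝ)) (m := 0) (by norm_num) h0' h1'
    exact ⟨rfl, by linarith⟩
  · obtain ⟨c0, c1, c2⟩ := coord0 (κ := (k : ℝ)) (m := 0) (by norm_num) h0 h1
    obtain ⟨d0, d1, d2⟩ := coord1 k (m := 1) (by norm_num) h0' h1'
    exfalso; linarith
  · obtain ⟨c0, c1, c2⟩ := coord0 (κ := (k : ℝ)) (m := 0) (by norm_num) h0 h1
    obtain ⟨d0, d1, d2⟩ := coord2 (κ := (k : ℝ)) (m := 2) (by norm_num) h0' h1'
    exfalso
    have hs : 1 - s' = s := by linarith
    rw [hs] at d1 d2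
    obtain ⟨n, hn⟩ := no_cross (κ := (k : ℝ)) (s := s) (by linarith) (by linarith)
    have hn0 : n = 0 := by
      have h3 : (n : ℝ) < 1 := by linarith
      have h4 : (-1 : ℝ) < n := by linarith
      have h5 : n < 1 := by exact_mod_cast h3
      have h6 : -1 < n := by exact_mod_cast h4
      omega
    rw [hn0] at hn
    push_cast at hn
    linarith
  · obtain ⟨c0, c1, c2⟩ := coord0 (κ := (k : ℝ)) (m := 0) (by norm_num) h0 h1
    obtain ⟨d0, d1, d2⟩ := coord3 (k : ℝ) (m := 3) (by norm_num) h0' h1'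
    exfalso
    have hs : s = 0 := by linarith
    rw [hs, mul_zero, T_zero] at c1
    rw [hs] at e1
    linarith
  · obtain ⟨c0, c1, c2⟩ := coord1 k (m := 1) (by norm_num) h0 h1
    obtain ⟨d0, d1, d2⟩ := coord1 k (m := 1) (by norm_num) h0' h1'
    refine ⟨rfl, ?_⟩
    rw [c1, d1] at e1
    rcases eps_cases k with he | he <;> rw [he] at e1 <;> linarith
  · obtain ⟨c0, c1, c2⟩ := coord1 k (m := 1) (by norm_num) h0 h1
    obtain ⟨d0, d1, d2⟩ := coord2 (κ := (k : ℝ)) (m := 2) (by norm_num) h0' h1'
    exfalso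
    have hs : s' = 0 := by linarith
    have hT : T (k * (1 - s')) = (-1 : ℝ) ^ k := by
      have := T_nat k (s := 0) le_rfl zero_le_one
      rw [hs]
      simpa using this
    rw [c1, d1, hT] at e1
    rcases eps_cases k with he | he <;> rw [he] at e1 <;> linarith
  · obtain ⟨c0, c1, c2⟩ := coord1 k (m := 1) (by norm_num) h0 h1
    obtain ⟨d0, d1, d2⟩ := coord3 (k : ℝ) (m := 3) (by norm_num) h0' h1'
    exfalso; linarith
  · obtain ⟨c0, c1, c2⟩ := coord2 (κ := (k : ℝ)) (m := 2) (by norm_num) h0 h1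
    obtain ⟨d0, d1, d2⟩ := coord2 (κ := (k : ℝ)) (m := 2) (by norm_num) h0' h1'
    exact ⟨rfl, by linarith⟩
  · obtain ⟨c0, c1, c2⟩ := coord2 (κ := (k : ℝ)) (m := 2) (by norm_num) h0 h1
    obtain ⟨d0, d1, d2⟩ := coord3 (k : ℝ) (m := 3) (by norm_num) h0' h1'
    exfalso; linarith
  · obtain ⟨c0, c1, c2⟩ := coord3 (k : ℝ) (m := 3) (by norm_num) h0 h1
    obtain ⟨d0, d1, d2⟩ := coord3 (k : ℝ) (m := 3) (by norm_num) h0' h1'
    exact ⟨rfl, by linarith⟩

lemma injOn_γ (k : ℕ) : InjOn (γ k) (Ico 0 4) := by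
  have aux : ∀ t ∈ Ico (0:ℝ) 4, 0 ≤ ⌊t⌋ ∧ ⌊t⌋ < 4 := by
    intro t ht
    exact ⟨Int.floor_nonneg.2 ht.1, Int.floor_lt.2 (by exact_mod_cast ht.2)⟩
  intro t ht t' ht' h
  obtain ⟨a0, a1⟩ := aux t ht
  obtain ⟨b0, b1⟩ := aux t' ht'
  have key : ⌊t⌋ = ⌊t'⌋ ∧ Int.fract t = Int.fract t' := by
    rcases le_total ⌊t⌋ ⌊t'⌋ with hle | hle
    · exact side_inj k a0 hle b1 (Int.fract_nonneg _) (Int.fract_lt_one _) (Int.fract_nonneg _)
        (Int.fract_lt_one _) h
    · have := side_inj k b0 hle a1 (Int.fract_nonneg _) (Int.fract_lt_one _) (Int.fract_nonneg _)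
        (Int.fract_lt_one _) h.symm
      exact ⟨this.1.symm, this.2.symm⟩
  rw [← Int.floor_add_fract t, ← Int.floor_add_fract t', key.1, key.2]

lemma isQuasigeodesic (k : ℕ) (hk : 0 < k) : IsSimpleClosedQuasigeodesic V 4 (γ k) where
  pos := by norm_num
  periodic := periodic_γ k
  simple := injOn_γ k
  mem_surface := mem_surface_γ k
  angles := angles_γ k hk

lemma vertex_mem (k : ℕ) (hk : 0 < k) : V 0 ∈ range (γ k) := by
  refine ⟨0, ?_⟩
  have hk' : (0 : ℝ) < k := by exact_mod_cast hk
  have := γ_of (κ := (k : ℝ)) (m := 0) (s := 0) le_rfl zero_lt_one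
  rw [Int.cast_zero, add_zero] at this
  rw [this, side_0 (by norm_num), low hk' (by norm_num) (by norm_num)]
  apply ext3 <;> simp [V]

/-- the point of the edge `V 0 V 2` at height `1/k` -/
noncomputable def pt (k : ℕ) : E3 := !₂[1 - 2 * (1 / (k : ℝ)), 1, 1 - 2 * (1 / (k : ℝ))]

lemma pt_mem (k : ℕ) (hk : 2 ≤ k) : pt k ∈ range (γ k) := by
  have hk2 : (2 : ℝ) ≤ k := by exact_mod_cast hk
  have hk0 : (0 : ℝ) < k := by linarith
  have hinv : 1 / (k : ℝ) ≤ 1 / 2 := one_div_le_one_div_of_le (by norm_num) hk2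
  have hinv0 : 0 < 1 / (k : ℝ) := by positivity
  refine ⟨((2 : ℤ) : ℝ) + (1 - 1 / (k : ℝ)), ?_⟩
  rw [γ_of (by linarith) (by linarith)]
  obtain ⟨c0, c1, c2⟩ := coord2 (κ := (k : ℝ)) (m := 2) (by norm_num) (s := 1 - 1 / (k : ℝ))
    (by linarith) (by linarith)
  have e : 1 - (1 - 1 / (k : ℝ)) = 1 / k := by ring
  rw [e] at c1 c2
  have e2 : (k : ℝ) * (1 / k) = 1 := by field_simp
  rw [e2] at c1 c2
  have e3 : T 1 = -1 := by rw [T_01 zero_le_one le_rfl]; norm_num
  rw [e3] at c1
  rw [T_add_one, T_01 hinv0.le (by linarith)] at c2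
  apply ext3
  · rw [c0]; simp [pt]; ring
  · rw [c1]; simp [pt]
  · rw [c2]; simp [pt]

lemma pt_notMem {k k' : ℕ} (hk : 0 < k) (hkk : k < k') : pt k' ∉ range (γ k) := by
  rintro ⟨t, ht⟩
  have hk0 : (0 : ℝ) < k := by exact_mod_cast hk
  have hkk' : (k : ℝ) < k' := by exact_mod_cast hkk
  have hk0' : (0 : ℝ) < k' := by linarith
  have hinv0 : 0 < 1 / (k' : ℝ) := by positivity
  have hlt : (k : ℝ) * (1 / k') < 1 := by
    rw [mul_one_div, div_lt_one hk0']; exact hkk'
  have hpos : 0 < (k : ℝ) * (1 / k') := by positivity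
  have hinv1 : 1 / (k' : ℝ) < 1 := by
    rw [div_lt_one hk0']
    have : (1 : ℝ) ≤ k := by exact_mod_cast hk
    linarith
  have e0 := congrArg (fun z : E3 => z 0) ht
  have e1 := congrArg (fun z : E3 => z 1) ht
  have p0 : pt k' 0 = 1 - 2 * (1 / (k' : ℝ)) := rfl
  have p1 : pt k' 1 = 1 := rfl
  simp only [p0, p1] at e0 e1
  have h0 := Int.fract_nonneg t
  have h1 := Int.fract_lt_one t
  unfold γ at e0 e1
  set s := Int.fract t with hs
  rcases mod4 ⌊t⌋ with h | h | h | h
  · obtain ⟨c0, c1, c2⟩ := coord0 (κ := (k : ℝ)) h h0 h1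
    have e : s = 1 / (k' : ℝ) := by linarith
    rw [c1, e, T_01 hpos.le hlt.le] at e1
    linarith
  · obtain ⟨c0, c1, c2⟩ := coord1 k h h0 h1
    linarith
  · obtain ⟨c0, c1, c2⟩ := coord2 (κ := (k : ℝ)) h h0 h1
    have e : 1 - s = 1 / (k' : ℝ) := by linarith
    rw [c1, e, T_01 hpos.le hlt.le] at e1
    linarith
  · obtain ⟨c0, c1, c2⟩ := coord3 (k : ℝ) h h0 h1
    linarith

/-- There is a tetrahedron (the regular one) with infinitely many simple closed quasigeodesics
(distinct as point sets) which pass through a vertex. -/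
theorem main : ∃ V : Fin 4 → E3, AffineIndependent ℝ V ∧
    {S : Set E3 | ∃ (L : ℝ) (γ : ℝ → E3), IsSimpleClosedQuasigeodesic V L γ ∧ S = range γ ∧
      ∃ a, V a ∈ S}.Infinite := by
  refine ⟨V, affineIndependent, ?_⟩
  apply Set.infinite_of_injective_forall_mem (f := fun k : ℕ => range (γ ((k + 2 : ℕ) : ℝ)))
  · have key : ∀ k k' : ℕ, k < k' →
        range (γ ((k + 2 : ℕ) : ℝ)) ≠ range (γ ((k' + 2 : ℕ) : ℝ)) := by
      intro k k' hkk h
      have h1 := pt_mem (k' + 2) (by omega)
      have h2 := pt_notMem (k := k + 2) (k' := k' + 2) (by omega) (by omega)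
      rw [h] at h2
      exact h2 h1
    intro k k' h
    by_contra hne
    rcases lt_or_gt_of_ne hne with h1 | h1
    · exact key k k' h1 h
    · exact key k' k h1 h.symm
  · intro k
    exact ⟨4, γ ((k + 2 : ℕ) : ℝ), isQuasigeodesic (k + 2) (by omega), rfl, 0,
      vertex_mem (k + 2) (by omega)⟩

end Pool.Agent.X147.Quasi
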