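import Mathlib

/-!
A graph whose upper 4-domination number is much smaller than its upper 3-domination number.
-/

set_option autoImplicit false

namespace Pool.Agent.X147.UK

open Finset

/-- ordered pairs of distinct core vertices -/
abbrev P (r : ℕ) : Type := {p : Fin r × Fin r // p.1 ≠ p.2}

/-- ordered triples of distinct core vertices -/
abbrev Tr (r : ℕ) : Type :=
  {t : Fin r × Fin r × Fin r // t.1 ≠ t.2.1 ∧ t.1 ≠ t.2.2 ∧ t.2.1 ≠ t.2.2}

abbrev I (r s : ℕ) : Type := P r × Bool × Fin s

abbrev J (r : ℕ) : Type := Tr r × Bool × Fin 4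

abbrev A (r s : ℕ) : Type := Fin r ⊕ (I r s ⊕ Unit)

abbrev L (r s : ℕ) : Type := I r s ⊕ J r

/-- adjacency between the heavy clique and the light part -/
def AL {r s : ℕ} : A r s → L r s → Prop
  | .inl x, .inl u => x = u.1.1.1 ∨ x = u.1.1.2
  | .inl x, .inr t => x = t.1.1.1 ∨ x = t.1.1.2.1 ∨ x = t.1.1.2.2
  | .inr (.inl y), .inl u => y = u
  | .inr (.inl _), .inr _ => False
  | .inr (.inr _), _ => False

/-- closed adjacency inside the light part -/
def LL {r s : ℕ} : L r s → L r s → Prop
  | .inl _, .inl _ => True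
  | .inl u, .inr t => u.2.1 = !t.2.1
  | .inr t, .inl u => u.2.1 = !t.2.1
  | .inr t, .inr t' => t' = t

/-- closed adjacency -/
def C {r s : ℕ} : A r s ⊕ L r s → A r s ⊕ L r s → Prop
  | .inl _, .inl _ => True
  | .inl a, .inr l => AL a l
  | .inr l, .inl a => AL a l
  | .inr l, .inr m => LL l m

theorem C_refl {r s : ℕ} (v : A r s ⊕ L r s) : C v v := by
  rcases v with a | (u | t) <;> simp [C, LL]

theorem C_symm {r s : ℕ} (v w : A r s ⊕ L r s) (h : C v w) : C w v := by
  rcases v with a | (u | t) <;> rcases w with a' | (u' | t') <;> simp_all [C, LL]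

/-- the graph -/
def G (r s : ℕ) : SimpleGraph (A r s ⊕ L r s) where
  Adj v w := v ≠ w ∧ C v w
  symm := ⟨fun v w h => ⟨h.1.symm, C_symm v w h.2⟩⟩
  loopless := ⟨fun _ h => h.1 rfl⟩

theorem closed_iff {r s : ℕ} (v w : A r s ⊕ L r s) :
    (w = v ∨ (G r s).Adj v w) ↔ C v w := by
  constructor
  · rintro (rfl | h)
    · exact C_refl _
    · exact h.2
  · intro h
    by_cases hw : w = v
    · exact Or.inl hw
    · exact Or.inr ⟨fun e => hw e.symm, h⟩

theorem sum2 {r : ℕ} (a b : Fin r) (h : a ≠ b) (c : Fin r → ℕ) (p : Fin r → Prop)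
    [DecidablePred p] (hp : ∀ x, p x ↔ (x = a ∨ x = b)) :
    ∑ x, (if p x then c x else 0) = c a + c b := by
  rw [← Finset.sum_filter]
  have : (univ.filter p) = {a, b} := by
    ext x; simp [hp]
  rw [this, Finset.sum_pair h]

theorem sum3 {r : ℕ} (a b d : Fin r) (h1 : a ≠ b) (h2 : a ≠ d) (h3 : b ≠ d) (c : Fin r → ℕ)
    (p : Fin r → Prop) [DecidablePred p] (hp : ∀ x, p x ↔ (x = a ∨ x = b ∨ x = d)) :
    ∑ x, (if p x then c x else 0) = c a + c b + c d := by
  rw [← Finset.sum_filter]
  have : (univ.filter p) = {a, b, d} := by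
    ext x; simp [hp]
  rw [this, Finset.sum_insert (by simp [h1, h2]), Finset.sum_pair h3]
  ring

theorem sumT {α : Type} [Fintype α] (f : α → ℕ) (p : α → Prop) [DecidablePred p]
    (hp : ∀ x, p x) : ∑ x, (if p x then f x else 0) = ∑ x, f x :=
  Finset.sum_congr rfl fun x _ => if_pos (hp x)

theorem sumF {α : Type} [Fintype α] (f : α → ℕ) (p : α → Prop) [DecidablePred p]
    (hp : ∀ x, ¬ p x) : ∑ x, (if p x then f x else 0) = 0 :=
  Finset.sum_eq_zero fun x _ => if_neg (hp x)

theorem sum1 {α : Type} [Fintype α] (f : α → ℕ) (p : α → Prop) [DecidablePred p] (a : α)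
    (hp : ∀ x, p x ↔ x = a) : ∑ x, (if p x then f x else 0) = f a := by
  classical
  rw [Finset.sum_eq_single a]
  · exact if_pos ((hp a).2 rfl)
  · intro b _ hb
    exact if_neg (fun h => hb ((hp b).1 h))
  · intro h
    exact absurd (Finset.mem_univ a) h

theorem sumC {α : Type} [Fintype α] (f : α → ℕ) (p q : α → Prop) [DecidablePred p]
    [DecidablePred q] (hp : ∀ x, p x ↔ q x) :
    ∑ x, (if p x then f x else 0) = ∑ x, (if q x then f x else 0) :=
  Finset.sum_congr rfl fun x _ => if_congr (hp x) rfl rfl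

/-- the sum over a closed neighbourhood -/
noncomputable def S {r s : ℕ} (g : A r s ⊕ L r s → ℕ) (v : A r s ⊕ L r s) : ℕ := by
  classical exact ∑ w, if C v w then g w else 0

section general

variable {r s : ℕ} (g : A r s ⊕ L r s → ℕ)

/-- total weight of the heavy clique -/
def gA : ℕ := ∑ a : A r s, g (.inl a)

theorem S_A (a : A r s) (l : L r s) (h : AL a l) : gA g + g (.inr l) ≤ S g (.inl a) := by
  classical
  unfold S
  rw [Fintype.sum_sum_type]
  rw [sumT (fun x : A r s => g (.inl x)) (fun x => C (.inl a) (.inl x)) (fun x => trivial)]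
  unfold gA
  have : g (.inr l) ≤ ∑ x : L r s, (if C (.inl a) (.inr x) then g (.inr x) else 0) := by
    have := Finset.single_le_sum (f := fun x : L r s => if C (.inl a) (.inr x) then g (.inr x) else 0)
      (fun _ _ => Nat.zero_le _) (Finset.mem_univ l)
    have h' : C (.inl a) (.inr l) := h
    simpa [h'] using this
  omega

theorem S_A' (a : A r s) : gA g ≤ S g (.inl a) := by
  classical
  unfold S
  rw [Fintype.sum_sum_type]
  rw [sumT (fun x : A r s => g (.inl x)) (fun x => C (.inl a) (.inl x)) (fun x => trivial)]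
  unfold gA
  omega

theorem S_o : S g (.inl (.inr (.inr ()))) = gA g := by
  classical
  unfold S gA
  rw [Fintype.sum_sum_type]
  rw [sumT (fun x : A r s => g (.inl x)) (fun x => C (.inl (.inr (.inr ()))) (.inl x))
      (fun x => trivial),
    sumF (fun x : L r s => g (.inr x)) (fun x => C (.inl (.inr (.inr ()))) (.inr x))
      (fun x => by simp [C, AL])]
  rfl

/-- weights on the first light clique, by colour -/
def aU (b : Bool) : ℕ := ∑ u : I r s, if u.2.1 = b then g (.inr (.inl u)) else 0

/-- weights on the independent part, by colour -/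
def bT (b : Bool) : ℕ := ∑ t : J r, if t.2.1 = b then g (.inr (.inr t)) else 0

theorem sumU : ∑ u : I r s, g (.inr (.inl u)) = aU g true + aU g false := by
  unfold aU
  rw [← Finset.sum_add_distrib]
  refine Finset.sum_congr rfl fun u _ => ?_
  rcases u.2.1 <;> simp

theorem S_u (u : I r s) : S g (.inr (.inl u)) =
    (g (.inl (.inl u.1.1.1)) + g (.inl (.inl u.1.1.2))) + g (.inl (.inr (.inl u)))
      + (aU g true + aU g false) + bT g (!u.2.1) := by
  classical
  unfold S
  rw [Fintype.sum_sum_type, Fintype.sum_sum_type, Fintype.sum_sum_type, Fintype.sum_sum_type]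
  rw [sum2 u.1.1.1 u.1.1.2 u.1.2 (fun x => g (.inl (.inl x)))
      (fun x => C (.inr (.inl u)) (.inl (.inl x))) (fun x => by simp [C, AL]),
    sum1 (fun y => g (.inl (.inr (.inl y)))) (fun y => C (.inr (.inl u)) (.inl (.inr (.inl y)))) u
      (fun x => by simp [C, AL]),
    sumF (fun y => g (.inl (.inr (.inr y)))) (fun y => C (.inr (.inl u)) (.inl (.inr (.inr y))))
      (fun x => by simp [C, AL]),
    sumT (fun y => g (.inr (.inl y))) (fun y => C (.inr (.inl u)) (.inr (.inl y)))
      (fun x => trivial),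
    sumC (fun y => g (.inr (.inr y))) (fun y => C (.inr (.inl u)) (.inr (.inr y)))
      (fun t => t.2.1 = !u.2.1)
      (fun x => by simp only [C, LL]; rcases u.2.1 <;> rcases x.2.1 <;> simp), sumU g]
  unfold bT
  ring

theorem S_t (t : J r) : S g (.inr (.inr t)) =
    (g (.inl (.inl t.1.1.1)) + g (.inl (.inl t.1.1.2.1)) + g (.inl (.inl t.1.1.2.2)))
      + aU g (!t.2.1) + g (.inr (.inr t)) := by
  classical
  unfold S
  rw [Fintype.sum_sum_type, Fintype.sum_sum_type, Fintype.sum_sum_type, Fintype.sum_sum_type]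
  rw [sum3 t.1.1.1 t.1.1.2.1 t.1.1.2.2 t.1.2.1 t.1.2.2.1 t.1.2.2.2 (fun x => g (.inl (.inl x)))
      (fun x => C (.inr (.inr t)) (.inl (.inl x))) (fun x => by simp [C, AL]),
    sumF (fun y => g (.inl (.inr (.inl y)))) (fun y => C (.inr (.inr t)) (.inl (.inr (.inl y))))
      (fun x => by simp [C, AL]),
    sumF (fun y => g (.inl (.inr (.inr y)))) (fun y => C (.inr (.inr t)) (.inl (.inr (.inr y))))
      (fun x => by simp [C, AL]),
    sumC (fun y => g (.inr (.inl y))) (fun y => C (.inr (.inr t)) (.inr (.inl y)))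
      (fun u => u.2.1 = !t.2.1) (fun x => by simp [C, LL]),
    sum1 (fun y => g (.inr (.inr y))) (fun y => C (.inr (.inr t)) (.inr (.inr y))) t
      (fun x => by simp [C, LL])]
  unfold aU
  ring

end general

/-! ### the counting lemma -/

theorem sum_P_le (r : ℕ) (f : Fin r × Fin r → ℕ) :
    ∑ p : P r, f p.1 ≤ ∑ q : Fin r × Fin r, f q := by
  classical
  have : ∑ p : P r, f p.1 = ∑ q ∈ univ.filter (fun q : Fin r × Fin r => q.1 ≠ q.2), f q := by
    rw [Finset.sum_subtype (p := fun q : Fin r × Fin r => q.1 ≠ q.2)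
      (univ.filter (fun q : Fin r × Fin r => q.1 ≠ q.2)) (by simp) f]
  rw [this]
  exact Finset.sum_le_sum_of_subset (Finset.filter_subset _ _)

theorem bound (r m : ℕ) (hm : m ≤ 4) (c : Fin r → ℕ)
    (h : ∀ a b d, a ≠ b → a ≠ d → b ≠ d → m ≤ c a + c b + c d) :
    ∑ p : P r, (m - (c p.1.1 + c p.1.2)) ≤ (if m = 3 then Fintype.card (P r) else 0) + 16 * r := by
  classical
  set N : Finset (Fin r) := univ.filter (fun x => 3 * c x < m) with hN
  have hcard : N.card ≤ 2 := by
    by_contra hc
    obtain ⟨a, ha, b, hb, d, hd, h1, h2, h3⟩ := Finset.two_lt_card.mp (by omega : 2 < N.card)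
    have := h a b d h1 h2 h3
    simp only [hN, mem_filter, mem_univ, true_and] at ha hb hd
    omega
  have hp : ∀ p : P r, (m - (c p.1.1 + c p.1.2)) ≤
      (if m = 3 then 1 else 0) + 4 * ((if p.1.1 ∈ N then 1 else 0) + (if p.1.2 ∈ N then 1 else 0)) := by
    intro p
    simp only [hN, mem_filter, mem_univ, true_and]
    split_ifs <;> omega
  have hs := Finset.sum_le_sum (s := univ) (fun p _ => hp p)
  rw [Finset.sum_add_distrib, ← Finset.mul_sum, Finset.sum_add_distrib] at hs
  have h1 : ∑ p : P r, (if p.1.1 ∈ N then 1 else 0) ≤ 2 * r := by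
    refine (sum_P_le r (fun q => if q.1 ∈ N then 1 else 0)).trans ?_
    rw [Fintype.sum_prod_type_right]
    simp only [Finset.sum_boole, Finset.filter_mem_eq_inter, Finset.univ_inter,
      Finset.sum_const, Finset.card_univ, Fintype.card_fin, smul_eq_mul]
    have : (N.card : ℕ) * r ≤ 2 * r := Nat.mul_le_mul_right r hcard
    simpa [mul_comm] using this
  have h2 : ∑ p : P r, (if p.1.2 ∈ N then 1 else 0) ≤ 2 * r := by
    refine (sum_P_le r (fun q => if q.2 ∈ N then 1 else 0)).trans ?_
    rw [Fintype.sum_prod_type]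
    simp only [Finset.sum_boole, Finset.filter_mem_eq_inter, Finset.univ_inter,
      Finset.sum_const, Finset.card_univ, Fintype.card_fin, smul_eq_mul]
    have : (N.card : ℕ) * r ≤ 2 * r := Nat.mul_le_mul_right r hcard
    simpa [mul_comm] using this
  have h3 : ∑ p : P r, (if m = 3 then 1 else 0) = (if m = 3 then Fintype.card (P r) else 0) := by
    split_ifs <;> simp
  rw [h3] at hs
  omega

/-! ### the upper bound for `k = 4` -/

section upper

variable {r s : ℕ} (g : A r s ⊕ L r s → ℕ)

theorem exists_zero (b : Bool) (τ : Tr r) (h : bT g b ≤ 3) :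
    ∃ i : Fin 4, g (.inr (.inr (τ, b, i))) = 0 := by
  classical
  by_contra hc
  push Not at hc
  have h1 : ∑ i : Fin 4, g (.inr (.inr (τ, b, i))) ≤ bT g b := by
    unfold bT
    rw [Fintype.sum_prod_type]
    refine le_trans ?_ (Finset.single_le_sum (f := fun x : Tr r =>
      ∑ y : Bool × Fin 4, if (x, y).2.1 = b then g (.inr (.inr (x, y))) else 0)
      (fun _ _ => Nat.zero_le _) (Finset.mem_univ τ))
    rw [Fintype.sum_prod_type]
    refine le_trans ?_ (Finset.single_le_sum (f := fun x : Bool =>
      ∑ y : Fin 4, if (τ, x, y).2.1 = b then g (.inr (.inr (τ, x, y))) else 0)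
      (fun _ _ => Nat.zero_le _) (Finset.mem_univ b))
    simp
  have h2 : ∑ _i : Fin 4, 1 ≤ ∑ i : Fin 4, g (.inr (.inr (τ, b, i))) :=
    Finset.sum_le_sum fun i _ => Nat.pos_of_ne_zero (hc i)
  simp at h2
  omega

/-- the leaf sum -/
def F (b : Bool) : ℕ :=
  ∑ p : P r, (4 - ((g (.inl (.inl p.1.1)) + g (.inl (.inl p.1.2)))
      + (aU g true + aU g false) + bT g (!b)))

theorem F_le (hdom : ∀ v, 4 ≤ S g v) :
    F g true + F g false ≤ Fintype.card (P r) + 32 * r := by
  set c : Fin r → ℕ := fun x => g (.inl (.inl x)) with hc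
  have htri : ∀ b : Bool, bT g (!b) ≤ 3 → ∀ x y z, x ≠ y → x ≠ z → y ≠ z →
      4 - aU g b ≤ c x + c y + c z := by
    intro b hb x y z h1 h2 h3
    obtain ⟨i, hi⟩ := exists_zero g (!b) ⟨(x, y, z), h1, h2, h3⟩ hb
    have := hdom (.inr (.inr (⟨(x, y, z), h1, h2, h3⟩, !b, i)))
    rw [S_t, hi] at this
    simp only [Bool.not_not] at this
    simp only [hc]
    omega
  have hzero : ∀ b : Bool, 4 ≤ bT g (!b) → F g b = 0 := by
    intro b hb
    unfold F
    refine Finset.sum_eq_zero fun p _ => ?_
    omega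
  have hB : ∀ (b : Bool) (m : ℕ), m ≤ 4 → bT g (!b) ≤ 3 →
      (∀ x y z, x ≠ y → x ≠ z → y ≠ z → m ≤ c x + c y + c z) →
      4 - (aU g true + aU g false) ≤ m →
      F g b ≤ (if m = 3 then Fintype.card (P r) else 0) + 16 * r := by
    intro b m hm hb h hle
    refine le_trans ?_ (bound r m hm c h)
    unfold F
    refine Finset.sum_le_sum fun p _ => ?_
    simp only [hc]
    omega
  have hgen : ∀ b : Bool, F g b ≤ (if 4 - aU g b = 3 then Fintype.card (P r) else 0) + 16 * r := by
    intro b
    by_cases hb : bT g (!b) ≤ 3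
    · refine hB b (4 - aU g b) (by omega) hb (htri b hb) ?_
      cases b <;> omega
    · rw [hzero b (by omega)]
      exact Nat.zero_le _
  by_cases hb1 : bT g (!true) ≤ 3
  · by_cases hb2 : bT g (!false) ≤ 3
    · by_cases h1 : aU g true = 1 ∧ aU g false = 1
      · have e1 := hB true 2 (by omega) hb1 (fun x y z h1' h2' h3' => by
          have := htri true hb1 x y z h1' h2' h3'; omega) (by omega)
        have e2 := hB false 2 (by omega) hb2 (fun x y z h1' h2' h3' => by
          have := htri true hb1 x y z h1' h2' h3'; omega) (by omega)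
        simp only [show ¬ (2 = 3) by omega, if_false] at e1 e2
        omega
      · have e1 := hgen true
        have e2 := hgen false
        split_ifs at e1 e2 <;> omega
    · have e1 := hgen true
      have e2 := hzero false (by omega)
      split_ifs at e1 <;> omega
  · have e1 := hgen false
    have e2 := hzero true (by omega)
    split_ifs at e1 <;> omega

/-- a minimal function, in terms of `C` and `S` -/
def Mn (k : ℕ) : Prop :=
  (∀ v, g v ≤ k) ∧ (∀ v, k ≤ S g v) ∧ ∀ v, 0 < g v → ∃ w, C v w ∧ S g w = k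

theorem total_U (h : Mn g 4) (hJ : 0 < Fintype.card (J r)) :
    aU g true + aU g false ≤ 4 * Fintype.card (J r) := by
  classical
  obtain ⟨h1, h2, h3⟩ := h
  have hA : 4 ≤ gA g := by
    have := h2 (.inl (.inr (.inr ())))
    rwa [S_o] at this
  by_cases hu : ∃ u : I r s, S g (.inr (.inl u)) = 4
  · obtain ⟨u, hu⟩ := hu
    rw [S_u] at hu
    omega
  · push Not at hu
    rw [← sumU]
    have key : ∀ u : I r s, g (.inr (.inl u)) ≤
        ∑ t : J r, if (C (.inr (.inl u)) (.inr (.inr t)) ∧ S g (.inr (.inr t)) = 4) then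
          g (.inr (.inl u)) else 0 := by
      intro u
      rcases Nat.eq_zero_or_pos (g (.inr (.inl u))) with h0 | hpos
      · rw [h0]; exact Nat.zero_le _
      · obtain ⟨w, hw, hS⟩ := h3 _ hpos
        rcases w with a | (u' | t)
        · exfalso
          have := S_A g a (.inl u) hw
          omega
        · exact absurd hS (hu u')
        · have := Finset.single_le_sum (f := fun t : J r =>
            if (C (.inr (.inl u)) (.inr (.inr t)) ∧ S g (.inr (.inr t)) = 4) then
              g (.inr (.inl u)) else 0) (fun _ _ => Nat.zero_le _) (Finset.mem_univ t)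
          simpa [hw, hS] using this
    refine (Finset.sum_le_sum fun u _ => key u).trans ?_
    rw [Finset.sum_comm]
    have : ∀ t ∈ (univ : Finset (J r)), ∑ u : I r s,
        (if (C (.inr (.inl u)) (.inr (.inr t)) ∧ S g (.inr (.inr t)) = 4) then
          g (.inr (.inl u)) else 0) ≤ 4 := by
      intro t _
      by_cases ht : S g (.inr (.inr t)) = 4
      · simp only [ht, and_true]
        rw [sumC (fun u => g (.inr (.inl u))) (fun u => C (.inr (.inl u)) (.inr (.inr t)))
          (fun u => u.2.1 = !t.2.1) (fun x => by simp [C, LL])]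
        rw [S_t] at ht
        have : aU g (!t.2.1) ≤ 4 := by omega
        exact this
      · simp [ht]
    refine (Finset.sum_le_sum this).trans ?_
    simp [mul_comm]

theorem total_T (h : Mn g 4) : ∑ t : J r, g (.inr (.inr t)) ≤ 4 * Fintype.card (J r) := by
  refine (Finset.sum_le_sum fun t _ => h.1 (.inr (.inr t))).trans ?_
  simp [mul_comm]

theorem total (h : Mn g 4) (hJ : 0 < Fintype.card (J r)) :
    ∑ v, g v ≤ 4 * r + 4 + 8 * Fintype.card (J r) + s * (Fintype.card (P r) + 32 * r) := by
  classical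
  have hU := total_U g h hJ
  have hT := total_T g h
  obtain ⟨h1, h2, h3⟩ := h
  have hA : 4 ≤ gA g := by
    have := h2 (.inl (.inr (.inr ())))
    rwa [S_o] at this
  have hsum : ∑ v, g v = gA g + ((aU g true + aU g false) + ∑ t : J r, g (.inr (.inr t))) := by
    rw [Fintype.sum_sum_type, Fintype.sum_sum_type (fun x : L r s => g (.inr x)), sumU]
    rfl
  rw [hsum]
  by_cases hA4 : gA g = 4
  · omega
  · have hA5 : 4 < gA g := by omega
    have hgA : gA g = ∑ x : Fin r, g (.inl (.inl x)) + (∑ y : I r s, g (.inl (.inr (.inl y)))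
        + g (.inl (.inr (.inr ())))) := by
      unfold gA
      rw [Fintype.sum_sum_type, Fintype.sum_sum_type]
      simp
    have hX : ∑ x : Fin r, g (.inl (.inl x)) ≤ 4 * r := by
      refine (Finset.sum_le_sum fun x _ => h1 (.inl (.inl x))).trans ?_
      simp [mul_comm]
    have ho := h1 (.inl (.inr (.inr ())))
    have hy : ∀ y : I r s, g (.inl (.inr (.inl y))) ≤
        4 - ((g (.inl (.inl y.1.1.1)) + g (.inl (.inl y.1.1.2)))
          + (aU g true + aU g false) + bT g (!y.2.1)) := by
      intro y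
      rcases Nat.eq_zero_or_pos (g (.inl (.inr (.inl y)))) with h0 | hpos
      · rw [h0]; exact Nat.zero_le _
      · obtain ⟨w, hw, hS⟩ := h3 _ hpos
        rcases w with a | (u | t)
        · have := S_A' g a
          omega
        · have hu : y = u := hw
          subst hu
          rw [S_u] at hS
          omega
        · exact absurd hw (by simp [C, AL])
    have hY : ∑ y : I r s, g (.inl (.inr (.inl y))) ≤ s * (F g true + F g false) := by
      refine (Finset.sum_le_sum fun y _ => hy y).trans ?_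
      rw [Fintype.sum_prod_type]
      simp only [Fintype.sum_prod_type (f := fun y : Bool × Fin s => _), Fintype.sum_bool,
        Finset.sum_const, Finset.card_univ, Fintype.card_fin, smul_eq_mul]
      rw [Finset.sum_add_distrib, ← Finset.mul_sum, ← Finset.mul_sum]
      unfold F
      rw [mul_add]
    have hF := F_le g h2
    have hY' := hY.trans (Nat.mul_le_mul_left s hF)
    omega

end upper

/-! ### the function for `k = 3` -/

/-- weight one on the core and on the leaves -/
def g3 {r s : ℕ} : A r s ⊕ L r s → ℕ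
  | .inl (.inl _) => 1
  | .inl (.inr (.inl _)) => 1
  | _ => 0

theorem total_g3 (r s : ℕ) :
    ∑ v : A r s ⊕ L r s, g3 v = r + Fintype.card (P r) * (2 * s) := by
  rw [Fintype.sum_sum_type, Fintype.sum_sum_type, Fintype.sum_sum_type]
  simp [g3]

theorem mn_g3 {r s : ℕ} (hr : 3 ≤ r) : Mn (g3 (r := r) (s := s)) 3 := by
  classical
  have ha : ∀ b, aU (g3 (r := r) (s := s)) b = 0 := by
    intro b; unfold aU; exact Finset.sum_eq_zero fun u _ => by simp [g3]
  have hb : ∀ b, bT (g3 (r := r) (s := s)) b = 0 := by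
    intro b; unfold bT; exact Finset.sum_eq_zero fun u _ => by simp [g3]
  have hSu : ∀ u : I r s, S (g3 (r := r) (s := s)) (.inr (.inl u)) = 3 := by
    intro u
    rw [S_u, ha, ha, hb]
    rfl
  have hSt : ∀ t : J r, S (g3 (r := r) (s := s)) (.inr (.inr t)) = 3 := by
    intro t
    rw [S_t, ha]
    rfl
  have hgA : 3 ≤ gA (g3 (r := r) (s := s)) := by
    unfold gA
    rw [Fintype.sum_sum_type]
    simp [g3]
    omega
  refine ⟨?_, ?_, ?_⟩
  · rintro ((x | (y | o)) | (u | t)) <;> simp [g3]
  · rintro (a | (u | t))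
    · exact hgA.trans (S_A' _ a)
    · exact (hSu u).ge
    · exact (hSt t).ge
  · rintro ((x | (y | o)) | (u | t)) hv
    · -- a core vertex: some triple contains it
      obtain ⟨y, z, hxy, hxz, hyz⟩ : ∃ y z : Fin r, x ≠ y ∧ x ≠ z ∧ y ≠ z := by
        have hc : 2 ≤ (univ.erase x).card := by
          rw [Finset.card_erase_of_mem (Finset.mem_univ x)]
          simp
          omega
        obtain ⟨y, hy, z, hz, hyz⟩ := Finset.one_lt_card.mp (by omega : 1 < (univ.erase x).card)
        exact ⟨y, z, (Finset.ne_of_mem_erase hy).symm, (Finset.ne_of_mem_erase hz).symm, hyz⟩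
      refine ⟨.inr (.inr (⟨(x, y, z), hxy, hxz, hyz⟩, true, 0)), ?_, hSt _⟩
      exact Or.inl rfl
    · exact ⟨.inr (.inl y), rfl, hSu y⟩
    · simp [g3] at hv
    · simp [g3] at hv
    · simp [g3] at hv

theorem card_P (r : ℕ) : Fintype.card (P r) = r * r - r := by
  classical
  rw [Fintype.card_subtype]
  have := Finset.offDiag_card (univ : Finset (Fin r))
  rw [Finset.card_univ, Fintype.card_fin] at this
  rw [← this]
  congr 1
  ext p
  simp

end Pool.Agent.X147.UK
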