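import Mathlib

set_option autoImplicit false

namespace Pool.Agent.X147.VF

open Finset

variable {V E : Type} [Fintype V] [Fintype E] [DecidableEq V] [DecidableEq E]

/-- incidence coefficient of the edge `e` at the vertex `v`: `+1` tail, `-1` head, `0` loop. -/
def inc (src tgt : E → V) (e : E) (v : V) : ℤ :=
  (if src e = v then 1 else 0) - (if tgt e = v then 1 else 0)

omit [Fintype E] [DecidableEq E] in
theorem sum_inc_mul {R : Type} [CommRing R] (src tgt : E → V) (e : E) (g : V → R) :
    ∑ v, (inc src tgt e v : R) * g v = g (src e) - g (tgt e) := by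
  simp only [inc, Int.cast_sub, sub_mul, Finset.sum_sub_distrib]
  congr 1 <;> simp

omit [Fintype V] in
/-- an edge set containing no odd cut lies in an even subgraph -/
theorem exists_even_superset [Fintype V] (src tgt : E → V) (S : Finset E)
    (h : ∀ g : V → ZMod 2, (∀ e ∉ S, g (src e) = g (tgt e)) →
      ∑ e ∈ S, (g (src e) - g (tgt e)) = 0) :
    ∃ x : E → ZMod 2, (∀ e ∈ S, x e = 1) ∧
      ∀ v, ∑ e, (inc src tgt e v : ZMod 2) * x e = 0 := by
  classical
  let D : (E → ZMod 2) →ₗ[ZMod 2] (V → ZMod 2) :=
    LinearMap.pi fun v => ∑ e, (inc src tgt e v : ZMod 2) • LinearMap.proj e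
  have hD : ∀ x v, D x v = ∑ e, (inc src tgt e v : ZMod 2) * x e := by
    intro x v
    simp [D, LinearMap.sum_apply]
  let W : Submodule (ZMod 2) (E → ZMod 2) :=
    { carrier := {x | ∀ e ∈ S, x e = 0}
      add_mem' := by
        intro a b ha hb e he
        simp [ha e he, hb e he]
      zero_mem' := by
        intro e _
        rfl
      smul_mem' := by
        intro c a ha e he
        simp [ha e he] }
  let one : E → ZMod 2 := fun e => if e ∈ S then 1 else 0
  by_cases hm : D one ∈ W.map D
  · obtain ⟨w, hw, hwD⟩ := hm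
    refine ⟨one - w, ?_, ?_⟩
    · intro e he
      have : w e = 0 := hw e he
      simp [one, he, this]
    · intro v
      rw [← hD, map_sub, hwD, sub_self]
      rfl
  · exfalso
    obtain ⟨θ, hθ, hker⟩ := Submodule.exists_le_ker_of_notMem hm
    apply hθ
    let g : V → ZMod 2 := fun v => θ (Pi.single v 1)
    have hθs : ∀ w : V → ZMod 2, θ w = ∑ v, w v * g v := by
      intro w
      rw [LinearMap.pi_apply_eq_sum_univ θ w]
      refine Finset.sum_congr rfl fun v _ => ?_
      rw [smul_eq_mul]
      congr 2
      ext u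
      simp [Pi.single_apply, eq_comm]
    have hθD : ∀ x : E → ZMod 2, θ (D x) = ∑ e, (g (src e) - g (tgt e)) * x e := by
      intro x
      rw [hθs]
      simp_rw [hD, Finset.sum_mul]
      rw [Finset.sum_comm]
      refine Finset.sum_congr rfl fun e _ => ?_
      rw [← sum_inc_mul src tgt e g, Finset.sum_mul]
      refine Finset.sum_congr rfl fun v _ => by ring
    have hout : ∀ e ∉ S, g (src e) = g (tgt e) := by
      intro e he
      have hmem : D (Pi.single e 1) ∈ W.map D := by
        refine ⟨Pi.single e 1, ?_, rfl⟩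
        intro e' he'
        have : e' ≠ e := by
          rintro rfl
          exact he he'
        simp [this]
      have h0 : θ (D (Pi.single e 1)) = 0 := hker hmem
      rw [hθD] at h0
      simp only [Pi.single_apply, mul_ite, mul_one, mul_zero, Finset.sum_ite_eq', Finset.mem_univ,
        if_true] at h0
      exact sub_eq_zero.mp h0
    have := h g hout
    rw [hθD]
    simp only [one, mul_ite, mul_one, mul_zero]
    rw [Finset.sum_ite_mem, Finset.univ_inter]
    exact this

omit [Fintype V] [Fintype E] [DecidableEq E] in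
theorem inc_ne_zero_iff (src tgt : E → V) (e : E) (v : V) (hl : src e ≠ tgt e) :
    inc src tgt e v ≠ 0 ↔ (v = src e ∨ v = tgt e) := by
  unfold inc
  constructor
  · intro h
    by_contra hc
    push_neg at hc
    apply h
    rw [if_neg (Ne.symm hc.1), if_neg (Ne.symm hc.2)]
    rfl
  · rintro (rfl | rfl)
    · rw [if_pos rfl, if_neg (Ne.symm hl)]
      norm_num
    · rw [if_neg hl, if_pos rfl]
      norm_num

omit [Fintype V] [Fintype E] [DecidableEq E] in
theorem inc_cases (src tgt : E → V) (e : E) (v : V) :
    inc src tgt e v = 0 ∨ inc src tgt e v = 1 ∨ inc src tgt e v = -1 := by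
  unfold inc
  split_ifs <;> simp

/-- a nonempty edge set without degree-one vertices carries a nonzero real circulation -/
theorem exists_circ (src tgt : E → V) (F : Finset E) (hF : F.Nonempty)
    (hdeg : ∀ v, (F.filter fun e => inc src tgt e v ≠ 0).card ≠ 1) :
    ∃ y : E → ℝ, y ≠ 0 ∧ (∀ e ∉ F, y e = 0) ∧
      ∀ v, ∑ e, (inc src tgt e v : ℝ) * y e = 0 := by
  classical
  by_cases hloop : ∃ e ∈ F, src e = tgt e
  · obtain ⟨e, he, hl⟩ := hloop
    refine ⟨Pi.single e 1, ?_, ?_, ?_⟩
    · intro h
      have := congrFun h e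
      simp at this
    · intro e' he'
      have : e' ≠ e := by
        rintro rfl
        exact he' he
      simp [this]
    · intro v
      simp [Pi.single_apply, inc, hl]
  · push_neg at hloop
    obtain ⟨e0, he0⟩ := hF
    set U : Finset V := univ.filter fun v => ∃ e ∈ F, inc src tgt e v ≠ 0 with hU
    have hcardU : U.card ≤ F.card := by
      have h1 : ∑ v ∈ U, (F.filter fun e => inc src tgt e v ≠ 0).card
          = ∑ e ∈ F, (U.filter fun v => inc src tgt e v ≠ 0).card := by
        simp only [Finset.card_filter]
        rw [Finset.sum_comm]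
      have h2 : ∀ e ∈ F, (U.filter fun v => inc src tgt e v ≠ 0).card ≤ 2 := by
        intro e he
        have : (U.filter fun v => inc src tgt e v ≠ 0) ⊆ {src e, tgt e} := by
          intro v hv
          rw [Finset.mem_filter] at hv
          have := (inc_ne_zero_iff src tgt e v (hloop e he)).mp hv.2
          simp [this]
        exact (Finset.card_le_card this).trans Finset.card_le_two
      have h3 : ∀ v ∈ U, 2 ≤ (F.filter fun e => inc src tgt e v ≠ 0).card := by
        intro v hv
        rw [hU, Finset.mem_filter] at hv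
        obtain ⟨_, e, he, hne⟩ := hv
        have hpos : 0 < (F.filter fun e => inc src tgt e v ≠ 0).card :=
          Finset.card_pos.mpr ⟨e, Finset.mem_filter.mpr ⟨he, hne⟩⟩
        have := hdeg v
        omega
      have h4 : U.card * 2 ≤ ∑ v ∈ U, (F.filter fun e => inc src tgt e v ≠ 0).card := by
        rw [← smul_eq_mul]
        exact Finset.card_nsmul_le_sum _ _ _ h3
      have h5 : ∑ e ∈ F, (U.filter fun v => inc src tgt e v ≠ 0).card ≤ F.card * 2 := by
        rw [← smul_eq_mul]
        exact Finset.sum_le_card_nsmul _ _ _ h2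
      omega
    have hu0 : src e0 ∈ U := by
      rw [hU, Finset.mem_filter]
      exact ⟨Finset.mem_univ _, e0, he0,
        (inc_ne_zero_iff src tgt e0 _ (hloop e0 he0)).mpr (Or.inl rfl)⟩
    let T : (F → ℝ) →ₗ[ℝ] ((U.erase (src e0) : Finset V) → ℝ) :=
      LinearMap.pi fun v => ∑ e : F, (inc src tgt e.1 v.1 : ℝ) • LinearMap.proj e
    have hT : ∀ z v, T z v = ∑ e : F, (inc src tgt e.1 v.1 : ℝ) * z e := by
      intro z v
      simp [T, LinearMap.sum_apply]
    have hlt : Module.finrank ℝ ((U.erase (src e0) : Finset V) → ℝ)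
        < Module.finrank ℝ (F → ℝ) := by
      rw [Module.finrank_fintype_fun_eq_card, Module.finrank_fintype_fun_eq_card,
        Fintype.card_coe, Fintype.card_coe, Finset.card_erase_of_mem hu0]
      have : 0 < U.card := Finset.card_pos.mpr ⟨_, hu0⟩
      omega
    have hker := LinearMap.ker_ne_bot_of_finrank_lt (f := T) hlt
    obtain ⟨z, hz, hz0⟩ := (Submodule.ne_bot_iff _).mp hker
    have hTz : T z = 0 := hz
    let y : E → ℝ := fun e => if h : e ∈ F then z ⟨e, h⟩ else 0
    have hsum : ∀ v, ∑ e, (inc src tgt e v : ℝ) * y e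
        = ∑ e : F, (inc src tgt e.1 v : ℝ) * z e := by
      intro v
      rw [← Finset.sum_subset (Finset.subset_univ F)]
      · rw [← Finset.sum_attach]
        refine Finset.sum_congr rfl fun e _ => ?_
        simp [y]
      · intro e _ he
        simp [y, he]
    have hall : ∀ v, v ≠ src e0 → ∑ e, (inc src tgt e v : ℝ) * y e = 0 := by
      intro v hv
      by_cases hvU : v ∈ U
      · rw [hsum]
        have := congrFun hTz ⟨v, Finset.mem_erase.mpr ⟨hv, hvU⟩⟩
        rw [hT] at this
        exact this
      · refine Finset.sum_eq_zero fun e _ => ?_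
        by_cases he : e ∈ F
        · have : inc src tgt e v = 0 := by
            by_contra hne
            exact hvU (Finset.mem_filter.mpr ⟨Finset.mem_univ _, e, he, hne⟩)
          rw [this]
          simp
        · simp [y, he]
    refine ⟨y, ?_, ?_, ?_⟩
    · intro h
      apply hz0
      ext e
      have := congrFun h e.1
      simpa [y] using this
    · intro e he
      simp [y, he]
    · intro v
      by_cases hv : v = src e0
      · subst hv
        have htot : ∑ v, ∑ e, (inc src tgt e v : ℝ) * y e = 0 := by
          rw [Finset.sum_comm]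
          refine Finset.sum_eq_zero fun e _ => ?_
          have := sum_inc_mul (R := ℝ) src tgt e (fun _ => y e)
          rw [this, sub_self]
        rw [Finset.sum_eq_single (src e0)] at htot
        · exact htot
        · intro v _ hv
          exact hall v hv
        · intro h
          exact absurd (Finset.mem_univ _) h
      · exact hall v hv

/-- admissible real flows on the even subgraph `x` -/
def Adm (src tgt : E → V) (x : E → ZMod 2) (f : E → ℝ) : Prop :=
  (∀ v, ∑ e, (inc src tgt e v : ℝ) * f e = 0) ∧ (∀ e, x e = 0 → f e = 0) ∧ ∀ e, |f e| ≤ 1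

/-- the unsaturated edges -/
noncomputable def Uns (x : E → ZMod 2) (f : E → ℝ) : Finset E := by
  classical
  exact univ.filter fun e => x e ≠ 0 ∧ |f e| < 1

theorem deg_ne_one (src tgt : E → V) (x : E → ZMod 2)
    (hx : ∀ v, ∑ e, (inc src tgt e v : ZMod 2) * x e = 0) (f : E → ℝ)
    (hf : Adm src tgt x f) (v : V) :
    ((Uns x f).filter fun e => inc src tgt e v ≠ 0).card ≠ 1 := by
  classical
  intro h1
  obtain ⟨e0, he0⟩ := Finset.card_eq_one.mp h1
  have hmem0 : e0 ∈ (Uns x f).filter fun e => inc src tgt e v ≠ 0 := by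
    rw [he0]
    exact Finset.mem_singleton_self _
  rw [Finset.mem_filter, Uns, Finset.mem_filter] at hmem0
  obtain ⟨⟨_, hx0, hlt0⟩, hinc0⟩ := hmem0
  obtain ⟨hf1, hf2, hf3⟩ := hf
  let m : E → ℤ := fun e => if x e = 0 then 0 else
    if f e = 1 then inc src tgt e v else - inc src tgt e v
  have hm : ∀ e, e ≠ e0 → (inc src tgt e v : ℝ) * f e = (m e : ℝ) := by
    intro e he
    by_cases hxe : x e = 0
    · simp [m, hxe, hf2 e hxe]
    · by_cases hince : inc src tgt e v = 0
      · simp [m, hince]
      · have hnotlt : ¬ |f e| < 1 := by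
          intro hlt
          have : e ∈ (Uns x f).filter fun e => inc src tgt e v ≠ 0 := by
            rw [Finset.mem_filter, Uns, Finset.mem_filter]
            exact ⟨⟨Finset.mem_univ _, hxe, hlt⟩, hince⟩
          rw [he0, Finset.mem_singleton] at this
          exact he this
        have habs : |f e| = 1 := le_antisymm (hf3 e) (not_lt.mp hnotlt)
        rcases (abs_eq (by norm_num)).mp habs with h | h
        · simp [m, hxe, h]
        · have hne : f e ≠ 1 := by
            rw [h]
            norm_num
          simp only [m, if_neg hxe, if_neg hne]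
          rw [h]
          push_cast
          ring
  have hm2 : ∀ e, (m e : ZMod 2) = (inc src tgt e v : ZMod 2) * x e := by
    intro e
    by_cases hxe : x e = 0
    · simp [m, hxe]
    · have hx1 : x e = 1 := by
        have : ∀ a : ZMod 2, a ≠ 0 → a = 1 := by decide
        exact this _ hxe
      have hneg : ∀ a : ZMod 2, -a = a := by decide
      simp only [m, if_neg hxe]
      rw [hx1, mul_one]
      split_ifs
      · rfl
      · rw [Int.cast_neg, hneg]
  have hsum := hf1 v
  rw [← Finset.add_sum_erase _ _ (Finset.mem_univ e0)] at hsum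
  have hsum2 : ∑ e ∈ univ.erase e0, (inc src tgt e v : ℝ) * f e
      = ((∑ e ∈ univ.erase e0, m e : ℤ) : ℝ) := by
    rw [Int.cast_sum]
    exact Finset.sum_congr rfl fun e he => hm e (Finset.ne_of_mem_erase he)
  rw [hsum2] at hsum
  have hx2 := hx v
  rw [← Finset.add_sum_erase _ _ (Finset.mem_univ e0)] at hx2
  have hx3 : ∑ e ∈ univ.erase e0, (inc src tgt e v : ZMod 2) * x e
      = ((∑ e ∈ univ.erase e0, m e : ℤ) : ZMod 2) := by
    rw [Int.cast_sum]
    exact Finset.sum_congr rfl fun e _ => (hm2 e).symm
  rw [hx3] at hx2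
  set M : ℤ := ∑ e ∈ univ.erase e0, m e with hM
  have hM0 : M = 0 := by
    have habs : |(M : ℝ)| < 1 := by
      have : (M : ℝ) = -((inc src tgt e0 v : ℝ) * f e0) := by linarith
      rw [this, abs_neg, abs_mul]
      rcases inc_cases src tgt e0 v with h | h | h
      · exact absurd h hinc0
      · rw [h]
        simpa using hlt0
      · rw [h]
        simpa using hlt0
    have : |M| < 1 := by exact_mod_cast habs
    exact Int.abs_lt_one_iff.mp this
  rw [hM0] at hx2
  have hx1 : x e0 = 1 := by
    have : ∀ a : ZMod 2, a ≠ 0 → a = 1 := by decide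
    exact this _ hx0
  rw [hx1] at hx2
  rcases inc_cases src tgt e0 v with h | h | h
  · exact hinc0 h
  · rw [h] at hx2
    simp at hx2
  · rw [h] at hx2
    simp at hx2

theorem step (src tgt : E → V) (x : E → ZMod 2)
    (hx : ∀ v, ∑ e, (inc src tgt e v : ZMod 2) * x e = 0) (f : E → ℝ)
    (hf : Adm src tgt x f) (hne : (Uns x f).Nonempty) :
    ∃ f', Adm src tgt x f' ∧ (Uns x f').card < (Uns x f).card := by
  classical
  obtain ⟨y, hy0, hyF, hyc⟩ := exists_circ src tgt (Uns x f) hne
    (deg_ne_one src tgt x hx f hf)
  obtain ⟨hf1, hf2, hf3⟩ := hf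
  let r : E → ℝ := fun e => if 0 < y e then (1 - f e) / y e else (1 + f e) / (- y e)
  let F' : Finset E := (Uns x f).filter fun e => y e ≠ 0
  have hF' : F'.Nonempty := by
    by_contra hemp
    rw [Finset.not_nonempty_iff_eq_empty] at hemp
    apply hy0
    ext e
    by_contra hye
    by_cases he : e ∈ Uns x f
    · have : e ∈ F' := Finset.mem_filter.mpr ⟨he, hye⟩
      rw [hemp] at this
      exact absurd this (Finset.notMem_empty _)
    · exact hye (hyF e he)
  obtain ⟨e1, he1, hmin⟩ := Finset.exists_min_image F' r hF'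
  have hU : ∀ e, e ∈ Uns x f ↔ (x e ≠ 0 ∧ |f e| < 1) := by
    intro e
    rw [Uns, Finset.mem_filter]
    simp
  have hF'mem : ∀ e, y e ≠ 0 → e ∈ F' := by
    intro e hye
    refine Finset.mem_filter.mpr ⟨?_, hye⟩
    by_contra he
    exact hye (hyF e he)
  have hrpos : 0 < r e1 := by
    have h1 := (hU e1).mp (Finset.mem_filter.mp he1).1
    have h2 := abs_lt.mp h1.2
    by_cases hp : 0 < y e1
    · simp only [r, if_pos hp]
      exact div_pos (by linarith) hp
    · simp only [r, if_neg hp]
      have hne1 : y e1 ≠ 0 := (Finset.mem_filter.mp he1).2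
      have hneg : y e1 < 0 := lt_of_le_of_ne (not_lt.mp hp) hne1
      exact div_pos (by linarith) (by linarith)
  let f' : E → ℝ := fun e => f e + r e1 * y e
  have hbound : ∀ e, |f' e| ≤ 1 := by
    intro e
    by_cases hye : y e = 0
    · simp only [f', hye, mul_zero, add_zero]
      exact hf3 e
    · have hle := hmin e (hF'mem e hye)
      have hfe := abs_le.mp (hf3 e)
      rw [abs_le]
      by_cases hp : 0 < y e
      · simp only [r, if_pos hp] at hle
        have h2 : r e1 * y e ≤ 1 - f e := by
          have := mul_le_mul_of_nonneg_right hle hp.le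
          rw [div_mul_cancel₀ _ hp.ne'] at this
          exact this
        have h3 : 0 ≤ r e1 * y e := by positivity
        simp only [f']
        constructor <;> linarith
      · have hneg : y e < 0 := lt_of_le_of_ne (not_lt.mp hp) hye
        simp only [r, if_neg hp] at hle
        have h2 : r e1 * (- y e) ≤ 1 + f e := by
          have := mul_le_mul_of_nonneg_right hle (by linarith : (0:ℝ) ≤ - y e)
          rw [div_mul_cancel₀ _ (by linarith : - y e ≠ 0)] at this
          exact this
        have h3 : 0 ≤ r e1 * (- y e) := mul_nonneg hrpos.le (by linarith)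
        simp only [f']
        constructor <;> linarith
  refine ⟨f', ⟨?_, ?_, hbound⟩, ?_⟩
  · intro v
    have : ∑ e, (inc src tgt e v : ℝ) * f' e
        = ∑ e, (inc src tgt e v : ℝ) * f e + r e1 * ∑ e, (inc src tgt e v : ℝ) * y e := by
      rw [Finset.mul_sum, ← Finset.sum_add_distrib]
      refine Finset.sum_congr rfl fun e _ => by simp only [f']; ring
    rw [this, hf1, hyc]
    ring
  · intro e hxe
    have hy : y e = 0 := hyF e (by rw [hU]; simp [hxe])
    simp [f', hf2 e hxe, hy]
  · apply Finset.card_lt_card
    rw [Finset.ssubset_iff_of_subset]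
    · refine ⟨e1, (Finset.mem_filter.mp he1).1, ?_⟩
      rw [Uns, Finset.mem_filter]
      rintro ⟨_, _, hlt⟩
      have hne1 : y e1 ≠ 0 := (Finset.mem_filter.mp he1).2
      by_cases hp : 0 < y e1
      · have : f' e1 = 1 := by
          simp only [f', r, if_pos hp]
          field_simp
          ring
        rw [this] at hlt
        simp at hlt
      · have hneg : y e1 < 0 := lt_of_le_of_ne (not_lt.mp hp) hne1
        have : f' e1 = -1 := by
          simp only [f', r, if_neg hp]
          field_simp
          ring
        rw [this] at hlt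
        simp at hlt
    · intro e he
      rw [Uns, Finset.mem_filter] at he
      rw [hU]
      refine ⟨he.2.1, ?_⟩
      by_contra hge
      have hy : y e = 0 := hyF e (by rw [hU]; tauto)
      have : f' e = f e := by simp [f', hy]
      rw [this] at he
      exact hge he.2.2

/-- an even subgraph carries a flow with values `±1` -/
theorem exists_unit_flow (src tgt : E → V) (x : E → ZMod 2)
    (hx : ∀ v, ∑ e, (inc src tgt e v : ZMod 2) * x e = 0) :
    ∃ f : E → ℤ, (∀ v, ∑ e, inc src tgt e v * f e = 0) ∧ (∀ e, x e = 0 → f e = 0) ∧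
      (∀ e, x e ≠ 0 → f e = 1 ∨ f e = -1) := by
  classical
  have key : ∀ n : ℕ, ∀ f : E → ℝ, Adm src tgt x f → (Uns x f).card = n →
      ∃ f' : E → ℝ, Adm src tgt x f' ∧ Uns x f' = ∅ := by
    intro n
    induction n using Nat.strong_induction_on with
    | _ n ih =>
      intro f hf hn
      rcases (Uns x f).eq_empty_or_nonempty with h | h
      · exact ⟨f, hf, h⟩
      · obtain ⟨f', hf', hlt⟩ := step src tgt x hx f hf h
        exact ih _ (hn ▸ hlt) f' hf' rfl
  obtain ⟨f, ⟨hf1, hf2, hf3⟩, hemp⟩ := key _ (fun _ => 0)
    ⟨by simp, by simp, by simp⟩ rfl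
  have hsat : ∀ e, x e ≠ 0 → f e = 1 ∨ f e = -1 := by
    intro e hxe
    have : e ∉ Uns x f := by
      rw [hemp]
      exact Finset.notMem_empty _
    rw [Uns, Finset.mem_filter] at this
    have hnl : ¬ |f e| < 1 := fun h => this ⟨Finset.mem_univ _, hxe, h⟩
    exact (abs_eq (by norm_num)).mp (le_antisymm (hf3 e) (not_lt.mp hnl))
  let g : E → ℤ := fun e => if x e = 0 then 0 else if f e = 1 then 1 else -1
  have hg : ∀ e, (g e : ℝ) = f e := by
    intro e
    by_cases hxe : x e = 0
    · simp [g, hxe, hf2 e hxe]
    · rcases hsat e hxe with h | h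
      · simp [g, hxe, h]
      · have hne : f e ≠ 1 := by
          rw [h]
          norm_num
        simp only [g, if_neg hxe, if_neg hne]
        rw [h]
        norm_num
  refine ⟨g, ?_, ?_, ?_⟩
  · intro v
    have := hf1 v
    simp_rw [← hg] at this
    exact_mod_cast this
  · intro e hxe
    simp [g, hxe]
  · intro e hxe
    simp only [g, if_neg hxe]
    split_ifs
    · exact Or.inl rfl
    · exact Or.inr rfl

end Pool.Agent.X147.VF
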