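import Pool.Agent.X147.VecFlow

set_option autoImplicit false
set_option linter.unusedSectionVars false

namespace Pool.Agent.X147.VF

open Finset

variable {V E : Type} [Fintype V] [Fintype E] [DecidableEq V] [DecidableEq E]
variable {N : Type} [NormedAddCommGroup N] [NormedSpace ℝ N]

/-- a choice of an element of a set -/
noncomputable def pick (s : Set N) : N := by
  classical
  exact if h : s.Nonempty then h.some else 0

theorem pick_mem (s : Set N) (h : s.Nonempty) : pick s ∈ s := by
  classical
  unfold pick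
  rw [dif_pos h]
  exact h.some_mem

/-- a representative of the pair `{x, -x}` -/
noncomputable def rep (x : N) : N := pick {x, -x}

theorem rep_cases (x : N) : rep x = x ∨ rep x = -x := by
  have := pick_mem ({x, -x} : Set N) ⟨x, by simp⟩
  simpa [rep] using this

theorem rep_neg (x : N) : rep (-x) = rep x := by
  unfold rep
  rw [neg_neg, Set.pair_comm]

theorem rep_rep (x : N) : rep (rep x) = rep x := by
  rcases rep_cases x with h | h
  · rw [h]
    exact h
  · rw [h, rep_neg]
    exact h

open Classical in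
/-- signed coefficient of the line `l` in `x` -/
noncomputable def cf (l x : N) : ℤ := if rep x = l then (if x = rep x then 1 else -1) else 0

open Classical in
theorem cf_zmod (l x : N) : (cf l x : ZMod 2) = if rep x = l then 1 else 0 := by
  unfold cf
  split_ifs
  · simp
  · have : (-1 : ZMod 2) = 1 := by decide
    simp [this]
  · simp

theorem cf_self_smul (x : N) : cf (rep x) x • rep x = x := by
  unfold cf
  rw [if_pos rfl]
  split_ifs with h
  · rw [one_zsmul]
    exact h.symm
  · rcases rep_cases x with h' | h'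
    · exact absurd h'.symm h
    · rw [h']
      simp

/-- balance of the line `l` at `v` -/
noncomputable def bal (src tgt : E → V) (φ : E → N) (l : N) (v : V) : ℤ :=
  ∑ e, cf l (φ e) * inc src tgt e v

theorem oddify (g : Fin 3 → ℚ) (hg : ∃ i, g i ≠ 0) :
    ∃ a : Fin 3 → ℤ, ∃ c : ℚ, (∀ i, (a i : ℚ) = c * g i) ∧ ∃ i, ¬ (2 ∣ a i) := by
  obtain ⟨b, hb⟩ := IsLocalization.exist_integer_multiples_of_finite (nonZeroDivisors ℤ)
    (S := ℚ) g
  choose n hn using hb
  have hb0 : ((b : ℤ) : ℚ) ≠ 0 := by
    have := nonZeroDivisors.coe_ne_zero b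
    exact_mod_cast this
  have hn' : ∀ i, (n i : ℚ) = (b : ℤ) * g i := by
    intro i
    have := hn i
    rw [Algebra.smul_def] at this
    simpa using this
  obtain ⟨a, ha, hgcd⟩ := Finset.extract_gcd n (Finset.univ_nonempty (α := Fin 3))
  set D : ℤ := univ.gcd n with hD
  obtain ⟨i0, hi0⟩ := hg
  have hD0 : D ≠ 0 := by
    intro h0
    have h1 := ha i0 (Finset.mem_univ _)
    rw [h0, zero_mul] at h1
    have h2 := hn' i0
    rw [h1, Int.cast_zero] at h2
    exact (mul_ne_zero hb0 hi0) h2.symm
  refine ⟨a, (b : ℤ) / D, ?_, ?_⟩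
  · intro i
    have h1 := ha i (Finset.mem_univ _)
    have h2 := hn' i
    rw [h1] at h2
    push_cast at h2
    have hDq : (D : ℚ) ≠ 0 := by exact_mod_cast hD0
    field_simp
    linarith
  · by_contra hcon
    have hall : ∀ i, 2 ∣ a i := by
      intro i
      by_contra h
      exact hcon ⟨i, h⟩
    have : (2 : ℤ) ∣ univ.gcd a := Finset.dvd_gcd fun i _ => hall i
    rw [hgcd] at this
    norm_num at this

open Classical in
theorem three_dep (src tgt : E → V) (φ : E → N)
    (hrank : Module.finrank ℚ (Submodule.span ℚ (Set.range fun v : V =>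
      (fun z : Set.range φ => ∑ e, if φ e = z then (inc src tgt e v : ℚ) else 0))) ≤ 2)
    (l : Fin 3 → N) :
    ∃ K : Finset (Fin 3), K.Nonempty ∧
      ∀ v, ∑ i ∈ K, (bal src tgt φ (l i) v : ZMod 2) = 0 := by
  set S := Submodule.span ℚ (Set.range fun v : V =>
      (fun z : Set.range φ => ∑ e, if φ e = z then (inc src tgt e v : ℚ) else 0)) with hS
  have : Fintype (Set.range φ) := Fintype.ofFinite _
  let θ : Fin 3 → Module.Dual ℚ S := fun i =>
    (∑ z : Set.range φ, (cf (l i) (z : N) : ℚ) • LinearMap.proj z) ∘ₗ S.subtype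
  have hθ : ∀ i (v : V) (hv : (fun z : Set.range φ =>
      ∑ e, if φ e = z then (inc src tgt e v : ℚ) else 0) ∈ S),
      θ i ⟨_, hv⟩ = (bal src tgt φ (l i) v : ℚ) := by
    intro i v hv
    simp only [θ, LinearMap.comp_apply, Submodule.subtype_apply, LinearMap.sum_apply,
      LinearMap.smul_apply, LinearMap.proj_apply, smul_eq_mul, bal, Int.cast_sum, Int.cast_mul]
    simp_rw [Finset.mul_sum]
    rw [Finset.sum_comm]
    refine Finset.sum_congr rfl fun e _ => ?_
    rw [Finset.sum_eq_single (⟨φ e, Set.mem_range_self e⟩ : Set.range φ)]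
    · simp
    · intro z _ hz
      have : φ e ≠ (z : N) := by
        intro h
        apply hz
        exact Subtype.ext h.symm
      simp [this]
    · intro h
      exact absurd (Finset.mem_univ _) h
  have hnot : ¬ LinearIndependent ℚ θ := by
    intro hli
    have h1 := hli.fintype_card_le_finrank
    rw [Subspace.dual_finrank_eq] at h1
    simp at h1
    omega
  obtain ⟨g, hgsum, hgne⟩ := Fintype.not_linearIndependent_iff.mp hnot
  obtain ⟨a, c, hac, i1, hi1⟩ := oddify g hgne
  have hrel : ∀ v, ∑ i, a i * bal src tgt φ (l i) v = 0 := by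
    intro v
    have hmem : (fun z : Set.range φ =>
        ∑ e, if φ e = z then (inc src tgt e v : ℚ) else 0) ∈ S :=
      Submodule.subset_span ⟨v, rfl⟩
    have h1 := congrArg (fun f : Module.Dual ℚ S => f ⟨_, hmem⟩) hgsum
    simp only [LinearMap.sum_apply, LinearMap.smul_apply, LinearMap.zero_apply,
      smul_eq_mul] at h1
    simp_rw [hθ] at h1
    have h2 : ((∑ i, a i * bal src tgt φ (l i) v : ℤ) : ℚ) = 0 := by
      push_cast
      simp_rw [hac]
      have : ∑ i, c * g i * (bal src tgt φ (l i) v : ℚ)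
          = c * ∑ i, g i * (bal src tgt φ (l i) v : ℚ) := by
        rw [Finset.mul_sum]
        exact Finset.sum_congr rfl fun i _ => by ring
      rw [this, h1, mul_zero]
    exact_mod_cast h2
  refine ⟨univ.filter fun i => ¬ (2 ∣ a i),
    ⟨i1, Finset.mem_filter.mpr ⟨Finset.mem_univ _, hi1⟩⟩, ?_⟩
  intro v
  have h3 : ((∑ i, a i * bal src tgt φ (l i) v : ℤ) : ZMod 2) = 0 := by
    rw [hrel v]
    simp
  rw [Int.cast_sum] at h3
  rw [Finset.sum_filter]
  refine Eq.trans (Finset.sum_congr rfl fun i _ => ?_) h3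
  rw [Int.cast_mul]
  by_cases h : (2 : ℤ) ∣ a i
  · have : (a i : ZMod 2) = 0 := (ZMod.intCast_zmod_eq_zero_iff_dvd _ _).mpr (by exact_mod_cast h)
    rw [if_neg (not_not.mpr h), this, zero_mul]
  · have h1 : (a i : ZMod 2) ≠ 0 := by
      intro h0
      exact h (by exact_mod_cast (ZMod.intCast_zmod_eq_zero_iff_dvd _ _).mp h0)
    have : (a i : ZMod 2) = 1 := by
      have : ∀ a : ZMod 2, a ≠ 0 → a = 1 := by decide
      exact this _ h1
    rw [if_pos h, this, one_mul]

open Classical in
theorem exists_J (src tgt : E → V) (φ : E → N) (L : Finset N)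
    (hrank : Module.finrank ℚ (Submodule.span ℚ (Set.range fun v : V =>
      (fun z : Set.range φ => ∑ e, if φ e = z then (inc src tgt e v : ℚ) else 0))) ≤ 2) :
    ∃ J : Finset N, J ⊆ L ∧ J.card ≤ 2 ∧
      ∀ v, ∑ l ∈ L \ J, (bal src tgt φ l v : ZMod 2) = 0 := by
  obtain ⟨J, hJ, hmin⟩ := Finset.exists_min_image
    (L.powerset.filter fun J => ∀ v, ∑ l ∈ L \ J, (bal src tgt φ l v : ZMod 2) = 0)
    Finset.card ⟨L, by simp⟩
  rw [Finset.mem_filter, Finset.mem_powerset] at hJ
  refine ⟨J, hJ.1, ?_, hJ.2⟩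
  by_contra hcard
  obtain ⟨a, ha, b, hb, c, hc, hab, hac, hbc⟩ := Finset.two_lt_card.mp (not_le.mp hcard)
  obtain ⟨K, hKne, hK⟩ := three_dep src tgt φ hrank ![a, b, c]
  have hinj : Function.Injective (![a, b, c] : Fin 3 → N) := by
    intro i j hij
    fin_cases i <;> fin_cases j <;> simp_all
  have hsub : K.image ![a, b, c] ⊆ J := by
    intro x hx
    obtain ⟨i, _, rfl⟩ := Finset.mem_image.mp hx
    fin_cases i <;> simp [ha, hb, hc]
  have hlt : (J \ K.image ![a, b, c]).card < J.card := by
    apply Finset.card_lt_card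
    rw [Finset.ssubset_iff_of_subset Finset.sdiff_subset]
    obtain ⟨i, hi⟩ := hKne
    refine ⟨![a, b, c] i, hsub (Finset.mem_image_of_mem _ hi), ?_⟩
    simp only [Finset.mem_sdiff, not_and, not_not]
    intro _
    exact Finset.mem_image_of_mem _ hi
  have hle := hmin (J \ K.image ![a, b, c]) (by
    rw [Finset.mem_filter, Finset.mem_powerset]
    refine ⟨Finset.sdiff_subset.trans hJ.1, ?_⟩
    intro v
    have hset : L \ (J \ K.image ![a, b, c]) = (L \ J) ∪ K.image ![a, b, c] := by
      ext x
      simp only [Finset.mem_sdiff, Finset.mem_union]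
      constructor
      · rintro ⟨h1, h2⟩
        by_cases hxJ : x ∈ J
        · right
          by_contra hx
          exact h2 ⟨hxJ, hx⟩
        · exact Or.inl ⟨h1, hxJ⟩
      · rintro (⟨h1, h2⟩ | h)
        · exact ⟨h1, fun h => h2 h.1⟩
        · exact ⟨hJ.1 (hsub h), fun h' => h'.2 h⟩
    have hdisj : Disjoint (L \ J) (K.image ![a, b, c]) :=
      Finset.disjoint_of_subset_right hsub Finset.sdiff_disjoint
    rw [hset, Finset.sum_union hdisj, hJ.2 v, zero_add,
      Finset.sum_image fun x _ y _ h => hinj h]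
    exact hK v)
  omega

theorem indep_two (J : Finset N) (hcard : J.card ≤ 2) (hunit : ∀ l ∈ J, ‖l‖ = 1)
    (hrep : ∀ l ∈ J, rep l = l) (n : N → ℤ) (hsum : ∑ l ∈ J, n l • l = 0) :
    ∀ l ∈ J, n l = 0 := by
  classical
  intro a ha
  by_contra hna
  -- single other element at most
  have hrest : (J.erase a).card ≤ 1 := by
    rw [Finset.card_erase_of_mem ha]
    omega
  rw [← Finset.add_sum_erase _ _ ha] at hsum
  rcases (J.erase a).eq_empty_or_nonempty with hemp | ⟨b, hb⟩
  · rw [hemp, Finset.sum_empty, add_zero] at hsum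
    have h1 : ‖n a • a‖ = |(n a : ℝ)| := by
      rw [← Int.cast_smul_eq_zsmul ℝ, norm_smul, hunit a ha, mul_one, Real.norm_eq_abs]
    rw [hsum, norm_zero] at h1
    have : (n a : ℝ) = 0 := abs_eq_zero.mp h1.symm
    exact hna (by exact_mod_cast this)
  · have hJb : J.erase a = {b} := by
      apply Finset.eq_singleton_iff_unique_mem.mpr
      refine ⟨hb, fun x hx => ?_⟩
      exact Finset.card_le_one.mp hrest x hx b hb
    rw [hJb, Finset.sum_singleton] at hsum
    have hbJ : b ∈ J := Finset.mem_of_mem_erase hb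
    have hba : b ≠ a := Finset.ne_of_mem_erase hb
    have h1 : n a • a = -(n b • b) := eq_neg_of_add_eq_zero_left hsum
    have hna' : ‖n a • a‖ = |(n a : ℝ)| := by
      rw [← Int.cast_smul_eq_zsmul ℝ, norm_smul, hunit a ha, mul_one, Real.norm_eq_abs]
    have hnb' : ‖n b • b‖ = |(n b : ℝ)| := by
      rw [← Int.cast_smul_eq_zsmul ℝ, norm_smul, hunit b hbJ, mul_one, Real.norm_eq_abs]
    have h2 : |(n a : ℝ)| = |(n b : ℝ)| := by
      rw [← hna', ← hnb', h1, norm_neg]
    have hnaR : (n a : ℝ) ≠ 0 := by exact_mod_cast hna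
    have h1R : (n a : ℝ) • a = -((n b : ℝ) • b) := by
      rw [Int.cast_smul_eq_zsmul ℝ, Int.cast_smul_eq_zsmul ℝ]
      exact h1
    rcases abs_eq_abs.mp h2 with h | h
    · -- n a = n b : a = -b
      have : a = -b := by
        rw [← h, ← smul_neg] at h1R
        exact smul_right_injective N hnaR h1R
      apply hba
      have h3 : rep a = rep b := by rw [this, rep_neg]
      rw [hrep a ha, hrep b hbJ] at h3
      exact h3.symm
    · have h' : (n b : ℝ) = - (n a : ℝ) := by linarith
      have : a = b := by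
        rw [h', neg_smul, neg_neg] at h1R
        exact smul_right_injective N hnaR h1R
      exact hba this.symm

open Classical in
theorem four_flow (src tgt : E → V) (φ : E → N) (hunit : ∀ e, ‖φ e‖ = 1)
    (hcons : ∀ v, ∑ e, (inc src tgt e v) • φ e = 0)
    (hrank : Module.finrank ℚ (Submodule.span ℚ (Set.range fun v : V =>
      (fun z : Set.range φ => ∑ e, if φ e = z then (inc src tgt e v : ℚ) else 0))) ≤ 2) :
    ∃ ψ : E → ℤ, (∀ v, ∑ e, inc src tgt e v * ψ e = 0) ∧ ∀ e, 0 < |ψ e| ∧ |ψ e| < 4 := by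
  set L : Finset N := univ.image fun e => rep (φ e) with hL
  obtain ⟨J, hJL, hJcard, hJ⟩ := exists_J src tgt φ L hrank
  have hLmem : ∀ e, rep (φ e) ∈ L := fun e => Finset.mem_image_of_mem _ (Finset.mem_univ _)
  have hunitJ : ∀ l ∈ J, ‖l‖ = 1 := by
    intro l hl
    obtain ⟨e, _, rfl⟩ := Finset.mem_image.mp (hJL hl)
    rcases rep_cases (φ e) with h | h
    · rw [h]
      exact hunit e
    · rw [h, norm_neg]
      exact hunit e
  have hrepJ : ∀ l ∈ J, rep l = l := by
    intro l hl
    obtain ⟨e, _, rfl⟩ := Finset.mem_image.mp (hJL hl)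
    exact rep_rep _
  -- first even subgraph
  let x1 : E → ZMod 2 := fun e => if rep (φ e) ∈ J then 0 else 1
  have hx1 : ∀ v, ∑ e, (inc src tgt e v : ZMod 2) * x1 e = 0 := by
    intro v
    rw [← hJ v]
    simp only [bal, Int.cast_sum, Int.cast_mul]
    rw [Finset.sum_comm]
    refine Finset.sum_congr rfl fun e _ => ?_
    rw [← Finset.sum_mul, mul_comm]
    congr 1
    simp_rw [cf_zmod]
    rw [Finset.sum_ite_eq]
    simp only [x1, Finset.mem_sdiff, hLmem e, true_and]
    by_cases h : rep (φ e) ∈ J <;> simp [h]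
  -- second even subgraph
  set S : Finset E := univ.filter fun e => rep (φ e) ∈ J with hS
  obtain ⟨x2, hx2S, hx2⟩ := exists_even_superset src tgt S (by
    intro g hg
    let χ : V → ℤ := fun v => if g v = 0 then 0 else 1
    have hχ : ∀ v, (χ v : ZMod 2) = g v := by
      intro v
      by_cases h : g v = 0
      · simp [χ, h]
      · have h1 : g v = 1 := by
          have : ∀ a : ZMod 2, a ≠ 0 → a = 1 := by decide
          exact this _ h
        simp [χ, h1]
    let n : N → ℤ := fun l => ∑ e, cf l (φ e) * (χ (src e) - χ (tgt e))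
    have hnsum : ∑ l ∈ J, n l • l = 0 := by
      have h1 : ∑ v, χ v • ∑ e, (inc src tgt e v) • φ e = 0 := by
        refine Finset.sum_eq_zero fun v _ => ?_
        rw [hcons v, smul_zero]
      have h2 : ∑ v, χ v • ∑ e, (inc src tgt e v) • φ e
          = ∑ e, (χ (src e) - χ (tgt e)) • φ e := by
        simp_rw [Finset.smul_sum]
        rw [Finset.sum_comm]
        refine Finset.sum_congr rfl fun e _ => ?_
        have h3 := sum_inc_mul (R := ℤ) src tgt e χ
        rw [← h3, Finset.sum_smul]
        refine Finset.sum_congr rfl fun v _ => ?_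
        rw [smul_smul, mul_comm]
        simp
      rw [h2] at h1
      rw [← h1]
      simp only [n]
      simp_rw [Finset.sum_smul]
      rw [Finset.sum_comm]
      refine Finset.sum_congr rfl fun e _ => ?_
      by_cases he : rep (φ e) ∈ J
      · rw [Finset.sum_eq_single_of_mem (rep (φ e)) he]
        · rw [mul_comm, mul_smul, cf_self_smul]
        · intro l _ hl
          have : cf l (φ e) = 0 := by
            unfold cf
            rw [if_neg (Ne.symm hl)]
          rw [this, zero_mul, zero_smul]
      · have hge : g (src e) = g (tgt e) := hg e (by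
          rw [hS, Finset.mem_filter]
          exact fun h => he h.2)
        have hχe : χ (src e) - χ (tgt e) = 0 := by
          simp [χ, hge]
        rw [hχe]
        simp
    have hn0 := indep_two J hJcard hunitJ hrepJ n hnsum
    have h4 : ∑ l ∈ J, (n l : ZMod 2) = 0 := by
      refine Finset.sum_eq_zero fun l hl => ?_
      rw [hn0 l hl]
      simp
    rw [← h4]
    simp only [n, Int.cast_sum, Int.cast_mul, Int.cast_sub, hχ, cf_zmod]
    rw [Finset.sum_comm, hS, Finset.sum_filter]
    refine Finset.sum_congr rfl fun e _ => ?_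
    rw [← Finset.sum_mul, Finset.sum_ite_eq]
    split_ifs <;> simp)
  obtain ⟨f1, hf1c, hf1z, hf1u⟩ := exists_unit_flow src tgt x1 hx1
  obtain ⟨f2, hf2c, hf2z, hf2u⟩ := exists_unit_flow src tgt x2 hx2
  refine ⟨fun e => f1 e + 2 * f2 e, ?_, ?_⟩
  · intro v
    have : ∑ e, inc src tgt e v * (f1 e + 2 * f2 e)
        = ∑ e, inc src tgt e v * f1 e + 2 * ∑ e, inc src tgt e v * f2 e := by
      rw [Finset.mul_sum, ← Finset.sum_add_distrib]
      exact Finset.sum_congr rfl fun e _ => by ring
    rw [this, hf1c, hf2c]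
    norm_num
  · intro e
    have hone : (1 : ZMod 2) ≠ 0 := one_ne_zero
    by_cases he : rep (φ e) ∈ J
    · have hx1e : x1 e = 0 := by simp [x1, he]
      have hx2e : x2 e ≠ 0 := by
        rw [hx2S e (by simp [hS, he])]
        exact hone
      have h1 := hf1z e hx1e
      rcases hf2u e hx2e with h2 | h2 <;> simp [h1, h2]
    · have hx1e : x1 e ≠ 0 := by simp [x1, he]
      have h1 := hf1u e hx1e
      have h2 : f2 e = 0 ∨ f2 e = 1 ∨ f2 e = -1 := by
        by_cases h : x2 e = 0
        · exact Or.inl (hf2z e h)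
        · exact Or.inr (hf2u e h)
      rcases h1 with h1 | h1 <;> rcases h2 with h2 | h2 | h2 <;> simp [h1, h2]

end Pool.Agent.X147.VF
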